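import Pool.Agent.Work.MP_c00b06_gt.NF0

/-! Degree two: reduction of the linking matrices of an H-graph to a short list. -/

namespace Pool.Agent.GH
open Gn

/-- Linking matrices of four leaves and `n` strands. -/
def Adm4 (n : ℕ) (A : ℕ → ℕ → ℤ) : Prop :=
  (∀ i j, A i j = A j i) ∧ (∀ i j, 4 ≤ i → 4 ≤ j → A i j = 0) ∧ ∀ i j, 4 + n ≤ j → A i j = 0

def prm (σ : ℕ → ℕ) (A : ℕ → ℕ → ℤ) : ℕ → ℕ → ℤ := fun x y => A (σ x) (σ y)

/-- The half turn. -/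
def hft (x : ℕ) : ℕ :=
  if x = 0 then 2 else if x = 1 then 3 else if x = 2 then 0 else if x = 3 then 1 else x

/-- Leaf `r` clasps the handle `j r`. -/
def pt (j0 j1 j2 j3 : ℕ) : ℕ → ℕ → ℤ :=
  lkl [.c true 0 j0, .c true 1 j1, .c true 2 j2, .c true 3 j3]

/-- The wheel with two legs. -/
def Bw : ℕ → ℕ → ℤ := lkl [.c true 0 2, .c true 1 4, .c true 3 5]

def gens : ℕ → List (ℕ → ℕ → ℤ)
  | 2 => [pt 4 5 4 5, Bw]
  | 3 => [pt 4 5 4 6, pt 5 4 5 6, pt 6 4 6 5]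
  | 4 => [pt 4 5 6 7, pt 4 6 5 7, pt 4 7 5 6]
  | _ => []

structure Deg2 (n : ℕ) (p : (ℕ → ℕ → ℤ) → Prop) : Prop where
  add : ∀ A A' A'', Adm4 n A → Adm4 n A' → Adm4 n A'' → AddR A A' A'' →
    (p A' → p A'' → p A) ∧ (p A → p A' → p A'')
  zero : ∀ A, Adm4 n A → (∀ j, A 0 j = 0) → p A
  sw01 : ∀ A, Adm4 n A → p A → p (prm (Equiv.swap 0 1) A)
  sw23 : ∀ A, Adm4 n A → p A → p (prm (Equiv.swap 2 3) A)
  half : ∀ A, Adm4 n A → p A → p (prm hft A)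
  supp : ∀ A, Adm4 n A → ∀ i < n, (∀ j, A j (4 + i) = 0) → p A
  twist : ∀ A, Adm4 n A → (∀ j, A 0 j = if j = 0 then -1 else 0) → p A
  same : ∀ A, Adm4 n A → ∀ s, 4 ≤ s → (∀ j, A 0 j = if j = s then -1 else 0) →
    (∀ j, A 1 j = if j = s then -1 else 0) → p A
  lol : ∀ A, Adm4 n A → (∀ j, A 0 j = if j = 1 then -1 else 0) →
    (∀ j, A 1 j = if j = 0 then -1 else 0) → p A
  gen : ∀ A ∈ gens n, p A

theorem d2a_adm {n : ℕ} {A : ℕ → ℕ → ℤ} (h : Adm4 n A) {σ : ℕ → ℕ} (e : ∀ x, 4 ≤ x → σ x = x) :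
    Adm4 n (prm σ A) := by
  refine ⟨fun i j => h.1 _ _, fun i j hi hj => ?_, fun i j hj => ?_⟩ <;> unfold prm
  · rw [e i hi, e j hj, h.2.1 i j hi hj]
  · rw [e j (by omega), h.2.2 _ j hj]

theorem d2a_01 (x : ℕ) (h : 4 ≤ x) : Equiv.swap 0 1 x = x :=
  Equiv.swap_apply_of_ne_of_ne (by omega) (by omega)

theorem d2a_23 (x : ℕ) (h : 4 ≤ x) : Equiv.swap 2 3 x = x :=
  Equiv.swap_apply_of_ne_of_ne (by omega) (by omega)

theorem d2a_hf (x : ℕ) (h : 4 ≤ x) : hft x = x := by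
  unfold hft
  split_ifs <;> omega

theorem adm4_sw01 {n : ℕ} {A : ℕ → ℕ → ℤ} (h : Adm4 n A) : Adm4 n (prm (Equiv.swap 0 1) A) := by
  exact d2a_adm h d2a_01

theorem adm4_sw23 {n : ℕ} {A : ℕ → ℕ → ℤ} (h : Adm4 n A) : Adm4 n (prm (Equiv.swap 2 3) A) := by
  exact d2a_adm h d2a_23

theorem adm4_hft {n : ℕ} {A : ℕ → ℕ → ℤ} (h : Adm4 n A) : Adm4 n (prm hft A) := by
  exact d2a_adm h d2a_hf

theorem hft_hft (x : ℕ) : hft (hft x) = x := by
  rcases lt_or_ge x 4 with h | h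
  · interval_cases x <;> rfl
  · rw [d2a_hf x h, d2a_hf x h]

/-- Row `r < 4` points to `j r`. -/
def d2a_M (j : ℕ → ℕ) : ℕ → ℕ → ℤ := fun x y =>
  if (x < 4 ∧ y = j x) ∨ (y < 4 ∧ x = j y) then -1 else 0

def d2a_tp (a b c d r : ℕ) : ℕ := if r = 0 then a else if r = 1 then b else if r = 2 then c else d

def d2a_G : ℕ → List (ℕ → ℕ)
  | 2 => [d2a_tp 4 5 4 5, d2a_tp 2 4 0 5]
  | 3 => [d2a_tp 4 5 4 6, d2a_tp 5 4 5 6, d2a_tp 6 4 6 5]
  | 4 => [d2a_tp 4 5 6 7, d2a_tp 4 6 5 7, d2a_tp 4 7 5 6]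
  | _ => []

theorem d2a_admM {n : ℕ} {j : ℕ → ℕ} (h : ∀ r < 4, j r < 4 + n) : Adm4 n (d2a_M j) :=
  ⟨fun _ _ => if_congr or_comm rfl rfl, fun _ _ _ _ => if_neg (by omega),
    fun x _ _ => if_neg (by have := h x; omega)⟩

theorem d2a_box {l : List It} {j : ℕ → ℕ} (hl : ∀ t ∈ l, t.fst < 8 ∧ t.snd < 8)
    (k : ∀ r < 4, j r < 8) (h : ∀ x < 8, ∀ y < 8, lkl l x y = d2a_M j x y) : lkl l = d2a_M j := by
  funext x y
  by_cases e : x < 8 ∧ y < 8
  · exact h x e.1 y e.2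
  have k1 := k x
  have k2 := k y
  refine (List.sum_eq_zero fun z hz => ?_).trans (if_neg (by omega)).symm
  obtain ⟨t, ht, rfl⟩ := List.mem_map.1 hz
  have := hl t ht
  cases t <;> simp only [It.fst, It.snd] at this <;> simp only [It.lk]
  · rw [if_neg (c := _ ∧ _) (by omega), if_neg (c := _ ∧ _) (by omega), add_zero, mul_zero]
  · exact if_neg (by omega)

theorem d2a_gens (n : ℕ) : gens n = (d2a_G n).map d2a_M := by
  rcases n with _ | _ | _ | _ | _ | n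
  · rfl
  · rfl
  · refine congrArg₂ _ ?_ (congrArg₂ _ ?_ rfl) <;>
      exact d2a_box (by decide) (by decide) (by decide)
  · refine congrArg₂ _ ?_ (congrArg₂ _ ?_ (congrArg₂ _ ?_ rfl)) <;>
      exact d2a_box (by decide) (by decide) (by decide)
  · refine congrArg₂ _ ?_ (congrArg₂ _ ?_ (congrArg₂ _ ?_ rfl)) <;>
      exact d2a_box (by decide) (by decide) (by decide)
  · rfl

theorem d2a_G_spec (n : ℕ) : ∀ j ∈ d2a_G n, (∀ r < 4, j r < 4 + n) ∧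
    ∀ i < n, ∃ r < 4, j r = 4 + i ∧ ∀ y < 4, j y ≠ r := by
  rcases n with _ | _ | _ | _ | _ | n
  iterate 5 decide
  exact fun j hj => absurd hj List.not_mem_nil

theorem gens_adm {n : ℕ} {A : ℕ → ℕ → ℤ} (h : A ∈ gens n) : Adm4 n A := by
  rw [d2a_gens] at h
  obtain ⟨j, hj, rfl⟩ := List.mem_map.1 h
  exact d2a_admM (d2a_G_spec n j hj).1

/-- Every strand is the only target of some leaf. -/
theorem gens_row {n : ℕ} {A : ℕ → ℕ → ℤ} (h : A ∈ gens n) {i : ℕ} (hi : i < n) :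
    ∃ r < 4, ∀ j, j ≠ 4 + i → A r j = 0 := by
  rw [d2a_gens] at h
  obtain ⟨j, hj, rfl⟩ := List.mem_map.1 h
  obtain ⟨r, hr, h1, h2⟩ := (d2a_G_spec n j hj).2 i hi
  exact ⟨r, hr, fun y hy => if_neg (by have := h2 y; omega)⟩

variable {n : ℕ} {p : (ℕ → ℕ → ℤ) → Prop}

/-- An involution of the leaves that exchanges `0` and `r` and keeps `p`.  PLAN: `id`,
`swap 0 1`, `hft`, and the permutation `(0 3) (1 2)`, a product of `hft` and the two swaps. -/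
theorem Deg2.mv (H : Deg2 n p) {r : ℕ} (hr : r < 4) : ∃ σ : ℕ → ℕ, (∀ x, σ (σ x) = x) ∧ σ 0 = r ∧
    (∀ x, 4 ≤ x → σ x = x) ∧ ∀ A, Adm4 n A → Adm4 n (prm σ A) ∧ (p A → p (prm σ A)) := by
  obtain rfl | rfl | rfl | rfl : r = 0 ∨ r = 1 ∨ r = 2 ∨ r = 3 := by omega
  · exact ⟨id, fun _ => rfl, rfl, fun _ _ => rfl, fun A hA => ⟨hA, id⟩⟩
  · exact ⟨Equiv.swap 0 1, Equiv.swap_apply_self _ _, rfl, d2a_01,
      fun A hA => ⟨adm4_sw01 hA, H.sw01 A hA⟩⟩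
  · exact ⟨hft, hft_hft, rfl, d2a_hf, fun A hA => ⟨adm4_hft hA, H.half A hA⟩⟩
  · have e : ∀ x, 4 ≤ x → Equiv.swap 0 1 (Equiv.swap 2 3 (hft x)) = x := fun x h => by
      rw [d2a_hf x h, d2a_23 x h, d2a_01 x h]
    refine ⟨fun x => Equiv.swap 0 1 (Equiv.swap 2 3 (hft x)), fun x => ?_, rfl, e,
      fun A hA => ⟨d2a_adm hA e, fun h => H.half _ (adm4_sw23 (adm4_sw01 hA))
        (H.sw23 _ (adm4_sw01 hA) (H.sw01 A hA h))⟩⟩
    rcases lt_or_ge x 4 with h | h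
    · interval_cases x <;> rfl
    · beta_reduce
      rw [e x h, e x h]

theorem d2a_back {σ : ℕ → ℕ} (h : ∀ x, σ (σ x) = x) {A : ℕ → ℕ → ℤ} (k : p (prm σ (prm σ A))) :
    p A := d1a_eq k fun x y => by simp only [prm, h]

theorem d2a_iff {σ : ℕ → ℕ} (h : ∀ x, σ (σ x) = x) (x y : ℕ) : σ x = y ↔ x = σ y :=
  ⟨fun e => by rw [← e, h], fun e => by rw [e, h]⟩

theorem Deg2.zero' (H : Deg2 n p) {r : ℕ} (hr : r < 4) {A : ℕ → ℕ → ℤ} (hA : Adm4 n A)
    (h : ∀ j, A r j = 0) : p A := by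
  obtain ⟨σ, h1, h2, -, h4⟩ := H.mv hr
  have a := (h4 A hA).1
  exact d2a_back h1 ((h4 _ a).2 (H.zero _ a fun j => by rw [prm, h2, h]))

theorem Deg2.twist' (H : Deg2 n p) {r : ℕ} (hr : r < 4) {A : ℕ → ℕ → ℤ} (hA : Adm4 n A)
    (h : ∀ j, A r j = if j = r then -1 else 0) : p A := by
  obtain ⟨σ, h1, h2, -, h4⟩ := H.mv hr
  have a := (h4 A hA).1
  refine d2a_back h1 ((h4 _ a).2 (H.twist _ a fun j => ?_))
  rw [prm, h2, h]
  exact if_congr (by rw [d2a_iff h1, ← h2, h1]) rfl rfl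

theorem d2a_set {A : ℕ → ℕ → ℤ} (hA : Adm4 n A) {r j : ℕ} (hr : r < 4) (hj : j < 4 + n) :
    Adm4 n (setR r j A) := by
  refine ⟨fun x y => ?_, fun x y hx hy => ?_, fun x y hy => ?_⟩ <;> simp only [setR]
  · have := hA.1 x y
    split_ifs <;> omega
  · have := hA.2.1 x y hx hy
    split_ifs <;> omega
  · have := hA.2.2 x y hy
    split_ifs <;> omega

/-- PLAN: as `Deg1.row0`. -/
theorem Deg2.row0 (H : Deg2 n p) {A : ℕ → ℕ → ℤ} (hA : Adm4 n A)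
    (h : ∀ j, A 0 j ≠ 0 → p (setR 0 j A)) : p A := by
  induction hm : ∑ k ∈ Finset.range (4 + n), (A 0 k).natAbs using Nat.strong_induction_on
    generalizing A with
  | _ m ih =>
  by_cases h0 : ∀ j, A 0 j = 0
  · exact H.zero A hA h0
  obtain ⟨j, hj⟩ := not_forall.1 h0
  have jn : j < 4 + n := not_le.1 fun k => hj (hA.2.2 0 j k)
  have key : ∀ c : ℤ, (A 0 j + c).natAbs < (A 0 j).natAbs → Adm4 n (d1a_mv j c A) ∧
      p (d1a_mv j c A) := fun c hc => by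
    have a : Adm4 n (d1a_mv j c A) := ⟨fun x y => if_congr or_comm (by rw [hA.1]) (hA.1 x y),
      fun x y hx hy => (if_neg (by omega)).trans (hA.2.1 x y hx hy),
      fun x y hy => (if_neg (by omega)).trans (hA.2.2 x y hy)⟩
    have e : ∀ k, d1a_mv j c A 0 k = if k = j then A 0 k + c else A 0 k := fun k =>
      if_congr (by omega) rfl rfl
    have lt : ∑ k ∈ Finset.range (4 + n), (d1a_mv j c A 0 k).natAbs <
        ∑ k ∈ Finset.range (4 + n), (A 0 k).natAbs := by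
      refine Finset.sum_lt_sum (fun k _ => ?_) ⟨j, Finset.mem_range.2 jn, by rwa [e, if_pos rfl]⟩
      rw [e]
      split_ifs with k
      · rw [k]
        exact hc.le
      · rfl
    refine ⟨a, ih _ (hm ▸ lt) a (fun k hk => d1a_eq (h k ?_) fun x y => ?_) rfl⟩
    · rw [e] at hk
      split_ifs at hk with k
      · rwa [k]
      · exact hk
    · grind [setR, d1a_mv]
  have aS := d2a_set hA (r := 0) (by omega) jn
  rcases lt_or_gt_of_ne hj with l | l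
  · obtain ⟨a, k⟩ := key 1 (by omega)
    refine (H.add _ _ _ hA a aS ⟨fun x y hx hy => ?_, fun y hy => ?_, ?_⟩).1 k (h j hj)
    · simp [setR, d1a_mv, hx, hy]
    · grind [setR, d1a_mv]
    · exact ⟨0, by grind [setR, d1a_mv]⟩
  · obtain ⟨a, k⟩ := key (-1) (by omega)
    refine (H.add _ _ _ a aS hA ⟨fun x y hx hy => ?_, fun y hy => ?_, ?_⟩).2 k (h j hj)
    · simp [setR, d1a_mv, hx, hy]
    · grind [setR, d1a_mv]
    · exact ⟨0, by grind [setR, d1a_mv]⟩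

/-- PLAN: conjugate `row0` by `mv`. -/
theorem Deg2.row (H : Deg2 n p) {r : ℕ} (hr : r < 4) {A : ℕ → ℕ → ℤ} (hA : Adm4 n A)
    (h : ∀ j, A r j ≠ 0 → p (setR r j A)) : p A := by
  obtain ⟨σ, h1, h2, -, h4⟩ := H.mv hr
  have a := (h4 A hA).1
  refine d2a_back h1 ((h4 _ a).2 (H.row0 a fun j hj => ?_))
  rw [prm, h2] at hj
  refine d1a_eq ((h4 _ (d2a_set hA hr (not_le.1 fun k => hj (hA.2.2 _ _ k)))).2 (h _ hj))
    fun x y => ?_
  simp only [setR, prm, ← h2, d2a_iff h1, h1]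

def d2a_act (σ j : ℕ → ℕ) (r : ℕ) : ℕ := σ (j (σ r))

theorem d2a_prm {σ : ℕ → ℕ} (h : ∀ x, σ (σ x) = x) (e : ∀ x, 4 ≤ x → σ x = x) (j : ℕ → ℕ) :
    prm σ (d2a_M j) = d2a_M (d2a_act σ j) := by
  have k : ∀ x, σ x < 4 ↔ x < 4 := fun x => by
    have k1 := e x
    have k2 := e (σ x)
    have k3 := h x
    omega
  funext x y
  exact if_congr (by simp only [d2a_act, k, d2a_iff h]) rfl rfl

/-- The orbit under the group of order eight. -/
def d2a_orb (j : ℕ → ℕ) : List (ℕ → ℕ) :=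
  [j, d2a_act hft j].flatMap fun j => [j, d2a_act (Equiv.swap 2 3) j].flatMap fun j =>
    [j, d2a_act (Equiv.swap 0 1) j]

theorem d2a_p (H : Deg2 n p) {j : ℕ → ℕ} (hj : j ∈ d2a_G n) : ∀ k ∈ d2a_orb j, p (d2a_M k) := by
  have g : d2a_M j ∈ gens n := d2a_gens n ▸ List.mem_map_of_mem hj
  have key : ∀ {σ : ℕ → ℕ}, (∀ x, σ (σ x) = x) → (∀ x, 4 ≤ x → σ x = x) →
      (∀ A, Adm4 n A → p A → p (prm σ A)) → ∀ {j}, Adm4 n (d2a_M j) ∧ p (d2a_M j) →
      ∀ k ∈ [j, d2a_act σ j], Adm4 n (d2a_M k) ∧ p (d2a_M k) := fun h e k j hj i hi => by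
    rcases List.mem_pair.1 hi with rfl | rfl
    · exact hj
    · rw [← d2a_prm h e]
      exact ⟨d2a_adm hj.1 e, k _ hj.1 hj.2⟩
  intro k hk
  obtain ⟨k1, h1, hk⟩ := List.mem_flatMap.1 hk
  obtain ⟨k2, h2, hk⟩ := List.mem_flatMap.1 hk
  exact (key (Equiv.swap_apply_self _ _) d2a_01 H.sw01 (key (Equiv.swap_apply_self _ _) d2a_23 H.sw23
    (key hft_hft d2a_hf H.half ⟨gens_adm g, H.gen _ g⟩ _ h1) _ h2) _ hk).2

theorem d2a_fin0 : ((List.range 5).all fun n => (List.range (4 + n)).all fun a =>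
    (List.range (4 + n)).all fun b => (List.range (4 + n)).all fun c =>
    (List.range (4 + n)).all fun d =>
    !decide (2 ≤ n ∧ a ≠ 0 ∧ a ≠ 1 ∧ b ≠ 1 ∧ a ≠ b ∧ c ≠ 2 ∧ c ≠ 3 ∧ d ≠ 3 ∧ c ≠ d) ||
    !decide (∀ r : ℕ, r < 4 → d2a_tp a b c d r < 4 → d2a_tp a b c d (d2a_tp a b c d r) = r) ||
    !decide (∀ i < n, a = 4 + i ∨ b = 4 + i ∨ c = 4 + i ∨ d = 4 + i) ||
    decide (∃ j ∈ d2a_G n, ∃ k ∈ d2a_orb j, ∀ r : ℕ, r < 4 → d2a_tp a b c d r = k r)) = true := by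
  decide +kernel

theorem d2a_fin {n a b c d : ℕ} (hn : n < 5) (ha : a < 4 + n) (hb : b < 4 + n) (hc : c < 4 + n)
    (hd : d < 4 + n)
    (h1 : 2 ≤ n ∧ a ≠ 0 ∧ a ≠ 1 ∧ b ≠ 1 ∧ a ≠ b ∧ c ≠ 2 ∧ c ≠ 3 ∧ d ≠ 3 ∧ c ≠ d)
    (h2 : ∀ r < 4, d2a_tp a b c d r < 4 → d2a_tp a b c d (d2a_tp a b c d r) = r)
    (h3 : ∀ i < n, a = 4 + i ∨ b = 4 + i ∨ c = 4 + i ∨ d = 4 + i) :
    ∃ j ∈ d2a_G n, ∃ k ∈ d2a_orb j, ∀ r < 4, d2a_tp a b c d r = k r := by
  have h := d2a_fin0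
  simp only [List.all_eq_true, List.mem_range] at h
  have k := h n hn a ha b hb c hc d hd
  rw [decide_eq_true h1, decide_eq_true h2, decide_eq_true h3] at k
  exact of_decide_eq_true k

/-- Every row has at most one non zero entry, equal to `-1`.  PLAN: `zero'` if a row vanishes;
otherwise `A r y = if y = j r then -1 else 0` for `r < 4`, and `j r < 4` implies `j (j r) = r`.
`twist'` if `j r = r`; `supp` if a strand is not hit; `same` (with `half`) if `j 0 = j 1` or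
`j 2 = j 3`; `lol` (with `half`) if `j 0 = 1` or `j 2 = 3`.  What is left has `n ≤ 4`, and `A` is
the image of a member of `gens n` under the group of order eight generated by `sw01`, `sw23`,
`half` (`A` is determined by `j 0, ..., j 3`; finitely many cases). -/
theorem Deg2.base (H : Deg2 n p) (hn : 2 ≤ n) {A : ℕ → ℕ → ℤ} (hA : Adm4 n A) (j : ℕ → ℕ)
    (h : ∀ r < 4, ∀ y, A r y ≠ 0 → y = j r ∧ A r y = -1) : p A := by
  by_cases h0 : ∃ r < 4, ∀ y, A r y = 0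
  · obtain ⟨r, hr, k⟩ := h0
    exact H.zero' hr hA k
  by_cases h1 : ∃ i < n, ∀ k, A k (4 + i) = 0
  · obtain ⟨i, hi, k⟩ := h1
    exact H.supp A hA i hi k
  push Not at h0 h1
  have v : ∀ r < 4, ∀ y, A r y = if y = j r then -1 else 0 := fun r hr y => by
    obtain ⟨z, hz⟩ := h0 r hr
    obtain ⟨rfl, k⟩ := h r hr z hz
    split_ifs with e
    · rw [e, k]
    · exact by_contra fun l => e (h r hr y l).1
  have b : ∀ r < 4, j r < 4 + n := fun r hr => not_le.1 fun k => by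
    have := v r hr (j r)
    rw [hA.2.2 r _ k, if_pos rfl] at this
    omega
  have s : ∀ r < 4, j r < 4 → j (j r) = r := fun r hr k =>
    (h _ k r (by rw [hA.1, v r hr, if_pos rfl]; omega)).1.symm
  have c : ∀ i < n, j 0 = 4 + i ∨ j 1 = 4 + i ∨ j 2 = 4 + i ∨ j 3 = 4 + i := fun i hi => by
    obtain ⟨k, hk⟩ := h1 i hi
    have k3 : k < 4 := not_le.1 fun l => hk (hA.2.1 _ _ l (by omega))
    have := (h k k3 _ hk).1
    obtain rfl | rfl | rfl | rfl : k = 0 ∨ k = 1 ∨ k = 2 ∨ k = 3 := by omega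
    all_goals omega
  by_cases h2 : ∃ r < 4, j r = r
  · obtain ⟨r, hr, k⟩ := h2
    exact H.twist' hr hA fun y => by rw [v r hr, k]
  push Not at h2
  have a := adm4_hft hA
  by_cases h3 : j 0 = 1
  · have k := s 0 (by omega) (by omega)
    rw [h3] at k
    exact H.lol A hA (fun y => by rw [v 0 (by omega), h3]) fun y => by rw [v 1 (by omega), k]
  by_cases h4 : j 2 = 3
  · have k := s 2 (by omega) (by omega)
    rw [h4] at k
    refine d2a_back hft_hft (H.half _ a (H.lol _ a (fun y => ?_) fun y => ?_))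
    · exact (v 2 (by omega) _).trans (if_congr (by rw [h4]; exact d2a_iff hft_hft _ _) rfl rfl)
    · exact (v 3 (by omega) _).trans (if_congr (by rw [k]; exact d2a_iff hft_hft _ _) rfl rfl)
  by_cases h5 : j 0 = j 1
  · refine H.same A hA (j 0) (not_lt.1 fun k => ?_) (v 0 (by omega)) (h5 ▸ v 1 (by omega))
    have k1 := s 0 (by omega) k
    have k2 := s 1 (by omega) (h5 ▸ k)
    rw [← h5] at k2
    omega
  by_cases h6 : j 2 = j 3
  · have k0 : 4 ≤ j 2 := not_lt.1 fun k => by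
      have k1 := s 2 (by omega) k
      have k2 := s 3 (by omega) (h6 ▸ k)
      rw [← h6] at k2
      omega
    have k1 : ∀ y, hft y = j 2 ↔ y = j 2 := fun y => by rw [d2a_iff hft_hft, d2a_hf _ k0]
    refine d2a_back hft_hft (H.half _ a (H.same _ a (j 2) k0 (fun y => ?_) fun y => ?_))
    · exact (v 2 (by omega) _).trans (if_congr (k1 y) rfl rfl)
    · exact (v 3 (by omega) _).trans (if_congr (h6 ▸ k1 y) rfl rfl)
  have e : ∀ r < 4, d2a_tp (j 0) (j 1) (j 2) (j 3) r = j r := fun r hr => by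
    interval_cases r <;> rfl
  have n5 : n < 5 := not_le.1 fun k => by
    have := c 0 (by omega)
    have := c 1 (by omega)
    have := c 2 (by omega)
    have := c 3 (by omega)
    have := c 4 (by omega)
    omega
  obtain ⟨g, hg, k, hk, e'⟩ := d2a_fin n5 (b 0 (by omega)) (b 1 (by omega)) (b 2 (by omega))
    (b 3 (by omega)) ⟨hn, h2 0 (by omega), h3, h2 1 (by omega), h5, h2 2 (by omega), h4,
      h2 3 (by omega), h6⟩ (fun r hr l => by rw [e r hr] at l ⊢; rw [e _ l, s r hr l]) c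
  have e2 : ∀ r < 4, k r = j r := fun r hr => (e' r hr).symm.trans (e r hr)
  refine d1a_eq (d2a_p H hg k hk) fun x y => ?_
  unfold d2a_M
  by_cases hx : x < 4
  · rw [v x hx]
    refine if_congr ⟨fun l => Or.inl ⟨hx, l.trans (e2 x hx).symm⟩, ?_⟩ rfl rfl
    rintro (l | l)
    · exact l.2.trans (e2 x hx)
    · rw [e2 y l.1] at l
      rw [l.2, s y l.1 (l.2 ▸ hx)]
  · by_cases hy : y < 4
    · rw [hA.1, v y hy, e2 y hy]
      exact if_congr (by tauto) rfl rfl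
    · rw [hA.2.1 x y (by omega) (by omega), if_neg (by tauto)]

theorem d2a_keep {A : ℕ → ℕ → ℤ} (hA : Adm4 n A) {r j r' j' : ℕ}
    (h : ∀ y, A r y ≠ 0 → y = j ∧ A r y = -1) (h' : A r' j' ≠ 0) (k : r ≠ r') (y : ℕ)
    (hy : setR r' j' A r y ≠ 0) : y = j ∧ setR r' j' A r y = -1 := by
  simp only [setR, if_neg k] at hy ⊢
  split_ifs at hy ⊢ with e e'
  · exact ⟨e ▸ (h r' (by rwa [hA.1, e'])).1, rfl⟩
  · exact (hy rfl).elim
  · exact h y hy

/-- PLAN: `row` for `r = 0, 1, 2, 3`, then `base` (as `deg1_abs`). -/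
theorem deg2_abs (H : Deg2 n p) (hn : 2 ≤ n) {A : ℕ → ℕ → ℤ} (hA : Adm4 n A) : p A := by
  have b : ∀ {A r j}, Adm4 n A → A r j ≠ 0 → j < 4 + n := fun hA h =>
    not_le.1 fun k => h (hA.2.2 _ _ k)
  refine H.row (r := 0) (by omega) hA fun j0 h0 => ?_
  have a0 := d2a_set hA (r := 0) (by omega) (b hA h0)
  refine H.row (r := 1) (by omega) a0 fun j1 h1 => ?_
  have a1 := d2a_set a0 (r := 1) (by omega) (b a0 h1)
  refine H.row (r := 2) (by omega) a1 fun j2 h2 => ?_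
  have a2 := d2a_set a1 (r := 2) (by omega) (b a1 h2)
  refine H.row (r := 3) (by omega) a2 fun j3 h3 => ?_
  refine H.base hn (d2a_set a2 (by omega) (b a2 h3)) (d2a_tp j0 j1 j2 j3) fun r hr => ?_
  obtain rfl | rfl | rfl | rfl : r = 0 ∨ r = 1 ∨ r = 2 ∨ r = 3 := by omega
  · exact d2a_keep a2 (d2a_keep a1 (d2a_keep a0 (d1a_new _ _ _) h1 (by omega)) h2 (by omega)) h3
      (by omega)
  · exact d2a_keep a2 (d2a_keep a1 (d1a_new _ _ _) h2 (by omega)) h3 (by omega)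
  · exact d2a_keep a2 (d1a_new _ _ _) h3 (by omega)
  · exact d1a_new _ _ _

end Pool.Agent.GH
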