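import Mathlib

/-! Words in the standard generators of the braided category of 3-dimensional cobordisms between
surfaces with one boundary circle.  A word is read from left to right (first letter first); the
letter (i, g) applies the generator `g` to the handles number `i, i+1, ...` and leaves the other
handles alone. -/

namespace Pool.Agent.GH

/-- Generators: braidings `P`, `Q`; product `m`, unit `e`, coproduct `d`, counit `u`, antipode `S`
and its inverse `T`; integral `l` (a 2-handle along the longitude); ribbon elements `v`, `V`;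
copairing `w` (a clasp). -/
inductive Gn where
  | P | Q | m | e | d | u | S | T | l | v | V | w
  deriving DecidableEq

open Gn

/-- Number of handles consumed. -/
def Gn.ar : Gn → ℕ
  | P | Q | m => 2
  | d | u | S | T | l => 1
  | e | v | V | w => 0

/-- Number of handles produced. -/
def Gn.co : Gn → ℕ
  | P | Q | d | w => 2
  | m | e | S | T | v | V => 1
  | u | l => 0

abbrev Wd : Type := List (ℕ × Gn)

/-- Shift a word `i` handles to the right. -/
def sh (i : ℕ) (x : Wd) : Wd := x.map fun a => (i + a.1, a.2)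

/-- `Ok p x q`: the word `x` is a composable word from `p` handles to `q` handles. -/
def Ok : ℕ → Wd → ℕ → Prop
  | p, [], q => p = q
  | p, a :: x, q => a.1 + a.2.ar ≤ p ∧ Ok (p - a.2.ar + a.2.co) x q

/-- Adjoint action. -/
def ad : Wd := [(0, d), (1, P), (2, S), (0, m), (0, m)]

/-- Pairing: surgery on the two handles clasped with each other (a basic clasper). -/
def ev : Wd := [(1, w), (1, S), (0, m), (1, m), (0, l), (0, l)]

/-- Braided commutator: the node of a clasper. -/
def Yn : Wd := [(0, d), (2, d), (1, P), (2, S), (3, S), (0, m), (0, m), (0, m)]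

/-- Handle `0` crosses the next `a` handles. -/
def br (c : Gn) (a : ℕ) : Wd := (List.range a).map fun k => (k, c)

/-- Braided Hopf algebra, integral, ribbon, copairing and pairing relations, the coadjoint
coaction as adjoint action through the copairing, braided cocommutativity of `ad`. -/
def axs : List (Wd × Wd) :=
  [([(0, m), (0, m)], [(1, m), (0, m)]), ([(0, e), (0, m)], []), ([(1, e), (0, m)], []),
   ([(0, d), (0, d)], [(0, d), (1, d)]), ([(0, d), (0, u)], []), ([(0, d), (1, u)], []),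
   ([(0, m), (0, d)], [(0, d), (2, d), (1, P), (0, m), (1, m)]),
   ([(0, m), (0, u)], [(0, u), (0, u)]), ([(0, e), (0, d)], [(0, e), (0, e)]),
   ([(0, e), (0, u)], []),
   ([(0, d), (0, S), (0, m)], [(0, u), (0, e)]), ([(0, d), (1, S), (0, m)], [(0, u), (0, e)]),
   ([(0, S), (0, T)], []), ([(0, T), (0, S)], []), ([(0, P), (0, Q)], []), ([(0, Q), (0, P)], []),
   ([(0, d), (1, l)], [(0, l), (0, e)]), ([(0, d), (0, l)], [(0, l), (0, e)]),
   ([(0, S), (0, l)], [(0, l)]),
   ([(0, v), (0, m)], [(1, v), (0, m)]), ([(0, v), (0, V), (0, m)], [(0, e)]),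
   ([(0, v), (0, u)], []), ([(0, v), (0, S)], [(0, v)]),
   ([(0, v), (0, d)], [(0, v), (1, w), (3, v), (0, m), (1, m)]),
   ([(0, w), (1, d)], [(0, w), (1, w), (0, m)]), ([(0, w), (0, d)], [(0, w), (1, w), (2, m)]),
   ((0, w) :: sh 1 ev, []), ((1, w) :: ev, []), ([(0, v), (0, l)], []), ([(0, V), (0, l)], []),
   ([(0, d), (0, d), (1, P), (1, S), (0, m)], (0, w) :: sh 1 ad),
   ((0, d) :: sh 1 ad, [(0, d), (1, P)] ++ ad ++ [(0, P)])]

/-- The listed relations, commutation of distant letters, naturality of both braidings. -/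
inductive Ax : Wd → Wd → Prop
  | tab (r : Wd × Wd) : r ∈ axs → Ax r.1 r.2
  | far (g h : Gn) (k : ℕ) : Ax [(0, g), (g.co + k, h)] [(g.ar + k, h), (0, g)]
  | nat (c g : Gn) : c = P ∨ c = Q → Ax (br c g.ar ++ [(0, g)]) ((1, g) :: br c g.co)

/-- One local move, by a relation of `Ax` or of the extra set `X`. -/
inductive Step (X : Wd → Wd → Prop) : Wd → Wd → Prop
  | mk (p q : Wd) (i : ℕ) (x y : Wd) : Ax x y ∨ X x y → Step X (p ++ sh i x ++ q) (p ++ sh i y ++ q)

/-- Words modulo local moves. -/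
def Cob (X : Wd → Wd → Prop) : Type := Quot (Step X)

/-- Boundary loop of a handle with meridian `h.1` and longitude `h.2`. -/
def bd {Γ : Type} [Group Γ] (h : Γ × Γ) : Γ := h.1 * h.2⁻¹ * h.1⁻¹ * h.2

/-- Conjugation of a handle. -/
def cj {Γ : Type} [Group Γ] (t : Γ) (h : Γ × Γ) : Γ × Γ := (t * h.1 * t⁻¹, t * h.2 * t⁻¹)

/-- The pairs of boundary representations that extend over the fundamental group of a generator
(meridian and longitude of each handle). -/
def Rel {Γ : Type} [Group Γ] : Gn → (ℕ → Γ × Γ) → (ℕ → Γ × Γ) → Prop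
  | P, a, c => c 0 = cj (bd (a 0)) (a 1) ∧ c 1 = a 0
  | Q, a, c => c 0 = a 1 ∧ c 1 = cj (bd (a 1))⁻¹ (a 0)
  | m, a, c => (a 1).1 = (a 0).2⁻¹ * (a 0).1 * (a 0).2 ∧ c 0 = ((a 0).1, (a 0).2 * (a 1).2)
  | e, _, c => (c 0).2 = 1
  | d, a, c => (a 0).1 = (c 0).1 * (c 1).1 ∧ (c 0).2 = (c 1).1 * (a 0).2 * (c 1).1⁻¹ ∧
      (c 1).2 = (a 0).2
  | u, a, _ => (a 0).1 = 1
  | S, a, c => c 0 = (bd (a 0) * (a 0).1⁻¹, (a 0).1 * (a 0).2⁻¹ * (a 0).1⁻¹)
  | T, a, c => c 0 = ((a 0).1⁻¹ * bd (a 0), (a 0).2⁻¹ * bd (a 0))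
  | l, a, _ => (a 0).2 = 1
  | v, _, c => (c 0).2 = (c 0).1⁻¹
  | V, _, c => (c 0).2 = (c 0).1
  | w, _, c => (c 0).2 = (c 1).1⁻¹ ∧ (c 1).2 = (c 0).1⁻¹

/-- The same for a letter: the other handles are unchanged. -/
def Stp {Γ : Type} [Group Γ] (x : ℕ × Gn) (a c : ℕ → Γ × Γ) : Prop :=
  (∀ k < x.1, c k = a k) ∧ Rel x.2 (fun k => a (x.1 + k)) (fun k => c (x.1 + k)) ∧
    ∀ k, c (x.1 + x.2.co + k) = a (x.1 + x.2.ar + k)

/-- Representations into `Γ` of the fundamental group of a word, with given boundary values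
(van Kampen: compatible values on all the intermediate surfaces). -/
def Run (Γ : Type) [Group Γ] : Wd → (ℕ → Γ × Γ) → (ℕ → Γ × Γ) → Type
  | [], a, b => PLift (a = b)
  | x :: r, a, b => Σ c : ℕ → Γ × Γ, PLift (Stp x a c) × Run Γ r c b

/-- Parallel words with the same representations, relative to the boundary, in every group. -/
def Same (x y : Wd) : Prop :=
  (∃ p q, Ok p x q ∧ Ok p y q) ∧
    ∀ (Γ : Type) [Group Γ] (a b : ℕ → Γ × Γ), Nonempty (Run Γ x a b ≃ Run Γ y a b)

/-- Homology cylinder over the surface of genus `g` with `b + 1` boundary circles.  The boundary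
has genus `2 * g + b`: handles `0, ..., g-1` lie on the top, `g, ..., 2g-1` on the bottom, the
meridians of the last `b` handles are `b` boundary circles.  For both ends and every abelian group
`A`, restriction from `Hom (H_1 C, A)` to `Hom (H_1 F, A)` is a bijection. -/
def IsHC (g b : ℕ) (x : Wd) : Prop :=
  Ok 0 x (2 * g + b) ∧ ∀ (A : Type) [CommGroup A] (s : ℕ), s = 0 ∨ s = g → ∀ t : ℕ → A × A,
    ∃! r : Σ c : ℕ → A × A, Run A x 1 c,
      (∀ i < g, r.1 (s + i) = t i) ∧ ∀ j < b, (r.1 (2 * g + j)).1 = (t (g + j)).1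

/-- The set of homology cylinders. -/
def HC (X : Wd → Wd → Prop) (g b : ℕ) : Type :=
  {c : Cob X // ∃ x, Quot.mk (Step X) x = c ∧ IsHC g b x}

/-- Planar binary trees. -/
inductive Tr where
  | lf
  | nd (a b : Tr)

/-- Number of nodes. -/
def Tr.nn : Tr → ℕ
  | .lf => 0
  | .nd a b => a.nn + b.nn + 1

/-- Iterated commutator, from `nn + 1` handles to one handle. -/
def Tr.wd : Tr → Wd
  | .lf => []
  | .nd a b => a.wd ++ sh 1 b.wd ++ Yn

/-- Surgery along the tree clasper with `nn + 2` leaves in the first `nn + 2` handles. -/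
def Tr.sg (t : Tr) : Wd := t.wd ++ ev

/-- No surgery: fill the first `p` handles. -/
def fl (p : ℕ) : Wd := List.replicate p (0, u)

/-- `C'` is obtained from `C` by surgery along a tree clasper with `k` nodes; `x` is the
complement of its neighbourhood. -/
def YStep {X : Wd → Wd → Prop} {g b : ℕ} (k : ℕ) (C C' : HC X g b) : Prop :=
  ∃ (x : Wd) (t : Tr), t.nn = k ∧ Ok 0 x (k + 2 + (2 * g + b)) ∧
    C.1 = Quot.mk (Step X) (x ++ fl (k + 2)) ∧ C'.1 = Quot.mk (Step X) (x ++ t.sg)

/-- Surgery along the Y-graphs selected by `s`. -/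
def sel (s : List Bool) : Wd := s.flatMap fun o => if o then (Tr.nd .lf .lf).sg else fl 3

/-- The subgroup spanned by the alternating sums over at least `k` disjoint Y-graphs. -/
def Fil (X : Wd → Wd → Prop) (g b k : ℕ) : AddSubgroup (FreeAbelianGroup (HC X g b)) :=
  AddSubgroup.closure {z | ∃ (r : ℕ) (x : Wd) (c : (Fin r → Bool) → HC X g b),
    k ≤ r ∧ Ok 0 x (3 * r + (2 * g + b)) ∧
    (∀ s, (c s).1 = Quot.mk (Step X) (x ++ sel (List.ofFn s))) ∧
    z = ∑ s : Fin r → Bool, (-1 : ℤ) ^ (List.ofFn s).count true • FreeAbelianGroup.of (c s)}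

/-- The statement for the surface of genus `g` with `b + 1` boundary circles and degree `k`. -/
def Conj (X : Wd → Wd → Prop) (g b k : ℕ) : Prop :=
  ∀ C C' : HC X g b, Relation.EqvGen (YStep k) C C' ↔
    ∀ (A : Type) [AddCommGroup A] (f : FreeAbelianGroup (HC X g b) →+ A),
      (∀ z ∈ Fil X g b k, f z = 0) → f (FreeAbelianGroup.of C) = f (FreeAbelianGroup.of C')

end Pool.Agent.GH
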