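import Pool.Agent.Work.MP_c00b06_gt.Id4

/-! Diagram identities for the Y-graphs with few leaves. -/

set_option linter.unusedSimpArgs false
set_option linter.unusedTactic false
set_option linter.unreachableTactic false
set_option linter.unnecessarySeqFocus false

namespace Pool.Agent.GH
open Gn

variable {X : Wd → Wd → Prop}

theorem d1b_hW :
    (G w 0 * G v 1 * up 1 Y : Cob X) =
      G w 0 * G v 1 * G w 3 * G P 0 * G P 1 * G P 2 * Y * Ev := by
  have t := col_sound (X := X) (fun c => List.getD [1] c 0) [Y, Ev]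
    [([0, 0], [0]), ([0, 0], [])] []
    [([0], [(1, .g .w), (0, .b 1)], [])]
    [([([0], .g .w), ([], .b 1)], [])]
    [] [(0, .g .w), (1, .g .v), (1, .b 0)]
    [(0, .g .w), (1, .g .v), (3, .g .w), (0, .g .P), (1, .g .P), (2, .g .P), (0, .b 0), (0, .b 1)]
    [([], .g .w), ([0], .g .v), ([0], .b 0)]
    [([], .g .w), ([0], .g .v), ([0, 0, 0], .g .w), ([], .br true 0 0), ([0], .br true 0 0), ([0, 0], .br true 0 0), ([], .b 0), ([], .b 1)]
    [(3, 1, false, .co 0), (4, 0, false, .nl true (.b 1)), (3, 0, false, .far (.g .P) 0 (.g .w)),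
      (2, 0, false, .can true), (3, 1, false, .can true), (4, 0, false, .nr false (.b 0)),
      (5, 0, true, .can false), (4, 0, true, .far (.b 0) 1 (.g .w)), (5, 0, true, .far (.b 0) 0 (.g .P)),
      (3, 1, true, .far (.g .P) 0 (.g .w)), (2, 0, true, .far (.g .P) 1 (.g .w))]
    (by decide +kernel) rfl
    ⟨Ty.cast (Y_ty) (by simp only [W, List.getD_cons_zero, List.getD_cons_succ] <;> omega) (by simp only [W, List.getD_cons_zero, List.getD_cons_succ] <;> omega),
      Ty.cast (Ev_ty) (by simp only [W, List.getD_cons_zero, List.getD_cons_succ] <;> omega) (by simp only [W, List.getD_cons_zero, List.getD_cons_succ] <;> omega),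
      trivial⟩ trivial
    ⟨by have t := zL (X := X); simp only [ev2, val, W, List.getD_cons_zero, List.getD_cons_succ, up_G, up_zero, up_up, map_mul, map_one, B_one_one, cr_true, cr_false, mul_one, one_mul, Nat.add_zero, Nat.zero_add, mul_assoc] at t ⊢; (try ring_nf at t); (try ring_nf); exact t,
      trivial⟩
  simp only [ev2, val, W, List.getD_cons_zero, List.getD_cons_succ, up_G, up_zero, up_up, map_mul, map_one, B_one_one, cr_true, cr_false, mul_one, one_mul, Nat.add_zero, Nat.zero_add, mul_assoc] at t ⊢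
  (try ring_nf at t)
  (try ring_nf)
  exact t

theorem d1b_h1 :
    (G w 0 * G v 1 * up 1 Y : Cob X) =
      G w 0 * G w 1 * G w 4 * G P 1 * G P 2 * G P 3 * G P 0 * G P 1 * G P 2 * G m 4 * Y * Ev := by
  have t := col_sound (X := X) (fun c => List.getD [1] c 0) [Y, Ev]
    [([0, 0], [0]), ([0, 0], [])] []
    [([0], [(0, .g .w), (1, .b 0), (0, .g .m)], [(0, .g .v), (0, .b 0)]),
      ([0], [(1, .g .w), (0, .b 1)], [])]
    [([([], .g .w), ([0], .b 0), ([], .g .m)], [([], .g .v), ([], .b 0)]),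
      ([([0], .g .w), ([], .b 1)], [])]
    [] [(0, .g .w), (1, .g .v), (1, .b 0)]
    [(0, .g .w), (1, .g .w), (4, .g .w), (1, .g .P), (2, .g .P), (3, .g .P), (0, .g .P), (1, .g .P), (2, .g .P), (4, .g .m), (0, .b 0), (0, .b 1)]
    [([], .g .w), ([0], .g .v), ([0], .b 0)]
    [([], .g .w), ([0], .g .w), ([0, 0, 0, 0], .g .w), ([0], .br true 0 0), ([0, 0], .br true 0 0), ([0, 0, 0], .br true 0 0), ([], .br true 0 0), ([0], .br true 0 0), ([0, 0], .br true 0 0), ([0, 0, 0, 0], .g .m), ([], .b 0), ([], .b 1)]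
    [(1, 1, false, .co 0), (3, 2, false, .co 1), (4, 1, false, .nl true (.b 1)),
      (3, 1, false, .far (.g .P) 0 (.g .w)), (2, 1, false, .can true), (3, 2, false, .can true),
      (4, 1, false, .nr false (.b 0)), (5, 1, true, .can false), (7, 0, false, .can true),
      (6, 0, false, .far (.g .P) 0 (.g .P)), (5, 0, false, .far (.g .P) 1 (.g .w)),
      (8, 1, false, .can true), (9, 0, false, .nr false (.b 1)), (4, 0, false, .can true),
      (3, 0, false, .far (.g .P) 0 (.g .P)), (5, 1, false, .can true), (6, 0, false, .nr false (.b 0)),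
      (7, 0, true, .can false), (10, 0, true, .far (.b 1) 1 (.g .m)), (6, 0, true, .far (.b 0) 2 (.g .w)),
      (7, 0, true, .far (.b 0) 1 (.g .P)), (8, 0, true, .far (.b 0) 0 (.g .P)),
      (9, 0, true, .far (.b 0) 2 (.g .m)), (5, 1, true, .far (.g .P) 1 (.g .w)),
      (6, 1, true, .far (.g .P) 0 (.g .P)), (3, 0, true, .far (.g .P) 0 (.g .P)),
      (4, 0, true, .far (.g .P) 2 (.g .w)), (5, 0, true, .far (.g .P) 1 (.g .P)),
      (3, 2, true, .far (.g .P) 0 (.g .w)), (2, 1, true, .far (.g .P) 1 (.g .w))]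
    (by decide +kernel) rfl
    ⟨Ty.cast (Y_ty) (by simp only [W, List.getD_cons_zero, List.getD_cons_succ] <;> omega) (by simp only [W, List.getD_cons_zero, List.getD_cons_succ] <;> omega),
      Ty.cast (Ev_ty) (by simp only [W, List.getD_cons_zero, List.getD_cons_succ] <;> omega) (by simp only [W, List.getD_cons_zero, List.getD_cons_succ] <;> omega),
      trivial⟩ trivial
    ⟨by have t := nY (X := X); simp only [ev2, val, W, List.getD_cons_zero, List.getD_cons_succ, up_G, up_zero, up_up, map_mul, map_one, B_one_one, cr_true, cr_false, mul_one, one_mul, Nat.add_zero, Nat.zero_add, mul_assoc] at t ⊢; (try ring_nf at t); (try ring_nf); exact t,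
      by have t := zL (X := X); simp only [ev2, val, W, List.getD_cons_zero, List.getD_cons_succ, up_G, up_zero, up_up, map_mul, map_one, B_one_one, cr_true, cr_false, mul_one, one_mul, Nat.add_zero, Nat.zero_add, mul_assoc] at t ⊢; (try ring_nf at t); (try ring_nf); exact t,
      trivial⟩
  simp only [ev2, val, W, List.getD_cons_zero, List.getD_cons_succ, up_G, up_zero, up_up, map_mul, map_one, B_one_one, cr_true, cr_false, mul_one, one_mul, Nat.add_zero, Nat.zero_add, mul_assoc] at t ⊢
  (try ring_nf at t)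
  (try ring_nf)
  exact t

theorem d1b_hy :
    (G w 0 * G w 1 * up 2 Y : Cob X) =
      G w 0 * G w 1 * G w 4 * G P 1 * G P 2 * G P 3 * G P 0 * G P 1 * G P 2 * Y * Ev := by
  have t := col_sound (X := X) (fun c => List.getD [1] c 0) [Y, Ev]
    [([0, 0], [0]), ([0, 0], [])] []
    [([0], [(1, .g .w), (0, .b 1)], [])]
    [([([0], .g .w), ([], .b 1)], [])]
    [] [(0, .g .w), (1, .g .w), (2, .b 0)]
    [(0, .g .w), (1, .g .w), (4, .g .w), (1, .g .P), (2, .g .P), (3, .g .P), (0, .g .P), (1, .g .P), (2, .g .P), (0, .b 0), (0, .b 1)]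
    [([], .g .w), ([0], .g .w), ([0, 0], .b 0)]
    [([], .g .w), ([0], .g .w), ([0, 0, 0, 0], .g .w), ([0], .br true 0 0), ([0, 0], .br true 0 0), ([0, 0, 0], .br true 0 0), ([], .br true 0 0), ([0], .br true 0 0), ([0, 0], .br true 0 0), ([], .b 0), ([], .b 1)]
    [(3, 2, false, .co 0), (4, 1, false, .nl true (.b 1)), (3, 1, false, .far (.g .P) 0 (.g .w)),
      (2, 1, false, .can true), (3, 2, false, .can true), (4, 1, false, .nr false (.b 0)),
      (5, 1, true, .can false), (7, 0, false, .can true), (6, 0, false, .far (.g .P) 0 (.g .P)),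
      (5, 0, false, .far (.g .P) 1 (.g .w)), (8, 1, false, .can true), (9, 0, false, .nr false (.b 1)),
      (4, 0, false, .can true), (3, 0, false, .far (.g .P) 0 (.g .P)), (5, 1, false, .can true),
      (6, 0, false, .nr false (.b 0)), (7, 0, true, .can false), (6, 0, true, .far (.b 0) 2 (.g .w)),
      (7, 0, true, .far (.b 0) 1 (.g .P)), (8, 0, true, .far (.b 0) 0 (.g .P)),
      (5, 1, true, .far (.g .P) 1 (.g .w)), (6, 1, true, .far (.g .P) 0 (.g .P)),
      (3, 0, true, .far (.g .P) 0 (.g .P)), (4, 0, true, .far (.g .P) 2 (.g .w)),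
      (5, 0, true, .far (.g .P) 1 (.g .P)), (3, 2, true, .far (.g .P) 0 (.g .w)),
      (2, 1, true, .far (.g .P) 1 (.g .w))]
    (by decide +kernel) rfl
    ⟨Ty.cast (Y_ty) (by simp only [W, List.getD_cons_zero, List.getD_cons_succ] <;> omega) (by simp only [W, List.getD_cons_zero, List.getD_cons_succ] <;> omega),
      Ty.cast (Ev_ty) (by simp only [W, List.getD_cons_zero, List.getD_cons_succ] <;> omega) (by simp only [W, List.getD_cons_zero, List.getD_cons_succ] <;> omega),
      trivial⟩ trivial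
    ⟨by have t := zL (X := X); simp only [ev2, val, W, List.getD_cons_zero, List.getD_cons_succ, up_G, up_zero, up_up, map_mul, map_one, B_one_one, cr_true, cr_false, mul_one, one_mul, Nat.add_zero, Nat.zero_add, mul_assoc] at t ⊢; (try ring_nf at t); (try ring_nf); exact t,
      trivial⟩
  simp only [ev2, val, W, List.getD_cons_zero, List.getD_cons_succ, up_G, up_zero, up_up, map_mul, map_one, B_one_one, cr_true, cr_false, mul_one, one_mul, Nat.add_zero, Nat.zero_add, mul_assoc] at t ⊢
  (try ring_nf at t)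
  (try ring_nf)
  exact t

theorem d1b_hWE :
    (G w 0 * G v 1 * G w 3 * G P 0 * G P 1 * G P 2 * G u 0 * G u 0 * G u 0 : Cob X) =
      G e 0 * G e 0 := by
  have t := col_sound (X := X) (fun c => List.getD [1] c 0) []
    [] []
    [([], [(0, .g .w), (1, .g .u)], [(0, .g .e)]), ([], [(0, .g .w), (0, .g .u)], [(0, .g .e)])]
    [([([], .g .w), ([0], .g .u)], [([], .g .e)]), ([([], .g .w), ([], .g .u)], [([], .g .e)])]
    [] [(0, .g .w), (1, .g .v), (3, .g .w), (0, .g .P), (1, .g .P), (2, .g .P), (0, .g .u), (0, .g .u), (0, .g .u)]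
    [(0, .g .e), (0, .g .e)]
    [([], .g .w), ([0], .g .v), ([0, 0, 0], .g .w), ([], .br true 0 0), ([0], .br true 0 0), ([0, 0], .br true 0 0), ([], .g .u), ([], .g .u), ([], .g .u)]
    [([], .g .e), ([], .g .e)]
    [(2, 0, false, .far (.g .P) 1 (.g .w)), (3, 1, false, .far (.g .P) 0 (.g .w)),
      (5, 0, false, .far (.g .u) 1 (.g .P)), (4, 0, false, .far (.g .u) 2 (.g .w)),
      (3, 0, false, .far (.g .u) 0 (.g .P)), (6, 0, false, .far (.g .u) 0 (.g .P)),
      (5, 0, false, .far (.g .u) 1 (.g .w)), (2, 0, false, .can true), (1, 0, false, .nl true (.g .v)),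
      (2, 0, true, .can false), (0, 0, false, .far (.g .v) 0 (.g .w)),
      (1, 0, false, .far (.g .u) 0 (.g .w)), (1, 0, false, .far (.g .w) 0 (.g .u)),
      (0, 0, false, .far (.g .w) 0 (.g .v)), (2, 0, false, .far (.g .P) 0 (.g .u)),
      (1, 0, false, .far (.g .P) 0 (.g .v)), (3, 0, false, .far (.g .u) 1 (.g .u)),
      (2, 0, false, .far (.g .u) 1 (.g .v)), (4, 1, false, .far (.g .w) 0 (.g .u)),
      (3, 1, false, .far (.g .w) 0 (.g .v)), (5, 0, false, .far (.g .P) 1 (.g .u)),
      (4, 0, false, .far (.g .P) 1 (.g .v)), (6, 0, false, .far (.g .u) 2 (.g .u)),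
      (5, 0, false, .far (.g .u) 2 (.g .v)), (2, 0, true, .nr false (.g .u)), (1, 0, true, .can true),
      (1, 1, false, .far (.g .w) 0 (.g .u)), (2, 0, false, .far (.g .P) 1 (.g .u)),
      (3, 0, false, .far (.g .u) 2 (.g .u)), (4, 2, false, .far (.g .v) 0 (.g .u)),
      (5, 2, false, .far (.g .u) 0 (.g .u)), (2, 0, true, .nl true (.g .u)), (3, 2, true, .pu 21 0),
      (2, 1, true, .far (.g .u) 1 (.g .u)), (1, 1, true, .far (.g .w) 0 (.g .u)), (0, 0, true, .co 0),
      (1, 1, true, .co 1), (0, 0, true, .far (.g .e) 0 (.g .e))]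
    (by decide +kernel) rfl
    trivial trivial
    ⟨by have t := wuR (X := X); simp only [ev2, val, W, List.getD_cons_zero, List.getD_cons_succ, up_G, up_zero, up_up, map_mul, map_one, B_one_one, cr_true, cr_false, mul_one, one_mul, Nat.add_zero, Nat.zero_add, mul_assoc] at t ⊢; (try ring_nf at t); (try ring_nf); exact t,
      by have t := wuL (X := X); simp only [ev2, val, W, List.getD_cons_zero, List.getD_cons_succ, up_G, up_zero, up_up, map_mul, map_one, B_one_one, cr_true, cr_false, mul_one, one_mul, Nat.add_zero, Nat.zero_add, mul_assoc] at t ⊢; (try ring_nf at t); (try ring_nf); exact t,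
      trivial⟩
  simp only [ev2, val, W, List.getD_cons_zero, List.getD_cons_succ, up_G, up_zero, up_up, map_mul, map_one, B_one_one, cr_true, cr_false, mul_one, one_mul, Nat.add_zero, Nat.zero_add, mul_assoc] at t ⊢
  (try ring_nf at t)
  (try ring_nf)
  exact t

theorem d1b_h1E :
    (G w 0 * G w 1 * G w 4 * G P 1 * G P 2 * G P 3 * G P 0 * G P 1 * G P 2 * G m 4 * G u 0 * G u 0 * G u 0 : Cob X) =
      G e 0 * G e 0 := by
  have t := col_sound (X := X) (fun c => List.getD [1] c 0) []
    [] []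
    [([], [(0, .g .w), (0, .g .u)], [(0, .g .e)]), ([], [(0, .g .w), (1, .g .u)], [(0, .g .e)])]
    [([([], .g .w), ([], .g .u)], [([], .g .e)]), ([([], .g .w), ([0], .g .u)], [([], .g .e)])]
    [] [(0, .g .w), (1, .g .w), (4, .g .w), (1, .g .P), (2, .g .P), (3, .g .P), (0, .g .P), (1, .g .P), (2, .g .P), (4, .g .m), (0, .g .u), (0, .g .u), (0, .g .u)]
    [(0, .g .e), (0, .g .e)]
    [([], .g .w), ([0], .g .w), ([0, 0, 0, 0], .g .w), ([0], .br true 0 0), ([0, 0], .br true 0 0), ([0, 0, 0], .br true 0 0), ([], .br true 0 0), ([0], .br true 0 0), ([0, 0], .br true 0 0), ([0, 0, 0, 0], .g .m), ([], .g .u), ([], .g .u), ([], .g .u)]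
    [([], .g .e), ([], .g .e)]
    [(2, 1, false, .far (.g .P) 1 (.g .w)), (3, 2, false, .far (.g .P) 0 (.g .w)),
      (5, 0, false, .far (.g .P) 1 (.g .P)), (4, 0, false, .far (.g .P) 2 (.g .w)),
      (3, 0, false, .far (.g .P) 0 (.g .P)), (6, 1, false, .far (.g .P) 0 (.g .P)),
      (5, 1, false, .far (.g .P) 1 (.g .w)), (9, 0, false, .far (.g .u) 3 (.g .m)),
      (8, 0, false, .far (.g .u) 1 (.g .P)), (7, 0, false, .far (.g .u) 2 (.g .P)),
      (6, 0, false, .far (.g .u) 3 (.g .w)), (5, 0, false, .far (.g .u) 0 (.g .P)),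
      (4, 0, false, .far (.g .u) 1 (.g .P)), (10, 0, false, .far (.g .u) 2 (.g .m)),
      (9, 0, false, .far (.g .u) 0 (.g .P)), (8, 0, false, .far (.g .u) 1 (.g .P)),
      (7, 0, false, .far (.g .u) 2 (.g .w)), (11, 0, false, .far (.g .u) 1 (.g .m)),
      (4, 0, true, .nr false (.g .u)), (3, 0, true, .can true), (3, 1, true, .nr false (.g .u)),
      (2, 1, true, .can true), (5, 0, true, .nr false (.g .u)), (4, 0, true, .can true),
      (4, 1, true, .nr false (.g .u)), (3, 1, true, .can true), (3, 2, false, .far (.g .w) 0 (.g .u)),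
      (2, 2, false, .far (.g .w) 0 (.g .u)), (4, 1, false, .far (.g .P) 1 (.g .u)),
      (3, 1, false, .far (.g .P) 1 (.g .u)), (5, 0, false, .far (.g .P) 2 (.g .u)),
      (4, 0, false, .far (.g .P) 2 (.g .u)), (6, 0, false, .far (.g .u) 3 (.g .u)),
      (5, 0, false, .far (.g .u) 3 (.g .u)), (7, 1, false, .far (.g .m) 0 (.g .u)),
      (6, 1, false, .far (.g .m) 0 (.g .u)), (4, 0, true, .nl true (.g .u)),
      (3, 1, true, .nl true (.g .u)), (2, 2, true, .co 0), (2, 1, true, .pu 2 1), (1, 1, true, .co 1),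
      (1, 1, true, .far (.g .e) 0 (.g .u)), (0, 0, true, .co 1), (0, 0, true, .far (.g .e) 0 (.g .e))]
    (by decide +kernel) rfl
    trivial trivial
    ⟨by have t := wuL (X := X); simp only [ev2, val, W, List.getD_cons_zero, List.getD_cons_succ, up_G, up_zero, up_up, map_mul, map_one, B_one_one, cr_true, cr_false, mul_one, one_mul, Nat.add_zero, Nat.zero_add, mul_assoc] at t ⊢; (try ring_nf at t); (try ring_nf); exact t,
      by have t := wuR (X := X); simp only [ev2, val, W, List.getD_cons_zero, List.getD_cons_succ, up_G, up_zero, up_up, map_mul, map_one, B_one_one, cr_true, cr_false, mul_one, one_mul, Nat.add_zero, Nat.zero_add, mul_assoc] at t ⊢; (try ring_nf at t); (try ring_nf); exact t,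
      trivial⟩
  simp only [ev2, val, W, List.getD_cons_zero, List.getD_cons_succ, up_G, up_zero, up_up, map_mul, map_one, B_one_one, cr_true, cr_false, mul_one, one_mul, Nat.add_zero, Nat.zero_add, mul_assoc] at t ⊢
  (try ring_nf at t)
  (try ring_nf)
  exact t

theorem d1b_hyE :
    (G w 0 * G w 1 * G w 4 * G P 1 * G P 2 * G P 3 * G P 0 * G P 1 * G P 2 * G u 0 * G u 0 * G u 0 : Cob X) =
      G e 0 * G e 0 * G e 0 := by
  have t := col_sound (X := X) (fun c => List.getD [1] c 0) []
    [] []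
    [([], [(0, .g .w), (0, .g .u)], [(0, .g .e)]), ([], [(0, .g .w), (1, .g .u)], [(0, .g .e)])]
    [([([], .g .w), ([], .g .u)], [([], .g .e)]), ([([], .g .w), ([0], .g .u)], [([], .g .e)])]
    [] [(0, .g .w), (1, .g .w), (4, .g .w), (1, .g .P), (2, .g .P), (3, .g .P), (0, .g .P), (1, .g .P), (2, .g .P), (0, .g .u), (0, .g .u), (0, .g .u)]
    [(0, .g .e), (0, .g .e), (0, .g .e)]
    [([], .g .w), ([0], .g .w), ([0, 0, 0, 0], .g .w), ([0], .br true 0 0), ([0, 0], .br true 0 0), ([0, 0, 0], .br true 0 0), ([], .br true 0 0), ([0], .br true 0 0), ([0, 0], .br true 0 0), ([], .g .u), ([], .g .u), ([], .g .u)]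
    [([], .g .e), ([], .g .e), ([], .g .e)]
    [(2, 1, false, .far (.g .P) 1 (.g .w)), (3, 2, false, .far (.g .P) 0 (.g .w)),
      (5, 0, false, .far (.g .P) 1 (.g .P)), (4, 0, false, .far (.g .P) 2 (.g .w)),
      (3, 0, false, .far (.g .P) 0 (.g .P)), (6, 1, false, .far (.g .P) 0 (.g .P)),
      (5, 1, false, .far (.g .P) 1 (.g .w)), (8, 0, false, .far (.g .u) 1 (.g .P)),
      (7, 0, false, .far (.g .u) 2 (.g .P)), (6, 0, false, .far (.g .u) 3 (.g .w)),
      (5, 0, false, .far (.g .u) 0 (.g .P)), (4, 0, false, .far (.g .u) 1 (.g .P)),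
      (9, 0, false, .far (.g .u) 0 (.g .P)), (8, 0, false, .far (.g .u) 1 (.g .P)),
      (7, 0, false, .far (.g .u) 2 (.g .w)), (4, 0, true, .nr false (.g .u)), (3, 0, true, .can true),
      (3, 1, true, .nr false (.g .u)), (2, 1, true, .can true), (5, 0, true, .nr false (.g .u)),
      (4, 0, true, .can true), (4, 1, true, .nr false (.g .u)), (3, 1, true, .can true),
      (3, 2, false, .far (.g .w) 0 (.g .u)), (2, 2, false, .far (.g .w) 0 (.g .u)),
      (4, 1, false, .far (.g .P) 1 (.g .u)), (3, 1, false, .far (.g .P) 1 (.g .u)),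
      (5, 0, false, .far (.g .P) 2 (.g .u)), (4, 0, false, .far (.g .P) 2 (.g .u)),
      (6, 0, false, .far (.g .u) 3 (.g .u)), (5, 0, false, .far (.g .u) 3 (.g .u)),
      (4, 0, true, .nl true (.g .u)), (3, 1, true, .nl true (.g .u)), (2, 2, true, .co 0),
      (2, 2, true, .far (.g .e) 0 (.g .u)), (1, 1, true, .co 1), (2, 2, true, .far (.g .e) 0 (.g .u)),
      (1, 1, true, .far (.g .e) 0 (.g .u)), (0, 0, true, .co 1), (0, 0, true, .far (.g .e) 0 (.g .e)),
      (1, 0, true, .far (.g .e) 1 (.g .e)), (0, 0, true, .far (.g .e) 0 (.g .e))]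
    (by decide +kernel) rfl
    trivial trivial
    ⟨by have t := wuL (X := X); simp only [ev2, val, W, List.getD_cons_zero, List.getD_cons_succ, up_G, up_zero, up_up, map_mul, map_one, B_one_one, cr_true, cr_false, mul_one, one_mul, Nat.add_zero, Nat.zero_add, mul_assoc] at t ⊢; (try ring_nf at t); (try ring_nf); exact t,
      by have t := wuR (X := X); simp only [ev2, val, W, List.getD_cons_zero, List.getD_cons_succ, up_G, up_zero, up_up, map_mul, map_one, B_one_one, cr_true, cr_false, mul_one, one_mul, Nat.add_zero, Nat.zero_add, mul_assoc] at t ⊢; (try ring_nf at t); (try ring_nf); exact t,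
      trivial⟩
  simp only [ev2, val, W, List.getD_cons_zero, List.getD_cons_succ, up_G, up_zero, up_up, map_mul, map_one, B_one_one, cr_true, cr_false, mul_one, one_mul, Nat.add_zero, Nat.zero_add, mul_assoc] at t ⊢
  (try ring_nf at t)
  (try ring_nf)
  exact t

theorem d1b_add :
    (G m 0 * Y * Ev : Cob X) =
      G d 0 * G d 3 * G P 1 * G P 2 * up 1 Y * Ad * up 1 Y * G d 2 * up 1 Ev * Ev := by
  have t := col_sound (X := X) (fun c => List.getD [1] c 0) [Y, Ev, Ad]
    [([0, 0], [0]), ([0, 0], []), ([0, 0], [0])] []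
    [
      ([0, 0, 0], [(0, .g .m), (0, .b 0)], [(0, .g .d), (3, .g .d), (1, .g .P), (2, .g .P), (1, .b 0), (0, .b 2), (1, .b 0), (0, .g .m)]),
      ([0, 0, 0], [(0, .g .m), (0, .b 1)], [(2, .g .d), (1, .b 1), (0, .b 1)])]
    [
      ([([], .g .m), ([], .b 0)], [([], .g .d), ([0, 0, 0], .g .d), ([0], .br true 0 0), ([0, 0], .br true 0 0), ([0], .b 0), ([], .b 2), ([0], .b 0), ([], .g .m)]),
      ([([], .g .m), ([], .b 1)], [([0, 0], .g .d), ([0], .b 1), ([], .b 1)])]
    [0, 0, 0, 0] [(0, .g .m), (0, .b 0), (0, .b 1)]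
    [(0, .g .d), (3, .g .d), (1, .g .P), (2, .g .P), (1, .b 0), (0, .b 2), (1, .b 0), (2, .g .d), (1, .b 1), (0, .b 1)]
    [([], .g .m), ([], .b 0), ([], .b 1)]
    [([], .g .d), ([0, 0, 0], .g .d), ([0], .br true 0 0), ([0, 0], .br true 0 0), ([0], .b 0), ([], .b 2), ([0], .b 0), ([0, 0], .g .d), ([0], .b 1), ([], .b 1)]
    [(0, 0, true, .co 0), (1, 1, false, .far (.g .P) 0 (.g .d)), (7, 0, true, .co 1),
      (1, 1, true, .far (.g .P) 0 (.g .d))]
    (by decide +kernel) rfl
    ⟨Ty.cast (Y_ty) (by simp only [W, List.getD_cons_zero, List.getD_cons_succ] <;> omega) (by simp only [W, List.getD_cons_zero, List.getD_cons_succ] <;> omega),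
      Ty.cast (Ev_ty) (by simp only [W, List.getD_cons_zero, List.getD_cons_succ] <;> omega) (by simp only [W, List.getD_cons_zero, List.getD_cons_succ] <;> omega),
      Ty.cast (Ad_ty) (by simp only [W, List.getD_cons_zero, List.getD_cons_succ] <;> omega) (by simp only [W, List.getD_cons_zero, List.getD_cons_succ] <;> omega),
      trivial⟩ trivial
    ⟨by have t := mY0 (X := X); simp only [ev2, val, W, List.getD_cons_zero, List.getD_cons_succ, up_G, up_zero, up_up, map_mul, map_one, B_one_one, cr_true, cr_false, mul_one, one_mul, Nat.add_zero, Nat.zero_add, mul_assoc] at t ⊢; (try ring_nf at t); (try ring_nf); exact t,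
      by have t := mev0 (X := X); simp only [ev2, val, W, List.getD_cons_zero, List.getD_cons_succ, up_G, up_zero, up_up, map_mul, map_one, B_one_one, cr_true, cr_false, mul_one, one_mul, Nat.add_zero, Nat.zero_add, mul_assoc] at t ⊢; (try ring_nf at t); (try ring_nf); exact t,
      trivial⟩
  simp only [ev2, val, W, List.getD_cons_zero, List.getD_cons_succ, up_G, up_zero, up_up, map_mul, map_one, B_one_one, cr_true, cr_false, mul_one, one_mul, Nat.add_zero, Nat.zero_add, mul_assoc] at t ⊢
  (try ring_nf at t)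
  (try ring_nf)
  exact t

theorem d1b_add2 :
    (G d 0 * G d 3 * G P 1 * G P 2 * up 1 Y * G u 0 * up 1 Y * G d 2 * up 1 Ev * Ev : Cob X) =
      G d 2 * G P 0 * G P 1 * G d 4 * G P 1 * G P 2 * G P 3 * G P 0 * G P 1 * G P 2 * Y * Ev * Y * Ev := by
  have t := col_sound (X := X) (fun c => List.getD [1] c 0) [Y, Ev]
    [([0, 0], [0]), ([0, 0], [])] []
    []
    []
    [0, 0, 0, 0] [(0, .g .d), (3, .g .d), (1, .g .P), (2, .g .P), (1, .b 0), (0, .g .u), (1, .b 0), (2, .g .d), (1, .b 1), (0, .b 1)]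
    [(2, .g .d), (0, .g .P), (1, .g .P), (4, .g .d), (1, .g .P), (2, .g .P), (3, .g .P), (0, .g .P), (1, .g .P), (2, .g .P), (0, .b 0), (0, .b 1), (0, .b 0), (0, .b 1)]
    [([], .g .d), ([0, 0, 0], .g .d), ([0], .br true 0 0), ([0, 0], .br true 0 0), ([0], .b 0), ([], .g .u), ([0], .b 0), ([0, 0], .g .d), ([0], .b 1), ([], .b 1)]
    [([0, 0], .g .d), ([], .br true 0 0), ([0], .br true 0 0), ([0, 0, 0, 0], .g .d), ([0], .br true 0 0), ([0, 0], .br true 0 0), ([0, 0, 0], .br true 0 0), ([], .br true 0 0), ([0], .br true 0 0), ([0, 0], .br true 0 0), ([], .b 0), ([], .b 1), ([], .b 0), ([], .b 1)]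
    [(1, 1, false, .far (.g .P) 0 (.g .d)), (4, 0, false, .far (.g .u) 0 (.b 0)),
      (3, 0, false, .far (.g .u) 1 (.g .P)), (2, 0, false, .far (.g .u) 2 (.g .d)),
      (1, 0, false, .far (.g .u) 0 (.g .P)), (0, 0, true, .pu 4 1), (0, 0, true, .far (.g .P) 0 (.g .d)),
      (3, 0, true, .far (.b 0) 0 (.b 0)), (4, 0, true, .far (.b 0) 1 (.g .d)),
      (3, 2, true, .far (.b 0) 0 (.g .d)), (2, 1, true, .far (.g .P) 1 (.g .d)),
      (1, 0, true, .far (.g .P) 2 (.g .d)), (0, 2, true, .far (.g .d) 0 (.g .d)),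
      (5, 0, true, .far (.b 0) 0 (.b 1)), (5, 1, false, .nl true (.b 1)),
      (0, 2, false, .far (.g .d) 0 (.g .d)), (1, 0, false, .far (.g .P) 2 (.g .d)),
      (0, 0, false, .far (.g .P) 0 (.g .d)), (2, 1, false, .far (.g .P) 1 (.g .d)),
      (3, 2, false, .far (.b 0) 0 (.g .d)), (4, 1, false, .far (.g .P) 0 (.g .d)),
      (3, 1, false, .can true), (4, 2, false, .can true), (5, 1, false, .nr false (.b 0)),
      (6, 1, true, .can false), (8, 0, false, .can true), (7, 0, false, .far (.g .P) 0 (.g .P)),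
      (6, 0, false, .far (.g .P) 1 (.g .d)), (9, 1, false, .can true), (10, 0, false, .nr false (.b 1)),
      (5, 0, false, .can true), (4, 0, false, .far (.g .P) 0 (.g .P)), (6, 1, false, .can true),
      (7, 0, false, .nr false (.b 0)), (8, 0, true, .can false), (7, 0, true, .far (.b 0) 2 (.g .d)),
      (8, 0, true, .far (.b 0) 1 (.g .P)), (9, 0, true, .far (.b 0) 0 (.g .P)),
      (6, 1, true, .far (.g .P) 1 (.g .d)), (7, 1, true, .far (.g .P) 0 (.g .P)),
      (4, 0, true, .far (.g .P) 0 (.g .P)), (5, 0, true, .far (.g .P) 2 (.g .d)),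
      (6, 0, true, .far (.g .P) 1 (.g .P)), (4, 2, true, .far (.g .P) 0 (.g .d)),
      (3, 1, true, .far (.g .P) 1 (.g .d)), (0, 0, true, .far (.g .P) 0 (.g .d))]
    (by decide +kernel) rfl
    ⟨Ty.cast (Y_ty) (by simp only [W, List.getD_cons_zero, List.getD_cons_succ] <;> omega) (by simp only [W, List.getD_cons_zero, List.getD_cons_succ] <;> omega),
      Ty.cast (Ev_ty) (by simp only [W, List.getD_cons_zero, List.getD_cons_succ] <;> omega) (by simp only [W, List.getD_cons_zero, List.getD_cons_succ] <;> omega),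
      trivial⟩ trivial
    trivial
  simp only [ev2, val, W, List.getD_cons_zero, List.getD_cons_succ, up_G, up_zero, up_up, map_mul, map_one, B_one_one, cr_true, cr_false, mul_one, one_mul, Nat.add_zero, Nat.zero_add, mul_assoc] at t ⊢
  (try ring_nf at t)
  (try ring_nf)
  exact t

theorem d1b_add3 :
    (G d 2 * G P 0 * G P 1 * G d 4 * G P 1 * G P 2 * G P 3 * G P 0 * G P 1 * G P 2 * G u 0 * G u 0 * G u 0 : Cob X) =
      G u 0 := by
  have t := col_sound (X := X) (fun c => List.getD [1] c 0) []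
    [] []
    []
    []
    [0, 0, 0, 0] [(2, .g .d), (0, .g .P), (1, .g .P), (4, .g .d), (1, .g .P), (2, .g .P), (3, .g .P), (0, .g .P), (1, .g .P), (2, .g .P), (0, .g .u), (0, .g .u), (0, .g .u)]
    [(0, .g .u)]
    [([0, 0], .g .d), ([], .br true 0 0), ([0], .br true 0 0), ([0, 0, 0, 0], .g .d), ([0], .br true 0 0), ([0, 0], .br true 0 0), ([0, 0, 0], .br true 0 0), ([], .br true 0 0), ([0], .br true 0 0), ([0, 0], .br true 0 0), ([], .g .u), ([], .g .u), ([], .g .u)]
    [([], .g .u)]
    [(0, 0, false, .far (.g .P) 0 (.g .d)), (3, 1, false, .far (.g .P) 1 (.g .d)),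
      (4, 2, false, .far (.g .P) 0 (.g .d)), (6, 0, false, .far (.g .P) 1 (.g .P)),
      (5, 0, false, .far (.g .P) 2 (.g .d)), (4, 0, false, .far (.g .P) 0 (.g .P)),
      (7, 1, false, .far (.g .P) 0 (.g .P)), (6, 1, false, .far (.g .P) 1 (.g .d)),
      (9, 0, false, .far (.g .u) 1 (.g .P)), (8, 0, false, .far (.g .u) 2 (.g .P)),
      (7, 0, false, .far (.g .u) 3 (.g .d)), (6, 0, false, .far (.g .u) 0 (.g .P)),
      (5, 0, false, .far (.g .u) 1 (.g .P)), (10, 0, false, .far (.g .u) 0 (.g .P)),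
      (9, 0, false, .far (.g .u) 1 (.g .P)), (8, 0, false, .far (.g .u) 2 (.g .d)),
      (8, 0, true, .nr false (.g .u)), (7, 0, true, .can true), (7, 1, true, .nr false (.g .u)),
      (6, 1, true, .can true), (5, 0, true, .far (.g .u) 2 (.g .u)), (4, 0, true, .far (.g .P) 1 (.g .u)),
      (3, 1, true, .far (.g .P) 0 (.g .u)), (2, 1, true, .far (.g .P) 0 (.g .u)), (1, 2, true, .pu 5 1),
      (8, 0, true, .nr false (.g .u)), (7, 0, true, .can true), (6, 1, false, .can true),
      (7, 2, false, .can true), (5, 1, false, .nl true (.g .d)), (8, 1, true, .can false),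
      (7, 1, false, .far (.g .u) 0 (.g .Q)), (6, 1, true, .pu 4 1), (5, 1, true, .can true),
      (4, 0, true, .nr false (.g .u)), (3, 0, true, .can true), (3, 1, true, .nr false (.g .u)),
      (2, 1, true, .can true), (1, 1, false, .nr true (.g .u)), (0, 0, false, .nr true (.g .u))]
    (by decide +kernel) rfl
    trivial trivial
    trivial
  simp only [ev2, val, W, List.getD_cons_zero, List.getD_cons_succ, up_G, up_zero, up_up, map_mul, map_one, B_one_one, cr_true, cr_false, mul_one, one_mul, Nat.add_zero, Nat.zero_add, mul_assoc] at t ⊢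
  (try ring_nf at t)
  (try ring_nf)
  exact t

theorem d1b_add4 :
    (G d 2 * G P 0 * G P 1 * G d 4 * G P 1 * G P 2 * G P 3 * G P 0 * G P 1 * G P 2 * G u 3 * G u 3 * G u 3 : Cob X) =
      G u 1 := by
  have t := col_sound (X := X) (fun c => List.getD [1] c 0) []
    [] []
    []
    []
    [0, 0, 0, 0] [(2, .g .d), (0, .g .P), (1, .g .P), (4, .g .d), (1, .g .P), (2, .g .P), (3, .g .P), (0, .g .P), (1, .g .P), (2, .g .P), (3, .g .u), (3, .g .u), (3, .g .u)]
    [(1, .g .u)]
    [([0, 0], .g .d), ([], .br true 0 0), ([0], .br true 0 0), ([0, 0, 0, 0], .g .d), ([0], .br true 0 0), ([0, 0], .br true 0 0), ([0, 0, 0], .br true 0 0), ([], .br true 0 0), ([0], .br true 0 0), ([0, 0], .br true 0 0), ([0, 0, 0], .g .u), ([0, 0, 0], .g .u), ([0, 0, 0], .g .u)]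
    [([0], .g .u)]
    [(0, 0, false, .far (.g .P) 0 (.g .d)), (3, 1, false, .far (.g .P) 1 (.g .d)),
      (4, 2, false, .far (.g .P) 0 (.g .d)), (6, 0, false, .far (.g .P) 1 (.g .P)),
      (5, 0, false, .far (.g .P) 2 (.g .d)), (4, 0, false, .far (.g .P) 0 (.g .P)),
      (7, 1, false, .far (.g .P) 0 (.g .P)), (6, 1, false, .far (.g .P) 1 (.g .d)),
      (11, 3, true, .far (.g .u) 0 (.g .u)), (10, 3, true, .far (.g .u) 1 (.g .u)),
      (9, 2, true, .far (.g .P) 1 (.g .u)), (8, 3, true, .far (.g .P) 0 (.g .u)), (7, 4, true, .pu 5 1),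
      (9, 3, true, .far (.g .u) 0 (.g .u)), (8, 2, true, .far (.g .P) 0 (.g .u)),
      (8, 3, false, .nl false (.g .u)), (7, 3, true, .can true), (2, 1, false, .can true),
      (3, 2, false, .can true), (1, 1, false, .nl true (.g .d)), (4, 1, true, .can false),
      (7, 1, true, .far (.g .P) 0 (.g .u)), (7, 2, false, .nl false (.g .u)), (6, 2, true, .can true),
      (5, 0, true, .far (.g .P) 0 (.g .u)), (5, 1, false, .nl false (.g .u)), (4, 1, true, .can true),
      (3, 1, false, .far (.g .u) 0 (.g .Q)), (2, 1, true, .pu 4 1), (1, 1, true, .can true),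
      (4, 2, false, .nl false (.g .u)), (3, 2, true, .can true), (3, 1, false, .nl false (.g .u)),
      (2, 1, true, .can true), (1, 0, false, .nr true (.g .u)), (0, 0, true, .nl true (.g .u))]
    (by decide +kernel) rfl
    trivial trivial
    trivial
  simp only [ev2, val, W, List.getD_cons_zero, List.getD_cons_succ, up_G, up_zero, up_up, map_mul, map_one, B_one_one, cr_true, cr_false, mul_one, one_mul, Nat.add_zero, Nat.zero_add, mul_assoc] at t ⊢
  (try ring_nf at t)
  (try ring_nf)
  exact t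

theorem d1b_W0 :
    (G w 0 * G v 1 * up 1 Y * G u 0 * G e 0 : Cob X) =
      G e 0 * G e 0 := by
  have t := col_sound (X := X) (fun c => List.getD [1] c 0) [Y]
    [([0, 0], [0])] []
    [([], [(0, .g .w), (0, .g .u)], [(0, .g .e)]),
      ([0], [(1, .g .e), (0, .b 0)], [(0, .g .u), (0, .g .e)])]
    [([([], .g .w), ([], .g .u)], [([], .g .e)]),
      ([([0], .g .e), ([], .b 0)], [([], .g .u), ([], .g .e)])]
    [] [(0, .g .w), (1, .g .v), (1, .b 0), (0, .g .u), (0, .g .e)]
    [(0, .g .e), (0, .g .e)]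
    [([], .g .w), ([0], .g .v), ([0], .b 0), ([], .g .u), ([], .g .e)]
    [([], .g .e), ([], .g .e)]
    [(2, 0, false, .far (.g .u) 0 (.b 0)), (1, 0, false, .far (.g .u) 0 (.g .v)),
      (1, 0, false, .far (.g .v) 0 (.g .u)), (0, 0, false, .far (.g .v) 0 (.g .w)),
      (3, 0, false, .far (.g .e) 0 (.b 0)), (2, 0, false, .far (.g .e) 1 (.g .u)),
      (1, 0, false, .far (.g .e) 1 (.g .w)), (0, 0, false, .far (.g .e) 0 (.g .v)), (2, 2, true, .co 0),
      (2, 1, true, .co 1), (2, 1, false, .far (.g .e) 0 (.g .u)), (1, 1, false, .far (.g .e) 0 (.g .v)),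
      (2, 2, true, .pu 21 0), (0, 0, true, .far (.g .e) 0 (.g .e))]
    (by decide +kernel) rfl
    ⟨Ty.cast (Y_ty) (by simp only [W, List.getD_cons_zero, List.getD_cons_succ] <;> omega) (by simp only [W, List.getD_cons_zero, List.getD_cons_succ] <;> omega),
      trivial⟩ trivial
    ⟨by have t := wuL (X := X); simp only [ev2, val, W, List.getD_cons_zero, List.getD_cons_succ, up_G, up_zero, up_up, map_mul, map_one, B_one_one, cr_true, cr_false, mul_one, one_mul, Nat.add_zero, Nat.zero_add, mul_assoc] at t ⊢; (try ring_nf at t); (try ring_nf); exact t,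
      by have t := eY1 (X := X); simp only [ev2, val, W, List.getD_cons_zero, List.getD_cons_succ, up_G, up_zero, up_up, map_mul, map_one, B_one_one, cr_true, cr_false, mul_one, one_mul, Nat.add_zero, Nat.zero_add, mul_assoc] at t ⊢; (try ring_nf at t); (try ring_nf); exact t,
      trivial⟩
  simp only [ev2, val, W, List.getD_cons_zero, List.getD_cons_succ, up_G, up_zero, up_up, map_mul, map_one, B_one_one, cr_true, cr_false, mul_one, one_mul, Nat.add_zero, Nat.zero_add, mul_assoc] at t ⊢
  (try ring_nf at t)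
  (try ring_nf)
  exact t

theorem d1b_W1 :
    (G w 0 * G v 1 * up 1 Y * G u 1 * G e 1 : Cob X) =
      G e 0 * G e 0 := by
  have t := col_sound (X := X) (fun c => List.getD [1] c 0) [Y]
    [([0, 0], [0])] []
    [([0, 0], [(0, .b 0), (0, .g .u)], [(0, .g .u), (0, .g .u)]),
      ([], [(0, .g .w), (1, .g .u)], [(0, .g .e)])]
    [([([], .b 0), ([], .g .u)], [([], .g .u), ([], .g .u)]),
      ([([], .g .w), ([0], .g .u)], [([], .g .e)])]
    [] [(0, .g .w), (1, .g .v), (1, .b 0), (1, .g .u), (1, .g .e)]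
    [(0, .g .e), (0, .g .e)]
    [([], .g .w), ([0], .g .v), ([0], .b 0), ([0], .g .u), ([0], .g .e)]
    [([], .g .e), ([], .g .e)]
    [(3, 1, false, .far (.g .e) 0 (.g .u)), (2, 1, false, .far (.g .e) 0 (.b 0)),
      (1, 1, false, .far (.g .e) 0 (.g .v)), (3, 2, true, .co 0), (2, 2, true, .pu 21 0),
      (1, 1, true, .far (.g .e) 0 (.g .u)), (0, 0, true, .co 1), (0, 0, true, .far (.g .e) 0 (.g .e))]
    (by decide +kernel) rfl
    ⟨Ty.cast (Y_ty) (by simp only [W, List.getD_cons_zero, List.getD_cons_succ] <;> omega) (by simp only [W, List.getD_cons_zero, List.getD_cons_succ] <;> omega),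
      trivial⟩ trivial
    ⟨by have t := Yu (X := X); simp only [ev2, val, W, List.getD_cons_zero, List.getD_cons_succ, up_G, up_zero, up_up, map_mul, map_one, B_one_one, cr_true, cr_false, mul_one, one_mul, Nat.add_zero, Nat.zero_add, mul_assoc] at t ⊢; (try ring_nf at t); (try ring_nf); exact t,
      by have t := wuR (X := X); simp only [ev2, val, W, List.getD_cons_zero, List.getD_cons_succ, up_G, up_zero, up_up, map_mul, map_one, B_one_one, cr_true, cr_false, mul_one, one_mul, Nat.add_zero, Nat.zero_add, mul_assoc] at t ⊢; (try ring_nf at t); (try ring_nf); exact t,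
      trivial⟩
  simp only [ev2, val, W, List.getD_cons_zero, List.getD_cons_succ, up_G, up_zero, up_up, map_mul, map_one, B_one_one, cr_true, cr_false, mul_one, one_mul, Nat.add_zero, Nat.zero_add, mul_assoc] at t ⊢
  (try ring_nf at t)
  (try ring_nf)
  exact t

theorem d1b_y0 :
    (G w 0 * G w 1 * up 2 Y * G u 0 * G e 0 : Cob X) =
      G e 0 * G e 0 * G e 0 := by
  have t := col_sound (X := X) (fun c => List.getD [1] c 0) [Y]
    [([0, 0], [0])] []
    [([], [(0, .g .w), (0, .g .u)], [(0, .g .e)]),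
      ([0], [(1, .g .e), (0, .b 0)], [(0, .g .u), (0, .g .e)]),
      ([], [(0, .g .w), (1, .g .u)], [(0, .g .e)])]
    [([([], .g .w), ([], .g .u)], [([], .g .e)]),
      ([([0], .g .e), ([], .b 0)], [([], .g .u), ([], .g .e)]),
      ([([], .g .w), ([0], .g .u)], [([], .g .e)])]
    [] [(0, .g .w), (1, .g .w), (2, .b 0), (0, .g .u), (0, .g .e)]
    [(0, .g .e), (0, .g .e), (0, .g .e)]
    [([], .g .w), ([0], .g .w), ([0, 0], .b 0), ([], .g .u), ([], .g .e)]
    [([], .g .e), ([], .g .e), ([], .g .e)]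
    [(2, 0, false, .far (.g .u) 1 (.b 0)), (1, 0, false, .far (.g .u) 0 (.g .w)),
      (1, 0, false, .far (.g .w) 0 (.g .u)), (0, 0, false, .far (.g .w) 0 (.g .w)),
      (3, 0, false, .far (.g .e) 1 (.b 0)), (2, 0, false, .far (.g .e) 2 (.g .u)),
      (1, 0, false, .far (.g .e) 2 (.g .w)), (0, 0, false, .far (.g .e) 0 (.g .w)), (2, 3, true, .co 0),
      (2, 2, true, .co 1), (1, 1, true, .co 2), (0, 0, true, .far (.g .e) 0 (.g .e)),
      (1, 0, true, .far (.g .e) 1 (.g .e)), (0, 0, true, .far (.g .e) 0 (.g .e))]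
    (by decide +kernel) rfl
    ⟨Ty.cast (Y_ty) (by simp only [W, List.getD_cons_zero, List.getD_cons_succ] <;> omega) (by simp only [W, List.getD_cons_zero, List.getD_cons_succ] <;> omega),
      trivial⟩ trivial
    ⟨by have t := wuL (X := X); simp only [ev2, val, W, List.getD_cons_zero, List.getD_cons_succ, up_G, up_zero, up_up, map_mul, map_one, B_one_one, cr_true, cr_false, mul_one, one_mul, Nat.add_zero, Nat.zero_add, mul_assoc] at t ⊢; (try ring_nf at t); (try ring_nf); exact t,
      by have t := eY1 (X := X); simp only [ev2, val, W, List.getD_cons_zero, List.getD_cons_succ, up_G, up_zero, up_up, map_mul, map_one, B_one_one, cr_true, cr_false, mul_one, one_mul, Nat.add_zero, Nat.zero_add, mul_assoc] at t ⊢; (try ring_nf at t); (try ring_nf); exact t,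
      by have t := wuR (X := X); simp only [ev2, val, W, List.getD_cons_zero, List.getD_cons_succ, up_G, up_zero, up_up, map_mul, map_one, B_one_one, cr_true, cr_false, mul_one, one_mul, Nat.add_zero, Nat.zero_add, mul_assoc] at t ⊢; (try ring_nf at t); (try ring_nf); exact t,
      trivial⟩
  simp only [ev2, val, W, List.getD_cons_zero, List.getD_cons_succ, up_G, up_zero, up_up, map_mul, map_one, B_one_one, cr_true, cr_false, mul_one, one_mul, Nat.add_zero, Nat.zero_add, mul_assoc] at t ⊢
  (try ring_nf at t)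
  (try ring_nf)
  exact t

theorem d1b_y1 :
    (G w 0 * G w 1 * up 2 Y * G u 1 * G e 1 : Cob X) =
      G e 0 * G e 0 * G e 0 := by
  have t := col_sound (X := X) (fun c => List.getD [1] c 0) [Y]
    [([0, 0], [0])] []
    [([], [(0, .g .w), (0, .g .u)], [(0, .g .e)]),
      ([0], [(0, .g .e), (0, .b 0)], [(0, .g .u), (0, .g .e)]),
      ([], [(0, .g .w), (1, .g .u)], [(0, .g .e)])]
    [([([], .g .w), ([], .g .u)], [([], .g .e)]), ([([], .g .e), ([], .b 0)], [([], .g .u), ([], .g .e)]),
      ([([], .g .w), ([0], .g .u)], [([], .g .e)])]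
    [] [(0, .g .w), (1, .g .w), (2, .b 0), (1, .g .u), (1, .g .e)]
    [(0, .g .e), (0, .g .e), (0, .g .e)]
    [([], .g .w), ([0], .g .w), ([0, 0], .b 0), ([0], .g .u), ([0], .g .e)]
    [([], .g .e), ([], .g .e), ([], .g .e)]
    [(2, 1, false, .far (.g .u) 0 (.b 0)), (3, 1, false, .far (.g .e) 0 (.b 0)),
      (2, 1, false, .far (.g .e) 0 (.g .u)), (1, 1, false, .far (.g .e) 0 (.g .w)), (2, 2, true, .co 0),
      (2, 2, true, .co 1), (1, 1, true, .far (.g .e) 0 (.g .u)), (0, 0, true, .co 2),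
      (0, 0, true, .far (.g .e) 0 (.g .e)), (1, 0, true, .far (.g .e) 1 (.g .e)),
      (0, 0, true, .far (.g .e) 0 (.g .e))]
    (by decide +kernel) rfl
    ⟨Ty.cast (Y_ty) (by simp only [W, List.getD_cons_zero, List.getD_cons_succ] <;> omega) (by simp only [W, List.getD_cons_zero, List.getD_cons_succ] <;> omega),
      trivial⟩ trivial
    ⟨by have t := wuL (X := X); simp only [ev2, val, W, List.getD_cons_zero, List.getD_cons_succ, up_G, up_zero, up_up, map_mul, map_one, B_one_one, cr_true, cr_false, mul_one, one_mul, Nat.add_zero, Nat.zero_add, mul_assoc] at t ⊢; (try ring_nf at t); (try ring_nf); exact t,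
      by have t := eY0 (X := X); simp only [ev2, val, W, List.getD_cons_zero, List.getD_cons_succ, up_G, up_zero, up_up, map_mul, map_one, B_one_one, cr_true, cr_false, mul_one, one_mul, Nat.add_zero, Nat.zero_add, mul_assoc] at t ⊢; (try ring_nf at t); (try ring_nf); exact t,
      by have t := wuR (X := X); simp only [ev2, val, W, List.getD_cons_zero, List.getD_cons_succ, up_G, up_zero, up_up, map_mul, map_one, B_one_one, cr_true, cr_false, mul_one, one_mul, Nat.add_zero, Nat.zero_add, mul_assoc] at t ⊢; (try ring_nf at t); (try ring_nf); exact t,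
      trivial⟩
  simp only [ev2, val, W, List.getD_cons_zero, List.getD_cons_succ, up_G, up_zero, up_up, map_mul, map_one, B_one_one, cr_true, cr_false, mul_one, one_mul, Nat.add_zero, Nat.zero_add, mul_assoc] at t ⊢
  (try ring_nf at t)
  (try ring_nf)
  exact t

theorem d1b_y2 :
    (G w 0 * G w 1 * up 2 Y * G u 2 * G e 2 : Cob X) =
      G e 0 * G e 0 * G e 0 := by
  have t := col_sound (X := X) (fun c => List.getD [1] c 0) [Y]
    [([0, 0], [0])] []
    [([0, 0], [(0, .b 0), (0, .g .u)], [(0, .g .u), (0, .g .u)]),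
      ([], [(0, .g .w), (1, .g .u)], [(0, .g .e)])]
    [([([], .b 0), ([], .g .u)], [([], .g .u), ([], .g .u)]),
      ([([], .g .w), ([0], .g .u)], [([], .g .e)])]
    [] [(0, .g .w), (1, .g .w), (2, .b 0), (2, .g .u), (2, .g .e)]
    [(0, .g .e), (0, .g .e), (0, .g .e)]
    [([], .g .w), ([0], .g .w), ([0, 0], .b 0), ([0, 0], .g .u), ([0, 0], .g .e)]
    [([], .g .e), ([], .g .e), ([], .g .e)]
    [(3, 2, false, .far (.g .e) 0 (.g .u)), (2, 2, false, .far (.g .e) 0 (.b 0)), (3, 3, true, .co 0),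
      (2, 2, true, .far (.g .e) 0 (.g .u)), (1, 1, true, .co 1), (2, 2, true, .far (.g .e) 0 (.g .u)),
      (1, 1, true, .far (.g .e) 0 (.g .u)), (0, 0, true, .co 1), (0, 0, true, .far (.g .e) 0 (.g .e)),
      (1, 0, true, .far (.g .e) 1 (.g .e)), (0, 0, true, .far (.g .e) 0 (.g .e))]
    (by decide +kernel) rfl
    ⟨Ty.cast (Y_ty) (by simp only [W, List.getD_cons_zero, List.getD_cons_succ] <;> omega) (by simp only [W, List.getD_cons_zero, List.getD_cons_succ] <;> omega),
      trivial⟩ trivial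
    ⟨by have t := Yu (X := X); simp only [ev2, val, W, List.getD_cons_zero, List.getD_cons_succ, up_G, up_zero, up_up, map_mul, map_one, B_one_one, cr_true, cr_false, mul_one, one_mul, Nat.add_zero, Nat.zero_add, mul_assoc] at t ⊢; (try ring_nf at t); (try ring_nf); exact t,
      by have t := wuR (X := X); simp only [ev2, val, W, List.getD_cons_zero, List.getD_cons_succ, up_G, up_zero, up_up, map_mul, map_one, B_one_one, cr_true, cr_false, mul_one, one_mul, Nat.add_zero, Nat.zero_add, mul_assoc] at t ⊢; (try ring_nf at t); (try ring_nf); exact t,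
      trivial⟩
  simp only [ev2, val, W, List.getD_cons_zero, List.getD_cons_succ, up_G, up_zero, up_up, map_mul, map_one, B_one_one, cr_true, cr_false, mul_one, one_mul, Nat.add_zero, Nat.zero_add, mul_assoc] at t ⊢
  (try ring_nf at t)
  (try ring_nf)
  exact t
-- fails: []

end Pool.Agent.GH
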