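import Pool.Agent.Work.MP_c00b06_gt.Id5

/-! Diagram identities for trees with two nodes (generated certificates). -/

set_option linter.unusedSimpArgs false
set_option linter.unusedTactic false
set_option linter.unreachableTactic false
set_option linter.unnecessarySeqFocus false

namespace Pool.Agent.GH
open Gn

variable {X : Wd → Wd → Prop}

theorem d2_evP :
    (G P 0 * G S 1 * G S 1 * Ev : Cob X) =
      Ev := by
  have t := col_sound (X := X) (fun c => List.getD [1] c 0) [Ev]
    [([0, 0], [])] []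
    [([0, 0], [(0, .g .Q), (1, .g .T), (1, .g .T), (0, .b 0)], [(0, .b 0)]),
      ([0, 0], [(0, .g .S), (0, .b 0)], [(1, .g .S), (0, .b 0)])]
    [([([], .br false 0 0), ([0], .g .T), ([0], .g .T), ([], .b 0)], [([], .b 0)]),
      ([([], .g .S), ([], .b 0)], [([0], .g .S), ([], .b 0)])]
    [0, 0] [(0, .g .P), (1, .g .S), (1, .g .S), (0, .b 0)]
    [(0, .b 0)]
    [([], .br true 0 0), ([0], .g .S), ([0], .g .S), ([], .b 0)]
    [([], .b 0)]
    [(3, 0, false, .can false), (2, 0, false, .nl false (.g .S)), (0, 0, false, .nr true (.g .S)),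
      (1, 0, true, .can true), (3, 0, false, .co 0), (2, 0, true, .can true),
      (1, 0, true, .far (.g .S) 0 (.g .T)), (2, 0, true, .far (.g .S) 0 (.g .T)), (3, 0, true, .co 1),
      (0, 0, true, .far (.g .S) 0 (.g .T)), (1, 0, true, .far (.g .S) 0 (.g .T)),
      (2, 0, true, .far (.g .S) 0 (.g .S)), (3, 0, true, .co 1), (1, 1, true, .pu 13 1),
      (0, 1, true, .pu 13 1)]
    (by decide +kernel) rfl
    ⟨Ty.cast (Ev_ty) (by simp only [W, List.getD_cons_zero, List.getD_cons_succ] <;> omega) (by simp only [W, List.getD_cons_zero, List.getD_cons_succ] <;> omega),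
      trivial⟩ trivial
    ⟨by have t := evQ (X := X); simp only [ev2, val, W, List.getD_cons_zero, List.getD_cons_succ, up_G, up_zero, up_up, map_mul, map_one, B_one_one, cr_true, cr_false, mul_one, one_mul, Nat.add_zero, Nat.zero_add, mul_assoc] at t ⊢; (try ring_nf at t); (try ring_nf); exact t,
      by have t := Sev (X := X); simp only [ev2, val, W, List.getD_cons_zero, List.getD_cons_succ, up_G, up_zero, up_up, map_mul, map_one, B_one_one, cr_true, cr_false, mul_one, one_mul, Nat.add_zero, Nat.zero_add, mul_assoc] at t ⊢; (try ring_nf at t); (try ring_nf); exact t,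
      trivial⟩
  simp only [ev2, val, W, List.getD_cons_zero, List.getD_cons_succ, up_G, up_zero, up_up, map_mul, map_one, B_one_one, cr_true, cr_false, mul_one, one_mul, Nat.add_zero, Nat.zero_add, mul_assoc] at t ⊢
  (try ring_nf at t)
  (try ring_nf)
  exact t

theorem d2_wPev :
    (G w 0 * G P 1 * Ev : Cob X) =
      G S 0 * G S 0 := by
  have t := col_sound (X := X) (fun c => List.getD [1] c 0) [Ev]
    [([0, 0], [])] []
    [([0, 0], [(0, .g .P), (1, .g .S), (1, .g .S), (0, .b 0)], [(0, .b 0)]),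
      ([0, 0], [(0, .g .S), (0, .b 0)], [(1, .g .S), (0, .b 0)]), ([0], [(1, .g .w), (0, .b 0)], [])]
    [([([], .br true 0 0), ([0], .g .S), ([0], .g .S), ([], .b 0)], [([], .b 0)]),
      ([([], .g .S), ([], .b 0)], [([0], .g .S), ([], .b 0)]), ([([0], .g .w), ([], .b 0)], [])]
    [0] [(0, .g .w), (1, .g .P), (0, .b 0)]
    [(0, .g .S), (0, .g .S)]
    [([], .g .w), ([0], .br true 0 0), ([], .b 0)]
    [([], .g .S), ([], .g .S)]
    [(2, 0, false, .co 0), (1, 1, false, .can true), (2, 0, false, .can true),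
      (0, 0, true, .nr true (.g .w)), (2, 1, true, .can false), (1, 0, true, .can false),
      (2, 0, false, .co 1), (1, 0, false, .far (.g .S) 0 (.g .S)), (0, 0, false, .far (.g .S) 0 (.g .w)),
      (2, 0, false, .co 1), (1, 0, false, .far (.g .S) 0 (.g .w)), (2, 0, true, .co 2)]
    (by decide +kernel) rfl
    ⟨Ty.cast (Ev_ty) (by simp only [W, List.getD_cons_zero, List.getD_cons_succ] <;> omega) (by simp only [W, List.getD_cons_zero, List.getD_cons_succ] <;> omega),
      trivial⟩ trivial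
    ⟨by have t := d2_evP (X := X); simp only [ev2, val, W, List.getD_cons_zero, List.getD_cons_succ, up_G, up_zero, up_up, map_mul, map_one, B_one_one, cr_true, cr_false, mul_one, one_mul, Nat.add_zero, Nat.zero_add, mul_assoc] at t ⊢; (try ring_nf at t); (try ring_nf); exact t,
      by have t := Sev (X := X); simp only [ev2, val, W, List.getD_cons_zero, List.getD_cons_succ, up_G, up_zero, up_up, map_mul, map_one, B_one_one, cr_true, cr_false, mul_one, one_mul, Nat.add_zero, Nat.zero_add, mul_assoc] at t ⊢; (try ring_nf at t); (try ring_nf); exact t,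
      by have t := zL (X := X); simp only [ev2, val, W, List.getD_cons_zero, List.getD_cons_succ, up_G, up_zero, up_up, map_mul, map_one, B_one_one, cr_true, cr_false, mul_one, one_mul, Nat.add_zero, Nat.zero_add, mul_assoc] at t ⊢; (try ring_nf at t); (try ring_nf); exact t,
      trivial⟩
  simp only [ev2, val, W, List.getD_cons_zero, List.getD_cons_succ, up_G, up_zero, up_up, map_mul, map_one, B_one_one, cr_true, cr_false, mul_one, one_mul, Nat.add_zero, Nat.zero_add, mul_assoc] at t ⊢
  (try ring_nf at t)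
  (try ring_nf)
  exact t

theorem d2_vT :
    (G v 0 * Y * Ev : Cob X) =
      G d 1 * G P 1 * G P 0 * G S 0 * G S 0 * Y * Ev := by
  have t := col_sound (X := X) (fun c => List.getD [1] c 0) [Y, Ev]
    [([0, 0], [0]), ([0, 0], [])] []
    [([0], [(0, .g .w), (1, .b 0), (0, .g .m)], [(0, .g .v), (0, .b 0)]),
      ([0, 0, 0], [(0, .g .m), (0, .b 1)], [(2, .g .d), (1, .b 1), (0, .b 1)]),
      ([0], [(0, .g .w), (1, .g .P), (0, .b 1)], [(0, .g .S), (0, .g .S)])]
    [([([], .g .w), ([0], .b 0), ([], .g .m)], [([], .g .v), ([], .b 0)]),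
      ([([], .g .m), ([], .b 1)], [([0, 0], .g .d), ([0], .b 1), ([], .b 1)]),
      ([([], .g .w), ([0], .br true 0 0), ([], .b 1)], [([], .g .S), ([], .g .S)])]
    [0, 0] [(0, .g .v), (0, .b 0), (0, .b 1)]
    [(1, .g .d), (1, .g .P), (0, .g .P), (0, .g .S), (0, .g .S), (0, .b 0), (0, .b 1)]
    [([], .g .v), ([], .b 0), ([], .b 1)]
    [([0], .g .d), ([0], .br true 0 0), ([], .br true 0 0), ([], .g .S), ([], .g .S), ([], .b 0), ([], .b 1)]
    [(0, 0, false, .co 0), (2, 0, true, .co 1), (3, 1, true, .nr true (.b 1)),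
      (5, 0, false, .far (.b 1) 0 (.b 1)), (1, 1, true, .far (.b 0) 0 (.g .d)),
      (2, 1, true, .far (.b 0) 0 (.g .P)), (3, 2, false, .can true), (4, 1, false, .can true),
      (5, 1, true, .nl false (.b 0)), (6, 1, true, .can false), (5, 0, false, .far (.b 1) 0 (.b 0)),
      (0, 0, true, .far (.g .w) 1 (.g .d)), (1, 0, true, .far (.g .w) 1 (.g .P)),
      (2, 0, true, .far (.g .w) 0 (.g .P)), (3, 0, true, .co 2)]
    (by decide +kernel) rfl
    ⟨Ty.cast (Y_ty) (by simp only [W, List.getD_cons_zero, List.getD_cons_succ] <;> omega) (by simp only [W, List.getD_cons_zero, List.getD_cons_succ] <;> omega),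
      Ty.cast (Ev_ty) (by simp only [W, List.getD_cons_zero, List.getD_cons_succ] <;> omega) (by simp only [W, List.getD_cons_zero, List.getD_cons_succ] <;> omega),
      trivial⟩ trivial
    ⟨by have t := nY (X := X); simp only [ev2, val, W, List.getD_cons_zero, List.getD_cons_succ, up_G, up_zero, up_up, map_mul, map_one, B_one_one, cr_true, cr_false, mul_one, one_mul, Nat.add_zero, Nat.zero_add, mul_assoc] at t ⊢; (try ring_nf at t); (try ring_nf); exact t,
      by have t := mev0 (X := X); simp only [ev2, val, W, List.getD_cons_zero, List.getD_cons_succ, up_G, up_zero, up_up, map_mul, map_one, B_one_one, cr_true, cr_false, mul_one, one_mul, Nat.add_zero, Nat.zero_add, mul_assoc] at t ⊢; (try ring_nf at t); (try ring_nf); exact t,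
      by have t := d2_wPev (X := X); simp only [ev2, val, W, List.getD_cons_zero, List.getD_cons_succ, up_G, up_zero, up_up, map_mul, map_one, B_one_one, cr_true, cr_false, mul_one, one_mul, Nat.add_zero, Nat.zero_add, mul_assoc] at t ⊢; (try ring_nf at t); (try ring_nf); exact t,
      trivial⟩
  simp only [ev2, val, W, List.getD_cons_zero, List.getD_cons_succ, up_G, up_zero, up_up, map_mul, map_one, B_one_one, cr_true, cr_false, mul_one, one_mul, Nat.add_zero, Nat.zero_add, mul_assoc] at t ⊢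
  (try ring_nf at t)
  (try ring_nf)
  exact t

theorem d2_dT :
    (G d 0 * Y * Ev : Cob X) =
      G v 0 * Y * Ev := by
  have t := col_sound (X := X) (fun c => List.getD [1] c 0) [Y, Ev]
    [([0, 0], [0]), ([0, 0], [])] []
    [
      ([0, 0, 0], [(1, .g .T), (1, .g .Q), (0, .g .S), (1, .g .T), (0, .b 0), (0, .b 1)], [(0, .b 0), (0, .b 1)]),
      ([0], [(0, .g .T), (0, .g .d)], [(0, .g .d), (0, .g .Q), (0, .g .T), (1, .g .T)]),
      ([0, 0], [(0, .g .v), (0, .b 0), (0, .b 1)], [(1, .g .d), (1, .g .P), (0, .g .P), (0, .g .S), (0, .g .S), (0, .b 0), (0, .b 1)])]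
    [
      ([([0], .g .T), ([0], .br false 0 0), ([], .g .S), ([0], .g .T), ([], .b 0), ([], .b 1)], [([], .b 0), ([], .b 1)]),
      ([([], .g .T), ([], .g .d)], [([], .g .d), ([], .br false 0 0), ([], .g .T), ([0], .g .T)]),
      ([([], .g .v), ([], .b 0), ([], .b 1)], [([0], .g .d), ([0], .br true 0 0), ([], .br true 0 0), ([], .g .S), ([], .g .S), ([], .b 0), ([], .b 1)])]
    [0, 0] [(0, .g .d), (0, .b 0), (0, .b 1)]
    [(0, .g .v), (0, .b 0), (0, .b 1)]
    [([], .g .d), ([], .b 0), ([], .b 1)]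
    [([], .g .v), ([], .b 0), ([], .b 1)]
    [(1, 0, false, .co 0), (2, 0, false, .far (.g .S) 0 (.g .Q)), (1, 0, false, .far (.g .S) 0 (.g .T)),
      (1, 0, false, .pu 13 1), (5, 1, false, .can false), (4, 1, true, .nr false (.g .T)),
      (6, 1, true, .can true), (5, 1, false, .far (.g .T) 0 (.g .T)), (6, 0, false, .far (.b 0) 0 (.g .T)),
      (6, 1, false, .can true), (5, 1, true, .nr true (.g .T)), (4, 1, true, .can false),
      (3, 0, true, .far (.g .S) 1 (.g .T)), (4, 0, true, .far (.g .S) 0 (.g .Q)),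
      (2, 0, true, .far (.g .S) 1 (.g .T)), (3, 0, true, .far (.g .S) 0 (.g .Q)),
      (1, 0, true, .far (.g .T) 1 (.g .T)), (2, 0, true, .far (.g .T) 0 (.g .Q)),
      (0, 0, true, .far (.g .d) 0 (.g .T)), (3, 0, false, .can false), (1, 0, false, .can false),
      (2, 0, true, .nl true (.g .d)), (4, 1, true, .can true), (3, 0, true, .can true),
      (5, 0, false, .can false), (3, 0, true, .nl true (.g .T)), (4, 0, true, .can true),
      (7, 0, true, .far (.b 0) 0 (.g .T)), (6, 0, true, .far (.g .S) 1 (.g .T)),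
      (5, 0, true, .far (.g .S) 1 (.g .T)), (4, 0, true, .far (.g .P) 0 (.g .T)),
      (3, 1, true, .far (.g .T) 0 (.g .T)), (5, 1, false, .can false), (4, 1, true, .nr false (.g .T)),
      (3, 1, false, .can false), (4, 1, false, .nr true (.g .T)), (5, 1, true, .can true),
      (2, 1, false, .co 1), (3, 0, false, .co 2), (2, 0, false, .far (.g .v) 1 (.g .T)),
      (1, 0, false, .far (.g .v) 0 (.g .Q)), (0, 0, false, .far (.g .v) 1 (.g .T)),
      (3, 0, false, .far (.b 0) 0 (.g .T)), (0, 0, false, .pu 22 0), (3, 1, false, .can false),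
      (2, 1, false, .nl false (.g .T)), (4, 1, true, .can true), (4, 0, true, .far (.b 0) 0 (.g .T)),
      (3, 1, true, .far (.g .T) 0 (.g .T)), (4, 1, false, .can true), (2, 1, false, .nr false (.g .T)),
      (3, 1, true, .can false), (1, 0, true, .far (.g .S) 0 (.g .T)), (2, 0, true, .far (.g .S) 0 (.g .Q)),
      (1, 0, true, .co 0)]
    (by decide +kernel) rfl
    ⟨Ty.cast (Y_ty) (by simp only [W, List.getD_cons_zero, List.getD_cons_succ] <;> omega) (by simp only [W, List.getD_cons_zero, List.getD_cons_succ] <;> omega),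
      Ty.cast (Ev_ty) (by simp only [W, List.getD_cons_zero, List.getD_cons_succ] <;> omega) (by simp only [W, List.getD_cons_zero, List.getD_cons_succ] <;> omega),
      trivial⟩ trivial
    ⟨by have t := TS12 (X := X); simp only [ev2, val, W, List.getD_cons_zero, List.getD_cons_succ, up_G, up_zero, up_up, map_mul, map_one, B_one_one, cr_true, cr_false, mul_one, one_mul, Nat.add_zero, Nat.zero_add, mul_assoc] at t ⊢; (try ring_nf at t); (try ring_nf); exact t,
      by have t := Td (X := X); simp only [ev2, val, W, List.getD_cons_zero, List.getD_cons_succ, up_G, up_zero, up_up, map_mul, map_one, B_one_one, cr_true, cr_false, mul_one, one_mul, Nat.add_zero, Nat.zero_add, mul_assoc] at t ⊢; (try ring_nf at t); (try ring_nf); exact t,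
      by have t := d2_vT (X := X); simp only [ev2, val, W, List.getD_cons_zero, List.getD_cons_succ, up_G, up_zero, up_up, map_mul, map_one, B_one_one, cr_true, cr_false, mul_one, one_mul, Nat.add_zero, Nat.zero_add, mul_assoc] at t ⊢; (try ring_nf at t); (try ring_nf); exact t,
      trivial⟩
  simp only [ev2, val, W, List.getD_cons_zero, List.getD_cons_succ, up_G, up_zero, up_up, map_mul, map_one, B_one_one, cr_true, cr_false, mul_one, one_mul, Nat.add_zero, Nat.zero_add, mul_assoc] at t ⊢
  (try ring_nf at t)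
  (try ring_nf)
  exact t

theorem d2_dY :
    (G d 0 * Y : Cob X) =
      G v 0 * Y := by
  have t := col_sound (X := X) (fun c => List.getD [1] c 0) [Y, Ev]
    [([0, 0], [0]), ([0, 0], [])] []
    [([0], [(1, .g .w), (0, .b 1)], []),
      ([0, 0], [(0, .g .d), (0, .b 0), (0, .b 1)], [(0, .g .v), (0, .b 0), (0, .b 1)])]
    [([([0], .g .w), ([], .b 1)], []),
      ([([], .g .d), ([], .b 0), ([], .b 1)], [([], .g .v), ([], .b 0), ([], .b 1)])]
    [0] [(0, .g .d), (0, .b 0)]
    [(0, .g .v), (0, .b 0)]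
    [([], .g .d), ([], .b 0)]
    [([], .g .v), ([], .b 0)]
    [(2, 0, false, .co 0), (1, 0, true, .far (.b 0) 0 (.g .w)), (0, 0, true, .far (.g .d) 0 (.g .w)),
      (1, 0, true, .co 1), (0, 0, false, .far (.g .v) 1 (.g .w)), (1, 0, false, .far (.b 0) 0 (.g .w)),
      (2, 0, true, .co 0)]
    (by decide +kernel) rfl
    ⟨Ty.cast (Y_ty) (by simp only [W, List.getD_cons_zero, List.getD_cons_succ] <;> omega) (by simp only [W, List.getD_cons_zero, List.getD_cons_succ] <;> omega),
      Ty.cast (Ev_ty) (by simp only [W, List.getD_cons_zero, List.getD_cons_succ] <;> omega) (by simp only [W, List.getD_cons_zero, List.getD_cons_succ] <;> omega),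
      trivial⟩ trivial
    ⟨by have t := zL (X := X); simp only [ev2, val, W, List.getD_cons_zero, List.getD_cons_succ, up_G, up_zero, up_up, map_mul, map_one, B_one_one, cr_true, cr_false, mul_one, one_mul, Nat.add_zero, Nat.zero_add, mul_assoc] at t ⊢; (try ring_nf at t); (try ring_nf); exact t,
      by have t := d2_dT (X := X); simp only [ev2, val, W, List.getD_cons_zero, List.getD_cons_succ, up_G, up_zero, up_up, map_mul, map_one, B_one_one, cr_true, cr_false, mul_one, one_mul, Nat.add_zero, Nat.zero_add, mul_assoc] at t ⊢; (try ring_nf at t); (try ring_nf); exact t,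
      trivial⟩
  simp only [ev2, val, W, List.getD_cons_zero, List.getD_cons_succ, up_G, up_zero, up_up, map_mul, map_one, B_one_one, cr_true, cr_false, mul_one, one_mul, Nat.add_zero, Nat.zero_add, mul_assoc] at t ⊢
  (try ring_nf at t)
  (try ring_nf)
  exact t

theorem d2_dad :
    (G d 0 * Ad : Cob X) =
      G v 0 * Ad := by
  have t := col_sound (X := X) (fun c => List.getD [1] c 0) [Ad, Y]
    [([0, 0], [0]), ([0, 0], [0])] []
    [([0, 0], [(1, .g .d), (0, .b 1), (0, .g .m)], [(0, .b 0)]),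
      ([0], [(0, .g .d), (0, .b 1)], [(0, .g .v), (0, .b 1)])]
    [([([0], .g .d), ([], .b 1), ([], .g .m)], [([], .b 0)]),
      ([([], .g .d), ([], .b 1)], [([], .g .v), ([], .b 1)])]
    [0] [(0, .g .d), (0, .b 0)]
    [(0, .g .v), (0, .b 0)]
    [([], .g .d), ([], .b 0)]
    [([], .g .v), ([], .b 0)]
    [(1, 0, false, .co 0), (0, 0, false, .pu 3 1), (1, 0, true, .co 1),
      (0, 0, false, .far (.g .v) 0 (.g .d)), (1, 0, true, .co 0)]
    (by decide +kernel) rfl
    ⟨Ty.cast (Ad_ty) (by simp only [W, List.getD_cons_zero, List.getD_cons_succ] <;> omega) (by simp only [W, List.getD_cons_zero, List.getD_cons_succ] <;> omega),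
      Ty.cast (Y_ty) (by simp only [W, List.getD_cons_zero, List.getD_cons_succ] <;> omega) (by simp only [W, List.getD_cons_zero, List.getD_cons_succ] <;> omega),
      trivial⟩ trivial
    ⟨by have t := adY (X := X); simp only [ev2, val, W, List.getD_cons_zero, List.getD_cons_succ, up_G, up_zero, up_up, map_mul, map_one, B_one_one, cr_true, cr_false, mul_one, one_mul, Nat.add_zero, Nat.zero_add, mul_assoc] at t ⊢; (try ring_nf at t); (try ring_nf); exact t,
      by have t := d2_dY (X := X); simp only [ev2, val, W, List.getD_cons_zero, List.getD_cons_succ, up_G, up_zero, up_up, map_mul, map_one, B_one_one, cr_true, cr_false, mul_one, one_mul, Nat.add_zero, Nat.zero_add, mul_assoc] at t ⊢; (try ring_nf at t); (try ring_nf); exact t,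
      trivial⟩
  simp only [ev2, val, W, List.getD_cons_zero, List.getD_cons_succ, up_G, up_zero, up_up, map_mul, map_one, B_one_one, cr_true, cr_false, mul_one, one_mul, Nat.add_zero, Nat.zero_add, mul_assoc] at t ⊢
  (try ring_nf at t)
  (try ring_nf)
  exact t

theorem d2_wad :
    (G w 0 * Ad : Cob X) =
      G e 0 := by
  have t := col_sound (X := X) (fun c => List.getD [1] c 0) [Ad]
    [([0, 0], [0])] []
    [([], [(0, .g .w)], [(0, .g .V), (1, .g .v), (1, .g .d), (0, .g .m), (2, .g .V), (1, .g .m)]),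
      ([0, 0, 0], [(0, .g .m), (0, .b 0)], [(1, .b 0), (0, .b 0)]),
      ([0], [(0, .g .V), (0, .g .m)], [(1, .g .V), (0, .g .m)]),
      ([0, 0], [(1, .g .V), (1, .g .m), (0, .b 0)], [(0, .b 0), (0, .g .V), (0, .g .m)]),
      ([0], [(0, .g .d), (0, .b 0)], [(0, .g .v), (0, .b 0)]),
      ([0], [(1, .g .v), (0, .b 0)], [(0, .g .u), (0, .g .v)]),
      ([0], [(1, .g .e), (0, .b 0)], [(0, .g .u), (0, .g .e)]), ([], [(0, .g .V), (0, .g .u)], [])]
    [
      ([([], .g .w)], [([], .g .V), ([0], .g .v), ([0], .g .d), ([], .g .m), ([0, 0], .g .V), ([0], .g .m)]),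
      ([([], .g .m), ([], .b 0)], [([0], .b 0), ([], .b 0)]),
      ([([], .g .V), ([], .g .m)], [([0], .g .V), ([], .g .m)]),
      ([([0], .g .V), ([0], .g .m), ([], .b 0)], [([], .b 0), ([], .g .V), ([], .g .m)]),
      ([([], .g .d), ([], .b 0)], [([], .g .v), ([], .b 0)]),
      ([([0], .g .v), ([], .b 0)], [([], .g .u), ([], .g .v)]),
      ([([0], .g .e), ([], .b 0)], [([], .g .u), ([], .g .e)]), ([([], .g .V), ([], .g .u)], [])]
    [] [(0, .g .w), (0, .b 0)]
    [(0, .g .e)]
    [([], .g .w), ([], .b 0)]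
    [([], .g .e)]
    [(0, 0, true, .co 0), (3, 0, true, .far (.g .m) 1 (.g .V)), (4, 0, true, .far (.g .m) 0 (.g .m)),
      (5, 0, true, .co 1), (3, 2, false, .co 2), (3, 1, true, .co 3), (3, 1, false, .far (.g .V) 0 (.b 0)),
      (2, 1, false, .far (.g .V) 0 (.g .d)), (1, 1, false, .far (.g .V) 0 (.g .v)), (3, 2, true, .co 4),
      (2, 2, false, .far (.g .v) 0 (.g .v)), (3, 2, true, .co 5), (3, 2, false, .far (.g .v) 0 (.g .u)),
      (2, 2, false, .far (.g .v) 0 (.g .v)), (4, 1, false, .far (.g .m) 0 (.g .u)),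
      (3, 1, false, .far (.g .m) 0 (.g .v)), (5, 0, false, .far (.b 0) 0 (.g .u)),
      (4, 0, false, .far (.b 0) 0 (.g .v)), (5, 1, true, .pu 21 0), (1, 1, true, .far (.g .V) 0 (.g .v)),
      (1, 1, true, .pu 20 0), (1, 0, true, .co 6), (1, 0, false, .far (.g .e) 0 (.g .u)),
      (0, 0, false, .far (.g .e) 0 (.g .V)), (1, 1, true, .co 7)]
    (by decide +kernel) rfl
    ⟨Ty.cast (Ad_ty) (by simp only [W, List.getD_cons_zero, List.getD_cons_succ] <;> omega) (by simp only [W, List.getD_cons_zero, List.getD_cons_succ] <;> omega),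
      trivial⟩ trivial
    ⟨by have t := dV (X := X); simp only [ev2, val, W, List.getD_cons_zero, List.getD_cons_succ, up_G, up_zero, up_up, map_mul, map_one, B_one_one, cr_true, cr_false, mul_one, one_mul, Nat.add_zero, Nat.zero_add, mul_assoc] at t ⊢; (try ring_nf at t); (try ring_nf); exact t,
      by have t := mad (X := X); simp only [ev2, val, W, List.getD_cons_zero, List.getD_cons_succ, up_G, up_zero, up_up, map_mul, map_one, B_one_one, cr_true, cr_false, mul_one, one_mul, Nat.add_zero, Nat.zero_add, mul_assoc] at t ⊢; (try ring_nf at t); (try ring_nf); exact t,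
      by have t := Vc (X := X); simp only [ev2, val, W, List.getD_cons_zero, List.getD_cons_succ, up_G, up_zero, up_up, map_mul, map_one, B_one_one, cr_true, cr_false, mul_one, one_mul, Nat.add_zero, Nat.zero_add, mul_assoc] at t ⊢; (try ring_nf at t); (try ring_nf); exact t,
      by have t := adV (X := X); simp only [ev2, val, W, List.getD_cons_zero, List.getD_cons_succ, up_G, up_zero, up_up, map_mul, map_one, B_one_one, cr_true, cr_false, mul_one, one_mul, Nat.add_zero, Nat.zero_add, mul_assoc] at t ⊢; (try ring_nf at t); (try ring_nf); exact t,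
      by have t := d2_dad (X := X); simp only [ev2, val, W, List.getD_cons_zero, List.getD_cons_succ, up_G, up_zero, up_up, map_mul, map_one, B_one_one, cr_true, cr_false, mul_one, one_mul, Nat.add_zero, Nat.zero_add, mul_assoc] at t ⊢; (try ring_nf at t); (try ring_nf); exact t,
      by have t := Iv (X := X); simp only [ev2, val, W, List.getD_cons_zero, List.getD_cons_succ, up_G, up_zero, up_up, map_mul, map_one, B_one_one, cr_true, cr_false, mul_one, one_mul, Nat.add_zero, Nat.zero_add, mul_assoc] at t ⊢; (try ring_nf at t); (try ring_nf); exact t,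
      by have t := Ie (X := X); simp only [ev2, val, W, List.getD_cons_zero, List.getD_cons_succ, up_G, up_zero, up_up, map_mul, map_one, B_one_one, cr_true, cr_false, mul_one, one_mul, Nat.add_zero, Nat.zero_add, mul_assoc] at t ⊢; (try ring_nf at t); (try ring_nf); exact t,
      by have t := Vu (X := X); simp only [ev2, val, W, List.getD_cons_zero, List.getD_cons_succ, up_G, up_zero, up_up, map_mul, map_one, B_one_one, cr_true, cr_false, mul_one, one_mul, Nat.add_zero, Nat.zero_add, mul_assoc] at t ⊢; (try ring_nf at t); (try ring_nf); exact t,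
      trivial⟩
  simp only [ev2, val, W, List.getD_cons_zero, List.getD_cons_succ, up_G, up_zero, up_up, map_mul, map_one, B_one_one, cr_true, cr_false, mul_one, one_mul, Nat.add_zero, Nat.zero_add, mul_assoc] at t ⊢
  (try ring_nf at t)
  (try ring_nf)
  exact t

theorem d2_wY :
    (G w 0 * Y : Cob X) =
      G e 0 := by
  have t := col_sound (X := X) (fun c => List.getD [1] c 0) [Y, Ad]
    [([0, 0], [0]), ([0, 0], [0])] []
    [([0, 0], [(0, .b 0)], [(1, .g .d), (0, .b 1), (1, .g .S), (0, .g .m)]),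
      ([0, 0, 0], [(0, .g .m), (0, .b 1)], [(1, .b 1), (0, .b 1)]),
      ([], [(0, .g .w), (0, .b 1)], [(0, .g .e)]),
      ([0], [(1, .g .e), (0, .b 1)], [(0, .g .u), (0, .g .e)]),
      ([], [(0, .g .w), (0, .g .u)], [(0, .g .e)]), ([], [(0, .g .e), (0, .g .S)], [(0, .g .e)])]
    [([([], .b 0)], [([0], .g .d), ([], .b 1), ([0], .g .S), ([], .g .m)]),
      ([([], .g .m), ([], .b 1)], [([0], .b 1), ([], .b 1)]), ([([], .g .w), ([], .b 1)], [([], .g .e)]),
      ([([0], .g .e), ([], .b 1)], [([], .g .u), ([], .g .e)]),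
      ([([], .g .w), ([], .g .u)], [([], .g .e)]), ([([], .g .e), ([], .g .S)], [([], .g .e)])]
    [] [(0, .g .w), (0, .b 0)]
    [(0, .g .e)]
    [([], .g .w), ([], .b 0)]
    [([], .g .e)]
    [(1, 0, true, .co 0), (0, 0, true, .pu 24 0), (2, 0, true, .co 1), (1, 1, true, .co 2),
      (1, 0, true, .co 3), (1, 0, false, .far (.g .e) 0 (.g .u)), (0, 0, false, .far (.g .e) 0 (.g .w)),
      (1, 1, true, .co 4), (0, 0, true, .far (.g .e) 0 (.g .e)), (1, 0, true, .far (.g .e) 0 (.g .S)),
      (2, 0, true, .pu 1 1), (0, 0, true, .co 5)]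
    (by decide +kernel) rfl
    ⟨Ty.cast (Y_ty) (by simp only [W, List.getD_cons_zero, List.getD_cons_succ] <;> omega) (by simp only [W, List.getD_cons_zero, List.getD_cons_succ] <;> omega),
      Ty.cast (Ad_ty) (by simp only [W, List.getD_cons_zero, List.getD_cons_succ] <;> omega) (by simp only [W, List.getD_cons_zero, List.getD_cons_succ] <;> omega),
      trivial⟩ trivial
    ⟨by have t := Yad (X := X); simp only [ev2, val, W, List.getD_cons_zero, List.getD_cons_succ, up_G, up_zero, up_up, map_mul, map_one, B_one_one, cr_true, cr_false, mul_one, one_mul, Nat.add_zero, Nat.zero_add, mul_assoc] at t ⊢; (try ring_nf at t); (try ring_nf); exact t,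
      by have t := mad (X := X); simp only [ev2, val, W, List.getD_cons_zero, List.getD_cons_succ, up_G, up_zero, up_up, map_mul, map_one, B_one_one, cr_true, cr_false, mul_one, one_mul, Nat.add_zero, Nat.zero_add, mul_assoc] at t ⊢; (try ring_nf at t); (try ring_nf); exact t,
      by have t := d2_wad (X := X); simp only [ev2, val, W, List.getD_cons_zero, List.getD_cons_succ, up_G, up_zero, up_up, map_mul, map_one, B_one_one, cr_true, cr_false, mul_one, one_mul, Nat.add_zero, Nat.zero_add, mul_assoc] at t ⊢; (try ring_nf at t); (try ring_nf); exact t,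
      by have t := Ie (X := X); simp only [ev2, val, W, List.getD_cons_zero, List.getD_cons_succ, up_G, up_zero, up_up, map_mul, map_one, B_one_one, cr_true, cr_false, mul_one, one_mul, Nat.add_zero, Nat.zero_add, mul_assoc] at t ⊢; (try ring_nf at t); (try ring_nf); exact t,
      by have t := wuL (X := X); simp only [ev2, val, W, List.getD_cons_zero, List.getD_cons_succ, up_G, up_zero, up_up, map_mul, map_one, B_one_one, cr_true, cr_false, mul_one, one_mul, Nat.add_zero, Nat.zero_add, mul_assoc] at t ⊢; (try ring_nf at t); (try ring_nf); exact t,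
      by have t := eS (X := X); simp only [ev2, val, W, List.getD_cons_zero, List.getD_cons_succ, up_G, up_zero, up_up, map_mul, map_one, B_one_one, cr_true, cr_false, mul_one, one_mul, Nat.add_zero, Nat.zero_add, mul_assoc] at t ⊢; (try ring_nf at t); (try ring_nf); exact t,
      trivial⟩
  simp only [ev2, val, W, List.getD_cons_zero, List.getD_cons_succ, up_G, up_zero, up_up, map_mul, map_one, B_one_one, cr_true, cr_false, mul_one, one_mul, Nat.add_zero, Nat.zero_add, mul_assoc] at t ⊢
  (try ring_nf at t)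
  (try ring_nf)
  exact t

theorem d2_g1uu :
    (G d 0 * G d 2 * G d 3 * G P 1 * G P 3 * G P 2 * Ad * G S 1 * G m 0 * G u 1 * G u 1 : Cob X) =
      Y := by
  have t := col_sound (X := X) (fun c => List.getD [1] c 0) [Ad, Y]
    [([0, 0], [0]), ([0, 0], [0])] []
    [([0, 0], [(0, .b 1)], [(1, .g .d), (0, .b 0), (1, .g .S), (0, .g .m)])]
    [([([], .b 1)], [([0], .g .d), ([], .b 0), ([0], .g .S), ([], .g .m)])]
    [0, 0] [(0, .g .d), (2, .g .d), (3, .g .d), (1, .g .P), (3, .g .P), (2, .g .P), (0, .b 0), (1, .g .S), (0, .g .m), (1, .g .u), (1, .g .u)]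
    [(0, .b 1)]
    [([], .g .d), ([0, 0], .g .d), ([0, 0, 0], .g .d), ([0], .br true 0 0), ([0, 0, 0], .br true 0 0), ([0, 0], .br true 0 0), ([], .b 0), ([0], .g .S), ([], .g .m), ([0], .g .u), ([0], .g .u)]
    [([], .b 1)]
    [(2, 1, false, .far (.g .P) 0 (.g .d)), (5, 0, false, .far (.b 0) 0 (.g .P)),
      (4, 0, false, .far (.b 0) 1 (.g .P)), (3, 0, false, .far (.b 0) 1 (.g .d)),
      (9, 1, true, .far (.g .u) 0 (.g .u)), (8, 0, true, .far (.g .m) 1 (.g .u)),
      (7, 1, true, .far (.g .S) 1 (.g .u)), (6, 1, true, .far (.g .P) 0 (.g .u)),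
      (6, 2, false, .nl false (.g .u)), (5, 2, true, .can true), (4, 2, true, .pu 4 1),
      (2, 1, false, .can true), (3, 2, false, .can true), (1, 1, false, .nl true (.g .d)),
      (4, 1, true, .can false), (3, 0, false, .far (.b 0) 0 (.g .Q)), (4, 1, true, .can false),
      (1, 1, false, .can true), (2, 0, false, .can true), (0, 0, true, .nr true (.g .d)),
      (3, 1, true, .can false), (6, 0, true, .far (.g .m) 0 (.g .u)), (5, 1, true, .far (.g .S) 0 (.g .u)),
      (4, 0, true, .far (.b 0) 1 (.g .u)), (3, 1, true, .far (.g .d) 0 (.g .u)),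
      (2, 0, true, .far (.g .Q) 0 (.g .u)), (1, 1, true, .pu 5 1), (0, 0, true, .can true),
      (0, 0, false, .co 0)]
    (by decide +kernel) rfl
    ⟨Ty.cast (Ad_ty) (by simp only [W, List.getD_cons_zero, List.getD_cons_succ] <;> omega) (by simp only [W, List.getD_cons_zero, List.getD_cons_succ] <;> omega),
      Ty.cast (Y_ty) (by simp only [W, List.getD_cons_zero, List.getD_cons_succ] <;> omega) (by simp only [W, List.getD_cons_zero, List.getD_cons_succ] <;> omega),
      trivial⟩ trivial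
    ⟨by have t := Yad (X := X); simp only [ev2, val, W, List.getD_cons_zero, List.getD_cons_succ, up_G, up_zero, up_up, map_mul, map_one, B_one_one, cr_true, cr_false, mul_one, one_mul, Nat.add_zero, Nat.zero_add, mul_assoc] at t ⊢; (try ring_nf at t); (try ring_nf); exact t,
      trivial⟩
  simp only [ev2, val, W, List.getD_cons_zero, List.getD_cons_succ, up_G, up_zero, up_up, map_mul, map_one, B_one_one, cr_true, cr_false, mul_one, one_mul, Nat.add_zero, Nat.zero_add, mul_assoc] at t ⊢
  (try ring_nf at t)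
  (try ring_nf)
  exact t

/-- The first copy of a node, with the inputs of the second copy. -/
def g1 : Cob X := G d 0 * G d 2 * G d 3 * G P 1 * G P 3 * G P 2 * Ad * G S 1 * G m 0

theorem g1_ty : Ty 2 3 (g1 : Cob X) :=
  Ty.mk (x := [(0, d), (2, d), (3, d), (1, P), (3, P), (2, P)] ++ ad ++ [(1, S), (0, m)])
    (by simp [ad, Ok, Gn.ar, Gn.co])

theorem Yd1 : (Y * G d 0 : Cob X) = g1 * up 1 Y := Yd

theorem g1_uu : (g1 * G u 1 * G u 1 : Cob X) = Y := d2_g1uu

theorem d2_g1a :
    (G d 0 * G d 2 * G d 3 * G P 1 * G P 3 * G P 2 * Ad * G S 1 * G m 0 : Cob X) =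
      G d 0 * G d 2 * G d 3 * G P 1 * G P 3 * G P 2 * G d 1 * Y * G m 0 * G S 1 * G m 0 := by
  have t := col_sound (X := X) (fun c => List.getD [1] c 0) [Ad, Y]
    [([0, 0], [0]), ([0, 0], [0])] []
    [([0, 0], [(1, .g .d), (0, .b 1), (0, .g .m)], [(0, .b 0)])]
    [([([0], .g .d), ([], .b 1), ([], .g .m)], [([], .b 0)])]
    [0, 0] [(0, .g .d), (2, .g .d), (3, .g .d), (1, .g .P), (3, .g .P), (2, .g .P), (0, .b 0), (1, .g .S), (0, .g .m)]
    [(0, .g .d), (2, .g .d), (3, .g .d), (1, .g .P), (3, .g .P), (2, .g .P), (1, .g .d), (0, .b 1), (0, .g .m), (1, .g .S), (0, .g .m)]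
    [([], .g .d), ([0, 0], .g .d), ([0, 0, 0], .g .d), ([0], .br true 0 0), ([0, 0, 0], .br true 0 0), ([0, 0], .br true 0 0), ([], .b 0), ([0], .g .S), ([], .g .m)]
    [([], .g .d), ([0, 0], .g .d), ([0, 0, 0], .g .d), ([0], .br true 0 0), ([0, 0, 0], .br true 0 0), ([0, 0], .br true 0 0), ([0], .g .d), ([], .b 1), ([], .g .m), ([0], .g .S), ([], .g .m)]
    [(2, 1, false, .far (.g .P) 0 (.g .d)), (5, 0, false, .far (.b 0) 0 (.g .P)),
      (4, 0, false, .far (.b 0) 1 (.g .P)), (3, 0, false, .far (.b 0) 1 (.g .d)), (3, 0, false, .co 0),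
      (5, 0, true, .far (.g .m) 1 (.g .d)), (6, 0, true, .far (.g .m) 1 (.g .P)),
      (7, 0, true, .far (.g .m) 0 (.g .P)), (4, 0, true, .far (.b 1) 2 (.g .d)),
      (5, 0, true, .far (.b 1) 2 (.g .P)), (6, 0, true, .far (.b 1) 1 (.g .P)),
      (3, 1, true, .far (.g .d) 1 (.g .d)), (4, 1, true, .far (.g .d) 1 (.g .P)),
      (5, 1, true, .far (.g .d) 0 (.g .P)), (2, 1, true, .far (.g .P) 0 (.g .d))]
    (by decide +kernel) rfl
    ⟨Ty.cast (Ad_ty) (by simp only [W, List.getD_cons_zero, List.getD_cons_succ] <;> omega) (by simp only [W, List.getD_cons_zero, List.getD_cons_succ] <;> omega),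
      Ty.cast (Y_ty) (by simp only [W, List.getD_cons_zero, List.getD_cons_succ] <;> omega) (by simp only [W, List.getD_cons_zero, List.getD_cons_succ] <;> omega),
      trivial⟩ trivial
    ⟨by have t := adY (X := X); simp only [ev2, val, W, List.getD_cons_zero, List.getD_cons_succ, up_G, up_zero, up_up, map_mul, map_one, B_one_one, cr_true, cr_false, mul_one, one_mul, Nat.add_zero, Nat.zero_add, mul_assoc] at t ⊢; (try ring_nf at t); (try ring_nf); exact t,
      trivial⟩
  simp only [ev2, val, W, List.getD_cons_zero, List.getD_cons_succ, up_G, up_zero, up_up, map_mul, map_one, B_one_one, cr_true, cr_false, mul_one, one_mul, Nat.add_zero, Nat.zero_add, mul_assoc] at t ⊢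
  (try ring_nf at t)
  (try ring_nf)
  exact t

theorem d2_g1b :
    (G d 0 * G d 2 * G d 3 * G P 1 * G P 3 * G P 2 * G d 1 * G u 0 * G u 0 * G e 0 * G m 0 * G S 1 * G m 0 : Cob X) =
      G w 1 * G d 3 * up 2 Y * G m 2 * G P 0 := by
  have t := col_sound (X := X) (fun c => List.getD [1] c 0) [Y, Ad]
    [([0, 0], [0]), ([0, 0], [0])] []
    [([0], [(0, .g .d), (0, .g .d), (1, .g .P), (1, .g .S), (0, .g .m)], [(0, .g .w), (1, .b 1)]),
      ([0, 0], [(1, .g .d), (0, .b 0), (0, .g .m)], [(0, .b 1)])]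
    [
      ([([], .g .d), ([], .g .d), ([0], .br true 0 0), ([0], .g .S), ([], .g .m)], [([], .g .w), ([0], .b 1)]),
      ([([0], .g .d), ([], .b 0), ([], .g .m)], [([], .b 1)])]
    [0, 0] [(0, .g .d), (2, .g .d), (3, .g .d), (1, .g .P), (3, .g .P), (2, .g .P), (1, .g .d), (0, .g .u), (0, .g .u), (0, .g .e), (0, .g .m), (1, .g .S), (0, .g .m)]
    [(1, .g .w), (3, .g .d), (2, .b 0), (2, .g .m), (0, .g .P)]
    [([], .g .d), ([0, 0], .g .d), ([0, 0, 0], .g .d), ([0], .br true 0 0), ([0, 0, 0], .br true 0 0), ([0, 0], .br true 0 0), ([0], .g .d), ([], .g .u), ([], .g .u), ([], .g .e), ([], .g .m), ([0], .g .S), ([], .g .m)]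
    [([0], .g .w), ([0, 0, 0], .g .d), ([0, 0], .b 0), ([0, 0], .g .m), ([], .br true 0 0)]
    [(2, 1, false, .far (.g .P) 0 (.g .d)), (5, 1, false, .far (.g .d) 0 (.g .P)),
      (4, 1, false, .far (.g .d) 1 (.g .P)), (3, 1, false, .far (.g .d) 1 (.g .d)),
      (6, 0, false, .far (.g .u) 2 (.g .P)), (5, 0, false, .far (.g .u) 3 (.g .P)),
      (4, 0, false, .far (.g .u) 3 (.g .d)), (3, 0, false, .far (.g .u) 0 (.g .d)),
      (2, 0, false, .far (.g .u) 0 (.g .P)), (1, 0, false, .far (.g .u) 1 (.g .d)),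
      (7, 0, false, .far (.g .u) 1 (.g .P)), (6, 0, false, .far (.g .u) 2 (.g .P)),
      (5, 0, false, .far (.g .u) 2 (.g .d)), (8, 0, false, .far (.g .e) 1 (.g .P)),
      (7, 0, false, .far (.g .e) 2 (.g .P)), (6, 0, false, .far (.g .e) 2 (.g .d)),
      (5, 0, false, .far (.g .e) 0 (.g .u)), (4, 0, false, .far (.g .e) 0 (.g .d)),
      (3, 0, false, .far (.g .e) 0 (.g .P)), (2, 0, false, .far (.g .e) 1 (.g .d)),
      (1, 0, false, .far (.g .e) 0 (.g .u)), (0, 0, false, .far (.g .e) 0 (.g .d)),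
      (9, 0, false, .far (.g .m) 0 (.g .P)), (8, 0, false, .far (.g .m) 1 (.g .P)),
      (7, 0, false, .far (.g .m) 1 (.g .d)), (1, 1, true, .pu 4 1), (3, 1, true, .pu 4 1),
      (0, 0, true, .far (.g .e) 1 (.g .d)), (1, 0, true, .far (.g .e) 0 (.g .P)), (2, 0, true, .pu 1 1),
      (6, 1, false, .can false), (5, 1, true, .nr false (.g .S)), (4, 1, true, .can true),
      (1, 0, true, .far (.g .P) 0 (.g .d)), (2, 0, true, .far (.g .P) 0 (.g .P)),
      (3, 0, true, .far (.g .P) 0 (.g .S)), (7, 0, false, .can false), (4, 0, true, .nl true (.g .m)),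
      (5, 0, true, .can true), (0, 1, false, .pu 3 1), (0, 1, true, .co 0),
      (1, 0, false, .far (.g .P) 0 (.b 1)), (2, 2, false, .co 1), (1, 0, true, .far (.g .P) 1 (.g .d)),
      (2, 0, true, .far (.g .P) 0 (.b 0)), (3, 0, true, .far (.g .P) 0 (.g .m))]
    (by decide +kernel) rfl
    ⟨Ty.cast (Y_ty) (by simp only [W, List.getD_cons_zero, List.getD_cons_succ] <;> omega) (by simp only [W, List.getD_cons_zero, List.getD_cons_succ] <;> omega),
      Ty.cast (Ad_ty) (by simp only [W, List.getD_cons_zero, List.getD_cons_succ] <;> omega) (by simp only [W, List.getD_cons_zero, List.getD_cons_succ] <;> omega),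
      trivial⟩ trivial
    ⟨by have t := CO (X := X); simp only [ev2, val, W, List.getD_cons_zero, List.getD_cons_succ, up_G, up_zero, up_up, map_mul, map_one, B_one_one, cr_true, cr_false, mul_one, one_mul, Nat.add_zero, Nat.zero_add, mul_assoc] at t ⊢; (try ring_nf at t); (try ring_nf); exact t,
      by have t := adY (X := X); simp only [ev2, val, W, List.getD_cons_zero, List.getD_cons_succ, up_G, up_zero, up_up, map_mul, map_one, B_one_one, cr_true, cr_false, mul_one, one_mul, Nat.add_zero, Nat.zero_add, mul_assoc] at t ⊢; (try ring_nf at t); (try ring_nf); exact t,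
      trivial⟩
  simp only [ev2, val, W, List.getD_cons_zero, List.getD_cons_succ, up_G, up_zero, up_up, map_mul, map_one, B_one_one, cr_true, cr_false, mul_one, one_mul, Nat.add_zero, Nat.zero_add, mul_assoc] at t ⊢
  (try ring_nf at t)
  (try ring_nf)
  exact t

theorem d2_g1c :
    (G w 1 * G d 3 * G u 2 * G u 2 * G e 2 * G m 2 * G P 0 : Cob X) =
      G e 0 := by
  have t := col_sound (X := X) (fun c => List.getD [1] c 0) []
    [] []
    [([], [(0, .g .w), (1, .g .u)], [(0, .g .e)])]
    [([([], .g .w), ([0], .g .u)], [([], .g .e)])]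
    [0, 0] [(1, .g .w), (3, .g .d), (2, .g .u), (2, .g .u), (2, .g .e), (2, .g .m), (0, .g .P)]
    [(0, .g .e)]
    [([0], .g .w), ([0, 0, 0], .g .d), ([0, 0], .g .u), ([0, 0], .g .u), ([0, 0], .g .e), ([0, 0], .g .m), ([], .br true 0 0)]
    [([], .g .e)]
    [(1, 2, false, .far (.g .u) 0 (.g .d)), (3, 2, false, .far (.g .e) 0 (.g .u)),
      (2, 2, false, .far (.g .e) 0 (.g .d)), (1, 2, false, .far (.g .e) 0 (.g .u)),
      (5, 0, false, .far (.g .P) 0 (.g .m)), (4, 0, false, .far (.g .P) 1 (.g .u)),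
      (3, 0, false, .far (.g .P) 1 (.g .d)), (2, 0, false, .far (.g .P) 1 (.g .u)),
      (1, 0, false, .far (.g .P) 0 (.g .e)), (4, 3, true, .pu 4 1), (2, 2, true, .far (.g .e) 0 (.g .u)),
      (3, 2, true, .pu 1 1), (1, 0, true, .far (.g .P) 0 (.g .u)), (0, 1, true, .co 0),
      (1, 0, false, .can true), (0, 0, false, .nl true (.g .e)), (1, 0, true, .can false)]
    (by decide +kernel) rfl
    trivial trivial
    ⟨by have t := wuR (X := X); simp only [ev2, val, W, List.getD_cons_zero, List.getD_cons_succ, up_G, up_zero, up_up, map_mul, map_one, B_one_one, cr_true, cr_false, mul_one, one_mul, Nat.add_zero, Nat.zero_add, mul_assoc] at t ⊢; (try ring_nf at t); (try ring_nf); exact t,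
      trivial⟩
  simp only [ev2, val, W, List.getD_cons_zero, List.getD_cons_succ, up_G, up_zero, up_up, map_mul, map_one, B_one_one, cr_true, cr_false, mul_one, one_mul, Nat.add_zero, Nat.zero_add, mul_assoc] at t ⊢
  (try ring_nf at t)
  (try ring_nf)
  exact t

theorem d2_as1 :
    (G u 0 * G u 0 * G u 0 * G u 0 : Cob X) =
      g1 * up 3 g1 * G Q 3 * G Q 4 * G T 5 * G P 0 * G P 1 * G P 2 * G P 3 * up 4 Ev * Y * up 1 Y * Ev := by
  have t := col_sound (X := X) (fun c => List.getD [1] c 0) [g1, Ev, Y]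
    [([0, 0], [0, 0, 0]), ([0, 0], []), ([0, 0], [0])] []
    [([0, 0], [(0, .b 2), (0, .g .u)], [(0, .g .u), (0, .g .u)]),
      ([0], [(1, .g .e), (0, .b 1)], [(0, .g .u)]),
      ([0], [(0, .g .d), (0, .g .Q), (1, .g .T), (0, .g .m)], [(0, .g .u), (0, .g .e)]),
      ([0, 0, 0], [(1, .g .m), (0, .b 1)], [(0, .g .d), (1, .b 1), (0, .b 1)]),
      ([0, 0], [(0, .b 2), (0, .g .d)], [(0, .b 0), (1, .b 2)])]
    [([([], .b 2), ([], .g .u)], [([], .g .u), ([], .g .u)]), ([([0], .g .e), ([], .b 1)], [([], .g .u)]),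
      ([([], .g .d), ([], .br false 0 0), ([0], .g .T), ([], .g .m)], [([], .g .u), ([], .g .e)]),
      ([([0], .g .m), ([], .b 1)], [([], .g .d), ([0], .b 1), ([], .b 1)]),
      ([([], .b 2), ([], .g .d)], [([], .b 0), ([0], .b 2)])]
    [0, 0, 0, 0] [(0, .g .u), (0, .g .u), (0, .g .u), (0, .g .u)]
    [(0, .b 0), (3, .b 0), (3, .g .Q), (4, .g .Q), (5, .g .T), (0, .g .P), (1, .g .P), (2, .g .P), (3, .g .P), (4, .b 1), (0, .b 2), (1, .b 2), (0, .b 1)]
    [([], .g .u), ([], .g .u), ([], .g .u), ([], .g .u)]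
    [([], .b 0), ([0, 0, 0], .b 0), ([0, 0, 0], .br false 0 0), ([0, 0, 0, 0], .br false 0 0), ([0, 0, 0, 0, 0], .g .T), ([], .br true 0 0), ([0], .br true 0 0), ([0, 0], .br true 0 0), ([0, 0, 0], .br true 0 0), ([0, 0, 0, 0], .b 1), ([], .b 2), ([0], .b 2), ([], .b 1)]
    [(0, 0, false, .co 0), (2, 0, false, .co 0), (1, 0, false, .co 1), (2, 0, true, .far (.b 1) 0 (.b 2)),
      (1, 1, true, .far (.g .e) 0 (.b 2)), (3, 0, true, .far (.b 1) 0 (.g .u)),
      (2, 1, true, .far (.g .e) 0 (.g .u)), (2, 1, false, .co 2), (5, 0, true, .co 3),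
      (4, 0, false, .far (.g .d) 1 (.g .T)), (3, 0, false, .far (.g .d) 0 (.g .Q)),
      (2, 0, false, .far (.g .d) 0 (.g .d)), (1, 0, false, .far (.g .d) 0 (.b 2)),
      (5, 1, false, .far (.b 1) 0 (.g .T)), (0, 0, true, .co 4), (2, 2, true, .co 4),
      (5, 0, false, .nl true (.b 1)), (4, 0, false, .far (.g .P) 0 (.g .Q)),
      (3, 0, false, .far (.g .P) 1 (.b 2)), (2, 0, false, .far (.g .P) 0 (.b 0)),
      (4, 2, false, .can false), (5, 3, false, .can false), (6, 2, false, .nr true (.b 2)),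
      (7, 2, true, .can true), (6, 1, false, .can true), (5, 1, false, .far (.g .P) 0 (.g .Q)),
      (7, 2, false, .can true), (8, 1, false, .nr false (.b 2)), (9, 1, true, .can false),
      (1, 0, false, .can true), (2, 1, false, .can true), (3, 0, false, .nr false (.b 2)),
      (4, 0, true, .can false), (10, 0, true, .far (.b 1) 1 (.g .T)), (11, 0, true, .far (.b 1) 0 (.b 1)),
      (9, 1, true, .far (.b 2) 1 (.g .T)), (10, 1, true, .far (.b 2) 0 (.b 1)),
      (3, 0, true, .far (.b 2) 1 (.b 0)), (4, 0, true, .far (.b 2) 1 (.g .Q)),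
      (5, 0, true, .far (.b 2) 0 (.g .P)), (6, 0, true, .far (.b 2) 2 (.g .Q)),
      (7, 0, true, .far (.b 2) 1 (.g .P)), (8, 0, true, .far (.b 2) 3 (.g .T)),
      (9, 0, true, .far (.b 2) 2 (.b 1)), (7, 3, true, .far (.g .P) 0 (.g .T)),
      (5, 2, true, .far (.g .P) 0 (.g .Q)), (6, 2, true, .far (.g .P) 1 (.g .T)),
      (2, 1, true, .far (.g .P) 0 (.b 0)), (3, 1, true, .far (.g .P) 0 (.g .Q)),
      (4, 1, true, .far (.g .P) 1 (.g .Q)), (5, 1, true, .far (.g .P) 2 (.g .T)),
      (1, 0, true, .far (.g .P) 1 (.b 0)), (2, 0, true, .far (.g .P) 1 (.g .Q)),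
      (3, 0, true, .far (.g .P) 2 (.g .Q)), (4, 0, true, .far (.g .P) 3 (.g .T))]
    (by decide +kernel) rfl
    ⟨Ty.cast (g1_ty) (by simp only [W, List.getD_cons_zero, List.getD_cons_succ] <;> omega) (by simp only [W, List.getD_cons_zero, List.getD_cons_succ] <;> omega),
      Ty.cast (Ev_ty) (by simp only [W, List.getD_cons_zero, List.getD_cons_succ] <;> omega) (by simp only [W, List.getD_cons_zero, List.getD_cons_succ] <;> omega),
      Ty.cast (Y_ty) (by simp only [W, List.getD_cons_zero, List.getD_cons_succ] <;> omega) (by simp only [W, List.getD_cons_zero, List.getD_cons_succ] <;> omega),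
      trivial⟩ trivial
    ⟨by have t := Yu (X := X); simp only [ev2, val, W, List.getD_cons_zero, List.getD_cons_succ, up_G, up_zero, up_up, map_mul, map_one, B_one_one, cr_true, cr_false, mul_one, one_mul, Nat.add_zero, Nat.zero_add, mul_assoc] at t ⊢; (try ring_nf at t); (try ring_nf); exact t,
      by have t := eev1 (X := X); simp only [ev2, val, W, List.getD_cons_zero, List.getD_cons_succ, up_G, up_zero, up_up, map_mul, map_one, B_one_one, cr_true, cr_false, mul_one, one_mul, Nat.add_zero, Nat.zero_add, mul_assoc] at t ⊢; (try ring_nf at t); (try ring_nf); exact t,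
      by have t := aRT (X := X); simp only [ev2, val, W, List.getD_cons_zero, List.getD_cons_succ, up_G, up_zero, up_up, map_mul, map_one, B_one_one, cr_true, cr_false, mul_one, one_mul, Nat.add_zero, Nat.zero_add, mul_assoc] at t ⊢; (try ring_nf at t); (try ring_nf); exact t,
      by have t := mev1 (X := X); simp only [ev2, val, W, List.getD_cons_zero, List.getD_cons_succ, up_G, up_zero, up_up, map_mul, map_one, B_one_one, cr_true, cr_false, mul_one, one_mul, Nat.add_zero, Nat.zero_add, mul_assoc] at t ⊢; (try ring_nf at t); (try ring_nf); exact t,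
      by have t := Yd1 (X := X); simp only [ev2, val, W, List.getD_cons_zero, List.getD_cons_succ, up_G, up_zero, up_up, map_mul, map_one, B_one_one, cr_true, cr_false, mul_one, one_mul, Nat.add_zero, Nat.zero_add, mul_assoc] at t ⊢; (try ring_nf at t); (try ring_nf); exact t,
      trivial⟩
  simp only [ev2, val, W, List.getD_cons_zero, List.getD_cons_succ, up_G, up_zero, up_up, map_mul, map_one, B_one_one, cr_true, cr_false, mul_one, one_mul, Nat.add_zero, Nat.zero_add, mul_assoc] at t ⊢
  (try ring_nf at t)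
  (try ring_nf)
  exact t

theorem d2_as2 :
    (g1 * up 3 g1 * G Q 3 * G Q 4 * G T 5 * G P 0 * G P 1 * G P 2 * G P 3 * up 4 Ev * G u 0 * G u 0 * G u 0 * G u 0 : Cob X) =
      G T 2 * G T 2 * G Q 2 * Y * up 1 Y * Ev := by
  have t := col_sound (X := X) (fun c => List.getD [1] c 0) [g1, Ev, Y]
    [([0, 0], [0, 0, 0]), ([0, 0], []), ([0, 0], [0])] []
    [([0, 0], [(0, .b 0), (1, .g .u), (1, .g .u)], [(0, .b 2)]),
      ([0, 0], [(0, .b 2), (0, .g .T)], [(0, .g .T), (0, .g .T), (0, .g .Q), (0, .b 2)])]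
    [([([], .b 0), ([0], .g .u), ([0], .g .u)], [([], .b 2)]),
      ([([], .b 2), ([], .g .T)], [([], .g .T), ([], .g .T), ([], .br false 0 0), ([], .b 2)])]
    [0, 0, 0, 0] [(0, .b 0), (3, .b 0), (3, .g .Q), (4, .g .Q), (5, .g .T), (0, .g .P), (1, .g .P), (2, .g .P), (3, .g .P), (4, .b 1), (0, .g .u), (0, .g .u), (0, .g .u), (0, .g .u)]
    [(2, .g .T), (2, .g .T), (2, .g .Q), (0, .b 2), (1, .b 2), (0, .b 1)]
    [([], .b 0), ([0, 0, 0], .b 0), ([0, 0, 0], .br false 0 0), ([0, 0, 0, 0], .br false 0 0), ([0, 0, 0, 0, 0], .g .T), ([], .br true 0 0), ([0], .br true 0 0), ([0, 0], .br true 0 0), ([0, 0, 0], .br true 0 0), ([0, 0, 0, 0], .b 1), ([], .g .u), ([], .g .u), ([], .g .u), ([], .g .u)]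
    [([0, 0], .g .T), ([0, 0], .g .T), ([0, 0], .br false 0 0), ([], .b 2), ([0], .b 2), ([], .b 1)]
    [(4, 0, false, .far (.g .P) 3 (.g .T)), (3, 0, false, .far (.g .P) 2 (.g .Q)),
      (2, 0, false, .far (.g .P) 1 (.g .Q)), (1, 0, false, .far (.g .P) 1 (.b 0)),
      (5, 1, false, .far (.g .P) 2 (.g .T)), (4, 1, false, .far (.g .P) 1 (.g .Q)),
      (3, 1, false, .far (.g .P) 0 (.g .Q)), (2, 1, false, .far (.g .P) 0 (.b 0)),
      (6, 2, false, .far (.g .P) 1 (.g .T)), (5, 2, false, .far (.g .P) 0 (.g .Q)),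
      (7, 3, false, .far (.g .P) 0 (.g .T)), (9, 0, false, .far (.g .u) 3 (.b 1)),
      (8, 0, false, .far (.g .u) 4 (.g .T)), (7, 0, false, .far (.g .u) 2 (.g .P)),
      (6, 0, false, .far (.g .u) 3 (.g .Q)), (5, 0, false, .far (.g .u) 1 (.g .P)),
      (4, 0, false, .far (.g .u) 2 (.g .Q)), (3, 0, false, .far (.g .u) 2 (.b 0)),
      (2, 0, false, .far (.g .u) 0 (.g .P)), (10, 0, false, .far (.g .u) 2 (.b 1)),
      (9, 0, false, .far (.g .u) 3 (.g .T)), (8, 0, false, .far (.g .u) 1 (.g .P)),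
      (7, 0, false, .far (.g .u) 2 (.g .Q)), (6, 0, false, .far (.g .u) 0 (.g .P)),
      (5, 0, false, .far (.g .u) 1 (.g .Q)), (4, 0, false, .far (.g .u) 1 (.b 0)),
      (11, 0, false, .far (.g .u) 1 (.b 1)), (10, 0, false, .far (.g .u) 2 (.g .T)),
      (9, 0, false, .far (.g .u) 0 (.g .P)), (8, 0, false, .far (.g .u) 1 (.g .Q)),
      (12, 0, false, .far (.g .u) 0 (.b 1)), (11, 0, false, .far (.g .u) 1 (.g .T)),
      (2, 0, true, .nr false (.g .u)), (1, 0, true, .can true), (3, 0, true, .nr false (.g .u)),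
      (2, 0, true, .can true), (6, 0, true, .nr false (.g .u)), (5, 0, true, .can true),
      (5, 1, true, .nr true (.g .u)), (4, 1, true, .can false), (7, 0, true, .nr false (.g .u)),
      (6, 0, true, .can true), (1, 1, true, .far (.g .u) 0 (.g .u)), (2, 1, true, .far (.g .u) 0 (.b 0)),
      (3, 1, true, .far (.g .u) 1 (.g .u)), (4, 1, true, .far (.g .u) 0 (.g .Q)),
      (5, 1, true, .far (.g .u) 0 (.g .u)), (6, 1, true, .far (.g .u) 0 (.g .T)),
      (1, 2, true, .far (.g .u) 0 (.b 0)), (2, 2, true, .far (.g .u) 1 (.g .u)),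
      (3, 2, true, .far (.g .u) 0 (.g .Q)), (4, 2, true, .far (.g .u) 0 (.g .u)),
      (5, 2, true, .far (.g .u) 0 (.g .T)), (0, 0, true, .far (.b 0) 0 (.b 0)),
      (1, 0, true, .far (.b 0) 1 (.g .u)), (2, 0, true, .far (.b 0) 0 (.g .Q)),
      (3, 0, true, .far (.b 0) 0 (.g .u)), (4, 0, true, .far (.b 0) 0 (.g .T)),
      (2, 2, true, .nl false (.g .u)), (2, 2, false, .far (.g .T) 0 (.g .u)),
      (3, 0, false, .far (.b 0) 1 (.g .u)), (4, 2, false, .far (.g .u) 1 (.g .u)),
      (5, 1, false, .far (.g .u) 1 (.g .u)), (6, 0, false, .far (.b 1) 0 (.g .u)),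
      (1, 2, false, .far (.g .T) 0 (.g .u)), (2, 0, false, .far (.b 0) 1 (.g .u)),
      (3, 2, false, .far (.g .u) 1 (.g .u)), (4, 1, false, .far (.g .u) 1 (.g .u)),
      (5, 0, false, .far (.b 1) 0 (.g .u)), (1, 0, false, .far (.b 0) 0 (.g .T)),
      (2, 2, false, .far (.g .u) 0 (.g .T)), (3, 1, false, .far (.g .u) 0 (.g .T)),
      (0, 0, false, .far (.b 0) 0 (.b 0)), (1, 2, false, .far (.g .u) 0 (.b 0)),
      (2, 1, false, .far (.g .u) 0 (.b 0)), (1, 1, false, .far (.g .u) 0 (.g .u)), (0, 0, true, .co 0),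
      (3, 0, true, .far (.b 1) 0 (.g .u)), (4, 0, true, .far (.b 1) 0 (.g .u)),
      (2, 1, true, .far (.g .T) 0 (.g .u)), (3, 1, true, .far (.g .T) 0 (.g .u)), (1, 1, true, .co 0),
      (1, 1, true, .co 1), (0, 0, true, .far (.b 2) 0 (.g .T)), (1, 0, true, .far (.b 2) 0 (.g .T)),
      (2, 0, true, .far (.b 2) 0 (.g .Q))]
    (by decide +kernel) rfl
    ⟨Ty.cast (g1_ty) (by simp only [W, List.getD_cons_zero, List.getD_cons_succ] <;> omega) (by simp only [W, List.getD_cons_zero, List.getD_cons_succ] <;> omega),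
      Ty.cast (Ev_ty) (by simp only [W, List.getD_cons_zero, List.getD_cons_succ] <;> omega) (by simp only [W, List.getD_cons_zero, List.getD_cons_succ] <;> omega),
      Ty.cast (Y_ty) (by simp only [W, List.getD_cons_zero, List.getD_cons_succ] <;> omega) (by simp only [W, List.getD_cons_zero, List.getD_cons_succ] <;> omega),
      trivial⟩ trivial
    ⟨by have t := g1_uu (X := X); simp only [ev2, val, W, List.getD_cons_zero, List.getD_cons_succ, up_G, up_zero, up_up, map_mul, map_one, B_one_one, cr_true, cr_false, mul_one, one_mul, Nat.add_zero, Nat.zero_add, mul_assoc] at t ⊢; (try ring_nf at t); (try ring_nf); exact t,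
      by have t := YT (X := X); simp only [ev2, val, W, List.getD_cons_zero, List.getD_cons_succ, up_G, up_zero, up_up, map_mul, map_one, B_one_one, cr_true, cr_false, mul_one, one_mul, Nat.add_zero, Nat.zero_add, mul_assoc] at t ⊢; (try ring_nf at t); (try ring_nf); exact t,
      trivial⟩
  simp only [ev2, val, W, List.getD_cons_zero, List.getD_cons_succ, up_G, up_zero, up_up, map_mul, map_one, B_one_one, cr_true, cr_false, mul_one, one_mul, Nat.add_zero, Nat.zero_add, mul_assoc] at t ⊢
  (try ring_nf at t)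
  (try ring_nf)
  exact t

theorem d2_as3 :
    (G e 0 * G e 3 * G Q 3 * G Q 4 * G T 5 * G P 0 * G P 1 * G P 2 * G P 3 * up 4 Ev : Cob X) =
      1 := by
  have t := col_sound (X := X) (fun c => List.getD [1] c 0) [Ev]
    [([0, 0], [])] []
    [([0], [(0, .g .e), (0, .b 0)], [(0, .g .u)]), ([0], [(0, .g .T), (0, .g .u)], [(0, .g .u)])]
    [([([], .g .e), ([], .b 0)], [([], .g .u)]), ([([], .g .T), ([], .g .u)], [([], .g .u)])]
    [0, 0, 0, 0] [(0, .g .e), (3, .g .e), (3, .g .Q), (4, .g .Q), (5, .g .T), (0, .g .P), (1, .g .P), (2, .g .P), (3, .g .P), (4, .b 0)]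
    []
    [([], .g .e), ([0, 0, 0], .g .e), ([0, 0, 0], .br false 0 0), ([0, 0, 0, 0], .br false 0 0), ([0, 0, 0, 0, 0], .g .T), ([], .br true 0 0), ([0], .br true 0 0), ([0, 0], .br true 0 0), ([0, 0, 0], .br true 0 0), ([0, 0, 0, 0], .b 0)]
    []
    [(4, 0, false, .far (.g .P) 3 (.g .T)), (3, 0, false, .far (.g .P) 2 (.g .Q)),
      (2, 0, false, .far (.g .P) 1 (.g .Q)), (1, 0, false, .far (.g .P) 1 (.g .e)),
      (5, 1, false, .far (.g .P) 2 (.g .T)), (4, 1, false, .far (.g .P) 1 (.g .Q)),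
      (3, 1, false, .far (.g .P) 0 (.g .Q)), (2, 1, false, .far (.g .P) 0 (.g .e)),
      (6, 2, false, .far (.g .P) 1 (.g .T)), (5, 2, false, .far (.g .P) 0 (.g .Q)),
      (7, 3, false, .far (.g .P) 0 (.g .T)), (1, 0, false, .can true), (0, 0, true, .nr true (.g .e)),
      (1, 0, true, .can false), (1, 1, false, .can true), (0, 1, true, .nr true (.g .e)),
      (1, 1, true, .can false), (0, 2, true, .far (.g .e) 0 (.g .e)), (1, 2, true, .far (.g .e) 0 (.g .Q)),
      (3, 2, false, .can true), (2, 2, true, .nr true (.g .e)), (3, 2, true, .can false),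
      (1, 2, false, .can false), (0, 2, true, .nr false (.g .e)), (1, 2, true, .can true),
      (0, 3, false, .far (.g .e) 0 (.g .e)), (1, 4, true, .nl true (.g .e)), (2, 4, true, .can true),
      (1, 3, false, .far (.g .P) 0 (.g .e)), (0, 3, true, .nl false (.g .e)), (1, 3, true, .can false),
      (0, 4, true, .far (.g .e) 0 (.g .e)), (1, 4, true, .far (.g .e) 0 (.g .T)), (2, 4, true, .co 0),
      (1, 4, true, .co 1), (0, 4, true, .pu 9 0)]
    (by decide +kernel) rfl
    ⟨Ty.cast (Ev_ty) (by simp only [W, List.getD_cons_zero, List.getD_cons_succ] <;> omega) (by simp only [W, List.getD_cons_zero, List.getD_cons_succ] <;> omega),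
      trivial⟩ trivial
    ⟨by have t := eev0 (X := X); simp only [ev2, val, W, List.getD_cons_zero, List.getD_cons_succ, up_G, up_zero, up_up, map_mul, map_one, B_one_one, cr_true, cr_false, mul_one, one_mul, Nat.add_zero, Nat.zero_add, mul_assoc] at t ⊢; (try ring_nf at t); (try ring_nf); exact t,
      by have t := Tu (X := X); simp only [ev2, val, W, List.getD_cons_zero, List.getD_cons_succ, up_G, up_zero, up_up, map_mul, map_one, B_one_one, cr_true, cr_false, mul_one, one_mul, Nat.add_zero, Nat.zero_add, mul_assoc] at t ⊢; (try ring_nf at t); (try ring_nf); exact t,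
      trivial⟩
  simp only [ev2, val, W, List.getD_cons_zero, List.getD_cons_succ, up_G, up_zero, up_up, map_mul, map_one, B_one_one, cr_true, cr_false, mul_one, one_mul, Nat.add_zero, Nat.zero_add, mul_assoc] at t ⊢
  (try ring_nf at t)
  (try ring_nf)
  exact t

theorem d2_sw :
    (G T 0 * G T 0 * G Q 0 * Y * up 1 Y * Ev : Cob X) =
      G T 2 * G T 2 * G Q 2 * Y * up 1 Y * Ev := by
  have t := col_sound (X := X) (fun c => List.getD [1] c 0) [Y, Ev]
    [([0, 0], [0]), ([0, 0], [])] []
    [([0, 0], [(0, .b 0), (0, .g .T)], [(0, .g .T), (0, .g .T), (0, .g .Q), (0, .b 0)]),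
      ([0, 0], [(0, .g .T), (0, .b 1)], [(1, .g .T), (0, .b 1)])]
    [([([], .b 0), ([], .g .T)], [([], .g .T), ([], .g .T), ([], .br false 0 0), ([], .b 0)]),
      ([([], .g .T), ([], .b 1)], [([0], .g .T), ([], .b 1)])]
    [0, 0, 0, 0] [(0, .g .T), (0, .g .T), (0, .g .Q), (0, .b 0), (1, .b 0), (0, .b 1)]
    [(2, .g .T), (2, .g .T), (2, .g .Q), (0, .b 0), (1, .b 0), (0, .b 1)]
    [([], .g .T), ([], .g .T), ([], .br false 0 0), ([], .b 0), ([0], .b 0), ([], .b 1)]
    [([0, 0], .g .T), ([0, 0], .g .T), ([0, 0], .br false 0 0), ([], .b 0), ([0], .b 0), ([], .b 1)]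
    [(0, 0, false, .co 0), (1, 0, true, .far (.g .T) 0 (.b 0)), (2, 0, true, .co 1), (1, 1, true, .co 0),
      (0, 0, true, .far (.b 0) 0 (.g .T)), (1, 0, true, .far (.b 0) 0 (.g .T)),
      (2, 0, true, .far (.b 0) 0 (.g .Q))]
    (by decide +kernel) rfl
    ⟨Ty.cast (Y_ty) (by simp only [W, List.getD_cons_zero, List.getD_cons_succ] <;> omega) (by simp only [W, List.getD_cons_zero, List.getD_cons_succ] <;> omega),
      Ty.cast (Ev_ty) (by simp only [W, List.getD_cons_zero, List.getD_cons_succ] <;> omega) (by simp only [W, List.getD_cons_zero, List.getD_cons_succ] <;> omega),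
      trivial⟩ trivial
    ⟨by have t := YT (X := X); simp only [ev2, val, W, List.getD_cons_zero, List.getD_cons_succ, up_G, up_zero, up_up, map_mul, map_one, B_one_one, cr_true, cr_false, mul_one, one_mul, Nat.add_zero, Nat.zero_add, mul_assoc] at t ⊢; (try ring_nf at t); (try ring_nf); exact t,
      by have t := Tev (X := X); simp only [ev2, val, W, List.getD_cons_zero, List.getD_cons_succ, up_G, up_zero, up_up, map_mul, map_one, B_one_one, cr_true, cr_false, mul_one, one_mul, Nat.add_zero, Nat.zero_add, mul_assoc] at t ⊢; (try ring_nf at t); (try ring_nf); exact t,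
      trivial⟩
  simp only [ev2, val, W, List.getD_cons_zero, List.getD_cons_succ, up_G, up_zero, up_up, map_mul, map_one, B_one_one, cr_true, cr_false, mul_one, one_mul, Nat.add_zero, Nat.zero_add, mul_assoc] at t ⊢
  (try ring_nf at t)
  (try ring_nf)
  exact t

theorem d2_ht :
    (Y * up 1 Y * Ev : Cob X) =
      G Q 1 * G Q 2 * G Q 0 * G Q 1 * G T 2 * G T 2 * G Q 2 * G T 2 * G T 2 * G Q 2 * Y * up 1 Y * Ev := by
  have t := col_sound (X := X) (fun c => List.getD [1] c 0) [Y, Ev]
    [([0, 0], [0]), ([0, 0], [])] []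
    [([0, 0], [(0, .g .Q), (1, .g .T), (1, .g .T), (0, .b 1)], [(0, .b 1)]),
      ([0, 0], [(0, .b 0), (0, .g .T)], [(0, .g .T), (0, .g .T), (0, .g .Q), (0, .b 0)])]
    [([([], .br false 0 0), ([0], .g .T), ([0], .g .T), ([], .b 1)], [([], .b 1)]),
      ([([], .b 0), ([], .g .T)], [([], .g .T), ([], .g .T), ([], .br false 0 0), ([], .b 0)])]
    [0, 0, 0, 0] [(0, .b 0), (1, .b 0), (0, .b 1)]
    [(1, .g .Q), (2, .g .Q), (0, .g .Q), (1, .g .Q), (2, .g .T), (2, .g .T), (2, .g .Q), (2, .g .T), (2, .g .T), (2, .g .Q), (0, .b 0), (1, .b 0), (0, .b 1)]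
    [([], .b 0), ([0], .b 0), ([], .b 1)]
    [([0], .br false 0 0), ([0, 0], .br false 0 0), ([], .br false 0 0), ([0], .br false 0 0), ([0, 0], .g .T), ([0, 0], .g .T), ([0, 0], .br false 0 0), ([0, 0], .g .T), ([0, 0], .g .T), ([0, 0], .br false 0 0), ([], .b 0), ([0], .b 0), ([], .b 1)]
    [(2, 0, false, .co 0), (0, 0, true, .far (.b 0) 0 (.b 0)), (2, 0, false, .can false),
      (1, 0, true, .nr false (.b 0)), (4, 0, true, .can true), (0, 1, false, .can false),
      (1, 2, false, .can false), (2, 1, false, .nr true (.b 0)), (3, 1, true, .can true),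
      (2, 0, false, .can false), (1, 0, false, .far (.g .Q) 0 (.g .Q)), (3, 1, false, .can false),
      (4, 0, false, .nr true (.b 0)), (5, 0, true, .can true), (5, 1, true, .co 1), (8, 1, true, .co 1),
      (4, 0, true, .far (.b 0) 0 (.g .T)), (5, 0, true, .far (.b 0) 0 (.g .T)),
      (6, 0, true, .far (.b 0) 0 (.g .Q)), (7, 0, true, .far (.b 0) 0 (.g .T)),
      (8, 0, true, .far (.b 0) 0 (.g .T)), (9, 0, true, .far (.b 0) 0 (.g .Q)),
      (1, 0, true, .far (.g .Q) 0 (.g .Q))]
    (by decide +kernel) rfl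
    ⟨Ty.cast (Y_ty) (by simp only [W, List.getD_cons_zero, List.getD_cons_succ] <;> omega) (by simp only [W, List.getD_cons_zero, List.getD_cons_succ] <;> omega),
      Ty.cast (Ev_ty) (by simp only [W, List.getD_cons_zero, List.getD_cons_succ] <;> omega) (by simp only [W, List.getD_cons_zero, List.getD_cons_succ] <;> omega),
      trivial⟩ trivial
    ⟨by have t := evQ (X := X); simp only [ev2, val, W, List.getD_cons_zero, List.getD_cons_succ, up_G, up_zero, up_up, map_mul, map_one, B_one_one, cr_true, cr_false, mul_one, one_mul, Nat.add_zero, Nat.zero_add, mul_assoc] at t ⊢; (try ring_nf at t); (try ring_nf); exact t,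
      by have t := YT (X := X); simp only [ev2, val, W, List.getD_cons_zero, List.getD_cons_succ, up_G, up_zero, up_up, map_mul, map_one, B_one_one, cr_true, cr_false, mul_one, one_mul, Nat.add_zero, Nat.zero_add, mul_assoc] at t ⊢; (try ring_nf at t); (try ring_nf); exact t,
      trivial⟩
  simp only [ev2, val, W, List.getD_cons_zero, List.getD_cons_succ, up_G, up_zero, up_up, map_mul, map_one, B_one_one, cr_true, cr_false, mul_one, one_mul, Nat.add_zero, Nat.zero_add, mul_assoc] at t ⊢
  (try ring_nf at t)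
  (try ring_nf)
  exact t

theorem d2_H2 :
    (Y * Y * Ev : Cob X) =
      G T 0 * G T 0 * G Q 0 * G S 2 * Y * up 1 Y * Ev := by
  have t := col_sound (X := X) (fun c => List.getD [1] c 0) [Y, Ev]
    [([0, 0], [0]), ([0, 0], [])] []
    [([0, 0, 0], [(0, .b 0), (0, .b 1)], [(0, .g .T), (1, .g .S), (1, .b 0), (0, .b 1)]),
      ([0, 0], [(0, .b 0), (0, .g .T)], [(0, .g .T), (0, .g .T), (0, .g .Q), (0, .b 0)])]
    [([([], .b 0), ([], .b 1)], [([], .g .T), ([0], .g .S), ([0], .b 0), ([], .b 1)]),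
      ([([], .b 0), ([], .g .T)], [([], .g .T), ([], .g .T), ([], .br false 0 0), ([], .b 0)])]
    [0, 0, 0, 0] [(0, .b 0), (0, .b 0), (0, .b 1)]
    [(0, .g .T), (0, .g .T), (0, .g .Q), (2, .g .S), (0, .b 0), (1, .b 0), (0, .b 1)]
    [([], .b 0), ([], .b 0), ([], .b 1)]
    [([], .g .T), ([], .g .T), ([], .br false 0 0), ([0, 0], .g .S), ([], .b 0), ([0], .b 0), ([], .b 1)]
    [(1, 0, true, .co 0), (0, 0, true, .co 1), (3, 0, true, .far (.b 0) 0 (.g .S))]
    (by decide +kernel) rfl
    ⟨Ty.cast (Y_ty) (by simp only [W, List.getD_cons_zero, List.getD_cons_succ] <;> omega) (by simp only [W, List.getD_cons_zero, List.getD_cons_succ] <;> omega),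
      Ty.cast (Ev_ty) (by simp only [W, List.getD_cons_zero, List.getD_cons_succ] <;> omega) (by simp only [W, List.getD_cons_zero, List.getD_cons_succ] <;> omega),
      trivial⟩ trivial
    ⟨by have t := CY2 (X := X); simp only [ev2, val, W, List.getD_cons_zero, List.getD_cons_succ, up_G, up_zero, up_up, map_mul, map_one, B_one_one, cr_true, cr_false, mul_one, one_mul, Nat.add_zero, Nat.zero_add, mul_assoc] at t ⊢; (try ring_nf at t); (try ring_nf); exact t,
      by have t := YT (X := X); simp only [ev2, val, W, List.getD_cons_zero, List.getD_cons_succ, up_G, up_zero, up_up, map_mul, map_one, B_one_one, cr_true, cr_false, mul_one, one_mul, Nat.add_zero, Nat.zero_add, mul_assoc] at t ⊢; (try ring_nf at t); (try ring_nf); exact t,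
      trivial⟩
  simp only [ev2, val, W, List.getD_cons_zero, List.getD_cons_succ, up_G, up_zero, up_up, map_mul, map_one, B_one_one, cr_true, cr_false, mul_one, one_mul, Nat.add_zero, Nat.zero_add, mul_assoc] at t ⊢
  (try ring_nf at t)
  (try ring_nf)
  exact t

theorem d2_H2i :
    (G T 2 * G P 0 * G S 0 * G S 0 * Y * Y * Ev : Cob X) =
      Y * up 1 Y * Ev := by
  have t := col_sound (X := X) (fun c => List.getD [1] c 0) [Y, Ev]
    [([0, 0], [0]), ([0, 0], [])] []
    [
      ([0, 0, 0, 0], [(0, .b 0), (0, .b 0), (0, .b 1)], [(0, .g .T), (0, .g .T), (0, .g .Q), (2, .g .S), (0, .b 0), (1, .b 0), (0, .b 1)])]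
    [
      ([([], .b 0), ([], .b 0), ([], .b 1)], [([], .g .T), ([], .g .T), ([], .br false 0 0), ([0, 0], .g .S), ([], .b 0), ([0], .b 0), ([], .b 1)])]
    [0, 0, 0, 0] [(2, .g .T), (0, .g .P), (0, .g .S), (0, .g .S), (0, .b 0), (0, .b 0), (0, .b 1)]
    [(0, .b 0), (1, .b 0), (0, .b 1)]
    [([0, 0], .g .T), ([], .br true 0 0), ([], .g .S), ([], .g .S), ([], .b 0), ([], .b 0), ([], .b 1)]
    [([], .b 0), ([0], .b 0), ([], .b 1)]
    [(0, 0, false, .far (.g .P) 0 (.g .T)), (1, 0, false, .far (.g .S) 1 (.g .T)),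
      (2, 0, false, .far (.g .S) 1 (.g .T)), (4, 0, true, .co 0), (3, 0, false, .far (.g .T) 1 (.g .T)),
      (4, 0, false, .far (.g .T) 1 (.g .T)), (5, 0, false, .far (.g .Q) 0 (.g .T)),
      (7, 0, false, .far (.b 0) 0 (.g .S)), (6, 0, false, .far (.b 0) 0 (.g .T)), (2, 0, true, .pu 12 1),
      (1, 0, true, .pu 12 1), (0, 0, true, .can true), (1, 1, true, .pu 13 1)]
    (by decide +kernel) rfl
    ⟨Ty.cast (Y_ty) (by simp only [W, List.getD_cons_zero, List.getD_cons_succ] <;> omega) (by simp only [W, List.getD_cons_zero, List.getD_cons_succ] <;> omega),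
      Ty.cast (Ev_ty) (by simp only [W, List.getD_cons_zero, List.getD_cons_succ] <;> omega) (by simp only [W, List.getD_cons_zero, List.getD_cons_succ] <;> omega),
      trivial⟩ trivial
    ⟨by have t := d2_H2 (X := X); simp only [ev2, val, W, List.getD_cons_zero, List.getD_cons_succ, up_G, up_zero, up_up, map_mul, map_one, B_one_one, cr_true, cr_false, mul_one, one_mul, Nat.add_zero, Nat.zero_add, mul_assoc] at t ⊢; (try ring_nf at t); (try ring_nf); exact t,
      trivial⟩
  simp only [ev2, val, W, List.getD_cons_zero, List.getD_cons_succ, up_G, up_zero, up_up, map_mul, map_one, B_one_one, cr_true, cr_false, mul_one, one_mul, Nat.add_zero, Nat.zero_add, mul_assoc] at t ⊢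
  (try ring_nf at t)
  (try ring_nf)
  exact t

theorem d2_H3 :
    (up 1 Y * Y * Ev : Cob X) =
      G T 0 * G T 0 * G Q 0 * G Q 1 * G S 3 * Y * Y * Ev := by
  have t := col_sound (X := X) (fun c => List.getD [1] c 0) [Y, Ev]
    [([0, 0], [0]), ([0, 0], [])] []
    [
      ([0, 0, 0], [(0, .b 0), (0, .b 1)], [(0, .g .T), (0, .g .T), (0, .g .Q), (2, .g .S), (0, .b 0), (0, .b 1)])]
    [
      ([([], .b 0), ([], .b 1)], [([], .g .T), ([], .g .T), ([], .br false 0 0), ([0, 0], .g .S), ([], .b 0), ([], .b 1)])]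
    [0, 0, 0, 0] [(1, .b 0), (0, .b 0), (0, .b 1)]
    [(0, .g .T), (0, .g .T), (0, .g .Q), (1, .g .Q), (3, .g .S), (0, .b 0), (0, .b 0), (0, .b 1)]
    [([0], .b 0), ([], .b 0), ([], .b 1)]
    [([], .g .T), ([], .g .T), ([], .br false 0 0), ([0], .br false 0 0), ([0, 0, 0], .g .S), ([], .b 0), ([], .b 0), ([], .b 1)]
    [(1, 0, true, .co 0), (0, 0, false, .far (.g .T) 0 (.b 0)), (1, 0, false, .far (.g .T) 0 (.b 0)),
      (4, 0, false, .far (.b 0) 0 (.g .S)), (3, 0, false, .can false), (2, 0, false, .nl false (.b 0)),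
      (5, 0, true, .can true), (5, 0, true, .far (.b 0) 0 (.g .S)), (4, 0, true, .far (.b 0) 1 (.g .S))]
    (by decide +kernel) rfl
    ⟨Ty.cast (Y_ty) (by simp only [W, List.getD_cons_zero, List.getD_cons_succ] <;> omega) (by simp only [W, List.getD_cons_zero, List.getD_cons_succ] <;> omega),
      Ty.cast (Ev_ty) (by simp only [W, List.getD_cons_zero, List.getD_cons_succ] <;> omega) (by simp only [W, List.getD_cons_zero, List.getD_cons_succ] <;> omega),
      trivial⟩ trivial
    ⟨by have t := TS01 (X := X); simp only [ev2, val, W, List.getD_cons_zero, List.getD_cons_succ, up_G, up_zero, up_up, map_mul, map_one, B_one_one, cr_true, cr_false, mul_one, one_mul, Nat.add_zero, Nat.zero_add, mul_assoc] at t ⊢; (try ring_nf at t); (try ring_nf); exact t,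
      trivial⟩
  simp only [ev2, val, W, List.getD_cons_zero, List.getD_cons_succ, up_G, up_zero, up_up, map_mul, map_one, B_one_one, cr_true, cr_false, mul_one, one_mul, Nat.add_zero, Nat.zero_add, mul_assoc] at t ⊢
  (try ring_nf at t)
  (try ring_nf)
  exact t

theorem d2_v1 :
    (G v 0 * Y * up 1 Y * Ev : Cob X) =
      up 1 g1 * G P 1 * G P 2 * G P 0 * G P 1 * G S 1 * G S 1 * G P 0 * G S 1 * G S 1 * G P 0 * Y * Y * Ev := by
  have t := col_sound (X := X) (fun c => List.getD [1] c 0) [Y, Ev, g1]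
    [([0, 0], [0]), ([0, 0], []), ([0, 0], [0, 0, 0])] []
    [
      ([0, 0], [(0, .g .v), (0, .b 0), (0, .b 1)], [(1, .g .d), (1, .g .P), (0, .g .P), (0, .g .S), (0, .g .S), (0, .b 0), (0, .b 1)]),
      ([0, 0], [(0, .b 0), (0, .g .d)], [(0, .b 2), (1, .b 0)]),
      ([0, 0], [(0, .b 0), (0, .g .S)], [(1, .g .S), (1, .g .S), (0, .g .P), (0, .b 0)])]
    [
      ([([], .g .v), ([], .b 0), ([], .b 1)], [([0], .g .d), ([0], .br true 0 0), ([], .br true 0 0), ([], .g .S), ([], .g .S), ([], .b 0), ([], .b 1)]),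
      ([([], .b 0), ([], .g .d)], [([], .b 2), ([0], .b 0)]),
      ([([], .b 0), ([], .g .S)], [([0], .g .S), ([0], .g .S), ([], .br true 0 0), ([], .b 0)])]
    [0, 0, 0] [(0, .g .v), (0, .b 0), (1, .b 0), (0, .b 1)]
    [(1, .b 2), (1, .g .P), (2, .g .P), (0, .g .P), (1, .g .P), (1, .g .S), (1, .g .S), (0, .g .P), (1, .g .S), (1, .g .S), (0, .g .P), (0, .b 0), (0, .b 0), (0, .b 1)]
    [([], .g .v), ([], .b 0), ([0], .b 0), ([], .b 1)]
    [([0], .b 2), ([0], .br true 0 0), ([0, 0], .br true 0 0), ([], .br true 0 0), ([0], .br true 0 0), ([0], .g .S), ([0], .g .S), ([], .br true 0 0), ([0], .g .S), ([0], .g .S), ([], .br true 0 0), ([], .b 0), ([], .b 0), ([], .b 1)]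
    [(1, 0, true, .far (.b 0) 0 (.b 0)), (0, 0, true, .far (.g .v) 1 (.b 0)), (1, 0, true, .co 0),
      (0, 1, true, .co 1), (2, 1, false, .can true), (1, 1, false, .nl true (.b 0)),
      (4, 1, true, .can false), (3, 0, false, .can true), (2, 0, false, .far (.g .P) 0 (.g .P)),
      (4, 1, false, .can true), (5, 0, false, .nr false (.b 0)), (6, 0, true, .can false),
      (5, 0, true, .co 2), (8, 0, true, .co 2), (2, 0, true, .far (.g .P) 0 (.g .P))]
    (by decide +kernel) rfl
    ⟨Ty.cast (Y_ty) (by simp only [W, List.getD_cons_zero, List.getD_cons_succ] <;> omega) (by simp only [W, List.getD_cons_zero, List.getD_cons_succ] <;> omega),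
      Ty.cast (Ev_ty) (by simp only [W, List.getD_cons_zero, List.getD_cons_succ] <;> omega) (by simp only [W, List.getD_cons_zero, List.getD_cons_succ] <;> omega),
      Ty.cast (g1_ty) (by simp only [W, List.getD_cons_zero, List.getD_cons_succ] <;> omega) (by simp only [W, List.getD_cons_zero, List.getD_cons_succ] <;> omega),
      trivial⟩ trivial
    ⟨by have t := d2_vT (X := X); simp only [ev2, val, W, List.getD_cons_zero, List.getD_cons_succ, up_G, up_zero, up_up, map_mul, map_one, B_one_one, cr_true, cr_false, mul_one, one_mul, Nat.add_zero, Nat.zero_add, mul_assoc] at t ⊢; (try ring_nf at t); (try ring_nf); exact t,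
      by have t := Yd1 (X := X); simp only [ev2, val, W, List.getD_cons_zero, List.getD_cons_succ, up_G, up_zero, up_up, map_mul, map_one, B_one_one, cr_true, cr_false, mul_one, one_mul, Nat.add_zero, Nat.zero_add, mul_assoc] at t ⊢; (try ring_nf at t); (try ring_nf); exact t,
      by have t := YS (X := X); simp only [ev2, val, W, List.getD_cons_zero, List.getD_cons_succ, up_G, up_zero, up_up, map_mul, map_one, B_one_one, cr_true, cr_false, mul_one, one_mul, Nat.add_zero, Nat.zero_add, mul_assoc] at t ⊢; (try ring_nf at t); (try ring_nf); exact t,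
      trivial⟩
  simp only [ev2, val, W, List.getD_cons_zero, List.getD_cons_succ, up_G, up_zero, up_up, map_mul, map_one, B_one_one, cr_true, cr_false, mul_one, one_mul, Nat.add_zero, Nat.zero_add, mul_assoc] at t ⊢
  (try ring_nf at t)
  (try ring_nf)
  exact t

theorem d2_v2 :
    (G e 1 * G P 1 * G P 2 * G P 0 * G P 1 * G S 1 * G S 1 * G P 0 * G S 1 * G S 1 * G P 0 * Y * Y * Ev : Cob X) =
      G u 0 * G u 0 * G u 0 := by
  have t := col_sound (X := X) (fun c => List.getD [1] c 0) [Y, Ev]
    [([0, 0], [0]), ([0, 0], [])] []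
    [([0], [(1, .g .e), (0, .b 1)], [(0, .g .u)]),
      ([0, 0], [(0, .b 0), (0, .g .u)], [(0, .g .u), (0, .g .u)]),
      ([0], [(0, .g .S), (0, .g .u)], [(0, .g .u)])]
    [([([0], .g .e), ([], .b 1)], [([], .g .u)]), ([([], .b 0), ([], .g .u)], [([], .g .u), ([], .g .u)]),
      ([([], .g .S), ([], .g .u)], [([], .g .u)])]
    [0, 0, 0] [(1, .g .e), (1, .g .P), (2, .g .P), (0, .g .P), (1, .g .P), (1, .g .S), (1, .g .S), (0, .g .P), (1, .g .S), (1, .g .S), (0, .g .P), (0, .b 0), (0, .b 0), (0, .b 1)]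
    [(0, .g .u), (0, .g .u), (0, .g .u)]
    [([0], .g .e), ([0], .br true 0 0), ([0, 0], .br true 0 0), ([], .br true 0 0), ([0], .br true 0 0), ([0], .g .S), ([0], .g .S), ([], .br true 0 0), ([0], .g .S), ([0], .g .S), ([], .br true 0 0), ([], .b 0), ([], .b 0), ([], .b 1)]
    [([], .g .u), ([], .g .u), ([], .g .u)]
    [(2, 0, false, .far (.g .P) 0 (.g .P)), (1, 1, false, .can true), (0, 1, true, .nr true (.g .e)),
      (1, 1, true, .can false), (0, 0, false, .far (.g .P) 0 (.g .e)), (1, 2, true, .nl false (.g .e)),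
      (2, 2, true, .can false), (1, 1, false, .far (.g .P) 0 (.g .e)),
      (2, 1, false, .far (.g .S) 1 (.g .e)), (3, 1, false, .far (.g .S) 1 (.g .e)),
      (4, 0, false, .far (.g .P) 1 (.g .e)), (5, 1, false, .far (.g .S) 1 (.g .e)),
      (6, 1, false, .far (.g .S) 1 (.g .e)), (7, 0, false, .far (.g .P) 1 (.g .e)),
      (8, 0, false, .far (.b 0) 1 (.g .e)), (9, 0, false, .far (.b 0) 0 (.g .e)), (10, 0, true, .co 0),
      (9, 0, true, .co 1), (8, 0, true, .co 1), (7, 0, false, .can true), (6, 0, false, .nl true (.g .S)),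
      (8, 0, true, .can false), (7, 0, true, .co 2), (6, 0, false, .can true),
      (5, 0, false, .nl true (.g .S)), (7, 0, true, .can false), (6, 0, true, .co 2),
      (4, 0, false, .can true), (3, 0, false, .nl true (.g .S)), (5, 0, true, .can false),
      (5, 0, false, .can true), (4, 0, true, .nr true (.g .S)), (6, 0, true, .can false),
      (5, 0, false, .far (.g .u) 0 (.g .S)), (6, 0, true, .co 2), (3, 0, false, .can true),
      (2, 0, false, .nl true (.g .S)), (4, 0, true, .can false), (4, 0, false, .can true),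
      (3, 0, true, .nr true (.g .S)), (5, 0, true, .can false), (4, 0, false, .far (.g .u) 0 (.g .S)),
      (5, 0, true, .co 2), (4, 0, true, .nr false (.g .u)), (3, 0, true, .can true),
      (3, 0, false, .far (.g .u) 0 (.g .u)), (4, 0, true, .far (.g .u) 0 (.g .u)),
      (3, 0, true, .far (.g .u) 1 (.g .u)), (2, 0, true, .far (.g .P) 0 (.g .u)),
      (2, 1, false, .nl false (.g .u)), (1, 1, true, .can true), (3, 0, true, .far (.g .u) 0 (.g .u)),
      (2, 0, false, .nr true (.g .u)), (0, 0, false, .nr true (.g .u))]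
    (by decide +kernel) rfl
    ⟨Ty.cast (Y_ty) (by simp only [W, List.getD_cons_zero, List.getD_cons_succ] <;> omega) (by simp only [W, List.getD_cons_zero, List.getD_cons_succ] <;> omega),
      Ty.cast (Ev_ty) (by simp only [W, List.getD_cons_zero, List.getD_cons_succ] <;> omega) (by simp only [W, List.getD_cons_zero, List.getD_cons_succ] <;> omega),
      trivial⟩ trivial
    ⟨by have t := eev1 (X := X); simp only [ev2, val, W, List.getD_cons_zero, List.getD_cons_succ, up_G, up_zero, up_up, map_mul, map_one, B_one_one, cr_true, cr_false, mul_one, one_mul, Nat.add_zero, Nat.zero_add, mul_assoc] at t ⊢; (try ring_nf at t); (try ring_nf); exact t,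
      by have t := Yu (X := X); simp only [ev2, val, W, List.getD_cons_zero, List.getD_cons_succ, up_G, up_zero, up_up, map_mul, map_one, B_one_one, cr_true, cr_false, mul_one, one_mul, Nat.add_zero, Nat.zero_add, mul_assoc] at t ⊢; (try ring_nf at t); (try ring_nf); exact t,
      by have t := Su (X := X); simp only [ev2, val, W, List.getD_cons_zero, List.getD_cons_succ, up_G, up_zero, up_up, map_mul, map_one, B_one_one, cr_true, cr_false, mul_one, one_mul, Nat.add_zero, Nat.zero_add, mul_assoc] at t ⊢; (try ring_nf at t); (try ring_nf); exact t,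
      trivial⟩
  simp only [ev2, val, W, List.getD_cons_zero, List.getD_cons_succ, up_G, up_zero, up_up, map_mul, map_one, B_one_one, cr_true, cr_false, mul_one, one_mul, Nat.add_zero, Nat.zero_add, mul_assoc] at t ⊢
  (try ring_nf at t)
  (try ring_nf)
  exact t

theorem d2_add :
    (G m 0 * Y * up 1 Y * Ev : Cob X) =
      G d 0 * G d 3 * G P 1 * G P 2 * up 1 Y * Ad * up 1 Y * G m 0 * up 1 Y * Ev := by
  have t := col_sound (X := X) (fun c => List.getD [1] c 0) [Y, Ev, Ad]
    [([0, 0], [0]), ([0, 0], []), ([0, 0], [0])] []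
    [
      ([0, 0, 0], [(0, .g .m), (0, .b 0)], [(0, .g .d), (3, .g .d), (1, .g .P), (2, .g .P), (1, .b 0), (0, .b 2), (1, .b 0), (0, .g .m)])]
    [
      ([([], .g .m), ([], .b 0)], [([], .g .d), ([0, 0, 0], .g .d), ([0], .br true 0 0), ([0, 0], .br true 0 0), ([0], .b 0), ([], .b 2), ([0], .b 0), ([], .g .m)])]
    [0, 0, 0, 0, 0] [(0, .g .m), (0, .b 0), (1, .b 0), (0, .b 1)]
    [(0, .g .d), (3, .g .d), (1, .g .P), (2, .g .P), (1, .b 0), (0, .b 2), (1, .b 0), (0, .g .m), (1, .b 0), (0, .b 1)]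
    [([], .g .m), ([], .b 0), ([0], .b 0), ([], .b 1)]
    [([], .g .d), ([0, 0, 0], .g .d), ([0], .br true 0 0), ([0, 0], .br true 0 0), ([0], .b 0), ([], .b 2), ([0], .b 0), ([], .g .m), ([0], .b 0), ([], .b 1)]
    [(0, 0, true, .co 0)]
    (by decide +kernel) rfl
    ⟨Ty.cast (Y_ty) (by simp only [W, List.getD_cons_zero, List.getD_cons_succ] <;> omega) (by simp only [W, List.getD_cons_zero, List.getD_cons_succ] <;> omega),
      Ty.cast (Ev_ty) (by simp only [W, List.getD_cons_zero, List.getD_cons_succ] <;> omega) (by simp only [W, List.getD_cons_zero, List.getD_cons_succ] <;> omega),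
      Ty.cast (Ad_ty) (by simp only [W, List.getD_cons_zero, List.getD_cons_succ] <;> omega) (by simp only [W, List.getD_cons_zero, List.getD_cons_succ] <;> omega),
      trivial⟩ trivial
    ⟨by have t := mY0 (X := X); simp only [ev2, val, W, List.getD_cons_zero, List.getD_cons_succ, up_G, up_zero, up_up, map_mul, map_one, B_one_one, cr_true, cr_false, mul_one, one_mul, Nat.add_zero, Nat.zero_add, mul_assoc] at t ⊢; (try ring_nf at t); (try ring_nf); exact t,
      trivial⟩
  simp only [ev2, val, W, List.getD_cons_zero, List.getD_cons_succ, up_G, up_zero, up_up, map_mul, map_one, B_one_one, cr_true, cr_false, mul_one, one_mul, Nat.add_zero, Nat.zero_add, mul_assoc] at t ⊢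
  (try ring_nf at t)
  (try ring_nf)
  exact t

theorem d2_add2 :
    (G d 0 * G d 3 * G P 1 * G P 2 * up 1 Y * G u 0 * up 1 Y * G m 0 * up 1 Y * Ev : Cob X) =
      G d 2 * G P 0 * G P 1 * up 4 Y * G d 4 * G P 1 * G P 2 * G P 3 * G P 0 * G P 1 * G P 2 * Y * Ev * Y * Ev := by
  have t := col_sound (X := X) (fun c => List.getD [1] c 0) [Y, Ev]
    [([0, 0], [0]), ([0, 0], [])] []
    [([0, 0, 0], [(0, .g .m), (0, .b 1)], [(2, .g .d), (1, .b 1), (0, .b 1)])]
    [([([], .g .m), ([], .b 1)], [([0, 0], .g .d), ([0], .b 1), ([], .b 1)])]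
    [0, 0, 0, 0, 0] [(0, .g .d), (3, .g .d), (1, .g .P), (2, .g .P), (1, .b 0), (0, .g .u), (1, .b 0), (0, .g .m), (1, .b 0), (0, .b 1)]
    [(2, .g .d), (0, .g .P), (1, .g .P), (4, .b 0), (4, .g .d), (1, .g .P), (2, .g .P), (3, .g .P), (0, .g .P), (1, .g .P), (2, .g .P), (0, .b 0), (0, .b 1), (0, .b 0), (0, .b 1)]
    [([], .g .d), ([0, 0, 0], .g .d), ([0], .br true 0 0), ([0, 0], .br true 0 0), ([0], .b 0), ([], .g .u), ([0], .b 0), ([], .g .m), ([0], .b 0), ([], .b 1)]
    [([0, 0], .g .d), ([], .br true 0 0), ([0], .br true 0 0), ([0, 0, 0, 0], .b 0), ([0, 0, 0, 0], .g .d), ([0], .br true 0 0), ([0, 0], .br true 0 0), ([0, 0, 0], .br true 0 0), ([], .br true 0 0), ([0], .br true 0 0), ([0, 0], .br true 0 0), ([], .b 0), ([], .b 1), ([], .b 0), ([], .b 1)]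
    [(1, 1, false, .far (.g .P) 0 (.g .d)), (4, 0, false, .far (.g .u) 0 (.b 0)),
      (3, 0, false, .far (.g .u) 1 (.g .P)), (2, 0, false, .far (.g .u) 2 (.g .d)),
      (1, 0, false, .far (.g .u) 0 (.g .P)), (0, 0, true, .pu 4 1), (5, 0, true, .far (.g .m) 0 (.b 0)),
      (6, 0, true, .co 0), (0, 0, true, .far (.g .P) 0 (.g .d)), (3, 0, true, .far (.b 0) 0 (.b 0)),
      (4, 0, true, .far (.b 0) 1 (.b 0)), (3, 2, true, .far (.b 0) 0 (.b 0)),
      (2, 1, true, .far (.g .P) 1 (.b 0)), (1, 0, true, .far (.g .P) 2 (.b 0)),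
      (0, 2, true, .far (.g .d) 0 (.b 0)), (5, 0, true, .far (.b 0) 1 (.g .d)),
      (4, 2, true, .far (.b 0) 0 (.g .d)), (3, 1, true, .far (.g .P) 1 (.g .d)),
      (2, 0, true, .far (.g .P) 2 (.g .d)), (1, 2, true, .far (.g .d) 0 (.g .d)),
      (6, 0, true, .far (.b 0) 0 (.b 1)), (6, 1, false, .nl true (.b 1)),
      (1, 2, false, .far (.g .d) 0 (.g .d)), (0, 2, false, .far (.g .d) 0 (.b 0)),
      (2, 0, false, .far (.g .P) 2 (.g .d)), (1, 0, false, .far (.g .P) 2 (.b 0)),
      (0, 0, false, .far (.g .P) 0 (.g .d)), (3, 1, false, .far (.g .P) 1 (.g .d)),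
      (2, 1, false, .far (.g .P) 1 (.b 0)), (4, 2, false, .far (.b 0) 0 (.g .d)),
      (3, 2, false, .far (.b 0) 0 (.b 0)), (5, 1, false, .far (.g .P) 0 (.g .d)),
      (4, 1, false, .far (.g .P) 0 (.b 0)), (3, 1, false, .can true), (4, 2, false, .can true),
      (5, 1, false, .nr false (.b 0)), (6, 1, true, .can false), (9, 0, false, .can true),
      (8, 0, false, .far (.g .P) 0 (.g .P)), (7, 0, false, .far (.g .P) 1 (.g .d)),
      (6, 0, false, .far (.g .P) 1 (.b 0)), (10, 1, false, .can true), (11, 0, false, .nr false (.b 1)),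
      (5, 0, false, .can true), (4, 0, false, .far (.g .P) 0 (.g .P)), (6, 1, false, .can true),
      (7, 0, false, .nr false (.b 0)), (8, 0, true, .can false), (7, 0, true, .far (.b 0) 2 (.b 0)),
      (8, 0, true, .far (.b 0) 2 (.g .d)), (9, 0, true, .far (.b 0) 1 (.g .P)),
      (10, 0, true, .far (.b 0) 0 (.g .P)), (6, 1, true, .far (.g .P) 1 (.b 0)),
      (7, 1, true, .far (.g .P) 1 (.g .d)), (8, 1, true, .far (.g .P) 0 (.g .P)),
      (4, 0, true, .far (.g .P) 0 (.g .P)), (5, 0, true, .far (.g .P) 2 (.b 0)),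
      (6, 0, true, .far (.g .P) 2 (.g .d)), (7, 0, true, .far (.g .P) 1 (.g .P)),
      (4, 2, true, .far (.g .P) 0 (.b 0)), (5, 2, true, .far (.g .P) 0 (.g .d)),
      (3, 1, true, .far (.g .P) 1 (.b 0)), (4, 1, true, .far (.g .P) 1 (.g .d)),
      (0, 0, true, .far (.g .P) 0 (.g .d))]
    (by decide +kernel) rfl
    ⟨Ty.cast (Y_ty) (by simp only [W, List.getD_cons_zero, List.getD_cons_succ] <;> omega) (by simp only [W, List.getD_cons_zero, List.getD_cons_succ] <;> omega),
      Ty.cast (Ev_ty) (by simp only [W, List.getD_cons_zero, List.getD_cons_succ] <;> omega) (by simp only [W, List.getD_cons_zero, List.getD_cons_succ] <;> omega),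
      trivial⟩ trivial
    ⟨by have t := mev0 (X := X); simp only [ev2, val, W, List.getD_cons_zero, List.getD_cons_succ, up_G, up_zero, up_up, map_mul, map_one, B_one_one, cr_true, cr_false, mul_one, one_mul, Nat.add_zero, Nat.zero_add, mul_assoc] at t ⊢; (try ring_nf at t); (try ring_nf); exact t,
      trivial⟩
  simp only [ev2, val, W, List.getD_cons_zero, List.getD_cons_succ, up_G, up_zero, up_up, map_mul, map_one, B_one_one, cr_true, cr_false, mul_one, one_mul, Nat.add_zero, Nat.zero_add, mul_assoc] at t ⊢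
  (try ring_nf at t)
  (try ring_nf)
  exact t

theorem d2_Yev :
    (up 1 Y * Ev : Cob X) =
      G P 1 * G S 1 * Y * Ev := by
  have t := col_sound (X := X) (fun c => List.getD [1] c 0) [Y, Ev]
    [([0, 0], [0]), ([0, 0], [])] []
    [([0, 0, 0], [(0, .b 0), (0, .b 1)], [(1, .g .T), (1, .g .Q), (1, .b 0), (0, .b 1)])]
    [([([], .b 0), ([], .b 1)], [([0], .g .T), ([0], .br false 0 0), ([0], .b 0), ([], .b 1)])]
    [0, 0, 0] [(1, .b 0), (0, .b 1)]
    [(1, .g .P), (1, .g .S), (0, .b 0), (0, .b 1)]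
    [([0], .b 0), ([], .b 1)]
    [([0], .br true 0 0), ([0], .g .S), ([], .b 0), ([], .b 1)]
    [(0, 1, false, .can true), (1, 1, false, .pu 12 1), (2, 0, false, .co 0)]
    (by decide +kernel) rfl
    ⟨Ty.cast (Y_ty) (by simp only [W, List.getD_cons_zero, List.getD_cons_succ] <;> omega) (by simp only [W, List.getD_cons_zero, List.getD_cons_succ] <;> omega),
      Ty.cast (Ev_ty) (by simp only [W, List.getD_cons_zero, List.getD_cons_succ] <;> omega) (by simp only [W, List.getD_cons_zero, List.getD_cons_succ] <;> omega),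
      trivial⟩ trivial
    ⟨by have t := CY1 (X := X); simp only [ev2, val, W, List.getD_cons_zero, List.getD_cons_succ, up_G, up_zero, up_up, map_mul, map_one, B_one_one, cr_true, cr_false, mul_one, one_mul, Nat.add_zero, Nat.zero_add, mul_assoc] at t ⊢; (try ring_nf at t); (try ring_nf); exact t,
      trivial⟩
  simp only [ev2, val, W, List.getD_cons_zero, List.getD_cons_succ, up_G, up_zero, up_up, map_mul, map_one, B_one_one, cr_true, cr_false, mul_one, one_mul, Nat.add_zero, Nat.zero_add, mul_assoc] at t ⊢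
  (try ring_nf at t)
  (try ring_nf)
  exact t

end Pool.Agent.GH
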