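import Pool.Agent.Work.MP_c00b06_gt.NF0

/-! A homology sphere is invertible up to Y-surgeries. -/

namespace Pool.Agent.GH
open Gn

variable {X : Wd → Wd → Prop}

set_option linter.unusedSimpArgs false in
set_option linter.unusedTactic false in
set_option linter.unreachableTactic false in
set_option linter.unnecessarySeqFocus false in
theorem m1_a :
    (G e 0 * G w 0 * G P 1 * G m 2 * G m 0 * G l 0 * G l 0 : Cob X) =
      G u 0 := by
  have t := col_sound (X := X) (fun c => List.getD [1] c 0) []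
    [] []
    [([0], [(0, .g .w), (0, .g .l), (0, .g .m)], [(0, .g .u), (0, .g .w), (0, .g .l)]),
      ([], [(0, .g .w), (0, .g .l), (0, .g .l)], [])]
    [([([], .g .w), ([], .g .l), ([], .g .m)], [([], .g .u), ([], .g .w), ([], .g .l)]),
      ([([], .g .w), ([], .g .l), ([], .g .l)], [])]
    [0] [(0, .g .e), (0, .g .w), (1, .g .P), (2, .g .m), (0, .g .m), (0, .g .l), (0, .g .l)]
    [(0, .g .u)]
    [([], .g .e), ([], .g .w), ([0], .br true 0 0), ([0, 0], .g .m), ([], .g .m), ([], .g .l), ([], .g .l)]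
    [([], .g .u)]
    [(0, 0, false, .far (.g .w) 0 (.g .e)), (3, 0, false, .far (.g .m) 0 (.g .m)),
      (4, 0, false, .far (.g .l) 0 (.g .m)), (2, 1, false, .can true), (1, 1, false, .nl true (.g .e)),
      (2, 1, true, .can false), (1, 0, true, .pu 2 1), (0, 0, true, .co 0),
      (0, 0, false, .far (.g .w) 0 (.g .u)), (1, 0, false, .far (.g .l) 1 (.g .u)),
      (2, 0, false, .far (.g .l) 0 (.g .u)), (0, 0, true, .co 1)]
    (by decide +kernel) rfl
    trivial trivial
    ⟨by have t := K3a (X := X); simp only [ev2, val, W, List.getD_cons_zero, List.getD_cons_succ, up_G, up_zero, up_up, map_mul, map_one, B_one_one, cr_true, cr_false, mul_one, one_mul, Nat.add_zero, Nat.zero_add, mul_assoc] at t ⊢; (try ring_nf at t); (try ring_nf); exact t,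
      by have t := K3b (X := X); simp only [ev2, val, W, List.getD_cons_zero, List.getD_cons_succ, up_G, up_zero, up_up, map_mul, map_one, B_one_one, cr_true, cr_false, mul_one, one_mul, Nat.add_zero, Nat.zero_add, mul_assoc] at t ⊢; (try ring_nf at t); (try ring_nf); exact t,
      trivial⟩
  simp only [ev2, val, W, List.getD_cons_zero, List.getD_cons_succ, up_G, up_zero, up_up, map_mul, map_one, B_one_one, cr_true, cr_false, mul_one, one_mul, Nat.add_zero, Nat.zero_add, mul_assoc] at t ⊢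
  (try ring_nf at t)
  (try ring_nf)
  exact t

set_option linter.unusedSimpArgs false in
set_option linter.unusedTactic false in
set_option linter.unreachableTactic false in
set_option linter.unnecessarySeqFocus false in
theorem m1_b :
    (G e 0 * G w 0 * G T 0 * G P 1 * G m 2 * G m 0 * G l 0 * G l 0 : Cob X) =
      G u 0 := by
  have t := col_sound (X := X) (fun c => List.getD [1] c 0) []
    [] []
    [([0], [(0, .g .T), (0, .g .l)], [(0, .g .l)]),
      ([0], [(0, .g .w), (0, .g .l), (0, .g .m)], [(0, .g .u), (0, .g .w), (0, .g .l)]),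
      ([], [(0, .g .w), (0, .g .l), (0, .g .l)], [])]
    [([([], .g .T), ([], .g .l)], [([], .g .l)]),
      ([([], .g .w), ([], .g .l), ([], .g .m)], [([], .g .u), ([], .g .w), ([], .g .l)]),
      ([([], .g .w), ([], .g .l), ([], .g .l)], [])]
    [0] [(0, .g .e), (0, .g .w), (0, .g .T), (1, .g .P), (2, .g .m), (0, .g .m), (0, .g .l), (0, .g .l)]
    [(0, .g .u)]
    [([], .g .e), ([], .g .w), ([], .g .T), ([0], .br true 0 0), ([0, 0], .g .m), ([], .g .m), ([], .g .l), ([], .g .l)]
    [([], .g .u)]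
    [(0, 0, false, .far (.g .w) 0 (.g .e)), (1, 0, false, .far (.g .T) 1 (.g .e)),
      (4, 0, false, .far (.g .m) 0 (.g .m)), (5, 0, false, .far (.g .l) 0 (.g .m)),
      (3, 1, false, .can true), (2, 1, false, .nl true (.g .e)), (3, 1, true, .can false),
      (2, 0, true, .pu 2 1), (1, 0, true, .co 0), (0, 0, true, .co 1),
      (0, 0, false, .far (.g .w) 0 (.g .u)), (1, 0, false, .far (.g .l) 1 (.g .u)),
      (2, 0, false, .far (.g .l) 0 (.g .u)), (0, 0, true, .co 2)]
    (by decide +kernel) rfl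
    trivial trivial
    ⟨by have t := Tl (X := X); simp only [ev2, val, W, List.getD_cons_zero, List.getD_cons_succ, up_G, up_zero, up_up, map_mul, map_one, B_one_one, cr_true, cr_false, mul_one, one_mul, Nat.add_zero, Nat.zero_add, mul_assoc] at t ⊢; (try ring_nf at t); (try ring_nf); exact t,
      by have t := K3a (X := X); simp only [ev2, val, W, List.getD_cons_zero, List.getD_cons_succ, up_G, up_zero, up_up, map_mul, map_one, B_one_one, cr_true, cr_false, mul_one, one_mul, Nat.add_zero, Nat.zero_add, mul_assoc] at t ⊢; (try ring_nf at t); (try ring_nf); exact t,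
      by have t := K3b (X := X); simp only [ev2, val, W, List.getD_cons_zero, List.getD_cons_succ, up_G, up_zero, up_up, map_mul, map_one, B_one_one, cr_true, cr_false, mul_one, one_mul, Nat.add_zero, Nat.zero_add, mul_assoc] at t ⊢; (try ring_nf at t); (try ring_nf); exact t,
      trivial⟩
  simp only [ev2, val, W, List.getD_cons_zero, List.getD_cons_succ, up_G, up_zero, up_up, map_mul, map_one, B_one_one, cr_true, cr_false, mul_one, one_mul, Nat.add_zero, Nat.zero_add, mul_assoc] at t ⊢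
  (try ring_nf at t)
  (try ring_nf)
  exact t

theorem m1_c (t : Bool) : (G e 0 * (It.c t 0 1).op * Lm 2 : Cob X) = G u 0 := by
  have e1 : (up 1 (Ma 1) : Cob X) = G P 1 * G m 2 := by rw [mf_M1, map_mul, up_G, up_G]
  rw [It.op, e1, mf_M0, cw, Lm_succ, Lm_succ, Lm_zero]
  cases t
  · simpa only [sg, Bool.not_false, if_true, mul_assoc, mul_one] using m1_b (X := X)
  · simpa only [sg, Bool.not_true, Bool.false_eq_true, if_false, mul_assoc, mul_one, one_mul] using
      m1_a (X := X)

/-- PLAN: `G e a * (It.c t a (a + 1)).op = up a (cw t * G m 1)` (`up_op`), and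
`cw t * m1 * l0 * l0 = u0` (`Tl`, `K3a`, `K3b`); `Lm_add'`, `Lm_add`. -/
theorem k3 (t : Bool) (a r : ℕ) :
    (G e a * (It.c t a (a + 1)).op * Lm (a + 2 + r) : Cob X) = G u a * Lm (a + r) := by
  have e1 : ((It.c t a (a + 1)).op : Cob X) = up a (It.c t 0 1).op := by
    rw [up_op]
    simp [It.map]
  calc (G e a * (It.c t a (a + 1)).op * Lm (a + 2 + r) : Cob X)
      = up a (G e 0 * (It.c t 0 1).op * Lm 2) * (up a (Lm r) * Lm a) := by
        rw [e1, add_assoc, Lm_add', Lm_add 2 r]
        simp only [map_mul, up_G, Nat.add_zero, mul_assoc]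
    _ = G u a * Lm (a + r) := by rw [m1_c, up_G, Lm_add', Nat.add_zero]

variable [Snd X]

/-- A unimodular surgery presentation on `s + s` handles whose first block is isotropic. -/
def Met (s : ℕ) (h : Cob X) (A : ℕ → ℕ → ℤ) : Prop :=
  NL 0 (s + s) h ∧ Lk (s + s) h A ∧ Smt A ∧ Unm A 0 (s + s) ∧ ∀ i < s, ∀ j < s, A i j = 0

omit [Snd X] in
theorem m1_prod {Γ : Type} [CommGroup Γ] (μ : ℕ → Γ) {N a : ℕ} (ha : a < N) (f : ℕ → ℤ) (c : ℤ) :
    ∏ y ∈ Finset.range N, μ y ^ (f y + if y = a then c else 0) =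
      (∏ y ∈ Finset.range N, μ y ^ f y) * μ a ^ c := by
  simp only [zpow_add, Finset.prod_mul_distrib, pow_ite, zpow_zero, Finset.prod_ite_eq',
    Finset.mem_range, ha, if_true]

omit [Snd X] in

theorem unm_sl {A : ℕ → ℕ → ℤ} {N a j : ℕ} (ε : ℤ) (hε : ε * ε = 1) (ha : a < N) (hj : j < N)
    (haj : a ≠ j) (hU : Unm A 0 N) :
    Unm (fun x y => A x y + (if x = a then ε * A j y else 0) + (if y = a then ε * A x j else 0) +
      (if x = a ∧ y = a then A j j else 0)) 0 N := by
  intro Γ _ μ h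
  simp only [Nat.zero_add] at h
  have e1 : ∀ x, ∏ y ∈ Finset.range N, (μ y * if y = j then μ a ^ ε else 1) ^ A x y =
      (∏ y ∈ Finset.range N, μ y ^ A x y) * μ a ^ (ε * A x j) := fun x => by
    simp only [mul_zpow, Finset.prod_mul_distrib, ite_pow, one_zpow, Finset.prod_ite_eq',
      Finset.mem_range, hj, if_true, zpow_mul]
  have e2 : ∀ x < N, x ≠ a →
      (∏ y ∈ Finset.range N, μ y ^ A x y) * μ a ^ (ε * A x j) = 1 := fun x hx hxa => by
    rw [← m1_prod μ ha, ← h x hx]
    simp only [hxa, if_false, false_and, add_zero]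
  have e3 : (∏ y ∈ Finset.range N, μ y ^ A a y) * μ a ^ (ε * A a j) = 1 := by
    have k := h a ha
    simp only [if_true, true_and] at k
    rw [m1_prod μ ha, m1_prod μ ha] at k
    have k2 := congrArg (· ^ ε) (e2 j hj haj.symm)
    simp only [mul_zpow, one_zpow, ← Finset.prod_zpow, ← zpow_mul] at k2
    rw [mul_right_comm, hε, one_mul] at k2
    simp only [zpow_add, Finset.prod_mul_distrib, mul_comm ε] at k ⊢
    rw [mul_right_comm _ _ (μ a ^ (A a j * ε)), mul_assoc, k2, mul_one] at k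
    exact k
  have e4 := hU Γ (fun y => μ y * if y = j then μ a ^ ε else 1) fun x hx => by
    simp only [Nat.zero_add]
    rw [e1]
    by_cases k : x = a
    · exact k ▸ e3
    · exact e2 x hx k
  have e5 : μ a = 1 := by simpa only [haj, if_false, mul_one] using e4 a ha
  intro y hy
  simpa only [e5, one_zpow, ite_self, mul_one] using e4 y hy

/-- A unimodular surgery presentation on `N` handles. -/
def m1_P (N : ℕ) (h : Cob X) (A : ℕ → ℕ → ℤ) : Prop :=
  NL 0 N h ∧ Lk N h A ∧ Smt A ∧ Unm A 0 N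

theorem m1_sl {N a j : ℕ} {h : Cob X} {A : ℕ → ℕ → ℤ} (H : m1_P N h A) (t : Bool) (ha : a < N)
    (hj : j < N) (haj : a ≠ j) : m1_P N (h * Sl t a j) (fun x y => A x y +
      (if x = a then (if t then 1 else -1) * A j y else 0) +
      (if y = a then (if t then 1 else -1) * A x j else 0) +
      (if x = a ∧ y = a then A j j else 0)) ∧ h * Sl t a j * Lm N = h * Lm N := by
  refine ⟨⟨H.1.mul (NL.Sl t ha hj), lk_Sl H.2.1 t ha hj haj, fun x y => ?_,
    unm_sl _ (by cases t <;> rfl) ha hj haj H.2.2.2⟩, ?_⟩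
  · simp only [H.2.2.1 x y, H.2.2.1 j y, H.2.2.1 x j, and_comm (a := x = a)]
    ring
  · have := sl_Lm (X := X) t (o := 0) (s := N) (Nat.zero_le j) (by omega) haj
    rw [up_zero] at this
    rw [mul_assoc, this]

omit [Snd X] in
/-- Euclid on a row. -/
theorem m1_euc {s : ℕ} (Φ : (ℕ → ℤ) → Prop)
    (h1 : ∀ ρ, Φ ρ → (∀ y < s + 1, ρ y = 0) ∧
      ∃ z : ℕ → ℤ, 1 + ∑ i ∈ Finset.range (s + 1 + (s + 1)), z i * ρ i = 0)
    (h2 : ∀ ρ, Φ ρ → ∀ (t : Bool) (b j : ℕ), s + 1 ≤ b → b < s + 1 + (s + 1) →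
      j < s + 1 + (s + 1) → b ≠ j →
      Φ fun y => ρ y + if y = b then (if t then 1 else -1) * ρ j else 0)
    {ρ : ℕ → ℤ} (h : Φ ρ) : ∃ (ρ' : ℕ → ℤ) (t : Bool), Φ ρ' ∧
      ∀ y < s + 1 + (s + 1), ρ' y = if y = s + 1 then (if t then -1 else 1) else 0 := by
  induction hn : ∑ y ∈ Finset.range (s + 1 + (s + 1)), (ρ y).natAbs using Nat.strong_induction_on
    generalizing ρ with
  | _ n ih =>
  obtain ⟨k1, z, k2⟩ := h1 ρ h
  have hb : ∀ b, ρ b ≠ 0 → s + 1 ≤ b := fun b k => not_lt.1 fun m => k (k1 b m)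
  by_cases k : ∃ b < s + 1 + (s + 1), ∃ j < s + 1 + (s + 1), b ≠ j ∧ ρ j ≠ 0 ∧
      (ρ j).natAbs ≤ (ρ b).natAbs
  · obtain ⟨b, b1, j, j1, bj, j0, k⟩ := k
    obtain ⟨t, ht⟩ : ∃ t : Bool, (ρ b + (if t then 1 else -1) * ρ j).natAbs < (ρ b).natAbs := by
      by_cases m : (0 < ρ b ↔ 0 < ρ j)
      · exact ⟨false, by simp only [Bool.false_eq_true, if_false]; omega⟩
      · exact ⟨true, by simp only [if_true]; omega⟩
    refine ih _ ?_ (h2 ρ h t b j (hb b (by omega)) b1 j1 bj) rfl
    rw [← hn]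
    refine Finset.sum_lt_sum (fun y _ => ?_) ⟨b, Finset.mem_range.2 b1, by rwa [if_pos rfl]⟩
    by_cases m : y = b
    · rw [if_pos m, m]
      exact ht.le
    · rw [if_neg m, add_zero]
  · obtain ⟨b, b1, b0⟩ : ∃ b < s + 1 + (s + 1), ρ b ≠ 0 := by
      by_contra m
      push Not at m
      rw [Finset.sum_eq_zero fun i hi => by rw [m i (Finset.mem_range.1 hi), mul_zero]] at k2
      exact absurd k2 (by decide)
    have k3 : ∀ y < s + 1 + (s + 1), y ≠ b → ρ y = 0 := fun y hy yb => by
      by_contra m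
      rcases le_total (ρ y).natAbs (ρ b).natAbs with m' | m'
      · exact k ⟨b, b1, y, hy, yb.symm, m, m'⟩
      · exact k ⟨y, hy, b, b1, yb, b0, m'⟩
    rw [Finset.sum_eq_single b (fun y hy yb => by rw [k3 y (Finset.mem_range.1 hy) yb, mul_zero])
      fun m => absurd (Finset.mem_range.2 b1) m] at k2
    obtain ⟨t, ht⟩ : ∃ t : Bool, ρ b = if t then -1 else 1 := by
      rcases Int.eq_one_or_neg_one_of_mul_eq_one (u := ρ b) (v := -z b) (by linarith) with m | m
      exacts [⟨false, m⟩, ⟨true, m⟩]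
    by_cases m : b = s + 1
    · refine ⟨ρ, t, h, fun y hy => ?_⟩
      split_ifs with m'
      all_goals first | (rw [m', ← m, ht]; simp [*]) | exact k3 y hy (m ▸ m')
    · refine ⟨_, t, h2 _ (h2 ρ h true (s + 1) b le_rfl (by omega) b1 (Ne.symm m)) false b (s + 1)
        (hb b b0) b1 (by omega) m, fun y hy => ?_⟩
      have k4 := k3 (s + 1) (by omega) (Ne.symm m)
      by_cases m1 : y = b
      · simp [m1, m, k4]
      · by_cases m2 : y = s + 1
        · simp [m2, Ne.symm m, k4, ht]
        · simp [m1, m2, k3 y hy m1]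

/-- PLAN: Euclid on row `s` (it vanishes on the first block).  Slides `Sl t b j` with `b ≠ j` in
the second block add or subtract entry `j` to entry `b` and keep `Met` and `h * Lm`
(`lk_Sl`, `unm_sl`, `sl_Lm` with `o = 0`).  Induct on the sum of the absolute values until one
entry is left; it is `±1` by `unm_surj`; move it to column `s + 1` by two more slides. -/
theorem met_row {s : ℕ} {h : Cob X} {A : ℕ → ℕ → ℤ} (H : Met (s + 1) h A) :
    ∃ (h' : Cob X) (A' : ℕ → ℕ → ℤ) (t : Bool), Met (s + 1) h' A' ∧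
      h' * Lm (s + 1 + (s + 1)) = h * Lm (s + 1 + (s + 1)) ∧
      ∀ y < s + 1 + (s + 1), A' s y = if y = s + 1 then (if t then -1 else 1) else 0 := by
  have k := m1_euc (s := s) (fun ρ => ∃ (h' : Cob X)
    (A' : ℕ → ℕ → ℤ), Met (s + 1) h' A' ∧ h' * Lm (s + 1 + (s + 1)) = h * Lm (s + 1 + (s + 1)) ∧
      A' s = ρ) ?_ ?_ ⟨h, A, H, rfl, rfl⟩
  · obtain ⟨ρ, t, ⟨h', A', k1, k2, k3⟩, k4⟩ := k
    exact ⟨h', A', t, k1, k2, k3 ▸ k4⟩
  · rintro _ ⟨h', A', k1, -, rfl⟩
    obtain ⟨z, hz⟩ := unm_surj k1.2.2.2.1 fun j => if j = s then 1 else 0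
    refine ⟨k1.2.2.2.2 s (by omega), z, ?_⟩
    simpa only [if_true, Nat.zero_add, k1.2.2.1 s] using hz s (by omega)
  · rintro _ ⟨h', A', k1, k2, rfl⟩ t b j b1 b2 j1 bj
    obtain ⟨⟨l1, l2, l3, l4⟩, l5⟩ := m1_sl ⟨k1.1, k1.2.1, k1.2.2.1, k1.2.2.2.1⟩ t b2 j1 bj
    refine ⟨_, _, ⟨l1, l2, l3, l4, fun x hx y hy => ?_⟩, l5.trans k2, funext fun y => ?_⟩
    · simp only [show x ≠ b by omega, show y ≠ b by omega, if_false, false_and, add_zero]
      exact k1.2.2.2.2 x hx y hy
    · simp only [show s ≠ b by omega, if_false, false_and, add_zero]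

/-- PLAN: `bh0` for `h` and `h * G u s * G e s * (It.c t s (s + 1)).op` (`lk_ue`, `lk_op`), `k3`,
`lk_u` twice; for `Unm` of the minor extend a solution by `1` at `s + 1` and a suitable value at
`s`. -/
theorem met_cancel {s : ℕ} {h : Cob X} {A : ℕ → ℕ → ℤ} (t : Bool) (H : Met (s + 1) h A)
    (hr : ∀ y < s + 1 + (s + 1), A s y = if y = s + 1 then (if t then -1 else 1) else 0) :
    Met s (h * G u s * G u s) (fun x y => A (skip s (skip s x)) (skip s (skip s y))) ∧
      Sim 1 (h * Lm (s + 1 + (s + 1))) (h * G u s * G u s * Lm (s + s)) := by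
  obtain ⟨h1, h2, h3, h4, h5⟩ := H
  have e1 : s + 1 + (s + 1) = s + s + 1 + 1 := by omega
  have e2 : skip s s = s + 1 := by simp [skip]
  have u1 : NL 0 (s + s + 1) (h * G u s) := h1.mul (NL.G u (by decide) s (by simp [Gn.ar])
    (by simp only [Gn.ar, Gn.co]; omega))
  refine ⟨⟨u1.mul (NL.G u (by decide) s (by simp [Gn.ar]) (by simp [Gn.ar, Gn.co])),
    lk_u (lk_u (e1 ▸ h2) (by omega)) (by omega), fun x y => h3 _ _, fun Γ _ μ k => ?_,
    fun i hi j hj => ?_⟩, ?_⟩
  · obtain ⟨b, b1, b2⟩ := lk1_ins s μ 1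
    obtain ⟨ν, n1, n2⟩ := lk1_ins s b ((∏ j ∈ Finset.range (s + s),
      μ j ^ A (s + 1) (skip s (skip s j))) ^ (-A (s + 1) s))
    have e3 : ∀ x, ∏ j ∈ Finset.range (s + s + 1 + 1), ν j ^ A x j =
        ν s ^ A x s * ∏ j ∈ Finset.range (s + s), μ j ^ A x (skip s (skip s j)) := fun x => by
      rw [lk1_prod (i := s) (by omega), lk1_prod (i := s) (by omega)]
      simp only [n2, b1, b2, one_zpow, one_mul]
    have e4 : ∀ y < s + s, A s (skip s (skip s y)) = 0 := fun y hy => by
      rw [hr _ (by unfold skip; split_ifs <;> omega), if_neg (by unfold skip; split_ifs <;> omega)]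
    rw [e1] at h4
    have k2 := h4 Γ ν ?_
    · intro j hj
      rw [← b2, ← n2]
      exact k2 _ (by unfold skip; split_ifs <;> omega)
    simp only [Nat.zero_add, e3] at k ⊢
    refine (lk1_all (i := s) (by omega) _).2 ⟨?_, (lk1_all (i := s) (by omega) _).2 ⟨?_, ?_⟩⟩
    · rw [h5 s (by omega) s (by omega), zpow_zero, one_mul]
      exact Finset.prod_eq_one fun j hj => by rw [e4 j (Finset.mem_range.1 hj), zpow_zero]
    · have e5 : -A (s + 1) s * A (s + 1) s = -1 := by
        rw [h3 (s + 1) s, hr _ (by omega), if_pos rfl]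
        cases t <;> rfl
      rw [e2, n1, ← zpow_mul, e5, zpow_neg_one, inv_mul_cancel]
    · intro x hx
      rw [h3 _ s, e4 x hx, zpow_zero, one_mul]
      exact k x hx
  · simp only [skip, hi, hj, if_true]
    exact h5 i (by omega) j (by omega)
  · have k := bh0 h1 (h' := h * G u s * G e s * (It.c t s (s + 1)).op)
      ((u1.mul (NL.G e (by decide) s (by simp only [Gn.ar]; omega)
        (by simp only [Gn.ar, Gn.co]; omega))).mul
        (NL.op _ (by simp only [It.fst]; omega) (by simp only [It.snd]; omega))) h2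
      (lk_congr (lk_op (lk_ue h2 (by omega)) (It.c t s (s + 1)) (by simp only [It.fst]; omega)
        (by simp only [It.snd]; omega)) fun x hx y hy => ?_)
    · refine (k.right _).trans (Sim.of_eq ?_)
      rw [show s + 1 + (s + 1) = s + 2 + s by omega, mul_assoc (h * G u s), mul_assoc (h * G u s),
        k3, ← mul_assoc]
    · by_cases m1 : x = s
      · rw [m1, hr y hy]
        by_cases m2 : y = s + 1 <;> simp [It.lk, m2]
      · by_cases m2 : y = s
        · rw [m2, h3 x s, hr x hx]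
          by_cases m3 : x = s + 1 <;> simp [It.lk, m1, m3]
        · simp [It.lk, m1, m2]

theorem met {s : ℕ} {h : Cob X} {A : ℕ → ℕ → ℤ} (H : Met s h A) : Sim 1 (h * Lm (s + s)) 1 := by
  induction s generalizing h A with
  | zero =>
    rw [Lm_zero, mul_one]
    exact bh0 H.1 (NL.one 0) H.2.1 (lk_congr (lk_Et 0) fun x hx => absurd hx (by omega))
  | succ s ih =>
    obtain ⟨h', A', t, k1, k2, k3⟩ := met_row H
    obtain ⟨k4, k5⟩ := met_cancel t k1 k3
    exact k2 ▸ k5.trans (ih k4)

theorem m1_all {s : ℕ} {h : Cob X} {A : ℕ → ℕ → ℤ} (H : m1_P (s + s) h A) {q : ℕ} (hq : q ≤ s) :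
    ∃ h' : Cob X, m1_P (s + s) h' (fun x y => A x y + (if x < q then A (x + s) y else 0) +
      (if y < q then A x (y + s) else 0) + (if x < q ∧ y < q then A (x + s) (y + s) else 0)) ∧
      h' * Lm (s + s) = h * Lm (s + s) := by
  induction q with
  | zero => exact ⟨h, by simpa using H, rfl⟩
  | succ q ih =>
    obtain ⟨h', k1, k2⟩ := ih (by omega)
    obtain ⟨k3, k4⟩ := m1_sl k1 true (a := q) (j := q + s) (by omega) (by omega) (by omega)
    refine ⟨_, (congrArg (m1_P _ _) (funext₂ fun x y => ?_)).mp k3, k4.trans k2⟩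
    have e : ¬ q + s < q := by omega
    simp only [e, Nat.lt_succ_iff_lt_or_eq, if_true, if_false, false_and, and_false, add_zero, one_mul]
    by_cases m : x = q <;> by_cases m' : y = q <;> simp [m, m'] <;> split_ifs <;> ring

/-- PLAN: `nf`: `x = h * Lm s` with matrix `A` (`lk_ex`, `unm_of_std` with `p = n = 0`); let
`h' = Et s * Ops l` have matrix `-A` (`exists_list s s`), `y = h' * Lm s`;
`x * y = h * up s h' * Lm (s + s)` (`far`, `Lm_add'`); `lk_tensor`; slide `a` over `a + s` for all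
`a < s` (after `q` slides the entry `(x, y)` is the sum of the old entries over `x` and, if
`x < q`, `x + s`, and the same for `y`); `met`. -/
theorem m1 {x : Cob X} (hx : Ty 0 0 x) (hs : Std 0 x) : ∃ y : Cob X, Ty 0 0 y ∧ Sim 1 (x * y) 1 := by
  obtain ⟨s, h, H, rfl⟩ := nf hx
  obtain ⟨A, hS, hA⟩ := lk_ex H
  have hU : Unm A 0 s := unm_of_std (p := 0) (n := 0) hA (by rwa [E_zero, mul_one])
  rw [Nat.zero_add] at H hA
  obtain ⟨l, hl, -, k⟩ := exists_list s s (fun i j => -A i j) fun i j => by rw [hS]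
  have H' : NL 0 s (Et s * Ops l : Cob X) := (NL.Et s).mul (NL.Ops hl)
  have hA' : Lk s (Et s * Ops l : Cob X) fun i j => -A i j :=
    lk_congr (lk_ops (lk_Et s) hl) fun x hx y hy => by rw [k x hx y hy, if_pos (Or.inl hx), zero_add]
  have k0 := m1_all (q := s) ⟨H.mul (H'.at s le_rfl rfl),
    lk_tensor hA hA', fun x y => by simp only [hS x y, hS (x - s), and_comm (a := x < s),
      and_comm (a := s ≤ x)], fun Γ _ μ m => ?_⟩ le_rfl
  · obtain ⟨h', ⟨k1, k2, k3, k4⟩, k5⟩ := k0
    refine ⟨Et s * Ops l * Lm s, H'.ty.mul (Lm_ty s), (Sim.of_eq ?_).trans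
      (met ⟨k1, k2, k3, k4, fun i hi j hj => ?_⟩)⟩
    · have := far (Lm_ty (X := X) s) 0 (Et s * Ops l * Lm s)
      rw [Nat.add_zero, Nat.add_zero, up_zero] at this
      rw [k5, up_zero, mul_assoc, this, Lm_add', map_mul, mul_assoc, mul_assoc]
    · simp [hi, hj, not_le_of_gt hi, not_le_of_gt hj]
  · simp only [Nat.zero_add, Finset.prod_range_add] at m
    have m1 := hU Γ μ fun i hi => by
      rw [← m i (by omega), Finset.prod_eq_one (f := fun j => μ (s + j) ^ _) fun j _ => by
        simp [not_le_of_gt hi], mul_one]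
      exact Finset.prod_congr rfl fun j hj => by simp [hi, Finset.mem_range.1 hj]
    have m2 := hU Γ (fun j => (μ (s + j))⁻¹) fun i hi => by
      rw [← m (s + i) (by omega), Finset.prod_eq_one (f := fun j => μ j ^ _) fun j hj => by
        rw [m1 j (Finset.mem_range.1 hj), one_zpow], one_mul]
      exact Finset.prod_congr rfl fun j hj => by simp
    intro j hj
    rcases lt_or_ge j s with m3 | m3
    · exact m1 j m3
    · have := m2 (j - s) (by omega)
      rwa [inv_eq_one, Nat.add_sub_cancel' m3] at this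

end Pool.Agent.GH
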