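import Pool.Agent.Work.MP_c00b06_gt.Id3

/-! Pairing and node (generated certificates). -/

set_option linter.unusedSimpArgs false
set_option linter.unusedTactic false
set_option linter.unreachableTactic false
set_option linter.unnecessarySeqFocus false

namespace Pool.Agent.GH
open Gn

variable {X : Wd → Wd → Prop}

theorem Iev :
    (G u 0 * Ev : Cob X) =
      G d 0 * G P 1 * Ad * up 1 Ad * Ev := by
  have t := col_sound (X := X) (fun c => List.getD [1] c 0) [Ev, Ad]
    [([0, 0], []), ([0, 0], [0])] []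
    [([0, 0], [(0, .b 0)], [(1, .g .w), (1, .g .S), (0, .g .m), (1, .g .m), (0, .g .l), (0, .g .l)]),
      ([0, 0], [(0, .b 1), (0, .g .l)], [(1, .g .l), (0, .g .u)]),
      ([0, 0, 0], [(1, .g .m), (0, .b 1)], [(0, .g .d), (1, .g .P), (0, .b 1), (1, .b 1), (0, .g .m)]),
      ([0, 0], [(0, .b 1), (0, .g .S)], [(1, .g .S), (0, .b 1)]),
      ([0], [(1, .g .w), (0, .g .d), (1, .g .P), (0, .b 1), (1, .b 1)], [(0, .g .u), (0, .g .w)])]
    [([([], .b 0)], [([0], .g .w), ([0], .g .S), ([], .g .m), ([0], .g .m), ([], .g .l), ([], .g .l)]),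
      ([([], .b 1), ([], .g .l)], [([0], .g .l), ([], .g .u)]),
      ([([0], .g .m), ([], .b 1)], [([], .g .d), ([0], .br true 0 0), ([], .b 1), ([0], .b 1), ([], .g .m)]),
      ([([], .b 1), ([], .g .S)], [([0], .g .S), ([], .b 1)]),
      ([([0], .g .w), ([], .g .d), ([0], .br true 0 0), ([], .b 1), ([0], .b 1)], [([], .g .u), ([], .g .w)])]
    [0, 0, 0] [(0, .g .u), (0, .b 0)]
    [(0, .g .d), (1, .g .P), (0, .b 1), (1, .b 1), (0, .b 0)]
    [([], .g .u), ([], .b 0)]
    [([], .g .d), ([0], .br true 0 0), ([], .b 1), ([0], .b 1), ([], .b 0)]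
    [(1, 0, true, .co 0), (4, 0, false, .far (.g .l) 0 (.g .m)), (0, 0, true, .far (.g .u) 1 (.g .w)),
      (1, 0, true, .far (.g .u) 1 (.g .S)), (2, 0, true, .far (.g .u) 0 (.g .m)),
      (3, 0, true, .far (.g .u) 0 (.g .l)), (3, 0, false, .can true), (4, 0, false, .nr false (.g .l)),
      (0, 0, false, .pu 4 1), (7, 0, true, .far (.g .u) 0 (.g .m)), (8, 0, true, .far (.g .u) 0 (.g .l)),
      (8, 0, false, .co 1), (1, 0, true, .far (.g .u) 2 (.g .w)), (2, 0, true, .far (.g .u) 2 (.g .S)),
      (3, 0, true, .far (.g .u) 1 (.g .m)), (4, 0, true, .far (.g .u) 0 (.g .P)),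
      (5, 0, true, .far (.g .u) 0 (.g .l)), (5, 0, false, .co 1), (7, 0, true, .co 2),
      (4, 1, false, .can true), (3, 1, false, .nl true (.g .m)), (6, 1, true, .can false),
      (2, 1, false, .far (.g .P) 0 (.g .S)), (1, 1, false, .far (.g .P) 0 (.g .w)), (5, 0, true, .co 2),
      (4, 0, false, .far (.g .d) 1 (.g .P)), (3, 0, false, .far (.g .d) 2 (.g .S)),
      (2, 0, false, .far (.g .d) 2 (.g .w)), (1, 0, false, .far (.g .d) 0 (.g .P)),
      (5, 1, false, .far (.g .P) 0 (.g .P)), (4, 1, false, .far (.g .P) 1 (.g .S)),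
      (3, 1, false, .far (.g .P) 1 (.g .w)), (6, 0, false, .far (.b 1) 1 (.g .P)),
      (5, 0, false, .far (.b 1) 2 (.g .S)), (4, 0, false, .far (.b 1) 2 (.g .w)), (0, 0, true, .pu 3 1),
      (2, 2, false, .can true), (3, 1, false, .can true), (1, 1, true, .nr true (.g .d)),
      (4, 2, true, .can false), (3, 1, true, .can false), (2, 0, false, .far (.b 1) 0 (.g .d)),
      (6, 2, false, .can true), (5, 2, false, .nl true (.g .S)), (7, 2, true, .can false),
      (6, 1, false, .co 3), (9, 0, true, .far (.g .l) 0 (.g .d)), (8, 0, true, .far (.g .m) 0 (.g .d)),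
      (7, 1, true, .far (.g .S) 0 (.g .d)), (6, 1, true, .far (.b 1) 0 (.g .d)), (7, 2, false, .can false),
      (8, 3, false, .can false), (6, 2, false, .nl false (.g .d)), (5, 2, true, .can true),
      (4, 2, false, .far (.g .d) 0 (.g .w)), (11, 0, true, .far (.g .l) 1 (.g .P)),
      (10, 0, true, .far (.g .m) 1 (.g .P)), (9, 1, true, .far (.g .S) 1 (.g .P)),
      (8, 1, true, .far (.b 1) 1 (.g .P)), (7, 2, true, .far (.g .P) 0 (.g .P)),
      (5, 3, false, .nr false (.g .w)), (7, 3, true, .can false), (6, 4, true, .can false),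
      (3, 1, false, .pu 3 1), (10, 0, true, .far (.g .l) 0 (.b 1)), (9, 0, true, .far (.g .m) 0 (.b 1)),
      (8, 1, true, .far (.g .S) 0 (.b 1)), (4, 1, true, .far (.g .d) 0 (.g .w)), (4, 1, true, .co 4),
      (4, 1, false, .far (.g .w) 0 (.g .u)), (3, 1, false, .far (.g .w) 0 (.g .d)),
      (5, 1, false, .far (.g .S) 1 (.g .u)), (4, 1, false, .far (.g .S) 1 (.g .d)),
      (6, 0, false, .far (.g .m) 1 (.g .u)), (5, 0, false, .far (.g .m) 1 (.g .d)),
      (7, 0, false, .far (.g .l) 1 (.g .u)), (6, 0, false, .far (.g .l) 1 (.g .d)), (7, 1, true, .pu 4 1),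
      (6, 0, true, .far (.g .l) 1 (.b 1)), (5, 0, true, .far (.g .m) 1 (.b 1)),
      (4, 1, true, .far (.g .S) 1 (.b 1)), (3, 1, true, .far (.g .w) 0 (.b 1)),
      (7, 0, true, .far (.g .l) 0 (.g .m)), (4, 0, false, .co 0)]
    (by decide +kernel) rfl
    ⟨Ty.cast (Ev_ty) (by simp only [W, List.getD_cons_zero, List.getD_cons_succ] <;> omega) (by simp only [W, List.getD_cons_zero, List.getD_cons_succ] <;> omega),
      Ty.cast (Ad_ty) (by simp only [W, List.getD_cons_zero, List.getD_cons_succ] <;> omega) (by simp only [W, List.getD_cons_zero, List.getD_cons_succ] <;> omega),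
      trivial⟩ trivial
    ⟨by have t := Ev_def (X := X); simp only [ev2, val, W, List.getD_cons_zero, List.getD_cons_succ, up_G, up_zero, up_up, map_mul, map_one, B_one_one, cr_true, cr_false, mul_one, one_mul, Nat.add_zero, Nat.zero_add, mul_assoc] at t ⊢; (try ring_nf at t); (try ring_nf); exact t,
      by have t := Il (X := X); simp only [ev2, val, W, List.getD_cons_zero, List.getD_cons_succ, up_G, up_zero, up_up, map_mul, map_one, B_one_one, cr_true, cr_false, mul_one, one_mul, Nat.add_zero, Nat.zero_add, mul_assoc] at t ⊢; (try ring_nf at t); (try ring_nf); exact t,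
      by have t := Im (X := X); simp only [ev2, val, W, List.getD_cons_zero, List.getD_cons_succ, up_G, up_zero, up_up, map_mul, map_one, B_one_one, cr_true, cr_false, mul_one, one_mul, Nat.add_zero, Nat.zero_add, mul_assoc] at t ⊢; (try ring_nf at t); (try ring_nf); exact t,
      by have t := IS (X := X); simp only [ev2, val, W, List.getD_cons_zero, List.getD_cons_succ, up_G, up_zero, up_up, map_mul, map_one, B_one_one, cr_true, cr_false, mul_one, one_mul, Nat.add_zero, Nat.zero_add, mul_assoc] at t ⊢; (try ring_nf at t); (try ring_nf); exact t,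
      by have t := Iw (X := X); simp only [ev2, val, W, List.getD_cons_zero, List.getD_cons_succ, up_G, up_zero, up_up, map_mul, map_one, B_one_one, cr_true, cr_false, mul_one, one_mul, Nat.add_zero, Nat.zero_add, mul_assoc] at t ⊢; (try ring_nf at t); (try ring_nf); exact t,
      trivial⟩
  simp only [ev2, val, W, List.getD_cons_zero, List.getD_cons_succ, up_G, up_zero, up_up, map_mul, map_one, B_one_one, cr_true, cr_false, mul_one, one_mul, Nat.add_zero, Nat.zero_add, mul_assoc] at t ⊢
  (try ring_nf at t)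
  (try ring_nf)
  exact t

theorem AdEv :
    (G Q 0 * G T 1 * up 1 Ad * Ev : Cob X) =
      Ad * Ev := by
  have t := col_sound (X := X) (fun c => List.getD [1] c 0) [Ad, Ev]
    [([0, 0], [0]), ([0, 0], [])] []
    [([0, 0, 0], [(0, .g .u), (0, .b 1)], [(0, .g .d), (1, .g .P), (0, .b 0), (1, .b 0), (0, .b 1)]),
      ([0, 0, 0], [(0, .g .m), (0, .b 0)], [(1, .b 0), (0, .b 0)]),
      ([0, 0], [(0, .g .d), (1, .b 0)], [(0, .g .d), (1, .g .P), (0, .b 0), (0, .g .P)]),
      ([0], [(0, .g .d), (0, .g .Q), (1, .g .T), (0, .g .m)], [(0, .g .u), (0, .g .e)]),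
      ([0], [(0, .g .e), (0, .b 0)], [])]
    [([([], .g .u), ([], .b 1)], [([], .g .d), ([0], .br true 0 0), ([], .b 0), ([0], .b 0), ([], .b 1)]),
      ([([], .g .m), ([], .b 0)], [([0], .b 0), ([], .b 0)]),
      ([([], .g .d), ([0], .b 0)], [([], .g .d), ([0], .br true 0 0), ([], .b 0), ([], .br true 0 0)]),
      ([([], .g .d), ([], .br false 0 0), ([0], .g .T), ([], .g .m)], [([], .g .u), ([], .g .e)]),
      ([([], .g .e), ([], .b 0)], [])]
    [0, 0, 0] [(0, .g .Q), (1, .g .T), (1, .b 0), (0, .b 1)]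
    [(0, .b 0), (0, .b 1)]
    [([], .br false 0 0), ([0], .g .T), ([0], .b 0), ([], .b 1)]
    [([], .b 0), ([], .b 1)]
    [(0, 0, false, .pu 5 1), (1, 0, false, .can false), (2, 0, false, .nr true (.g .u)),
      (2, 0, true, .far (.g .u) 0 (.g .Q)), (3, 0, true, .far (.g .u) 1 (.g .T)),
      (4, 0, true, .far (.g .u) 1 (.b 0)), (5, 0, true, .co 0), (4, 0, false, .far (.g .d) 1 (.b 0)),
      (5, 1, false, .far (.g .P) 0 (.b 0)), (6, 0, false, .far (.b 0) 1 (.b 0)),
      (3, 0, false, .far (.g .d) 1 (.g .T)), (4, 1, false, .far (.g .P) 0 (.g .T)),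
      (5, 0, false, .far (.b 0) 1 (.g .T)), (2, 0, false, .far (.g .d) 0 (.g .Q)), (7, 1, false, .co 1),
      (3, 1, false, .can true), (4, 0, false, .can true), (2, 0, true, .nr true (.g .d)),
      (1, 0, true, .can false), (5, 1, false, .can true), (6, 2, false, .can true),
      (4, 1, false, .nl true (.g .Q)), (3, 1, true, .can false), (6, 1, true, .can false),
      (5, 0, false, .far (.b 0) 0 (.g .Q)), (2, 0, true, .far (.g .Q) 0 (.g .P)), (6, 0, false, .can true),
      (3, 0, true, .nl false (.b 0)), (4, 0, true, .can false), (0, 0, false, .pu 3 1),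
      (1, 0, true, .far (.g .d) 0 (.g .P)), (2, 0, true, .co 2), (5, 0, true, .can true),
      (1, 0, false, .far (.g .d) 0 (.g .P)), (0, 0, true, .pu 3 1), (2, 2, false, .can true),
      (3, 1, false, .can true), (1, 1, true, .nr true (.g .d)), (4, 2, true, .can false),
      (3, 1, true, .can false), (2, 0, false, .far (.b 0) 0 (.g .d)), (3, 1, true, .co 3),
      (4, 1, true, .co 4), (2, 0, true, .far (.b 0) 0 (.g .u)), (2, 1, false, .nl false (.g .u)),
      (1, 1, true, .can true), (0, 0, true, .pu 5 1)]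
    (by decide +kernel) rfl
    ⟨Ty.cast (Ad_ty) (by simp only [W, List.getD_cons_zero, List.getD_cons_succ] <;> omega) (by simp only [W, List.getD_cons_zero, List.getD_cons_succ] <;> omega),
      Ty.cast (Ev_ty) (by simp only [W, List.getD_cons_zero, List.getD_cons_succ] <;> omega) (by simp only [W, List.getD_cons_zero, List.getD_cons_succ] <;> omega),
      trivial⟩ trivial
    ⟨by have t := Iev (X := X); simp only [ev2, val, W, List.getD_cons_zero, List.getD_cons_succ, up_G, up_zero, up_up, map_mul, map_one, B_one_one, cr_true, cr_false, mul_one, one_mul, Nat.add_zero, Nat.zero_add, mul_assoc] at t ⊢; (try ring_nf at t); (try ring_nf); exact t,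
      by have t := mad (X := X); simp only [ev2, val, W, List.getD_cons_zero, List.getD_cons_succ, up_G, up_zero, up_up, map_mul, map_one, B_one_one, cr_true, cr_false, mul_one, one_mul, Nat.add_zero, Nat.zero_add, mul_assoc] at t ⊢; (try ring_nf at t); (try ring_nf); exact t,
      by have t := H0 (X := X); simp only [ev2, val, W, List.getD_cons_zero, List.getD_cons_succ, up_G, up_zero, up_up, map_mul, map_one, B_one_one, cr_true, cr_false, mul_one, one_mul, Nat.add_zero, Nat.zero_add, mul_assoc] at t ⊢; (try ring_nf at t); (try ring_nf); exact t,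
      by have t := aRT (X := X); simp only [ev2, val, W, List.getD_cons_zero, List.getD_cons_succ, up_G, up_zero, up_up, map_mul, map_one, B_one_one, cr_true, cr_false, mul_one, one_mul, Nat.add_zero, Nat.zero_add, mul_assoc] at t ⊢; (try ring_nf at t); (try ring_nf); exact t,
      by have t := ead (X := X); simp only [ev2, val, W, List.getD_cons_zero, List.getD_cons_succ, up_G, up_zero, up_up, map_mul, map_one, B_one_one, cr_true, cr_false, mul_one, one_mul, Nat.add_zero, Nat.zero_add, mul_assoc] at t ⊢; (try ring_nf at t); (try ring_nf); exact t,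
      trivial⟩
  simp only [ev2, val, W, List.getD_cons_zero, List.getD_cons_succ, up_G, up_zero, up_up, map_mul, map_one, B_one_one, cr_true, cr_false, mul_one, one_mul, Nat.add_zero, Nat.zero_add, mul_assoc] at t ⊢
  (try ring_nf at t)
  (try ring_nf)
  exact t

theorem evQ1 :
    (G w 0 * G Q 1 * G T 2 * G T 2 * up 1 Ev : Cob X) =
      1 := by
  have t := col_sound (X := X) (fun c => List.getD [1] c 0) [Ev]
    [([0, 0], [])] []
    [([], [(0, .g .w), (0, .g .T)], [(0, .g .w), (1, .g .T)]),
      ([], [(0, .g .w), (0, .g .P)], [(0, .g .w), (0, .g .T), (0, .g .T)]),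
      ([0], [(1, .g .w), (0, .b 0)], [])]
    [([([], .g .w), ([], .g .T)], [([], .g .w), ([0], .g .T)]),
      ([([], .g .w), ([], .br true 0 0)], [([], .g .w), ([], .g .T), ([], .g .T)]),
      ([([0], .g .w), ([], .b 0)], [])]
    [0] [(0, .g .w), (1, .g .Q), (2, .g .T), (2, .g .T), (1, .b 0)]
    []
    [([], .g .w), ([0], .br false 0 0), ([0, 0], .g .T), ([0, 0], .g .T), ([0], .b 0)]
    []
    [(1, 1, false, .can false), (2, 0, false, .can false), (0, 0, true, .nr false (.g .w)),
      (2, 1, true, .can true), (1, 0, true, .far (.g .P) 0 (.g .T)), (0, 1, false, .co 0),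
      (2, 0, true, .far (.g .P) 0 (.g .T)), (1, 1, true, .far (.g .T) 0 (.g .T)), (0, 1, false, .co 0),
      (0, 1, false, .co 1), (3, 0, false, .nl false (.b 0)), (2, 0, true, .can true),
      (1, 1, true, .can true), (0, 0, true, .co 2)]
    (by decide +kernel) rfl
    ⟨Ty.cast (Ev_ty) (by simp only [W, List.getD_cons_zero, List.getD_cons_succ] <;> omega) (by simp only [W, List.getD_cons_zero, List.getD_cons_succ] <;> omega),
      trivial⟩ trivial
    ⟨by have t := wT (X := X); simp only [ev2, val, W, List.getD_cons_zero, List.getD_cons_succ, up_G, up_zero, up_up, map_mul, map_one, B_one_one, cr_true, cr_false, mul_one, one_mul, Nat.add_zero, Nat.zero_add, mul_assoc] at t ⊢; (try ring_nf at t); (try ring_nf); exact t,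
      by have t := wP (X := X); simp only [ev2, val, W, List.getD_cons_zero, List.getD_cons_succ, up_G, up_zero, up_up, map_mul, map_one, B_one_one, cr_true, cr_false, mul_one, one_mul, Nat.add_zero, Nat.zero_add, mul_assoc] at t ⊢; (try ring_nf at t); (try ring_nf); exact t,
      by have t := zL (X := X); simp only [ev2, val, W, List.getD_cons_zero, List.getD_cons_succ, up_G, up_zero, up_up, map_mul, map_one, B_one_one, cr_true, cr_false, mul_one, one_mul, Nat.add_zero, Nat.zero_add, mul_assoc] at t ⊢; (try ring_nf at t); (try ring_nf); exact t,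
      trivial⟩
  simp only [ev2, val, W, List.getD_cons_zero, List.getD_cons_succ, up_G, up_zero, up_up, map_mul, map_one, B_one_one, cr_true, cr_false, mul_one, one_mul, Nat.add_zero, Nat.zero_add, mul_assoc] at t ⊢
  (try ring_nf at t)
  (try ring_nf)
  exact t

theorem evQ :
    (G Q 0 * G T 1 * G T 1 * Ev : Cob X) =
      Ev := by
  have t := col_sound (X := X) (fun c => List.getD [1] c 0) [Ev]
    [([0, 0], [])] []
    [([0], [(1, .g .w), (0, .b 0)], []),
      ([0], [(0, .g .w), (1, .g .Q), (2, .g .T), (2, .g .T), (1, .b 0)], [])]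
    [([([0], .g .w), ([], .b 0)], []),
      ([([], .g .w), ([0], .br false 0 0), ([0, 0], .g .T), ([0, 0], .g .T), ([0], .b 0)], [])]
    [0, 0] [(0, .g .Q), (1, .g .T), (1, .g .T), (0, .b 0)]
    [(0, .b 0)]
    [([], .br false 0 0), ([0], .g .T), ([0], .g .T), ([], .b 0)]
    [([], .b 0)]
    [(0, 0, false, .co 0), (1, 0, true, .far (.b 0) 0 (.g .Q)), (2, 0, true, .far (.b 0) 1 (.g .T)),
      (3, 0, true, .far (.b 0) 1 (.g .T)), (4, 0, true, .far (.b 0) 0 (.b 0)), (0, 1, true, .co 1)]
    (by decide +kernel) rfl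
    ⟨Ty.cast (Ev_ty) (by simp only [W, List.getD_cons_zero, List.getD_cons_succ] <;> omega) (by simp only [W, List.getD_cons_zero, List.getD_cons_succ] <;> omega),
      trivial⟩ trivial
    ⟨by have t := zL (X := X); simp only [ev2, val, W, List.getD_cons_zero, List.getD_cons_succ, up_G, up_zero, up_up, map_mul, map_one, B_one_one, cr_true, cr_false, mul_one, one_mul, Nat.add_zero, Nat.zero_add, mul_assoc] at t ⊢; (try ring_nf at t); (try ring_nf); exact t,
      by have t := evQ1 (X := X); simp only [ev2, val, W, List.getD_cons_zero, List.getD_cons_succ, up_G, up_zero, up_up, map_mul, map_one, B_one_one, cr_true, cr_false, mul_one, one_mul, Nat.add_zero, Nat.zero_add, mul_assoc] at t ⊢; (try ring_nf at t); (try ring_nf); exact t,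
      trivial⟩
  simp only [ev2, val, W, List.getD_cons_zero, List.getD_cons_succ, up_G, up_zero, up_up, map_mul, map_one, B_one_one, cr_true, cr_false, mul_one, one_mul, Nat.add_zero, Nat.zero_add, mul_assoc] at t ⊢
  (try ring_nf at t)
  (try ring_nf)
  exact t

theorem adYl :
    (Y : Cob X) =
      G d 1 * G d 1 * G d 1 * G P 2 * G S 2 * G m 1 * Ev * G S 1 * G m 0 := by
  have t := col_sound (X := X) (fun c => List.getD [1] c 0) [Y, Ev, Ad]
    [([0, 0], [0]), ([0, 0], []), ([0, 0], [0])] []
    [([0, 0], [(0, .b 0)], [(1, .g .d), (0, .b 2), (1, .g .S), (0, .g .m)]),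
      ([0, 0], [(0, .b 2)], [(1, .g .d), (1, .g .d), (2, .g .P), (2, .g .S), (1, .g .m), (0, .b 1)])]
    [([([], .b 0)], [([0], .g .d), ([], .b 2), ([0], .g .S), ([], .g .m)]),
      ([([], .b 2)], [([0], .g .d), ([0], .g .d), ([0, 0], .br true 0 0), ([0, 0], .g .S), ([0], .g .m), ([], .b 1)])]
    [0, 0] [(0, .b 0)]
    [(1, .g .d), (1, .g .d), (1, .g .d), (2, .g .P), (2, .g .S), (1, .g .m), (0, .b 1), (1, .g .S), (0, .g .m)]
    [([], .b 0)]
    [([0], .g .d), ([0], .g .d), ([0], .g .d), ([0, 0], .br true 0 0), ([0, 0], .g .S), ([0], .g .m), ([], .b 1), ([0], .g .S), ([], .g .m)]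
    [(0, 0, true, .co 0), (1, 0, true, .co 1)]
    (by decide +kernel) rfl
    ⟨Ty.cast (Y_ty) (by simp only [W, List.getD_cons_zero, List.getD_cons_succ] <;> omega) (by simp only [W, List.getD_cons_zero, List.getD_cons_succ] <;> omega),
      Ty.cast (Ev_ty) (by simp only [W, List.getD_cons_zero, List.getD_cons_succ] <;> omega) (by simp only [W, List.getD_cons_zero, List.getD_cons_succ] <;> omega),
      Ty.cast (Ad_ty) (by simp only [W, List.getD_cons_zero, List.getD_cons_succ] <;> omega) (by simp only [W, List.getD_cons_zero, List.getD_cons_succ] <;> omega),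
      trivial⟩ trivial
    ⟨by have t := Yad (X := X); simp only [ev2, val, W, List.getD_cons_zero, List.getD_cons_succ, up_G, up_zero, up_up, map_mul, map_one, B_one_one, cr_true, cr_false, mul_one, one_mul, Nat.add_zero, Nat.zero_add, mul_assoc] at t ⊢; (try ring_nf at t); (try ring_nf); exact t,
      by have t := adco (X := X); simp only [ev2, val, W, List.getD_cons_zero, List.getD_cons_succ, up_G, up_zero, up_up, map_mul, map_one, B_one_one, cr_true, cr_false, mul_one, one_mul, Nat.add_zero, Nat.zero_add, mul_assoc] at t ⊢; (try ring_nf at t); (try ring_nf); exact t,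
      trivial⟩
  simp only [ev2, val, W, List.getD_cons_zero, List.getD_cons_succ, up_G, up_zero, up_up, map_mul, map_one, B_one_one, cr_true, cr_false, mul_one, one_mul, Nat.add_zero, Nat.zero_add, mul_assoc] at t ⊢
  (try ring_nf at t)
  (try ring_nf)
  exact t

theorem CY3 :
    (Y * Ev : Cob X) =
      G T 0 * G T 1 * G S 2 * G Q 0 * up 1 Y * Ev := by
  have t := col_sound (X := X) (fun c => List.getD [1] c 0) [Y, Ev]
    [([0, 0], [0]), ([0, 0], [])] []
    [
      ([0, 0], [(0, .b 0)], [(0, .g .d), (2, .g .d), (1, .g .P), (2, .g .S), (3, .g .S), (0, .g .m), (0, .g .m), (0, .g .m)]),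
      ([0, 0, 0], [(0, .g .m), (0, .b 1)], [(2, .g .d), (1, .b 1), (0, .b 1)]),
      ([0, 0], [(0, .g .S), (0, .b 1)], [(1, .g .S), (0, .b 1)]),
      ([0, 0, 0], [(1, .g .m), (0, .b 1)], [(0, .g .d), (1, .b 1), (0, .b 1)]),
      ([0, 0], [(0, .g .m), (0, .g .T)], [(0, .g .Q), (0, .g .T), (1, .g .T), (0, .g .m)]),
      ([0, 0], [(0, .g .T), (0, .b 1)], [(1, .g .T), (0, .b 1)]),
      ([0], [(0, .g .S), (0, .g .d)], [(0, .g .d), (0, .g .P), (0, .g .S), (1, .g .S)]),
      ([0, 0], [(0, .b 0)], [(1, .g .d), (1, .g .d), (1, .g .d), (2, .g .P), (2, .g .S), (1, .g .m), (0, .b 1), (1, .g .S), (0, .g .m)])]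
    [
      ([([], .b 0)], [([], .g .d), ([0, 0], .g .d), ([0], .br true 0 0), ([0, 0], .g .S), ([0, 0, 0], .g .S), ([], .g .m), ([], .g .m), ([], .g .m)]),
      ([([], .g .m), ([], .b 1)], [([0, 0], .g .d), ([0], .b 1), ([], .b 1)]),
      ([([], .g .S), ([], .b 1)], [([0], .g .S), ([], .b 1)]),
      ([([0], .g .m), ([], .b 1)], [([], .g .d), ([0], .b 1), ([], .b 1)]),
      ([([], .g .m), ([], .g .T)], [([], .br false 0 0), ([], .g .T), ([0], .g .T), ([], .g .m)]),
      ([([], .g .T), ([], .b 1)], [([0], .g .T), ([], .b 1)]),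
      ([([], .g .S), ([], .g .d)], [([], .g .d), ([], .br true 0 0), ([], .g .S), ([0], .g .S)]),
      ([([], .b 0)], [([0], .g .d), ([0], .g .d), ([0], .g .d), ([0, 0], .br true 0 0), ([0, 0], .g .S), ([0], .g .m), ([], .b 1), ([0], .g .S), ([], .g .m)])]
    [0, 0, 0] [(0, .b 0), (0, .b 1)]
    [(0, .g .T), (1, .g .T), (2, .g .S), (0, .g .Q), (1, .b 0), (0, .b 1)]
    [([], .b 0), ([], .b 1)]
    [([], .g .T), ([0], .g .T), ([0, 0], .g .S), ([], .br false 0 0), ([0], .b 0), ([], .b 1)]
    [(0, 0, true, .co 0), (4, 0, false, .far (.g .m) 1 (.g .S)), (3, 0, false, .far (.g .m) 0 (.g .S)),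
      (5, 0, false, .far (.g .m) 0 (.g .S)), (7, 0, true, .co 1), (5, 0, true, .far (.g .m) 0 (.g .S)),
      (6, 0, true, .far (.g .m) 1 (.g .d)), (7, 0, true, .far (.g .m) 0 (.b 1)), (8, 0, true, .co 1),
      (3, 0, true, .far (.g .m) 0 (.g .S)), (4, 0, true, .far (.g .m) 1 (.g .S)),
      (5, 0, true, .far (.g .m) 2 (.g .d)), (6, 0, true, .far (.g .m) 1 (.b 1)),
      (7, 0, true, .far (.g .m) 1 (.g .d)), (8, 0, true, .far (.g .m) 0 (.b 1)), (9, 0, true, .co 1),
      (6, 3, true, .far (.b 1) 0 (.g .d)), (5, 4, false, .pu 3 1), (8, 2, true, .far (.b 1) 0 (.g .d)),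
      (7, 3, true, .far (.b 1) 1 (.g .d)), (6, 4, true, .far (.g .d) 0 (.g .d)), (5, 4, false, .pu 3 1),
      (3, 2, true, .far (.g .S) 0 (.g .S)), (4, 2, true, .far (.g .S) 1 (.g .d)),
      (5, 2, true, .far (.g .S) 1 (.g .d)), (6, 2, true, .far (.g .S) 1 (.g .d)),
      (7, 2, true, .far (.g .S) 0 (.b 1)), (8, 2, true, .co 2), (3, 3, true, .far (.g .S) 0 (.g .d)),
      (4, 3, true, .far (.g .S) 0 (.g .d)), (5, 3, true, .far (.g .S) 0 (.g .d)), (6, 3, true, .co 2),
      (9, 1, false, .nl false (.b 1)), (2, 1, true, .far (.g .P) 1 (.g .d)),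
      (3, 1, true, .far (.g .P) 1 (.g .d)), (4, 1, true, .far (.g .P) 1 (.g .d)),
      (5, 1, true, .far (.g .P) 1 (.g .S)), (6, 1, true, .far (.g .P) 0 (.b 1)),
      (7, 1, true, .far (.g .P) 0 (.g .S)), (8, 1, true, .can true), (0, 0, true, .far (.g .d) 0 (.g .d)),
      (1, 0, true, .far (.g .d) 2 (.g .d)), (2, 0, true, .far (.g .d) 2 (.g .d)),
      (3, 0, true, .far (.g .d) 2 (.g .d)), (4, 0, true, .far (.g .d) 2 (.g .S)),
      (5, 0, true, .far (.g .d) 1 (.b 1)), (6, 0, true, .far (.g .d) 1 (.g .S)),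
      (7, 0, true, .far (.g .d) 0 (.g .Q)), (9, 1, true, .far (.b 1) 0 (.b 1)),
      (8, 0, true, .far (.g .d) 1 (.b 1)), (9, 0, false, .co 3), (8, 1, false, .nl true (.b 1)),
      (7, 1, true, .can false), (0, 1, true, .far (.g .d) 0 (.g .d)), (1, 1, true, .far (.g .d) 0 (.g .d)),
      (2, 1, true, .far (.g .d) 0 (.g .d)), (3, 1, true, .far (.g .d) 0 (.g .S)),
      (5, 2, true, .far (.b 1) 0 (.g .S)), (4, 1, true, .far (.g .d) 1 (.g .S)),
      (6, 2, true, .far (.b 1) 0 (.g .P)), (5, 1, true, .far (.g .d) 1 (.g .P)), (6, 1, false, .co 3),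
      (0, 2, true, .pu 3 1), (1, 2, false, .far (.g .d) 0 (.g .d)), (2, 2, false, .far (.g .S) 1 (.g .d)),
      (3, 3, false, .far (.g .S) 0 (.g .d)), (0, 2, true, .pu 3 1), (1, 2, false, .far (.g .S) 0 (.g .d)),
      (4, 2, false, .can true), (3, 2, false, .nl true (.g .S)), (3, 2, false, .can true),
      (4, 3, false, .can true), (2, 2, false, .nl true (.g .d)), (5, 2, true, .can false),
      (4, 2, false, .far (.g .S) 0 (.g .Q)), (6, 2, true, .far (.g .Q) 0 (.g .d)),
      (8, 3, false, .can true), (9, 2, false, .can true), (7, 2, true, .nr true (.g .Q)),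
      (11, 3, true, .can false), (9, 4, false, .can true), (8, 2, true, .far (.g .P) 0 (.g .P)),
      (5, 3, false, .nr false (.g .d)), (7, 3, true, .can false), (6, 4, true, .can false),
      (11, 1, true, .far (.b 1) 0 (.g .m)), (10, 2, true, .far (.g .m) 0 (.g .m)),
      (9, 2, true, .far (.g .Q) 0 (.g .m)), (10, 3, false, .can true), (7, 3, false, .nr false (.g .m)),
      (8, 3, true, .can false), (1, 2, false, .can true), (2, 2, true, .nl false (.g .S)),
      (3, 2, true, .can false), (2, 2, false, .far (.g .d) 0 (.g .S)),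
      (3, 2, false, .far (.g .S) 1 (.g .S)), (4, 3, false, .far (.g .d) 0 (.g .S)),
      (5, 2, false, .far (.g .P) 1 (.g .S)), (6, 3, false, .far (.g .m) 0 (.g .S)),
      (3, 2, true, .far (.g .S) 0 (.g .d)), (4, 2, false, .can true), (5, 2, true, .nl false (.g .S)),
      (6, 2, true, .can false), (10, 3, false, .can true), (11, 2, false, .can true),
      (12, 3, false, .can true), (8, 2, false, .nr false (.g .P)), (10, 2, true, .can false),
      (9, 3, true, .can false), (7, 2, false, .far (.g .P) 0 (.g .S)), (13, 2, false, .can true),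
      (10, 2, true, .nl false (.g .m)), (11, 2, true, .can false), (7, 2, true, .far (.g .P) 0 (.g .S)),
      (6, 3, true, .far (.g .m) 0 (.g .S)), (5, 3, true, .far (.g .S) 1 (.g .S)),
      (4, 2, true, .far (.g .P) 1 (.g .S)), (3, 3, true, .far (.g .d) 0 (.g .S)),
      (2, 2, true, .far (.g .d) 0 (.g .S)), (11, 1, false, .can true), (12, 1, true, .nl false (.b 1)),
      (12, 0, false, .far (.b 1) 0 (.b 1)), (10, 1, false, .far (.g .P) 0 (.g .m)),
      (11, 0, false, .far (.b 1) 1 (.g .m)), (9, 1, false, .far (.g .P) 0 (.g .Q)),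
      (10, 0, false, .far (.b 1) 1 (.g .Q)), (2, 2, false, .far (.g .d) 0 (.g .S)),
      (3, 3, false, .far (.g .d) 0 (.g .S)), (4, 2, false, .far (.g .P) 1 (.g .S)),
      (5, 3, false, .far (.g .S) 1 (.g .S)), (6, 3, false, .far (.g .m) 0 (.g .S)),
      (7, 2, false, .far (.g .P) 0 (.g .S)), (8, 1, false, .far (.g .P) 1 (.g .S)),
      (9, 0, false, .far (.b 1) 2 (.g .S)), (8, 0, false, .can false),
      (7, 0, false, .far (.g .Q) 0 (.g .P)), (6, 0, false, .far (.g .Q) 1 (.g .m)),
      (5, 0, false, .far (.g .Q) 1 (.g .S)), (4, 0, false, .far (.g .Q) 0 (.g .P)),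
      (3, 0, false, .far (.g .Q) 1 (.g .d)), (2, 0, false, .far (.g .Q) 0 (.g .d)),
      (1, 0, false, .far (.g .Q) 0 (.g .P)), (0, 0, false, .far (.g .Q) 0 (.g .d)),
      (9, 0, true, .nl true (.b 1)), (6, 3, false, .can true), (4, 2, false, .can true),
      (5, 2, false, .nr false (.g .d)), (7, 2, true, .can false), (6, 3, true, .can false),
      (8, 3, false, .can true), (6, 3, true, .nl false (.g .S)), (7, 3, true, .can false),
      (8, 2, false, .can true), (9, 3, false, .can true), (10, 2, false, .nr false (.g .m)),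
      (11, 2, true, .can false), (10, 2, false, .can true), (7, 2, false, .can true),
      (6, 2, false, .far (.g .P) 0 (.g .S)), (8, 2, true, .nl false (.g .P)), (10, 3, true, .can false),
      (9, 2, true, .can false), (14, 2, false, .pu 12 1), (15, 1, false, .can true),
      (13, 1, false, .nr false (.g .S)), (14, 1, true, .can false), (12, 1, false, .far (.g .S) 0 (.g .S)),
      (11, 1, true, .far (.b 1) 0 (.g .S)), (10, 2, true, .far (.g .m) 0 (.g .S)),
      (9, 2, true, .far (.g .Q) 0 (.g .S)), (10, 3, false, .can false), (8, 3, false, .nr true (.g .S)),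
      (9, 3, true, .can true), (7, 3, false, .far (.g .S) 0 (.g .S)), (15, 1, false, .pu 12 1),
      (16, 1, false, .can true), (14, 1, true, .nl false (.g .S)), (15, 1, true, .can false),
      (11, 2, false, .pu 12 1), (12, 2, false, .can true), (10, 2, true, .nl false (.g .S)),
      (11, 2, true, .can false), (13, 3, false, .pu 12 1), (12, 2, true, .far (.g .T) 0 (.g .S)),
      (13, 2, false, .can true), (11, 2, false, .nr false (.g .S)), (12, 2, true, .can false),
      (10, 2, false, .far (.g .S) 0 (.g .S)), (9, 2, false, .far (.g .S) 0 (.g .P)),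
      (8, 2, false, .far (.g .S) 1 (.g .S)), (7, 2, false, .far (.g .S) 0 (.g .S)), (19, 1, false, .co 4),
      (20, 0, false, .co 5), (19, 0, false, .far (.g .T) 0 (.g .m)),
      (18, 0, false, .far (.g .T) 1 (.g .S)), (17, 0, false, .far (.g .T) 1 (.g .S)),
      (16, 0, false, .far (.g .T) 0 (.b 1)), (15, 0, false, .far (.g .T) 1 (.g .m)),
      (14, 0, false, .far (.g .T) 2 (.g .T)), (13, 0, false, .far (.g .T) 1 (.g .T)),
      (12, 0, false, .far (.g .T) 1 (.g .Q)), (11, 0, false, .far (.g .T) 2 (.g .S)),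
      (10, 0, false, .far (.g .T) 2 (.g .P)), (9, 0, false, .far (.g .T) 3 (.g .S)),
      (8, 0, false, .far (.g .T) 2 (.g .S)), (7, 0, false, .far (.g .T) 1 (.g .S)),
      (6, 0, false, .far (.g .T) 1 (.g .P)), (5, 0, false, .far (.g .T) 1 (.g .d)),
      (4, 0, false, .far (.g .T) 1 (.g .P)), (3, 0, false, .far (.g .T) 1 (.g .d)),
      (2, 0, false, .far (.g .T) 1 (.g .P)), (1, 0, false, .far (.g .T) 1 (.g .d)),
      (2, 0, false, .can true), (0, 0, true, .nl false (.g .T)), (1, 0, true, .can false),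
      (13, 2, false, .co 4), (14, 1, false, .co 5), (13, 1, false, .far (.g .T) 0 (.g .m)),
      (12, 1, false, .far (.g .T) 1 (.g .S)), (11, 1, false, .far (.g .T) 1 (.g .P)),
      (10, 1, false, .far (.g .T) 2 (.g .S)), (9, 1, false, .far (.g .T) 1 (.g .S)),
      (8, 1, false, .far (.g .T) 0 (.g .S)), (7, 1, false, .far (.g .T) 0 (.g .P)),
      (6, 1, false, .far (.g .T) 0 (.g .d)), (5, 1, false, .far (.g .T) 0 (.g .P)),
      (4, 1, false, .far (.g .T) 0 (.g .d)), (3, 1, false, .far (.g .T) 0 (.g .P)),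
      (2, 1, false, .far (.g .T) 0 (.g .d)), (3, 0, false, .can true), (1, 0, false, .nr false (.g .T)),
      (2, 0, true, .can false), (0, 0, false, .far (.g .T) 0 (.g .T)), (7, 2, false, .co 6),
      (8, 2, true, .far (.g .d) 0 (.g .S)), (5, 2, false, .co 6), (11, 1, true, .far (.b 1) 1 (.g .S)),
      (10, 2, true, .far (.g .m) 1 (.g .S)), (9, 3, true, .far (.g .S) 1 (.g .S)),
      (8, 3, true, .far (.g .P) 0 (.g .S)), (7, 2, true, .far (.g .d) 1 (.g .S)),
      (6, 2, true, .far (.g .d) 0 (.g .S)), (3, 2, false, .co 6), (4, 1, false, .co 7),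
      (2, 0, true, .far (.g .Q) 0 (.g .S))]
    (by decide +kernel) rfl
    ⟨Ty.cast (Y_ty) (by simp only [W, List.getD_cons_zero, List.getD_cons_succ] <;> omega) (by simp only [W, List.getD_cons_zero, List.getD_cons_succ] <;> omega),
      Ty.cast (Ev_ty) (by simp only [W, List.getD_cons_zero, List.getD_cons_succ] <;> omega) (by simp only [W, List.getD_cons_zero, List.getD_cons_succ] <;> omega),
      trivial⟩ trivial
    ⟨by have t := Y_def (X := X); simp only [ev2, val, W, List.getD_cons_zero, List.getD_cons_succ, up_G, up_zero, up_up, map_mul, map_one, B_one_one, cr_true, cr_false, mul_one, one_mul, Nat.add_zero, Nat.zero_add, mul_assoc] at t ⊢; (try ring_nf at t); (try ring_nf); exact t,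
      by have t := mev0 (X := X); simp only [ev2, val, W, List.getD_cons_zero, List.getD_cons_succ, up_G, up_zero, up_up, map_mul, map_one, B_one_one, cr_true, cr_false, mul_one, one_mul, Nat.add_zero, Nat.zero_add, mul_assoc] at t ⊢; (try ring_nf at t); (try ring_nf); exact t,
      by have t := Sev (X := X); simp only [ev2, val, W, List.getD_cons_zero, List.getD_cons_succ, up_G, up_zero, up_up, map_mul, map_one, B_one_one, cr_true, cr_false, mul_one, one_mul, Nat.add_zero, Nat.zero_add, mul_assoc] at t ⊢; (try ring_nf at t); (try ring_nf); exact t,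
      by have t := mev1 (X := X); simp only [ev2, val, W, List.getD_cons_zero, List.getD_cons_succ, up_G, up_zero, up_up, map_mul, map_one, B_one_one, cr_true, cr_false, mul_one, one_mul, Nat.add_zero, Nat.zero_add, mul_assoc] at t ⊢; (try ring_nf at t); (try ring_nf); exact t,
      by have t := mT (X := X); simp only [ev2, val, W, List.getD_cons_zero, List.getD_cons_succ, up_G, up_zero, up_up, map_mul, map_one, B_one_one, cr_true, cr_false, mul_one, one_mul, Nat.add_zero, Nat.zero_add, mul_assoc] at t ⊢; (try ring_nf at t); (try ring_nf); exact t,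
      by have t := Tev (X := X); simp only [ev2, val, W, List.getD_cons_zero, List.getD_cons_succ, up_G, up_zero, up_up, map_mul, map_one, B_one_one, cr_true, cr_false, mul_one, one_mul, Nat.add_zero, Nat.zero_add, mul_assoc] at t ⊢; (try ring_nf at t); (try ring_nf); exact t,
      by have t := Sd (X := X); simp only [ev2, val, W, List.getD_cons_zero, List.getD_cons_succ, up_G, up_zero, up_up, map_mul, map_one, B_one_one, cr_true, cr_false, mul_one, one_mul, Nat.add_zero, Nat.zero_add, mul_assoc] at t ⊢; (try ring_nf at t); (try ring_nf); exact t,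
      by have t := adYl (X := X); simp only [ev2, val, W, List.getD_cons_zero, List.getD_cons_succ, up_G, up_zero, up_up, map_mul, map_one, B_one_one, cr_true, cr_false, mul_one, one_mul, Nat.add_zero, Nat.zero_add, mul_assoc] at t ⊢; (try ring_nf at t); (try ring_nf); exact t,
      trivial⟩
  simp only [ev2, val, W, List.getD_cons_zero, List.getD_cons_succ, up_G, up_zero, up_up, map_mul, map_one, B_one_one, cr_true, cr_false, mul_one, one_mul, Nat.add_zero, Nat.zero_add, mul_assoc] at t ⊢
  (try ring_nf at t)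
  (try ring_nf)
  exact t

theorem CY2 :
    (Y * Ev : Cob X) =
      G T 0 * G S 1 * up 1 Y * Ev := by
  have t := col_sound (X := X) (fun c => List.getD [1] c 0) [Y, Ev]
    [([0, 0], [0]), ([0, 0], [])] []
    [([0, 0], [(0, .g .T), (0, .b 1)], [(1, .g .T), (0, .b 1)]),
      ([0, 0], [(0, .b 0), (0, .g .S)], [(1, .g .S), (1, .g .S), (0, .g .P), (0, .b 0)]),
      ([0, 0, 0], [(0, .b 0), (0, .b 1)], [(0, .g .T), (1, .g .T), (2, .g .S), (0, .g .Q), (1, .b 0), (0, .b 1)])]
    [([([], .g .T), ([], .b 1)], [([0], .g .T), ([], .b 1)]),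
      ([([], .b 0), ([], .g .S)], [([0], .g .S), ([0], .g .S), ([], .br true 0 0), ([], .b 0)]),
      ([([], .b 0), ([], .b 1)], [([], .g .T), ([0], .g .T), ([0, 0], .g .S), ([], .br false 0 0), ([0], .b 0), ([], .b 1)])]
    [0, 0, 0] [(0, .b 0), (0, .b 1)]
    [(0, .g .T), (1, .g .S), (1, .b 0), (0, .b 1)]
    [([], .b 0), ([], .b 1)]
    [([], .g .T), ([0], .g .S), ([0], .b 0), ([], .b 1)]
    [(1, 0, false, .pu 12 1), (2, 0, true, .co 0), (0, 0, true, .co 1),
      (3, 0, true, .far (.b 0) 0 (.g .T)), (4, 0, true, .co 2), (3, 0, false, .far (.g .T) 1 (.g .T)),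
      (4, 1, false, .far (.g .T) 0 (.g .T)), (6, 0, false, .far (.g .Q) 0 (.g .S)),
      (5, 0, false, .far (.g .Q) 0 (.g .T)), (6, 2, true, .pu 13 1), (2, 0, false, .can true),
      (1, 0, false, .nl true (.g .S)), (3, 0, true, .can false), (2, 0, true, .pu 12 1),
      (1, 0, false, .nr true (.g .T)), (2, 0, true, .can true), (0, 0, false, .far (.g .T) 0 (.g .S))]
    (by decide +kernel) rfl
    ⟨Ty.cast (Y_ty) (by simp only [W, List.getD_cons_zero, List.getD_cons_succ] <;> omega) (by simp only [W, List.getD_cons_zero, List.getD_cons_succ] <;> omega),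
      Ty.cast (Ev_ty) (by simp only [W, List.getD_cons_zero, List.getD_cons_succ] <;> omega) (by simp only [W, List.getD_cons_zero, List.getD_cons_succ] <;> omega),
      trivial⟩ trivial
    ⟨by have t := Tev (X := X); simp only [ev2, val, W, List.getD_cons_zero, List.getD_cons_succ, up_G, up_zero, up_up, map_mul, map_one, B_one_one, cr_true, cr_false, mul_one, one_mul, Nat.add_zero, Nat.zero_add, mul_assoc] at t ⊢; (try ring_nf at t); (try ring_nf); exact t,
      by have t := YS (X := X); simp only [ev2, val, W, List.getD_cons_zero, List.getD_cons_succ, up_G, up_zero, up_up, map_mul, map_one, B_one_one, cr_true, cr_false, mul_one, one_mul, Nat.add_zero, Nat.zero_add, mul_assoc] at t ⊢; (try ring_nf at t); (try ring_nf); exact t,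
      by have t := CY3 (X := X); simp only [ev2, val, W, List.getD_cons_zero, List.getD_cons_succ, up_G, up_zero, up_up, map_mul, map_one, B_one_one, cr_true, cr_false, mul_one, one_mul, Nat.add_zero, Nat.zero_add, mul_assoc] at t ⊢; (try ring_nf at t); (try ring_nf); exact t,
      trivial⟩
  simp only [ev2, val, W, List.getD_cons_zero, List.getD_cons_succ, up_G, up_zero, up_up, map_mul, map_one, B_one_one, cr_true, cr_false, mul_one, one_mul, Nat.add_zero, Nat.zero_add, mul_assoc] at t ⊢
  (try ring_nf at t)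
  (try ring_nf)
  exact t

theorem CY1 :
    (Y * Ev : Cob X) =
      G T 1 * G Q 1 * up 1 Y * Ev := by
  have t := col_sound (X := X) (fun c => List.getD [1] c 0) [Y, Ev]
    [([0, 0], [0]), ([0, 0], [])] []
    [([0, 0, 0], [(0, .b 0), (0, .b 1)], [(0, .g .T), (1, .g .S), (1, .b 0), (0, .b 1)]),
      ([0, 0], [(0, .g .T), (0, .b 1)], [(1, .g .T), (0, .b 1)]),
      ([0, 0], [(0, .b 0), (0, .g .T)], [(0, .g .T), (0, .g .T), (0, .g .Q), (0, .b 0)])]
    [([([], .b 0), ([], .b 1)], [([], .g .T), ([0], .g .S), ([0], .b 0), ([], .b 1)]),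
      ([([], .g .T), ([], .b 1)], [([0], .g .T), ([], .b 1)]),
      ([([], .b 0), ([], .g .T)], [([], .g .T), ([], .g .T), ([], .br false 0 0), ([], .b 0)])]
    [0, 0, 0] [(0, .b 0), (0, .b 1)]
    [(1, .g .T), (1, .g .Q), (1, .b 0), (0, .b 1)]
    [([], .b 0), ([], .b 1)]
    [([0], .g .T), ([0], .br false 0 0), ([0], .b 0), ([], .b 1)]
    [(0, 0, true, .co 0), (0, 0, true, .far (.g .T) 0 (.g .S)), (1, 0, true, .far (.g .T) 0 (.b 0)),
      (2, 0, true, .co 1), (1, 1, true, .co 2), (0, 1, true, .pu 12 1)]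
    (by decide +kernel) rfl
    ⟨Ty.cast (Y_ty) (by simp only [W, List.getD_cons_zero, List.getD_cons_succ] <;> omega) (by simp only [W, List.getD_cons_zero, List.getD_cons_succ] <;> omega),
      Ty.cast (Ev_ty) (by simp only [W, List.getD_cons_zero, List.getD_cons_succ] <;> omega) (by simp only [W, List.getD_cons_zero, List.getD_cons_succ] <;> omega),
      trivial⟩ trivial
    ⟨by have t := CY2 (X := X); simp only [ev2, val, W, List.getD_cons_zero, List.getD_cons_succ, up_G, up_zero, up_up, map_mul, map_one, B_one_one, cr_true, cr_false, mul_one, one_mul, Nat.add_zero, Nat.zero_add, mul_assoc] at t ⊢; (try ring_nf at t); (try ring_nf); exact t,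
      by have t := Tev (X := X); simp only [ev2, val, W, List.getD_cons_zero, List.getD_cons_succ, up_G, up_zero, up_up, map_mul, map_one, B_one_one, cr_true, cr_false, mul_one, one_mul, Nat.add_zero, Nat.zero_add, mul_assoc] at t ⊢; (try ring_nf at t); (try ring_nf); exact t,
      by have t := YT (X := X); simp only [ev2, val, W, List.getD_cons_zero, List.getD_cons_succ, up_G, up_zero, up_up, map_mul, map_one, B_one_one, cr_true, cr_false, mul_one, one_mul, Nat.add_zero, Nat.zero_add, mul_assoc] at t ⊢; (try ring_nf at t); (try ring_nf); exact t,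
      trivial⟩
  simp only [ev2, val, W, List.getD_cons_zero, List.getD_cons_succ, up_G, up_zero, up_up, map_mul, map_one, B_one_one, cr_true, cr_false, mul_one, one_mul, Nat.add_zero, Nat.zero_add, mul_assoc] at t ⊢
  (try ring_nf at t)
  (try ring_nf)
  exact t

theorem TS01 :
    (Y * Ev : Cob X) =
      G T 0 * G T 0 * G Q 0 * G S 2 * Y * Ev := by
  have t := col_sound (X := X) (fun c => List.getD [1] c 0) [Y, Ev]
    [([0, 0], [0]), ([0, 0], [])] []
    [([0, 0], [(0, .b 0)], [(0, .g .T), (0, .g .T), (0, .g .Q), (0, .b 0), (0, .g .S)]),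
      ([0, 0], [(0, .g .S), (0, .b 1)], [(1, .g .S), (0, .b 1)])]
    [([([], .b 0)], [([], .g .T), ([], .g .T), ([], .br false 0 0), ([], .b 0), ([], .g .S)]),
      ([([], .g .S), ([], .b 1)], [([0], .g .S), ([], .b 1)])]
    [0, 0, 0] [(0, .b 0), (0, .b 1)]
    [(0, .g .T), (0, .g .T), (0, .g .Q), (2, .g .S), (0, .b 0), (0, .b 1)]
    [([], .b 0), ([], .b 1)]
    [([], .g .T), ([], .g .T), ([], .br false 0 0), ([0, 0], .g .S), ([], .b 0), ([], .b 1)]
    [(0, 0, true, .co 0), (4, 0, true, .co 1), (3, 0, true, .far (.b 0) 0 (.g .S))]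
    (by decide +kernel) rfl
    ⟨Ty.cast (Y_ty) (by simp only [W, List.getD_cons_zero, List.getD_cons_succ] <;> omega) (by simp only [W, List.getD_cons_zero, List.getD_cons_succ] <;> omega),
      Ty.cast (Ev_ty) (by simp only [W, List.getD_cons_zero, List.getD_cons_succ] <;> omega) (by simp only [W, List.getD_cons_zero, List.getD_cons_succ] <;> omega),
      trivial⟩ trivial
    ⟨by have t := YY (X := X); simp only [ev2, val, W, List.getD_cons_zero, List.getD_cons_succ, up_G, up_zero, up_up, map_mul, map_one, B_one_one, cr_true, cr_false, mul_one, one_mul, Nat.add_zero, Nat.zero_add, mul_assoc] at t ⊢; (try ring_nf at t); (try ring_nf); exact t,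
      by have t := Sev (X := X); simp only [ev2, val, W, List.getD_cons_zero, List.getD_cons_succ, up_G, up_zero, up_up, map_mul, map_one, B_one_one, cr_true, cr_false, mul_one, one_mul, Nat.add_zero, Nat.zero_add, mul_assoc] at t ⊢; (try ring_nf at t); (try ring_nf); exact t,
      trivial⟩
  simp only [ev2, val, W, List.getD_cons_zero, List.getD_cons_succ, up_G, up_zero, up_up, map_mul, map_one, B_one_one, cr_true, cr_false, mul_one, one_mul, Nat.add_zero, Nat.zero_add, mul_assoc] at t ⊢
  (try ring_nf at t)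
  (try ring_nf)
  exact t

theorem TS12 :
    (G T 1 * G Q 1 * G S 0 * G T 1 * Y * Ev : Cob X) =
      Y * Ev := by
  have t := col_sound (X := X) (fun c => List.getD [1] c 0) [Y, Ev]
    [([0, 0], [0]), ([0, 0], [])] []
    [([0, 0, 0], [(0, .b 0), (0, .b 1)], [(0, .g .T), (1, .g .S), (1, .b 0), (0, .b 1)]),
      ([0, 0, 0], [(0, .b 0), (0, .b 1)], [(1, .g .T), (1, .g .Q), (1, .b 0), (0, .b 1)])]
    [([([], .b 0), ([], .b 1)], [([], .g .T), ([0], .g .S), ([0], .b 0), ([], .b 1)]),
      ([([], .b 0), ([], .b 1)], [([0], .g .T), ([0], .br false 0 0), ([0], .b 0), ([], .b 1)])]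
    [0, 0, 0] [(1, .g .T), (1, .g .Q), (0, .g .S), (1, .g .T), (0, .b 0), (0, .b 1)]
    [(0, .b 0), (0, .b 1)]
    [([0], .g .T), ([0], .br false 0 0), ([], .g .S), ([0], .g .T), ([], .b 0), ([], .b 1)]
    [([], .b 0), ([], .b 1)]
    [(1, 0, false, .far (.g .S) 0 (.g .Q)), (0, 0, false, .far (.g .S) 0 (.g .T)), (4, 0, true, .co 0),
      (3, 0, false, .far (.g .T) 0 (.g .T)), (2, 0, false, .far (.g .T) 0 (.g .Q)),
      (1, 0, false, .far (.g .T) 0 (.g .T)), (4, 1, true, .pu 13 1), (0, 0, true, .pu 12 1),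
      (0, 0, false, .co 1)]
    (by decide +kernel) rfl
    ⟨Ty.cast (Y_ty) (by simp only [W, List.getD_cons_zero, List.getD_cons_succ] <;> omega) (by simp only [W, List.getD_cons_zero, List.getD_cons_succ] <;> omega),
      Ty.cast (Ev_ty) (by simp only [W, List.getD_cons_zero, List.getD_cons_succ] <;> omega) (by simp only [W, List.getD_cons_zero, List.getD_cons_succ] <;> omega),
      trivial⟩ trivial
    ⟨by have t := CY2 (X := X); simp only [ev2, val, W, List.getD_cons_zero, List.getD_cons_succ, up_G, up_zero, up_up, map_mul, map_one, B_one_one, cr_true, cr_false, mul_one, one_mul, Nat.add_zero, Nat.zero_add, mul_assoc] at t ⊢; (try ring_nf at t); (try ring_nf); exact t,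
      by have t := CY1 (X := X); simp only [ev2, val, W, List.getD_cons_zero, List.getD_cons_succ, up_G, up_zero, up_up, map_mul, map_one, B_one_one, cr_true, cr_false, mul_one, one_mul, Nat.add_zero, Nat.zero_add, mul_assoc] at t ⊢; (try ring_nf at t); (try ring_nf); exact t,
      trivial⟩
  simp only [ev2, val, W, List.getD_cons_zero, List.getD_cons_succ, up_G, up_zero, up_up, map_mul, map_one, B_one_one, cr_true, cr_false, mul_one, one_mul, Nat.add_zero, Nat.zero_add, mul_assoc] at t ⊢
  (try ring_nf at t)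
  (try ring_nf)
  exact t

theorem mY0 :
    (G m 0 * Y : Cob X) =
      G d 0 * G d 3 * G P 1 * G P 2 * up 1 Y * Ad * up 1 Y * G m 0 := by
  have t := col_sound (X := X) (fun c => List.getD [1] c 0) [Y, Ad]
    [([0, 0], [0]), ([0, 0], [0])] []
    [([0, 0], [(0, .b 0)], [(1, .g .d), (0, .b 1), (1, .g .S), (0, .g .m)]),
      ([0, 0, 0], [(0, .g .m), (0, .b 1)], [(1, .b 1), (0, .b 1)]),
      ([0, 0], [(1, .g .d), (0, .b 0), (0, .g .m)], [(0, .b 1)]),
      ([0, 0, 0], [(1, .g .m), (0, .b 1)], [(0, .g .d), (1, .g .P), (0, .b 1), (1, .b 1), (0, .g .m)])]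
    [([([], .b 0)], [([0], .g .d), ([], .b 1), ([0], .g .S), ([], .g .m)]),
      ([([], .g .m), ([], .b 1)], [([0], .b 1), ([], .b 1)]),
      ([([0], .g .d), ([], .b 0), ([], .g .m)], [([], .b 1)]),
      ([([0], .g .m), ([], .b 1)], [([], .g .d), ([0], .br true 0 0), ([], .b 1), ([0], .b 1), ([], .g .m)])]
    [0, 0, 0] [(0, .g .m), (0, .b 0)]
    [(0, .g .d), (3, .g .d), (1, .g .P), (2, .g .P), (1, .b 0), (0, .b 1), (1, .b 0), (0, .g .m)]
    [([], .g .m), ([], .b 0)]
    [([], .g .d), ([0, 0, 0], .g .d), ([0], .br true 0 0), ([0, 0], .br true 0 0), ([0], .b 0), ([], .b 1), ([0], .b 0), ([], .g .m)]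
    [(1, 0, true, .co 0), (0, 0, true, .far (.g .m) 0 (.g .d)), (1, 0, true, .co 1), (1, 1, false, .co 2),
      (0, 2, true, .pu 3 1), (1, 1, false, .far (.b 0) 0 (.g .d)), (3, 0, true, .co 3),
      (2, 0, false, .far (.g .d) 1 (.g .d)), (1, 0, false, .far (.g .d) 0 (.b 0)),
      (0, 0, false, .far (.g .d) 1 (.g .d)), (3, 1, false, .far (.g .P) 0 (.g .d)),
      (4, 0, false, .far (.b 1) 1 (.g .d)), (7, 0, true, .far (.g .m) 0 (.g .S)), (8, 0, true, .pu 0 3),
      (2, 1, false, .can true), (1, 1, false, .far (.g .P) 0 (.g .d)), (3, 2, false, .can true),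
      (4, 1, false, .nr false (.b 0)), (5, 1, true, .can false), (6, 1, false, .co 0),
      (1, 1, true, .far (.g .P) 0 (.g .d))]
    (by decide +kernel) rfl
    ⟨Ty.cast (Y_ty) (by simp only [W, List.getD_cons_zero, List.getD_cons_succ] <;> omega) (by simp only [W, List.getD_cons_zero, List.getD_cons_succ] <;> omega),
      Ty.cast (Ad_ty) (by simp only [W, List.getD_cons_zero, List.getD_cons_succ] <;> omega) (by simp only [W, List.getD_cons_zero, List.getD_cons_succ] <;> omega),
      trivial⟩ trivial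
    ⟨by have t := Yad (X := X); simp only [ev2, val, W, List.getD_cons_zero, List.getD_cons_succ, up_G, up_zero, up_up, map_mul, map_one, B_one_one, cr_true, cr_false, mul_one, one_mul, Nat.add_zero, Nat.zero_add, mul_assoc] at t ⊢; (try ring_nf at t); (try ring_nf); exact t,
      by have t := mad (X := X); simp only [ev2, val, W, List.getD_cons_zero, List.getD_cons_succ, up_G, up_zero, up_up, map_mul, map_one, B_one_one, cr_true, cr_false, mul_one, one_mul, Nat.add_zero, Nat.zero_add, mul_assoc] at t ⊢; (try ring_nf at t); (try ring_nf); exact t,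
      by have t := adY (X := X); simp only [ev2, val, W, List.getD_cons_zero, List.getD_cons_succ, up_G, up_zero, up_up, map_mul, map_one, B_one_one, cr_true, cr_false, mul_one, one_mul, Nat.add_zero, Nat.zero_add, mul_assoc] at t ⊢; (try ring_nf at t); (try ring_nf); exact t,
      by have t := Im (X := X); simp only [ev2, val, W, List.getD_cons_zero, List.getD_cons_succ, up_G, up_zero, up_up, map_mul, map_one, B_one_one, cr_true, cr_false, mul_one, one_mul, Nat.add_zero, Nat.zero_add, mul_assoc] at t ⊢; (try ring_nf at t); (try ring_nf); exact t,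
      trivial⟩
  simp only [ev2, val, W, List.getD_cons_zero, List.getD_cons_succ, up_G, up_zero, up_up, map_mul, map_one, B_one_one, cr_true, cr_false, mul_one, one_mul, Nat.add_zero, Nat.zero_add, mul_assoc] at t ⊢
  (try ring_nf at t)
  (try ring_nf)
  exact t

theorem QM :
    (G d 0 * G S 1 * up 1 Ad * G m 0 : Cob X) =
      G Q 0 * G m 0 := by
  have t := col_sound (X := X) (fun c => List.getD [1] c 0) [Ad]
    [([0, 0], [0])] []
    [([0, 0], [(0, .g .d), (0, .g .Q), (1, .g .Q), (2, .g .T), (0, .g .m), (0, .g .m)], [(0, .b 0)]),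
      ([0], [(0, .g .S), (0, .g .d)], [(0, .g .d), (0, .g .P), (0, .g .S), (1, .g .S)])]
    [
      ([([], .g .d), ([], .br false 0 0), ([0], .br false 0 0), ([0, 0], .g .T), ([], .g .m), ([], .g .m)], [([], .b 0)]),
      ([([], .g .S), ([], .g .d)], [([], .g .d), ([], .br true 0 0), ([], .g .S), ([0], .g .S)])]
    [0, 0] [(0, .g .d), (1, .g .S), (1, .b 0), (0, .g .m)]
    [(0, .g .Q), (0, .g .m)]
    [([], .g .d), ([0], .g .S), ([0], .b 0), ([], .g .m)]
    [([], .br false 0 0), ([], .g .m)]
    [(2, 1, false, .co 0), (5, 1, false, .far (.g .m) 0 (.g .T)), (1, 1, true, .co 1),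
      (3, 1, true, .far (.g .S) 0 (.g .S)), (5, 1, false, .can false), (4, 1, true, .nr false (.g .S)),
      (6, 1, true, .can true), (6, 2, false, .can false), (5, 2, true, .nr false (.g .S)),
      (7, 2, true, .can true), (6, 1, false, .far (.g .m) 0 (.g .S)), (7, 2, true, .pu 12 1),
      (4, 1, false, .can false), (3, 1, false, .nl false (.g .S)), (2, 1, true, .can true),
      (3, 1, true, .can true), (0, 0, false, .pu 3 1), (5, 0, false, .pu 0 3), (4, 0, false, .pu 0 3),
      (3, 0, false, .far (.g .m) 0 (.g .Q)), (1, 0, true, .pu 11 1), (1, 0, false, .far (.g .e) 0 (.g .u)),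
      (0, 0, false, .far (.g .e) 0 (.g .d)), (1, 1, true, .pu 4 1), (0, 0, true, .far (.g .e) 0 (.g .Q)),
      (1, 0, true, .pu 1 1)]
    (by decide +kernel) rfl
    ⟨Ty.cast (Ad_ty) (by simp only [W, List.getD_cons_zero, List.getD_cons_succ] <;> omega) (by simp only [W, List.getD_cons_zero, List.getD_cons_succ] <;> omega),
      trivial⟩ trivial
    ⟨by have t := adT (X := X); simp only [ev2, val, W, List.getD_cons_zero, List.getD_cons_succ, up_G, up_zero, up_up, map_mul, map_one, B_one_one, cr_true, cr_false, mul_one, one_mul, Nat.add_zero, Nat.zero_add, mul_assoc] at t ⊢; (try ring_nf at t); (try ring_nf); exact t,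
      by have t := Sd (X := X); simp only [ev2, val, W, List.getD_cons_zero, List.getD_cons_succ, up_G, up_zero, up_up, map_mul, map_one, B_one_one, cr_true, cr_false, mul_one, one_mul, Nat.add_zero, Nat.zero_add, mul_assoc] at t ⊢; (try ring_nf at t); (try ring_nf); exact t,
      trivial⟩
  simp only [ev2, val, W, List.getD_cons_zero, List.getD_cons_succ, up_G, up_zero, up_up, map_mul, map_one, B_one_one, cr_true, cr_false, mul_one, one_mul, Nat.add_zero, Nat.zero_add, mul_assoc] at t ⊢
  (try ring_nf at t)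
  (try ring_nf)
  exact t

theorem PS :
    (G w 0 * G S 0 * up 1 Ad * G m 0 : Cob X) =
      G S 0 * G S 0 := by
  have t := col_sound (X := X) (fun c => List.getD [1] c 0) [Ad]
    [([0, 0], [0])] []
    [([0], [(0, .g .d), (0, .g .d), (1, .g .P), (1, .g .S), (0, .g .m)], [(0, .g .w), (1, .b 0)]),
      ([0, 0], [(0, .g .m), (0, .g .S)], [(0, .g .P), (0, .g .S), (1, .g .S), (0, .g .m)])]
    [
      ([([], .g .d), ([], .g .d), ([0], .br true 0 0), ([0], .g .S), ([], .g .m)], [([], .g .w), ([0], .b 0)]),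
      ([([], .g .m), ([], .g .S)], [([], .br true 0 0), ([], .g .S), ([0], .g .S), ([], .g .m)])]
    [0] [(0, .g .w), (0, .g .S), (1, .b 0), (0, .g .m)]
    [(0, .g .S), (0, .g .S)]
    [([], .g .w), ([], .g .S), ([0], .b 0), ([], .g .m)]
    [([], .g .S), ([], .g .S)]
    [(1, 0, true, .far (.g .S) 0 (.b 0)), (0, 0, false, .co 0), (4, 0, true, .co 1),
      (4, 0, false, .can true), (3, 0, false, .nl true (.g .S)), (5, 0, true, .can false),
      (2, 1, false, .can true), (3, 0, false, .can true), (1, 0, true, .nr true (.g .d)),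
      (4, 1, true, .can false), (3, 0, true, .can false), (2, 0, false, .far (.g .S) 0 (.g .d)),
      (3, 0, false, .far (.g .S) 0 (.g .d)), (6, 0, true, .pu 0 3), (4, 1, true, .pu 10 1),
      (4, 1, false, .far (.g .e) 0 (.g .u)), (5, 0, false, .far (.g .m) 0 (.g .u)), (4, 0, true, .pu 2 1),
      (3, 0, true, .far (.g .S) 0 (.g .u)), (2, 0, true, .far (.g .S) 0 (.g .u)),
      (2, 0, false, .nl false (.g .u)), (1, 0, true, .can true), (0, 0, true, .pu 4 1)]
    (by decide +kernel) rfl
    ⟨Ty.cast (Ad_ty) (by simp only [W, List.getD_cons_zero, List.getD_cons_succ] <;> omega) (by simp only [W, List.getD_cons_zero, List.getD_cons_succ] <;> omega),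
      trivial⟩ trivial
    ⟨by have t := CO (X := X); simp only [ev2, val, W, List.getD_cons_zero, List.getD_cons_succ, up_G, up_zero, up_up, map_mul, map_one, B_one_one, cr_true, cr_false, mul_one, one_mul, Nat.add_zero, Nat.zero_add, mul_assoc] at t ⊢; (try ring_nf at t); (try ring_nf); exact t,
      by have t := mS (X := X); simp only [ev2, val, W, List.getD_cons_zero, List.getD_cons_succ, up_G, up_zero, up_up, map_mul, map_one, B_one_one, cr_true, cr_false, mul_one, one_mul, Nat.add_zero, Nat.zero_add, mul_assoc] at t ⊢; (try ring_nf at t); (try ring_nf); exact t,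
      trivial⟩
  simp only [ev2, val, W, List.getD_cons_zero, List.getD_cons_succ, up_G, up_zero, up_up, map_mul, map_one, B_one_one, cr_true, cr_false, mul_one, one_mul, Nat.add_zero, Nat.zero_add, mul_assoc] at t ⊢
  (try ring_nf at t)
  (try ring_nf)
  exact t

theorem SS :
    (G S 0 * G S 0 : Cob X) =
      G V 0 * Ad := by
  have t := col_sound (X := X) (fun c => List.getD [1] c 0) [Ad]
    [([0, 0], [0])] []
    [([0], [(0, .g .w), (0, .g .S), (1, .b 0), (0, .g .m)], [(0, .g .S), (0, .g .S)]),
      ([], [(0, .g .w), (0, .g .S)], [(0, .g .w), (1, .g .S)]),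
      ([], [(0, .g .w)], [(0, .g .V), (1, .g .v), (1, .g .d), (0, .g .m), (2, .g .V), (1, .g .m)]),
      ([0], [(1, .g .V), (0, .g .m), (0, .g .S)], [(0, .g .S), (0, .g .V), (0, .g .m)]),
      ([0], [(0, .g .V), (0, .g .m)], [(1, .g .V), (0, .g .m)]),
      ([0, 0, 0], [(0, .g .m), (0, .b 0)], [(1, .b 0), (0, .b 0)]),
      ([0, 0], [(0, .g .d), (1, .g .S), (1, .b 0), (0, .g .m)], [(0, .g .Q), (0, .g .m)]),
      ([], [(0, .g .V), (0, .g .v), (0, .g .m)], [(0, .g .e)])]
    [([([], .g .w), ([], .g .S), ([0], .b 0), ([], .g .m)], [([], .g .S), ([], .g .S)]),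
      ([([], .g .w), ([], .g .S)], [([], .g .w), ([0], .g .S)]),
      ([([], .g .w)], [([], .g .V), ([0], .g .v), ([0], .g .d), ([], .g .m), ([0, 0], .g .V), ([0], .g .m)]),
      ([([0], .g .V), ([], .g .m), ([], .g .S)], [([], .g .S), ([], .g .V), ([], .g .m)]),
      ([([], .g .V), ([], .g .m)], [([0], .g .V), ([], .g .m)]),
      ([([], .g .m), ([], .b 0)], [([0], .b 0), ([], .b 0)]),
      ([([], .g .d), ([0], .g .S), ([0], .b 0), ([], .g .m)], [([], .br false 0 0), ([], .g .m)]),
      ([([], .g .V), ([], .g .v), ([], .g .m)], [([], .g .e)])]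
    [0] [(0, .g .S), (0, .g .S)]
    [(0, .g .V), (0, .b 0)]
    [([], .g .S), ([], .g .S)]
    [([], .g .V), ([], .b 0)]
    [(0, 0, false, .co 0), (0, 0, true, .co 1), (0, 0, true, .co 2), (4, 1, true, .co 3),
      (5, 1, true, .co 4), (6, 1, true, .co 5), (3, 0, true, .far (.g .m) 0 (.g .S)),
      (4, 0, true, .far (.g .m) 1 (.g .V)), (5, 0, true, .far (.g .m) 1 (.b 0)),
      (6, 0, true, .far (.g .m) 0 (.b 0)), (7, 0, true, .pu 0 3), (3, 2, true, .far (.g .S) 0 (.g .V)),
      (2, 1, true, .far (.g .d) 0 (.g .V)), (4, 2, true, .far (.g .S) 0 (.b 0)),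
      (3, 1, true, .far (.g .d) 0 (.b 0)), (4, 1, true, .co 6), (1, 1, true, .far (.g .v) 0 (.g .V)),
      (2, 1, true, .far (.g .v) 0 (.b 0)), (4, 1, false, .can false), (3, 1, true, .nr false (.g .v)),
      (4, 1, true, .can true), (4, 0, false, .pu 0 3), (3, 0, false, .far (.g .m) 0 (.g .v)),
      (4, 0, false, .pu 19 1), (3, 0, false, .far (.g .v) 0 (.g .m)), (2, 0, false, .far (.g .v) 1 (.b 0)),
      (1, 0, false, .far (.g .v) 1 (.g .V)), (0, 0, false, .far (.g .v) 0 (.g .V)), (4, 0, false, .pu 0 3),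
      (3, 0, false, .far (.g .m) 0 (.b 0)), (2, 0, false, .far (.g .m) 0 (.g .V)),
      (0, 0, true, .far (.g .v) 0 (.g .V)), (0, 0, true, .co 7), (0, 0, true, .far (.g .e) 0 (.g .V)),
      (1, 0, true, .far (.g .e) 0 (.b 0)), (2, 0, true, .pu 1 1)]
    (by decide +kernel) rfl
    ⟨Ty.cast (Ad_ty) (by simp only [W, List.getD_cons_zero, List.getD_cons_succ] <;> omega) (by simp only [W, List.getD_cons_zero, List.getD_cons_succ] <;> omega),
      trivial⟩ trivial
    ⟨by have t := PS (X := X); simp only [ev2, val, W, List.getD_cons_zero, List.getD_cons_succ, up_G, up_zero, up_up, map_mul, map_one, B_one_one, cr_true, cr_false, mul_one, one_mul, Nat.add_zero, Nat.zero_add, mul_assoc] at t ⊢; (try ring_nf at t); (try ring_nf); exact t,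
      by have t := wS (X := X); simp only [ev2, val, W, List.getD_cons_zero, List.getD_cons_succ, up_G, up_zero, up_up, map_mul, map_one, B_one_one, cr_true, cr_false, mul_one, one_mul, Nat.add_zero, Nat.zero_add, mul_assoc] at t ⊢; (try ring_nf at t); (try ring_nf); exact t,
      by have t := dV (X := X); simp only [ev2, val, W, List.getD_cons_zero, List.getD_cons_succ, up_G, up_zero, up_up, map_mul, map_one, B_one_one, cr_true, cr_false, mul_one, one_mul, Nat.add_zero, Nat.zero_add, mul_assoc] at t ⊢; (try ring_nf at t); (try ring_nf); exact t,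
      by have t := VmS2 (X := X); simp only [ev2, val, W, List.getD_cons_zero, List.getD_cons_succ, up_G, up_zero, up_up, map_mul, map_one, B_one_one, cr_true, cr_false, mul_one, one_mul, Nat.add_zero, Nat.zero_add, mul_assoc] at t ⊢; (try ring_nf at t); (try ring_nf); exact t,
      by have t := Vc (X := X); simp only [ev2, val, W, List.getD_cons_zero, List.getD_cons_succ, up_G, up_zero, up_up, map_mul, map_one, B_one_one, cr_true, cr_false, mul_one, one_mul, Nat.add_zero, Nat.zero_add, mul_assoc] at t ⊢; (try ring_nf at t); (try ring_nf); exact t,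
      by have t := mad (X := X); simp only [ev2, val, W, List.getD_cons_zero, List.getD_cons_succ, up_G, up_zero, up_up, map_mul, map_one, B_one_one, cr_true, cr_false, mul_one, one_mul, Nat.add_zero, Nat.zero_add, mul_assoc] at t ⊢; (try ring_nf at t); (try ring_nf); exact t,
      by have t := QM (X := X); simp only [ev2, val, W, List.getD_cons_zero, List.getD_cons_succ, up_G, up_zero, up_up, map_mul, map_one, B_one_one, cr_true, cr_false, mul_one, one_mul, Nat.add_zero, Nat.zero_add, mul_assoc] at t ⊢; (try ring_nf at t); (try ring_nf); exact t,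
      by have t := Vv (X := X); simp only [ev2, val, W, List.getD_cons_zero, List.getD_cons_succ, up_G, up_zero, up_up, map_mul, map_one, B_one_one, cr_true, cr_false, mul_one, one_mul, Nat.add_zero, Nat.zero_add, mul_assoc] at t ⊢; (try ring_nf at t); (try ring_nf); exact t,
      trivial⟩
  simp only [ev2, val, W, List.getD_cons_zero, List.getD_cons_succ, up_G, up_zero, up_up, map_mul, map_one, B_one_one, cr_true, cr_false, mul_one, one_mul, Nat.add_zero, Nat.zero_add, mul_assoc] at t ⊢
  (try ring_nf at t)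
  (try ring_nf)
  exact t

theorem dv :
    (G w 0 * G T 1 : Cob X) =
      G v 0 * G V 1 * G d 1 * G m 0 * G v 2 * G m 1 := by
  have t := col_sound (X := X) (fun c => List.getD [1] c 0) []
    [] []
    [([], [(0, .g .V), (0, .g .v), (0, .g .m)], [(0, .g .e)]),
      ([], [(0, .g .w), (0, .g .T)], [(0, .g .w), (1, .g .T)]),
      ([], [(0, .g .V), (0, .g .d)], [(0, .g .V), (1, .g .w), (1, .g .T), (3, .g .V), (0, .g .m), (1, .g .m)])]
    [([([], .g .V), ([], .g .v), ([], .g .m)], [([], .g .e)]),
      ([([], .g .w), ([], .g .T)], [([], .g .w), ([0], .g .T)]),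
      ([([], .g .V), ([], .g .d)], [([], .g .V), ([0], .g .w), ([0], .g .T), ([0, 0, 0], .g .V), ([], .g .m), ([0], .g .m)])]
    [] [(0, .g .w), (1, .g .T)]
    [(0, .g .v), (1, .g .V), (1, .g .d), (0, .g .m), (2, .g .v), (1, .g .m)]
    [([], .g .w), ([0], .g .T)]
    [([], .g .v), ([0], .g .V), ([0], .g .d), ([], .g .m), ([0, 0], .g .v), ([0], .g .m)]
    [(2, 1, false, .pu 2 1), (2, 2, false, .pu 20 0), (2, 2, false, .far (.g .V) 0 (.g .v)),
      (4, 1, false, .pu 0 3), (3, 1, false, .far (.g .m) 0 (.g .v)), (1, 0, false, .pu 1 1),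
      (0, 0, false, .far (.g .e) 0 (.g .w)), (0, 0, false, .co 0), (0, 0, false, .far (.g .v) 0 (.g .V)),
      (4, 0, true, .far (.g .m) 0 (.g .T)), (3, 1, false, .co 1), (2, 0, true, .far (.g .m) 0 (.g .w)),
      (3, 0, true, .far (.g .m) 0 (.g .T)), (4, 0, true, .pu 0 3), (5, 0, true, .far (.g .m) 1 (.g .V)),
      (6, 0, true, .far (.g .m) 0 (.g .m)), (4, 1, true, .far (.g .m) 1 (.g .V)), (1, 1, false, .co 2)]
    (by decide +kernel) rfl
    trivial trivial
    ⟨by have t := Vv (X := X); simp only [ev2, val, W, List.getD_cons_zero, List.getD_cons_succ, up_G, up_zero, up_up, map_mul, map_one, B_one_one, cr_true, cr_false, mul_one, one_mul, Nat.add_zero, Nat.zero_add, mul_assoc] at t ⊢; (try ring_nf at t); (try ring_nf); exact t,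
      by have t := wT (X := X); simp only [ev2, val, W, List.getD_cons_zero, List.getD_cons_succ, up_G, up_zero, up_up, map_mul, map_one, B_one_one, cr_true, cr_false, mul_one, one_mul, Nat.add_zero, Nat.zero_add, mul_assoc] at t ⊢; (try ring_nf at t); (try ring_nf); exact t,
      by have t := Vd (X := X); simp only [ev2, val, W, List.getD_cons_zero, List.getD_cons_succ, up_G, up_zero, up_up, map_mul, map_one, B_one_one, cr_true, cr_false, mul_one, one_mul, Nat.add_zero, Nat.zero_add, mul_assoc] at t ⊢; (try ring_nf at t); (try ring_nf); exact t,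
      trivial⟩
  simp only [ev2, val, W, List.getD_cons_zero, List.getD_cons_succ, up_G, up_zero, up_up, map_mul, map_one, B_one_one, cr_true, cr_false, mul_one, one_mul, Nat.add_zero, Nat.zero_add, mul_assoc] at t ⊢
  (try ring_nf at t)
  (try ring_nf)
  exact t

theorem vmS2 :
    (G v 1 * G m 0 * G S 0 : Cob X) =
      G S 0 * G v 1 * G m 0 := by
  have t := col_sound (X := X) (fun c => List.getD [1] c 0) []
    [] []
    [([0, 0], [(0, .g .m), (0, .g .S)], [(0, .g .P), (0, .g .S), (1, .g .S), (0, .g .m)])]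
    [([([], .g .m), ([], .g .S)], [([], .br true 0 0), ([], .g .S), ([0], .g .S), ([], .g .m)])]
    [0] [(1, .g .v), (0, .g .m), (0, .g .S)]
    [(0, .g .S), (1, .g .v), (0, .g .m)]
    [([0], .g .v), ([], .g .m), ([], .g .S)]
    [([], .g .S), ([0], .g .v), ([], .g .m)]
    [(1, 0, false, .can true), (0, 0, false, .nl true (.g .v)), (2, 0, true, .co 0),
      (1, 0, true, .can false), (0, 0, true, .pu 22 0), (0, 0, true, .far (.g .v) 0 (.g .S)),
      (1, 0, true, .pu 19 1)]
    (by decide +kernel) rfl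
    trivial trivial
    ⟨by have t := mS (X := X); simp only [ev2, val, W, List.getD_cons_zero, List.getD_cons_succ, up_G, up_zero, up_up, map_mul, map_one, B_one_one, cr_true, cr_false, mul_one, one_mul, Nat.add_zero, Nat.zero_add, mul_assoc] at t ⊢; (try ring_nf at t); (try ring_nf); exact t,
      trivial⟩
  simp only [ev2, val, W, List.getD_cons_zero, List.getD_cons_succ, up_G, up_zero, up_up, map_mul, map_one, B_one_one, cr_true, cr_false, mul_one, one_mul, Nat.add_zero, Nat.zero_add, mul_assoc] at t ⊢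
  (try ring_nf at t)
  (try ring_nf)
  exact t

theorem wad :
    (G w 0 * up 1 Ad * G m 0 : Cob X) =
      G v 0 * Ad := by
  have t := col_sound (X := X) (fun c => List.getD [1] c 0) [Ad]
    [([0, 0], [0])] []
    [
      ([], [(0, .g .w), (1, .g .T)], [(0, .g .v), (1, .g .V), (1, .g .d), (0, .g .m), (2, .g .v), (1, .g .m)]),
      ([0], [(1, .g .v), (0, .g .m), (0, .g .S)], [(0, .g .S), (1, .g .v), (0, .g .m)]),
      ([0, 0, 0], [(0, .g .m), (0, .b 0)], [(1, .b 0), (0, .b 0)]),
      ([0, 0], [(0, .g .d), (1, .g .S), (1, .b 0), (0, .g .m)], [(0, .g .Q), (0, .g .m)]),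
      ([0], [(0, .g .V), (0, .g .m)], [(1, .g .V), (0, .g .m)])]
    [
      ([([], .g .w), ([0], .g .T)], [([], .g .v), ([0], .g .V), ([0], .g .d), ([], .g .m), ([0, 0], .g .v), ([0], .g .m)]),
      ([([0], .g .v), ([], .g .m), ([], .g .S)], [([], .g .S), ([0], .g .v), ([], .g .m)]),
      ([([], .g .m), ([], .b 0)], [([0], .b 0), ([], .b 0)]),
      ([([], .g .d), ([0], .g .S), ([0], .b 0), ([], .g .m)], [([], .br false 0 0), ([], .g .m)]),
      ([([], .g .V), ([], .g .m)], [([0], .g .V), ([], .g .m)])]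
    [0] [(0, .g .w), (1, .b 0), (0, .g .m)]
    [(0, .g .v), (0, .b 0)]
    [([], .g .w), ([0], .b 0), ([], .g .m)]
    [([], .g .v), ([], .b 0)]
    [(1, 1, false, .pu 13 1), (0, 0, true, .co 0), (4, 1, true, .co 1), (6, 1, true, .co 2),
      (3, 0, true, .far (.g .m) 0 (.g .S)), (4, 0, true, .far (.g .m) 1 (.g .v)),
      (5, 0, true, .far (.g .m) 1 (.b 0)), (6, 0, true, .far (.g .m) 0 (.b 0)), (7, 0, true, .pu 0 3),
      (3, 2, true, .far (.g .S) 0 (.g .v)), (2, 1, true, .far (.g .d) 0 (.g .v)),
      (4, 2, true, .far (.g .S) 0 (.b 0)), (3, 1, true, .far (.g .d) 0 (.b 0)), (4, 1, true, .co 3),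
      (1, 1, true, .far (.g .V) 0 (.g .v)), (2, 1, true, .far (.g .V) 0 (.b 0)), (4, 1, false, .can false),
      (3, 1, true, .nr false (.g .V)), (4, 1, true, .can true), (4, 0, false, .pu 0 3),
      (3, 0, false, .far (.g .m) 0 (.g .V)), (4, 0, false, .co 4), (3, 0, false, .far (.g .V) 0 (.g .m)),
      (2, 0, false, .far (.g .V) 1 (.b 0)), (1, 0, false, .far (.g .V) 1 (.g .v)),
      (0, 0, false, .far (.g .V) 0 (.g .v)), (4, 0, false, .pu 0 3), (3, 0, false, .far (.g .m) 0 (.b 0)),
      (2, 0, false, .far (.g .m) 0 (.g .v)), (0, 0, true, .far (.g .V) 0 (.g .v)), (0, 0, true, .pu 20 0),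
      (0, 0, true, .far (.g .e) 0 (.g .v)), (1, 0, true, .far (.g .e) 0 (.b 0)), (2, 0, true, .pu 1 1)]
    (by decide +kernel) rfl
    ⟨Ty.cast (Ad_ty) (by simp only [W, List.getD_cons_zero, List.getD_cons_succ] <;> omega) (by simp only [W, List.getD_cons_zero, List.getD_cons_succ] <;> omega),
      trivial⟩ trivial
    ⟨by have t := dv (X := X); simp only [ev2, val, W, List.getD_cons_zero, List.getD_cons_succ, up_G, up_zero, up_up, map_mul, map_one, B_one_one, cr_true, cr_false, mul_one, one_mul, Nat.add_zero, Nat.zero_add, mul_assoc] at t ⊢; (try ring_nf at t); (try ring_nf); exact t,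
      by have t := vmS2 (X := X); simp only [ev2, val, W, List.getD_cons_zero, List.getD_cons_succ, up_G, up_zero, up_up, map_mul, map_one, B_one_one, cr_true, cr_false, mul_one, one_mul, Nat.add_zero, Nat.zero_add, mul_assoc] at t ⊢; (try ring_nf at t); (try ring_nf); exact t,
      by have t := mad (X := X); simp only [ev2, val, W, List.getD_cons_zero, List.getD_cons_succ, up_G, up_zero, up_up, map_mul, map_one, B_one_one, cr_true, cr_false, mul_one, one_mul, Nat.add_zero, Nat.zero_add, mul_assoc] at t ⊢; (try ring_nf at t); (try ring_nf); exact t,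
      by have t := QM (X := X); simp only [ev2, val, W, List.getD_cons_zero, List.getD_cons_succ, up_G, up_zero, up_up, map_mul, map_one, B_one_one, cr_true, cr_false, mul_one, one_mul, Nat.add_zero, Nat.zero_add, mul_assoc] at t ⊢; (try ring_nf at t); (try ring_nf); exact t,
      by have t := Vc (X := X); simp only [ev2, val, W, List.getD_cons_zero, List.getD_cons_succ, up_G, up_zero, up_up, map_mul, map_one, B_one_one, cr_true, cr_false, mul_one, one_mul, Nat.add_zero, Nat.zero_add, mul_assoc] at t ⊢; (try ring_nf at t); (try ring_nf); exact t,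
      trivial⟩
  simp only [ev2, val, W, List.getD_cons_zero, List.getD_cons_succ, up_G, up_zero, up_up, map_mul, map_one, B_one_one, cr_true, cr_false, mul_one, one_mul, Nat.add_zero, Nat.zero_add, mul_assoc] at t ⊢
  (try ring_nf at t)
  (try ring_nf)
  exact t

theorem nY :
    (G w 0 * up 1 Y * G m 0 : Cob X) =
      G v 0 * Y := by
  have t := col_sound (X := X) (fun c => List.getD [1] c 0) [Y, Ad]
    [([0, 0], [0]), ([0, 0], [0])] []
    [([0, 0], [(0, .b 0)], [(1, .g .d), (0, .b 1), (1, .g .S), (0, .g .m)]),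
      ([0], [(0, .g .w), (1, .b 1), (0, .g .m)], [(0, .g .v), (0, .b 1)])]
    [([([], .b 0)], [([0], .g .d), ([], .b 1), ([0], .g .S), ([], .g .m)]),
      ([([], .g .w), ([0], .b 1), ([], .g .m)], [([], .g .v), ([], .b 1)])]
    [0] [(0, .g .w), (1, .b 0), (0, .g .m)]
    [(0, .g .v), (0, .b 0)]
    [([], .g .w), ([0], .b 0), ([], .g .m)]
    [([], .g .v), ([], .b 0)]
    [(1, 1, true, .co 0), (4, 0, false, .pu 0 3), (3, 0, false, .far (.g .m) 0 (.g .S)),
      (0, 0, true, .far (.g .w) 0 (.g .d)), (1, 0, true, .co 1), (0, 0, false, .far (.g .v) 0 (.g .d)),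
      (1, 0, false, .co 0)]
    (by decide +kernel) rfl
    ⟨Ty.cast (Y_ty) (by simp only [W, List.getD_cons_zero, List.getD_cons_succ] <;> omega) (by simp only [W, List.getD_cons_zero, List.getD_cons_succ] <;> omega),
      Ty.cast (Ad_ty) (by simp only [W, List.getD_cons_zero, List.getD_cons_succ] <;> omega) (by simp only [W, List.getD_cons_zero, List.getD_cons_succ] <;> omega),
      trivial⟩ trivial
    ⟨by have t := Yad (X := X); simp only [ev2, val, W, List.getD_cons_zero, List.getD_cons_succ, up_G, up_zero, up_up, map_mul, map_one, B_one_one, cr_true, cr_false, mul_one, one_mul, Nat.add_zero, Nat.zero_add, mul_assoc] at t ⊢; (try ring_nf at t); (try ring_nf); exact t,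
      by have t := wad (X := X); simp only [ev2, val, W, List.getD_cons_zero, List.getD_cons_succ, up_G, up_zero, up_up, map_mul, map_one, B_one_one, cr_true, cr_false, mul_one, one_mul, Nat.add_zero, Nat.zero_add, mul_assoc] at t ⊢; (try ring_nf at t); (try ring_nf); exact t,
      trivial⟩
  simp only [ev2, val, W, List.getD_cons_zero, List.getD_cons_succ, up_G, up_zero, up_up, map_mul, map_one, B_one_one, cr_true, cr_false, mul_one, one_mul, Nat.add_zero, Nat.zero_add, mul_assoc] at t ⊢
  (try ring_nf at t)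
  (try ring_nf)
  exact t

theorem AdW :
    (G w 1 * G Q 0 * up 1 Ad : Cob X) =
      G T 0 * G w 1 * Ad := by
  have t := col_sound (X := X) (fun c => List.getD [1] c 0) [Ad, Ev]
    [([0, 0], [0]), ([0, 0], [])] []
    [([0], [(1, .g .w), (0, .b 1)], []),
      ([0, 0, 0], [(0, .g .Q), (1, .g .T), (1, .b 0), (0, .b 1)], [(0, .b 0), (0, .b 1)]),
      ([0], [(0, .g .w), (1, .b 1)], [])]
    [([([0], .g .w), ([], .b 1)], []),
      ([([], .br false 0 0), ([0], .g .T), ([0], .b 0), ([], .b 1)], [([], .b 0), ([], .b 1)]),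
      ([([], .g .w), ([0], .b 1)], [])]
    [0] [(1, .g .w), (0, .g .Q), (1, .b 0)]
    [(0, .g .T), (1, .g .w), (0, .b 0)]
    [([0], .g .w), ([], .br false 0 0), ([0], .b 0)]
    [([], .g .T), ([0], .g .w), ([], .b 0)]
    [(3, 1, false, .co 0), (2, 1, true, .far (.b 0) 0 (.g .w)), (3, 1, false, .co 1),
      (2, 1, false, .far (.g .Q) 0 (.g .w)), (3, 2, false, .far (.g .T) 0 (.g .w)),
      (1, 0, false, .can false), (2, 1, false, .can false), (0, 0, false, .nl false (.g .w)),
      (2, 0, true, .can true), (1, 1, true, .can true), (0, 0, true, .far (.g .w) 0 (.g .T)),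
      (1, 0, true, .far (.g .w) 1 (.g .w)), (2, 0, true, .far (.g .w) 0 (.b 0)), (3, 0, true, .co 2)]
    (by decide +kernel) rfl
    ⟨Ty.cast (Ad_ty) (by simp only [W, List.getD_cons_zero, List.getD_cons_succ] <;> omega) (by simp only [W, List.getD_cons_zero, List.getD_cons_succ] <;> omega),
      Ty.cast (Ev_ty) (by simp only [W, List.getD_cons_zero, List.getD_cons_succ] <;> omega) (by simp only [W, List.getD_cons_zero, List.getD_cons_succ] <;> omega),
      trivial⟩ trivial
    ⟨by have t := zL (X := X); simp only [ev2, val, W, List.getD_cons_zero, List.getD_cons_succ, up_G, up_zero, up_up, map_mul, map_one, B_one_one, cr_true, cr_false, mul_one, one_mul, Nat.add_zero, Nat.zero_add, mul_assoc] at t ⊢; (try ring_nf at t); (try ring_nf); exact t,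
      by have t := AdEv (X := X); simp only [ev2, val, W, List.getD_cons_zero, List.getD_cons_succ, up_G, up_zero, up_up, map_mul, map_one, B_one_one, cr_true, cr_false, mul_one, one_mul, Nat.add_zero, Nat.zero_add, mul_assoc] at t ⊢; (try ring_nf at t); (try ring_nf); exact t,
      by have t := zR (X := X); simp only [ev2, val, W, List.getD_cons_zero, List.getD_cons_succ, up_G, up_zero, up_up, map_mul, map_one, B_one_one, cr_true, cr_false, mul_one, one_mul, Nat.add_zero, Nat.zero_add, mul_assoc] at t ⊢; (try ring_nf at t); (try ring_nf); exact t,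
      trivial⟩
  simp only [ev2, val, W, List.getD_cons_zero, List.getD_cons_succ, up_G, up_zero, up_up, map_mul, map_one, B_one_one, cr_true, cr_false, mul_one, one_mul, Nat.add_zero, Nat.zero_add, mul_assoc] at t ⊢
  (try ring_nf at t)
  (try ring_nf)
  exact t

theorem TRF :
    (G w 0 * G w 1 * up 2 Ad : Cob X) =
      G w 0 * G w 0 * up 1 Ad * G T 0 * G Q 0 := by
  have t := col_sound (X := X) (fun c => List.getD [1] c 0) [Ad]
    [([0, 0], [0])] []
    [([0], [(1, .g .w), (0, .g .Q), (1, .b 0)], [(0, .g .T), (1, .g .w), (0, .b 0)]),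
      ([], [(0, .g .w), (0, .g .T)], [(0, .g .w), (1, .g .T)])]
    [([([0], .g .w), ([], .br false 0 0), ([0], .b 0)], [([], .g .T), ([0], .g .w), ([], .b 0)]),
      ([([], .g .w), ([], .g .T)], [([], .g .w), ([0], .g .T)])]
    [] [(0, .g .w), (1, .g .w), (2, .b 0)]
    [(0, .g .w), (0, .g .w), (1, .b 0), (0, .g .T), (0, .g .Q)]
    [([], .g .w), ([0], .g .w), ([0, 0], .b 0)]
    [([], .g .w), ([], .g .w), ([0], .b 0), ([], .g .T), ([], .br false 0 0)]
    [(2, 0, false, .can true), (3, 1, false, .can true), (1, 0, false, .nl true (.g .w)),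
      (0, 0, false, .far (.g .w) 0 (.g .w)), (3, 0, true, .far (.g .Q) 0 (.b 0)), (1, 1, true, .co 0),
      (0, 0, false, .co 1), (1, 0, true, .far (.g .T) 1 (.g .w)), (2, 0, true, .far (.g .T) 0 (.b 0)),
      (0, 0, true, .far (.g .w) 0 (.g .w))]
    (by decide +kernel) rfl
    ⟨Ty.cast (Ad_ty) (by simp only [W, List.getD_cons_zero, List.getD_cons_succ] <;> omega) (by simp only [W, List.getD_cons_zero, List.getD_cons_succ] <;> omega),
      trivial⟩ trivial
    ⟨by have t := AdW (X := X); simp only [ev2, val, W, List.getD_cons_zero, List.getD_cons_succ, up_G, up_zero, up_up, map_mul, map_one, B_one_one, cr_true, cr_false, mul_one, one_mul, Nat.add_zero, Nat.zero_add, mul_assoc] at t ⊢; (try ring_nf at t); (try ring_nf); exact t,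
      by have t := wT (X := X); simp only [ev2, val, W, List.getD_cons_zero, List.getD_cons_succ, up_G, up_zero, up_up, map_mul, map_one, B_one_one, cr_true, cr_false, mul_one, one_mul, Nat.add_zero, Nat.zero_add, mul_assoc] at t ⊢; (try ring_nf at t); (try ring_nf); exact t,
      trivial⟩
  simp only [ev2, val, W, List.getD_cons_zero, List.getD_cons_succ, up_G, up_zero, up_up, map_mul, map_one, B_one_one, cr_true, cr_false, mul_one, one_mul, Nat.add_zero, Nat.zero_add, mul_assoc] at t ⊢
  (try ring_nf at t)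
  (try ring_nf)
  exact t

theorem K3a :
    (G w 0 * G l 0 * G m 0 : Cob X) =
      G u 0 * G w 0 * G l 0 := by
  have t := col_sound (X := X) (fun c => List.getD [1] c 0) [Ev]
    [([0, 0], [])] []
    [([0], [(1, .g .w), (0, .b 0)], []),
      ([0, 0, 0], [(0, .g .m), (0, .b 0)], [(2, .g .d), (1, .b 0), (0, .b 0)]),
      ([0], [(0, .g .w), (1, .b 0)], []), ([0], [(1, .g .e), (0, .b 0)], [(0, .g .u)])]
    [([([0], .g .w), ([], .b 0)], []),
      ([([], .g .m), ([], .b 0)], [([0, 0], .g .d), ([0], .b 0), ([], .b 0)]),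
      ([([], .g .w), ([0], .b 0)], []), ([([0], .g .e), ([], .b 0)], [([], .g .u)])]
    [0] [(0, .g .w), (0, .g .l), (0, .g .m)]
    [(0, .g .u), (0, .g .w), (0, .g .l)]
    [([], .g .w), ([], .g .l), ([], .g .m)]
    [([], .g .u), ([], .g .w), ([], .g .l)]
    [(3, 0, false, .co 0), (2, 0, true, .far (.g .m) 0 (.g .w)), (3, 0, true, .co 1),
      (1, 0, true, .far (.g .l) 2 (.g .w)), (0, 0, true, .far (.g .w) 1 (.g .w)),
      (2, 0, true, .far (.g .l) 2 (.g .d)), (1, 0, true, .far (.g .w) 1 (.g .d)),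
      (3, 0, true, .far (.g .l) 1 (.b 0)), (2, 0, true, .far (.g .w) 0 (.b 0)),
      (4, 0, true, .far (.g .l) 0 (.b 0)), (3, 0, true, .co 2), (2, 0, true, .far (.b 0) 0 (.g .l)),
      (1, 1, true, .pu 16 1), (1, 1, false, .far (.g .e) 0 (.g .l)), (0, 1, false, .far (.g .e) 0 (.g .w)),
      (2, 0, false, .far (.b 0) 0 (.g .l)), (1, 0, false, .far (.b 0) 0 (.g .w)),
      (1, 0, false, .far (.g .w) 0 (.b 0)), (0, 0, false, .far (.g .w) 1 (.g .e)),
      (2, 0, false, .far (.g .l) 1 (.b 0)), (1, 0, false, .far (.g .l) 2 (.g .e)), (2, 1, true, .co 3),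
      (1, 0, true, .far (.g .l) 1 (.g .u)), (0, 0, true, .far (.g .w) 0 (.g .u))]
    (by decide +kernel) rfl
    ⟨Ty.cast (Ev_ty) (by simp only [W, List.getD_cons_zero, List.getD_cons_succ] <;> omega) (by simp only [W, List.getD_cons_zero, List.getD_cons_succ] <;> omega),
      trivial⟩ trivial
    ⟨by have t := zL (X := X); simp only [ev2, val, W, List.getD_cons_zero, List.getD_cons_succ, up_G, up_zero, up_up, map_mul, map_one, B_one_one, cr_true, cr_false, mul_one, one_mul, Nat.add_zero, Nat.zero_add, mul_assoc] at t ⊢; (try ring_nf at t); (try ring_nf); exact t,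
      by have t := mev0 (X := X); simp only [ev2, val, W, List.getD_cons_zero, List.getD_cons_succ, up_G, up_zero, up_up, map_mul, map_one, B_one_one, cr_true, cr_false, mul_one, one_mul, Nat.add_zero, Nat.zero_add, mul_assoc] at t ⊢; (try ring_nf at t); (try ring_nf); exact t,
      by have t := zR (X := X); simp only [ev2, val, W, List.getD_cons_zero, List.getD_cons_succ, up_G, up_zero, up_up, map_mul, map_one, B_one_one, cr_true, cr_false, mul_one, one_mul, Nat.add_zero, Nat.zero_add, mul_assoc] at t ⊢; (try ring_nf at t); (try ring_nf); exact t,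
      by have t := eev1 (X := X); simp only [ev2, val, W, List.getD_cons_zero, List.getD_cons_succ, up_G, up_zero, up_up, map_mul, map_one, B_one_one, cr_true, cr_false, mul_one, one_mul, Nat.add_zero, Nat.zero_add, mul_assoc] at t ⊢; (try ring_nf at t); (try ring_nf); exact t,
      trivial⟩
  simp only [ev2, val, W, List.getD_cons_zero, List.getD_cons_succ, up_G, up_zero, up_up, map_mul, map_one, B_one_one, cr_true, cr_false, mul_one, one_mul, Nat.add_zero, Nat.zero_add, mul_assoc] at t ⊢
  (try ring_nf at t)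
  (try ring_nf)
  exact t

theorem K3b :
    (G w 0 * G l 0 * G l 0 : Cob X) =
      1 := by
  have t := col_sound (X := X) (fun c => List.getD [1] c 0) [Ev]
    [([0, 0], [])] []
    [([0, 0], [(0, .b 0)], [(1, .g .w), (1, .g .S), (0, .g .m), (1, .g .m), (0, .g .l), (0, .g .l)]),
      ([0], [(0, .g .e), (0, .b 0)], [(0, .g .u)])]
    [([([], .b 0)], [([0], .g .w), ([0], .g .S), ([], .g .m), ([0], .g .m), ([], .g .l), ([], .g .l)]),
      ([([], .g .e), ([], .b 0)], [([], .g .u)])]
    [] [(0, .g .w), (0, .g .l), (0, .g .l)]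
    []
    [([], .g .w), ([], .g .l), ([], .g .l)]
    []
    [(1, 0, false, .pu 18 1), (2, 0, false, .pu 1 1), (1, 0, false, .far (.g .e) 0 (.g .S)),
      (0, 0, false, .far (.g .e) 0 (.g .w)), (5, 0, false, .pu 2 1), (4, 0, true, .far (.g .l) 1 (.g .e)),
      (3, 0, true, .far (.g .m) 1 (.g .e)), (2, 1, true, .far (.g .S) 1 (.g .e)),
      (1, 1, true, .far (.g .w) 0 (.g .e)), (5, 0, true, .far (.g .l) 0 (.g .m)), (2, 0, false, .co 0),
      (0, 0, true, .far (.g .e) 0 (.g .e)), (1, 0, true, .co 1), (0, 0, true, .pu 9 0)]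
    (by decide +kernel) rfl
    ⟨Ty.cast (Ev_ty) (by simp only [W, List.getD_cons_zero, List.getD_cons_succ] <;> omega) (by simp only [W, List.getD_cons_zero, List.getD_cons_succ] <;> omega),
      trivial⟩ trivial
    ⟨by have t := Ev_def (X := X); simp only [ev2, val, W, List.getD_cons_zero, List.getD_cons_succ, up_G, up_zero, up_up, map_mul, map_one, B_one_one, cr_true, cr_false, mul_one, one_mul, Nat.add_zero, Nat.zero_add, mul_assoc] at t ⊢; (try ring_nf at t); (try ring_nf); exact t,
      by have t := eev0 (X := X); simp only [ev2, val, W, List.getD_cons_zero, List.getD_cons_succ, up_G, up_zero, up_up, map_mul, map_one, B_one_one, cr_true, cr_false, mul_one, one_mul, Nat.add_zero, Nat.zero_add, mul_assoc] at t ⊢; (try ring_nf at t); (try ring_nf); exact t,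
      trivial⟩
  simp only [ev2, val, W, List.getD_cons_zero, List.getD_cons_succ, up_G, up_zero, up_up, map_mul, map_one, B_one_one, cr_true, cr_false, mul_one, one_mul, Nat.add_zero, Nat.zero_add, mul_assoc] at t ⊢
  (try ring_nf at t)
  (try ring_nf)
  exact t

theorem FSF :
    (G w 1 * G m 0 * G l 0 * G S 0 * G w 1 * G m 0 * G l 0 : Cob X) =
      1 := by
  have t := col_sound (X := X) (fun c => List.getD [1] c 0) []
    [] []
    [([], [(0, .g .w), (0, .g .S)], [(0, .g .w), (1, .g .S)])]
    [([([], .g .w), ([], .g .S)], [([], .g .w), ([0], .g .S)])]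
    [0] [(1, .g .w), (0, .g .m), (0, .g .l), (0, .g .S), (1, .g .w), (0, .g .m), (0, .g .l)]
    []
    [([0], .g .w), ([], .g .m), ([], .g .l), ([], .g .S), ([0], .g .w), ([], .g .m), ([], .g .l)]
    []
    [(2, 0, true, .far (.g .l) 0 (.g .S)), (1, 0, true, .far (.g .m) 0 (.g .S)), (0, 1, false, .co 0),
      (3, 0, true, .far (.g .l) 1 (.g .w)), (4, 0, true, .far (.g .l) 0 (.g .m)),
      (2, 0, true, .far (.g .m) 1 (.g .w)), (1, 1, true, .far (.g .S) 1 (.g .w)),
      (0, 1, true, .far (.g .w) 0 (.g .w)), (0, 0, true, .pu 27 1)]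
    (by decide +kernel) rfl
    trivial trivial
    ⟨by have t := wS (X := X); simp only [ev2, val, W, List.getD_cons_zero, List.getD_cons_succ, up_G, up_zero, up_up, map_mul, map_one, B_one_one, cr_true, cr_false, mul_one, one_mul, Nat.add_zero, Nat.zero_add, mul_assoc] at t ⊢; (try ring_nf at t); (try ring_nf); exact t,
      trivial⟩
  simp only [ev2, val, W, List.getD_cons_zero, List.getD_cons_succ, up_G, up_zero, up_up, map_mul, map_one, B_one_one, cr_true, cr_false, mul_one, one_mul, Nat.add_zero, Nat.zero_add, mul_assoc] at t ⊢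
  (try ring_nf at t)
  (try ring_nf)
  exact t

theorem slA :
    (G d 0 * G m 1 * G d 0 * G S 1 * G m 1 : Cob X) =
      1 := by
  have t := col_sound (X := X) (fun c => List.getD [1] c 0) []
    [] []
    []
    []
    [0, 0] [(0, .g .d), (1, .g .m), (0, .g .d), (1, .g .S), (1, .g .m)]
    []
    [([], .g .d), ([0], .g .m), ([], .g .d), ([0], .g .S), ([0], .g .m)]
    []
    [(1, 0, false, .far (.g .d) 0 (.g .m)), (2, 1, false, .far (.g .S) 0 (.g .m)), (0, 0, true, .pu 3 1),
      (3, 1, false, .pu 0 3), (1, 1, true, .pu 10 1), (0, 0, true, .pu 5 1), (0, 1, true, .pu 1 1)]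
    (by decide +kernel) rfl
    trivial trivial
    trivial
  simp only [ev2, val, W, List.getD_cons_zero, List.getD_cons_succ, up_G, up_zero, up_up, map_mul, map_one, B_one_one, cr_true, cr_false, mul_one, one_mul, Nat.add_zero, Nat.zero_add, mul_assoc] at t ⊢
  (try ring_nf at t)
  (try ring_nf)
  exact t

theorem slB :
    (G d 0 * G S 1 * G m 1 * G d 0 * G m 1 : Cob X) =
      1 := by
  have t := col_sound (X := X) (fun c => List.getD [1] c 0) []
    [] []
    []
    []
    [0, 0] [(0, .g .d), (1, .g .S), (1, .g .m), (0, .g .d), (1, .g .m)]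
    []
    [([], .g .d), ([0], .g .S), ([0], .g .m), ([], .g .d), ([0], .g .m)]
    []
    [(2, 0, false, .far (.g .d) 0 (.g .m)), (1, 0, false, .far (.g .d) 0 (.g .S)), (0, 0, true, .pu 3 1),
      (3, 1, false, .pu 0 3), (1, 1, true, .pu 11 1), (0, 0, true, .pu 5 1), (0, 1, true, .pu 1 1)]
    (by decide +kernel) rfl
    trivial trivial
    trivial
  simp only [ev2, val, W, List.getD_cons_zero, List.getD_cons_succ, up_G, up_zero, up_up, map_mul, map_one, B_one_one, cr_true, cr_false, mul_one, one_mul, Nat.add_zero, Nat.zero_add, mul_assoc] at t ⊢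
  (try ring_nf at t)
  (try ring_nf)
  exact t

theorem CoQ :
    (G w 0 * up 1 Ad * G P 1 * Ad : Cob X) =
      G Q 0 := by
  have t := col_sound (X := X) (fun c => List.getD [1] c 0) [Ad]
    [([0, 0], [0])] []
    [([0, 0], [(0, .g .w), (1, .g .P), (0, .b 0), (1, .b 0)], [(0, .g .Q), (0, .g .Q)])]
    [
      ([([], .g .w), ([0], .br true 0 0), ([], .b 0), ([0], .b 0)], [([], .br false 0 0), ([], .br false 0 0)])]
    [0, 0] [(0, .g .w), (1, .b 0), (1, .g .P), (0, .b 0)]
    [(0, .g .Q)]
    [([], .g .w), ([0], .b 0), ([0], .br true 0 0), ([], .b 0)]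
    [([], .br false 0 0)]
    [(2, 1, false, .can true), (1, 1, true, .nr true (.b 0)), (4, 1, true, .can false),
      (3, 0, false, .far (.b 0) 0 (.b 0)), (0, 0, true, .far (.g .w) 0 (.g .P)), (1, 0, true, .co 0),
      (0, 0, true, .can true)]
    (by decide +kernel) rfl
    ⟨Ty.cast (Ad_ty) (by simp only [W, List.getD_cons_zero, List.getD_cons_succ] <;> omega) (by simp only [W, List.getD_cons_zero, List.getD_cons_succ] <;> omega),
      trivial⟩ trivial
    ⟨by have t := MON (X := X); simp only [ev2, val, W, List.getD_cons_zero, List.getD_cons_succ, up_G, up_zero, up_up, map_mul, map_one, B_one_one, cr_true, cr_false, mul_one, one_mul, Nat.add_zero, Nat.zero_add, mul_assoc] at t ⊢; (try ring_nf at t); (try ring_nf); exact t,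
      trivial⟩
  simp only [ev2, val, W, List.getD_cons_zero, List.getD_cons_succ, up_G, up_zero, up_up, map_mul, map_one, B_one_one, cr_true, cr_false, mul_one, one_mul, Nat.add_zero, Nat.zero_add, mul_assoc] at t ⊢
  (try ring_nf at t)
  (try ring_nf)
  exact t

theorem CoP :
    (G e 0 * G P 1 * Ad : Cob X) =
      G P 0 := by
  have t := col_sound (X := X) (fun c => List.getD [1] c 0) [Ad]
    [([0, 0], [0])] []
    [([0], [(0, .g .e), (0, .b 0)], [])]
    [([([], .g .e), ([], .b 0)], [])]
    [0, 0] [(0, .g .e), (1, .g .P), (0, .b 0)]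
    [(0, .g .P)]
    [([], .g .e), ([0], .br true 0 0), ([], .b 0)]
    [([], .br true 0 0)]
    [(0, 0, true, .far (.g .e) 0 (.g .P)), (1, 0, true, .co 0)]
    (by decide +kernel) rfl
    ⟨Ty.cast (Ad_ty) (by simp only [W, List.getD_cons_zero, List.getD_cons_succ] <;> omega) (by simp only [W, List.getD_cons_zero, List.getD_cons_succ] <;> omega),
      trivial⟩ trivial
    ⟨by have t := ead (X := X); simp only [ev2, val, W, List.getD_cons_zero, List.getD_cons_succ, up_G, up_zero, up_up, map_mul, map_one, B_one_one, cr_true, cr_false, mul_one, one_mul, Nat.add_zero, Nat.zero_add, mul_assoc] at t ⊢; (try ring_nf at t); (try ring_nf); exact t,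
      trivial⟩
  simp only [ev2, val, W, List.getD_cons_zero, List.getD_cons_succ, up_G, up_zero, up_up, map_mul, map_one, B_one_one, cr_true, cr_false, mul_one, one_mul, Nat.add_zero, Nat.zero_add, mul_assoc] at t ⊢
  (try ring_nf at t)
  (try ring_nf)
  exact t

theorem CoQm :
    (G w 0 * up 1 Ad * G d 2 * G Q 1 * G Q 0 * Ev * G m 0 : Cob X) =
      G Q 0 * G m 0 := by
  have t := col_sound (X := X) (fun c => List.getD [1] c 0) [Ad, Ev]
    [([0, 0], [0]), ([0, 0], [])] []
    [([0], [(1, .g .w), (0, .b 1)], []),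
      ([0, 0], [(0, .g .d), (1, .g .P), (0, .b 0), (0, .g .m)], [(0, .g .m)])]
    [([([0], .g .w), ([], .b 1)], []),
      ([([], .g .d), ([0], .br true 0 0), ([], .b 0), ([], .g .m)], [([], .g .m)])]
    [0, 0] [(0, .g .w), (1, .b 0), (2, .g .d), (1, .g .Q), (0, .g .Q), (0, .b 1), (0, .g .m)]
    [(0, .g .Q), (0, .g .m)]
    [([], .g .w), ([0], .b 0), ([0, 0], .g .d), ([0], .br false 0 0), ([], .br false 0 0), ([], .b 1), ([], .g .m)]
    [([], .br false 0 0), ([], .g .m)]
    [(1, 1, true, .far (.b 0) 0 (.g .d)), (3, 1, false, .can false), (2, 1, true, .nr false (.b 0)),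
      (5, 1, true, .can true), (4, 0, false, .far (.g .Q) 0 (.b 0)), (5, 0, false, .far (.b 1) 0 (.b 0)),
      (0, 0, true, .far (.g .w) 1 (.g .d)), (1, 0, true, .far (.g .w) 0 (.g .Q)),
      (3, 1, false, .can false), (4, 0, false, .can false), (2, 0, true, .nr false (.g .w)),
      (4, 1, true, .can true), (3, 0, true, .can true), (2, 0, true, .co 0), (1, 0, false, .can false),
      (2, 1, false, .can false), (0, 0, false, .nl false (.g .d)), (3, 0, true, .can true),
      (1, 0, true, .co 1)]
    (by decide +kernel) rfl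
    ⟨Ty.cast (Ad_ty) (by simp only [W, List.getD_cons_zero, List.getD_cons_succ] <;> omega) (by simp only [W, List.getD_cons_zero, List.getD_cons_succ] <;> omega),
      Ty.cast (Ev_ty) (by simp only [W, List.getD_cons_zero, List.getD_cons_succ] <;> omega) (by simp only [W, List.getD_cons_zero, List.getD_cons_succ] <;> omega),
      trivial⟩ trivial
    ⟨by have t := zL (X := X); simp only [ev2, val, W, List.getD_cons_zero, List.getD_cons_succ, up_G, up_zero, up_up, map_mul, map_one, B_one_one, cr_true, cr_false, mul_one, one_mul, Nat.add_zero, Nat.zero_add, mul_assoc] at t ⊢; (try ring_nf at t); (try ring_nf); exact t,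
      by have t := adm (X := X); simp only [ev2, val, W, List.getD_cons_zero, List.getD_cons_succ, up_G, up_zero, up_up, map_mul, map_one, B_one_one, cr_true, cr_false, mul_one, one_mul, Nat.add_zero, Nat.zero_add, mul_assoc] at t ⊢; (try ring_nf at t); (try ring_nf); exact t,
      trivial⟩
  simp only [ev2, val, W, List.getD_cons_zero, List.getD_cons_succ, up_G, up_zero, up_up, map_mul, map_one, B_one_one, cr_true, cr_false, mul_one, one_mul, Nat.add_zero, Nat.zero_add, mul_assoc] at t ⊢
  (try ring_nf at t)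
  (try ring_nf)
  exact t

theorem Com :
    (G e 0 * G d 2 * G Q 1 * G Q 0 * Ev * G m 0 : Cob X) =
      G m 0 := by
  have t := col_sound (X := X) (fun c => List.getD [1] c 0) [Ev]
    [([0, 0], [])] []
    [([0], [(1, .g .e), (0, .b 0)], [(0, .g .u)])]
    [([([0], .g .e), ([], .b 0)], [([], .g .u)])]
    [0, 0] [(0, .g .e), (2, .g .d), (1, .g .Q), (0, .g .Q), (0, .b 0), (0, .g .m)]
    [(0, .g .m)]
    [([], .g .e), ([0, 0], .g .d), ([0], .br false 0 0), ([], .br false 0 0), ([], .b 0), ([], .g .m)]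
    [([], .g .m)]
    [(0, 0, true, .far (.g .e) 1 (.g .d)), (1, 0, true, .far (.g .e) 0 (.g .Q)),
      (3, 0, false, .can false), (2, 0, true, .nr false (.g .e)), (3, 0, true, .can true),
      (2, 0, true, .co 0), (2, 0, true, .nr true (.g .u)), (1, 0, true, .can false), (0, 1, true, .pu 4 1)]
    (by decide +kernel) rfl
    ⟨Ty.cast (Ev_ty) (by simp only [W, List.getD_cons_zero, List.getD_cons_succ] <;> omega) (by simp only [W, List.getD_cons_zero, List.getD_cons_succ] <;> omega),
      trivial⟩ trivial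
    ⟨by have t := eev1 (X := X); simp only [ev2, val, W, List.getD_cons_zero, List.getD_cons_succ, up_G, up_zero, up_up, map_mul, map_one, B_one_one, cr_true, cr_false, mul_one, one_mul, Nat.add_zero, Nat.zero_add, mul_assoc] at t ⊢; (try ring_nf at t); (try ring_nf); exact t,
      trivial⟩
  simp only [ev2, val, W, List.getD_cons_zero, List.getD_cons_succ, up_G, up_zero, up_up, map_mul, map_one, B_one_one, cr_true, cr_false, mul_one, one_mul, Nat.add_zero, Nat.zero_add, mul_assoc] at t ⊢
  (try ring_nf at t)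
  (try ring_nf)
  exact t

theorem CoS :
    (G w 0 * up 1 Ad * G V 0 * Ev : Cob X) =
      G S 0 * G S 0 := by
  have t := col_sound (X := X) (fun c => List.getD [1] c 0) [Ad, Ev]
    [([0, 0], [0]), ([0, 0], [])] []
    [([0], [(1, .g .w), (0, .b 1)], []), ([0], [(0, .g .S), (0, .g .S)], [(0, .g .V), (0, .b 0)])]
    [([([0], .g .w), ([], .b 1)], []), ([([], .g .S), ([], .g .S)], [([], .g .V), ([], .b 0)])]
    [0] [(0, .g .w), (1, .b 0), (0, .g .V), (0, .b 1)]
    [(0, .g .S), (0, .g .S)]
    [([], .g .w), ([0], .b 0), ([], .g .V), ([], .b 1)]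
    [([], .g .S), ([], .g .S)]
    [(1, 0, false, .far (.g .V) 1 (.b 0)), (0, 0, false, .far (.g .V) 0 (.g .w)),
      (2, 0, false, .far (.b 1) 0 (.b 0)), (1, 0, true, .co 0), (0, 0, false, .co 1)]
    (by decide +kernel) rfl
    ⟨Ty.cast (Ad_ty) (by simp only [W, List.getD_cons_zero, List.getD_cons_succ] <;> omega) (by simp only [W, List.getD_cons_zero, List.getD_cons_succ] <;> omega),
      Ty.cast (Ev_ty) (by simp only [W, List.getD_cons_zero, List.getD_cons_succ] <;> omega) (by simp only [W, List.getD_cons_zero, List.getD_cons_succ] <;> omega),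
      trivial⟩ trivial
    ⟨by have t := zL (X := X); simp only [ev2, val, W, List.getD_cons_zero, List.getD_cons_succ, up_G, up_zero, up_up, map_mul, map_one, B_one_one, cr_true, cr_false, mul_one, one_mul, Nat.add_zero, Nat.zero_add, mul_assoc] at t ⊢; (try ring_nf at t); (try ring_nf); exact t,
      by have t := SS (X := X); simp only [ev2, val, W, List.getD_cons_zero, List.getD_cons_succ, up_G, up_zero, up_up, map_mul, map_one, B_one_one, cr_true, cr_false, mul_one, one_mul, Nat.add_zero, Nat.zero_add, mul_assoc] at t ⊢; (try ring_nf at t); (try ring_nf); exact t,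
      trivial⟩
  simp only [ev2, val, W, List.getD_cons_zero, List.getD_cons_succ, up_G, up_zero, up_up, map_mul, map_one, B_one_one, cr_true, cr_false, mul_one, one_mul, Nat.add_zero, Nat.zero_add, mul_assoc] at t ⊢
  (try ring_nf at t)
  (try ring_nf)
  exact t

theorem CoE :
    (G e 0 * G V 0 * Ev : Cob X) =
      1 := by
  have t := col_sound (X := X) (fun c => List.getD [1] c 0) [Ev]
    [([0, 0], [])] []
    [([0], [(1, .g .e), (0, .b 0)], [(0, .g .u)]), ([], [(0, .g .V), (0, .g .u)], [])]
    [([([0], .g .e), ([], .b 0)], [([], .g .u)]), ([([], .g .V), ([], .g .u)], [])]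
    [] [(0, .g .e), (0, .g .V), (0, .b 0)]
    []
    [([], .g .e), ([], .g .V), ([], .b 0)]
    []
    [(0, 0, false, .far (.g .V) 0 (.g .e)), (1, 0, true, .co 0), (0, 0, true, .co 1)]
    (by decide +kernel) rfl
    ⟨Ty.cast (Ev_ty) (by simp only [W, List.getD_cons_zero, List.getD_cons_succ] <;> omega) (by simp only [W, List.getD_cons_zero, List.getD_cons_succ] <;> omega),
      trivial⟩ trivial
    ⟨by have t := eev1 (X := X); simp only [ev2, val, W, List.getD_cons_zero, List.getD_cons_succ, up_G, up_zero, up_up, map_mul, map_one, B_one_one, cr_true, cr_false, mul_one, one_mul, Nat.add_zero, Nat.zero_add, mul_assoc] at t ⊢; (try ring_nf at t); (try ring_nf); exact t,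
      by have t := Vu (X := X); simp only [ev2, val, W, List.getD_cons_zero, List.getD_cons_succ, up_G, up_zero, up_up, map_mul, map_one, B_one_one, cr_true, cr_false, mul_one, one_mul, Nat.add_zero, Nat.zero_add, mul_assoc] at t ⊢; (try ring_nf at t); (try ring_nf); exact t,
      trivial⟩
  simp only [ev2, val, W, List.getD_cons_zero, List.getD_cons_succ, up_G, up_zero, up_up, map_mul, map_one, B_one_one, cr_true, cr_false, mul_one, one_mul, Nat.add_zero, Nat.zero_add, mul_assoc] at t ⊢
  (try ring_nf at t)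
  (try ring_nf)
  exact t

theorem CoY :
    (G w 0 * up 1 Ad : Cob X) =
      G w 0 * G d 2 * up 1 Y * G m 1 := by
  have t := col_sound (X := X) (fun c => List.getD [1] c 0) [Ad, Y]
    [([0, 0], [0]), ([0, 0], [0])] []
    [([0, 0], [(1, .g .d), (0, .b 1), (0, .g .m)], [(0, .b 0)])]
    [([([0], .g .d), ([], .b 1), ([], .g .m)], [([], .b 0)])]
    [0] [(0, .g .w), (1, .b 0)]
    [(0, .g .w), (2, .g .d), (1, .b 1), (1, .g .m)]
    [([], .g .w), ([0], .b 0)]
    [([], .g .w), ([0, 0], .g .d), ([0], .b 1), ([0], .g .m)]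
    [(1, 1, false, .co 0)]
    (by decide +kernel) rfl
    ⟨Ty.cast (Ad_ty) (by simp only [W, List.getD_cons_zero, List.getD_cons_succ] <;> omega) (by simp only [W, List.getD_cons_zero, List.getD_cons_succ] <;> omega),
      Ty.cast (Y_ty) (by simp only [W, List.getD_cons_zero, List.getD_cons_succ] <;> omega) (by simp only [W, List.getD_cons_zero, List.getD_cons_succ] <;> omega),
      trivial⟩ trivial
    ⟨by have t := adY (X := X); simp only [ev2, val, W, List.getD_cons_zero, List.getD_cons_succ, up_G, up_zero, up_up, map_mul, map_one, B_one_one, cr_true, cr_false, mul_one, one_mul, Nat.add_zero, Nat.zero_add, mul_assoc] at t ⊢; (try ring_nf at t); (try ring_nf); exact t,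
      trivial⟩
  simp only [ev2, val, W, List.getD_cons_zero, List.getD_cons_succ, up_G, up_zero, up_up, map_mul, map_one, B_one_one, cr_true, cr_false, mul_one, one_mul, Nat.add_zero, Nat.zero_add, mul_assoc] at t ⊢
  (try ring_nf at t)
  (try ring_nf)
  exact t

end Pool.Agent.GH
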