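import Pool.Agent.Work.MP_c00b06_gt.Sem3
import Pool.Agent.Work.MP_c00b06_gt.Id4

-- merged part: Pool.Agent.Work.MP_c00b06_gt.SPb
section
-- merged part: Pool.Agent.Work.MP_c00b06_gt.Sim1
section
/-! Fillings, trees, the congruence Sim. -/

namespace Pool.Agent.GH
open Gn

variable {X : Wd → Wd → Prop}

theorem E_add (p q : ℕ) : (E (p + q) : Cob X) = E p * E q := by
  induction p with
  | zero => rw [Nat.zero_add, E_zero, one_mul]
  | succ p ih => rw [Nat.add_right_comm, E_succ, E_succ, ih, mul_assoc]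

theorem E_add' (p q : ℕ) : (E (p + q) : Cob X) = up p (E q) * E p := by
  have := far (E_ty (X := X) p) 0 (E q)
  rwa [Nat.add_zero, up_zero, ← E_add] at this

theorem Et_add (p q : ℕ) : (Et (p + q) : Cob X) = Et q * Et p := by
  induction p with
  | zero => rw [Nat.zero_add, Et_zero, mul_one]
  | succ p ih => rw [Nat.add_right_comm, Et_succ, Et_succ, ih, mul_assoc]

theorem Et_add' (p q : ℕ) : (Et (p + q) : Cob X) = Et p * up p (Et q) := by
  have := far (Et_ty (X := X) p) 0 (Et q)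
  rw [Nat.add_zero, Nat.add_zero, up_zero, ← Et_add] at this
  exact this.symm

theorem Et_E (p : ℕ) : (Et p * E p : Cob X) = 1 := by
  induction p with
  | zero => exact one_mul _
  | succ p ih => rw [Et_succ, E_succ, mul_assoc, ← mul_assoc (G e 0), ax_eu, one_mul, ih]

theorem Lm_add (p q : ℕ) : (Lm (p + q) : Cob X) = Lm p * Lm q := by
  induction p with
  | zero => rw [Nat.zero_add, Lm_zero, one_mul]
  | succ p ih => rw [Nat.add_right_comm, Lm_succ, Lm_succ, ih, mul_assoc]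

theorem Lm_add' (p q : ℕ) : (Lm (p + q) : Cob X) = up p (Lm q) * Lm p := by
  have := far (Lm_ty (X := X) p) 0 (Lm q)
  rwa [Nat.add_zero, up_zero, ← Lm_add] at this

theorem E_ins {i p : ℕ} (h : i ≤ p) : (G u i * E p : Cob X) = E (p + 1) := by
  obtain ⟨r, rfl⟩ := Nat.exists_eq_add_of_le h
  rw [Nat.add_assoc, E_add' i (r + 1), E_add', E_succ, map_mul, up_G, Nat.add_zero, mul_assoc]

theorem Et_ins {i p : ℕ} (h : i ≤ p) : (Et p * G e i : Cob X) = Et (p + 1) := by
  obtain ⟨r, rfl⟩ := Nat.exists_eq_add_of_le h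
  rw [Nat.add_assoc, Et_add' i (r + 1), Et_add', Et_succ, map_mul, up_G, Nat.add_zero, mul_assoc]

theorem Lm_ins {i p : ℕ} (h : i ≤ p) : (G l i * Lm p : Cob X) = Lm (p + 1) := by
  obtain ⟨r, rfl⟩ := Nat.exists_eq_add_of_le h
  rw [Nat.add_assoc, Lm_add' i (r + 1), Lm_add', Lm_succ, map_mul, up_G, Nat.add_zero, mul_assoc]

theorem B_E (s : Bool) (p q : ℕ) : (B s p q * E q : Cob X) = up p (E q) := by
  rw [natL s p (E_ty q), B_zero_right, mul_one]

theorem B_upE (s : Bool) (p q : ℕ) : (B s p q * up q (E p) : Cob X) = E p := by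
  rw [← natR s q (E_ty p), B_zero_left, mul_one]

theorem Et_B (s : Bool) (p q : ℕ) : (Et p * B s p q : Cob X) = up q (Et p) := by
  rw [natR s q (Et_ty p), B_zero_left, one_mul]

theorem upEt_B (s : Bool) (p q : ℕ) : (up p (Et q) * B s p q : Cob X) = Et q := by
  rw [← natL s p (Et_ty q), B_zero_right, one_mul]

theorem sim1_one : (E 1 : Cob X) = G u 0 := mul_one _

theorem sim1_far (τ : Tr) (k : ℕ) (h : Cob X) :
    Rt τ * up (1 + k) h = up (τ.nn + 1 + k) h * Rt τ := far (Rt_ty τ) k h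

theorem sim1_far0 (τ : Tr) (h : Cob X) : Rt τ * up 1 h = up (τ.nn + 1) h * Rt τ := sim1_far τ 0 h

/-- PLAN: `Yu`. -/
theorem Rt_u (τ : Tr) : (Rt τ * G u 0 : Cob X) = E (τ.nn + 1) := by
  induction τ with
  | lf => rw [Rt_lf, one_mul]; exact sim1_one.symm
  | nd a b iha ihb =>
    have e1 : (G u 0 * G u 0 : Cob X) = up 1 (G u 0) * G u 0 := far_G u u 0 0 le_rfl
    rw [Rt_nd, mul_assoc, Yu, e1, ← mul_assoc, mul_assoc (Rt a), ← map_mul, ihb, sim1_far0,
      mul_assoc, iha, ← E_add']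
    congr 1
    simp only [Tr.nn]
    omega

/-- PLAN: induction on `τ` generalizing `i`; `eY0`, `eY1`, `Rt_u`. -/
theorem e_Rt (τ : Tr) {i : ℕ} (h : i ≤ τ.nn) : (G e i * Rt τ : Cob X) = E τ.nn * G e 0 := by
  induction τ generalizing i with
  | lf =>
    obtain rfl : i = 0 := Nat.le_zero.1 h
    exact (mul_one _).trans (one_mul _).symm
  | nd a b iha ihb =>
    rw [Rt_nd, ← mul_assoc, ← mul_assoc]
    rcases Nat.lt_or_ge a.nn i with c | c
    · obtain ⟨j, rfl⟩ := Nat.exists_eq_add_of_le (show a.nn + 1 ≤ i from c)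
      have e1 : (G e (a.nn + 1 + j) * Rt a : Cob X) = Rt a * up 1 (G e j) :=
        (sim1_far a j (G e 0)).symm
      have e2 : (up 1 (G e 0) * Y : Cob X) = G u 0 * G e 0 := eY1
      rw [e1, mul_assoc (Rt a), ← map_mul, ihb (by simp only [Tr.nn] at h; omega), map_mul,
        ← mul_assoc, mul_assoc _ _ Y, e2, sim1_far0, ← mul_assoc, mul_assoc _ (Rt a), Rt_u,
        ← E_add']
      congr 2
      simp only [Tr.nn]
      omega
    · have e1 : (G e 0 * up 1 (Rt b) : Cob X) = Rt b * G e 0 :=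
        (far_Gf e 0 1 le_rfl _).trans (congrArg (· * G e 0) (up_zero _))
      rw [iha c, mul_assoc (E _), e1, mul_assoc, mul_assoc, eY0, ← mul_assoc (Rt b), Rt_u,
        ← mul_assoc, ← E_add]
      rfl

/-- PLAN: `e_Rt`, `eev0`; for the last leaf `eev1`, `Rt_u`. -/
theorem e_TT (τ : Tr) {i : ℕ} (h : i ≤ τ.nn + 1) : (G e i * TT τ : Cob X) = E (τ.nn + 1) := by
  rw [TT, ← mul_assoc]
  rcases Nat.lt_or_ge τ.nn i with c | c
  · obtain rfl : i = τ.nn + 1 := by omega
    have e1 : (G e (τ.nn + 1) * Rt τ : Cob X) = Rt τ * G e 1 := (sim1_far0 τ (G e 0)).symm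
    rw [e1, mul_assoc, eev1, Rt_u]
  · rw [e_Rt τ c, mul_assoc, eev0, E_add, sim1_one]

/-- A node whose two children are leaves can be peeled off. -/
theorem peel (τ : Tr) {k : ℕ} (h : τ.nn = k + 1) :
    ∃ (i : ℕ) (τ' : Tr), τ'.nn = k ∧ i ≤ k ∧ (Rt τ : Cob X) = up i Y * Rt τ' := by
  induction τ generalizing k with
  | lf => cases h
  | nd a b iha ihb =>
    rcases a with _ | ⟨a1, a2⟩
    · rcases b with _ | ⟨b1, b2⟩
      · refine ⟨0, .lf, by simp only [Tr.nn] at h ⊢; omega, Nat.zero_le _, ?_⟩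
        rw [Rt_nd, Rt_lf, map_one, up_zero, one_mul, one_mul, mul_one]
      · obtain ⟨i, τ', h1, h2, h3⟩ := ihb (k := b1.nn + b2.nn) rfl
        refine ⟨1 + i, .nd .lf τ', by simp only [Tr.nn] at h ⊢; omega,
          by simp only [Tr.nn] at h; omega, ?_⟩
        rw [Rt_nd, Rt_nd .lf, h3, Rt_lf, one_mul, one_mul, map_mul, up_up, mul_assoc]
    · obtain ⟨i, τ', h1, h2, h3⟩ := iha (k := a1.nn + a2.nn) rfl
      refine ⟨i, .nd τ' b, by simp only [Tr.nn] at h ⊢; omega,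
        by simp only [Tr.nn] at h; omega, ?_⟩
      rw [Rt_nd, Rt_nd τ', h3]
      simp only [mul_assoc]

theorem Sim.refl (k : ℕ) (f : Cob X) : Sim k f f := by
  exact Relation.EqvGen.refl f

theorem Sim.of_eq {k : ℕ} {f g : Cob X} (h : f = g) : Sim k f g := by
  exact h ▸ Sim.refl k f

theorem Sim.symm {k : ℕ} {f g : Cob X} (h : Sim k f g) : Sim k g f := by
  exact Relation.EqvGen.symm _ _ h

theorem Sim.trans {k : ℕ} {f g h : Cob X} (h1 : Sim k f g) (h2 : Sim k g h) : Sim k f h := by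
  exact Relation.EqvGen.trans _ _ _ h1 h2

instance simTrans (k : ℕ) : Trans (Sim (X := X) k) (Sim k) (Sim k) := ⟨Sim.trans⟩

theorem sim1_map {k k' : ℕ} (φ : Cob X → Cob X) (hφ : ∀ f g, Mv k f g → Sim k' (φ f) (φ g))
    {f g : Cob X} (h : Sim k f g) : Sim k' (φ f) (φ g) := by
  induction h with
  | rel f g h => exact hφ f g h
  | refl f => exact Sim.refl _ _
  | symm _ _ _ ih => exact ih.symm
  | trans _ _ _ _ _ ih ih' => exact ih.trans ih'

theorem Sim.left {k : ℕ} {f g : Cob X} (a : Cob X) (h : Sim k f g) : Sim k (a * f) (a * g) := by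
  refine sim1_map (a * ·) ?_ h
  rintro _ _ ⟨a', b, i, τ, h1, rfl, rfl⟩
  exact .rel _ _ ⟨a * a', b, i, τ, h1, by simp only [mul_assoc], by simp only [mul_assoc]⟩

theorem Sim.right {k : ℕ} {f g : Cob X} (h : Sim k f g) (b : Cob X) : Sim k (f * b) (g * b) := by
  refine sim1_map (· * b) ?_ h
  rintro _ _ ⟨a, b', i, τ, h1, rfl, rfl⟩
  exact .rel _ _ ⟨a, b' * b, i, τ, h1, by simp only [mul_assoc], by simp only [mul_assoc]⟩

theorem Sim.mul {k : ℕ} {f g f' g' : Cob X} (h : Sim k f g) (h' : Sim k f' g') :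
    Sim k (f * f') (g * g') := by
  exact (h.right f').trans (h'.left g)

theorem Sim.up {k : ℕ} {f g : Cob X} (i : ℕ) (h : Sim k f g) : Sim k (GH.up i f) (GH.up i g) := by
  refine sim1_map (GH.up i) ?_ h
  rintro _ _ ⟨a, b, j, τ, h1, rfl, rfl⟩
  exact .rel _ _ ⟨GH.up i a, GH.up i b, i + j, τ, h1, by rw [map_mul, map_mul, up_up],
    by rw [map_mul, map_mul, up_up]⟩

theorem Sim.pr {k n : ℕ} {x y x' y' : Cob X} (h : Sim k x x') (h' : Sim k y y') :
    Sim k (GH.pr n x y) (GH.pr n x' y') := by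
  exact (h.mul (h'.up n)).right _

theorem sim_tree (τ : Tr) : Sim τ.nn (Rt τ : Cob X) (E (τ.nn + 1) * G e 0) := by
  exact Sim.symm (.rel _ _ ⟨1, 1, 0, τ, rfl, by rw [up_zero, one_mul, mul_one],
    by rw [up_zero, one_mul, mul_one]⟩)

theorem sim1_Ev (p : ℕ) : (E p * G e 0 * Ev : Cob X) = E (p + 1) := by
  rw [mul_assoc, eev0, E_add, sim1_one]

theorem sim1_YE {j p : ℕ} (h : j ≤ p) : (up j Y * E (p + 1) : Cob X) = E (p + 2) := by
  have e1 : (up j Y * G u j : Cob X) = G u j * G u j := by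
    have := congrArg (up j) (Yu (X := X))
    rwa [map_mul, map_mul] at this
  rw [← E_ins h, ← mul_assoc, e1, mul_assoc, E_ins h, E_ins (Nat.le_succ_of_le h)]

theorem sim_TT (τ : Tr) : Sim τ.nn (TT τ : Cob X) (E (τ.nn + 2)) := by
  exact ((sim_tree τ).right Ev).trans (Sim.of_eq (sim1_Ev _))

/-- PLAN: `peel`, `Yu`, `E_ins`. -/
theorem sim_succ {k : ℕ} {f g : Cob X} (h : Sim (k + 1) f g) : Sim k f g := by
  refine sim1_map id ?_ h
  rintro _ _ ⟨a, b, i, τ, h1, rfl, rfl⟩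
  obtain ⟨j, τ', rfl, h2, h3⟩ := peel (X := X) τ h1
  refine Sim.right (Sim.left a (Sim.up i ?_)) b
  rw [h3, ← sim1_YE h2, mul_assoc]
  exact ((sim_tree τ').left _).symm

theorem sim_le {k k' : ℕ} {f g : Cob X} (hk : k ≤ k') (h : Sim k' f g) : Sim k f g := by
  induction hk with
  | refl => exact h
  | step _ ih => exact ih (sim_succ h)

theorem nil_sim {D k : ℕ} (hD : Nil D X) (hk : D ≤ k) {f g : Cob X} (h : Sim k f g) : f = g := by
  have h' := sim_le hk h
  clear h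
  induction h' with
  | rel f g h =>
    obtain ⟨a, b, i, τ, h1, rfl, rfl⟩ := h
    rw [hD τ h1]
  | refl f => rfl
  | symm _ _ _ ih => exact ih.symm
  | trans _ _ _ _ _ ih ih' => exact ih.trans ih'

theorem lf_sim {k n : ℕ} {f g : Cob X} (h : Lf k n f g) : Sim k f g := by
  obtain ⟨x, τ, rfl, -, rfl, rfl⟩ := h
  exact ((sim_TT τ).left x).symm

theorem lit_rem {k i : ℕ} {F : Cob X} (h : Lit k i F) : Sim k F (F * G u i * G e i) := by
  obtain ⟨g, τ, rfl, rfl⟩ := h
  refine (((sim_tree τ).up i).left g).trans (Sim.of_eq ?_)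
  rw [← Rt_u, map_mul, map_mul, up_G, up_G, Nat.add_zero, ← mul_assoc, ← mul_assoc]

/-- Leaf form of a move in a typed context.  PLAN: take
`x = y * B false i (k + 1) * G w (k + 1) * up (k + 2) (B true 1 i * z)`; for `f` typed from `k + 1`
to `1`, `x * f * Ev = y * up i f * z` (`far`, `zL`, `natL`, `B_inv'`); `eev0`. -/
theorem univ (τ : Tr) {i r n : ℕ} {y z : Cob X} (hy : Ty 0 (i + (τ.nn + 1) + r) y)
    (hz : Ty (i + 1 + r) n z) :
    Lf τ.nn n (y * up i (E (τ.nn + 1) * G e 0) * z) (y * up i (Rt τ) * z) := by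
  have key : ∀ f : Cob X, Ty (τ.nn + 1) 1 f → y * up i f * z = y * B false i (τ.nn + 1) *
      G w (τ.nn + 1) * up (τ.nn + 2) (B true 1 i * z) * (f * Ev) := fun f hf => by
    have e1 : up (τ.nn + 2) (B true 1 i * z) * f = f * up 2 (B true 1 i * z) := (far hf 1 _).symm
    have e2 : G w (τ.nn + 1) * f = f * G w 1 := (far hf 0 (G w 0)).symm
    have e3 : up 2 (B true 1 i * z) * Ev = Ev * (B true 1 i * z) :=
      (far Ev_ty 0 _).symm.trans (congrArg (Ev * ·) (up_zero _))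
    have e4 : (B false i 1 * B true 1 i : Cob X) = 1 := B_inv false i 1
    rw [mul_assoc _ (up _ _) (f * Ev), ← mul_assoc (up _ _) f, e1, mul_assoc f, e3,
      mul_assoc _ (G w _), ← mul_assoc (G w _), e2, mul_assoc f, ← mul_assoc (G w 1), zL, one_mul,
      mul_assoc y (B _ _ _), ← mul_assoc (B _ _ _), natL false i hf, mul_assoc (up i f),
      ← mul_assoc (B _ _ _), e4, one_mul, mul_assoc]
  refine ⟨_, τ, rfl, ?_, (key _ ((E_ty _).mul (Ty.G e 0 le_rfl rfl))).trans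
    (congrArg _ (sim1_Ev _)), key _ (Rt_ty τ)⟩
  exact ((hy.mul ((B_ty false i (τ.nn + 1)).wide (q' := i + (τ.nn + 1) + r) (by omega)
    (by omega))).mul (Ty.G w _ (q := τ.nn + 2 + (i + 1 + r)) (by simp [Gn.ar]; omega)
      (by simp [Gn.ar, Gn.co]; omega))).mul
    ((((B_ty true 1 i).wide (by omega) (by omega)).mul hz).up _)

def slot (o : Bool) : Cob X := if o then TT Y1 else E 3

theorem slot_ty (o : Bool) : Ty 3 0 (slot o : Cob X) := by
  cases o
  · exact E_ty 3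
  · exact TT_ty Y1

theorem sel_nil : (mk (sel []) : Cob X) = 1 := rfl

theorem sel_cons (o : Bool) (s : List Bool) :
    (mk (sel (o :: s)) : Cob X) = slot o * mk (sel s) := by
  cases o
  · exact (mk_app (fl 3) (sel s)).trans (congrArg (· * mk (sel s)) (mk_fl 3))
  · rfl

theorem sel_ty (s : List Bool) : Ty (3 * s.length) 0 (mk (sel s) : Cob X) := by
  induction s with
  | nil => exact Ty.one 0
  | cons o s ih =>
    rw [sel_cons]
    exact ((slot_ty o).wide (by simp) (by simp; omega)).mul ih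

theorem sel_ins (s : List Bool) {q : ℕ} (hq : q ≤ s.length) (o : Bool) :
    (mk (sel (s.insertIdx q o)) : Cob X) = up (3 * q) (slot o) * mk (sel s) := by
  induction q generalizing s with
  | zero => rw [List.insertIdx_zero, sel_cons, Nat.mul_zero, up_zero]
  | succ q ih =>
    rcases s with _ | ⟨o', s⟩
    · simp at hq
    · have e1 := far (slot_ty (X := X) o') (3 * q) (slot o)
      rw [Nat.zero_add, show 3 + 3 * q = 3 * (q + 1) by omega] at e1
      rw [List.insertIdx_succ_cons, sel_cons, ih s (by simpa using hq), sel_cons, ← mul_assoc, e1,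
        mul_assoc]

theorem sim_sel (s : List Bool) : Sim 1 (mk (sel s) : Cob X) (E (3 * s.length)) := by
  induction s with
  | nil => exact Sim.refl _ _
  | cons o s ih =>
    rw [sel_cons, List.length_cons, show 3 * (s.length + 1) = 3 + 3 * s.length by omega, E_add]
    refine Sim.mul ?_ ih
    cases o
    · exact Sim.refl _ _
    · exact sim_TT Y1

/-- A tree with `k` nodes is a chain of `k` clasped Y-graphs.  PLAN: induction on `k = τ.nn`.
`k = 0`: `τ = lf`, `O = Ev`.  Step: `peel`; `up i Y = G w (i + 2) * B true i 3 * TT Y1` (`zL`,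
`natL`); `O = G w (i + 2) * B true i 3 * up 3 O'`.  With `E 3` instead of `TT Y1` the first factors
give `G u i * G u i * G e i` (`wuL`); use `e_TT`, `E_ins`, `Yu`. -/
theorem exists_O (τ : Tr) : ∃ O : Cob X, Ty (τ.nn + 2) (3 * τ.nn) O ∧
    ∀ s : List Bool, s.length = τ.nn →
      O * mk (sel s) = if s.all id then TT τ else E (τ.nn + 2) := by
  obtain ⟨k, hk⟩ : ∃ k, τ.nn = k := ⟨_, rfl⟩
  induction k generalizing τ with
  | zero =>
    rcases τ with _ | ⟨a, b⟩
    · refine ⟨Ev, Ev_ty, fun s hs => ?_⟩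
      obtain rfl : s = [] := List.length_eq_zero_iff.1 hs
      exact (mul_one _).trans (one_mul _).symm
    · cases hk
  | succ k ih =>
    obtain ⟨i, τ', h1, h2, h3⟩ := peel (X := X) τ hk
    obtain ⟨O, o1, o2⟩ := ih τ' h1
    rw [h1] at o1 o2
    rw [hk]
    refine ⟨G w (i + 2) * B true i 3 * up 3 O, ?_, fun s hs => ?_⟩
    · exact ((Ty.G w _ (q := k + 5) (by simp [Gn.ar]; omega) (by simp [Gn.ar, Gn.co])).mul
        ((B_ty true i 3).wide (q' := k + 5) (by omega) (by omega))).mul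
        (o1.at 3 (by omega) (by omega))
    · rcases s with _ | ⟨o, s⟩
      · simp at hs
      have e1 : up 3 O * slot o = slot o * O :=
        (far (slot_ty o) 0 O).symm.trans (congrArg (slot o * ·) (up_zero _))
      have e2 : (G w (i + 2) : Cob X) = up i (G w 2) := rfl
      rw [sel_cons, mul_assoc, ← mul_assoc (up 3 O), e1, mul_assoc (slot o),
        o2 s (by simpa using hs), mul_assoc, ← mul_assoc (B _ _ _), natL true i (slot_ty o),
        B_zero_right, mul_one, ← mul_assoc, e2, ← map_mul, List.all_cons]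
      cases o
      · have e3 : (G w 2 * slot false : Cob X) = G u 0 * G u 0 * G e 0 := by
          have a1 : (up 2 (G w 0) * up 2 (E 1) : Cob X) = up 2 (G e 0) := by
            rw [← map_mul, sim1_one, wuL]
          have a2 := far (E_ty (X := X) 2) 0 (G e 0)
          have a3 : (E 2 : Cob X) = G u 0 * G u 0 := by rw [E_succ, sim1_one]
          show up 2 (G w 0) * E (2 + 1) = _
          rw [E_add', ← mul_assoc, a1, ← a2, a3]
          rfl
        have e4 : (G e i * (if s.all id then TT τ' else E (k + 2)) : Cob X) = E (k + 1) := by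
          split_ifs
          · rw [e_TT τ' (by omega), h1]
          · have a1 : (G e i * G u i : Cob X) = 1 := congrArg (up i) ax_eu
            rw [← E_ins (show i ≤ k + 1 by omega), ← mul_assoc, a1, one_mul]
        rw [e3, map_mul, map_mul, up_G, up_G, Nat.add_zero, mul_assoc, e4, mul_assoc,
          E_ins (by omega), E_ins (by omega)]
        rfl
      · have e3 : (G w 2 * slot true : Cob X) = Y := by
          have a1 : (up 2 (G w 0) * Y : Cob X) = Y * G w 1 := (far Y_ty 0 (G w 0)).symm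
          show up 2 (G w 0) * (Y * Ev) = _
          rw [← mul_assoc, a1, mul_assoc, zL, mul_one]
        rw [e3, id, Bool.true_and]
        split_ifs
        · rw [TT, TT, h3, mul_assoc]
        · exact sim1_YE (by omega)

end Pool.Agent.GH
end

-- merged part: Pool.Agent.Work.MP_c00b06_gt.AdN
section
/-! The diagonal adjoint action is natural. -/

namespace Pool.Agent.GH
open Gn

variable {X : Wd → Wd → Prop}

theorem adn_zero : (adN 0 : Cob X) = G u 0 := rfl

theorem adn_succ (n : ℕ) : (adN (n + 1) : Cob X) = G d 0 * G P 1 * Ad * up 1 (adN n) := rfl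

theorem adn_gty (g : Gn) : Ty g.ar g.co (G g 0 : Cob X) := Ty.G g 0 (by omega) (by omega)

theorem adn_hty : Ty 2 2 (G d 0 * G P 1 * Ad : Cob X) :=
  ((Ty.G d 0 (q := 3) (by simp [Gn.ar]) (by simp [Gn.ar, Gn.co])).mul
    (Ty.G P 1 (q := 3) (by simp [Gn.ar]) (by simp [Gn.ar, Gn.co]))).mul (Ad_ty.pad 1)

theorem adN_ty (n : ℕ) : Ty (n + 1) n (adN n : Cob X) := by
  induction n with
  | zero => exact adn_gty u
  | succ n ih =>
    exact (adn_hty.wide (q' := n + 1 + 1) (by omega) (by omega)).mul (ih.at 1 (by omega) (by omega))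

theorem adN_one : (adN 1 : Cob X) = Ad := by
  have h1 : (Ad * up 1 (G u 0) : Cob X) = up 2 (G u 0) * Ad := far Ad_ty 0 _
  have h2 : (G u 0 * B true 0 1 : Cob X) = B true 1 1 * up 1 (G u 0) := natR true 1 (adn_gty u)
  have h3 := congrArg (up 1) h2
  rw [B_zero_left, mul_one, B_one_one, map_mul, up_up, up_G, up_G, cr_true] at h3
  rw [adn_succ, adn_zero, mul_assoc, h1, ← mul_assoc, mul_assoc (G d 0), ← h3, ax_dR, one_mul]

theorem adN_two : (adN 2 : Cob X) = G d 0 * G P 1 * Ad * up 1 Ad := by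
  rw [adn_succ, adN_one]

theorem adn_co : (G d 0 * G P 1 * Ad * G d 1 : Cob X) = G d 0 * G P 1 * (G d 0 * G P 1 * Ad) := by
  have h1 : (Ad * G d 1 : Cob X) = G d 2 * Ad := far Ad_ty 0 (G d 0)
  have h2 : (G d 0 * B true 2 1 : Cob X) = B true 1 1 * up 1 (G d 0) := natR true 1 (adn_gty d)
  have h3 := congrArg (up 1) h2
  rw [B_succ_left, B_one_one, cr_true] at h3
  have h4 : (G d 1 * (G P 2 * G P 1) : Cob X) = G P 1 * G d 2 := by
    simpa only [map_mul, up_G] using h3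
  have h5 : (G d 0 * G P 2 : Cob X) = G P 1 * G d 0 := far_G d P 0 2 le_rfl
  calc (G d 0 * G P 1 * Ad * G d 1 : Cob X) = G d 0 * (G P 1 * G d 2) * Ad := by
        rw [mul_assoc, h1]; simp only [mul_assoc]
    _ = G d 0 * G d 1 * G P 2 * G P 1 * Ad := by rw [← h4]; simp only [mul_assoc]
    _ = G d 0 * (G d 0 * G P 2) * G P 1 * Ad := by rw [← ax_dA]; simp only [mul_assoc]
    _ = _ := by rw [h5]; simp only [mul_assoc]

/-- PLAN: induction on `p`; coassociativity. -/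
theorem adN_add (p q : ℕ) :
    (adN (p + q) : Cob X) = G d 0 * up 1 (B true 1 p) * adN p * up p (adN q) := by
  induction p with
  | zero => rw [B_zero_right, map_one, mul_one, adn_zero, ax_dL, one_mul, up_zero, Nat.zero_add]
  | succ p ih =>
    have h1 := far (adn_hty (X := X)) 0 (B true 1 p)
    have h2 : (up 1 (B true 1 (p + 1)) : Cob X) = G P 1 * up 2 (B true 1 p) := by
      rw [Nat.add_comm p 1, B_one_add, B_one_one, map_mul, up_up, cr_true, up_G]
    rw [show p + 1 + q = p + q + 1 by omega, adn_succ, ih, adn_succ, h2, map_mul, map_mul, map_mul,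
      up_up, up_up, up_G, Nat.add_comm 1 p, ← mul_assoc, ← mul_assoc, ← mul_assoc, adn_co,
      mul_assoc (G d 0 * G P 1), h1]
    simp only [mul_assoc]

/-- PLAN: `IP IQ Im Ie Id Iu IS IT Il Iv IV Iw`. -/
theorem nat_ad_zero (g : Gn) : (G g 1 * adN g.co : Cob X) = adN g.ar * G g 0 := by
  cases g
  · simpa only [Gn.ar, Gn.co, adN_two, mul_assoc] using IP
  · simpa only [Gn.ar, Gn.co, adN_two, mul_assoc] using IQ
  · simpa only [Gn.ar, Gn.co, adN_two, adN_one, mul_assoc] using Im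
  · simpa only [Gn.ar, Gn.co, adN_one, adn_zero] using Ie
  · simpa only [Gn.ar, Gn.co, adN_two, adN_one, mul_assoc] using Id.symm
  · simp only [Gn.ar, Gn.co, adN_one, adn_zero, Iu]
    exact (far_G u u 0 0 le_rfl).symm
  · simpa only [Gn.ar, Gn.co, adN_one] using IS.symm
  · simpa only [Gn.ar, Gn.co, adN_one] using IT.symm
  · simpa only [Gn.ar, Gn.co, adN_one, adn_zero] using Il.symm
  · simpa only [Gn.ar, Gn.co, adN_one, adn_zero] using Iv
  · simpa only [Gn.ar, Gn.co, adN_one, adn_zero] using IV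
  · simpa only [Gn.ar, Gn.co, adN_two, adn_zero, mul_assoc] using Iw

theorem nat_ad_G (g : Gn) (i r : ℕ) :
    (G g (1 + i) * adN (i + g.co + r) : Cob X) = adN (i + g.ar + r) * G g i := by
  induction i with
  | zero =>
    have h1 : (G d 0 * G g 2 : Cob X) = G g 1 * G d 0 := far_G d g 0 2 le_rfl
    have h2 := congrArg (up 1) (natL_one (X := X) true (adn_gty g))
    have h3 := far (adn_gty (X := X) g) 0 (adN r)
    simp only [map_mul, up_G, Nat.add_zero] at h2 h3
    simp only [Nat.zero_add, Nat.add_zero]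
    rw [adN_add, adN_add, ← mul_assoc, ← mul_assoc, ← mul_assoc, ← h1, mul_assoc (G d 0), ← h2,
      ← mul_assoc, mul_assoc _ (G g 1), nat_ad_zero, ← mul_assoc, mul_assoc _ (G g 0), h3,
      ← mul_assoc]
  | succ i ih =>
    have h1 := far (adn_hty (X := X)) i (G g 0)
    have h2 := congrArg (up 1) ih
    simp only [map_mul, up_G, Nat.add_zero] at h1 h2
    rw [show i + 1 + g.co + r = i + g.co + r + 1 by omega,
      show i + 1 + g.ar + r = i + g.ar + r + 1 by omega, adn_succ, adn_succ,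
      show 1 + (i + 1) = 2 + i by omega, ← mul_assoc, ← h1, mul_assoc,
      show 2 + i = 1 + (1 + i) by omega, h2, Nat.add_comm 1 i, ← mul_assoc]

/-- PLAN: `Ty.ind_end`. -/
theorem nat_ad {p q : ℕ} {f : Cob X} (hf : Ty p q f) : up 1 f * adN q = adN p * f := by
  refine Ty.ind_end (p := p) (C := fun q f => up 1 f * adN q = adN p * f) ?_ ?_ hf
  · simp
  · intro q f g i _ ih hi
    have h := nat_ad_G (X := X) g i (q - (i + g.ar))
    rw [show i + g.ar + (q - (i + g.ar)) = q by omega,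
      show i + g.co + (q - (i + g.ar)) = q - g.ar + g.co by omega] at h
    rw [map_mul, up_G, mul_assoc, h, ← mul_assoc, ih, mul_assoc]

theorem pr_comm_zero {x y : Cob X} (hx : Ty 0 0 x) : pr 0 x y = pr 0 y x := by
  have h := far hx 0 y
  simp only [pr, Mu, mul_one, up_zero, Nat.add_zero] at h ⊢
  exact h

/-- PLAN: `Mu 1 = G m 0 = d0 P1 ad0 m0` (`adm`); `up 2 y * G P 1 = up 1 y` (`natL`);
`up 1 y * Ad = G u 0 * y` (`nat_ad`); `x * y = y * up 1 x` (`far`). -/
theorem pr_comm_one {x y : Cob X} (hx : Ty 0 1 x) (hy : Ty 0 1 y) : pr 1 x y = pr 1 y x := by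
  have h0 : (Mu 1 : Cob X) = G m 0 := by simp [Mu, B_zero_left]
  have h1 : G d 0 * up 2 y = up 1 y * G d 0 := far (adn_gty d) 0 y
  have h2 := congrArg (up 1) (natL_one true hy)
  rw [B_zero_right, one_mul, B_one_one, map_mul, up_up, up_G, cr_true] at h2
  have h3 := nat_ad hy
  rw [adN_one, adn_zero] at h3
  have h4 := far hy 0 x
  rw [up_zero] at h4
  have h5 : up 1 y * G m 0 = y * G m 0 := by
    rw [← adm, ← mul_assoc, ← mul_assoc, ← mul_assoc, ← h1, mul_assoc (G d 0), ← h2,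
      mul_assoc (G d 0), h3, ← mul_assoc, ax_dL, one_mul, adm]
  rw [pr, pr, h0, mul_assoc, h5, ← mul_assoc, h4]

end Pool.Agent.GH
end

-- merged part: Pool.Agent.Work.MP_c00b06_gt.Lit1
section
/-! Handles that are literally the output of a tree. -/

namespace Pool.Agent.GH
open Gn

variable {X : Wd → Wd → Prop}

theorem tg_one (p : ℕ) : TG p (1 : Cob X) := by
  exact ⟨Ty.one p, one_mul _⟩

theorem tg_mul {p : ℕ} {f g : Cob X} (hf : TG p f) (hg : TG p g) : TG p (f * g) := by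
  exact ⟨hf.1.mul hg.1, by rw [mul_assoc, hg.2, hf.2]⟩

theorem tg_at {p : ℕ} {g : Cob X} (hg : TG p g) (i : ℕ) {q : ℕ} (h : i + p ≤ q) :
    TG q (up i g) := by
  refine ⟨hg.1.at i h (by omega), ?_⟩
  obtain ⟨r, rfl⟩ : ∃ r, q = i + (p + r) := ⟨q - (i + p), by omega⟩
  rw [E_add', E_add, ← mul_assoc, ← map_mul, ← mul_assoc, hg.2]

theorem tg_B (s : Bool) (p q : ℕ) : TG (p + q) (B s p q : Cob X) := by
  refine ⟨(B_ty s p q).cast rfl (Nat.add_comm q p), ?_⟩
  conv_lhs => rw [Nat.add_comm p q, E_add, ← mul_assoc, B_E]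
  rw [E_add']

theorem lit1_swap (s : Bool) {p q : ℕ} {f g : Cob X} (hf : Ty p 1 f) (hg : Ty q 1 g) :
    f * up 1 g * G (cr s) 0 = B s p q * (g * up 1 f) := by
  have h := far hg 0 f
  rw [Nat.add_zero, Nat.add_zero] at h
  rw [← B_one_one, mul_assoc, ← natL s 1 hg, ← mul_assoc, natR s q hf, mul_assoc, h]

theorem lit1_two {c : Cob X} {n : ℕ} (h : ∀ τ : Tr, τ.nn = n → ∃ (g : Cob X) (τ' : Tr),
    τ'.nn = τ.nn ∧ TG (τ.nn + 1) g ∧ Rt τ * c = g * Rt τ') (τ : Tr) (hτ : τ.nn = n) :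
    ∃ (g : Cob X) (τ' : Tr), τ'.nn = τ.nn ∧ TG (τ.nn + 1) g ∧ Rt τ * c * c = g * Rt τ' := by
  obtain ⟨g, τ', h1, h2, h3⟩ := h τ hτ
  obtain ⟨g', τ'', h4, h5, h6⟩ := h τ' (h1.trans hτ)
  exact ⟨g * g', τ'', h4.trans h1, tg_mul h2 (h1 ▸ h5), by rw [h3, mul_assoc, h6, mul_assoc]⟩



/-- PLAN: strong induction on `τ.nn` (all trees of that size); `YS`, `natL`, `natR`. -/
theorem rt_S (τ : Tr) : ∃ (g : Cob X) (τ' : Tr), τ'.nn = τ.nn ∧ TG (τ.nn + 1) g ∧
    Rt τ * G S 0 = g * Rt τ' := by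
  induction h : τ.nn using Nat.strong_induction_on generalizing τ with
  | _ n ih =>
    subst h
    cases τ with
    | lf =>
      refine ⟨G S 0, .lf, rfl, ⟨Ty.G S 0 le_rfl rfl, ?_⟩, by rw [Rt_lf, one_mul, mul_one]⟩
      exact (mul_assoc _ _ _).symm.trans (congrArg (· * E 0) Su)
    | nd a b =>
      obtain ⟨g, b', h1, h2, h3⟩ := lit1_two (X := X) (c := G S 0) (n := b.nn)
        (fun τ hτ => hτ ▸ ih b.nn (by simp only [Tr.nn]; omega) τ hτ) b rfl
      have h4 := far (Rt_ty (X := X) a) 0 g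
      rw [Nat.add_zero, Nat.add_zero] at h4
      have h5 := lit1_swap true (Rt_ty (X := X) a) (Rt_ty b')
      have h6 := congrArg (up 1) h3
      simp only [map_mul, up_G, Nat.add_zero] at h6
      refine ⟨up (a.nn + 1) g * B true (a.nn + 1) (b'.nn + 1), .nd b' a,
        by simp only [Tr.nn]; omega, tg_mul (tg_at h2 _ (by simp only [Tr.nn]; omega)) ?_, ?_⟩
      · have := tg_B (X := X) true (a.nn + 1) (b'.nn + 1)
        rwa [show a.nn + 1 + (b'.nn + 1) = (Tr.nd a b).nn + 1 by simp only [Tr.nn]; omega] at this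
      · calc Rt (.nd a b) * G S 0
            = Rt a * (up 1 (Rt b) * G S 1 * G S 1) * G P 0 * Y := by
              rw [Rt_nd, mul_assoc, YS]
              simp only [mul_assoc]
          _ = up (a.nn + 1) g * (Rt a * up 1 (Rt b') * G (cr true) 0) * Y := by
              rw [h6, ← mul_assoc, h4, cr_true]
              simp only [mul_assoc]
          _ = _ := by
              rw [h5, Rt_nd]
              simp only [mul_assoc]

/-- PLAN: the same with `YT`. -/
theorem rt_T (τ : Tr) : ∃ (g : Cob X) (τ' : Tr), τ'.nn = τ.nn ∧ TG (τ.nn + 1) g ∧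
    Rt τ * G T 0 = g * Rt τ' := by
  induction h : τ.nn using Nat.strong_induction_on generalizing τ with
  | _ n ih =>
    subst h
    cases τ with
    | lf =>
      refine ⟨G T 0, .lf, rfl, ⟨Ty.G T 0 le_rfl rfl, ?_⟩, by rw [Rt_lf, one_mul, mul_one]⟩
      exact (mul_assoc _ _ _).symm.trans (congrArg (· * E 0) Tu)
    | nd a b =>
      obtain ⟨g, a', h1, h2, h3⟩ := lit1_two (X := X) (c := G T 0) (n := a.nn)
        (fun τ hτ => hτ ▸ ih a.nn (by simp only [Tr.nn]; omega) τ hτ) a rfl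
      have h4 : G T 0 * up 1 (Rt b) = up 1 (Rt b) * G T 0 := far_Gf (X := X) T 0 1 le_rfl _
      have h5 := lit1_swap false (Rt_ty (X := X) a') (Rt_ty b)
      refine ⟨up 0 g * B false (a'.nn + 1) (b.nn + 1), .nd b a',
        by simp only [Tr.nn]; omega, tg_mul (tg_at h2 _ (by simp only [Tr.nn]; omega)) ?_, ?_⟩
      · have := tg_B (X := X) false (a'.nn + 1) (b.nn + 1)
        rwa [show a'.nn + 1 + (b.nn + 1) = (Tr.nd a b).nn + 1 by simp only [Tr.nn]; omega] at this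
      · calc Rt (.nd a b) * G T 0
            = Rt a * (up 1 (Rt b) * G T 0 * G T 0) * G Q 0 * Y := by
              rw [Rt_nd, mul_assoc, YT]
              simp only [mul_assoc]
          _ = Rt a * G T 0 * G T 0 * up 1 (Rt b) * G Q 0 * Y := by
              rw [← h4, mul_assoc (G T 0), ← h4]
              simp only [mul_assoc]
          _ = g * (Rt a' * up 1 (Rt b) * G (cr false) 0) * Y := by
              rw [h3, cr_false]
              simp only [mul_assoc]
          _ = _ := by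
              rw [h5, Rt_nd, up_zero]
              simp only [mul_assoc]

variable {k i : ℕ} {f : Cob X}

theorem lit_zero (i : ℕ) (f : Cob X) : Lit 0 i f := by
  exact ⟨f, .lf, rfl, by rw [Rt_lf, map_one, mul_one]⟩

theorem lit_pre (h : Cob X) (hf : Lit k i f) : Lit k i (h * f) := by
  obtain ⟨g, τ, h1, rfl⟩ := hf
  exact ⟨h * g, τ, h1, (mul_assoc _ _ _).symm⟩

theorem lit_up (o : ℕ) (hf : Lit k i f) : Lit k (o + i) (up o f) := by
  obtain ⟨g, τ, h1, rfl⟩ := hf
  exact ⟨up o g, τ, h1, by rw [map_mul, up_up]⟩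

theorem lit_farR (hf : Lit k i f) {j : ℕ} (hj : i < j) (h : Cob X) : Lit k i (f * up j h) := by
  obtain ⟨g, τ, h1, rfl⟩ := hf
  exact ⟨g * up (j + τ.nn) h, τ, h1, by
    rw [mul_assoc, far_at (Rt_ty τ) i j (j + τ.nn) hj (by omega), mul_assoc]⟩

theorem lit_farL (hf : Lit k i f) {p q j i' : ℕ} {h : Cob X} (hh : Ty p q h) (hj : j + p ≤ i)
    (hi : i' + p = i + q) : Lit k i' (f * up j h) := by
  obtain ⟨g, τ, h1, rfl⟩ := hf
  exact ⟨g * up j h, τ, h1, by
    rw [mul_assoc, ← far_at hh j i' i (by omega) hi.symm, mul_assoc]⟩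

theorem lit_B0 (s : Bool) (q : ℕ) (hf : Lit k i f) : Lit k (i + q) (f * up i (B s 1 q)) := by
  obtain ⟨g, τ, h1, rfl⟩ := hf
  exact ⟨g * up i (B s (τ.nn + 1) q), τ, h1, by
    rw [mul_assoc, ← map_mul, natR s q (Rt_ty τ), map_mul, up_up, mul_assoc]⟩

theorem lit_B1 (s : Bool) (q : ℕ) (hf : Lit k (i + q) f) : Lit k i (f * up i (B s q 1)) := by
  obtain ⟨g, τ, h1, rfl⟩ := hf
  exact ⟨g * up i (B s q (τ.nn + 1)), τ, h1, by
    rw [mul_assoc, ← up_up, ← map_mul, ← natL s q (Rt_ty τ), map_mul, mul_assoc]⟩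

theorem lit_cr0 (s : Bool) (hf : Lit k i f) : Lit k (i + 1) (f * G (cr s) i) := by
  have := lit_B0 s 1 hf
  rwa [B_one_one, up_G, Nat.add_zero] at this

theorem lit_cr1 (s : Bool) (hf : Lit k (i + 1) f) : Lit k i (f * G (cr s) i) := by
  have := lit_B1 s 1 hf
  rwa [B_one_one, up_G, Nat.add_zero] at this

theorem lit_S (hf : Lit k i f) : Lit k i (f * G S i) := by
  obtain ⟨g, τ, h1, rfl⟩ := hf
  obtain ⟨g', τ', h2, -, h3⟩ := rt_S (X := X) τ
  have := congrArg (up i) h3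
  rw [map_mul, map_mul, up_G, Nat.add_zero] at this
  exact ⟨g * up i g', τ', h2.trans h1, by rw [mul_assoc, this, mul_assoc]⟩

theorem lit_T (hf : Lit k i f) : Lit k i (f * G T i) := by
  obtain ⟨g, τ, h1, rfl⟩ := hf
  obtain ⟨g', τ', h2, -, h3⟩ := rt_T (X := X) τ
  have := congrArg (up i) h3
  rw [map_mul, map_mul, up_G, Nat.add_zero] at this
  exact ⟨g * up i g', τ', h2.trans h1, by rw [mul_assoc, this, mul_assoc]⟩

/-- PLAN: `nat_ad`. -/
theorem lit_ad (hf : Lit k (i + 1) f) : Lit k i (f * up i Ad) := by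
  obtain ⟨g, τ, h1, rfl⟩ := hf
  exact ⟨g * up i (adN (τ.nn + 1)), τ, h1, by
    rw [mul_assoc, ← up_up, ← map_mul, ← adN_one, nat_ad (Rt_ty τ), map_mul, mul_assoc]⟩

theorem lit_Y0 (hf : Lit k i f) : Lit (k + 1) i (f * up i Y) := by
  obtain ⟨g, τ, rfl, rfl⟩ := hf
  exact ⟨g, .nd τ .lf, rfl, by rw [Rt_nd, Rt_lf, map_one, mul_one, map_mul, mul_assoc]⟩

theorem lit_Y1 (hf : Lit k (i + 1) f) : Lit (k + 1) i (f * up i Y) := by
  obtain ⟨g, τ, rfl, rfl⟩ := hf
  exact ⟨g, .nd .lf τ, by simp [Tr.nn], by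
    rw [Rt_nd, Rt_lf, one_mul, map_mul, up_up, mul_assoc]⟩

theorem lit1_G (hf : Lit k i f) (g : Gn) (j i' : ℕ) (hj : j + g.ar ≤ i)
    (hi : i' + g.ar = i + g.co) : Lit k i' (f * G g j) :=
  lit_farL hf (h := G g 0) (Ty.G g 0 (p := g.ar) (q := g.co) (by omega) (by omega)) hj hi

theorem lit1_fst (hf : Lit k (i + 1) (f * G d i)) : Lit k i (f * G d i) := by
  have h1 := lit1_G hf w i (i + 3) (by simp [Gn.ar]) (by simp [Gn.ar, Gn.co])
  have h2 := lit1_G h1 T i (i + 3) (by simp [Gn.ar]) (by simp [Gn.ar, Gn.co])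
  have h3 := lit1_G h2 P (i + 1) (i + 3) (by simp [Gn.ar]) (by simp [Gn.ar, Gn.co])
  have h4 := lit1_G h3 m i (i + 1 + 1) (by simp [Gn.ar]) (by simp [Gn.ar, Gn.co])
  have h5 := lit_cr1 false (lit_ad h4)
  have e := congrArg (up i) (SW2 (X := X))
  simp only [map_mul, up_G, up_up, Nat.add_zero] at e
  rw [← e]
  simpa only [mul_assoc, cr_false] using h5

theorem lit1_mv {q : ℕ} {h : Cob X} (hh : Ty q 1 h) :
    up 3 h * (G P 1 * G P 3 * G P 2 * Ad * G S 1 * G m 0) =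
      G P 1 * up 3 (B true q 1) * G P 2 * Ad * G S 1 * G m 0 * up 2 h := by
  have e1 : G P 1 * up 3 h = up 3 h * G P 1 := far_Gf P 1 3 le_rfl h
  have e2 := congrArg (up 3) (natR true 1 hh)
  rw [B_one_one, map_mul, map_mul, up_G, up_up, cr_true] at e2
  have e2' : up 3 h * G P 3 = up 3 (B true q 1) * up 4 h := e2
  have e3 : G P 2 * up 4 h = up 4 h * G P 2 := far_Gf P 2 4 le_rfl h
  have e4 : Ad * up 3 h = up 4 h * Ad := far Ad_ty 2 h
  have e5 : G S 1 * up 3 h = up 3 h * G S 1 := far_Gf S 1 3 (by simp [Gn.co]) h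
  have e6 : G m 0 * up 2 h = up 3 h * G m 0 := far_Gf m 0 2 (by simp [Gn.co]) h
  rw [mul_assoc _ (G m 0) (up 2 h), e6, ← mul_assoc _ (up 3 h) (G m 0),
    mul_assoc _ (G S 1) (up 3 h), e5, ← mul_assoc _ (up 3 h) (G S 1), mul_assoc _ Ad (up 3 h), e4,
    ← mul_assoc _ (up 4 h) Ad, mul_assoc _ (G P 2) (up 4 h), e3, ← mul_assoc _ (up 4 h) (G P 2),
    mul_assoc _ _ (up 4 h), ← e2', ← mul_assoc _ (up 3 h) (G P 3), e1]
  simp only [mul_assoc]



/-- Both copies of a literal handle are literal (one at a time).  PLAN: strong induction on `k`,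
both parts for all `i f`.  Second part for `nd a b`: `Yd` says that the second copy of `Y` is `Y`
applied to the second copy of the first input and to the middle copy (first copy of the second
copy) of the second input; write `Rt a * d0 = ga * up 1 (Rt a')`,
`Rt b * d0 * d1 = gb * up 1 (Rt b')` and move `Rt a'`, `Rt b'` through the braids (the tool does
it, with boxes).  First part from the second one by `SW2` (the first copy is the second copy acted
on: `lit_farL`, `lit_cr`, `lit_ad`). -/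
theorem lit_d (hf : Lit k i f) : Lit k i (f * G d i) ∧ Lit k (i + 1) (f * G d i) := by
  suffices H : ∀ (k i : ℕ) (f : Cob X), Lit k i f → Lit k (i + 1) (f * G d i) from
    ⟨lit1_fst (H k i f hf), H k i f hf⟩
  intro k
  induction k using Nat.strong_induction_on with
  | _ k ih =>
    rintro i _ ⟨g, τ, rfl, rfl⟩
    rw [mul_assoc, show (G d i : Cob X) = up i (G d 0) from rfl, ← map_mul]
    refine lit_pre g (lit_up i ?_)
    cases τ with
    | lf => exact lit_zero 1 _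
    | nd a b =>
      have h0 : ∀ τ : Tr, Lit τ.nn 0 (Rt τ : Cob X) := fun τ =>
        ⟨1, τ, rfl, by rw [up_zero, one_mul]⟩
      have hb := ih b.nn (by simp only [Tr.nn]; omega)
      obtain ⟨gb, b', h1, h2⟩ := lit1_fst (hb _ _ (hb _ _ (h0 b)))
      have h3 := lit_cr0 true (lit_farR (ih a.nn (by simp only [Tr.nn]; omega) _ _ (h0 a))
        (j := 2) (by omega) gb)
      have h4 := lit_cr0 true (lit_farR h3 (j := 3) (by omega) (B true (b'.nn + 1) 1))
      have h5 := lit_farL h4 Ad_ty (j := 0) (i' := 2) (by omega) (by omega)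
      obtain ⟨ga, a', h6, h7⟩ := lit1_G (lit1_G h5 S 1 2 (by simp [Gn.ar])
        (by simp [Gn.ar, Gn.co])) m 0 1 (by simp [Gn.ar]) (by simp [Gn.ar, Gn.co])
      refine ⟨ga, .nd a' b', by simp only [Tr.nn, h1, h6], ?_⟩
      have e1 : G d 0 * up 2 (Rt b) = up 1 (Rt b : Cob X) * G d 0 := far_Gf d 0 2 le_rfl _
      have e2 := congrArg (up 2) h2
      simp only [map_mul, up_G, up_up, Nat.zero_add, Nat.add_zero, Nat.reduceAdd] at e2
      simp only [cr_true, up_zero, Nat.zero_add, Nat.reduceAdd] at h7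
      calc Rt (.nd a b) * G d 0
          = Rt a * (up 1 (Rt b) * G d 0) * G d 2 * G d 3 *
            (G P 1 * G P 3 * G P 2 * Ad * G S 1 * G m 0) * up 1 Y := by
            rw [Rt_nd, mul_assoc, Yd]
            simp only [mul_assoc]
        _ = Rt a * G d 0 * (up 2 (Rt b) * G d 2 * G d 3) *
            (G P 1 * G P 3 * G P 2 * Ad * G S 1 * G m 0) * up 1 Y := by
            rw [← e1]
            simp only [mul_assoc]
        _ = Rt a * G d 0 * up 2 gb * (up 3 (Rt b') *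
            (G P 1 * G P 3 * G P 2 * Ad * G S 1 * G m 0)) * up 1 Y := by
            rw [e2]
            simp only [mul_assoc]
        _ = Rt a * G d 0 * up 2 gb * G P 1 * up 3 (B true (b'.nn + 1) 1) * G P 2 * Ad * G S 1 *
            G m 0 * up 2 (Rt b') * up 1 Y := by
            rw [lit1_mv (Rt_ty b')]
            simp only [mul_assoc]
        _ = _ := by
            rw [h7, Rt_nd, map_mul, map_mul, up_up]
            simp only [mul_assoc]

/-- The inverse of a tree surgery is a tree surgery.  PLAN: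
`E (k + 1) * G e 0 = Rt τ * d0 * S1 * m0` (`ax_aR`, `Rt_u`), `Rt τ * d0 * S1 = g * up 1 (Rt τ')`,
and `g * up 1 (E (k + 1)) = Rt τ`. -/
theorem mv_symm {g : Cob X} (h : Mv k f g) : Mv k g f := by
  obtain ⟨a, b, i, τ, rfl, rfl, rfl⟩ := h
  have h0 : Lit τ.nn 0 (Rt τ : Cob X) := ⟨1, τ, rfl, by rw [up_zero, one_mul]⟩
  obtain ⟨γ, τ', h1, h2⟩ := lit_S (lit_d h0).2
  rw [Nat.zero_add] at h2
  have e1 : (E (τ.nn + 1) * G e 0 : Cob X) = γ * up 1 (Rt τ') * G m 0 := by
    rw [← h2, ← Rt_u, mul_assoc, ← ax_aR]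
    simp only [mul_assoc]
  have e2 : (Rt τ : Cob X) = γ * up 1 (E (τ.nn + 1) * G e 0) * G m 0 := by
    have e3 : (G S 1 * G u 1 : Cob X) = G u 1 := congrArg (up 1) (Su (X := X))
    rw [← h1, ← Rt_u, map_mul, map_mul, up_G, up_G, ← mul_assoc, ← mul_assoc, ← h2,
      mul_assoc _ (G e _), ax_mR, mul_one, mul_assoc _ (G S 1), e3, mul_assoc, ax_dR, mul_one]
  refine ⟨a * up i γ, G m i * b, i + 1, τ', h1, ?_, ?_⟩
  · rw [e2]
    simp only [map_mul, up_G, up_up, Nat.add_zero, mul_assoc]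
  · rw [e1]
    simp only [map_mul, up_G, up_up, Nat.add_zero, mul_assoc]

theorem lit1_rtg {g : Cob X} (h : Relation.ReflTransGen (Mv k) f g) :
    Relation.ReflTransGen (Mv k) g f := by
  induction h with
  | refl => exact .refl
  | tail _ h ih => exact .head (mv_symm h) ih



theorem sim_rtg {g : Cob X} (h : Sim k f g) : Relation.ReflTransGen (Mv k) f g := by
  induction h with
  | rel _ _ h => exact .single h
  | refl => exact .refl
  | symm _ _ _ ih => exact lit1_rtg ih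
  | trans _ _ _ _ _ h1 h2 => exact h1.trans h2

end Pool.Agent.GH
end

-- merged part: Pool.Agent.Work.MP_c00b06_gt.Sem4
section
/-! Invariance under Sim; leaf form of Sim; the nilpotent quotient. -/

namespace Pool.Agent.GH
open Gn

variable {X : Wd → Wd → Prop}

theorem sem4_fe (p : ℕ) : (mk (fl p ++ [(0, e)]) : Cob X) = E p * G e 0 := by
  rw [mk_app, mk_fl]; rfl

theorem sem4_ctx (p q : Wd) (i : ℕ) (x : Wd) :
    (mk (p ++ sh i x ++ q) : Cob X) = mk p * up i (mk x) * mk q := rfl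

theorem sem4_Y {τ : Tr} (h : τ.nn = 1) : τ.wd = Yn := by
  rcases τ with _ | ⟨_ | a, _ | b⟩ <;> simp [Tr.nn] at h
  rfl

/-- PLAN: a tree with one node is `nd lf lf`, whose word is `Yn`; `eqg_Y`, `eqg_ctx`, `eqg_mk`;
prove it for all representatives by induction on `EqvGen`. -/
theorem eqg_sim [Snd X] (Γ : Type) [CommGroup Γ] {x y : Wd} (h : Sim 1 (mk x : Cob X) (mk y)) :
    EqG Γ x y := by
  suffices H : ∀ f g : Cob X, Sim 1 f g → ∀ x y, mk x = f → mk y = g → EqG Γ x y from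
    H _ _ h x y rfl rfl
  intro f g h
  induction h with
  | rel f g h =>
    obtain ⟨a, b, i, τ, hτ, rfl, rfl⟩ := h
    induction a using ind with | h p => ?_
    induction b using ind with | h q => ?_
    intro x y hx hy
    rw [← sem4_fe, ← sem4_ctx] at hx
    rw [Rt, sem4_Y hτ, ← sem4_ctx] at hy
    exact (eqg_mk hx).trans ((eqg_ctx p q i (eqg_Y Γ).symm).trans (eqg_mk hy).symm)
  | refl f => exact fun x y hx hy => eqg_mk (hx.trans hy.symm)
  | symm f g _ ih => exact fun x y hx hy => (ih y x hy hx).symm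
  | trans f g k _ _ ih ih' =>
    induction g using ind with | h z => ?_
    exact fun x y hx hy => (ih x z hx rfl).trans (ih' z y rfl hy)

theorem R_sim {Γ : Type} [Group Γ] [Gd Γ X] (F : Flt Γ) {k : ℕ} (h0 : F.F (k + 1) = ⊥)
    {f g : Cob X} (h : Sim k f g) (a b : ℕ → Γ × Γ) : R Γ f a b ↔ R Γ g a b := by
  induction h with
  | rel f g h =>
    obtain ⟨a', b', i, τ, rfl, rfl, rfl⟩ := h
    have key : ∀ a b : ℕ → Γ × Γ, R Γ (Rt τ : Cob X) a b ↔ R Γ (mk _ : Cob X) a b := fun a b =>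
      (R_mk _ a b).trans ((rl_tree_nil F τ h0 a b).trans (R_mk _ a b).symm)
    rw [← sem4_fe]
    simp only [R_mul, R_up, key]
  | refl f => exact Iff.rfl
  | symm f g _ ih => exact ih.symm
  | trans f g k _ _ ih ih' => exact ih.trans ih'

theorem R_sim1 [Snd X] {Γ : Type} [CommGroup Γ] {f g : Cob X} (h : Sim 1 f g) (a b : ℕ → Γ × Γ) :
    R Γ f a b ↔ R Γ g a b := by
  exact R_sim (fltComm Γ) (if_neg (by omega)) h a b

theorem U_sim [Snd X] {Γ : Type} [CommGroup Γ] {f g : Cob X} (h : Sim 1 f g) (hf : U Γ f) :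
    U Γ g := by
  induction f using ind with | h x => ?_
  rintro y rfl
  obtain ⟨E⟩ := eqg_sim Γ h 1 1
  have := hf x rfl
  exact E.symm.subsingleton

theorem std_sim [Snd X] {n : ℕ} {f g : Cob X} (h : Sim 1 f g) (hf : Std n f) : Std n g := by
  exact fun Γ _ => ⟨U_sim h (hf Γ).1, fun c hc => (hf Γ).2 c ((R_sim1 h _ _).2 hc)⟩

/-- PLAN: `U_left` with `Et_E`; `R_Et`. -/
theorem std_Et [Snd X] (n : ℕ) : Std n (Et n : Cob X) := by
  refine fun Γ _ => ⟨U_left (g := E n) (by rw [Et_E]; exact U_one), fun c hc h1 => ?_⟩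
  obtain ⟨h2, h3⟩ := (R_Et n _ _).1 hc
  exact sem_tl n (fun k hk => Prod.ext (h1 k hk) (h2 k hk)) h3

theorem isHC_sim [Snd X] {g b : ℕ} {x y : Wd} (hx : IsHC g b x) (h : Sim 1 (mk x : Cob X) (mk y))
    (hy : Ok 0 y (2 * g + b)) : IsHC g b y := by
  refine ⟨hy, fun A _ s hs t => ?_⟩
  exact (Equiv.existsUnique_congr (Equiv.sigmaCongrRight fun c =>
    Classical.choice (eqg_sim A h 1 c)) fun _ => Iff.rfl).1 (hx.2 A s hs t)

/-- The degree of a morphism. -/
def sem4_dg [Snd X] : Cob X → ℤ := Quot.lift dg fun _ _ h => dg_mk (X := X) (Quot.sound h)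

theorem sem4_mul [Snd X] (f g : Cob X) : sem4_dg (f * g) = sem4_dg f + sem4_dg g := by
  induction f using ind
  induction g using ind
  exact dg_app _ _

theorem sem4_ty [Snd X] {p q : ℕ} {f : Cob X} (h : Ty p q f) : sem4_dg f = (q : ℤ) - p := by
  obtain ⟨x, rfl, hx⟩ := h
  exact dg_ok hx

theorem sem4_Ee (k : ℕ) : Ty k 1 (E k * G e 0 : Cob X) := (E_ty k).mul (Ty.G e 0 le_rfl rfl)

theorem sem4_mv [Snd X] {k n : ℕ} {f g : Cob X} (h : Mv k f g) (hf : sem4_dg f = n) :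
    sem4_dg g = n ∧ ∃ j0, ∀ j, j0 ≤ j →
      Lf k n (Et j * f * up n (E j)) (Et j * g * up n (E j)) := by
  obtain ⟨a, b, i, τ, rfl, rfl, rfl⟩ := h
  obtain ⟨pa, qa, ha⟩ := exists_ty a
  obtain ⟨pb, qb, hb⟩ := exists_ty b
  rw [sem4_mul, sem4_mul, sem4_ty ha, sem4_ty hb, sem4_ty ((sem4_Ee _).up i)] at hf
  refine ⟨by rw [sem4_mul, sem4_mul, sem4_ty ha, sem4_ty hb, sem4_ty ((Rt_ty τ).up i), hf],
    pa + pb + i + τ.nn + 1, fun j hj => ?_⟩
  obtain ⟨r, hr⟩ : ∃ r, j + qa = pa + (i + (τ.nn + 1) + r) :=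
    ⟨j + qa - (pa + i + (τ.nn + 1)), by omega⟩
  have h := univ τ (r := r) (i := i) ((Et_ty j).mul (ha.wide (by omega) (by omega)))
    ((hb.wide (q' := n + j) (by omega) (by omega)).mul ((E_ty j).up n))
  simpa only [mul_assoc, Nat.add_zero] using h

theorem sem4_rho {n : ℕ} {f : Cob X} (hf : Ty 0 n f) (j : ℕ) : Et j * f * up n (E j) = f := by
  have h : f * up n (E j) = up 0 (E j) * f := far hf 0 _
  rw [mul_assoc, h, up_zero, ← mul_assoc, Et_E, one_mul]

/-- PLAN.  `dg` descends to a monoid map on `Cob X` (`dg_mk`), `Ty p q f` gives degree `q - p`, a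
move keeps the degree.  Put `ρ j f = Et j * f * up n (E j)`; `ρ j f = f` when `Ty 0 n f` (`far`,
`Et_E`).  Along `sim_rtg` show: if `f` has degree `n` there is `j0` such that for all `j ≥ j0` the
`ρ j` images are joined by `Lf k n` steps.  For one move `a * up i _ * b` use `exists_ty`,
`Ty.wide` to type `Et j * a` and `b * up n (E j)`, then `univ`. -/
theorem sim_lf [Snd X] {k n : ℕ} {f g : Cob X} (hf : Ty 0 n f) (hg : Ty 0 n g) (h : Sim k f g) :
    Relation.ReflTransGen (Lf k n) f g := by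
  have key : sem4_dg g = n ∧ ∃ j0, ∀ j, j0 ≤ j →
      Relation.ReflTransGen (Lf k n) (Et j * f * up n (E j)) (Et j * g * up n (E j)) := by
    have h' := sim_rtg h
    clear hg h
    induction h' with
    | refl => exact ⟨by simpa using sem4_ty hf, 0, fun _ _ => .refl⟩
    | tail _ h2 ih =>
      obtain ⟨h3, j, hj⟩ := ih
      obtain ⟨h4, j', hj'⟩ := sem4_mv h2 h3
      exact ⟨h4, max j j', fun t ht => (hj t (le_of_max_le_left ht)).tail
        (hj' t (le_of_max_le_right ht))⟩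
  obtain ⟨-, j, hj⟩ := key
  simpa only [sem4_rho hf, sem4_rho hg] using hj j le_rfl

theorem Lf.ty {k n : ℕ} {f g : Cob X} (h : Lf k n f g) : Ty 0 n f ∧ Ty 0 n g := by
  obtain ⟨x, τ, rfl, hx, rfl, rfl⟩ := h
  exact ⟨hx.mul ((E_ty _).wide (by omega) (by omega)), hx.mul ((TT_ty τ).wide (by omega) (by omega))⟩

/-- Kill the trees with `D` nodes. -/
def XD (D : ℕ) (X : Wd → Wd → Prop) : Wd → Wd → Prop :=
  fun x y => X x y ∨ ∃ τ : Tr, τ.nn = D ∧ x = τ.wd ∧ y = fl (D + 1) ++ [(0, e)]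

theorem nil_XD (D : ℕ) : Nil D (XD D X) := by
  intro τ h
  have := Quot.sound (Step.mk (X := XD D X) [] [] 0 _ _ (Or.inr (Or.inr ⟨τ, h, rfl, rfl⟩)))
  simp only [sh_zero, List.nil_append, List.append_nil] at this
  exact this.trans (sem4_fe _)

theorem mk_XD (D : ℕ) {x y : Wd} (h : (mk x : Cob X) = mk y) :
    (mk x : Cob (XD D X)) = mk y := by
  refine congrArg (Quot.lift (fun x => (mk x : Cob (XD D X))) ?_) h
  rintro _ _ ⟨p, q, i, x, y, h⟩
  exact Quot.sound (Step.mk p q i x y (h.imp_right Or.inl))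

theorem sim_of_XD (D : ℕ) {x y : Wd} (h : (mk x : Cob (XD D X)) = mk y) :
    Sim D (mk x : Cob X) (mk y) := by
  have h' := Quot.eqvGen_exact h
  clear h
  induction h' with
  | rel x y h =>
    obtain ⟨p, q, i, x, y, h | h | ⟨τ, rfl, rfl, rfl⟩⟩ := h
    · exact Sim.of_eq (Quot.sound (Step.mk p q i x y (Or.inl h)))
    · exact Sim.of_eq (Quot.sound (Step.mk p q i x y (Or.inr h)))
    · rw [sem4_ctx, sem4_ctx, sem4_fe]
      exact (((sim_tree τ).up i).left _).right _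
  | refl x => exact Sim.refl _ _
  | symm x y _ ih => exact ih.symm
  | trans x y z _ _ ih ih' => exact ih.trans ih'

theorem snd_same (h : ∀ x y, X x y → Same x y) : Snd X := by
  refine ⟨fun x y hx => ?_, fun x y hx Γ _ => (h x y hx).2 Γ⟩
  obtain ⟨p, q, h1, h2⟩ := (h x y hx).1
  rw [dg_ok h1, dg_ok h2]

theorem gd_same (h : ∀ x y, X x y → Same x y) (Γ : Type) [Group Γ] : Gd Γ X := by
  refine ⟨fun x y hx a b => ?_⟩
  obtain ⟨E⟩ := (h x y hx).2 Γ a b
  exact E.nonempty_congr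

/-- PLAN: `eqg_sim`, `sim_tree`, `sim_le`; `dg_ok` or `dg_mk` for the degree. -/
theorem snd_XD [Snd X] {D : ℕ} (hD : 1 ≤ D) : Snd (XD D X) := by
  constructor
  · rintro x y (h | ⟨τ, rfl, rfl, rfl⟩)
    · exact Snd.dg x y h
    · exact (sem4_ty (X := X) (Rt_ty τ)).trans (sem4_ty (X := X) (sem4_fe (X := X) _ ▸ sem4_Ee _)).symm
  · rintro x y (h | ⟨τ, rfl, rfl, rfl⟩) Γ _
    · exact Snd.eqc x y h Γ
    · exact eqg_sim (X := X) Γ (sem4_fe (X := X) _ ▸ sim_le hD (sim_tree τ))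

theorem gd_XD {Γ : Type} [Group Γ] [Gd Γ X] (F : Flt Γ) {D : ℕ} (h0 : F.F (D + 1) = ⊥) :
    Gd Γ (XD D X) := by
  constructor
  rintro x y (h | ⟨τ, rfl, rfl, rfl⟩)
  · exact Gd.rl x y h
  · exact rl_tree_nil F τ h0

end Pool.Agent.GH
end

-- merged part: Pool.Agent.Work.MP_c00b06_gt.Lk1
section
/-! Linking matrices. -/

namespace Pool.Agent.GH
open Gn

variable {X : Wd → Wd → Prop}

/-- In commutative groups the longitudes of the state `f` are given by the matrix `A`. -/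
def Lk (N : ℕ) (f : Cob X) (A : ℕ → ℕ → ℤ) : Prop :=
  ∀ (Γ : Type) [CommGroup Γ] (c : ℕ → Γ × Γ), R Γ f 1 c ↔
    (∀ i < N, (c i).2 = ∏ j ∈ Finset.range N, (c j).1 ^ A i j) ∧ ∀ i, N ≤ i → c i = 1

def Smt (A : ℕ → ℕ → ℤ) : Prop := ∀ i j, A i j = A j i

def skip (i x : ℕ) : ℕ := if x < i then x else x + 1

def unskip (i x : ℕ) : ℕ := if x < i then x else x - 1

def sgn (i x : ℕ) : ℤ := if x = i then -1 else 1

theorem lk1_ne (i x : ℕ) : skip i x ≠ i := by unfold skip; split_ifs <;> omega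

theorem lk1_un (i x : ℕ) : unskip i (skip i x) = x := by unfold skip unskip; split_ifs <;> omega

theorem lk1_sk {i x : ℕ} (h : x ≠ i) : skip i (unskip i x) = x := by
  unfold skip unskip; split_ifs <;> omega

theorem lk1_ins {α : Type} (i : ℕ) (c : ℕ → α) (t : α) :
    ∃ b : ℕ → α, b i = t ∧ ∀ x, b (skip i x) = c x :=
  ⟨fun k => if k = i then t else c (unskip i k), if_pos rfl, fun x => by simp [lk1_ne, lk1_un]⟩

theorem lk1_all {N i : ℕ} (h : i ≤ N) (p : ℕ → Prop) :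
    (∀ x < N + 1, p x) ↔ p i ∧ ∀ x < N, p (skip i x) := by
  refine ⟨fun k => ⟨k i (by omega), fun x hx => k _ ?_⟩, fun k x hx => ?_⟩
  · unfold skip; split_ifs <;> omega
  · by_cases e : x = i
    · exact e ▸ k.1
    · refine lk1_sk e ▸ k.2 _ ?_
      unfold unskip; split_ifs <;> omega

theorem lk1_ge {N i : ℕ} (h : i ≤ N) (p : ℕ → Prop) :
    (∀ x, N + 1 ≤ x → p x) ↔ ∀ x, N ≤ x → p (skip i x) := by
  refine ⟨fun k x hx => k _ ?_, fun k x hx => lk1_sk (show x ≠ i by omega) ▸ k _ ?_⟩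
  · unfold skip; split_ifs <;> omega
  · unfold unskip; split_ifs <;> omega

theorem lk1_prod {Γ : Type} [CommGroup Γ] {N i : ℕ} (h : i ≤ N) (F : ℕ → Γ) :
    ∏ j ∈ Finset.range (N + 1), F j = F i * ∏ j ∈ Finset.range N, F (skip i j) := by
  induction N, h using Nat.le_induction with
  | base =>
    rw [Finset.prod_range_succ, mul_comm]
    exact congrArg _ (Finset.prod_congr rfl fun j hj => by
      rw [skip, if_pos (Finset.mem_range.1 hj)])
  | succ N h ih =>
    rw [Finset.prod_range_succ, ih, Finset.prod_range_succ, mul_assoc, skip.eq_1 i N,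
      if_neg (by omega)]

theorem lk1_tl {α : Type} [One α] (N : ℕ) (c : ℕ → α) : tl N c = 1 ↔ ∀ i, N ≤ i → c i = 1 :=
  ⟨fun h i hi => (congrArg c (Nat.add_sub_cancel' hi).symm).trans (congrFun h (i - N)),
    fun h => funext fun k => h _ (Nat.le_add_right N k)⟩

theorem lk1_st {α : Type} (i : ℕ) (b c : ℕ → α) :
    ((∀ k < i, c k = b k) ∧ ∀ k, c (i + 1 + k) = b (i + k)) ↔ b = fun k => c (skip i k) := by
  constructor
  · rintro ⟨h1, h2⟩
    refine sem_tl i (fun k hk => by rw [skip, if_pos hk, h1 k hk]) (funext fun k => ?_)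
    rw [tl, tl, ← h2, skip, if_neg (by omega), Nat.add_right_comm]
  · rintro rfl
    exact ⟨fun k hk => congrArg c (if_pos hk).symm,
      fun k => congrArg c ((Nat.add_right_comm i 1 k).trans (if_neg (by omega)).symm)⟩

theorem lk1_sgn {Γ : Type} [Group Γ] (i x : ℕ) (y z : Γ) : y ^ sgn i x = z ↔ y = z ^ sgn i x := by
  unfold sgn
  split_ifs <;> simp [inv_eq_iff_eq_inv]

variable [Snd X] {N : ℕ} {f : Cob X} {A : ℕ → ℕ → ℤ}

omit [Snd X] in
theorem lk_congr {A' : ℕ → ℕ → ℤ} (h : Lk N f A) (hA : ∀ x < N, ∀ y < N, A x y = A' x y) :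
    Lk N f A' := by
  intro Γ _ c
  rw [h Γ c]
  refine and_congr_left' (forall₂_congr fun x hx => Eq.congr_right ?_)
  exact Finset.prod_congr rfl fun y hy => by rw [hA x hx y (Finset.mem_range.1 hy)]

omit [Snd X] in
/-- PLAN: `Γ = Multiplicative ℤ`, meridians a basis vector. -/
theorem lk_uniq {A' : ℕ → ℕ → ℤ} (h : Lk N f A) (h' : Lk N f A') {x y : ℕ} (hx : x < N)
    (hy : y < N) : A x y = A' x y := by
  have key : ∀ B : ℕ → ℤ, ∏ j ∈ Finset.range N,
      (if j = y then Multiplicative.ofAdd (1 : ℤ) else 1) ^ B j = Multiplicative.ofAdd (B y) := by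
    intro B
    rw [Finset.prod_eq_single_of_mem y (Finset.mem_range.2 hy) fun j _ hj => by simp [hj],
      if_pos rfl, ← ofAdd_zsmul, smul_eq_mul, mul_one]
  have := ((h' _ _).1 ((h (Multiplicative ℤ) fun j => (if j = y then .ofAdd 1 else 1,
    if j < N then .ofAdd (A j y) else 1)).2 ⟨fun i hi => by simp only [key, if_pos hi],
      fun i hi => by rw [if_neg (by omega), if_neg (by omega)]; rfl⟩)).1 x hx
  simpa only [key, if_pos hx, EmbeddingLike.apply_eq_iff_eq] using this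

theorem lk_sim {g : Cob X} (h : Lk N f A) (hs : Sim 1 f g) : Lk N g A := by
  exact fun Γ _ c => (R_sim1 hs 1 c).symm.trans (h Γ c)

theorem lk_Et (N : ℕ) : Lk N (Et N : Cob X) (fun _ _ => 0) := by
  intro Γ _ c
  simp [R_Et, lk1_tl]

theorem lk_u (h : Lk (N + 1) f A) {i : ℕ} (hi : i ≤ N) :
    Lk N (f * G u i) (fun x y => A (skip i x) (skip i y)) := by
  intro Γ _ c
  have e : ∀ b : ℕ → Γ × Γ, Stp (i, u) b c ↔ (b i).1 = 1 ∧ c = fun k => b (skip i k) := fun b => by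
    rw [← lk1_st]
    exact ⟨fun k => ⟨k.2.1, fun x hx => (k.1 x hx).symm, fun x => (k.2.2 x).symm⟩,
      fun k => ⟨fun x hx => (k.2.1 x hx).symm, k.1, fun x => (k.2.2 x).symm⟩⟩
  simp only [R_mul, R_G, h Γ, e, lk1_all hi, lk1_ge hi, lk1_prod hi]
  constructor
  · rintro ⟨b, ⟨⟨-, h1⟩, h2⟩, h3, rfl⟩
    exact ⟨by simpa [h3] using h1, h2⟩
  · rintro ⟨h1, h2⟩
    obtain ⟨b, b1, b2⟩ := lk1_ins i c (1, ∏ j ∈ Finset.range N, (c j).1 ^ A i (skip i j))
    exact ⟨b, by simpa [b1, b2] using ⟨h1, h2⟩, by rw [b1], by simp only [b2]⟩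

theorem lk_e (h : Lk N f A) {i : ℕ} (hi : i ≤ N) :
    Lk (N + 1) (f * G e i) (fun x y => if x = i ∨ y = i then 0 else A (unskip i x) (unskip i y)) := by
  intro Γ _ c
  have e : ∀ b : ℕ → Γ × Γ, Stp (i, e) b c ↔ (c i).2 = 1 ∧ b = fun k => c (skip i k) := fun b => by
    rw [← lk1_st]
    exact and_left_comm
  simp only [R_mul, R_G, h Γ, e, lk1_all hi, lk1_ge hi, lk1_prod hi, ← and_assoc, exists_eq_right]
  simp [lk1_ne, lk1_un, and_comm, and_left_comm]

theorem lk_ue (h : Lk N f A) {i : ℕ} (hi : i < N) :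
    Lk N (f * G u i * G e i) (fun x y => if x = i ∨ y = i then 0 else A x y) := by
  obtain ⟨N, rfl⟩ := Nat.exists_eq_add_of_le' (Nat.one_le_of_lt hi)
  refine lk_congr (lk_e (lk_u h (by omega)) (by omega)) fun x _ y _ => ?_
  split_ifs with k
  · rfl
  · rw [lk1_sk fun q => k (Or.inl q), lk1_sk fun q => k (Or.inr q)]

theorem lk_del (h : Lk N f A) {p : ℕ} (hp : p ≤ N) :
    Lk N (f * E p * Et p) (fun x y => if x < p ∨ y < p then 0 else A x y) := by
  induction p generalizing N f A with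
  | zero => simpa [E_zero, Et_zero] using h
  | succ p ih =>
    obtain ⟨N, rfl⟩ := Nat.exists_eq_add_of_le' (le_of_add_le_right hp)
    rw [E_succ, Et_succ, ← mul_assoc, ← mul_assoc]
    refine lk_congr (lk_e (ih (lk_u h N.zero_le) (by omega)) N.zero_le) fun x _ y _ => ?_
    cases x <;> cases y <;> simp [skip, unskip]

theorem lk_v (h : Lk N f A) {i : ℕ} (hi : i ≤ N) :
    Lk (N + 1) (f * G v i) (fun x y => if x = i ∧ y = i then -1 else if x = i ∨ y = i then 0
      else A (unskip i x) (unskip i y)) := by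
  intro Γ _ c
  have e : ∀ b : ℕ → Γ × Γ, Stp (i, v) b c ↔ (c i).2 = (c i).1⁻¹ ∧ b = fun k => c (skip i k) :=
    fun b => by
      rw [← lk1_st]
      exact and_left_comm
  simp only [R_mul, R_G, h Γ, e, lk1_all hi, lk1_ge hi, lk1_prod hi, ← and_assoc, exists_eq_right]
  simp [lk1_ne, lk1_un, and_comm, and_left_comm]

theorem lk_w (h : Lk N f A) {i : ℕ} (hi : i ≤ N) :
    Lk (N + 2) (f * G w i) (fun x y => if (x = i ∧ y = i + 1) ∨ (x = i + 1 ∧ y = i) then -1
      else if x = i ∨ x = i + 1 ∨ y = i ∨ y = i + 1 then 0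
      else A (unskip i (unskip i x)) (unskip i (unskip i y))) := by
  intro Γ _ c
  have e1 : skip i i = i + 1 := if_neg (lt_irrefl i)
  have e2 : ∀ x, skip i (skip i x) ≠ i + 1 := fun x => by unfold skip; split_ifs <;> omega
  have e : ∀ b : ℕ → Γ × Γ, Stp (i, w) b c ↔ ((c i).2 = (c (i + 1)).1⁻¹ ∧
      (c (i + 1)).2 = (c i).1⁻¹) ∧ b = fun k => c (skip i (skip i k)) := fun b => by
    rw [← lk1_st i b fun k => c (skip i k)]
    refine and_left_comm.trans (and_congr_right' (and_congr (forall₂_congr fun k hk => ?_)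
      (forall_congr' fun k => ?_)))
    · rw [skip, if_pos hk]
    · rw [skip, if_neg (by omega), show i + 1 + k + 1 = i + 2 + k by omega]
      rfl
  have hi' := Nat.le_succ_of_le hi
  simp only [R_mul, R_G, h Γ, e, lk1_all hi', lk1_ge hi', lk1_prod hi', lk1_all hi, lk1_ge hi,
    lk1_prod hi, ← and_assoc, exists_eq_right]
  simp [lk1_ne, lk1_un, e1, e2, and_comm, and_assoc, and_left_comm]

theorem lk_m (h : Lk (N + 1) f A) {i : ℕ} (hi : i < N) :
    Lk N (f * G m i) (fun x y => A (skip (i + 1) x) (skip (i + 1) y) +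
      (if x = i then A (i + 1) (skip (i + 1) y) else 0) +
      (if y = i then A (skip (i + 1) x) (i + 1) else 0) +
      (if x = i ∧ y = i then A (i + 1) (i + 1) else 0)) := by
  intro Γ _ c
  have e1 : skip (i + 1) i = i := if_pos i.lt_succ_self
  have e : ∀ b : ℕ → Γ × Γ, Stp (i, m) b c ↔ (b (i + 1)).1 = (b i).1 ∧ c = fun k =>
      ((b (skip (i + 1) k)).1, (b (skip (i + 1) k)).2 * if k = i then (b (i + 1)).2 else 1) := by
    intro b
    simp only [Stp, Rel, Gn.co, Gn.ar, Nat.add_zero, inv_mul_cancel_comm]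
    constructor
    · rintro ⟨h1, ⟨h2, h3⟩, h4⟩
      refine ⟨h2, sem_ext i 1 (fun k hk => ?_) (sem_one ?_) fun k => ?_⟩
      · simp [h1 k hk, skip, hk.ne, Nat.lt_succ_of_lt hk]
      · simpa [e1] using h3
      · rw [h4, skip, if_neg (by omega), if_neg (by omega), mul_one,
          show i + 1 + k + 1 = i + 2 + k by omega]
    · rintro ⟨h1, rfl⟩
      refine ⟨fun k hk => ?_, ⟨h1, by simp [e1]⟩, fun k => ?_⟩
      · simp [skip, hk.ne, Nat.lt_succ_of_lt hk]
      · beta_reduce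
        rw [skip, if_neg (by omega), if_neg (by omega), mul_one,
          show i + 1 + k + 1 = i + 2 + k by omega]
  have key : ∀ (a : ℕ → Γ) (x : ℕ), ∏ j ∈ Finset.range N, a j ^
      (A (skip (i + 1) x) (skip (i + 1) j) + (if x = i then A (i + 1) (skip (i + 1) j) else 0) +
      (if j = i then A (skip (i + 1) x) (i + 1) else 0) +
      (if x = i ∧ j = i then A (i + 1) (i + 1) else 0)) =
      (a i ^ A (skip (i + 1) x) (i + 1) * ∏ j ∈ Finset.range N,
        a j ^ A (skip (i + 1) x) (skip (i + 1) j)) * if x = i then a i ^ A (i + 1) (i + 1) *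
        ∏ j ∈ Finset.range N, a j ^ A (i + 1) (skip (i + 1) j) else 1 := fun a x => by
    have k : ∀ z : ℤ, ∏ j ∈ Finset.range N, a j ^ (if j = i then z else 0) = a i ^ z := fun z => by
      simp [hi]
    by_cases hx : x = i <;>
      simp only [hx, zpow_add, Finset.prod_mul_distrib, k, true_and, false_and, if_true, if_false,
        zpow_zero, Finset.prod_const_one] <;> ac_rfl
  simp only [R_mul, R_G, h Γ, e, lk1_all hi, lk1_ge hi, lk1_prod hi, key fun j => (c j).1]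
  constructor
  · rintro ⟨b, ⟨⟨h1, h2⟩, h3⟩, h4, rfl⟩
    refine ⟨fun x hx => ?_, fun x hx => ?_⟩
    · simp only [e1, ← h4, ← h1, ← h2 x hx]
    · simp [h3 x hx, show x ≠ i by omega, Prod.ext_iff]
  · rintro ⟨h1, h2⟩
    obtain ⟨b, b1, b2⟩ := lk1_ins (i + 1) (fun x => ((c x).1, if x = i then
      (c i).1 ^ A i (i + 1) * ∏ j ∈ Finset.range N, (c j).1 ^ A i (skip (i + 1) j) else (c x).2))
      ((c i).1, (c i).1 ^ A (i + 1) (i + 1) *
        ∏ j ∈ Finset.range N, (c j).1 ^ A (i + 1) (skip (i + 1) j))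
    refine ⟨b, ⟨⟨by simp only [b1, b2], fun x hx => ?_⟩, fun x hx => ?_⟩,
      by rw [b1, ← congrArg b e1, b2], funext fun x => ?_⟩
    · by_cases q : x = i
      · simp only [b1, b2, q, if_true]
        rw [e1]
      · simpa [b1, b2, q] using h1 x hx
    · simp [b2, h2 x hx, show x ≠ i by omega, Prod.ext_iff]
    · by_cases q : x = i
      · have := h1 i hi
        rw [e1] at this
        simpa [b1, b2, q, Prod.ext_iff] using this
      · simp [b2, q]

theorem lk1_ST (h : Lk N f A) {i : ℕ} (_hi : i < N) {g : Gn} (hg : g = S ∨ g = T) :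
    Lk N (f * G g i) (fun x y => sgn i x * sgn i y * A x y) := by
  intro Γ _ c
  have e : ∀ b : ℕ → Γ × Γ, Stp (i, g) b c ↔ b = fun k => c k ^ sgn i k := fun b => by
    have e1 : Stp (i, g) b c ↔ (∀ k < i, c k = b k) ∧ c i = (b i)⁻¹ ∧
        ∀ k, c (i + 1 + k) = b (i + 1 + k) := by
      rcases hg with rfl | rfl <;> simp [Stp, Rel, Gn.co, Gn.ar, bd, Prod.ext_iff]
    rw [e1]
    constructor
    · rintro ⟨h1, h2, h3⟩
      refine sem_ext i 1 (fun k hk => ?_) (sem_one ?_) fun k => ?_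
      · simp [sgn, hk.ne, h1 k hk]
      · simp [sgn, h2]
      · rw [sgn, if_neg (by omega), zpow_one, h3]
    · rintro rfl
      exact ⟨fun k hk => by simp [sgn, hk.ne], by simp [sgn],
        fun k => by simp [sgn, show i + 1 + k ≠ i by omega]⟩
  simp only [R_mul, R_G, h Γ, e, exists_eq_right, Prod.pow_fst, Prod.pow_snd, lk1_sgn, one_zpow,
    ← Finset.prod_zpow, ← zpow_mul, mul_comm, mul_left_comm]

theorem lk_S (h : Lk N f A) {i : ℕ} (hi : i < N) :
    Lk N (f * G S i) (fun x y => sgn i x * sgn i y * A x y) := by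
  exact lk1_ST h hi (Or.inl rfl)

theorem lk_T (h : Lk N f A) {i : ℕ} (hi : i < N) :
    Lk N (f * G T i) (fun x y => sgn i x * sgn i y * A x y) := by
  exact lk1_ST h hi (Or.inr rfl)

theorem lk_cr (s : Bool) (h : Lk N f A) {i : ℕ} (hi : i + 1 < N) :
    Lk N (f * G (cr s) i) (fun x y => A (Equiv.swap i (i + 1) x) (Equiv.swap i (i + 1) y)) := by
  intro Γ _ c
  have e1 : ∀ x, Equiv.swap i (i + 1) x < N ↔ x < N := fun x => by
    rw [Equiv.swap_apply_def]
    split_ifs <;> omega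
  have e : ∀ b : ℕ → Γ × Γ, R Γ (G (cr s) i : Cob X) b c ↔
      b = fun k => c (Equiv.swap i (i + 1) k) := fun b => by
    rw [sem2_cr s i (by simp [bd]) (by simp [bd])]
    simp only [← Equiv.swap_apply_def]
    constructor <;> rintro rfl <;> simp
  simp only [R_mul, h Γ, e, exists_eq_right]
  refine and_congr ((Equiv.swap i (i + 1)).forall_congr fun x => ?_)
    ((Equiv.swap i (i + 1)).forall_congr fun x => by rw [← not_lt, ← not_lt, e1])
  rw [e1, Equiv.swap_apply_self]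
  refine forall_congr' fun _ => Eq.congr_right (Finset.prod_equiv (Equiv.swap i (i + 1))
    (fun j => by simp [e1]) fun j _ => by rw [Equiv.swap_apply_self])

theorem lk_tensor {N' : ℕ} {g : Cob X} {A' : ℕ → ℕ → ℤ} (h : Lk N f A) (h' : Lk N' g A') :
    Lk (N + N') (f * up N g) (fun x y => if x < N ∧ y < N then A x y
      else if N ≤ x ∧ N ≤ y then A' (x - N) (y - N) else 0) := by
  intro Γ _ c
  have e1 : ∀ x < N, ∏ j ∈ Finset.range (N + N'), (c j).1 ^ (if x < N ∧ j < N then A x j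
      else if N ≤ x ∧ N ≤ j then A' (x - N) (j - N) else 0) =
      ∏ j ∈ Finset.range N, (c j).1 ^ A x j := fun x hx => by
    rw [Finset.prod_range_add, Finset.prod_eq_one (s := Finset.range N') fun j _ => by
      simp [hx.not_ge], mul_one]
    exact Finset.prod_congr rfl fun j hj => by rw [if_pos ⟨hx, Finset.mem_range.1 hj⟩]
  have e2 : ∀ x, ∏ j ∈ Finset.range (N + N'), (c j).1 ^ (if N + x < N ∧ j < N then A (N + x) j
      else if N ≤ N + x ∧ N ≤ j then A' (N + x - N) (j - N) else 0) =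
      ∏ j ∈ Finset.range N', (c (N + j)).1 ^ A' x j := fun x => by
    rw [Finset.prod_range_add, Finset.prod_eq_one (s := Finset.range N) fun j hj => by
      simp [(Finset.mem_range.1 hj).not_ge], one_mul]
    simp
  simp only [R_mul, R_up, h Γ]
  constructor
  · rintro ⟨b, ⟨h1, h2⟩, h3, h4⟩
    rw [(lk1_tl N b).2 h2, h' Γ] at h4
    refine ⟨fun x hx => ?_, fun x hx => ?_⟩
    · by_cases q : x < N
      · rw [e1 x q, h3 x q, h1 x q]
        exact Finset.prod_congr rfl fun j hj => by rw [h3 j (Finset.mem_range.1 hj)]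
      · obtain ⟨x, rfl⟩ := Nat.exists_eq_add_of_le (not_lt.1 q)
        exact (h4.1 x (by omega)).trans (e2 x).symm
    · obtain ⟨x, rfl⟩ := Nat.exists_eq_add_of_le (le_of_add_le_left hx)
      exact h4.2 x (by omega)
  · rintro ⟨h1, h2⟩
    have h3 : ∀ k, N ≤ k → (if k < N then c k else 1) = 1 := fun k hk => if_neg hk.not_gt
    refine ⟨fun k => if k < N then c k else 1, ⟨fun x hx => ?_, h3⟩, fun k hk => (if_pos hk).symm, ?_⟩
    · beta_reduce
      rw [if_pos hx, h1 x (by omega), e1 x hx]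
      exact Finset.prod_congr rfl fun j hj => by rw [if_pos (Finset.mem_range.1 hj)]
    · rw [(lk1_tl N _).2 h3, h' Γ]
      exact ⟨fun x hx => (h1 (N + x) (by omega)).trans (e2 x), fun x hx => h2 _ (by omega)⟩

end Pool.Agent.GH
end

-- merged part: Pool.Agent.Work.MP_c00b06_gt.D1a
section
/-! Degree one: reduction of the linking matrices of a Y-graph to a short list. -/

namespace Pool.Agent.GH
open Gn

/-- Linking matrices of three leaves and `n` strands. -/
def Adm (n : ℕ) (A : ℕ → ℕ → ℤ) : Prop :=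
  (∀ i j, A i j = A j i) ∧ (∀ i j, 3 ≤ i → 3 ≤ j → A i j = 0) ∧ ∀ i j, 3 + n ≤ j → A i j = 0

/-- Row `0` of `A` is the sum of the rows `0` of `A'` and `A''`, the framing modulo two. -/
def AddR (A A' A'' : ℕ → ℕ → ℤ) : Prop :=
  (∀ i j, i ≠ 0 → j ≠ 0 → A' i j = A i j ∧ A'' i j = A i j) ∧
    (∀ j, j ≠ 0 → A 0 j = A' 0 j + A'' 0 j) ∧ Even (A 0 0 - A' 0 0 - A'' 0 0)

def sg3 (x : ℕ) : ℤ := if x < 3 then -1 else 1

def s01 (A : ℕ → ℕ → ℤ) : ℕ → ℕ → ℤ :=
  fun x y => sgn 2 x * sgn 2 y * A (Equiv.swap 0 1 x) (Equiv.swap 0 1 y)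

def s12 (A : ℕ → ℕ → ℤ) : ℕ → ℕ → ℤ :=
  fun x y => sg3 x * sg3 y * A (Equiv.swap 1 2 x) (Equiv.swap 1 2 y)

def Ay : ℕ → ℕ → ℤ := lkl [.c true 0 4, .c true 1 3, .c true 2 5]
def AW : ℕ → ℕ → ℤ := lkl [.v true 0, .c true 1 3, .c true 2 4]
def A1 : ℕ → ℕ → ℤ := lkl [.c true 0 4, .c true 1 3, .c true 2 4]
def AW' : ℕ → ℕ → ℤ := lkl [.v true 0, .c true 1 4, .c true 2 3]
def A1' : ℕ → ℕ → ℤ := lkl [.c true 0 3, .c true 1 4, .c true 2 3]

structure Deg1 (n : ℕ) (p : (ℕ → ℕ → ℤ) → Prop) : Prop where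
  add : ∀ A A' A'', Adm n A → Adm n A' → Adm n A'' → AddR A A' A'' →
    (p A' → p A'' → p A) ∧ (p A → p A' → p A'')
  zero : ∀ A, Adm n A → (∀ j, A 0 j = 0) → p A
  sw01 : ∀ A, Adm n A → p A → p (s01 A)
  sw12 : ∀ A, Adm n A → p A → p (s12 A)
  supp : ∀ A, Adm n A → ∀ i < n, (∀ j, A j (3 + i) = 0) → p A
  three : n = 3 → p Ay
  two : n = 2 → p AW ∧ p A1 ∧ (p AW' → p A1')

theorem d1a_adm {n : ℕ} {A : ℕ → ℕ → ℤ} (h : Adm n A) (ε : ℕ → ℤ) {a b : ℕ} (ha : a < 3)
    (hb : b < 3) : Adm n fun x y => ε x * ε y * A (Equiv.swap a b x) (Equiv.swap a b y) := by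
  have e : ∀ x, 3 ≤ x → Equiv.swap a b x = x := fun x hx =>
    Equiv.swap_apply_of_ne_of_ne (by omega) (by omega)
  refine ⟨fun i j => ?_, fun i j hi hj => ?_, fun i j hj => ?_⟩ <;> beta_reduce
  · rw [h.1, mul_comm (ε i)]
  · rw [e i hi, e j hj, h.2.1 i j hi hj, mul_zero]
  · rw [e j (by omega), h.2.2 _ j hj, mul_zero]

theorem d1a_adms {n : ℕ} {A : ℕ → ℕ → ℤ} (h : Adm n A) {a b : ℕ} (ha : a < 3) (hb : b < 3) :
    Adm n fun x y => A (Equiv.swap a b x) (Equiv.swap a b y) := by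
  simpa only [one_mul] using d1a_adm h (fun _ => 1) ha hb

theorem d1a_adme {n : ℕ} {A : ℕ → ℕ → ℤ} (h : Adm n A) (ε : ℕ → ℤ) :
    Adm n fun x y => ε x * ε y * A x y := by
  simpa only [Equiv.swap_self, Equiv.refl_apply] using
    d1a_adm h ε (a := 0) (b := 0) (by omega) (by omega)

theorem d1a_eq {p : (ℕ → ℕ → ℤ) → Prop} {A B : ℕ → ℕ → ℤ} (h : p A) (e : ∀ x y, B x y = A x y) :
    p B := (funext₂ e : B = A) ▸ h

theorem adm_s01 {n : ℕ} {A : ℕ → ℕ → ℤ} (h : Adm n A) : Adm n (s01 A) := by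
  exact d1a_adm h _ (by omega) (by omega)

theorem adm_s12 {n : ℕ} {A : ℕ → ℕ → ℤ} (h : Adm n A) : Adm n (s12 A) := by
  exact d1a_adm h _ (by omega) (by omega)

theorem s01_s01 (A : ℕ → ℕ → ℤ) : s01 (s01 A) = A := by
  have e : ∀ x, sgn 2 x * sgn 2 (Equiv.swap 0 1 x) = 1 := fun x => by
    grind [sgn]
  funext x y
  simp only [s01, Equiv.swap_apply_self]
  linear_combination sgn 2 y * sgn 2 (Equiv.swap 0 1 y) * A x y * e x + A x y * e y

theorem s12_s12 (A : ℕ → ℕ → ℤ) : s12 (s12 A) = A := by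
  have e : ∀ x, sg3 x * sg3 (Equiv.swap 1 2 x) = 1 := fun x => by
    grind [sg3]
  funext x y
  simp only [s12, Equiv.swap_apply_self]
  linear_combination sg3 y * sg3 (Equiv.swap 1 2 y) * A x y * e x + A x y * e y

/-- Rows `0`, `1`, `2` point to `a`, `b`, `c`. -/
def d1a_M (a b c : ℕ) : ℕ → ℕ → ℤ := fun x y =>
  if (x = 0 ∧ y = a) ∨ (y = 0 ∧ x = a) ∨ (x = 1 ∧ y = b) ∨ (y = 1 ∧ x = b) ∨ (x = 2 ∧ y = c) ∨
    (y = 2 ∧ x = c) then -1 else 0

theorem d1a_admM {n a b c : ℕ} (ha : a < 3 + n) (hb : b < 3 + n) (hc : c < 3 + n) :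
    Adm n (d1a_M a b c) :=
  ⟨fun _ _ => if_congr (by grind) rfl rfl, fun _ _ _ _ => if_neg (by omega),
    fun _ _ _ => if_neg (by omega)⟩

theorem d1a_box {l : List It} {a b c : ℕ} (hl : ∀ t ∈ l, t.fst < 6 ∧ t.snd < 6)
    (k : a < 6 ∧ b < 6 ∧ c < 6) (h : ∀ x < 6, ∀ y < 6, lkl l x y = d1a_M a b c x y) :
    lkl l = d1a_M a b c := by
  funext x y
  by_cases e : x < 6 ∧ y < 6
  · exact h x e.1 y e.2
  refine (List.sum_eq_zero fun z hz => ?_).trans (if_neg (by omega)).symm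
  obtain ⟨t, ht, rfl⟩ := List.mem_map.1 hz
  have := hl t ht
  cases t <;> simp only [It.fst, It.snd] at this <;> simp only [It.lk]
  · rw [if_neg (c := _ ∧ _) (by omega), if_neg (c := _ ∧ _) (by omega), add_zero, mul_zero]
  · exact if_neg (by omega)

theorem d1a_list : Ay = d1a_M 4 3 5 ∧ AW = d1a_M 0 3 4 ∧ A1 = d1a_M 4 3 4 ∧ AW' = d1a_M 0 4 3 ∧
    A1' = d1a_M 3 4 3 := by
  refine ⟨?_, ?_, ?_, ?_, ?_⟩ <;> exact d1a_box (by decide) (by omega) (by decide)

theorem adm_Ay : Adm 3 Ay := by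
  rw [d1a_list.1]
  exact d1a_admM (by omega) (by omega) (by omega)

theorem adm_two : Adm 2 AW ∧ Adm 2 A1 ∧ Adm 2 AW' ∧ Adm 2 A1' := by
  rw [d1a_list.2.1, d1a_list.2.2.1, d1a_list.2.2.2.1, d1a_list.2.2.2.2]
  refine ⟨?_, ?_, ?_, ?_⟩ <;> exact d1a_admM (by omega) (by omega) (by omega)

/-- Row and column `r` are replaced by minus the basis vector `j`. -/
def setR (r j : ℕ) (A : ℕ → ℕ → ℤ) : ℕ → ℕ → ℤ := fun x y =>
  if x = r then (if y = j then -1 else 0) else if y = r then (if x = j then -1 else 0) else A x y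

variable {n : ℕ} {p : (ℕ → ℕ → ℤ) → Prop}

/-- Change the sign of row and column `0`.  PLAN: `add` and `zero` (the sum of the two rows is zero
off the diagonal, even on the diagonal). -/
theorem Deg1.neg0 (H : Deg1 n p) {A : ℕ → ℕ → ℤ} (hA : Adm n A) (h : p A) :
    p (fun x y => sgn 0 x * sgn 0 y * A x y) := by
  have hZ : Adm n fun x y => if x = 0 ∨ y = 0 then 0 else A x y :=
    ⟨fun i j => if_congr or_comm rfl (hA.1 i j),
      fun i j hi hj => (if_neg (by omega)).trans (hA.2.1 i j hi hj),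
      fun i j hj => ite_eq_left_iff.2 fun _ => hA.2.2 i j hj⟩
  refine (H.add _ _ _ hZ hA (d1a_adme hA _) ⟨fun i j hi hj => ?_, fun j hj => ?_, ?_⟩).2
    (H.zero _ hZ fun j => if_pos (.inl rfl)) h
  · simp [sgn, hi, hj]
  · simp [sgn, hj]
  · exact ⟨-A 0 0, by simp [sgn, sub_eq_add_neg]⟩

/-- PLAN: conjugate `neg0` by `sw01`, `sw12`. -/
theorem Deg1.neg (H : Deg1 n p) {r : ℕ} (hr : r < 3) {A : ℕ → ℕ → ℤ} (hA : Adm n A) (h : p A) :
    p (fun x y => sgn r x * sgn r y * A x y) := by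
  have h1 : ∀ {A}, Adm n A → p A → p fun x y => sgn 1 x * sgn 1 y * A x y := fun {A} hA h => by
    have e : ∀ x, sgn 1 x = sgn 2 x * sgn 0 (Equiv.swap 0 1 x) * sgn 2 (Equiv.swap 0 1 x) :=
      fun x => by
        grind [sgn]
    refine d1a_eq (H.sw01 _ (d1a_adme (adm_s01 hA) _) (H.neg0 (adm_s01 hA) (H.sw01 _ hA h)))
      fun x y => ?_
    simp only [s01, Equiv.swap_apply_self, e]
    ring
  obtain rfl | rfl | rfl : r = 0 ∨ r = 1 ∨ r = 2 := by omega
  · exact H.neg0 hA h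
  · exact h1 hA h
  · have e : ∀ x, sgn 2 x = sg3 x * sgn 1 (Equiv.swap 1 2 x) * sg3 (Equiv.swap 1 2 x) :=
      fun x => by
        grind [sgn, sg3]
    refine d1a_eq (H.sw12 _ (d1a_adme (adm_s12 hA) _) (h1 (adm_s12 hA) (H.sw12 _ hA h)))
      fun x y => ?_
    simp only [s12, Equiv.swap_apply_self, e]
    ring

theorem Deg1.swap01 (H : Deg1 n p) {A : ℕ → ℕ → ℤ} (hA : Adm n A) (h : p A) :
    p (fun x y => A (Equiv.swap 0 1 x) (Equiv.swap 0 1 y)) := by
  have e : ∀ x, sgn 2 x * sgn 2 x = 1 := fun x => by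
    unfold sgn
    split_ifs <;> rfl
  refine d1a_eq (H.neg (r := 2) (by omega) (adm_s01 hA) (H.sw01 _ hA h)) fun x y => ?_
  simp only [s01]
  linear_combination (-sgn 2 y * sgn 2 y * A (Equiv.swap 0 1 x) (Equiv.swap 0 1 y)) * e x -
    A (Equiv.swap 0 1 x) (Equiv.swap 0 1 y) * e y

theorem Deg1.swap12 (H : Deg1 n p) {A : ℕ → ℕ → ℤ} (hA : Adm n A) (h : p A) :
    p (fun x y => A (Equiv.swap 1 2 x) (Equiv.swap 1 2 y)) := by
  have e : ∀ x, sgn 2 x * sgn 1 x * sgn 0 x * sg3 x = 1 := fun x => by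
    simp only [sgn, sg3]
    split_ifs <;> omega
  have a := adm_s12 hA
  refine d1a_eq (H.neg (r := 2) (by omega) (d1a_adme (d1a_adme a _) _) (H.neg (r := 1) (by omega)
    (d1a_adme a _) (H.neg0 a (H.sw12 _ hA h)))) fun x y => ?_
  simp only [s12]
  linear_combination (-sgn 2 y * sgn 1 y * sgn 0 y * sg3 y *
    A (Equiv.swap 1 2 x) (Equiv.swap 1 2 y)) * e x - A (Equiv.swap 1 2 x) (Equiv.swap 1 2 y) * e y

theorem Deg1.swap (H : Deg1 n p) {r : ℕ} (hr : r < 3) {A : ℕ → ℕ → ℤ} (hA : Adm n A) (h : p A) :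
    p (fun x y => A (Equiv.swap 0 r x) (Equiv.swap 0 r y)) := by
  obtain rfl | rfl | rfl : r = 0 ∨ r = 1 ∨ r = 2 := by omega
  · exact d1a_eq h fun x y => by rw [Equiv.swap_self, Equiv.refl_apply, Equiv.refl_apply]
  · exact H.swap01 hA h
  · have e : ∀ x : ℕ, Equiv.swap 0 2 x = Equiv.swap 0 1 (Equiv.swap 1 2 (Equiv.swap 0 1 x)) :=
      fun x => by
        grind
    have a := d1a_adms hA (a := 0) (b := 1) (by omega) (by omega)
    exact d1a_eq (H.swap01 (d1a_adms a (by omega) (by omega)) (H.swap12 a (H.swap01 hA h)))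
      fun x y => by rw [e, e y]

theorem Deg1.zero' (H : Deg1 n p) {r : ℕ} (hr : r < 3) {A : ℕ → ℕ → ℤ} (hA : Adm n A)
    (h : ∀ j, A r j = 0) : p A := by
  have a := d1a_adms hA (a := 0) (by omega) hr
  exact d1a_eq (H.swap hr a (H.zero _ a fun j => by rw [Equiv.swap_apply_left, h]))
    fun x y => by rw [Equiv.swap_apply_self, Equiv.swap_apply_self]

theorem d1a_set {A : ℕ → ℕ → ℤ} (hA : Adm n A) {r j : ℕ} (hr : r < 3) (hj : j < 3 + n) :
    Adm n (setR r j A) := by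
  refine ⟨fun x y => ?_, fun x y hx hy => ?_, fun x y hy => ?_⟩ <;> simp only [setR]
  · have := hA.1 x y
    split_ifs <;> omega
  · have := hA.2.1 x y hx hy
    split_ifs <;> omega
  · have := hA.2.2 x y hy
    split_ifs <;> omega

/-- Add `c` to the entry `j` of row and column `0`. -/
def d1a_mv (j : ℕ) (c : ℤ) (A : ℕ → ℕ → ℤ) : ℕ → ℕ → ℤ := fun x y =>
  if (x = 0 ∧ y = j) ∨ (y = 0 ∧ x = j) then A x y + c else A x y

/-- PLAN: induction on the sum of the absolute values of the entries of row `0` (over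
`range (3 + n)`): if some entry `A 0 j` is not zero, move it one step towards zero by `add` with
`setR 0 j A`; the matrix off row `0` does not change, and no new non zero entry appears. -/
theorem Deg1.row0 (H : Deg1 n p) {A : ℕ → ℕ → ℤ} (hA : Adm n A)
    (h : ∀ j, A 0 j ≠ 0 → p (setR 0 j A)) : p A := by
  induction hm : ∑ k ∈ Finset.range (3 + n), (A 0 k).natAbs using Nat.strong_induction_on
    generalizing A with
  | _ m ih =>
  by_cases h0 : ∀ j, A 0 j = 0
  · exact H.zero A hA h0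
  obtain ⟨j, hj⟩ := not_forall.1 h0
  have jn : j < 3 + n := not_le.1 fun k => hj (hA.2.2 0 j k)
  have key : ∀ c : ℤ, (A 0 j + c).natAbs < (A 0 j).natAbs → Adm n (d1a_mv j c A) ∧
      p (d1a_mv j c A) := fun c hc => by
    have a : Adm n (d1a_mv j c A) := ⟨fun x y => if_congr or_comm (by rw [hA.1]) (hA.1 x y),
      fun x y hx hy => (if_neg (by omega)).trans (hA.2.1 x y hx hy),
      fun x y hy => (if_neg (by omega)).trans (hA.2.2 x y hy)⟩
    have e : ∀ k, d1a_mv j c A 0 k = if k = j then A 0 k + c else A 0 k := fun k =>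
      if_congr (by omega) rfl rfl
    have lt : ∑ k ∈ Finset.range (3 + n), (d1a_mv j c A 0 k).natAbs <
        ∑ k ∈ Finset.range (3 + n), (A 0 k).natAbs := by
      refine Finset.sum_lt_sum (fun k _ => ?_) ⟨j, Finset.mem_range.2 jn, by rwa [e, if_pos rfl]⟩
      rw [e]
      split_ifs with k
      · rw [k]
        exact hc.le
      · rfl
    refine ⟨a, ih _ (hm ▸ lt) a (fun k hk => d1a_eq (h k ?_) fun x y => ?_) rfl⟩
    · rw [e] at hk
      split_ifs at hk with k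
      · rwa [k]
      · exact hk
    · grind [setR, d1a_mv]
  have aS := d1a_set hA (r := 0) (by omega) jn
  rcases lt_or_gt_of_ne hj with l | l
  · obtain ⟨a, k⟩ := key 1 (by omega)
    refine (H.add _ _ _ hA a aS ⟨fun x y hx hy => ?_, fun y hy => ?_, ?_⟩).1 k (h j hj)
    · simp [setR, d1a_mv, hx, hy]
    · grind [setR, d1a_mv]
    · exact ⟨0, by grind [setR, d1a_mv]⟩
  · obtain ⟨a, k⟩ := key (-1) (by omega)
    refine (H.add _ _ _ a aS hA ⟨fun x y hx hy => ?_, fun y hy => ?_, ?_⟩).2 k (h j hj)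
    · simp [setR, d1a_mv, hx, hy]
    · grind [setR, d1a_mv]
    · exact ⟨0, by grind [setR, d1a_mv]⟩

/-- PLAN: conjugate `row0` by `swap`. -/
theorem Deg1.row (H : Deg1 n p) {r : ℕ} (hr : r < 3) {A : ℕ → ℕ → ℤ} (hA : Adm n A)
    (h : ∀ j, A r j ≠ 0 → p (setR r j A)) : p A := by
  have a := d1a_adms hA (a := 0) (by omega) hr
  refine d1a_eq (H.swap hr a (H.row0 a fun j hj => ?_))
    fun x y => by rw [Equiv.swap_apply_self, Equiv.swap_apply_self]
  rw [Equiv.swap_apply_left] at hj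
  refine d1a_eq (H.swap hr (d1a_set hA hr (not_le.1 fun k => hj (hA.2.2 _ _ k))) (h _ hj))
    fun x y => ?_
  simp only [setR, Equiv.apply_eq_iff_eq, Equiv.swap_apply_eq_iff, Equiv.swap_apply_right]

theorem Deg1.d1a_01 (H : Deg1 n p) {a b c : ℕ} (h : p (d1a_M a b c)) (a' b' c' : ℕ)
    (k : a < 3 + n ∧ b < 3 + n ∧ c < 3 + n)
    (e : Equiv.swap 0 1 b = a' ∧ Equiv.swap 0 1 a = b' ∧ Equiv.swap 0 1 c = c') :
    p (d1a_M a' b' c') := by
  obtain ⟨rfl, rfl, rfl⟩ := e
  refine d1a_eq (H.swap01 (d1a_admM k.1 k.2.1 k.2.2) h) fun x y => if_congr ?_ rfl rfl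
  simp only [Equiv.swap_apply_eq_iff, Equiv.swap_apply_left, Equiv.swap_apply_right,
    show Equiv.swap 0 1 2 = 2 by decide]
  simp only [or_comm, or_left_comm]

theorem Deg1.d1a_12 (H : Deg1 n p) {a b c : ℕ} (h : p (d1a_M a b c)) (a' b' c' : ℕ)
    (k : a < 3 + n ∧ b < 3 + n ∧ c < 3 + n)
    (e : Equiv.swap 1 2 a = a' ∧ Equiv.swap 1 2 c = b' ∧ Equiv.swap 1 2 b = c') :
    p (d1a_M a' b' c') := by
  obtain ⟨rfl, rfl, rfl⟩ := e
  refine d1a_eq (H.swap12 (d1a_admM k.1 k.2.1 k.2.2) h) fun x y => if_congr ?_ rfl rfl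
  simp only [Equiv.swap_apply_eq_iff, Equiv.swap_apply_left, Equiv.swap_apply_right,
    show Equiv.swap 1 2 0 = 0 by decide]
  simp only [or_comm, or_left_comm, or_assoc]

/-- Every row has at most one non zero entry, equal to `-1`.  PLAN: if a strand `3 + i` is not
among `j 0, j 1, j 2` use `supp`; if a row vanishes use `zero'`.  Otherwise `n ≤ 3`.  For `n = 3`
the `j r` are a permutation of `3, 4, 5` and `A` is obtained from `Ay` by `swap01`, `swap12`.  For
`n = 2` two rows point to `3` and `4`; the third row `r` points to `r`, `3` or `4` (by symmetry of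
`A` it cannot point to another leaf), and `A` is obtained from `AW`, `A1` or `A1'` by `swap01`,
`swap12`; `AW'` is `swap12` of `AW`. -/
theorem Deg1.base (H : Deg1 n p) (hn : 2 ≤ n) {A : ℕ → ℕ → ℤ} (hA : Adm n A) (j : ℕ → ℕ)
    (h : ∀ r < 3, ∀ y, A r y ≠ 0 → y = j r ∧ A r y = -1) : p A := by
  by_cases h0 : ∃ r < 3, ∀ y, A r y = 0
  · obtain ⟨r, hr, k⟩ := h0
    exact H.zero' hr hA k
  by_cases h1 : ∃ i < n, ∀ k, A k (3 + i) = 0
  · obtain ⟨i, hi, k⟩ := h1
    exact H.supp A hA i hi k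
  push Not at h0 h1
  have v : ∀ r < 3, A r (j r) = -1 := fun r hr => by
    obtain ⟨y, hy⟩ := h0 r hr
    obtain ⟨rfl, k⟩ := h r hr y hy
    exact k
  have b : ∀ r < 3, j r < 3 + n := fun r hr => not_le.1 fun k => by
    have := v r hr
    have := hA.2.2 r _ k
    omega
  have s : ∀ r < 3, ∀ r' < 3, j r = r' → j r' = r := fun r hr r' hr' k =>
    (h r' hr' r (by rw [hA.1, ← k, v r hr]; omega)).1.symm
  have c : ∀ i < n, j 0 = 3 + i ∨ j 1 = 3 + i ∨ j 2 = 3 + i := fun i hi => by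
    obtain ⟨k, hk⟩ := h1 i hi
    have k3 : k < 3 := not_le.1 fun l => hk (hA.2.1 _ _ l (by omega))
    have := (h k k3 _ hk).1
    obtain rfl | rfl | rfl : k = 0 ∨ k = 1 ∨ k = 2 := by omega
    all_goals omega
  refine d1a_eq (A := d1a_M (j 0) (j 1) (j 2)) ?_ fun x y => ?_
  · have c0 := c 0 (by omega)
    have c1 := c 1 (by omega)
    have c2 := c 2
    have c3 := c 3
    have b0 := b 0 (by omega)
    have b1 := b 1 (by omega)
    have b2 := b 2 (by omega)
    have s1 := s 0 (by omega) 1 (by omega)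
    have s2 := s 0 (by omega) 2 (by omega)
    have s3 := s 1 (by omega) 0 (by omega)
    have s4 := s 1 (by omega) 2 (by omega)
    have s5 := s 2 (by omega) 0 (by omega)
    have s6 := s 2 (by omega) 1 (by omega)
    generalize j 0 = x, j 1 = y, j 2 = z at *
    obtain rfl | rfl : n = 2 ∨ n = 3 := by omega
    · obtain ⟨m034, m434, k⟩ := H.two rfl
      rw [d1a_list.2.1] at m034
      rw [d1a_list.2.2.1] at m434
      rw [d1a_list.2.2.2.1, d1a_list.2.2.2.2] at k
      have m043 := H.d1a_12 m034 0 4 3 (by omega) (by decide)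
      have m314 := H.d1a_01 m034 3 1 4 (by omega) (by decide)
      have m413 := H.d1a_01 m043 4 1 3 (by omega) (by decide)
      have m342 := H.d1a_12 m314 3 4 2 (by omega) (by decide)
      have m432 := H.d1a_12 m413 4 3 2 (by omega) (by decide)
      have m344 := H.d1a_01 m434 3 4 4 (by omega) (by decide)
      have m443 := H.d1a_12 m434 4 4 3 (by omega) (by decide)
      have m343 := k m043
      have m433 := H.d1a_01 m343 4 3 3 (by omega) (by decide)
      have m334 := H.d1a_12 m343 3 3 4 (by omega) (by decide)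
      interval_cases x <;> interval_cases y <;> interval_cases z <;> omega
    · have m435 := H.three rfl
      rw [d1a_list.1] at m435
      have m345 := H.d1a_01 m435 3 4 5 (by omega) (by decide)
      have m453 := H.d1a_12 m435 4 5 3 (by omega) (by decide)
      have m354 := H.d1a_12 m345 3 5 4 (by omega) (by decide)
      have m543 := H.d1a_01 m453 5 4 3 (by omega) (by decide)
      have m534 := H.d1a_01 m354 5 3 4 (by omega) (by decide)
      interval_cases x <;> interval_cases y <;> interval_cases z <;> omega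
  · unfold d1a_M
    split_ifs with k
    · rcases k with k | k | k | k | k | k <;> obtain ⟨rfl, rfl⟩ := k
      all_goals first | exact v _ (by omega) | exact (hA.1 _ _).trans (v _ (by omega))
    · by_contra l
      by_cases hx : x < 3
      · have := (h x hx y l).1
        obtain rfl | rfl | rfl : x = 0 ∨ x = 1 ∨ x = 2 := by omega
        all_goals omega
      · have hy : y < 3 := not_le.1 fun hy => l (hA.2.1 x y (by omega) hy)
        have := (h y hy x (by rwa [hA.1])).1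
        obtain rfl | rfl | rfl : y = 0 ∨ y = 1 ∨ y = 2 := by omega
        all_goals omega

theorem d1a_new (r j : ℕ) (A : ℕ → ℕ → ℤ) (y : ℕ) (h : setR r j A r y ≠ 0) :
    y = j ∧ setR r j A r y = -1 := by
  simp only [setR] at h ⊢
  split_ifs at h ⊢ <;> omega

theorem d1a_keep {A : ℕ → ℕ → ℤ} (hA : Adm n A) {r j r' j' : ℕ}
    (h : ∀ y, A r y ≠ 0 → y = j ∧ A r y = -1) (h' : A r' j' ≠ 0) (k : r ≠ r') (y : ℕ)
    (hy : setR r' j' A r y ≠ 0) : y = j ∧ setR r' j' A r y = -1 := by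
  simp only [setR, if_neg k] at hy ⊢
  split_ifs at hy ⊢ with e e'
  · exact ⟨e ▸ (h r' (by rwa [hA.1, e'])).1, rfl⟩
  · exact (hy rfl).elim
  · exact h y hy

/-- PLAN: `row` for `r = 0, 1, 2`, then `base`. -/
theorem deg1_abs (H : Deg1 n p) (hn : 2 ≤ n) {A : ℕ → ℕ → ℤ} (hA : Adm n A) : p A := by
  have b : ∀ {A r j}, Adm n A → A r j ≠ 0 → j < 3 + n := fun hA h =>
    not_le.1 fun k => h (hA.2.2 _ _ k)
  refine H.row (r := 0) (by omega) hA fun j0 h0 => ?_
  have a0 := d1a_set hA (r := 0) (by omega) (b hA h0)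
  refine H.row (r := 1) (by omega) a0 fun j1 h1 => ?_
  have a1 := d1a_set a0 (r := 1) (by omega) (b a0 h1)
  refine H.row (r := 2) (by omega) a1 fun j2 h2 => ?_
  refine H.base hn (d1a_set a1 (by omega) (b a1 h2))
    (fun r => if r = 0 then j0 else if r = 1 then j1 else j2) fun r hr => ?_
  obtain rfl | rfl | rfl : r = 0 ∨ r = 1 ∨ r = 2 := by omega
  · exact d1a_keep a1 (d1a_keep a0 (d1a_new _ _ _) h1 (by omega)) h2 (by omega)
  · exact d1a_keep a1 (d1a_new _ _ _) h2 (by omega)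
  · exact d1a_new _ _ _

end Pool.Agent.GH
end

-- merged part: Pool.Agent.Work.MP_c00b06_gt.HD1
section
/-! Normal forms of states. -/

namespace Pool.Agent.GH
open Gn

variable {X : Wd → Wd → Prop}

theorem HD.nl {N : ℕ} {h : Cob X} (H : HD N h) : NL 0 N h := by
  induction H with
  | nil => exact NL.one 0
  | step N h g i _ _ _ hl hi ih => exact ih.mul (NL.G g hl i hi (by omega))

/-- Tensor product of morphisms with one input each. -/
def Tn : List (Cob X) → Cob X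
  | [] => 1
  | f :: fs => up 1 (Tn fs) * f

theorem Tn_app (l l' : List (Cob X)) : Tn (l ++ l') = up l.length (Tn l') * Tn l := by
  induction l with
  | nil => simp [Tn, up_zero]
  | cons f fs ih =>
    rw [List.cons_append, Tn, Tn, ih, map_mul, up_up, mul_assoc, List.length_cons,
      Nat.add_comm 1]

/-- Delete (`0`), keep (`1`) or double (`2`) a handle. -/
def cp : Fin 3 → Cob X
  | 0 => G u 0
  | 1 => 1
  | 2 => G d 0

/-- Typed morphisms without `d`, `u`, `l`. -/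
def hd1_ND (p q : ℕ) (f : Cob X) : Prop :=
  ∃ x, mk x = f ∧ Ok p x q ∧ ∀ a ∈ x, a.2 ≠ d ∧ a.2 ≠ u ∧ a.2 ≠ l

theorem hd1_mul {N q : ℕ} {h f : Cob X} (H : HD N h) (hf : hd1_ND N q f) : HD q (h * f) := by
  obtain ⟨x, rfl, hx, ha⟩ := hf
  induction x generalizing N h with
  | nil =>
    cases hx
    simpa [mk_nil] using H
  | cons a x ih =>
    obtain ⟨i, g⟩ := a
    obtain ⟨k1, k2, k3⟩ := ha _ List.mem_cons_self
    rw [mk_cons, ← mul_assoc]
    exact ih (HD.step N h g i H k1 k2 k3 hx.1) hx.2 fun a k => ha a (List.mem_cons_of_mem _ k)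

theorem hd1_up {p q p' q' : ℕ} {f : Cob X} (hf : hd1_ND p q f) (i : ℕ) (h1 : i + p ≤ p')
    (h2 : q' + p = p' + q) : hd1_ND p' q' (up i f) := by
  obtain ⟨x, rfl, hx, ha⟩ := hf
  refine ⟨sh i x, rfl, ?_, fun a k => ?_⟩
  · have := ok_pad (p' - (i + p)) (ok_sh i hx)
    rwa [show i + p + (p' - (i + p)) = p' by omega, show i + q + (p' - (i + p)) = q' by omega]
      at this
  · obtain ⟨b, hb, rfl⟩ := List.mem_map.1 k
    exact ha b hb

theorem hd1_at {N p q q' : ℕ} {h f : Cob X} (H : HD N h) (hf : hd1_ND p q f) (i : ℕ)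
    (h1 : i + p ≤ N) (h2 : q' + p = N + q) : HD q' (h * up i f) := hd1_mul H (hd1_up hf i h1 h2)

theorem hd1_mm {p q r : ℕ} {f g : Cob X} (hf : hd1_ND p q f) (hg : hd1_ND q r g) :
    hd1_ND p r (f * g) := by
  obtain ⟨x, rfl, hx, ha⟩ := hf
  obtain ⟨y, rfl, hy, hb⟩ := hg
  exact ⟨x ++ y, rfl, ok_app hx hy, fun a k => (List.mem_append.1 k).elim (ha a) (hb a)⟩

theorem hd1_B1 (s : Bool) (q : ℕ) : hd1_ND (q + 1) (q + 1) (B s 1 q : Cob X) := by
  induction q with
  | zero => exact ⟨[], (B_zero_right s 1).symm, rfl, by simp⟩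
  | succ q ih =>
    rw [B_one_succ, ← up_zero (B s 1 q)]
    refine hd1_mm (hd1_up ih 0 (q' := q + 1 + 1) (by omega) rfl) ⟨[(q, cr s)], rfl, ?_, ?_⟩ <;>
      cases s <;> simp [cr, Ok, Gn.ar, Gn.co]

theorem hd1_B (s : Bool) (p q : ℕ) : hd1_ND (p + q) (q + p) (B s p q : Cob X) := by
  induction p with
  | zero => exact ⟨[], rfl, Nat.add_comm _ _, by simp⟩
  | succ p ih =>
    rw [B_succ_left, ← up_zero (B s 1 q)]
    exact hd1_mm (hd1_up ih 1 (q' := q + (p + 1)) (by omega) (by omega))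
      (hd1_up (hd1_B1 s q) 0 (by omega) (by omega))

theorem hd1_cp (j : Fin 3) : Ty 1 j.val (cp j : Cob X) := by
  fin_cases j
  exacts [Ty.G u 0 le_rfl rfl, Ty.one 1, Ty.G d 0 le_rfl rfl]

theorem hd1_ty (J : List (Fin 3)) :
    Ty J.length (J.map fun j => j.val).sum (Tn (J.map cp) : Cob X) := by
  induction J with
  | nil => exact Ty.one 0
  | cons j J ih =>
    simp only [List.map_cons, List.sum_cons, List.length_cons, Tn]
    exact (ih.at 1 (q' := 1 + (J.map fun j => j.val).sum) (by omega) (by omega)).mul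
      ((hd1_cp j).wide (by omega) (by omega))

theorem hd1_cr (s : Bool) (a b : Fin 3) : (G (cr s) 0 * Tn ([a, b].map cp) : Cob X) =
    Tn ([b, a].map cp) * B s b.val a.val := by
  have h1 := natR s 1 (hd1_cp (X := X) b)
  have h2 := natL s b.val (hd1_cp (X := X) a)
  have h3 := far (hd1_cp (X := X) b) 0 (cp a)
  simp only [List.map_cons, List.map_nil, Tn, map_one, one_mul, Nat.add_zero] at h3 ⊢
  rw [← B_one_one, ← mul_assoc, ← h1, mul_assoc, h2, ← mul_assoc, h3]

theorem hd1_uu : (G u 0 * G u 0 : Cob X) = G u 1 * G u 0 := far_G u u 0 0 le_rfl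

theorem hd1_w02 : (G w 0 * (G d 1 * G u 0) : Cob X) = G e 0 * G e 0 := by
  have h : (G u 0 * G d 0 : Cob X) = G d 1 * G u 0 := far_G u d 0 0 le_rfl
  rw [← h, ← mul_assoc, wuL, ax_ed]

theorem hd1_w22 : (G w 0 * (G d 1 * G d 0) : Cob X) =
    G w 0 * G w 1 * G m 2 * G w 2 * G w 3 * G m 4 * G P 1 * G m 0 * G m 1 := by
  have h1 : (G d 0 * G w 2 : Cob X) = G w 1 * G d 0 := far_G d w 0 2 le_rfl
  have h2 : (G w 2 * G d 2 : Cob X) = G w 2 * G w 3 * G m 4 := congrArg (up 2) ax_wL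
  calc (G w 0 * (G d 1 * G d 0) : Cob X) = G w 0 * G w 1 * (G m 0 * G d 0) := by
        rw [← mul_assoc, ax_wR, mul_assoc]
    _ = G w 0 * (G w 1 * G d 0) * G d 2 * G P 1 * G m 0 * G m 1 := by
        simp only [ax_bi, mul_assoc]
    _ = G w 0 * G d 0 * (G w 2 * G d 2) * G P 1 * G m 0 * G m 1 := by
        simp only [← h1, mul_assoc]
    _ = _ := by simp only [ax_wL, h2, mul_assoc]

theorem hd1_fin {g : Gn} {J : List (Fin 3)} (J' : List (Fin 3)) (x : Wd) (h1 : J'.length = g.ar)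
    (h2 : Ok (J'.map fun j => j.val).sum x (J.map fun j => j.val).sum)
    (h3 : ∀ a ∈ x, a.2 ≠ d ∧ a.2 ≠ u ∧ a.2 ≠ l)
    (e : (G g 0 * Tn (J.map cp) : Cob X) = Tn (J'.map cp) * mk x) :
    ∃ (J' : List (Fin 3)) (ω : Cob X), J'.length = g.ar ∧
      hd1_ND (J'.map fun j => j.val).sum (J.map fun j => j.val).sum ω ∧
      G g 0 * Tn (J.map cp) = Tn (J'.map cp) * ω := ⟨J', mk x, h1, ⟨x, rfl, h2, h3⟩, e⟩

theorem hd1_loc (g : Gn) (h1 : g ≠ d) (h2 : g ≠ u) (h3 : g ≠ l) (J : List (Fin 3))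
    (hJ : J.length = g.co) : ∃ (J' : List (Fin 3)) (ω : Cob X), J'.length = g.ar ∧
      hd1_ND (J'.map fun j => j.val).sum (J.map fun j => j.val).sum ω ∧
      G g 0 * Tn (J.map cp) = Tn (J'.map cp) * ω := by
  have ok : ∀ {p q : ℕ} {x : Wd}, okb p x = true →
      x.foldl (fun n a => n - a.2.ar + a.2.co) p = q → Ok p x q := by
    intro p q x
    induction x generalizing p with
    | nil => exact fun _ k => k
    | cons a x ih =>
      intro k1 k2
      simp only [okb, Bool.and_eq_true, decide_eq_true_eq] at k1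
      exact ⟨k1.1, ih k1.2 k2⟩
  cases g with
  | d => exact absurd rfl h1
  | u => exact absurd rfl h2
  | l => exact absurd rfl h3
  | P =>
    obtain ⟨a, b, rfl⟩ := List.length_eq_two.1 hJ
    exact ⟨[b, a], _, rfl, by simpa using hd1_B true b.val a.val, hd1_cr true a b⟩
  | Q =>
    obtain ⟨a, b, rfl⟩ := List.length_eq_two.1 hJ
    exact ⟨[b, a], _, rfl, by simpa using hd1_B false b.val a.val, hd1_cr false a b⟩
  | m =>
    obtain ⟨a, rfl⟩ := List.length_eq_one_iff.1 hJ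
    fin_cases a
    · exact hd1_fin [0, 0] [] rfl (ok rfl rfl) (by decide) (ax_mu.trans hd1_uu)
    · exact hd1_fin [1, 1] [(0, m)] rfl (ok rfl rfl) (by decide) rfl
    · exact hd1_fin [2, 2] [(1, P), (0, m), (1, m)] rfl (ok rfl rfl) (by decide) 
        (ax_bi.trans (congrArg (· * G P 1 * G m 0 * G m 1) (far_G d d 0 2 le_rfl)))
  | e =>
    obtain ⟨a, rfl⟩ := List.length_eq_one_iff.1 hJ
    fin_cases a
    · exact hd1_fin [] [] rfl (ok rfl rfl) (by decide) ax_eu
    · exact hd1_fin [] [(0, e)] rfl (ok rfl rfl) (by decide) rfl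
    · exact hd1_fin [] [(0, e), (0, e)] rfl (ok rfl rfl) (by decide) ax_ed
  | S =>
    obtain ⟨a, rfl⟩ := List.length_eq_one_iff.1 hJ
    fin_cases a
    · exact hd1_fin [0] [] rfl (ok rfl rfl) (by decide) Su
    · exact hd1_fin [1] [(0, S)] rfl (ok rfl rfl) (by decide) rfl
    · exact hd1_fin [2] [(0, P), (0, S), (1, S)] rfl (ok rfl rfl) (by decide) Sd
  | T =>
    obtain ⟨a, rfl⟩ := List.length_eq_one_iff.1 hJ
    fin_cases a
    · exact hd1_fin [0] [] rfl (ok rfl rfl) (by decide) Tu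
    · exact hd1_fin [1] [(0, T)] rfl (ok rfl rfl) (by decide) rfl
    · exact hd1_fin [2] [(0, Q), (0, T), (1, T)] rfl (ok rfl rfl) (by decide) Td
  | v =>
    obtain ⟨a, rfl⟩ := List.length_eq_one_iff.1 hJ
    fin_cases a
    · exact hd1_fin [] [] rfl (ok rfl rfl) (by decide) ax_vu
    · exact hd1_fin [] [(0, v)] rfl (ok rfl rfl) (by decide) rfl
    · exact hd1_fin [] [(0, v), (1, w), (3, v), (0, m), (1, m)] rfl (ok rfl rfl) (by decide) 
        ax_vd
  | V =>
    obtain ⟨a, rfl⟩ := List.length_eq_one_iff.1 hJ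
    fin_cases a
    · exact hd1_fin [] [] rfl (ok rfl rfl) (by decide) Vu
    · exact hd1_fin [] [(0, V)] rfl (ok rfl rfl) (by decide) rfl
    · exact hd1_fin [] [(0, V), (1, w), (1, T), (3, V), (0, m), (1, m)] rfl (ok rfl rfl) (by decide) 
        Vd
  | w =>
    obtain ⟨a, b, rfl⟩ := List.length_eq_two.1 hJ
    fin_cases a <;> fin_cases b
    · exact hd1_fin [] [] rfl (ok rfl rfl) (by decide) 
        ((congrArg (· * G u 0) wuR).trans ax_eu)
    · exact hd1_fin [] [(0, e)] rfl (ok rfl rfl) (by decide) wuL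
    · exact hd1_fin [] [(0, e), (0, e)] rfl (ok rfl rfl) (by decide) hd1_w02
    · exact hd1_fin [] [(0, e)] rfl (ok rfl rfl) (by decide) wuR
    · exact hd1_fin [] [(0, w)] rfl (ok rfl rfl) (by decide) rfl
    · exact hd1_fin [] [(0, w), (1, w), (0, m)] rfl (ok rfl rfl) (by decide) ax_wR
    · exact hd1_fin [] [(0, e), (0, e)] rfl (ok rfl rfl) (by decide) 
        ((congrArg (· * G d 0) wuR).trans ax_ed)
    · exact hd1_fin [] [(0, w), (1, w), (2, m)] rfl (ok rfl rfl) (by decide) ax_wL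
    · exact hd1_fin [] 
        [(0, w), (1, w), (2, m), (2, w), (3, w), (4, m), (1, P), (0, m), (1, m)]
        rfl (ok rfl rfl) (by decide) hd1_w22

/-- PLAN.  Induction on `HD`, for all `J`.  For the last letter `G g i` split
`J = J1 ++ J2 ++ J3` with lengths `i`, `g.co`; show
`G g 0 * Tn (J2.map cp) = Tn (J2'.map cp) * ω` with `J2'` of length `g.ar` and `ω` a typed product
of letters other than `d u l` (`ax_bi ax_mu ax_ed ax_eu Sd Su Td Tu ax_vd ax_vu Vd Vu ax_wL ax_wR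
wuL wuR`, naturality for `P Q`; `w0 d0 d2 = w0 d1 d0`), move it past `Tn (J1.map cp)` by `far`, and
use that `HD` is closed under such `ω` (a predicate like `NL` that also excludes `d` and `u`). -/
theorem hd_cp {N : ℕ} {h : Cob X} (H : HD N h) (J : List (Fin 3)) (hJ : J.length = N) :
    HD (J.map fun j => j.val).sum (h * Tn (J.map cp)) := by
  induction H generalizing J with
  | nil =>
    obtain rfl := List.length_eq_zero_iff.1 hJ
    simpa [Tn] using HD.nil
  | step N h g i _ h1 h2 h3 hi ih =>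
    obtain ⟨J1, J', rfl, l1⟩ : ∃ J1 J', J = J1 ++ J' ∧ J1.length = i :=
      ⟨J.take i, J.drop i, (List.take_append_drop _ _).symm, by rw [List.length_take]; omega⟩
    rw [List.length_append] at hJ
    obtain ⟨J2, J3, rfl, l2⟩ : ∃ J2 J3, J' = J2 ++ J3 ∧ J2.length = g.co :=
      ⟨J'.take g.co, J'.drop g.co, (List.take_append_drop _ _).symm, by
        rw [List.length_take]; omega⟩
    rw [List.length_append] at hJ
    obtain ⟨J4, ω, l4, hω, e⟩ := hd1_loc (X := X) g h1 h2 h3 J2 l2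
    have k := ih (J1 ++ (J4 ++ J3)) (by simp only [List.length_append]; omega)
    have f1 := far (hd1_ty (X := X) J1) 0 ω
    have f2 := far_Gf (X := X) g 0 g.co (by omega) (Tn (J3.map cp))
    rw [Nat.add_zero, Nat.add_zero, l1] at f1
    rw [Nat.sub_self, Nat.zero_add] at f2
    have e2 : G g i * Tn ((J1 ++ (J2 ++ J3)).map cp) =
        Tn ((J1 ++ (J4 ++ J3)).map cp) * up (J1.map fun j => j.val).sum ω := by
      simp only [List.map_append, Tn_app, List.length_map, l1, l2, l4]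
      rw [mul_assoc, f1, ← mul_assoc, ← mul_assoc, ← map_mul, mul_assoc (up g.ar _), ← e,
        ← mul_assoc, ← f2, mul_assoc (G g 0), map_mul (up i) (G g 0), up_G, Nat.add_zero]
    rw [mul_assoc, e2, ← mul_assoc]
    refine hd1_at k hω _ ?_ ?_ <;> simp only [List.map_append, List.sum_append] <;> omega

theorem hd_G {N : ℕ} {h : Cob X} (H : HD N h) (g : Gn) (hg : g ≠ l) {i : ℕ} (hi : i + g.ar ≤ N) :
    HD (N - g.ar + g.co) (h * G g i) := by
  have one : ∀ n, (Tn ((List.replicate n (1 : Fin 3)).map cp) : Cob X) = 1 := fun n => by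
    induction n with
    | zero => rfl
    | succ n ih => rw [List.replicate_succ, List.map_cons, Tn, ih, map_one, one_mul, cp]
  have key : ∀ j : Fin 3, i + 1 ≤ N → HD (N - 1 + j.val) (h * up i (cp j)) := fun j k => by
    have := hd_cp H (List.replicate i 1 ++ j :: List.replicate (N - 1 - i) 1) (by simp; omega)
    rw [List.map_append (f := cp), Tn_app, List.map_cons, Tn, one, one, map_one, one_mul,
      mul_one, List.length_map, List.length_replicate] at this
    convert this using 1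
    simp
    omega
  by_cases h1 : g = d
  · subst h1
    exact key 2 hi
  by_cases h2 : g = u
  · subst h2
    exact key 0 hi
  exact HD.step N h g i H h1 h2 hg hi

theorem hd_of_nl {N : ℕ} {h : Cob X} (H : NL 0 N h) : HD N h := by
  obtain ⟨x, rfl, hx, ha⟩ := H
  suffices k : ∀ (p : ℕ) (f : Cob X), HD p f → Ok p x N → HD N (f * mk x) by
    simpa using k 0 1 HD.nil hx
  clear hx
  induction x with
  | nil =>
    intro p f H hx
    cases hx
    simpa [mk_nil] using H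
  | cons a x ih =>
    intro p f H hx
    obtain ⟨i, g⟩ := a
    rw [mk_cons, ← mul_assoc]
    exact ih (fun a k => ha a (List.mem_cons_of_mem _ k)) _ _
      (hd_G H g (ha _ List.mem_cons_self) hx.1) hx.2

theorem hd1_E (g : Gn) (hg : g ≠ l) : (G g 0 * E g.co : Cob X) = E g.ar := by
  have k : ∀ s, (G (cr s) 0 * E 2 : Cob X) = E 2 := fun s => by
    have := congrArg (· * G u 0) (B_E (X := X) s 1 1)
    rw [B_one_one] at this
    exact this.trans hd1_uu.symm
  cases g with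
  | l => exact absurd rfl hg
  | P => exact k true
  | Q => exact k false
  | m => exact ax_mu
  | e => exact ax_eu
  | d => exact congrArg (· * G u 0) ax_dL
  | u => rfl
  | S => exact Su
  | T => exact Tu
  | v => exact ax_vu
  | V => exact Vu
  | w => exact (congrArg (· * G u 0) wuL).trans ax_eu

/-- PLAN: induction on the word:
`G g i * E (q - g.ar + g.co) = E q` for `g ≠ l` (`E_add`, `E_add'`). -/
theorem nl_E {p q : ℕ} {f : Cob X} (H : NL p q f) : f * E q = E p := by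
  obtain ⟨x, rfl, hx, ha⟩ := H
  induction x generalizing p with
  | nil =>
    cases hx
    rw [mk_nil, one_mul]
  | cons a x ih =>
    obtain ⟨i, g⟩ := a
    have h0 : i + g.ar ≤ p := hx.1
    obtain ⟨r, rfl⟩ := Nat.exists_eq_add_of_le h0
    rw [mk_cons, mul_assoc, ih hx.2 fun a k => ha a (List.mem_cons_of_mem _ k),
      show i + g.ar + r - (i, g).2.ar + (i, g).2.co = i + (g.co + r) by dsimp only; omega,
      Nat.add_assoc, E_add' i, E_add' i, E_add, E_add, ← hd1_E g (ha _ List.mem_cons_self),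
      mul_assoc (G g 0), map_mul (up i) (G g 0), up_G, Nat.add_zero, mul_assoc]

/-- Surgery presentation.  PLAN: `Ty.ind_end`; `G l i = up i (B true 1 r) * G l (i + r)`. -/
theorem nf {N : ℕ} {x : Cob X} (hx : Ty 0 N x) :
    ∃ (s : ℕ) (h : Cob X), NL 0 (N + s) h ∧ x = h * up N (Lm s) := by
  refine Ty.ind_end (p := 0) (C := fun N x => ∃ (s : ℕ) (h : Cob X), NL 0 (N + s) h ∧
    x = h * up N (Lm s)) ⟨0, 1, NL.one 0, rfl⟩ ?_ hx
  rintro q f g i - ⟨s, h, H, rfl⟩ hi
  have e := far_Gf (X := X) g i (q - g.ar + g.co) (by omega) (Lm s)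
  rw [show q - g.ar + g.co - g.co + g.ar = q by omega] at e
  rw [mul_assoc, ← e, ← mul_assoc]
  by_cases hg : g = l
  · subst hg
    obtain ⟨r, rfl⟩ := Nat.exists_eq_add_of_le hi
    have e1 := congrArg (up i) (natR true r (Ty.G (X := X) l 0 (p := 1) (q := 0) le_rfl rfl))
    rw [B_zero_left, mul_one, map_mul, up_G, up_G, up_G, Nat.add_zero, Nat.add_zero] at e1
    have e2 : i + l.ar + r - l.ar + l.co = i + r := by simp only [Gn.ar, Gn.co]; omega
    refine ⟨s + 1, h * up i (B true 1 r), H.mul ((NL.B true 1 r).at i ?_ ?_), ?_⟩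
    · simp only [Gn.ar]; omega
    · simp only [Gn.ar, Gn.co]; omega
    · rw [e2, e1, Lm_succ, map_mul, up_G, Nat.add_zero]
      simp only [mul_assoc]
  · exact ⟨s, _, H.mul (NL.G g hg i (by omega) (by omega)), rfl⟩

end Pool.Agent.GH
end

-- merged part: Pool.Agent.Work.MP_c00b06_gt.Dp1
section
/-! Depth of input handles. -/

namespace Pool.Agent.GH
open Gn

variable {X : Wd → Wd → Prop}

variable {j i : ℕ} {Ψ : Cob X}

theorem dp1_cu0 (s : Bool) : (G (cr s) 0 * G u 0 : Cob X) = G u 1 := by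
  have := natL s 1 (Ty.G (X := X) u 0 (p := 1) (q := 0) le_rfl rfl)
  rwa [B_one_one, B_zero_right, mul_one] at this

theorem dp1_cu1 (s : Bool) : (G (cr s) 0 * G u 1 : Cob X) = G u 0 := by
  have := natR s 1 (Ty.G (X := X) u 0 (p := 1) (q := 0) le_rfl rfl)
  rw [B_one_one, B_zero_left, mul_one] at this
  exact this.symm

theorem dp1_sim {n i : ℕ} {a a' b b' : Cob X} (F Ψ : Cob X) (ha : a = a') (hb : b = b')
    (h : Sim n (F * up i a' * Ψ) (F * up i b' * Ψ)) : Sim n (F * up i a * Ψ) (F * up i b * Ψ) :=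
  ha ▸ hb ▸ h

/-- PLAN: `lit_rem`, `ax_mL`. -/
theorem dp_zero (i : ℕ) (Ψ : Cob X) : Dp 0 i Ψ := by
  intro k F hF
  have h : (G e i * G m i : Cob X) = 1 := (congrArg (up i) ax_mL :)
  have := ((lit_rem hF).right (G m i)).right Ψ
  rwa [mul_assoc (F * G u i), h, mul_one] at this

theorem dp_mono {j' : ℕ} (h : j' ≤ j) (hΨ : Dp j i Ψ) : Dp j' i Ψ :=
  fun k F hF => sim_le (by omega) (hΨ k F hF)

theorem dp_post (hΨ : Dp j i Ψ) (Φ : Cob X) : Dp j i (Ψ * Φ) := fun k F hF => by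
  simpa only [mul_assoc] using (hΨ k F hF).right Φ

/-- Multiplication from the right.  PLAN: `adm`: `m = d0 P1 ad0 m0`; `lit_farL`, `lit_cr1`,
`lit_ad`; `Iu`, `ax_dL`. -/
theorem dp_right (hΨ : Dp j i Ψ) {k : ℕ} {F : Cob X} (hF : Lit k (i + 1) F) :
    Sim (k + j) (F * G m i * Ψ) (F * G u (i + 1) * Ψ) := by
  have e : (G u 1 : Cob X) = G d 0 * G P 1 * Ad * G u 0 := by
    have e1 : (G u 0 * G P 0 : Cob X) = G P 1 * G u 0 := far_G u P 0 0 le_rfl
    rw [mul_assoc, Iu, ← mul_assoc, mul_assoc (G d 0), ← e1, ← mul_assoc, ax_dL, one_mul]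
    exact (dp1_cu0 true).symm
  have l1 : Lit k (i + 1 + 1) (F * up i (G d 0)) :=
    lit_farL hF (Ty.G d 0 (p := 1) (q := 2) le_rfl rfl) le_rfl (by omega)
  have h := hΨ k _ (lit_ad (lit_cr1 true l1))
  refine dp1_sim (i := i) (a := G m 0) (b := G u 1) F Ψ adm.symm e ?_
  simpa only [map_mul, mul_assoc, up_G, Nat.add_zero, cr_true] using h

/-- An action on a literal handle that goes to a deep place.  PLAN: `adY`, `lit_d`, `lit_Y1`. -/
theorem act_rem (hΨ : Dp j i Ψ) {k : ℕ} {F : Cob X} (hF : Lit k (i + 1) F) :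
    Sim (k + 1 + j) (F * up i Ad * Ψ) (F * G u i * Ψ) := by
  have e : (G u 0 : Cob X) = G d 1 * Y * G u 0 := by
    have e1 : (G u 0 * G d 0 : Cob X) = G d 1 * G u 0 := far_G u d 0 0 le_rfl
    rw [mul_assoc, Yu, ← mul_assoc, ← e1, mul_assoc, ax_dL, mul_one]
  have h := hΨ (k + 1) _ (lit_Y1 (lit_d hF).1)
  refine dp1_sim (i := i) (b := G u 0) F Ψ adY.symm e ?_
  simpa only [map_mul, mul_assoc, up_G, Nat.add_zero, cr_true] using h

/-- PLAN: `CoY`, `lit_Y0` with `lit_zero`, `Yu`, `wuR`. -/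
theorem cor_self (hΨ : Dp j (i + 1) Ψ) (F : Cob X) :
    Sim (j + 1) (F * up i Co * Ψ) (F * G e i * Ψ) := by
  have e0 : (G e 0 : Cob X) = G w 0 * G d 2 * up 1 Y * G u 1 := by
    have e1 : (G u 1 * G d 1 : Cob X) = G d 2 * G u 1 := far_G u d 1 1 le_rfl
    have e2 : (up 1 Y * G u 1 : Cob X) = G u 1 * G u 1 := by
      simpa only [map_mul, up_G] using congrArg (up 1) (Yu (X := X))
    have e3 : (G d 1 * G u 1 : Cob X) = 1 := (congrArg (up 1) ax_dL :)
    rw [mul_assoc, e2, ← mul_assoc, mul_assoc (G w 0), ← e1, ← mul_assoc, wuR, mul_assoc, e3,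
      mul_one]
  have h := hΨ (0 + 1) _ (lit_Y0 (lit_zero (i + 1) (F * G w i * G d (i + 2))))
  rw [Nat.zero_add, Nat.add_comm 1 j] at h
  refine dp1_sim (i := i) (b := G e 0) F Ψ CoY e0 ?_
  simpa only [map_mul, mul_assoc, up_up, up_G, Nat.add_zero] using h

theorem DP.dp {f : Cob X} {a b : ℕ} (h : DP f a b) (hΨ : Dp j b Ψ) : Dp j a (f * Ψ) := by
  have := h 0 j Ψ (by rwa [Nat.zero_add])
  rwa [Nat.zero_add, up_zero] at this

theorem DP.one (a : ℕ) : DP (1 : Cob X) a a := fun o k Ψ h => by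
  rwa [map_one, one_mul]

theorem DP.mul {f g : Cob X} {a b c : ℕ} (hf : DP f a b) (hg : DP g b c) : DP (f * g) a c :=
  fun o k Ψ h => by
    rw [map_mul, mul_assoc]
    exact hf o k _ (hg o k Ψ h)

theorem DP.up {f : Cob X} {a b : ℕ} (hf : DP f a b) (o : ℕ) : DP (GH.up o f) (o + a) (o + b) :=
  fun o' k Ψ h => by
    rw [up_up, ← Nat.add_assoc]
    exact hf _ k Ψ (by rwa [Nat.add_assoc])

theorem dp1_cast {f : Cob X} {a b a' b' : ℕ} (h : DP f a b) (ha : a = a') (hb : b = b') :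
    DP f a' b' := ha ▸ hb ▸ h

theorem dp1_of {f f' : Cob X} {a b : ℕ} (hm : G m a * f = f' * G m b) (hu : G u a * f = f' * G u b)
    (hl : ∀ o k F, Lit k (o + a) F → Lit k (o + b) (F * up o f')) : DP f a b := by
  intro o j Ψ h k F hF
  have e1 := congrArg (up o) hm
  have e2 := congrArg (up o) hu
  simp only [map_mul, up_G] at e1 e2
  rw [← mul_assoc, ← mul_assoc, mul_assoc F (G m _), mul_assoc F (G u _), e1, e2, ← mul_assoc,
    ← mul_assoc]
  exact h k _ (hl o k F hF)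

theorem DP.farR {a o : ℕ} (h : a < o) (f : Cob X) : DP (GH.up o f) a a := by
  have e1 := far_Gf m a o h f
  have e2 := far_Gf u a o h.le f
  rw [show o - m.co + m.ar = o + 1 by simp only [Gn.ar, Gn.co]; omega] at e1
  exact dp1_of e1 e2 fun o' k F hF => by
    rw [up_up]
    exact lit_farR hF (by omega) f

theorem DP.farL {p q : ℕ} {f : Cob X} (hf : Ty p q f) (r : ℕ) : DP f (p + r) (q + r) :=
  dp1_of (far hf r (G m 0)).symm (far hf r (G u 0)).symm fun _ _ _ hF =>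
    lit_farL hF hf (by omega) (by omega)

theorem DP.m0 : DP (G m 0 : Cob X) 0 0 :=
  dp1_of ax_mA (far_G u m 0 0 le_rfl) fun o _ _ hF =>
    lit_farR (j := o + 1) hF (Nat.lt_succ_self o) (G m 0)

/-- PLAN: associativity and `dp_right` like argument (`adm`). -/
theorem DP.m1 : DP (G m 0 : Cob X) 1 0 := fun o j Ψ h k F hF => by
  have e : (G m o * G m o : Cob X) = G m (o + 1) * G m o := (congrArg (GH.up o) ax_mA :)
  have := dp_right (DP.m0 o j Ψ h) hF
  rw [up_G] at this ⊢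
  rwa [Nat.add_zero, ← mul_assoc, mul_assoc F, e, ← mul_assoc, mul_assoc] at this

theorem dp1_Bl (s : Bool) {p a : ℕ} (q : ℕ) (h : a < p) : DP (B s p q : Cob X) a (q + a) := by
  refine dp1_of (natR s q (Ty.G m a (p := p + 1) (by simp only [Gn.ar]; omega) rfl))
    (natR s q (Ty.G u a (p := p + 1) (by simp only [Gn.ar]; omega) rfl)) fun o k F hF => ?_
  obtain ⟨r, hr⟩ : ∃ r, p + 1 = a + (r + 1) := ⟨p - a, by omega⟩
  rw [hr, B_add_left, B_succ_left]
  simp only [map_mul, up_up, ← mul_assoc]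
  exact lit_farL (lit_B0 s q (lit_farR hF (by omega) _)) (B_ty s a q) (by omega) (by omega)

theorem dp1_Br (s : Bool) (p : ℕ) {q a : ℕ} (h : a < q) : DP (B s p q : Cob X) (p + a) a := by
  refine dp1_of (natL s p (Ty.G m a (p := q + 1) (by simp only [Gn.ar]; omega) rfl)).symm
    (natL s p (Ty.G u a (p := q + 1) (by simp only [Gn.ar]; omega) rfl)).symm fun o k F hF => ?_
  obtain ⟨r, hr⟩ : ∃ r, q + 1 = a + (1 + r) := ⟨q - a, by omega⟩
  rw [hr, B_add_right, B_add_right]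
  simp only [map_mul, up_up, ← mul_assoc]
  exact lit_farR (lit_B1 s p (lit_farL hF (B_ty s p a) (by omega) (by omega))) (by omega) _

theorem DP.cr0 (s : Bool) : DP (G (cr s) 0 : Cob X) 0 1 := by
  rw [← B_one_one]
  exact dp1_Bl s 1 Nat.one_pos

theorem DP.cr1 (s : Bool) : DP (G (cr s) 0 : Cob X) 1 0 := by
  rw [← B_one_one]
  exact dp1_Br s 1 Nat.one_pos

theorem dp1_ST (s : Bool) {g : Gn} (h1 : (G m 0 * G g 0 : Cob X) =
    G (cr s) 0 * G g 0 * G g 1 * G m 0) (h2 : (G g 0 * G u 0 : Cob X) = G u 0) (ha : g.ar = 1)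
    (hc : g.co = 1) (hl : ∀ {k i : ℕ} {f : Cob X}, Lit k i f → Lit k i (f * G g i)) :
    DP (G g 0 : Cob X) 0 0 := fun o j Ψ h k F hF => by
  have e : (G u 0 * G g 0 : Cob X) = G (cr s) 0 * G g 0 * G g 1 * G u 1 := by
    have e1 : (G g 1 * G u 1 : Cob X) = G u 1 := (congrArg (GH.up 1) h2 :)
    have e2 := far_G (X := X) g u 0 1 (by omega)
    rw [ha, hc] at e2
    rw [mul_assoc, e1, mul_assoc, e2, ← mul_assoc, dp1_cu1]
  have l1 : Lit k (o + 1) (F * G (cr s) o * GH.up o (G g 0)) :=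
    lit_farL (lit_cr0 s hF) (Ty.G g 0 (p := 1) (q := 1) (by omega) (by omega)) le_rfl rfl
  have k1 := dp_right h (hl l1)
  have k2 := dp1_sim (i := o) F Ψ h1 e (by
    simpa only [map_mul, mul_assoc, up_G, Nat.add_zero] using k1)
  simpa only [map_mul, mul_assoc, up_G, Nat.add_zero] using k2

/-- PLAN: `mS`, `dp_right`. -/
theorem DP.S : DP (G S 0 : Cob X) 0 0 := dp1_ST true mS Su rfl rfl lit_S

theorem DP.T : DP (G T 0 : Cob X) 0 0 := dp1_ST false mT Tu rfl rfl lit_T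

theorem DP.sg (s : Bool) : DP (sg s : Cob X) 0 0 := by
  cases s
  exacts [DP.one 0, DP.T]

theorem DP.B_left (s : Bool) {p a : ℕ} (q : ℕ) (h : a < p) : DP (B s p q : Cob X) a (q + a) :=
  dp1_Bl s q h

theorem DP.B_right (s : Bool) (p : ℕ) {q a : ℕ} (h : a < q) : DP (B s p q : Cob X) (p + a) a :=
  dp1_Br s p h

theorem DP.Ma0 (a : ℕ) : DP (Ma a : Cob X) 0 a :=
  (DP.B_left true a Nat.one_pos).mul (DP.m0.up a)

theorem DP.Ma1 (a b : ℕ) : DP (Ma a : Cob X) (b + 1) b := by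
  rcases lt_trichotomy b a with h | rfl | h
  · exact (dp1_cast (DP.B_right true 1 h) (Nat.add_comm 1 b) rfl).mul (DP.farR h (G m 0))
  · exact (dp1_cast (DP.farL (B_ty true 1 b) 0) (Nat.add_comm 1 b) rfl).mul (DP.m1.up b)
  · exact dp1_cast (DP.farL (NL.Ma (Nat.lt_succ_self a)).ty (b - a - 1)) (by omega) (by omega)

theorem DP.op (t : It) (a : ℕ) : DP (t.op : Cob X) a a := by
  cases t with
  | c s x y =>
    exact ((dp1_cast (DP.farL (NL.cw s).ty a) (by omega) (by omega)).mul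
      (dp1_cast ((DP.Ma1 y a).up 1) rfl (Nat.add_comm 1 a))).mul (DP.Ma1 x a)
  | v s x => exact (dp1_cast (DP.farL (NL.vw s).ty a) (by omega) (by omega)).mul (DP.Ma1 x a)

theorem DP.Ops (l : List It) (a : ℕ) : DP (Ops l : Cob X) a a := by
  induction l with
  | nil => exact DP.one a
  | cons t l ih =>
    rw [Ops_cons]
    exact (DP.op t a).mul ih

theorem DP.Mu_l {n a : ℕ} (h : a < n) : DP (Mu n : Cob X) a a := by
  induction n generalizing a with
  | zero => omega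
  | succ n ih =>
    cases a with
    | zero => exact ((DP.farR Nat.one_pos _).mul DP.m0).mul (DP.farR Nat.one_pos _)
    | succ a =>
      have ha : a < n := by omega
      exact dp1_cast ((((DP.B_left true 1 ha).up 1).mul (dp1_cast
        (DP.farL (Ty.G m 0 (p := 2) (q := 1) le_rfl rfl) a) (by omega) rfl)).mul ((ih ha).up 1))
        (by omega) (by omega)

theorem DP.Mu_r {n a : ℕ} (h : a < n) : DP (Mu n : Cob X) (n + a) a := by
  induction n generalizing a with
  | zero => omega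
  | succ n ih =>
    cases a with
    | zero =>
      exact dp1_cast ((((DP.B_right true n Nat.one_pos).up 1).mul DP.m1).mul
        (DP.farR Nat.one_pos _)) (by omega) rfl
    | succ a =>
      have ha : a < n := by omega
      exact dp1_cast (((DP.farL ((B_ty true n 1).up 1) a).mul (dp1_cast
        (DP.farL (Ty.G m 0 (p := 2) (q := 1) le_rfl rfl) (n + a)) (by omega) rfl)).mul
        ((ih ha).up 1)) (by omega) (by omega)

end Pool.Agent.GH
end

-- merged part: Pool.Agent.Work.MP_c00b06_gt.Coe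
section
/-! Equality up to actions on one handle. -/

namespace Pool.Agent.GH
open Gn

variable {X : Wd → Wd → Prop}

variable {a : ℕ} {f g : Cob X}

theorem coeq_of_eq (h : f = g) : CoEq a f g :=
  h ▸ .refl f

theorem coe_map {b : ℕ} (Φ : Cob X → Cob X)
    (hΦ : ∀ g, DP g 1 a → CoEq b (Φ (Co * g)) (Φ (G e 0 * g))) (h : CoEq a f g) :
    CoEq b (Φ f) (Φ g) := by
  induction h with
  | base g hg => exact hΦ g hg
  | refl f => exact .refl _
  | symm _ ih => exact ih.symm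
  | trans _ _ ih ih' => exact ih.trans ih'

theorem coe_sim {k : ℕ} (Φ : Cob X → Cob X)
    (hΦ : ∀ g, DP g 1 a → Sim k (Φ (Co * g)) (Φ (G e 0 * g))) (h : CoEq a f g) :
    Sim k (Φ f) (Φ g) := by
  induction h with
  | base g hg => exact hΦ g hg
  | refl f => exact .refl _ _
  | symm _ ih => exact ih.symm
  | trans _ _ ih ih' => exact ih.trans ih'

theorem coe_pre {k k' : Cob X} {o : ℕ} (h1 : Co * k' = k * up o Co) (h2 : G e 0 * k' = k * G e o)
    (h3 : DP k' 1 (o + 1)) (h : CoEq a f g) : CoEq (o + a) (k * up o f) (k * up o g) := by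
  refine coe_map (fun f => k * up o f) (fun g hg => ?_) h
  simp only [map_mul, up_G, Nat.add_zero, ← mul_assoc, ← h1, ← h2]
  rw [mul_assoc, mul_assoc]
  exact .base _ (h3.mul (hg.up o))

theorem coe_pre0 {k k' : Cob X} (h1 : Co * k' = k * Co) (h2 : G e 0 * k' = k * G e 0)
    (h3 : DP k' 1 1) (h : CoEq a f g) : CoEq a (k * f) (k * g) := by
  simpa only [up_zero, Nat.zero_add] using coe_pre (o := 0) (by rwa [up_zero]) h2 h3 h

theorem coeq_post (h : CoEq a f g) {b : ℕ} {k : Cob X} (hk : DP k a b) : CoEq b (f * k) (g * k) := by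
  refine coe_map (· * k) (fun g hg => ?_) h
  simp only [mul_assoc]
  exact .base _ (hg.mul hk)

/-- PLAN: `far` with `Co_ty`. -/
theorem coeq_pre (h : CoEq a f g) (k : Cob X) : CoEq a (up 1 k * f) (up 1 k * g) :=
  coe_pre0 (far Co_ty 0 k) (far_Gf e 0 2 (by decide) k) (DP.farR one_lt_two k) h

/-- PLAN: `G S 0 * Co = Co * G S 1` (`IS`). -/
theorem coeq_S (h : CoEq a f g) : CoEq a (G S 0 * f) (G S 0 * g) := by
  refine coe_pre0 (k' := G S 1) ?_ (far_G e S 0 1 le_rfl) (DP.S.up 1) h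
  rw [Co, mul_assoc, ← mul_assoc (G S 0), ← show _ = G S 0 * _ from far_G w S 0 2 le_rfl, mul_assoc]
  exact congrArg (fun x => G w 0 * x) ((map_mul (up 1) _ _).symm.trans
    ((congrArg (up 1) IS).trans (map_mul (up 1) _ _)))

theorem coeq_T (h : CoEq a f g) : CoEq a (G T 0 * f) (G T 0 * g) := by
  refine coe_pre0 (k' := G T 1) ?_ (far_G e T 0 1 le_rfl) (DP.T.up 1) h
  rw [Co, mul_assoc, ← mul_assoc (G T 0), ← show _ = G T 0 * _ from far_G w T 0 2 le_rfl, mul_assoc]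
  exact congrArg (fun x => G w 0 * x) ((map_mul (up 1) _ _).symm.trans
    ((congrArg (up 1) IT).trans (map_mul (up 1) _ _)))

theorem coeq_sg (s : Bool) (h : CoEq a f g) : CoEq a (sg s * f) (sg s * g) := by
  cases s
  · simpa only [sg, Bool.false_eq_true, if_false, one_mul] using h
  · exact coeq_T h

/-- PLAN: `natR`: `B s 1 o * up o Co = Co * B s 2 o`. -/
theorem coeq_travel (s : Bool) (o : ℕ) (h : CoEq a f g) :
    CoEq (o + a) (B s 1 o * up o f) (B s 1 o * up o g) :=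
  coe_pre (natR s o Co_ty) (natR s o (Ty.G e 0 (p := 1) (q := 2) (by decide) rfl))
    (DP.B_left s o one_lt_two) h

/-- PLAN: `CoQ`, `CoP`. -/
theorem coeq_PQ : CoEq 1 (G P 0 : Cob X) (G Q 0) := by
  rw [← CoP, ← CoQ, mul_assoc, mul_assoc]
  exact .symm (.base _ (((DP.cr0 true).up 1).mul (DP.farL Ad_ty 0)))

/-- PLAN: `CoQm`, `Com`. -/
theorem coeq_Qm : CoEq 0 (G m 0 : Cob X) (G Q 0 * G m 0) := by
  have h := CoEq.base (X := X) _ (((((DP.farR one_lt_two (G d 0)).mul ((DP.cr0 false).up 1)).mul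
    (DP.farL (Ty.G Q 0 (p := 2) (q := 2) le_rfl rfl) 0)).mul (DP.farL Ev_ty 0)).mul DP.m0)
  simp only [← mul_assoc] at h
  exact ((coeq_of_eq Com.symm).trans h.symm).trans (coeq_of_eq CoQm)

theorem coeq_Pm : CoEq 0 (G m 0 : Cob X) (G P 0 * G m 0) :=
  coeq_Qm.trans (coeq_post coeq_PQ DP.m1).symm

/-- PLAN: `CoS`, `CoE`. -/
theorem coeq_SS : CoEq 0 (G S 0 * G S 0 : Cob X) 1 := by
  rw [← CoS, ← CoE, mul_assoc, mul_assoc]
  exact .base _ ((DP.farL (Ty.G V 0 (p := 0) (q := 1) le_rfl rfl) 1).mul (DP.farL Ev_ty 0))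

theorem coeq_TT : CoEq 0 (G T 0 * G T 0 : Cob X) 1 := by
  have h := coeq_T (coeq_T (coeq_SS (X := X)))
  rw [← mul_assoc (G T 0) (G S 0), ax_TS, one_mul, ax_TS, mul_one] at h
  exact h.symm

theorem coeq_ST : CoEq 0 (G S 0 : Cob X) (G T 0) := by
  have h := coeq_T (coeq_SS (X := X))
  rwa [← mul_assoc, ax_TS, one_mul, mul_one] at h

theorem coeq_sg_sg (s t : Bool) : CoEq 0 (sg s * sg t : Cob X) (sg (xor s t)) := by
  cases s <;> cases t
  · exact coeq_of_eq (one_mul _)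
  · exact coeq_of_eq (one_mul _)
  · exact coeq_of_eq (mul_one _)
  · exact coeq_TT

theorem coeq_B (a : ℕ) : CoEq a (B true 1 a : Cob X) (B false 1 a) := by
  induction a with
  | zero => exact coeq_of_eq ((B_zero_right _ _).trans (B_zero_right _ _).symm)
  | succ a ih =>
    rw [B_one_succ, B_one_succ]
    exact (coeq_post ih ((DP.cr0 true).up a)).trans (coeq_travel false a coeq_PQ)

/-- PLAN: `cor_self`. -/
theorem coeq_direct (h : CoEq a f g) {k : ℕ} {Ψ : Cob X} (hΨ : Dp k a Ψ) (F : Cob X) :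
    Sim (k + 1) (F * f * Ψ) (F * g * Ψ) := by
  refine coe_sim (fun f => F * f * Ψ) (fun g hg => ?_) h
  simpa only [up_zero, mul_assoc] using cor_self (i := 0) (hg.dp hΨ) F

/-- Actions on the second leg of a clasp whose first leg is deep.  PLAN: `TRF`, `cor_self`. -/
theorem coeq_partner (h : CoEq a f g) (s : Bool) {k : ℕ} {Ψ : Cob X} (hΨ : Dp k 0 Ψ)
    (F : Cob X) : Sim (k + 1) (F * cw s * up 1 f * Ψ) (F * cw s * up 1 g * Ψ) := by
  refine coe_sim (fun f => F * cw s * up 1 f * Ψ) (fun g _ => ?_) h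
  have h1 : ∀ x : Cob X, cw s * up 1 x = G w 0 * up 1 x * sg (!s) := fun x => by
    rw [cw, mul_assoc, mul_assoc]
    exact congrArg _ (far (NL.sg _).ty 0 x)
  have h2 : (G w 0 * up 1 Co : Cob X) = G w 0 * Co * G T 0 * G Q 0 := by
    rw [Co, map_mul, up_up, ← mul_assoc, ← mul_assoc]
    exact TRF
  have h3 : (G e 0 * G T 0 * G Q 0 : Cob X) = up 1 (G e 0) := by
    have := natR (X := X) false 1 (Ty.G e 0 (p := 0) (q := 1) le_rfl rfl)
    rw [B_one_one, B_zero_left, one_mul] at this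
    exact (congrArg (· * _) eT).trans this
  have h4 := cor_self (i := 0) (((((DP.farL (Ty.G T 0 (p := 1) (q := 1) le_rfl rfl) 0).mul
    (DP.cr1 false)).mul (DP.sg (!s))).mul (DP.farR one_pos g)).dp hΨ) (F * G w 0)
  rw [map_mul, map_mul, ← mul_assoc, ← mul_assoc, mul_assoc F (cw s), mul_assoc F (cw s), h1, h1,
    h2, mul_assoc (G w 0) (up 1 _), ← h3]
  simpa only [up_zero, mul_assoc, cr_false] using h4

variable {M : ℕ → Prop}

theorem Rel2.refl (M : ℕ → Prop) (f : Cob X) : Rel2 M f f :=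
  fun _ _ _ _ => .refl _ _

theorem Rel2.of_eq (h : f = g) : Rel2 M f g :=
  h ▸ .refl M f

theorem Rel2.symm (h : Rel2 M f g) : Rel2 M g f :=
  fun F k Ψ hΨ => (h F k Ψ hΨ).symm

theorem Rel2.trans {k : Cob X} (h : Rel2 M f g) (h' : Rel2 M g k) : Rel2 M f k :=
  fun F j Ψ hΨ => (h F j Ψ hΨ).trans (h' F j Ψ hΨ)

theorem Rel2.left (k : Cob X) (h : Rel2 M f g) : Rel2 M (k * f) (k * g) :=
  fun F j Ψ hΨ => by simpa only [mul_assoc] using h (F * k) j Ψ hΨ

theorem Rel2.right (h : Rel2 M f g) {M' : ℕ → Prop} {k : Cob X}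
    (hk : ∀ a, M a → ∃ b, M' b ∧ DP k a b) : Rel2 M' (f * k) (g * k) :=
  fun F j Ψ hΨ => by
    simpa only [mul_assoc] using
      h F j (k * Ψ) fun a ha => (hk a ha).elim fun b hb => hb.2.dp (hΨ b hb.1)

theorem Rel2.right' (h : Rel2 M f g) {k : Cob X} (hk : ∀ a, M a → DP k a a) :
    Rel2 M (f * k) (g * k) :=
  h.right fun a ha => ⟨a, ha, hk a ha⟩

theorem Rel2.mono (h : Rel2 M f g) {M' : ℕ → Prop} (hM : ∀ a, M a → M' a) : Rel2 M' f g :=
  fun F j Ψ hΨ => h F j Ψ fun a ha => hΨ a (hM a ha)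

theorem Rel2.sim (h : Rel2 M f g) : Sim 1 f g := by
  simpa only [one_mul, mul_one, Nat.zero_add] using h 1 0 1 fun a _ => dp_zero a 1

theorem Rel2.of_coeq (h : CoEq a f g) (ha : M a) : Rel2 M f g :=
  fun F _ _ hΨ => coeq_direct h (hΨ a ha) F

end Pool.Agent.GH
end

-- merged part: Pool.Agent.Work.MP_c00b06_gt.Lk2
section
/-! Linking matrices of items and slides. -/

namespace Pool.Agent.GH
open Gn

variable {X : Wd → Wd → Prop}

variable [Snd X]

theorem R_Ma {Γ : Type} [CommGroup Γ] (a : ℕ) (x : Γ × Γ) (t c : ℕ → Γ × Γ) :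
    R Γ (Ma a : Cob X) (cs x t) c ↔
      x.1 = (t a).1 ∧ c = Function.update t a ((t a).1, x.2 * (t a).2) := by
  have h0 : bp 1 a (cs x t) a = x := by simp [bp]
  have h1 : ∀ k, bp 1 a (cs x t) (a + 1 + k) = t (a + k) := fun k => by
    rw [bp, if_neg (by omega), if_neg (by omega), show a + 1 + k = a + k + 1 by omega, cs_succ]
  have h2 : ∀ k < a, bp 1 a (cs x t) k = t k := fun k hk => by
    rw [bp, if_pos hk, Nat.add_comm 1 k, cs_succ]
  have h3 : ∀ k, bp 1 a (cs x t) (a + 2 + k) = t (a + 1 + k) := fun k => by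
    rw [show a + 2 + k = a + 1 + (1 + k) by omega, h1, Nat.add_assoc]
  have h4 : bp 1 a (cs x t) (a + 1) = t a := h1 0
  simp only [Ma, R_mul, R_B, exists_eq_left, R_G, Stp, Rel, Gn.ar, Gn.co, Nat.add_zero, h0, h3, h4]
  rw [mul_comm x.2⁻¹, inv_mul_cancel_right]
  constructor
  · rintro ⟨k1, ⟨k2, k3⟩, k4⟩
    refine ⟨k2.symm, funext fun i => ?_⟩
    rcases lt_trichotomy i a with hi | rfl | hi
    · rw [Function.update_of_ne hi.ne, k1 i hi, h2 i hi]
    · rw [Function.update_self, k3, k2]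
    · rw [Function.update_of_ne hi.ne', show i = a + 1 + (i - a - 1) by omega, k4]
  · rintro ⟨k1, rfl⟩
    refine ⟨fun k hk => ?_, ⟨k1.symm, ?_⟩, fun k => ?_⟩
    · rw [Function.update_of_ne hk.ne, h2 k hk]
    · rw [Function.update_self, k1]
    · rw [Function.update_of_ne (by omega)]

theorem lk2_sg {Γ : Type} [CommGroup Γ] (s : Bool) (x : Γ × Γ) (t c : ℕ → Γ × Γ) :
    R Γ (sg (!s) : Cob X) (cs x t) c ↔
      c = cs (x.1 ^ (if s then 1 else -1 : ℤ), x.2 ^ (if s then 1 else -1 : ℤ)) t := by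
  cases s
  · have h : bd x = 1 := by
      rw [bd, mul_right_comm x.1, mul_inv_cancel, one_mul, inv_mul_cancel]
    simp [sg, R_G, stp_T, h]
  · simp [sg, R_one, eq_comm]

theorem lk2_cw {Γ : Type} [CommGroup Γ] (s : Bool) (t c : ℕ → Γ × Γ) :
    R Γ (cw s : Cob X) t c ↔ ∃ α β : Γ, c = cs (α, β ^ (if s then -1 else 1 : ℤ))
      (cs (β, α ^ (if s then -1 else 1 : ℤ)) t) := by
  simp only [cw, R_mul, R_G, stp_w]
  constructor
  · rintro ⟨_, ⟨α, β, rfl⟩, h⟩
    rw [lk2_sg] at h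
    refine ⟨α ^ (if s then 1 else -1 : ℤ), β, ?_⟩
    cases s <;> simpa using h
  · rintro ⟨α, β, rfl⟩
    refine ⟨_, ⟨α ^ (if s then 1 else -1 : ℤ), β, rfl⟩, ?_⟩
    rw [lk2_sg]
    cases s <;> simp

theorem lk2_vw {Γ : Type} [CommGroup Γ] (s : Bool) (t c : ℕ → Γ × Γ) :
    R Γ (vw s : Cob X) t c ↔ ∃ α : Γ, c = cs (α, α ^ (if s then -1 else 1 : ℤ)) t := by
  cases s <;> simp [vw, R_G, stp_v, stp_V]

theorem lk2_up1 {Γ : Type} [CommGroup Γ] (g : Cob X) (x : Γ × Γ) (t c : ℕ → Γ × Γ) :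
    R Γ (up 1 g) (cs x t) c ↔ ∃ c', c = cs x c' ∧ R Γ g t c' := by
  obtain ⟨y, c', rfl⟩ := exists_cs c
  simp only [R_up, sem_cs1', cs_inj, Nat.lt_one_iff, forall_eq, cs_zero]
  constructor
  · exact fun h => ⟨c', ⟨h.1, rfl⟩, h.2⟩
  · rintro ⟨_, ⟨h1, rfl⟩, h2⟩
    exact ⟨h1, h2⟩

theorem lk2_prod {Γ : Type} [CommGroup Γ] (μ : ℕ → Γ) {N b : ℕ} (hb : b < N) (P : Prop)
    [Decidable P] (e : ℤ) :
    ∏ j ∈ Finset.range N, μ j ^ (if P ∧ j = b then e else 0) = if P then μ b ^ e else 1 := by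
  rw [Finset.prod_eq_single b]
  · by_cases h : P <;> simp [h]
  · intro j _ hj
    simp [hj]
  · intro h
    exact absurd (Finset.mem_range.2 hb) h

theorem lk2_op {Γ : Type} [CommGroup Γ] {N : ℕ} (i : It) (h1 : i.fst < N) (h2 : i.snd < N)
    (t c : ℕ → Γ × Γ) : R Γ (i.op : Cob X) t c ↔
      c = fun x => ((t x).1, (t x).2 * ∏ y ∈ Finset.range N, (t y).1 ^ i.lk x y) := by
  rcases i with ⟨s, a, b⟩ | ⟨s, a⟩
  · change a < N at h1
    change b < N at h2
    have e : ∀ x, ∏ y ∈ Finset.range N, (t y).1 ^ (It.c s a b).lk x y =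
        (if x = a then (t b).1 ^ (if s then -1 else 1 : ℤ) else 1) *
          (if x = b then (t a).1 ^ (if s then -1 else 1 : ℤ) else 1) := fun x => by
      simp only [It.lk, mul_add, mul_ite, mul_one, mul_zero, zpow_add, Finset.prod_mul_distrib]
      rw [lk2_prod (fun y => (t y).1) h2, lk2_prod (fun y => (t y).1) h1]
      by_cases ha : x = a <;> by_cases hb : x = b <;> cases s <;> simp [ha, hb]
    have e2 : Function.update (Function.update t b ((t b).1,
        (t a).1 ^ (if s then -1 else 1 : ℤ) * (t b).2)) a ((t a).1,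
          (t b).1 ^ (if s then -1 else 1 : ℤ) * (Function.update t b ((t b).1,
            (t a).1 ^ (if s then -1 else 1 : ℤ) * (t b).2) a).2) =
        fun x => ((t x).1, (t x).2 * ∏ y ∈ Finset.range N, (t y).1 ^ (It.c s a b).lk x y) := by
      funext x
      rw [e]
      by_cases ha : x = a <;> by_cases hb : x = b
      · subst ha; subst hb
        simp [mul_comm, mul_left_comm]
      · subst ha
        simp [hb, mul_comm]
      · subst hb
        simp [ha, mul_comm]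
      · simp [ha, hb]
    have e3 : ∀ y : Γ, (Function.update t b ((t b).1, y) a).1 = (t a).1 := fun y => by
      by_cases h : a = b
      · subst h; simp
      · rw [Function.update_of_ne h]
    simp only [It.op, R_mul, lk2_cw]
    constructor
    · rintro ⟨_, ⟨_, ⟨α, β, rfl⟩, k1⟩, k2⟩
      obtain ⟨_, rfl, k3⟩ := (lk2_up1 _ _ _ _).1 k1
      obtain ⟨k4, rfl⟩ := (R_Ma _ _ _ _).1 k3
      obtain ⟨k5, rfl⟩ := (R_Ma _ _ _ _).1 k2
      rw [e3] at k5 ⊢
      dsimp only at k4 k5 ⊢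
      rw [k4, k5, e2]
    · rintro rfl
      refine ⟨_, ⟨_, ⟨(t a).1, (t b).1, rfl⟩, (lk2_up1 _ _ _ _).2 ⟨_, rfl,
        (R_Ma _ _ _ _).2 ⟨rfl, rfl⟩⟩⟩, (R_Ma _ _ _ _).2 ⟨(e3 _).symm, ?_⟩⟩
      rw [e3, ← e2]
  · change a < N at h1
    have e2 : Function.update t a ((t a).1, (t a).1 ^ (if s then -1 else 1 : ℤ) * (t a).2) =
        fun x => ((t x).1, (t x).2 * ∏ y ∈ Finset.range N, (t y).1 ^ (It.v s a).lk x y) := by
      funext x
      simp only [It.lk]
      rw [lk2_prod (fun y => (t y).1) h1]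
      by_cases ha : x = a
      · subst ha
        simp [mul_comm]
      · simp [ha]
    simp only [It.op, R_mul, lk2_vw]
    constructor
    · rintro ⟨_, ⟨α, rfl⟩, k2⟩
      obtain ⟨k5, rfl⟩ := (R_Ma _ _ _ _).1 k2
      dsimp only at k5 ⊢
      rw [k5, e2]
    · rintro rfl
      exact ⟨_, ⟨(t a).1, rfl⟩, (R_Ma _ _ _ _).2 ⟨rfl, e2.symm⟩⟩

theorem lk2_Sl {Γ : Type} [CommGroup Γ] (s : Bool) {a j : ℕ} (haj : a ≠ j) (t c : ℕ → Γ × Γ) :
    R Γ (Sl s a j : Cob X) t c ↔ t = fun x =>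
      ((c x).1 * (if x = j then (c a).1 ^ (if s then 1 else -1 : ℤ) else 1),
        (c x).2 * (if x = a then ((c j).2 ^ (if s then 1 else -1 : ℤ))⁻¹ else 1)) := by
  have key : ∀ z, R Γ (G d j * up j (sg (!s)) * B false j 1 : Cob X) t z ↔ ∃ τ : Γ,
      z = cs (((t j).1 * τ⁻¹) ^ (if s then 1 else -1 : ℤ), (t j).2 ^ (if s then 1 else -1 : ℤ))
        (Function.update t j (τ, (t j).2)) := fun z => by
    have e1 : (G d j * up j (sg (!s)) : Cob X) = up j (G d 0 * sg (!s)) := by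
      rw [map_mul, up_G, Nat.add_zero]
    have e2 : tl j t = cs (t j) (tl (j + 1) t) := by
      funext k
      cases k with
      | zero => rfl
      | succ k => show t (j + (k + 1)) = t (j + 1 + k); congr 1; omega
    have e3 : ∀ (y : ℕ → Γ × Γ) (x x' : Γ × Γ), (∀ k < j, y k = t k) →
        tl j y = cs x (cs x' (tl (j + 1) t)) → bp j 1 y = cs x (Function.update t j x') := by
      intro y x x' k1 k2
      funext k
      cases k with
      | zero => exact congrFun k2 0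
      | succ k =>
        rw [cs_succ, bp, if_neg (by omega)]
        rcases lt_trichotomy k j with hk | rfl | hk
        · rw [if_pos (by omega), Nat.add_sub_cancel, k1 k hk, Function.update_of_ne hk.ne]
        · rw [if_neg (by omega), Function.update_self]
          exact congrFun k2 1
        · rw [if_neg (by omega), Function.update_of_ne hk.ne']
          have := congrFun k2 (k - j - 1 + 1 + 1)
          rw [cs_succ, cs_succ, tl, tl] at this
          rw [show k + 1 = j + (k - j - 1 + 1 + 1) by omega, this]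
          congr 1
          omega
    have e4 : ∀ τ : Γ, τ * (t j).2 * τ⁻¹ = (t j).2 := fun τ => by
      rw [mul_comm τ, mul_inv_cancel_right]
    rw [e1]
    simp only [R_mul, R_B, R_up, R_G, e2, stp_d, e4]
    constructor
    · rintro ⟨y, ⟨k1, _, ⟨τ, rfl⟩, k2⟩, rfl⟩
      exact ⟨τ, e3 y _ _ k1 ((lk2_sg _ _ _ _).1 k2)⟩
    · rintro ⟨τ, rfl⟩
      have k2 : ∀ w : ℕ → Γ × Γ, tl j (fun k => if k < j then t k else w (k - j)) = w :=
        fun w => funext fun k => by simp [tl]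
      exact ⟨fun k => if k < j then t k else _, ⟨fun k hk => if_pos hk, _, ⟨τ, rfl⟩,
        (lk2_sg _ _ _ _).2 (k2 _)⟩, (e3 _ _ _ (fun k hk => if_pos hk) (k2 _)).symm⟩
  have hs : ∀ y : Γ, (y ^ (if s then 1 else -1 : ℤ)) ^ (if s then 1 else -1 : ℤ) = y := fun y => by
    cases s <;> simp
  rw [Sl, R_mul]
  simp only [key]
  constructor
  · rintro ⟨_, ⟨τ, rfl⟩, k⟩
    obtain ⟨k1, rfl⟩ := (R_Ma _ _ _ _).1 k
    rw [Function.update_of_ne haj] at k1 ⊢
    dsimp only at k1 ⊢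
    funext x
    by_cases ha : x = a
    · subst ha
      cases s <;> simp [haj, haj.symm, mul_comm]
    · by_cases hj : x = j
      · subst hj
        simp only [Function.update_of_ne ha, Function.update_self, if_true, ha, if_false, mul_one]
        rw [← k1, hs, mul_comm τ, inv_mul_cancel_right]
      · simp [ha, hj]
  · rintro rfl
    refine ⟨_, ⟨(c j).1, rfl⟩, (R_Ma _ _ _ _).2 ⟨?_, ?_⟩⟩
    · simp only [Function.update_of_ne haj, if_true, haj, if_false, mul_one]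
      rw [mul_comm (c j).1, mul_inv_cancel_right, hs]
    · funext x
      by_cases ha : x = a
      · subst ha
        simp [haj, haj.symm]
      · by_cases hj : x = j
        · subst hj
          simp [ha]
        · simp [ha, hj]

variable {N : ℕ} {f : Cob X} {A : ℕ → ℕ → ℤ}

theorem lk_op (h : Lk N f A) (t : It) (h1 : t.fst < N) (h2 : t.snd < N) :
    Lk N (f * t.op) (fun x y => A x y + t.lk x y) := by
  have h0 : ∀ x y, N ≤ x → t.lk x y = 0 := fun x y hx => by
    rcases t with ⟨s, a, b⟩ | ⟨s, a⟩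
    · have k1 : x ≠ a := by simp only [It.fst] at h1; omega
      have k2 : x ≠ b := by simp only [It.snd] at h2; omega
      simp [It.lk, k1, k2]
    · have k1 : x ≠ a := by simp only [It.fst] at h1; omega
      simp [It.lk, k1]
  intro Γ _ c
  simp only [R_mul, h Γ, lk2_op t h1 h2, zpow_add, Finset.prod_mul_distrib]
  constructor
  · rintro ⟨b, ⟨k1, k2⟩, rfl⟩
    refine ⟨fun i hi => by rw [← k1 i hi], fun i hi => ?_⟩
    simp [k2 i hi, h0 i _ hi, Prod.ext_iff]
  · rintro ⟨k1, k2⟩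
    refine ⟨fun i => ((c i).1, if i < N then ∏ j ∈ Finset.range N, (c j).1 ^ A i j else 1),
      ⟨fun i hi => if_pos hi, fun i hi => ?_⟩, funext fun i => ?_⟩
    · simp [k2 i hi, hi, Prod.ext_iff]
    · by_cases hi : i < N
      · exact Prod.ext rfl (by simp only [if_pos hi]; exact k1 i hi)
      · simp [k2 i (not_lt.1 hi), hi, h0 i _ (not_lt.1 hi), Prod.ext_iff]

theorem lk_ops (h : Lk N f A) {p : ℕ} {l : List It} (hl : Val p N l) :
    Lk N (f * Ops l) (fun x y => A x y + lkl l x y) := by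
  induction l generalizing f A with
  | nil => simpa [Ops_nil, lkl] using h
  | cons t l ih =>
    have := ih (lk_op h t (hl t (by simp)).2.1 (hl t (by simp)).2.2)
      (fun t' ht => hl t' (by simp [ht]))
    rw [Ops_cons, ← mul_assoc]
    simpa only [lkl, List.map_cons, List.sum_cons, add_assoc] using this

theorem lk_Sl (h : Lk N f A) (s : Bool) {a j : ℕ} (ha : a < N) (hj : j < N) (haj : a ≠ j) :
    Lk N (f * Sl s a j) (fun x y => A x y +
      (if x = a then (if s then 1 else -1) * A j y else 0) +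
      (if y = a then (if s then 1 else -1) * A x j else 0) +
      (if x = a ∧ y = a then A j j else 0)) := by
  intro Γ _ c
  simp only [R_mul, lk2_Sl s haj, exists_eq_right, h Γ]
  generalize he : (if s then 1 else -1 : ℤ) = ε
  have hε : ε * ε = 1 := by rw [← he]; cases s <;> simp
  have p1 : ∀ x, ∏ y ∈ Finset.range N, ((c y).1 * if y = j then (c a).1 ^ ε else 1) ^ A x y =
      (∏ y ∈ Finset.range N, (c y).1 ^ A x y) * (c a).1 ^ (ε * A x j) := fun x => by
    simp only [mul_zpow, Finset.prod_mul_distrib]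
    congr 1
    rw [Finset.prod_eq_single j]
    · rw [if_pos rfl, zpow_mul]
    · intro y _ hy
      rw [if_neg hy, one_zpow]
    · intro k
      exact absurd (Finset.mem_range.2 hj) k
  have p2 : ∀ x, ∏ y ∈ Finset.range N, (c y).1 ^ (A x y + (if x = a then ε * A j y else 0) +
      (if y = a then ε * A x j else 0) + (if x = a ∧ y = a then A j j else 0)) =
      (∏ y ∈ Finset.range N, (c y).1 ^ A x y) * (c a).1 ^ (ε * A x j) * (if x = a then
        ((∏ y ∈ Finset.range N, (c y).1 ^ A j y) * (c a).1 ^ (ε * A j j)) ^ ε else 1) := fun x => by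
    have q1 := lk2_prod (fun y => (c y).1) ha True (ε * A x j)
    simp only [true_and, if_true] at q1
    simp only [zpow_add, Finset.prod_mul_distrib]
    rw [q1, lk2_prod (fun y => (c y).1) ha]
    by_cases hx : x = a
    · have q2 : ε * A j j * ε = A j j := by rw [mul_right_comm, hε, one_mul]
      simp only [hx, if_true, mul_zpow, ← zpow_mul, ← Finset.prod_zpow, q2]
      simp only [mul_comm ε]
      ac_rfl
    · simp [hx]
  simp only [p1, p2]
  have p3 : ∀ i, N ≤ i → (((c i).1 * if i = j then (c a).1 ^ ε else 1,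
      (c i).2 * if i = a then ((c j).2 ^ ε)⁻¹ else 1) = 1 ↔ c i = 1) := fun i hi => by
    rw [if_neg (by omega), if_neg (by omega), mul_one, mul_one]
  refine and_congr ?_ (forall₂_congr p3)
  constructor
  · intro k i hi
    have kj := k j hj
    rw [if_neg haj.symm, mul_one] at kj
    rw [← kj, ← k i hi]
    split_ifs <;> simp
  · intro k i hi
    have kj := k j hj
    rw [if_neg haj.symm, mul_one] at kj
    rw [k i hi, ← kj]
    split_ifs <;> simp

/-- The block of `A` on `[o, o + s)` is unimodular. -/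
def Unm (A : ℕ → ℕ → ℤ) (o s : ℕ) : Prop :=
  ∀ (Γ : Type) [CommGroup Γ] (μ : ℕ → Γ),
    (∀ i < s, ∏ j ∈ Finset.range s, μ j ^ A (o + i) (o + j) = 1) → ∀ j < s, μ j = 1

/-- PLAN: a solution `μ` gives boundary values `c` of `h` with meridians `μ` on the last `s`
handles and trivial elsewhere; after `Lm s` and `E p` the meridians are trivial, so the remaining
longitudes are trivial by `Std`; then `U_mid` gives `c = 1`. -/
theorem unm_of_std {p n s : ℕ} {h : Cob X} (hA : Lk (p + n + s) h A)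
    (hs : Std n (h * up (p + n) (Lm s) * E p)) : Unm A (p + n) s := by
  intro Γ _ μ hμ
  obtain ⟨o, ho⟩ : ∃ o, o = p + n := ⟨_, rfl⟩
  rw [← ho] at hA hs hμ
  let m : ℕ → Γ := fun i => if o ≤ i ∧ i < o + s then μ (i - o) else 1
  have m1 : ∀ i < o, m i = 1 := fun i hi => if_neg (by omega)
  have m2 : ∀ i < s, m (o + i) = μ i := fun i hi => by
    simp only [m]
    rw [if_pos (by omega), Nat.add_sub_cancel_left]
  let c : ℕ → Γ × Γ := fun i =>
    (m i, if i < o + s then ∏ j ∈ Finset.range (o + s), m j ^ A i j else 1)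
  have c1 : ∀ i, o + s ≤ i → c i = 1 := fun i hi =>
    Prod.ext (if_neg (by omega)) (if_neg (by omega))
  have hc : R Γ h 1 c := (hA Γ c).2 ⟨fun i hi => if_pos hi, c1⟩
  have c2 : ∀ i < s, (tl o c i).2 = 1 := fun i hi => by
    show (if o + i < o + s then ∏ j ∈ Finset.range (o + s), m j ^ A (o + i) j else 1) = 1
    rw [if_pos (by omega), Finset.prod_range_add, Finset.prod_eq_one fun j hj => by
      rw [m1 j (Finset.mem_range.1 hj), one_zpow], one_mul, ← hμ i hi]
    exact Finset.prod_congr rfl fun j hj => by rw [m2 j (Finset.mem_range.1 hj)]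
  let c' : ℕ → Γ × Γ := fun k => if k < o then c k else 1
  have c3 : ∀ k < o, (c' k).1 = 1 := fun k hk => by
    simp only [c']
    rw [if_pos hk]
    exact m1 k hk
  have h1 : R Γ (up o (Lm s) : Cob X) c c' := by
    refine (R_up _ _ _ _).2 ⟨fun k hk => if_pos hk, (R_Lm _ _ _).2 ⟨c2, funext fun k => ?_⟩⟩
    show (if o + k < o then c (o + k) else 1) = c (o + (s + k))
    rw [if_neg (by omega), c1 _ (by omega)]
  have h2 : R Γ (E p : Cob X) c' (tl p c') := (R_E _ _ _).2 ⟨fun k hk => c3 k (by omega), rfl⟩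
  have h3 : tl p c' = 1 := (hs Γ).2 _ ((R_mul _ _ _ _).2 ⟨c', (R_mul _ _ _ _).2 ⟨c, hc, h1⟩, h2⟩)
    fun i hi => c3 (p + i) (by omega)
  rw [h3] at h2
  have h4 : c = 1 := U_mid (by rw [← mul_assoc]; exact (hs Γ).1) hc
    ((R_mul _ _ _ _).2 ⟨c', h1, h2⟩)
  intro j hj
  rw [← m2 j hj]
  exact congrArg Prod.fst (congrFun h4 (o + j))

omit [Snd X] in
/-- PLAN: take for `Γ` the quotient of `Fin s → ℤ` (or `ℕ → ℤ`) by the span of the rows, and for
`μ j` the class of the basis vector `j`. -/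
theorem unm_surj {o s : ℕ} (hU : Unm A o s) (r : ℕ → ℤ) :
    ∃ z : ℕ → ℤ, ∀ j < s, r j + ∑ i ∈ Finset.range s, z i * A (o + i) (o + j) = 0 := by
  let φ : (ℕ → ℤ) →+ (ℕ → ℤ) :=
    { toFun := fun z j => if j < s then ∑ i ∈ Finset.range s, z i * A (o + i) (o + j) else 0
      map_zero' := by funext j; simp
      map_add' := fun z z' => by
        funext j
        by_cases hj : j < s <;> simp [hj, add_mul, Finset.sum_add_distrib] }
  have hφ : ∀ z j, φ z j =
      if j < s then ∑ i ∈ Finset.range s, z i * A (o + i) (o + j) else 0 := fun _ _ => rfl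
  have h1 := hU (Multiplicative ((ℕ → ℤ) ⧸ φ.range))
    (fun j => Multiplicative.ofAdd (QuotientAddGroup.mk' φ.range (Pi.single j 1))) fun i hi => by
      simp only [← ofAdd_zsmul, ← ofAdd_sum, ofAdd_eq_one, ← map_zsmul, ← map_sum]
      refine (QuotientAddGroup.eq_zero_iff _).2 ⟨Pi.single i 1, funext fun j => ?_⟩
      simp [hφ, Finset.sum_apply, Pi.single_apply, hi]
  have h2 : ∑ j ∈ Finset.range s, (-r j) • (Pi.single j 1 : ℕ → ℤ) ∈ φ.range :=
    sum_mem fun j hj => zsmul_mem ((QuotientAddGroup.eq_zero_iff _).1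
      (ofAdd_eq_one.1 (h1 j (Finset.mem_range.1 hj)))) _
  obtain ⟨z, hz⟩ := h2
  refine ⟨z, fun j hj => ?_⟩
  have h3 := congrFun hz j
  rw [hφ, if_pos hj] at h3
  rw [h3]
  simp [Finset.sum_apply, Pi.single_apply, hj]

omit [Snd X] in
theorem unm_congr {A' : ℕ → ℕ → ℤ} {o s : ℕ} (hU : Unm A o s)
    (h : ∀ i < s, ∀ j < s, A (o + i) (o + j) = A' (o + i) (o + j)) : Unm A' o s := by
  intro Γ _ μ hμ
  refine hU Γ μ fun i hi => ?_
  rw [← hμ i hi]
  exact Finset.prod_congr rfl fun j hj => by rw [h i hi j (Finset.mem_range.1 hj)]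

end Pool.Agent.GH
end

-- merged part: Pool.Agent.Work.MP_c00b06_gt.Mu1
section
/-! Stacking: the monoid of states on n handles. -/

namespace Pool.Agent.GH
open Gn

variable {X : Wd → Wd → Prop}

theorem Mu_zero : (Mu 0 : Cob X) = 1 := rfl

theorem Mu_succ (n : ℕ) : (Mu (n + 1) : Cob X) = up 1 (B true n 1) * G m 0 * up 1 (Mu n) := rfl

theorem Mu_one : (Mu 1 : Cob X) = G m 0 := by
  rw [Mu_succ, B_zero_left, Mu_zero, map_one, one_mul, mul_one]

theorem mu1_r {a b c d : Cob X} (h : a * b = c * d) (z : Cob X) : a * (b * z) = c * (d * z) := by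
  rw [← mul_assoc, h, mul_assoc]

theorem mu1_f {p q : ℕ} {f : Cob X} (hf : Ty p q f) (h : Cob X) : f * up q h = up p h * f :=
  far hf 0 h

theorem mu1_m (j : ℕ) (h z : Cob X) :
    G m 0 * (up (j + 1) h * z) = up (j + 2) h * (G m 0 * z) :=
  mu1_r (far_Gf m 0 (j + 1) (by simp [Gn.co]) h) z

theorem mu1_B (n j : ℕ) (hj : n + 2 ≤ j) (h z : Cob X) :
    up 1 (B true n 1) * (up j h * z) = up j h * (up 1 (B true n 1) * z) :=
  mu1_r (far_at (B_ty true n 1) 1 j j (by omega) (by omega) h) z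

theorem mu1_ty (n : ℕ) : Ty (n + n) n (Mu n : Cob X) := (NL.Mu n).ty

/-- PLAN: induction on `p` (the tool handles the braids; use boxes for `Mu p`, `Mu n`). -/
theorem Mu_add (p n : ℕ) :
    (Mu (p + n) : Cob X) = up p (B true n p) * Mu p * up p (Mu n) := by
  induction p with
  | zero => rw [Nat.zero_add, B_zero_right, Mu_zero, up_zero, up_zero, one_mul, one_mul]
  | succ p ih =>
    rw [Nat.add_right_comm, Mu_succ, ih, Mu_succ, B_add_left,
      show B true n (p + 1) = (B true n (1 + p) : Cob X) by rw [Nat.add_comm], B_add_right]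
    simp only [map_mul, up_up, mul_assoc, Nat.add_comm 1 p]
    rw [mu1_m, mu1_B p (p + 2) le_rfl]

theorem Mu_assoc (n : ℕ) : (Mu n * Mu n : Cob X) = up n (Mu n) * Mu n := by
  induction n with
  | zero => rw [up_zero]
  | succ n ih =>
    have h1 := congrArg (up 1) (natR true 1 (mu1_ty (X := X) n))
    have h2 := congrArg (up 1) (natL true n (Ty.G (X := X) m 0 (p := 2) (q := 1) le_rfl rfl))
    have h3 := congrArg (up 1) ih
    rw [B_add_left] at h1
    rw [B_add_right true n 1 1] at h2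
    simp only [map_mul, up_up, up_G, mul_assoc, Nat.add_comm 1 n, Nat.add_zero] at h1 h2 h3
    simp only [Mu_succ, map_mul, up_up, up_G, mul_assoc, Nat.add_zero]
    rw [mu1_r h1, ← mu1_B n (n + 1 + 1) le_rfl (Mu n), ← mu1_m n, ← h3, ← mu1_r h2]
    simp only [mul_assoc]
    rw [mu1_m n, mu1_m 0, ← mu1_m 0 (Mu n), mu1_r ax_mA, mu1_B n (n + 2) le_rfl]

theorem Et_Mu (n : ℕ) : (Et n * Mu n : Cob X) = 1 := by
  induction n with
  | zero => exact one_mul _
  | succ n ih =>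
    have h1 := congrArg (up 1) (Et_B (X := X) true n 1)
    have h2 : (G e 0 : Cob X) * up 1 (Et n) = up 0 (Et n) * G e 0 := far_Gf e 0 1 le_rfl (Et n)
    rw [map_mul, up_up] at h1
    rw [Et_succ, Mu_succ, ← up_zero (Et n), ← h2]
    simp only [mul_assoc]
    rw [← mul_assoc (up 1 (Et n)), h1, ← mu1_m 0, ← map_mul, ih, map_one, mul_one, ax_mL]

theorem upEt_Mu (n : ℕ) : (up n (Et n) * Mu n : Cob X) = 1 := by
  induction n with
  | zero => exact one_mul _
  | succ n ih =>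
    have h1 := congrArg (up 1) (upEt_B (X := X) true n 1)
    have h2 := congrArg (up 1) ih
    simp only [Et_succ, Et_zero, one_mul, map_mul, map_one, up_up, up_G, Nat.add_comm 1 n,
      Nat.add_zero] at h1 h2
    simp only [Et_succ, Mu_succ, map_mul, up_G, mul_assoc, Nat.add_zero]
    rw [← mul_assoc (G e (n + 1)), h1, ← mul_assoc (G e 1), ax_mR, one_mul, h2]

theorem pr_assoc {n : ℕ} {x y : Cob X} (hy : Ty 0 n y) (z : Cob X) :
    pr n (pr n x y) z = pr n x (pr n y z) := by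
  simp only [pr, map_mul, up_up, mul_assoc]
  rw [mu1_r (mu1_f (mu1_ty n) z), Mu_assoc]

theorem Et_pr (n : ℕ) (x : Cob X) : pr n (Et n) x = x := by
  rw [pr, mu1_f (Et_ty n), up_zero, mul_assoc, Et_Mu, mul_one]

theorem pr_Et (n : ℕ) (x : Cob X) : pr n x (Et n) = x := by
  rw [pr, mul_assoc, upEt_Mu, mul_one]

theorem mu1_l (p n : ℕ) (x z : Cob X) :
    pr (p + n) (x * Et p) z = x * (up n z * (B true n p * up p (Mu n))) := by
  simp only [pr, Mu_add, mul_assoc]
  rw [mu1_r (far (Et_ty p) n z), mu1_r (mu1_f (Et_ty p) _),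
    ← mul_assoc (Et p), Et_Mu, one_mul, up_zero, Nat.zero_add]

theorem mu1_rr (p n : ℕ) (x z : Cob X) :
    pr (p + n) z (x * Et p) = z * up p (up n x * Mu n) := by
  have h := congrArg (up p) (upEt_B (X := X) true n p)
  rw [map_mul, up_up] at h
  simp only [pr, Mu_add, mul_assoc, map_mul, up_up]
  rw [← mul_assoc (up (p + n) (Et p)), h, ← mul_assoc (up p (Et p)), upEt_Mu, one_mul]

/-- The left factor is trivial on the first `p` handles. -/
theorem eta_l {p q n : ℕ} {f : Cob X} (hf : Ty p q f) (x z : Cob X) :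
    pr (p + n) (x * Et p) z * f = pr (q + n) (x * Et q) (z * f) := by
  simp only [mu1_l, mul_assoc, map_mul]
  rw [← mu1_f hf, mu1_r (natL true n hf)]

/-- The right factor is trivial on the first `p` handles. -/
theorem eta_r {p q n : ℕ} {f : Cob X} (hf : Ty p q f) (z x : Cob X) :
    pr (p + n) z (x * Et p) * f = pr (q + n) (z * f) (x * Et q) := by
  rw [mu1_rr, mu1_rr, mul_assoc, mul_assoc, mu1_f hf]

theorem Hm.pr {N N' : ℕ} {f : Cob X} (h : Hm N N' f) (x y : Cob X) :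
    GH.pr N x y * f = GH.pr N' (x * f) (y * f) := by
  simp only [GH.pr, mul_assoc, map_mul, h.2.1]
  rw [mu1_r (mu1_f h.1 y)]

theorem hm_one (N : ℕ) : Hm N N (1 : Cob X) := by
  exact ⟨Ty.one N, by rw [map_one, one_mul, one_mul, mul_one], mul_one _⟩

theorem hm_mul {N N' N'' : ℕ} {f g : Cob X} (hf : Hm N N' f) (hg : Hm N' N'' g) :
    Hm N N'' (f * g) := by
  refine ⟨hf.1.mul hg.1, ?_, by rw [← mul_assoc, hf.2.2, hg.2.2]⟩
  rw [← mul_assoc, hf.2.1, mul_assoc, hg.2.1]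
  simp only [mul_assoc, map_mul]
  rw [mu1_r (mu1_f hg.1 f)]

theorem mu1_up {N N' : ℕ} {f : Cob X} (h : Hm N N' f) (o : ℕ) :
    Hm (o + N) (o + N') (up o f) := by
  refine ⟨h.1.up o, ?_, by rw [Et_add', Et_add', mul_assoc, ← map_mul, h.2.2]⟩
  have h1 := congrArg (up o) (natR true o h.1)
  have h2 := congrArg (up o) (mu1_f (B_ty (X := X) true N' o) f)
  simp only [map_mul, up_up] at h1 h2
  rw [Mu_add, Mu_add, mul_assoc, ← map_mul, h.2.1]
  simp only [mul_assoc, map_mul, up_up]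
  rw [mu1_r (mu1_f (mu1_ty o) f), ← mu1_r h1,
    mu1_r (far (mu1_ty o) N' f), Nat.add_assoc o o, mu1_r h2, Nat.add_assoc]

theorem mu1_pad {N N' : ℕ} {f : Cob X} (h : Hm N N' f) (n : ℕ) : Hm (N + n) (N' + n) f := by
  refine ⟨h.1.pad n, ?_, by rw [Et_add, Et_add, mul_assoc, h.2.2]⟩
  have h1 := congrArg (up N') (natL true n h.1)
  simp only [map_mul, up_up] at h1
  rw [Mu_add, Mu_add, mul_assoc, ← mu1_f h.1, mul_assoc,
    ← mul_assoc (Mu N), h.2.1]
  simp only [mul_assoc]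
  rw [← mu1_r (mu1_f h.1 _), mu1_r h1]

theorem mu1_cast {N N' M M' : ℕ} {f : Cob X} (h : Hm N N' f) (e1 : N = M) (e2 : N' = M') :
    Hm M M' f := e1 ▸ e2 ▸ h

/-- PLAN: `Mu_add` twice around position `i`, `ax_mu`. -/
theorem hm_u {N i : ℕ} (h : i ≤ N) : Hm (N + 1) N (G u i : Cob X) := by
  have h0 : Hm 1 0 (G u 0 : Cob X) :=
    ⟨Ty.G u 0 le_rfl rfl, by rw [Mu_one, Mu_zero, up_zero, mul_one, ax_mu],
      by rw [Et_succ, Et_zero, one_mul, ax_eu]⟩
  exact mu1_cast (mu1_pad (mu1_up h0 i) (N - i)) (by omega) (by omega)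

theorem hm_e {N i : ℕ} (h : i ≤ N) : Hm N (N + 1) (G e i : Cob X) := by
  have h0 : Hm 0 1 (G e 0 : Cob X) :=
    ⟨Ty.G e 0 le_rfl rfl, by rw [Mu_one, Mu_zero, up_G, mul_assoc, ax_mR, one_mul, mul_one], rfl⟩
  exact mu1_cast (mu1_pad (mu1_up h0 i) (N - i)) (by omega) (by omega)

theorem mu1_E (p : ℕ) : Hm p 0 (E p : Cob X) := by
  induction p with
  | zero => exact hm_one 0
  | succ p ih => exact hm_mul (hm_u (Nat.zero_le p)) ih

theorem mu1_Et (p : ℕ) : Hm 0 p (Et p : Cob X) := by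
  induction p with
  | zero => exact hm_one 0
  | succ p ih => exact hm_mul ih (hm_e (Nat.zero_le p))

theorem hm_E (o p n : ℕ) : Hm (o + p + n) (o + n) (up o (E p) : Cob X) := by
  exact mu1_pad (mu1_up (mu1_E p) o) n

theorem hm_Et (o p n : ℕ) : Hm (o + n) (o + p + n) (up o (Et p) : Cob X) := by
  exact mu1_pad (mu1_up (mu1_Et p) o) n

theorem hm_E0 (p n : ℕ) : Hm (p + n) n (E p : Cob X) := by
  exact mu1_cast (mu1_pad (mu1_E p) n) rfl (Nat.zero_add n)

theorem hm_Et0 (p n : ℕ) : Hm n (p + n) (Et p : Cob X) := by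
  exact mu1_cast (mu1_pad (mu1_Et p) n) (Nat.zero_add n) rfl

/-- States on `n` handles. -/
def St (X : Wd → Wd → Prop) (n : ℕ) : Type := {x : Cob X // Ty 0 n x}

instance stMonoid (n : ℕ) : Monoid (St X n) where
  mul x y := ⟨pr n x.1 y.1, pr_ty x.2 y.2⟩
  one := ⟨Et n, Et_ty n⟩
  mul_assoc x y z := Subtype.ext (pr_assoc y.2 z.1)
  one_mul x := Subtype.ext (Et_pr n x.1)
  mul_one x := Subtype.ext (pr_Et n x.1)

theorem St.mul_val {n : ℕ} (x y : St X n) : (x * y).1 = pr n x.1 y.1 := rfl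

theorem St.one_val {n : ℕ} : (1 : St X n).1 = Et n := rfl

/-- The monoid map given by a multiplicative morphism. -/
def Hm.hom {N N' : ℕ} {f : Cob X} (h : Hm N N' f) : St X N →* St X N' where
  toFun x := ⟨x.1 * f, x.2.mul h.1⟩
  map_one' := Subtype.ext h.2.2
  map_mul' x y := Subtype.ext (h.pr x.1 y.1)

/-- The group of invertible states. -/
abbrev Gp (X : Wd → Wd → Prop) (n : ℕ) : Type := (St X n)ˣ

/-- The underlying morphism. -/
def vl {n : ℕ} (g : Gp X n) : Cob X := g.val.1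

theorem vl_ty {n : ℕ} (g : Gp X n) : Ty 0 n (vl g) := g.val.2

theorem vl_mul {n : ℕ} (g h : Gp X n) : vl (g * h) = pr n (vl g) (vl h) := rfl

theorem vl_one {n : ℕ} : vl (1 : Gp X n) = Et n := rfl

theorem vl_inj {n : ℕ} {g h : Gp X n} (e : vl g = vl h) : g = h := Units.ext (Subtype.ext e)

/-- The group map given by a multiplicative morphism. -/
def Hm.gp {N N' : ℕ} {f : Cob X} (h : Hm N N' f) : Gp X N →* Gp X N' := Units.map h.hom

theorem Hm.vl_gp {N N' : ℕ} {f : Cob X} (h : Hm N N' f) (g : Gp X N) : vl (h.gp g) = vl g * f := rfl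

/-- `f` is an invertible state. -/
def Un (n : ℕ) (f : Cob X) : Prop := ∃ g : Gp X n, vl g = f

open Classical in
/-- `f` as a group element, when it is invertible. -/
noncomputable def tu (n : ℕ) (f : Cob X) : Gp X n := if h : Un n f then h.choose else 1

theorem vl_tu {n : ℕ} {f : Cob X} (h : Un n f) : vl (tu n f) = f := by
  rw [tu, dif_pos h]
  exact h.choose_spec

theorem tu_vl {n : ℕ} (g : Gp X n) : tu n (vl g) = g := by
  exact vl_inj (vl_tu ⟨g, rfl⟩)

theorem un_of_inv {n : ℕ} {x y z : Cob X} (hx : Ty 0 n x) (hy : Ty 0 n y) (hz : Ty 0 n z)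
    (h1 : Un n (pr n x y)) (h2 : Un n (pr n z x)) : Un n x := by
  obtain ⟨g, hg⟩ := h1
  obtain ⟨h, hh⟩ := h2
  let x' : St X n := ⟨x, hx⟩
  let y' : St X n := ⟨y, hy⟩
  let z' : St X n := ⟨z, hz⟩
  have e1 : x' * y' = g := Subtype.ext hg.symm
  have e2 : z' * x' = h := Subtype.ext hh.symm
  obtain ⟨r, hr⟩ : IsUnit x' := isUnit_iff_exists_and_exists.2
    ⟨⟨y' * g⁻¹.val, by rw [← mul_assoc, e1, Units.mul_inv]⟩,
      h⁻¹.val * z', by rw [mul_assoc, e2, Units.inv_mul]⟩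
  exact ⟨r, congrArg Subtype.val hr⟩

theorem Un.hm {N N' : ℕ} {f x : Cob X} (hx : Un N x) (h : Hm N N' f) : Un N' (x * f) := by
  obtain ⟨g, rfl⟩ := hx
  exact ⟨h.gp g, rfl⟩

/-- The filtration by `Y_k`-equivalence. -/
def NN (X : Wd → Wd → Prop) (n k : ℕ) : Subgroup (Gp X n) where
  carrier := {g | k = 0 ∨ Sim k (vl g) (Et n)}
  one_mem' := Or.inr (Sim.refl _ _)
  mul_mem' := by
    rintro g h (hg | hg) hh
    · exact Or.inl hg
    · exact hh.imp_right fun hh => (hg.pr hh).trans (Sim.of_eq (Et_pr n _))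
  inv_mem' := by
    intro g hg
    refine hg.imp_right fun hg => ?_
    have h := (Sim.refl k (vl g⁻¹)).pr (n := n) hg
    rw [pr_Et, ← vl_mul, inv_mul_cancel] at h
    exact h.symm

theorem mem_NN {n k : ℕ} (hk : 1 ≤ k) (g : Gp X n) : g ∈ NN X n k ↔ Sim k (vl g) (Et n) := by
  exact or_iff_right (by omega)

theorem mem_NN' {n k : ℕ} (hk : 1 ≤ k) (g h : Gp X n) :
    g⁻¹ * h ∈ NN X n k ↔ Sim k (vl g) (vl h) := by
  rw [mem_NN hk]
  constructor
  · intro H
    have h1 := (Sim.refl k (vl g)).pr (n := n) H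
    rw [pr_Et, ← vl_mul, mul_inv_cancel_left] at h1
    exact h1.symm
  · intro H
    have h1 := (Sim.refl k (vl g⁻¹)).pr (n := n) H
    rw [← vl_mul, ← vl_mul, inv_mul_cancel] at h1
    exact h1.symm

theorem NN_zero (n : ℕ) : NN X n 0 = ⊤ := by
  exact eq_top_iff.2 fun _ _ => Or.inl rfl

theorem NN_anti (n k : ℕ) : NN X n (k + 1) ≤ NN X n k := by
  exact fun g hg => Or.inr (sim_succ ((mem_NN (by omega) g).1 hg))

theorem NN_conj {n k : ℕ} {x : Gp X n} (hx : x ∈ NN X n k) (g : Gp X n) :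
    g * x * g⁻¹ ∈ NN X n k := by
  refine hx.imp_right fun hx => ?_
  have h := ((Sim.refl k (vl g)).pr (n := n) hx).pr (n := n) (Sim.refl k (vl g⁻¹))
  rwa [pr_Et, ← vl_mul, ← vl_mul, ← vl_mul, mul_inv_cancel] at h

theorem NN_nil {D : ℕ} (hD : Nil D X) (h1 : 1 ≤ D) (n : ℕ) : NN X n D = ⊥ := by
  exact eq_bot_iff.2 fun g hg => vl_inj (nil_sim hD le_rfl ((mem_NN h1 g).1 hg))

theorem Hm.mem_NN {N N' k : ℕ} {f : Cob X} (h : Hm N N' f) {g : Gp X N} (hg : g ∈ NN X N k) :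
    h.gp g ∈ NN X N' k := by
  exact hg.imp_right fun hg => (hg.right f).trans (Sim.of_eq h.2.2)

end Pool.Agent.GH
end

-- merged part: Pool.Agent.Work.MP_c00b06_gt.SPa
section
/-! Mapping classes act transitively enough on homology. -/

namespace Pool.Agent.GH
open Gn

variable {X : Wd → Wd → Prop}

abbrev ZZ : Type := Multiplicative ℤ

theorem ivt_one (n : ℕ) : Ivt n (1 : Cob X) := by
  exact ⟨Ty.one n, 1, Ty.one n, one_mul 1, one_mul 1⟩

theorem ivt_mul {n : ℕ} {f g : Cob X} (hf : Ivt n f) (hg : Ivt n g) : Ivt n (f * g) := by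
  obtain ⟨h1, f', h2, h3, h4⟩ := hf
  obtain ⟨k1, g', k2, k3, k4⟩ := hg
  exact ⟨h1.mul k1, g' * f', k2.mul h2, by rw [mul_assoc, ← mul_assoc g, k3, one_mul, h3],
    by rw [mul_assoc, ← mul_assoc f', h4, one_mul, k4]⟩

theorem ivt_at {n : ℕ} {f : Cob X} (hf : Ivt n f) (i : ℕ) {N : ℕ} (h : i + n ≤ N) :
    Ivt N (up i f) := by
  obtain ⟨h1, g, h2, h3, h4⟩ := hf
  exact ⟨h1.at i h rfl, up i g, h2.at i h rfl, by rw [← map_mul, h3, map_one],
    by rw [← map_mul, h4, map_one]⟩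

theorem spa_tw {g h : Gn} (h0 : h.ar = 0) (h1 : h.co = 1)
    (k : (G g 0 * G h 0 * G m 0 : Cob X) = G e 0) :
    (G g 0 * G m 0 * (G h 0 * G m 0) : Cob X) = 1 := by
  have := far_G (X := X) h m 0 1 (by omega)
  rw [h0, h1] at this
  rw [← mul_assoc, mul_assoc (G g 0), ← this, mul_assoc, mul_assoc, ← ax_mA, ← mul_assoc,
    ← mul_assoc, k, ax_mL]

theorem spa_ty {n : ℕ} (x : Wd) (h : Ok n x n) :
    Ty n n (mk x : Cob X) := Ty.mk h

/-- Meridian twist. -/
theorem ivt_tw (s : Bool) : Ivt 1 (vw s * G m 0 : Cob X) := by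
  cases s
  · exact ⟨spa_ty [(0, V), (0, m)] (by simp [Ok, Gn.ar, Gn.co]), _, spa_ty [(0, v), (0, m)] (by simp [Ok, Gn.ar, Gn.co]), spa_tw rfl rfl Vv,
      spa_tw rfl rfl ax_vV⟩
  · exact ⟨spa_ty [(0, v), (0, m)] (by simp [Ok, Gn.ar, Gn.co]), _, spa_ty [(0, V), (0, m)] (by simp [Ok, Gn.ar, Gn.co]), spa_tw rfl rfl ax_vV,
      spa_tw rfl rfl Vv⟩

/-- Exchange of meridian and longitude.  PLAN: `FSF` gives a left and a right inverse. -/
theorem ivt_fo : Ivt 1 (G w 1 * G m 0 * G l 0 : Cob X) := by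
  have h1 : (G w 1 * G m 0 * G l 0 * (G S 0 * (G w 1 * G m 0 * G l 0)) : Cob X) = 1 := by
    simpa only [mul_assoc] using FSF
  have h2 := (mul_assoc _ _ _).trans h1
  rw [left_inv_eq_right_inv h2 h1] at h2
  exact ⟨spa_ty [(1, w), (0, m), (0, l)] (by simp [Ok, Gn.ar, Gn.co]), _, spa_ty [(0, S), (1, w), (0, m), (0, l)] (by simp [Ok, Gn.ar, Gn.co]), h1, h2⟩

/-- PLAN: `slA`, `slB`. -/
theorem ivt_sl : Ivt 2 (G d 0 * G m 1 : Cob X) ∧ Ivt 2 (G d 0 * G S 1 * G m 1 : Cob X) := by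
  have h1 : (G d 0 * G m 1 * (G d 0 * G S 1 * G m 1) : Cob X) = 1 := by
    simpa only [mul_assoc] using slA
  have h2 : (G d 0 * G S 1 * G m 1 * (G d 0 * G m 1) : Cob X) = 1 := by
    simpa only [mul_assoc] using slB
  have t1 := spa_ty (X := X) (n := 2) [(0, d), (1, m)] (by simp [Ok, Gn.ar, Gn.co])
  have t2 := spa_ty (X := X) (n := 2) [(0, d), (1, S), (1, m)] (by simp [Ok, Gn.ar, Gn.co])
  exact ⟨⟨t1, _, t2, h1, h2⟩, t2, _, t1, h2, h1⟩

theorem ivt_P : Ivt 2 (G P 0 : Cob X) := by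
  exact ⟨spa_ty [(0, P)] (by simp [Ok, Gn.ar, Gn.co]), _, spa_ty [(0, Q)] (by simp [Ok, Gn.ar, Gn.co]), ax_PQ, ax_QP⟩

variable [Snd X] {Γ : Type} [CommGroup Γ]

theorem R_tw (s : Bool) (x : Γ × Γ) (t : ℕ → Γ × Γ) :
    R Γ (vw s * G m 0 : Cob X) (cs x t) (cs (x.1, (if s then x.1⁻¹ else x.1) * x.2) t) := by
  cases s <;> simp [vw, R_mul, R_G, stp_v, stp_V, stp_m]

theorem R_fo (x : Γ × Γ) (t : ℕ → Γ × Γ) :
    R Γ (G w 1 * G m 0 * G l 0 : Cob X) (cs x t) (cs (x.2, x.1⁻¹) t) := by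
  refine (R_mul ..).2 ⟨cs (x.1, 1) (cs (x.2, x.1⁻¹) t), (R_mul ..).2
    ⟨cs x (cs (x.1, x.2⁻¹) (cs (x.2, x.1⁻¹) t)), (R_G ..).2 ((stp_succ ..).2
      ⟨_, rfl, (stp_w ..).2 ⟨_, _, rfl⟩⟩), ?_⟩, ?_⟩ <;> simp [R_G, stp_m, stp_l]

theorem R_sl (x y : Γ × Γ) (t : ℕ → Γ × Γ) :
    R Γ (G d 0 * G m 1 : Cob X) (cs x (cs y t)) (cs (x.1 * y.1⁻¹, x.2) (cs (y.1, x.2 * y.2) t)) ∧
    R Γ (G d 0 * G S 1 * G m 1 : Cob X) (cs x (cs y t))
      (cs (x.1 * y.1, x.2) (cs (y.1, x.2⁻¹ * y.2) t)) := by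
  constructor
  · refine (R_mul ..).2 ⟨_, (R_G ..).2 ((stp_d ..).2 ⟨y.1, rfl⟩), ?_⟩
    simp [R_G, stp_succ 0, stp_m, cs_inj]
  · refine (R_mul ..).2 ⟨_, (R_mul ..).2 ⟨_, (R_G ..).2 ((stp_d ..).2 ⟨y.1⁻¹, rfl⟩),
      (R_G ..).2 ((stp_succ ..).2 ⟨_, rfl, (stp_S ..).2 rfl⟩)⟩, ?_⟩
    simp [R_G, stp_succ 0, stp_m, cs_inj, bd]

theorem R_P (x y : Γ × Γ) (t : ℕ → Γ × Γ) :
    R Γ (G P 0 : Cob X) (cs x (cs y t)) (cs y (cs x t)) := by
  simp [R_G, stp_P, cj]

theorem spa_euc {r : ℤ → ℤ → ℤ → ℤ → Prop} (h0 : ∀ a b, r a b a b)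
    (ht : ∀ {a b c d e f}, r a b c d → r c d e f → r a b e f) (h1 : ∀ a b, r a b a (b + a))
    (h2 : ∀ a b, r a b a (b - a)) (h3 : ∀ a b, ∃ c, (a = 0 → c = 0) ∧ r a b b c) (a b : ℤ) :
    ∃ g, r a b g 0 := by
  have k : ∀ a b k, r a b a (b + k * a) := fun a b k => by
    induction k using Int.induction_on with
    | zero => simpa using h0 a b
    | succ i ih => exact ht ih (by convert h1 a _ using 1; ring)
    | pred i ih => exact ht ih (by convert h2 a _ using 1; ring)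
  induction hn : a.natAbs using Nat.strong_induction_on generalizing a b with | _ n ih => ?_
  obtain rfl | ha := eq_or_ne a 0
  · obtain ⟨c, hc, h⟩ := h3 0 b
    exact ⟨b, hc rfl ▸ h⟩
  obtain ⟨c, -, h⟩ := h3 a (b % a)
  obtain ⟨g, hg⟩ := ih _ ((Int.natAbs_lt_natAbs_of_nonneg_of_lt (Int.emod_nonneg b ha)
    (Int.emod_lt_abs b ha)).trans_eq ((Int.natAbs_abs a).trans hn)) (b % a) c rfl
  refine ⟨g, ht (ht ?_ h) hg⟩
  convert k a b (-(b / a)) using 1
  rw [Int.emod_def]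
  ring

/-- An invertible morphism carries the states `A t` to the states `C t`. -/
def spa_M (X : Wd → Wd → Prop) (n : ℕ) (A C : (ℕ → ZZ × ZZ) → ℕ → ZZ × ZZ) : Prop :=
  ∃ φ : Cob X, Ivt n φ ∧ ∀ t, R ZZ φ (A t) (C t)

theorem spa_rf (n : ℕ) (A : (ℕ → ZZ × ZZ) → ℕ → ZZ × ZZ) : spa_M X n A A :=
  ⟨1, ivt_one n, fun _ => (R_one ..).2 rfl⟩

theorem spa_tr {n : ℕ} {A C D : (ℕ → ZZ × ZZ) → ℕ → ZZ × ZZ} (h : spa_M X n A C)
    (k : spa_M X n C D) : spa_M X n A D :=
  let ⟨_, h1, h2⟩ := h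
  let ⟨_, k1, k2⟩ := k
  ⟨_, ivt_mul h1 k1, fun t => (R_mul ..).2 ⟨_, h2 t, k2 t⟩⟩

theorem spa_ker {n : ℕ} {φ : Cob X} (h : Ivt n φ) {a b : ℕ → Γ × Γ} (k : R Γ φ a b)
    (hb : ∀ i < n, b i = 1) : a = b := by
  obtain ⟨-, g, h2, h3, -⟩ := h
  exact (R_one (X := X) ..).1 (h3 ▸ (R_mul ..).2 ⟨b, k, R_loc h2 (R_triv g) hb hb rfl⟩)

/-- Euclid on one handle. -/
theorem vl_one_handle (x : ZZ × ZZ) : ∃ (φ : Cob X) (g : ZZ), Ivt 1 φ ∧ (x ≠ 1 → g ≠ 1) ∧
    ∀ t, R ZZ φ (cs x t) (cs (g, 1) t) := by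
  obtain ⟨g, φ, h1, h2⟩ := spa_euc (r := fun a b c d => spa_M X 1 (cs (.ofAdd a, .ofAdd b))
    (cs (.ofAdd c, .ofAdd d))) (fun _ _ => spa_rf ..) spa_tr
    (fun a b => ⟨_, ivt_tw false, fun t => add_comm a b ▸ R_tw false _ t⟩)
    (fun a b => ⟨_, ivt_tw true, fun t => neg_add_eq_sub a b ▸ R_tw true _ t⟩)
    (fun a b => ⟨-a, neg_eq_zero.2, _, ivt_fo, R_fo _⟩) x.1.toAdd x.2.toAdd
  exact ⟨φ, .ofAdd g, h1, fun hx k => hx ((congrFun (spa_ker h1 (h2 1) (sem_one (Prod.ext k rfl)))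
    0).trans (Prod.ext k rfl)), h2⟩

/-- Euclid on two meridians. -/
theorem vl_two_handles (x y : ZZ) : ∃ (φ : Cob X) (g : ZZ), Ivt 2 φ ∧ (x ≠ 1 ∨ y ≠ 1 → g ≠ 1) ∧
    ∀ t, R ZZ φ (cs (x, 1) (cs (y, 1) t)) (cs (g, 1) (cs 1 t)) := by
  obtain ⟨g, h⟩ := spa_euc (r := fun a b c d => spa_M X 2
    (fun t => cs (.ofAdd b, 1) (cs (.ofAdd a, 1) t)) fun t => cs (.ofAdd d, 1) (cs (.ofAdd c, 1) t))
    (fun _ _ => spa_rf ..) spa_tr (fun a b => ⟨_, ivt_sl.2, fun t => (R_sl _ _ t).2⟩)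
    (fun a b => ⟨_, ivt_sl.1, fun t => sub_eq_add_neg b a ▸ (R_sl _ _ t).1⟩)
    (fun a b => ⟨a, id, _, ivt_P, R_P _ _⟩) y.toAdd x.toAdd
  obtain ⟨φ, h1, h2⟩ := spa_tr h ⟨_, ivt_P, R_P _ _⟩
  refine ⟨φ, .ofAdd g, h1, fun hx k => ?_, h2⟩
  have := spa_ker h1 (h2 1) (sem_two (Prod.ext k rfl) rfl)
  exact hx.elim (fun l => l ((congrArg (fun z => (z 0).1) this).trans k))
    fun l => l (congrArg (fun z => (z 1).1) this)

/-- PLAN: induction on `n` for the statement without the hypothesis (`g = 1` allowed when all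
`z i = 1`): treat the handles `1, ..., n` by induction (`ivt_at`, `R_up`), handle `0` by
`vl_one_handle`, then `vl_two_handles`. -/
theorem vl_vec (n : ℕ) (z : ℕ → ZZ × ZZ) (hz : ∃ i < n, z i ≠ 1) :
    ∃ (φ : Cob X) (z' : ℕ → ZZ × ZZ), Ivt n φ ∧ R ZZ φ z z' ∧ (z' 0).1 ≠ 1 ∧ (z' 0).2 = 1 ∧
      ∀ i, 0 < i → i < n → z' i = 1 := by
  have key : ∀ (n : ℕ) (z : ℕ → ZZ × ZZ), ∃ (φ : Cob X) (g : ZZ) (t : ℕ → ZZ × ZZ),
      Ivt (n + 1) φ ∧ R ZZ φ z (cs (g, 1) t) ∧ ∀ i < n, t i = 1 := fun n => by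
    induction n with
    | zero =>
      intro z
      obtain ⟨x, t, rfl⟩ := exists_cs z
      obtain ⟨φ, g, h1, -, h2⟩ := vl_one_handle (X := X) x
      exact ⟨φ, g, t, h1, h2 t, fun _ h => absurd h (Nat.not_lt_zero _)⟩
    | succ n ih =>
      intro z
      obtain ⟨x, t, rfl⟩ := exists_cs z
      obtain ⟨φ, g, h1, -, h2⟩ := vl_one_handle (X := X) x
      obtain ⟨ψ, y, s, h3, h4, h5⟩ := ih t
      obtain ⟨χ, g', h6, -, h7⟩ := vl_two_handles (X := X) g y
      refine ⟨φ * up 1 ψ * χ, g', cs 1 s, ivt_mul (ivt_mul (up_zero φ ▸ ivt_at h1 0 (by omega))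
        (ivt_at h3 1 (by omega))) (up_zero χ ▸ ivt_at h6 0 (by omega)), (R_mul ..).2
          ⟨cs (g, 1) (cs (y, 1) s), (R_mul ..).2 ⟨_, h2 t, (R_up ..).2 ⟨sem_one rfl, ?_⟩⟩, h7 s⟩, ?_⟩
      · rwa [sem_cs1', sem_cs1']
      · rintro (_ | i) hi
        exacts [rfl, h5 i (by omega)]
  obtain ⟨i, hi, hz⟩ := hz
  obtain ⟨n, rfl⟩ : ∃ k, n = k + 1 := ⟨n - 1, by omega⟩
  obtain ⟨φ, g, t, h1, h2, h3⟩ := key n z
  refine ⟨φ, _, h1, h2, fun k => hz ?_, rfl, ?_⟩
  · have : ∀ i < n + 1, cs (g, (1 : ZZ)) t i = 1 := by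
      rintro (_ | i) hi
      exacts [Prod.ext k rfl, h3 i (by omega)]
    rw [spa_ker h1 h2 this, this i hi]
  · rintro (_ | i) h hi
    exacts [absurd h (lt_irrefl 0), h3 i (by omega)]

end Pool.Agent.GH
end

-- merged part: Pool.Agent.Work.MP_c00b06_gt.SPb
section
/-! A homology cylinder becomes a homology handlebody with standard meridians. -/

namespace Pool.Agent.GH
open Gn

variable {X : Wd → Wd → Prop}

/-- The intersection form. -/
def om (n : ℕ) (z z' : ℕ → ZZ × ZZ) : ℤ :=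
  ∑ i ∈ Finset.range n, (Multiplicative.toAdd (z i).1 * Multiplicative.toAdd (z' i).2 -
    Multiplicative.toAdd (z i).2 * Multiplicative.toAdd (z' i).1)

/-- All solutions in commutative groups are combinations of integral solutions. -/
def Gnz (x : Cob X) : Prop :=
  ∀ (Γ : Type) [CommGroup Γ] (c : ℕ → Γ × Γ), R Γ x 1 c →
    c ∈ Subgroup.closure {c' : ℕ → Γ × Γ | ∃ (γ : Γ) (z : ℕ → ZZ × ZZ), R ZZ x 1 z ∧
      c' = mp (zpowersHom Γ γ) z}

theorem spb_add (i n : ℕ) (z z' : ℕ → ZZ × ZZ) :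
    om (i + n) z z' = om i z z' + om n (tl i z) (tl i z') := Finset.sum_range_add _ _ _

theorem spb_rel (g : Gn) {a c a' c' : ℕ → ZZ × ZZ} (h : Rel g a c) (h' : Rel g a' c') :
    om g.co c c' = om g.ar a a' := by
  revert h h'
  cases g <;> simp only [Rel, cj, bd, Prod.ext_iff] <;> intro h h' <;>
    simp only [om, Gn.ar, Gn.co, Finset.sum_range_succ, Finset.sum_range_zero, h, h', toAdd_mul,
      toAdd_inv, toAdd_one] <;> ring

theorem spb_stp {g : Gn} {i : ℕ} (r : ℕ) {a c a' c' : ℕ → ZZ × ZZ} (h : Stp (i, g) a c)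
    (h' : Stp (i, g) a' c') : om (i + g.co + r) c c' = om (i + g.ar + r) a a' := by
  rw [spb_add, spb_add, spb_add, spb_add, show tl (i + g.co) c = tl (i + g.ar) a from funext h.2.2,
    show tl (i + g.co) c' = tl (i + g.ar) a' from funext h'.2.2]
  exact congrArg (· + _) (congrArg₂ _ (Finset.sum_congr rfl fun k hk => by
    rw [h.1 k (Finset.mem_range.1 hk), h'.1 k (Finset.mem_range.1 hk)]) (spb_rel g h.2.1 h'.2.1))

variable [Snd X]

theorem iso {p q : ℕ} {f : Cob X} (hf : Ty p q f) {a c a' c' : ℕ → ZZ × ZZ} (h : R ZZ f a c)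
    (h' : R ZZ f a' c') : om q c c' = om p a a' := by
  refine Ty.ind_end (C := fun q f => ∀ c c', R ZZ f a c → R ZZ f a' c' → om q c c' = om p a a')
    (fun c c' h h' => by rw [(R_one _ _).1 h, (R_one _ _).1 h']) ?_ hf c c' h h'
  intro q f g i _ ih hi c c' h h'
  obtain ⟨b, h1, h2⟩ := (R_mul _ _ _ _).1 h
  obtain ⟨b', h1', h2'⟩ := (R_mul _ _ _ _).1 h'
  obtain ⟨r, rfl⟩ := Nat.exists_eq_add_of_le hi
  rw [← ih b b' h1 h1', show i + g.ar + r - g.ar + g.co = i + g.co + r by omega]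
  exact spb_stp r ((R_G _ _ _ _).1 h2) ((R_G _ _ _ _).1 h2')

theorem ivt_tot {Γ : Type} [CommGroup Γ] {n : ℕ} {φ : Cob X} (h : Ivt n φ) (a : ℕ → Γ × Γ) :
    ∃ c, R Γ φ a c := by
  obtain ⟨-, ψ, -, h, -⟩ := h
  exact ((R_mul φ ψ a a).1 (h ▸ (R_one a a).2 rfl)).imp fun _ => And.left

theorem ivt_fun {Γ : Type} [CommGroup Γ] {n : ℕ} {φ : Cob X} (h : Ivt n φ) {a c c' : ℕ → Γ × Γ}
    (h1 : R Γ φ a c) (h2 : R Γ φ a c') : c = c' := by
  obtain ⟨-, ψ, -, h, h'⟩ := h
  obtain ⟨b, h3, -⟩ := (R_mul ψ φ c c).1 (h' ▸ (R_one c c).2 rfl)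
  obtain rfl := (R_one a b).1 (h ▸ (R_mul φ ψ a b).2 ⟨c, h1, h3⟩)
  exact (R_one c c').1 (h' ▸ (R_mul ψ φ c c').2 ⟨a, h3, h2⟩)

theorem sp_lag {n : ℕ} {x : Cob X} (hx : Ty 0 n x) :
    ∃ φ : Cob X, Ivt n φ ∧ ∀ z, R ZZ (x * φ) 1 z → ∀ i < n, (z i).2 = 1 := by
  suffices H : ∀ j ≤ n, ∃ φ : Cob X, Ivt n φ ∧ ∀ z, R ZZ (x * φ) 1 z → ∀ i < j, (z i).2 = 1 from
    H n le_rfl
  intro j hj
  induction j with
  | zero => exact ⟨1, ivt_one n, fun _ _ _ h => absurd h (Nat.not_lt_zero _)⟩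
  | succ j ih =>
    obtain ⟨φ, h1, h2⟩ := ih (by omega)
    by_cases H : ∃ z, R ZZ (x * φ) 1 z ∧ ∃ i < n - j, tl j z i ≠ 1
    swap
    · refine ⟨φ, h1, fun z hz => Nat.forall_lt_succ_right.2 ⟨h2 z hz, ?_⟩⟩
      exact congrArg Prod.snd (not_not.1 fun e => H ⟨z, hz, 0, by omega, e⟩)
    obtain ⟨z, hz, H⟩ := H
    obtain ⟨ψ, z', k1, k2, k3, k4, k5⟩ := vl_vec (X := X) (n - j) (tl j z) H
    have k6 := ivt_mul h1 (ivt_at k1 j (by omega))
    have k7 (y) (hy : R ZZ (x * (φ * up j ψ)) 1 y) i (hi : i < j) : (y i).2 = 1 := by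
      obtain ⟨b, e, e'⟩ := (R_mul _ _ _ _).1 (mul_assoc x φ _ ▸ hy)
      rw [((R_up _ _ _ _).1 e').1 i hi, h2 b e i hi]
    refine ⟨_, k6, fun y hy => Nat.forall_lt_succ_right.2 ⟨k7 y hy, ?_⟩⟩
    have k8 : R ZZ (x * (φ * up j ψ)) 1 fun k => if k < j then z k else z' (k - j) :=
      mul_assoc x φ _ ▸ (R_mul _ _ _ _).2 ⟨z, hz, (R_up _ _ _ _).2 ⟨fun k hk => if_pos hk, by
        rwa [show tl j (fun k => if k < j then z k else z' (k - j)) = z' from
          funext fun k => by simp [tl]]⟩⟩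
    have k9 := iso (hx.mul k6.1) k8 hy
    rw [om, om, Finset.sum_range_zero, Finset.sum_eq_single_of_mem j (Finset.mem_range.2 hj)] at k9
    · simpa [k3, k4] using k9
    · intro i hi e
      rcases lt_or_gt_of_ne e with e | e
      · simp [k7 y hy i e, k7 _ k8 i e]
      · simp [e.not_gt, k5 (i - j) (by omega) (by have := Finset.mem_range.1 hi; omega)]

theorem gnz_hc {g b : ℕ} {x : Wd} (h : IsHC g b x) : Gnz (mk x : Cob X) := by
  intro Γ _ c hc
  generalize hK : Subgroup.closure (G := ℕ → Γ × Γ) _ = K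
  let t : ℕ → Γ × Γ := fun i => if i < g then c i else c (g + i)
  let F : (ℕ → Γ × Γ) → Prop := fun t => ∃ c ∈ K, R Γ (mk x : Cob X) 1 c ∧
    (∀ i < g, c (0 + i) = t i) ∧ ∀ j < b, (c (2 * g + j)).1 = (t (g + j)).1
  have h1 t t' : F t → F t' → F (t * t') := fun ⟨c, a1, a2, a3, a4⟩ ⟨c', b1, b2, b3, b4⟩ =>
    ⟨c * c', mul_mem a1 b1, mul_one (1 : ℕ → Γ × Γ) ▸ R_cmul a2 b2,
      fun i hi => congrArg₂ (· * ·) (a3 i hi) (b3 i hi),
      fun j hj => congrArg₂ (· * ·) (a4 j hj) (b4 j hj)⟩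
  have h2 γ τ : F (mp (zpowersHom Γ γ) τ) := by
    obtain ⟨⟨z, r⟩, ⟨a1, a2⟩, -⟩ := h.2 ZZ 0 (.inl rfl) τ
    have hz : R ZZ (mk x : Cob X) 1 z := (R_mk _ _ _).2 ⟨r⟩
    refine ⟨mp (zpowersHom Γ γ) z, hK.le (Subgroup.subset_closure ⟨γ, z, hz, rfl⟩), ?_,
      fun i hi => congrArg (Prod.map (zpowersHom Γ γ) (zpowersHom Γ γ)) (a1 i hi),
      fun j hj => congrArg (zpowersHom Γ γ) (a2 j hj)⟩
    convert R_map (zpowersHom Γ γ) hz using 1
    exact funext fun i => by simp [mp, Prod.ext_iff]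
  obtain ⟨t', ⟨c', a1, a2, a3, a4⟩, h3⟩ : ∃ t', F t' ∧ ∀ k < g + b, t' k = t k := by
    refine ⟨_, Finset.prod_induction (s := Finset.range (g + b)) (fun i =>
      mp (zpowersHom Γ (t i).1) (Pi.mulSingle i (.ofAdd 1, 1)) *
      mp (zpowersHom Γ (t i).2) (Pi.mulSingle i (1, .ofAdd 1))) F h1
      ⟨1, one_mem _, R_triv _, fun _ _ => rfl, fun _ _ => rfl⟩
      fun i _ => h1 _ _ (h2 _ _) (h2 _ _), fun k hk => ?_⟩
    rw [Finset.prod_apply, Finset.prod_eq_single_of_mem k (Finset.mem_range.2 hk)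
      fun i _ e => by simp [mp, e.symm, Prod.ext_iff]]
    simp [mp]
  obtain ⟨r⟩ := (R_mk _ _ _).1 hc
  obtain ⟨r'⟩ := (R_mk _ _ _).1 a2
  obtain rfl : c = c' := congrArg Sigma.fst ((h.2 Γ 0 (.inl rfl) t).unique (y₁ := ⟨c, r⟩)
    (y₂ := ⟨c', r'⟩) ⟨fun i hi => by simp [t, hi], fun j hj => by simp [t, two_mul, add_assoc]⟩
    ⟨fun i hi => (a3 i hi).trans (h3 i (by omega)),
      fun j hj => (a4 j hj).trans (congrArg Prod.fst (h3 _ (by omega)))⟩)
  exact a1

theorem gnz_ivt {n : ℕ} {x φ : Cob X} (hx : Gnz x) (h : Ivt n φ) : Gnz (x * φ) := by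
  intro Γ _ c hc
  obtain ⟨b, h1, h2⟩ := (R_mul _ _ _ _).1 hc
  have h3 := hx Γ b h1
  clear hc h1
  induction h3 using Subgroup.closure_induction generalizing c with
  | mem b hb =>
    obtain ⟨γ, z, hz, rfl⟩ := hb
    obtain ⟨z', hz'⟩ := ivt_tot h z
    exact Subgroup.subset_closure
      ⟨γ, z', (R_mul _ _ _ _).2 ⟨z, hz, hz'⟩, ivt_fun h h2 (R_map _ hz')⟩
  | one => exact ivt_fun h (R_triv φ) h2 ▸ one_mem _
  | mul a a' _ _ ih ih' =>
    obtain ⟨d, hd⟩ := ivt_tot h a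
    obtain ⟨d', hd'⟩ := ivt_tot h a'
    exact ivt_fun h (R_cmul hd hd') h2 ▸ mul_mem (ih d hd) (ih' d' hd')
  | inv a _ ih =>
    obtain ⟨d, hd⟩ := ivt_tot h a
    exact ivt_fun h (R_cinv hd) h2 ▸ inv_mem (ih d hd)

theorem U_hc {g b : ℕ} {x : Wd} (h : IsHC g b x) (Γ : Type) [CommGroup Γ] :
    U Γ (mk x : Cob X) := by
  exact (U_mk x).2 ⟨fun r r' => eq_of_heq (Sigma.mk.inj ((h.2 Γ 0 (.inl rfl) 1).unique
    (y₁ := ⟨1, r⟩) (y₂ := ⟨1, r'⟩) ⟨fun _ _ => rfl, fun _ _ => rfl⟩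
    ⟨fun _ _ => rfl, fun _ _ => rfl⟩)).2⟩

theorem sp {g b : ℕ} {x : Wd} (h : IsHC g b x) :
    ∃ φ : Cob X, Ivt (2 * g + b) φ ∧ Std (2 * g + b) (mk x * φ) := by
  obtain ⟨φ, h1, h2⟩ := sp_lag (X := X) (Ty.mk h.1)
  refine ⟨φ, h1, fun Γ _ => ⟨?_, fun c hc h3 => sem_tl (2 * g + b)
    (fun k hk => Prod.ext (h3 k hk) ?_) (R_tail ((Ty.mk h.1).mul h1.1) hc)⟩⟩
  · obtain ⟨-, ψ, -, e, -⟩ := h1
    exact U_left (g := ψ) (by rw [mul_assoc, e, mul_one]; exact U_hc h Γ)
  · refine Subgroup.closure_induction (p := fun c _ => (c k).2 = 1) ?_ rfl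
      (fun a a' _ _ e e' => by simp [e, e']) (fun a _ e => by simp [e])
      (gnz_ivt (gnz_hc h) h1 Γ c hc)
    rintro _ ⟨γ, z, hz, rfl⟩
    simp [mp, h2 z hz k hk]

end Pool.Agent.GH
end
end

-- merged part: Pool.Agent.Work.MP_c00b06_gt.NF0
section
-- merged part: Pool.Agent.Work.MP_c00b06_gt.RR
section
/-! Re-rooting a tree; clasping two trees. -/

namespace Pool.Agent.GH
open Gn

variable {X : Wd → Wd → Prop}

/-- The shape produced by re-rooting. -/
def rr_P (n a : ℕ) (f : Cob X) : Prop := ∃ (g : Cob X) (τ : Tr), τ.nn = n ∧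
    TG (n + 1) g ∧ f = B false a 1 * up 1 (g * Rt τ) * Ev

theorem rr_pre {n a a' : ℕ} {f h h' : Cob X} (hf : rr_P n a f) (hh : TG (n + 1) h')
    (e : h * B false a 1 = B false a' 1 * up 1 h') : rr_P n a' (h * f) := by
  obtain ⟨g, τ, h1, h2, rfl⟩ := hf
  refine ⟨h' * g, τ, h1, tg_mul hh h2, ?_⟩
  rw [← mul_assoc, ← mul_assoc, e]
  simp only [map_mul, mul_assoc]

theorem rr_wide {p q : ℕ} {g : Cob X} (hg : TG p g) (h : p ≤ q) : TG q g := by
  have := tg_at hg 0 (q := q) (by omega)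
  rwa [up_zero] at this

theorem rr_c1 (g : Gn) (h1 : g.ar = 1) (h2 : g.co = 1) (h : Cob X) :
    up 1 h * G g 0 = G g 0 * up 1 h := by
  have := far_Gf (X := X) g 0 1 (by omega) h
  rw [this, h1, h2]

theorem rr_cross (s : Bool) (σ ρ : Tr) : (Rt σ * up 1 (Rt ρ) * G (cr s) 0 : Cob X) =
    B s (σ.nn + 1) (ρ.nn + 1) * (Rt ρ * up 1 (Rt σ)) := by
  have h1 := natL (X := X) s 1 (Rt_ty ρ)
  have h2 := natR (X := X) s (ρ.nn + 1) (Rt_ty σ)
  have h3 := far (X := X) (Rt_ty ρ) 0 (Rt σ)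
  rw [B_one_one] at h1
  rw [mul_assoc, ← h1, ← mul_assoc, h2, h3, mul_assoc]

theorem rr_TT (τ : Tr) : ∃ (g : Cob X) (τ' : Tr), τ'.nn = τ.nn ∧ TG (τ.nn + 1) g ∧
    Rt τ * G T 0 * G T 0 = g * Rt τ' := by
  obtain ⟨g, τ1, h1, h2, h3⟩ := rt_T (X := X) τ
  obtain ⟨g', τ2, k1, k2, k3⟩ := rt_T (X := X) τ1
  exact ⟨g * g', τ2, k1.trans h1, tg_mul h2 (h1 ▸ k2), by rw [h3, mul_assoc, k3, mul_assoc]⟩

theorem rr_far {a j : ℕ} (h : a ≤ j) (g : Cob X) :
    up (j + 1) g * B false a 1 = B false a 1 * up 1 (up j g) := by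
  have := far (B_ty (X := X) false a 1) (j - a) g
  rw [show 1 + a + (j - a) = 1 + j by omega, show a + 1 + (j - a) = j + 1 by omega] at this
  rw [up_up, this]

theorem rr_nd (σ1 σ2 ρ : Tr) : (Rt (.nd σ1 σ2) * up 1 (Rt ρ) * Ev : Cob X) =
    Rt σ1 * up 1 (Rt σ2) * up 2 (Rt ρ) * (Y * Ev) := by
  have := far (X := X) Y_ty 0 (Rt ρ)
  rw [Rt_nd, mul_assoc _ Y, this]
  simp only [mul_assoc]

theorem rr_first {σ1 : Tr} (ih : ∀ ρ : Tr, ∀ a ≤ σ1.nn,
      rr_P (σ1.nn + ρ.nn) a (Rt σ1 * up 1 (Rt ρ) * Ev : Cob X)) (σ2 ρ : Tr) {a : ℕ}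
    (ha : a ≤ σ1.nn) :
    rr_P (σ1.nn + σ2.nn + 1 + ρ.nn) a (Rt (.nd σ1 σ2) * up 1 (Rt ρ) * Ev : Cob X) := by
  obtain ⟨g, τ, h1, h2, h3⟩ := rt_T (X := X) σ2
  have e1 : (Rt σ2 * up 1 (Rt ρ) * G T 0 * G Q 0 * Y : Cob X) =
      g * B false (τ.nn + 1) (ρ.nn + 1) * Rt (.nd ρ τ) := by
    rw [mul_assoc (Rt σ2), rr_c1 T rfl rfl, ← mul_assoc, h3, Rt_nd, mul_assoc g, mul_assoc g,
      ← cr_false, rr_cross]
    simp only [mul_assoc]
  have e2 : (Rt (.nd σ1 σ2) * up 1 (Rt ρ) * Ev : Cob X) =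
      up (σ1.nn + 1) (g * B false (τ.nn + 1) (ρ.nn + 1)) *
        (Rt σ1 * up 1 (Rt (.nd ρ τ)) * Ev) := by
    have k := far (X := X) (Rt_ty σ1) 0 (g * B false (τ.nn + 1) (ρ.nn + 1))
    rw [← mul_assoc, ← mul_assoc, ← k, mul_assoc (Rt σ1), ← map_mul, ← e1, rr_nd, CY1]
    simp only [map_mul, up_up, up_G, mul_assoc]
  have k := ih (.nd ρ τ) a ha
  rw [show σ1.nn + (Tr.nd ρ τ).nn = σ1.nn + σ2.nn + 1 + ρ.nn by simp only [Tr.nn]; omega] at k
  rw [e2]
  exact rr_pre k (tg_at (tg_mul (rr_wide h2 (by omega)) (tg_B false _ _)) _ (by omega))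
    (rr_far ha _)

theorem rr_BB (p a r : ℕ) : (B false p (a + 1 + r) * B false a 1 : Cob X) =
    B false (p + a) 1 * up 1 (B false p (a + r)) := by
  rw [natL false p ((B_ty false a 1).pad r), Nat.add_assoc 1 a r, B_add_right, B_add_left,
    mul_assoc]

theorem rr_main (σ : Tr) : ∀ ρ : Tr, ∀ a ≤ σ.nn,
    rr_P (σ.nn + ρ.nn) a (Rt σ * up 1 (Rt ρ) * Ev : Cob X) := by
  induction σ with
  | lf =>
    intro ρ a ha
    obtain rfl : a = 0 := Nat.le_zero.1 ha
    exact ⟨1, ρ, by simp [Tr.nn], tg_one _, by simp [Rt_lf, B_zero_left]⟩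
  | nd σ1 σ2 ih1 ih2 =>
    intro ρ a ha
    simp only [Tr.nn] at ha ⊢
    rcases Nat.lt_or_ge σ1.nn a with h | h
    swap
    · exact rr_first ih1 σ2 ρ h
    obtain ⟨a, rfl⟩ : ∃ a', a = σ1.nn + 1 + a' := ⟨a - (σ1.nn + 1), by omega⟩
    obtain ⟨r, hr⟩ : ∃ r, σ2.nn = a + r := ⟨σ2.nn - a, by omega⟩
    obtain ⟨g, τ, h1, h2, h3⟩ := rr_TT (X := X) σ1
    obtain ⟨g', ρ', k1, k2, k3⟩ := rt_S (X := X) ρ
    have k := rr_first ih2 τ ρ' (a := a) (by omega)
    rw [show σ2.nn + τ.nn + 1 + ρ'.nn = σ1.nn + σ2.nn + 1 + ρ.nn by omega] at k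
    have e1 : (up 2 (Rt ρ) * (G T 0 * G T 0 * G Q 0 * G S 2) : Cob X) =
        G T 0 * G T 0 * G Q 0 * up 2 g' * up 2 (Rt ρ') := by
      have t : Ty 2 2 (G T 0 * G T 0 * G Q 0 : Cob X) :=
        ((Ty.G T 0 (by decide) rfl).mul (Ty.G T 0 (by decide) rfl)).mul (Ty.G Q 0 le_rfl rfl)
      rw [← mul_assoc, ← far t 0, mul_assoc, mul_assoc _ (up 2 g'), ← map_mul, ← k3, map_mul]
      rfl
    have e2 : (Rt σ1 * up 1 (Rt σ2) * (G T 0 * G T 0 * G Q 0) : Cob X) =
        g * B false (σ1.nn + 1) (σ2.nn + 1) * (Rt σ2 * up 1 (Rt τ)) := by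
      rw [← mul_assoc, ← mul_assoc, mul_assoc (Rt σ1), rr_c1 T rfl rfl, ← mul_assoc,
        mul_assoc _ _ (G T 0), rr_c1 T rfl rfl, ← mul_assoc, h3, mul_assoc g, mul_assoc g,
        ← cr_false, rr_cross, h1, mul_assoc g]
    have t : Ty (σ2.nn + τ.nn + 1 + 1) 2 (Rt σ2 * up 1 (Rt τ) : Cob X) :=
      ((Rt_ty σ2).wide (q' := 1 + (τ.nn + 1)) (by omega) (by omega)).mul ((Rt_ty τ).up 1)
    have e3 : (Rt (.nd σ1 σ2) * up 1 (Rt ρ) * Ev : Cob X) =
        g * (B false (σ1.nn + 1) (σ2.nn + 1) * (up (σ2.nn + τ.nn + 1 + 1) g' *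
          (Rt (.nd σ2 τ) * up 1 (Rt ρ') * Ev))) := by
      calc (Rt (.nd σ1 σ2) * up 1 (Rt ρ) * Ev : Cob X) = Rt σ1 * up 1 (Rt σ2) *
            (up 2 (Rt ρ) * (G T 0 * G T 0 * G Q 0 * G S 2)) * (Y * Ev) := by
            rw [rr_nd]
            nth_rw 1 [TS01]
            simp only [mul_assoc]
        _ = Rt σ1 * up 1 (Rt σ2) * (G T 0 * G T 0 * G Q 0) * up 2 g' * up 2 (Rt ρ') *
            (Y * Ev) := by rw [e1]; simp only [mul_assoc]
        _ = _ := by
            rw [e2, mul_assoc _ _ (up 2 g'), far t 0, rr_nd]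
            simp only [mul_assoc, Nat.add_zero]
    rw [e3]
    refine rr_pre (h' := g) (rr_pre (h' := B false (σ1.nn + 1) (a + r))
      (rr_pre k (tg_at k2 _ (by omega)) (rr_far (by omega) g'))
      (rr_wide (tg_B _ _ _) (by omega)) ?_) (rr_wide h2 (by omega))
      (natR false 1 (h2.1.pad a))
    rw [hr, Nat.add_right_comm a r 1, rr_BB]

theorem rr_u : (E 1 : Cob X) = G u 0 := mul_one _

/-- Re-rooting at a leaf of `σ`.  PLAN: strong induction on `σ.nn`, generalizing `ρ a`.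
`σ = lf`: trivial.  `σ = nd σ1 σ2`, `a ≤ σ1.nn`: `CY1`, `rt_T` for `σ2`, naturality of `Q`, give
`up (σ1.nn + 1) g * (Rt σ1 * up 1 (Rt (nd ρ σ2')) * Ev)`.  Else: `TS01`, `rt_T` twice for `σ1`,
`rt_S` for `ρ`, naturality of `Q` lead to the first case for `nd σ2 σ1'`; use
`B false p (a' + 1 + r) * B false a' 1 = B false (p + a') 1 * up 1 (B false p (a' + r))`. -/
theorem rr2 (σ ρ : Tr) {a : ℕ} (ha : a ≤ σ.nn) : ∃ (g : Cob X) (τ : Tr), τ.nn = σ.nn + ρ.nn ∧
    TG (σ.nn + ρ.nn + 1) g ∧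
    Rt σ * up 1 (Rt ρ) * Ev = B false a 1 * up 1 (g * Rt τ) * Ev := by
  exact rr_main σ ρ a ha

/-- PLAN: `rr2` with `ρ = lf`; for the last leaf `evQ`, `rt_T` twice. -/
theorem rr (τ : Tr) {a : ℕ} (ha : a ≤ τ.nn + 1) : ∃ (g : Cob X) (τ' : Tr), τ'.nn = τ.nn ∧
    TG (τ.nn + 1) g ∧ TT τ = B false a 1 * up 1 (g * Rt τ') * Ev := by
  rcases Nat.lt_or_ge τ.nn a with h | h
  · obtain rfl : a = τ.nn + 1 := by omega
    obtain ⟨g, τ', h1, h2, h3⟩ := rr_TT (X := X) τ
    refine ⟨g, τ', h1, h2, ?_⟩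
    have k := natR (X := X) false 1 (Rt_ty τ)
    rw [B_one_one, cr_false] at k
    rw [← h3, map_mul, map_mul, ← mul_assoc, ← mul_assoc, ← k, TT]
    nth_rw 1 [← evQ]
    simp only [up_G, mul_assoc]
  · have := rr2 (X := X) τ .lf h
    rwa [Rt_lf, map_one, mul_one] at this

/-- PLAN: `rr2` with `a = 0`, `sim_tree`, `eev1`. -/
theorem xc (σ ρ : Tr) :
    Sim (σ.nn + ρ.nn) (Rt σ * up 1 (Rt ρ) * Ev : Cob X) (E (σ.nn + 1) * E (ρ.nn + 1)) := by
  obtain ⟨g, τ, h1, h2, h3⟩ := rr2 (X := X) σ ρ (Nat.zero_le _)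
  rw [h3, B_zero_left, one_mul]
  refine (h1 ▸ (((sim_tree τ).left g).up 1).right Ev).trans (Sim.of_eq ?_)
  rw [← mul_assoc, h2.2, map_mul, up_G, mul_assoc, eev1, ← rr_u, ← E_add', ← E_add]
  congr 1
  omega

theorem xc_lit {k j : ℕ} {F Φ : Cob X} (hF : Lit k 0 F) (hΦ : Lit j 0 Φ) :
    Sim (k + j) (F * up 1 Φ * Ev) (F * G u 0 * Φ * G u 0) := by
  obtain ⟨g, σ, rfl, rfl⟩ := hF
  obtain ⟨h, ρ, rfl, rfl⟩ := hΦ
  have k1 := far (X := X) (Rt_ty σ) 0 h
  have k2 := far (X := X) (E_ty (σ.nn + 1)) 0 h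
  simp only [up_zero, Nat.add_zero] at k1 k2 ⊢
  refine (Sim.of_eq ?_).trans (((xc σ ρ).left (g * up (σ.nn + 1) h)).trans (Sim.of_eq ?_))
  · rw [map_mul, ← mul_assoc, mul_assoc g, k1]
    simp only [mul_assoc]
  · rw [← mul_assoc, mul_assoc g, ← k2, ← Rt_u, ← Rt_u]
    simp only [mul_assoc]

/-- PLAN: with `rr`, `Φ = B false a 1 * up 1 (g * Rt τ' * G d 0) * Ev`; `mev0`, `lit_d`,
`lit_farL`. -/
theorem rr_phi (τ : Tr) {a : ℕ} (ha : a ≤ τ.nn + 1) : ∃ Φ : Cob X, Lit τ.nn 0 Φ ∧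
    Φ * G u 0 = TT τ ∧ Ma a * TT τ = up 1 Φ * Ev := by
  obtain ⟨g, τ', h1, -, h3⟩ := rr (X := X) τ ha
  refine ⟨B false a 1 * up 1 (g * Rt τ' * G d 0) * Ev, ?_, ?_, ?_⟩
  · have k : Lit τ.nn 0 (g * Rt τ') := ⟨g, τ', h1, by rw [up_zero]⟩
    have := lit_farL (lit_pre (B false a 1) (lit_up 1 (lit_d k).2)) Ev_ty (j := 0) (i' := 0)
      le_rfl rfl
    rwa [up_zero] at this
  · have k := far (X := X) Ev_ty 0 (G u 0)
    rw [up_zero] at k
    rw [mul_assoc, k, h3, ← mul_assoc, mul_assoc (B false a 1), ← up_up 1 1, ← map_mul, up_G,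
      mul_assoc _ (G d 0), ax_dR, mul_one]
  · have k1 := natL (X := X) false a (Ty.G m 0 (p := 2) (q := 1) le_rfl rfl)
    have k2 : (Ma a * B false a 1 : Cob X) = up 1 (B false a 1) * G m 0 := by
      rw [up_G, Nat.add_zero, B_add_right false a 1 1] at k1
      rw [Ma, mul_assoc, ← k1, ← mul_assoc, ← mul_assoc]
      exact congrArg (· * up 1 (B false a 1) * G m 0) (B_inv true 1 a) |>.trans (by rw [one_mul])
    rw [h3, ← mul_assoc, ← mul_assoc, k2, mul_assoc _ (G m 0), far_Gf m 0 1 le_rfl, mul_assoc,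
      mul_assoc, mev0]
    simp only [map_mul, up_up, up_G, mul_assoc]
    rfl

/-- The leaves of a tree are deep.  PLAN: `G m a = B false a 1 * Ma a`, `rr_phi`, `xc_lit`. -/
theorem dp_TT (τ : Tr) {a : ℕ} (ha : a ≤ τ.nn + 1) (Ψ : Cob X) : Dp τ.nn a (TT τ * Ψ) := by
  intro k F hF
  obtain ⟨Φ, h1, h2, h3⟩ := rr_phi (X := X) τ ha
  have k1 : Lit k 0 (F * B false a 1) := by
    have := lit_B1 (i := 0) false a ((Nat.zero_add a).symm ▸ hF)
    rwa [up_zero] at this
  refine (Sim.of_eq ?_).trans (((xc_lit k1 h1).right Ψ).trans (Sim.of_eq ?_))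
  · rw [mul_assoc _ (up 1 Φ), ← h3, Ma, ← mul_assoc, ← mul_assoc, ← mul_assoc,
      mul_assoc F (B false a 1)]
    exact congrArg (fun t => F * t * G m a * TT τ * Ψ) (B_inv false a 1) ▸ by rw [mul_one]
  · have := B_E (X := X) false a 1
    rw [rr_u, up_G, Nat.add_zero] at this
    rw [mul_assoc _ Φ, h2, mul_assoc F, this, mul_assoc]

theorem Ma_swap_lt {a b : ℕ} (h : a < b) :
    (up 1 (Ma b) * Ma a : Cob X) = G Q 0 * up 1 (Ma a) * Ma b := by
  have k1 := natL (X := X) true 1 (NL.Ma h).ty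
  have k2 := far (X := X) (NL.Ma h).ty 0 (G m 0)
  rw [Nat.add_comm b 1, B_one_add, B_one_one, cr_true] at k1
  rw [Ma.eq_1 b, ← mul_assoc, mul_assoc (G Q 0), ← k1, ← mul_assoc, ← mul_assoc, ax_QP, one_mul,
    mul_assoc _ (Ma a), map_mul, mul_assoc]
  simp only [up_G, Nat.add_zero] at k2 ⊢
  rw [k2, Nat.add_comm 1 b]

theorem Ma_swap_gt {a b : ℕ} (h : b < a) :
    (up 1 (Ma b) * Ma a : Cob X) = G P 0 * up 1 (Ma a) * Ma b := by
  rw [mul_assoc, Ma_swap_lt h, ← mul_assoc, ← mul_assoc, ax_PQ, one_mul]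

theorem Ma_farL {p q : ℕ} {f : Cob X} (hf : Ty p q f) (r : ℕ) :
    Ma (p + r) * f = up 1 f * Ma (q + r) := by
  have k := far hf r (G m 0)
  simp only [up_G, Nat.add_zero] at k
  rw [Ma, Ma, mul_assoc, ← k, ← mul_assoc, natL true 1 (hf.pad r), mul_assoc]

theorem Ma_farR {a j : ℕ} (h : a < j) (f : Cob X) : Ma a * up j f = up (j + 1) f * Ma a := by
  exact far (NL.Ma h).ty 0 f

theorem Ma_add (o a : ℕ) : (Ma (o + a) : Cob X) = B true 1 o * up o (Ma a) := by
  rw [Ma, Ma, B_one_add, map_mul, up_G, mul_assoc]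

theorem e_Ma (a : ℕ) : (G e 0 * Ma a : Cob X) = 1 := by
  rw [Ma, ← mul_assoc, natR true a (Ty.G e 0 (p := 0) (q := 1) le_rfl rfl), B_zero_left, one_mul]
  exact (map_mul (up a) (G e 0) (G m 0)).symm.trans (by rw [ax_mL, map_one])

theorem Ma_mul (a : ℕ) : (G m 0 * Ma a : Cob X) = up 1 (Ma a) * Ma a := by
  have k1 := congrArg (up a) (ax_mA (X := X))
  have k2 := far (X := X) (B_one_ty true a) 0 (G m 0)
  simp only [map_mul, up_G, Nat.add_zero] at k1 k2
  rw [Ma, ← mul_assoc, natR true a (Ty.G m 0 (p := 2) (q := 1) le_rfl rfl), B_succ_left, up_G,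
    Nat.add_zero, mul_assoc, k1, map_mul, up_G, mul_assoc, ← mul_assoc (B true 1 a), k2,
    Nat.add_comm 1 a]
  simp only [mul_assoc]

/-- A clasp between a leaf of a tree and a deep handle, made just before the surgery.  PLAN:
`Ma_swap_lt`, `Ma_farL` for `TT τ`, `cw s * Q0 = w0 * S0 * S0 * sg (!s)` (`wQ wS wT`), `rr_phi`,
`w0 * up 2 Φ * up 1 Ev = Φ` (`far`, `zR`), `lit_S lit_T lit_B0`, the definition of `Dp`. -/
theorem xl_last (τ : Tr) (s : Bool) {a b j : ℕ} (ha : a ≤ τ.nn + 1) {Ψ : Cob X} (hΨ : Dp j b Ψ)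
    (F : Cob X) :
    Sim (τ.nn + j) (F * (It.c s a (τ.nn + 2 + b)).op * TT τ * Ψ) (F * TT τ * Ψ) := by
  obtain ⟨Φ, h1, h2, h3⟩ := rr_phi (X := X) τ ha
  obtain ⟨t, t1, t2, t3, t4⟩ : ∃ t : Cob X, cw s * G Q 0 = G w 0 * t ∧ Ty 1 1 t ∧
      t * G u 0 = G u 0 ∧ Lit τ.nn 0 (F * Φ * t) := by
    have tS : Ty 1 1 (G S 0 : Cob X) := Ty.G S 0 le_rfl rfl
    cases s
    · refine ⟨G S 0, ?_, tS, Su, lit_S (lit_pre F h1)⟩
      have k := natR (X := X) false 1 (Ty.G T 0 (p := 1) (q := 1) le_rfl rfl)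
      rw [B_one_one, cr_false] at k
      have k' : (G S 1 * up 1 (G T 0) : Cob X) = 1 :=
        (map_mul (up 1) (G S 0) (G T 0)).symm.trans (by rw [ax_ST, map_one])
      change G w 0 * G T 0 * G Q 0 = _
      rw [mul_assoc, k, ← mul_assoc, wQ, mul_assoc, k', mul_one, wS]
    · refine ⟨G S 0 * G S 0, ?_, tS.mul tS, by rw [mul_assoc, Su, Su],
        by rw [← mul_assoc]; exact lit_S (lit_S (lit_pre F h1))⟩
      change G w 0 * 1 * G Q 0 = _
      rw [mul_one, wQ, ← wS, mul_assoc, far_G S S 0 1 le_rfl, ← mul_assoc]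
      change G w 0 * G S 1 * _ = _
      rw [← wS, mul_assoc]
  have e1 : ((It.c s a (τ.nn + 2 + b)).op * TT τ : Cob X) = Φ * t * Ma b := by
    have k := far (X := X) (Ty.G w 0 (p := 0) (q := 2) le_rfl rfl) 0 Φ
    rw [up_zero] at k
    rw [It.op, mul_assoc (cw s), Ma_swap_lt (by omega), ← mul_assoc, ← mul_assoc, t1,
      mul_assoc _ (Ma _), Ma_farL (TT_ty τ), ← mul_assoc, mul_assoc _ (up 1 (Ma a)), ← map_mul, h3,
      mul_assoc (G w 0), far t2 0, map_mul, up_up, ← mul_assoc, ← mul_assoc, k, mul_assoc Φ, zR,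
      mul_one, Nat.zero_add]
  have k1 := lit_B0 true b t4
  rw [up_zero, Nat.zero_add] at k1
  refine (Sim.of_eq ?_).trans ((hΨ _ _ k1).trans (Sim.of_eq ?_))
  · rw [mul_assoc F, e1, Ma]
    simp only [mul_assoc]
  · have := B_upE (X := X) true 1 b
    rw [rr_u, up_G, Nat.add_zero] at this
    rw [mul_assoc _ (B true 1 b), this, mul_assoc _ t, t3, mul_assoc F, h2]

end Pool.Agent.GH
end

-- merged part: Pool.Agent.Work.MP_c00b06_gt.MF
section
/-! Pushing multiplications and items through morphisms. -/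

namespace Pool.Agent.GH
open Gn

variable {X : Wd → Wd → Prop}

theorem mf_cast {s : Bool} {f : Cob X} {a b a' b' : ℕ} (h : MF s f a b) (ha : a = a')
    (hb : b = b') : MF s f a' b' := ha ▸ hb ▸ h

theorem mf_co {a : ℕ} {f g f' g' : Cob X} (h : CoEq a f g) (hf : f' = f) (hg : g = g') :
    CoEq a f' g' := hf ▸ hg ▸ h

theorem mf_rel {M : ℕ → Prop} {f g f' g' : Cob X} (h : Rel2 M f g) (hf : f' = f) (hg : g = g') :
    Rel2 M f' g' := hf ▸ hg ▸ h

theorem mf_mk {f : Cob X} {a b : ℕ} (h : CoEq b (Ma a * f) (up 1 f * Ma b)) (h' : DP f a b) :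
    MF false f a b := ⟨by simpa [sg] using h, h'⟩

theorem mf_eq {f : Cob X} {a b : ℕ} (h : Ma a * f = up 1 f * Ma b) (h' : DP f a b) :
    MF false f a b := mf_mk (coeq_of_eq h) h'

theorem mf_sg (s : Bool) (g : Cob X) : sg s * up 1 g = up 1 g * sg s := far (NL.sg s).ty 0 g

theorem mf_M0 : (Ma 0 : Cob X) = G m 0 := by rw [Ma, B_zero_right, one_mul]

theorem mf_M1 : (Ma 1 : Cob X) = G P 0 * G m 1 := by rw [Ma, B_one_one, cr_true]

theorem mf_mty : Ty 2 1 (G m 0 : Cob X) := Ty.G m 0 le_rfl rfl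

theorem mf_cP (s : Bool) : CoEq 1 (G (cr s) 0 : Cob X) (G P 0) := by
  cases s
  exacts [coeq_PQ.symm, .refl _]

theorem mf_nat (s : Bool) {f : Cob X} (hf : Ty 1 1 f) :
    G (cr s) 0 * f * up 1 f = up 1 f * (f * G (cr s) 0) := by
  rw [← B_one_one, natL s 1 hf, natR s 1 hf, mul_assoc]

theorem mf_one (a : ℕ) : MF false (1 : Cob X) a a := by
  exact mf_eq (by simp) (DP.one a)

/-- PLAN: `coeq_post`, `coeq_pre`, `coeq_sg`, `coeq_sg_sg`; `sg s` commutes with `up 1 g`. -/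
theorem mf_mul {s t : Bool} {f g : Cob X} {a b c : ℕ} (hf : MF s f a b) (hg : MF t g b c) :
    MF (xor s t) (f * g) a c := by
  refine ⟨((mf_co (coeq_post hf.1 hg.2) (mul_assoc ..).symm ?_).trans
    (coeq_pre (coeq_sg s hg.1) f)).trans (mf_co (coeq_pre (coeq_pre
      (coeq_post (coeq_sg_sg s t) (DP.Ma0 c)) g) f) ?_ ?_), hf.2.mul hg.2⟩
  · simp only [mul_assoc]
  · simp only [← mul_assoc]
    rw [mul_assoc _ (sg s) (up 1 g), mf_sg, ← mul_assoc]
  · simp only [map_mul, mul_assoc]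

theorem mf_mul0 {f g : Cob X} {a b c : ℕ} (hf : MF false f a b) (hg : MF false g b c) :
    MF false (f * g) a c := by
  exact mf_mul hf hg

/-- PLAN: `Ma_add`, `coeq_travel`, `far`, `natR`. -/
theorem mf_up {s : Bool} {f : Cob X} {a b : ℕ} (hf : MF s f a b) (o : ℕ) :
    MF s (up o f) (o + a) (o + b) := by
  refine ⟨mf_co (coeq_travel true o hf.1) ?_ ?_, hf.2.up o⟩
  · rw [Ma_add, map_mul, mul_assoc]
  · have := far (B_ty (X := X) true 1 o) 0 f
    simp only [add_zero] at this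
    rw [Ma_add, map_mul, map_mul, up_up, up_up, ← mul_assoc, ← mul_assoc, this, mul_assoc _ (B ..),
      ← natR true o (NL.sg s).ty]
    simp only [mul_assoc]

theorem mf_farR {a o : ℕ} (h : a < o) (f : Cob X) : MF false (up o f) a a := by
  exact mf_eq (by rw [Ma_farR h, up_up, add_comm]) (DP.farR h f)

theorem mf_farL {p q : ℕ} {f : Cob X} (hf : Ty p q f) (r : ℕ) : MF false f (p + r) (q + r) := by
  exact mf_eq (Ma_farL hf r) (DP.farL hf r)

theorem mf_m0 : MF false (G m 0 : Cob X) 0 0 := by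
  exact mf_eq (by rw [mf_M0, ax_mA, up_G]) DP.m0

/-- PLAN: `P0 m1 m0 = P0 m0 m0`, `coeq_Pm`. -/
theorem mf_m1 : MF false (G m 0 : Cob X) 1 0 := by
  exact mf_mk (mf_co (coeq_post coeq_Pm.symm DP.m0) (by rw [mf_M1, mul_assoc, ← ax_mA, mul_assoc])
    (by rw [mf_M0, ax_mA, up_G])) DP.m1

/-- PLAN: `m0 c0 = c1 c0 m1`, `coeq_PQ`. -/
theorem mf_cr0 (s : Bool) : MF false (G (cr s) 0 : Cob X) 0 1 := by
  refine mf_mk (mf_co (coeq_pre (coeq_post (mf_cP s) (DP.m0.up 1)) (G (cr s) 0)) ?_ ?_) (DP.cr0 s)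
  · rw [mf_M0, ← B_one_one, natR s 1 mf_mty, B_succ_left, mul_assoc]
  · rw [mf_M1, up_G 1 0 m]

/-- PLAN: `P0 m1 c0 = P0 c0 c1 m0`; for `c = P`, `P0 P0` and `Q0 P0 = 1` by `coeq_PQ`, then
`c1 m0` on both sides. -/
theorem mf_cr1 (s : Bool) : MF false (G (cr s) 0 : Cob X) 1 0 := by
  refine mf_mk (mf_co (coeq_post (coeq_post (mf_cP (!s)).symm (DP.cr1 s))
    ((DP.farR one_pos (G (cr s) 0)).mul DP.m0)) ?_ ?_) (DP.cr1 s)
  · have := natL s 1 (mf_mty (X := X))
    rw [B_one_succ, B_one_one, up_G] at this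
    rw [mf_M1, mul_assoc, ← this, up_G]
    simp only [mul_assoc]
  · have := cr_inv (X := X) (!s) 0
    rw [Bool.not_not] at this
    rw [this, one_mul, mf_M0]

/-- PLAN: `mS`, `coeq_Pm`, `coeq_ST`. -/
theorem mf_S : MF true (G S 0 : Cob X) 0 0 := by
  refine ⟨mf_co ((coeq_pre (coeq_S coeq_Pm.symm) (G S 0)).trans
    (coeq_pre (coeq_post coeq_ST DP.m0) _)) ?_ ?_, DP.S⟩
  · rw [mf_M0, mS, ← up_G 1 0 S, ← cr_true, mf_nat true (Ty.G S 0 le_rfl rfl)]
    simp only [mul_assoc]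
  · rw [mf_M0, mul_assoc]
    rfl

/-- PLAN: `mT`, `coeq_Qm`. -/
theorem mf_T : MF true (G T 0 : Cob X) 0 0 := by
  refine ⟨mf_co (coeq_pre (coeq_T coeq_Qm.symm) (G T 0)) ?_ ?_, DP.T⟩
  · rw [mf_M0, mT, ← up_G 1 0 T, ← cr_false, mf_nat false (Ty.G T 0 le_rfl rfl)]
    simp only [mul_assoc]
  · rw [mf_M0, mul_assoc]
    rfl

theorem mf_B_left (s : Bool) {p a : ℕ} (q : ℕ) (h : a < p) :
    MF false (B s p q : Cob X) a (q + a) := by
  have k : ∀ q, MF false (B s 1 q : Cob X) 0 q := fun q => by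
    induction q with
    | zero => exact B_zero_right (X := X) s 1 ▸ mf_one 0
    | succ q ih =>
      have := mf_up (mf_cr0 (X := X) s) q
      rw [up_G] at this
      exact B_one_succ (X := X) s q ▸ mf_mul0 ih this
  obtain ⟨r, rfl⟩ : ∃ r, p = a + 1 + r := ⟨p - (a + 1), by omega⟩
  rw [B_add_left, B_add_left]
  exact mf_mul0 (mf_farR a.lt_succ_self _) (mf_mul0 (mf_up (k q) a) (mf_farL (B_ty s a q) 0))

theorem mf_B_right (s : Bool) (p : ℕ) {q a : ℕ} (h : a < q) :
    MF false (B s p q : Cob X) (p + a) a := by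
  have k : ∀ p, MF false (B s p 1 : Cob X) p 0 := fun p => by
    induction p with
    | zero => exact mf_one 0
    | succ p ih =>
      rw [B_succ_left, B_one_one]
      exact mf_mul0 (mf_cast (mf_up ih 1) (add_comm ..) rfl) (mf_cr1 s)
  obtain ⟨r, rfl⟩ : ∃ r, q = a + 1 + r := ⟨q - (a + 1), by omega⟩
  rw [B_add_right, B_add_right]
  exact mf_mul0 (mf_mul0 (mf_farL (B_ty s p a) 0) (mf_up (k p) a)) (mf_farR a.lt_succ_self _)

theorem mf_Ma (a b : ℕ) : MF false (Ma a : Cob X) (b + 1) b := by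
  rcases lt_trichotomy b a with h | rfl | h
  · rw [Ma, show (G m a : Cob X) = up a (G m 0) from (up_G a 0 m).symm]
    exact mf_mul0 (mf_cast (mf_B_right true 1 h) (add_comm ..) rfl) (mf_farR h _)
  · rw [Ma, show (G m b : Cob X) = up b (G m 0) from (up_G b 0 m).symm]
    exact mf_mul0 (mf_cast (mf_farL (B_ty true 1 b) 0) (add_comm 1 b) rfl) (mf_up mf_m1 b)
  · exact mf_cast (mf_farL (NL.Ma a.lt_succ_self).ty (b - (a + 1))) (by omega) (by omega)

theorem mf_op (t : It) (a : ℕ) : MF false (t.op : Cob X) a a := by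
  cases t with
  | c s x y =>
    exact mf_mul0 (mf_mul0 (mf_cast (mf_farL (NL.cw s).ty a) (zero_add a) (by omega))
      (mf_up (mf_Ma y a) 1)) (mf_cast (mf_Ma x a) (add_comm ..) rfl)
  | v s x =>
    exact mf_mul0 (mf_cast (mf_farL (NL.vw s).ty a) (zero_add a) (add_comm ..)) (mf_Ma x a)

theorem mf_Mu_l {n a : ℕ} (h : a < n) : MF false (Mu n : Cob X) a a := by
  induction n generalizing a with
  | zero => omega
  | succ n ih =>
    rcases a with _ | a
    · exact mf_mul0 (mf_mul0 (mf_farR one_pos _) mf_m0) (mf_farR one_pos _)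
    · have k : a < n := by omega
      exact mf_cast (mf_mul0 (mf_mul0 (mf_up (mf_B_left true 1 k) 1)
        (mf_cast (mf_farL mf_mty a) (by omega) rfl)) (mf_up (ih k) 1)) (add_comm ..) (add_comm ..)

theorem mf_Mu_r {n a : ℕ} (h : a < n) : MF false (Mu n : Cob X) (n + a) a := by
  induction n generalizing a with
  | zero => omega
  | succ n ih =>
    rcases a with _ | a
    · exact mf_cast (mf_mul0 (mf_mul0 (mf_up (mf_B_right true n one_pos) 1) mf_m1)
        (mf_farR one_pos _)) (by omega) rfl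
    · exact mf_cast (mf_mul0 (mf_mul0 (mf_up (mf_farL (B_ty true n 1) a) 1)
        (mf_cast (mf_farL mf_mty (n + a)) (by omega) rfl)) (mf_up (ih (by omega)) 1)) (by omega)
        (add_comm ..)

variable {M : ℕ → Prop}

/-- PLAN: `coeq_direct` for the first leg, `coeq_partner` for the second one, `wT`,
`cw s * up 2 f = f * cw s`, and `coeq_sg_sg` on the first leg. -/
theorem op_push_c {s t r : Bool} {f : Cob X} {a a' b b' : ℕ} (ha : MF s f a a') (hb : MF t f b b')
    (hM : M a') : Rel2 M ((It.c r a b).op * f) (f * (It.c (xor r (xor s t)) a' b').op) := by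
  intro F k Ψ h
  have h0 := h a' hM
  have e1 : cw r * up 1 (up 1 f) = f * cw r := by
    simpa [up_up, up_zero] using far (NL.cw r).ty 0 f
  have e2 : (G w 0 * up 1 (sg t) : Cob X) = G w 0 * sg t := by
    cases t
    · simp [sg]
    · exact (congrArg _ (up_G 1 0 T)).trans wT.symm
  have e3 : CoEq 0 (sg t * sg (!r) * sg s : Cob X) (sg (!(xor r (xor s t)))) :=
    mf_co ((coeq_post (coeq_sg_sg t (!r)) (DP.sg s)).trans (coeq_sg_sg _ s)) rfl
      (by cases r <;> cases s <;> cases t <;> rfl)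
  have s1 := coeq_direct ha.1 h0 (F * cw r * up 1 (Ma b))
  have s2 := coeq_partner hb.1 r (((DP.sg s).mul (DP.Ma0 a')).dp h0) F
  have s3 := coeq_direct e3 (((DP.farR one_pos (Ma b')).mul (DP.Ma0 a')).dp h0) (F * f * G w 0)
  refine (Sim.of_eq ?_).trans (s1.trans ((Sim.of_eq ?_).trans (s2.trans ((Sim.of_eq ?_).trans
    (s3.trans (Sim.of_eq ?_))))))
  · simp only [It.op, mul_assoc]
  · simp only [map_mul, mul_assoc]
  · simp only [map_mul, ← mul_assoc]
    rw [mul_assoc F, e1, mul_assoc _ (up 1 (Ma b')) (sg s), ← mf_sg, cw, ← mul_assoc f,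
      ← mul_assoc F, mul_assoc _ (sg !r), mf_sg, ← mul_assoc, ← mul_assoc, ← mul_assoc F,
      mul_assoc _ (G w 0), e2, ← mul_assoc]
  · simp only [It.op, cw, mul_assoc]

/-- PLAN: `vT`, `VT`. -/
theorem op_push_v {s r : Bool} {f : Cob X} {a a' : ℕ} (ha : MF s f a a') (hM : M a') :
    Rel2 M ((It.v r a).op * f) (f * (It.v r a').op) := by
  have e1 : vw r * up 1 f = f * vw r := by simpa [up_zero] using far (NL.vw r).ty 0 f
  have e2 : (vw r * sg s : Cob X) = vw r := by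
    cases s
    · exact mul_one _
    · cases r
      exacts [VT, vT]
  refine mf_rel ((Rel2.of_coeq ha.1 hM).left (vw r)) (mul_assoc ..) ?_
  rw [← mul_assoc, ← mul_assoc, e1, mul_assoc f, e2, mul_assoc]
  rfl

/-- Relabel the legs of an item. -/
def It.map (φ : ℕ → ℕ) (ε : ℕ → Bool) : It → It
  | .c r a b => .c (xor r (xor (ε a) (ε b))) (φ a) (φ b)
  | .v r a => .v r (φ a)

theorem It.map_fst (φ : ℕ → ℕ) (ε : ℕ → Bool) (t : It) : (t.map φ ε).fst = φ t.fst := by
  cases t <;> rfl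

theorem It.map_snd (φ : ℕ → ℕ) (ε : ℕ → Bool) (t : It) : (t.map φ ε).snd = φ t.snd := by
  cases t <;> rfl

theorem mf_push {f : Cob X} (φ : ℕ → ℕ) (ε : ℕ → Bool) (t : It)
    (h : M (φ t.fst) ∧ MF (ε t.fst) f t.fst (φ t.fst) ∧ MF (ε t.snd) f t.snd (φ t.snd)) :
    Rel2 M (t.op * f) (f * (t.map φ ε).op) := by
  cases t
  exacts [op_push_c h.2.1 h.2.2 h.1, op_push_v h.2.1 h.1]

theorem mf_id (t : It) : t.map id (fun _ => false) = t := by
  cases t <;> simp [It.map]

/-- PLAN: induction on `l`; `Rel2.left`, `Rel2.right'`, `DP.Ops`. -/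
theorem ops_push {f : Cob X} (φ : ℕ → ℕ) (ε : ℕ → Bool) (l : List It)
    (h : ∀ t ∈ l, M (φ t.fst) ∧ MF (ε t.fst) f t.fst (φ t.fst) ∧ MF (ε t.snd) f t.snd (φ t.snd)) :
    Rel2 M (Ops l * f) (f * Ops (l.map (It.map φ ε))) := by
  induction l with
  | nil => exact .of_eq (by simp [Ops_nil])
  | cons t l ih =>
    rw [List.forall_mem_cons] at h
    rw [List.map_cons, Ops_cons, Ops_cons, mul_assoc]
    exact ((ih h.2).left _).trans (mf_rel ((mf_push φ ε t h.1).right' fun a _ => DP.Ops _ a)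
      (mul_assoc ..).symm (mul_assoc ..))

/-- An item with a deep first leg commutes with every item. -/
theorem op_comm (t t' : It) (hM : M t.fst) : Rel2 M (t.op * t'.op : Cob X) (t'.op * t.op) := by
  simpa only [mf_id] using mf_push id (fun _ => false) t ⟨hM, mf_op t' _, mf_op t' _⟩

theorem up_op (o : ℕ) (t : It) :
    up o (t.op : Cob X) = (t.map (fun a => o + a) (fun _ => false)).op := by
  cases t with
  | c r a b =>
    have e := far (B_ty (X := X) true 1 o) 0 (Ma b)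
    have e' := natR (X := X) true o (NL.cw r).ty
    rw [B_succ_left, B_zero_left, one_mul] at e'
    simp only [add_zero] at e
    simp only [It.map, It.op, Bool.xor_false, Ma_add, map_mul, up_up, ← e', mul_assoc]
    rw [← mul_assoc (B ..), e, mul_assoc]
  | v r a =>
    have e' := natR (X := X) true o (NL.vw r).ty
    rw [B_zero_left, one_mul] at e'
    simp only [It.map, It.op, Ma_add, map_mul, ← e', mul_assoc]

/-- PLAN: `far` (items are typed), `op_push` with `mf_Mu_l`. -/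
theorem ops_pr_l {p N : ℕ} {l : List It} (hl : Val p N l) (z y : Cob X) :
    Rel2 (· < p) (pr N (z * Ops l) y) (pr N z y * Ops l) := by
  refine mf_rel ((ops_push id (fun _ => false) l fun t ht => ⟨(hl t ht).1, mf_Mu_l (hl t ht).2.1,
    mf_Mu_l (hl t ht).2.2⟩).left (z * up N y)) ?_ ?_
  · have := far (NL.Ops (X := X) hl).ty 0 y
    simp only [add_zero] at this
    rw [pr, mul_assoc z, this]
    simp only [mul_assoc]
  · rw [List.map_congr_left fun t _ => mf_id t, List.map_id', pr]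
    simp only [mul_assoc]

/-- PLAN: `up_op`, `op_push` with `mf_Mu_r`. -/
theorem ops_pr_r {p N : ℕ} {l : List It} (hl : Val p N l) (y z : Cob X) :
    Rel2 (· < p) (pr N y (z * Ops l)) (pr N y z * Ops l) := by
  have e : ∀ l : List It, up N (Ops l : Cob X) =
      Ops (l.map (It.map (fun a => N + a) fun _ => false)) := fun l => by
    induction l with
    | nil => exact map_one _
    | cons t l ih => rw [List.map_cons, Ops_cons, Ops_cons, map_mul, ih, up_op]
  refine mf_rel ((ops_push (f := Mu N) (· - N) (fun _ => false)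
    (l.map (It.map (fun a => N + a) fun _ => false)) ?_).left (y * up N z)) ?_ ?_
  · rw [List.forall_mem_map]
    intro t ht
    simp only [It.map_fst, It.map_snd, Nat.add_sub_cancel_left]
    exact ⟨(hl t ht).1, mf_Mu_r (hl t ht).2.1, mf_Mu_r (hl t ht).2.2⟩
  · rw [pr, map_mul, e]
    simp only [mul_assoc]
  · rw [List.map_map, List.map_congr_left (g := id) fun t _ => by cases t <;> simp [It.map],
      List.map_id, pr]
    simp only [mul_assoc]

end Pool.Agent.GH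
end

-- merged part: Pool.Agent.Work.MP_c00b06_gt.HD2
section
/-! Marked handles of a state without surgery are linear. -/

namespace Pool.Agent.GH
open Gn

variable {X : Wd → Wd → Prop}

/-- Replace the marked handles by trivial ones. -/
def Dl (M : List Bool) : Cob X := Tn (M.map fun b => if b then G u 0 * G e 0 else 1)

/-- One marked or unmarked handle. -/
def hd2_D (b : Bool) : Cob X := if b then G u 0 * G e 0 else 1

theorem hd2_cons (b : Bool) (M : List Bool) : (Dl (b :: M) : Cob X) = up 1 (Dl M) * hd2_D b := rfl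

theorem hd2_one (b : Bool) : (Dl [b] : Cob X) = hd2_D b := by
  rw [hd2_cons, show (Dl [] : Cob X) = 1 from rfl, map_one, one_mul]

theorem hd2_ty (b : Bool) : Ty 1 1 (hd2_D b : Cob X) := by
  cases b
  · exact Ty.one 1
  · exact (Ty.G u 0 (q := 0) le_rfl rfl).mul (Ty.G e 0 le_rfl rfl)



theorem Dl_ty (M : List Bool) : Ty M.length M.length (Dl M : Cob X) := by
  induction M with
  | nil => exact Ty.one 0
  | cons b M ih =>
    rw [hd2_cons, List.length_cons]
    exact (ih.at 1 (q' := M.length + 1) (by omega) (by omega)).mul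
      ((hd2_ty b).wide (by omega) (by omega))

theorem Dl_app (M M' : List Bool) : (Dl (M ++ M') : Cob X) = up M.length (Dl M') * Dl M := by
  rw [Dl, List.map_append, Tn_app, List.length_map]
  rfl

theorem Dl_pre (p r : ℕ) :
    (Dl (List.replicate p true ++ List.replicate r false) : Cob X) = E p * Et p := by
  have h1 : (Dl (List.replicate r false) : Cob X) = 1 := by
    induction r with
    | zero => rfl
    | succ r ih => rw [List.replicate_succ, hd2_cons, ih, map_one, one_mul]; rfl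
  rw [Dl_app, h1, map_one, one_mul]
  induction p with
  | zero => exact (one_mul _).symm
  | succ p ih =>
    have e1 : (G u 0 * up 0 (Et p) : Cob X) = up 1 (Et p) * G u 0 := far_Gf u 0 0 le_rfl _
    have e2 : (G u 0 * up 0 (E p) : Cob X) = up 1 (E p) * G u 0 := far_Gf u 0 0 le_rfl _
    rw [up_zero] at e1 e2
    rw [List.replicate_succ, hd2_cons, ih, E_succ, Et_succ, e2, map_mul, mul_assoc,
      mul_assoc, ← mul_assoc (G u 0), e1, mul_assoc]
    rfl

theorem hd2_cr (s b c : Bool) : (G (cr s) 0 * Dl [b, c] : Cob X) = Dl [c, b] * G (cr s) 0 := by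
  have e1 := natR (X := X) s 1 (hd2_ty c)
  have e2 := natL (X := X) s 1 (hd2_ty b)
  have e3 := far (X := X) (hd2_ty c) 0 (hd2_D b)
  rw [B_one_one] at e1 e2
  rw [hd2_cons, hd2_one, hd2_cons, hd2_one, ← mul_assoc, ← e1, mul_assoc, e2, ← mul_assoc, e3]

theorem hd2_st {g : Gn} (h1 : (G g 0 * G u 0 : Cob X) = G u 0)
    (h2 : (G e 0 * G g 0 : Cob X) = G e 0) (b : Bool) :
    (G g 0 * Dl [b] : Cob X) = Dl [b] * G g 0 := by
  rw [hd2_one]
  cases b
  · exact (mul_one _).trans (one_mul _).symm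
  · show G g 0 * (G u 0 * G e 0) = G u 0 * G e 0 * G g 0
    rw [← mul_assoc, h1, mul_assoc, h2]

theorem hd2_m (b : Bool) : (G m 0 * Dl [b] : Cob X) = Dl [b, b] * G m 0 := by
  rw [hd2_cons b [b], hd2_one]
  cases b
  · show G m 0 * 1 = up 1 1 * 1 * G m 0
    rw [map_one, mul_one, mul_one, one_mul]
  · show G m 0 * (G u 0 * G e 0) = up 1 (G u 0 * G e 0) * (G u 0 * G e 0) * G m 0
    have e1 : (G u 0 * up 0 (G u 0 * G e 0) : Cob X) = up 1 (G u 0 * G e 0) * G u 0 :=
      far_Gf u 0 0 le_rfl _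
    rw [← mul_assoc, ax_mu, mul_assoc (up 1 _), mul_assoc _ (G e 0), ax_mL, mul_one, ← e1, up_zero,
      mul_assoc]



/-- The letters `P Q m S T`: pull the marking back. -/
theorem dl_old (g : Gn) (hg : g ∈ [P, Q, m, S, T]) (L : List Bool) (hL : L.length = g.co) :
    ∃ (L' : List Bool) (φ : ℕ → ℕ) (ε : Bool), L'.length = g.ar ∧
      (G g 0 * Dl L : Cob X) = Dl L' * G g 0 ∧
      ∀ a < g.ar, φ a < g.co ∧ L'.getD a false = L.getD (φ a) false ∧
        MF ε (G g 0 : Cob X) a (φ a) := by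
  have hc : ∀ (s : Bool) (L : List Bool), L.length = 2 →
      ∃ (L' : List Bool) (φ : ℕ → ℕ) (ε : Bool), L'.length = 2 ∧
      (G (cr s) 0 * Dl L : Cob X) = Dl L' * G (cr s) 0 ∧
      ∀ a < 2, φ a < 2 ∧ L'.getD a false = L.getD (φ a) false ∧
        MF ε (G (cr s) 0 : Cob X) a (φ a) := by
    intro s L hL
    obtain ⟨b, c, rfl⟩ := List.length_eq_two.1 hL
    refine ⟨[c, b], fun a => 1 - a, false, rfl, hd2_cr s b c, fun a ha => ?_⟩
    interval_cases a
    exacts [⟨one_lt_two, rfl, mf_cr0 s⟩, ⟨two_pos, rfl, mf_cr1 s⟩]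
  simp only [List.mem_cons, List.not_mem_nil, or_false] at hg
  rcases hg with rfl | rfl | rfl | rfl | rfl
  · exact hc true L hL
  · exact hc false L hL
  · obtain ⟨b, rfl⟩ := List.length_eq_one_iff.1 hL
    refine ⟨[b, b], fun _ => 0, false, rfl, hd2_m b, fun a (ha : a < 2) => ?_⟩
    interval_cases a
    exacts [⟨one_pos, rfl, mf_m0⟩, ⟨one_pos, rfl, mf_m1⟩]
  · obtain ⟨b, rfl⟩ := List.length_eq_one_iff.1 hL
    refine ⟨[b], fun _ => 0, true, rfl, hd2_st Su eS b, fun a (ha : a < 1) => ?_⟩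
    interval_cases a
    exact ⟨one_pos, rfl, mf_S⟩
  · obtain ⟨b, rfl⟩ := List.length_eq_one_iff.1 hL
    refine ⟨[b], fun _ => 0, true, rfl, hd2_st Tu eT b, fun a (ha : a < 1) => ?_⟩
    interval_cases a
    exact ⟨one_pos, rfl, mf_T⟩

theorem hd2_up {M : ℕ → Prop} {a o : ℕ} {f g : Cob X} (h : CoEq a f g) (ha : M (o + a)) :
    Rel2 M (up o f) (up o g) := by
  have := (Rel2.of_coeq (coeq_travel true o h) ha).left (B (!true) o 1)
  rwa [← mul_assoc, ← mul_assoc, B_inv', one_mul, one_mul] at this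

theorem hd2_op (o : ℕ) (f : Cob X) (t : It) :
    up o f * Ops ([t].map (It.map (fun a => o + a) (fun _ => false))) = up o (f * t.op) := by
  rw [List.map_cons, List.map_nil, Ops_cons, Ops_nil, mul_one, ← up_op, map_mul]

theorem hd2_v (s : Bool) : (vw s * Dl [true] * (It.v s 0).op : Cob X) = vw s := by
  have e1 : (vw s * G u 0 : Cob X) = 1 := by
    cases s
    exacts [Vu, ax_vu]
  have e2 : (vw s * G e 1 : Cob X) = G e 0 * vw s := far (NL.vw s).ty 0 (G e 0)
  rw [hd2_one]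
  show vw s * (G u 0 * G e 0) * (vw s * Ma 0) = _
  rw [← mul_assoc (vw s), e1, one_mul, ← mul_assoc, ← e2, mf_M0, mul_assoc, ax_mR, mul_one]

theorem hd2_w (b c : Bool) (h : b = true ∨ c = true) :
    (G w 0 * Dl [b, c] : Cob X) = G e 0 * G e 0 := by
  have e1 : (G u 0 * G e 0 : Cob X) = G e 1 * G u 0 := far_G u e 0 0 le_rfl
  have e2 : (G e 0 * G e 1 : Cob X) = G e 0 * G e 0 := far_G e e 0 1 le_rfl
  rw [hd2_cons, hd2_one]
  cases b <;> cases c
  · simp at h
  · show G w 0 * (G u 1 * G e 1 * 1) = _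
    rw [mul_one, ← mul_assoc, wuR, e2]
  · show G w 0 * (up 1 1 * (G u 0 * G e 0)) = _
    rw [map_one, one_mul, ← mul_assoc, wuL]
  · show G w 0 * (G u 1 * G e 1 * (G u 0 * G e 0)) = _
    simp only [← mul_assoc]
    rw [wuR, mul_assoc _ (G e 1), ← e1, ← mul_assoc, ax_eu, one_mul]

theorem hd2_ee : (G e 0 * G e 0 * cw true : Cob X) = G w 0 * G e 2 * G e 3 := by
  have e1 : (G w 0 * G e 2 : Cob X) = G e 0 * G w 0 := far_G w e 0 2 le_rfl
  have e2 : (G e 2 * G e 3 : Cob X) = G e 2 * G e 2 := far_G e e 2 3 le_rfl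
  rw [mul_assoc (G w 0), e2, ← mul_assoc, e1, mul_assoc _ (G w 0), e1, ← mul_assoc]
  exact congrArg _ (mul_one _)

theorem hd2_c01 : (G e 0 * G e 0 * (It.c true 0 1).op : Cob X) = G w 0 := by
  have e1 : (G P 1 * G e 3 : Cob X) = G e 3 * G P 1 := far_G P e 1 3 le_rfl
  have e2 : (G e 3 * G m 2 : Cob X) = 1 := congrArg (up 2) (ax_mR (X := X))
  have e3 : (G e 2 * G P 1 : Cob X) = G e 1 := by
    have := congrArg (up 1) (upEt_B (X := X) true 1 1)
    rwa [B_one_one, Et_succ, Et_zero, one_mul] at this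
  show G e 0 * G e 0 * (cw true * up 1 (Ma 1) * Ma 0) = _
  rw [← mul_assoc, ← mul_assoc, hd2_ee, mf_M0, mf_M1, map_mul, up_G, up_G, ← mul_assoc,
    mul_assoc _ (G e 3), ← e1, ← mul_assoc, mul_assoc _ (G e 3), e2, mul_one, mul_assoc _ (G e 2),
    e3, mul_assoc, ax_mR, mul_one]

theorem hd2_c10 : (G e 0 * G e 0 * (It.c true 1 0).op : Cob X) = G w 0 * G P 0 := by
  have e1 : (G m 1 * G e 2 : Cob X) = G e 3 * G m 1 := far_G m e 1 2 le_rfl
  have e2 : (G e 2 * G m 1 : Cob X) = 1 := congrArg (up 1) (ax_mR (X := X))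
  have e3 : (G P 0 * G e 2 : Cob X) = G e 2 * G P 0 := far_G P e 0 2 le_rfl
  show G e 0 * G e 0 * (cw true * up 1 (Ma 0) * Ma 1) = _
  rw [← mul_assoc, ← mul_assoc, hd2_ee, mf_M0, mf_M1, up_G, mul_assoc _ (G e 3), ← e1]
  simp only [← mul_assoc]
  rw [mul_assoc _ (G e 2) (G m 1), e2, mul_one, mul_assoc _ (G e 2) (G P 0), ← e3,
    ← mul_assoc, mul_assoc _ (G e 2), e2, mul_one]

theorem hd2_wS : (G w 0 : Cob X) = G w 0 * (G S 0 * G S 0 * G P 0) := by
  have e1 : (G S 0 * G S 1 : Cob X) = G S 1 * G S 0 := far_G S S 0 1 le_rfl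
  rw [← mul_assoc, ← mul_assoc, wS, mul_assoc _ (G S 1), ← e1, ← mul_assoc, wS, ← wQ, mul_assoc,
    ax_QP, mul_one]



/-- The letters `e v V w`: a marked one is an item.  PLAN: for `w` with marking `[true, _]` use
`It.c true 0 1`; with marking `[false, true]` we need a clasp `c` with `c * P0 = w0`, that is
`c = w0 * S0 * S0` (`wQ`, `wS`), which `coeq_SS` relates to `It.c true 1 0`. -/
theorem dl_new (g : Gn) (hg : g ∈ [e, v, V, w]) (L : List Bool) (hL : L.length = g.co) :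
    ∃ l : List It, (∀ t ∈ l, L.getD t.fst false = true ∧ t.fst < g.co ∧ t.snd < g.co) ∧
      ∀ o : ℕ, Rel2 (fun a => o ≤ a ∧ L.getD (a - o) false = true) (G g o : Cob X)
        (up o (G g 0 * Dl L) * Ops (l.map (It.map (fun a => o + a) (fun _ => false)))) := by
  have h0 : ∀ (M : ℕ → Prop) (g : Gn) (o : ℕ) (f : Cob X), G g 0 * f = G g 0 →
      Rel2 M (G g o : Cob X) (up o (G g 0 * f) *
        Ops (([] : List It).map (It.map (fun a => o + a) (fun _ => false)))) := by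
    intro M g o f h
    rw [h, List.map_nil, Ops_nil, mul_one]
    exact .refl _ _
  have h1 : (Dl [false] : Cob X) = 1 := hd2_one false
  simp only [List.mem_cons, List.not_mem_nil, or_false] at hg
  rcases hg with rfl | rfl | rfl | rfl
  · obtain ⟨b, rfl⟩ := List.length_eq_one_iff.1 hL
    refine ⟨[], by simp, fun o => h0 _ _ _ _ ?_⟩
    rw [hd2_one]
    cases b
    · exact mul_one _
    · show G e 0 * (G u 0 * G e 0) = _
      rw [← mul_assoc, ax_eu, one_mul]
  · obtain ⟨b, rfl⟩ := List.length_eq_one_iff.1 hL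
    cases b
    · exact ⟨[], by simp, fun o => h0 _ _ _ _ (by rw [h1, mul_one])⟩
    · refine ⟨[.v true 0], by simp [It.fst, It.snd, Gn.co], fun o => .of_eq ?_⟩
      rw [hd2_op]
      exact (congrArg (up o) (hd2_v true)).symm
  · obtain ⟨b, rfl⟩ := List.length_eq_one_iff.1 hL
    cases b
    · exact ⟨[], by simp, fun o => h0 _ _ _ _ (by rw [h1, mul_one])⟩
    · refine ⟨[.v false 0], by simp [It.fst, It.snd, Gn.co], fun o => .of_eq ?_⟩
      rw [hd2_op]
      exact (congrArg (up o) (hd2_v false)).symm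
  · obtain ⟨b, c, rfl⟩ := List.length_eq_two.1 hL
    cases b
    · cases c
      · exact ⟨[], by simp, fun o => h0 _ _ _ _ (by
          rw [hd2_cons, h1, map_one, one_mul]; exact mul_one _)⟩
      · refine ⟨[.c true 1 0], by simp [It.fst, It.snd, Gn.co], fun o => ?_⟩
        rw [hd2_op, hd2_w _ _ (Or.inr rfl), hd2_c10, map_mul]
        refine mf_rel ((hd2_up (o := o) (coeq_post coeq_SS (DP.cr0 true)) ?_).left (up o (G w 0)))
          ?_ (by rw [one_mul, cr_true])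
        · simp
        · rw [← map_mul, cr_true, ← hd2_wS]
          rfl
    · refine ⟨[.c true 0 1], by simp [It.fst, It.snd, Gn.co], fun o => .of_eq ?_⟩
      rw [hd2_op, hd2_w _ _ (Or.inl rfl), hd2_c01]
      rfl

theorem hd2_pos {g : Gn} (L1 L3 : List Bool) {L L' : List Bool} {φ : ℕ → ℕ} {ε : Bool}
    (hL : L.length = g.co) (hL' : L'.length = g.ar)
    (h : ∀ a < g.ar, φ a < g.co ∧ L'.getD a false = L.getD (φ a) false ∧
      MF ε (G g 0 : Cob X) a (φ a)) (a : ℕ) :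
    ∃ (b : ℕ) (s : Bool), MF s (G g L1.length : Cob X) a b ∧
      (L1 ++ (L' ++ L3)).getD a false = (L1 ++ (L ++ L3)).getD b false ∧
      (a < L1.length + (g.ar + L3.length) → b < L1.length + (g.co + L3.length)) := by
  rcases Nat.lt_or_ge a L1.length with c | c
  · refine ⟨a, false, mf_farR c (G g 0), ?_, fun _ => by omega⟩
    rw [List.getD_append _ _ _ _ c, List.getD_append _ _ _ _ c]
  obtain ⟨a, rfl⟩ := Nat.exists_eq_add_of_le c
  rcases Nat.lt_or_ge a g.ar with c' | c'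
  · obtain ⟨h1, h2, h3⟩ := h a c'
    refine ⟨L1.length + φ a, ε, mf_up h3 _, ?_, fun _ => by omega⟩
    rw [List.getD_append_right _ _ _ _ c, List.getD_append_right _ _ _ _ (Nat.le_add_right _ _),
      Nat.add_sub_cancel_left, Nat.add_sub_cancel_left, List.getD_append _ _ _ _ (hL' ▸ c'),
      List.getD_append _ _ _ _ (hL ▸ h1), h2]
  · obtain ⟨a, rfl⟩ := Nat.exists_eq_add_of_le c'
    refine ⟨L1.length + (g.co + a), false, mf_up (mf_farL (adn_gty g) a) _, ?_, fun _ => by omega⟩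
    rw [List.getD_append_right _ _ _ _ c, List.getD_append_right _ _ _ _ (Nat.le_add_right _ _),
      Nat.add_sub_cancel_left, Nat.add_sub_cancel_left, ← hL, ← hL',
      List.getD_append_right _ _ _ _ (Nat.le_add_right _ _),
      List.getD_append_right _ _ _ _ (Nat.le_add_right _ _), Nat.add_sub_cancel_left,
      Nat.add_sub_cancel_left]

theorem hd2_mid (L1 L L3 : List Bool) {a : ℕ} (h : L.getD a false = true) :
    (L1 ++ (L ++ L3)).getD (L1.length + a) false = true := by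
  have c : a < L.length := by
    by_contra c
    rw [List.getD_eq_default _ _ (Nat.le_of_not_lt c)] at h
    cases h
  rw [List.getD_append_right _ _ _ _ (Nat.le_add_right _ _), Nat.add_sub_cancel_left,
    List.getD_append _ _ _ _ c, h]

theorem hd2_let (g : Gn) (h1 : g ≠ d) (h2 : g ≠ u) (h3 : g ≠ l) (L : List Bool)
    (hL : L.length = g.co) :
    ∃ (L' : List Bool) (φ : ℕ → ℕ) (ε : Bool) (Z : Cob X) (k : List It), L'.length = g.ar ∧
      G g 0 * Dl L = Dl L' * Z ∧ (∀ a < g.ar, φ a < g.co ∧ L'.getD a false = L.getD (φ a) false ∧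
        MF ε (G g 0 : Cob X) a (φ a)) ∧
      (∀ t ∈ k, L.getD t.fst false = true ∧ t.fst < g.co ∧ t.snd < g.co) ∧
      ∀ o : ℕ, Rel2 (fun a => o ≤ a ∧ L.getD (a - o) false = true) (G g o : Cob X)
        (up o Z * Ops (k.map (It.map (fun a => o + a) (fun _ => false)))) := by
  by_cases c : g ∈ [P, Q, m, S, T]
  · obtain ⟨L', φ, ε, a1, a2, a3⟩ := dl_old (X := X) g c L hL
    exact ⟨L', φ, ε, G g 0, [], a1, a2, a3, by simp, fun o => .of_eq (mul_one _).symm⟩
  · have c' : g ∈ [e, v, V, w] := by cases g <;> simp_all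
    have c'' : g.ar = 0 := by cases g <;> simp_all [Gn.ar]
    obtain ⟨k, a1, a2⟩ := dl_new (X := X) g c' L hL
    exact ⟨[], id, false, G g 0 * Dl L, k, c''.symm, (one_mul _).symm, fun a ha => by omega, a1, a2⟩



/-- PLAN.  Induction on `HD`, for all `M`.  Split `M = L1 ++ L ++ L3` with lengths `i`, `g.co`.
Use the induction hypothesis for `L1 ++ L' ++ L3` (`L' = []` for a new letter), `Rel2.right` (the
second part of `MF`), `ops_push` with the position map (`mf_farR`, `mf_up`, `mf_farL`), and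
`G g i * Dl M = Dl M0 * G g i` (old letter), `G g i * Dl M = Dl M0 * up i (G g 0 * Dl L)` (new
letter). -/
theorem hd_lin_gen {N : ℕ} {h : Cob X} (H : HD N h) (M : List Bool) (hM : M.length = N) :
    ∃ l : List It, (∀ t ∈ l, M.getD t.fst false = true ∧ t.fst < N ∧ t.snd < N) ∧
      Rel2 (fun a => M.getD a false = true) h (h * Dl M * Ops l) := by
  induction H generalizing M with
  | nil =>
    obtain rfl := List.length_eq_zero_iff.1 hM
    exact ⟨[], by simp, .of_eq ((mul_one _).trans (mul_one _)).symm⟩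
  | step N h g i _ h1 h2 h3 hi ih =>
    obtain ⟨L1, L, L3, rfl, rfl, hL⟩ : ∃ L1 L L3 : List Bool, M = L1 ++ (L ++ L3) ∧
        L1.length = i ∧ L.length = g.co :=
      ⟨M.take i, (M.drop i).take g.co, (M.drop i).drop g.co, by
        rw [List.take_append_drop, List.take_append_drop], by
        rw [List.length_take]; omega, by rw [List.length_take, List.length_drop]; omega⟩
    simp only [List.length_append] at hM
    obtain ⟨L', φ, ε, Z, k, a1, a2, a3, a4, a5⟩ := hd2_let (X := X) g h1 h2 h3 L hL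
    choose Φ s b1 b2 b3 using hd2_pos L1 L3 hL a1 a3
    obtain ⟨r, c1, c2⟩ := ih (L1 ++ (L' ++ L3)) (by simp only [List.length_append]; omega)
    refine ⟨k.map (It.map (fun a => L1.length + a) (fun _ => false)) ++ r.map (It.map Φ s), ?_, ?_⟩
    · intro t ht
      rcases List.mem_append.1 ht with ht | ht
      · obtain ⟨t, ht', rfl⟩ := List.mem_map.1 ht
        obtain ⟨d1, d2, d3⟩ := a4 t ht'
        rw [It.map_fst, It.map_snd]
        exact ⟨hd2_mid L1 L L3 d1, by omega, by omega⟩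
      · obtain ⟨t, ht', rfl⟩ := List.mem_map.1 ht
        obtain ⟨d1, d2, d3⟩ := c1 t ht'
        have d4 := b3 t.fst
        have d5 := b3 t.snd
        rw [It.map_fst, It.map_snd]
        exact ⟨(b2 _).symm.trans d1, by omega, by omega⟩
    · have e1 := far (Dl_ty (X := X) L1) 0 Z
      have e2 := far (Dl_ty (X := X) L1) 0 (G g 0)
      have e3 := far (adn_gty (X := X) g) 0 (Dl L3)
      simp only [Nat.add_zero] at e1 e2 e3
      have e4 : (Dl (L1 ++ (L' ++ L3)) * up L1.length Z : Cob X) =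
          G g L1.length * Dl (L1 ++ (L ++ L3)) := by
        rw [Dl_app, Dl_app, Dl_app L1, Dl_app L, mul_assoc, e1, ← mul_assoc, ← map_mul, mul_assoc,
          ← a2, a1, hL, ← mul_assoc, ← e3, mul_assoc (G g 0), map_mul, mul_assoc]
        rfl
      refine (c2.right fun a ha => ⟨Φ a, (b2 a).symm.trans ha, (b1 a).2⟩).trans ?_
      rw [mul_assoc]
      refine ((ops_push Φ s r fun t ht =>
        ⟨(b2 _).symm.trans (c1 t ht).1, b1 _, b1 _⟩).left _).trans ?_
      refine mf_rel ((((a5 L1.length).mono fun a ha => ?_).right' fun a _ =>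
        DP.Ops (r.map (It.map Φ s)) a).left (h * Dl (L1 ++ (L' ++ L3)))) rfl ?_
      · have := hd2_mid L1 L L3 ha.2
        rwa [Nat.add_sub_cancel' ha.1] at this
      · rw [Ops_app, mul_assoc h (G g _), ← e4]
        simp only [mul_assoc]

theorem hd_lin {N p : ℕ} {h : Cob X} (H : NL 0 N h) (hp : p ≤ N) :
    ∃ l : List It, Val p N l ∧ Rel2 (· < p) h (h * E p * Et p * Ops l) := by
  have hM : ∀ a, (List.replicate p true ++ List.replicate (N - p) false).getD a false = true →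
      a < p := by
    intro a ha
    by_contra c
    rw [List.getD_append_right _ _ _ _ (by simpa using c), List.getD_eq_getElem?_getD,
      List.getElem?_replicate] at ha
    split_ifs at ha <;> simp at ha
  obtain ⟨r, h1, h2⟩ := hd_lin_gen (hd_of_nl H)
    (List.replicate p true ++ List.replicate (N - p) false) (by simp; omega)
  rw [Dl_pre, ← mul_assoc] at h2
  exact ⟨r, fun t ht => ⟨hM _ (h1 t ht).1, (h1 t ht).2⟩, h2.mono hM⟩

end Pool.Agent.GH
end

-- merged part: Pool.Agent.Work.MP_c00b06_gt.Itm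
section
/-! Products of items only depend on the linking matrix. -/

namespace Pool.Agent.GH
open Gn

variable {X : Wd → Wd → Prop}

theorem lkl_nil (i j : ℕ) : lkl [] i j = 0 := rfl

theorem lkl_cons (t : It) (l : List It) (i j : ℕ) : lkl (t :: l) i j = t.lk i j + lkl l i j := by
  simp [lkl]

theorem lkl_app (l l' : List It) (i j : ℕ) : lkl (l ++ l') i j = lkl l i j + lkl l' i j := by
  simp [lkl]

theorem lkl_symm (l : List It) (i j : ℕ) : lkl l i j = lkl l j i := by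
  refine congrArg List.sum (List.map_congr_left fun t _ => ?_)
  cases t with
  | c s a b => simp only [It.lk, and_comm (a := j = _), add_comm]
  | v s a => simp only [It.lk, and_comm (a := j = _)]

theorem lkl_out {p N : ℕ} {l : List It} (hl : Val p N l) {i j : ℕ} (h : N ≤ i ∨ N ≤ j) :
    lkl l i j = 0 := by
  refine List.sum_eq_zero (List.forall_mem_map.2 fun t ht => ?_)
  obtain ⟨-, h1, h2⟩ := hl t ht
  cases t with
  | c s a b =>
    simp only [It.fst, It.snd] at h1 h2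
    rw [It.lk, if_neg (c := i = a ∧ j = b) (by omega), if_neg (c := i = b ∧ j = a) (by omega)]
    simp
  | v s a =>
    simp only [It.fst] at h1
    rw [It.lk, if_neg (by omega)]

theorem lkl_low {p N : ℕ} {l : List It} (hl : Val p N l) {i j : ℕ} (hi : p ≤ i) (hj : p ≤ j) :
    lkl l i j = 0 := by
  refine List.sum_eq_zero (List.forall_mem_map.2 fun t ht => ?_)
  have h1 := (hl t ht).1
  cases t with
  | c s a b =>
    simp only [It.fst] at h1
    rw [It.lk, if_neg (c := i = a ∧ j = b) (by omega), if_neg (c := i = b ∧ j = a) (by omega)]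
    simp
  | v s a =>
    simp only [It.fst] at h1
    rw [It.lk, if_neg (by omega)]

theorem Val.mono {p N N' : ℕ} {l : List It} (hl : Val p N l) (h : N ≤ N') : Val p N' l := by
  exact fun t ht => ⟨(hl t ht).1, (hl t ht).2.1.trans_le h, (hl t ht).2.2.trans_le h⟩

theorem itm_MaE {a p : ℕ} (h : a < p) : (Ma a * E p : Cob X) = E (p + 1) := by
  obtain ⟨q, rfl⟩ : ∃ q, p = q + 1 := ⟨p - 1, by omega⟩
  have e1 : (G m a * G u a : Cob X) = G u a * G u a := (congrArg (up a) ax_mu :)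
  rw [Ma, mul_assoc, ← E_ins (i := a) (p := q) (by omega), ← mul_assoc (G m a), e1, mul_assoc,
    E_ins (by omega), E_ins (by omega)]
  exact (rr_wide (tg_B true 1 a) (by omega)).2

/-- PLAN: `Ma a * E p = E (p + 1)` for `a < p`, `wuL`, `e_Ma`. -/
theorem ops_E {p N : ℕ} {l : List It} (hl : Val p N l) : (Ops l * E p : Cob X) = E p := by
  induction l with
  | nil => exact one_mul _
  | cons t l ih =>
    have h1 := (hl t (by simp)).1
    rw [Ops_cons, mul_assoc, ih fun t' ht => hl t' (by simp [ht])]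
    cases t with
    | c s a b =>
      have e1 : (cw s * G u 0 : Cob X) = G e 0 := by
        cases s
        · exact (mul_assoc _ _ _).trans ((congrArg _ Tu).trans wuL)
        · exact (congrArg (· * _) (mul_one _)).trans wuL
      have e2 : (G u 0 * Ma b : Cob X) = up 1 (Ma b) * G u 0 :=
        (congrArg _ (up_zero _).symm).trans (far_Gf u 0 0 le_rfl (Ma b))
      rw [It.op, mul_assoc, itm_MaE (a := a) h1, E_succ, ← mul_assoc, mul_assoc (cw s), ← e2, ← mul_assoc,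
        e1, e_Ma, one_mul]
    | v s a =>
      have e1 : (vw s * G u 0 : Cob X) = 1 := by
        cases s
        exacts [Vu, ax_vu]
      rw [It.op, mul_assoc, itm_MaE (a := a) h1, E_succ, ← mul_assoc, e1, one_mul]

variable {M : ℕ → Prop}

/-- PLAN: `op_comm`, `DP.Ops`. -/
theorem ops_perm {l l' : List It} (h : l.Perm l') (hM : ∀ t ∈ l, M t.fst) :
    Rel2 M (Ops l : Cob X) (Ops l') := by
  induction h with
  | nil => exact .refl _ _
  | cons t _ ih =>
    rw [Ops_cons, Ops_cons]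
    exact (ih fun t' ht => hM t' (by simp [ht])).left _
  | swap x y l =>
    simp only [Ops_cons, ← mul_assoc]
    exact (op_comm y x (hM y (by simp))).right' fun a _ => DP.Ops l a
  | trans h1 _ ih1 ih2 => exact (ih1 hM).trans (ih2 fun t ht => hM t (h1.mem_iff.2 ht))

theorem coeq_swap (a b : ℕ) :
    CoEq a (up 1 (Ma b) * Ma a : Cob X) (G P 0 * up 1 (Ma a) * Ma b) := by
  rcases lt_trichotomy a b with h | rfl | h
  · rw [Ma_swap_lt h, mul_assoc, mul_assoc]
    exact (coeq_post coeq_PQ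
      ((dp1_cast ((DP.Ma0 a).up 1) rfl (Nat.add_comm 1 a)).mul (DP.Ma1 b a))).symm
  · rw [mul_assoc, ← Ma_mul, ← mul_assoc]
    exact coeq_post coeq_Pm (DP.Ma0 a)
  · exact coeq_of_eq (Ma_swap_gt h)

/-- PLAN: for `a < b`: `Ma_swap_lt`, `cw s * Q0 = cw s * S0 * S0` (`wQ wS wT`), `coeq_SS`. -/
theorem op_symm (s : Bool) {a b : ℕ} (ha : M a) (hb : M b) :
    Rel2 M ((It.c s a b).op : Cob X) (It.c s b a).op := by
  have e1 : (cw s * G P 0 : Cob X) = cw s * (G T 0 * G T 0) := by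
    cases s
    · have e2 : (G T 0 * G P 0 : Cob X) = G P 0 * G T 1 := by
        simpa only [B_one_one, cr_true, up_G] using
          natR true 1 (Ty.G (X := X) T 0 (p := 1) (q := 1) le_rfl rfl)
      have e3 : (G T 0 * G T 1 : Cob X) = G T 1 * G T 0 := far_G T T 0 1 le_rfl
      change G w 0 * G T 0 * G P 0 = G w 0 * G T 0 * (G T 0 * G T 0)
      rw [mul_assoc, e2, ← mul_assoc, wP, mul_assoc _ _ (G T 1), e3, ← mul_assoc,
        mul_assoc _ _ (G T 1), e3, ← mul_assoc, ← wT, mul_assoc]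
    · change G w 0 * 1 * G P 0 = G w 0 * 1 * (G T 0 * G T 0)
      rw [mul_one, wP, mul_assoc]
  refine (mf_rel ((Rel2.of_coeq (coeq_swap a b) ha).left (cw s)) (mul_assoc ..) rfl).trans
    (mf_rel ((Rel2.of_coeq (coeq_post coeq_TT ((DP.farR one_pos (Ma a)).mul (DP.Ma0 b))) hb).left
      (cw s)) ?_ ?_)
  · rw [← mul_assoc, ← mul_assoc, e1]
    simp only [mul_assoc]
  · rw [one_mul, ← mul_assoc]
    rfl

theorem itm_vv (s s' : Bool) (a : ℕ) :
    ((It.v s a).op * (It.v s' a).op : Cob X) = vw s * vw s' * G m 0 * Ma a := by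
  have e1 : (vw s' * up 1 (Ma a) : Cob X) = Ma a * vw s' :=
    (far (NL.vw s').ty 0 (Ma a)).trans (congrArg (· * _) (up_zero _))
  rw [It.op, It.op, mul_assoc (vw s * vw s'), Ma_mul, ← mul_assoc (vw s * vw s'),
    mul_assoc (vw s) (vw s'), e1]
  simp only [mul_assoc]

/-- PLAN: `Ma_mul`, `wm`, `wm1`, `coeq_ST`. -/
theorem op_diag (s : Bool) {a : ℕ} (ha : M a) :
    Rel2 M ((It.c s a a).op : Cob X) ((It.v s a).op * (It.v s a).op) := by
  rw [itm_vv, It.op, mul_assoc, ← Ma_mul]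
  cases s
  · refine mf_rel ((Rel2.of_coeq (coeq_post coeq_ST (DP.m0.mul (DP.Ma0 a))) ha).left (G w 0)).symm
      (mul_assoc ..) ?_
    rw [← mul_assoc, ← mul_assoc, wm1]
    rfl
  · refine .of_eq ?_
    rw [← mul_assoc]
    exact congrArg (· * _) ((congrArg (· * _) (mul_one _)).trans wm)

def It.neg : It → It
  | .c s a b => .c (!s) a b
  | .v s a => .v (!s) a

/-- PLAN: twists: `Ma_mul`, `ax_vV`, `Vv`, `e_Ma`.  Clasps: create both clasps at the front
(`far`), exchange `up 2 (Ma a) * up 1 (Ma b)` by `coeq_partner` with `coeq_swap b a` and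
`coeq_pre`, then `Ma_mul` twice and `wwb`, `wbw`. -/
theorem op_neg (t : It) (ht : M t.fst) : Rel2 M (t.op * t.neg.op : Cob X) 1 := by
  cases t with
  | v s a =>
    have e1 : (vw s * vw (!s) * G m 0 : Cob X) = G e 0 := by
      cases s
      exacts [Vv, ax_vV]
    exact .of_eq (by rw [It.neg, itm_vv, e1, e_Ma])
  | c s a b =>
    intro F k Ψ h
    have e1 : (cw (!s) * up 2 (cw s) * G P 1 * G m 0 * G m 1 : Cob X) = G e 0 * G e 0 := by
      cases s
      · rw [← wwb]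
        simp [cw, sg, up_G, mul_assoc]
      · rw [← wbw]
        simp [cw, sg, up_G, mul_assoc]
    have e2 : ∀ x : Cob X, cw (!s) * up 2 x = x * cw (!s) := fun x =>
      (far (NL.cw (!s)).ty 0 x).trans (congrArg (· * _) (up_zero _))
    have e3 : (G P 0 * up 2 (Ma b) : Cob X) = up 2 (Ma b) * G P 0 := far_Gf P 0 2 le_rfl _
    have e4 : ∀ x : Cob X, G m 0 * up 1 x = up 2 x * G m 0 := far_Gf m 0 1 le_rfl
    have e5 : (G e 0 * up 1 (Ma b) : Cob X) = Ma b * G e 0 :=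
      (far_Gf e 0 1 le_rfl (Ma b)).trans (congrArg (· * _) (up_zero _))
    have s1 := coeq_partner (coeq_pre (coeq_swap b a) (cw s * up 1 (Ma b))) (!s)
      ((DP.Ma0 a).dp (h a ht)) F
    refine (Sim.of_eq ?_).trans (s1.trans (Sim.of_eq ?_))
    · rw [It.neg, It.op, It.op, ← mul_assoc _ (cw (!s) * _), ← mul_assoc _ (cw (!s)), ← e2]
      simp only [map_mul, up_up, mul_assoc]
    · have e6 : (up 1 (cw s * up 1 (Ma b)) * (G P 0 * up 1 (Ma b) * Ma a) : Cob X) =
          up 1 (cw s) * G P 0 * up 1 (G m 0 * Ma b) * Ma a := by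
        rw [Ma_mul]
        simp only [map_mul, up_up, ← mul_assoc]
        rw [mul_assoc _ (G P 0) (up (1 + 1) _), e3, ← mul_assoc]
      have e7 : (cw (!s) * up 1 (up 1 (cw s) * G P 0 * up 1 (G m 0 * Ma b) * Ma a) * Ma a :
          Cob X) = 1 := by
        rw [map_mul, ← mul_assoc, mul_assoc _ (up 1 (Ma a)), ← Ma_mul, map_mul, up_up 1 1, ← mul_assoc,
          ← mul_assoc, mul_assoc _ (up (1 + 1) _), ← e4, map_mul, map_mul, up_up, up_G, up_G,
          ← mul_assoc, ← mul_assoc, ← mul_assoc, e1, mul_assoc (G e 0), e5, ← mul_assoc, e_Ma,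
          one_mul, e_Ma]
      rw [e6, mul_assoc F, mul_assoc F, ← mul_assoc _ (Ma a) Ψ, e7, mul_assoc]

theorem lkl_neg (l : List It) (i j : ℕ) : lkl (l.map It.neg) i j = - lkl l i j := by
  induction l with
  | nil => rfl
  | cons t l ih =>
    have : t.neg.lk i j = - t.lk i j := by
      cases t with
      | c s a b => cases s <;> simp [It.neg, It.lk]
      | v s a => cases s <;> simp only [It.neg, It.lk] <;> split_ifs <;> simp_all
    rw [List.map_cons, lkl_cons, lkl_cons, ih, this, neg_add]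

theorem Val.neg {p N : ℕ} {l : List It} (hl : Val p N l) : Val p N (l.map It.neg) := by
  refine List.forall_mem_map.2 fun t ht => ?_
  have := hl t ht
  cases t <;> exact this

theorem itm_app {R : It → Prop} {l l' : List It} (h : ∀ t ∈ l, R t) (h' : ∀ t ∈ l', R t) :
    ∀ t ∈ l ++ l', R t := List.forall_mem_append.2 ⟨h, h'⟩

theorem itm_neg {l : List It} (hM : ∀ t ∈ l, M t.fst) : ∀ t ∈ l.map It.neg, M t.fst := by
  refine List.forall_mem_map.2 fun t ht => ?_
  have := hM t ht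
  cases t <;> exact this

theorem ops_neg (l : List It) (hM : ∀ t ∈ l, M t.fst) :
    Rel2 M (Ops l * Ops (l.map It.neg) : Cob X) 1 := by
  induction l with
  | nil => exact .of_eq (one_mul _)
  | cons t l ih =>
    have h1 : (t :: l ++ (t :: l).map It.neg).Perm (t :: t.neg :: (l ++ l.map It.neg)) :=
      List.perm_middle.cons t
    rw [← Ops_app]
    refine (ops_perm h1 (itm_app hM (itm_neg hM))).trans ?_
    rw [Ops_cons, Ops_cons, ← mul_assoc]
    refine ((op_neg t (hM t (by simp))).right' fun a _ => DP.Ops _ a).trans ?_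
    rw [one_mul, Ops_app]
    exact ih fun t' ht => hM t' (by simp [ht])

theorem ops_neg' (l : List It) (hM : ∀ t ∈ l, M t.fst) :
    Rel2 M (Ops (l.map It.neg) * Ops l : Cob X) 1 := by
  refine Rel2.trans ?_ (ops_neg l hM)
  rw [← Ops_app, ← Ops_app]
  exact ops_perm List.perm_append_comm (itm_app (itm_neg hM) hM)

/-- PLAN: `op_symm` (if `b < a < p`), `op_diag`. -/
theorem ops_nrm {p N : ℕ} {l : List It} (hl : Val p N l) : ∃ l', Val p N l' ∧ (∀ t ∈ l', t.Nrm) ∧
    (∀ i j, lkl l' i j = lkl l i j) ∧ Rel2 (· < p) (Ops l : Cob X) (Ops l') := by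
  induction l with
  | nil => exact ⟨[], hl, by simp, fun _ _ => rfl, .refl _ _⟩
  | cons t l ih =>
    obtain ⟨l2, a1, a2, a3, a4⟩ := ih fun t' ht => hl t' (by simp [ht])
    obtain ⟨l1, b1, b2, b3, b4⟩ : ∃ l', Val p N l' ∧ (∀ t ∈ l', t.Nrm) ∧
        (∀ i j, lkl l' i j = t.lk i j) ∧ Rel2 (· < p) (t.op : Cob X) (Ops l') := by
      have h1 := hl t (by simp)
      have k : t.Nrm → ∃ l', Val p N l' ∧ (∀ t ∈ l', t.Nrm) ∧
          (∀ i j, lkl l' i j = t.lk i j) ∧ Rel2 (· < p) (t.op : Cob X) (Ops l') := fun h =>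
        ⟨[t], by simpa [Val] using h1, by simpa using h, by simp [lkl], .of_eq (by simp [Ops])⟩
      cases t with
      | v s a => exact k trivial
      | c s a b =>
        simp only [It.fst, It.snd] at h1
        rcases lt_trichotomy a b with h | rfl | h
        · exact k h
        · refine ⟨[.v s a, .v s a], by simpa [Val, It.fst, It.snd] using h1, by simp [It.Nrm],
            fun i j => ?_, by simpa [Ops] using op_diag (M := (· < p)) s h1.1⟩
          cases s <;> simp only [lkl, It.lk, List.map, List.sum_cons, List.sum_nil] <;>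
            split_ifs <;> simp_all
        · refine ⟨[.c s b a], by simp [Val, It.fst, It.snd]; omega, by simpa [It.Nrm] using h,
            fun i j => by simp [lkl, It.lk, add_comm], ?_⟩
          simpa [Ops] using op_symm (M := (· < p)) s h1.1 (h.trans h1.1)
    refine ⟨l1 ++ l2, itm_app b1 a1, itm_app b2 a2, fun i j => by
      rw [lkl_app, lkl_cons, a3, b3], ?_⟩
    rw [Ops_cons, Ops_app]
    exact (b4.right' fun a _ => DP.Ops _ a).trans (a4.left _)

theorem itm_pos {t : It} (h : t.Nrm) : t.lk t.fst t.snd ≠ 0 := by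
  cases t with
  | c s a b =>
    have : a ≠ b := h.ne
    cases s <;> simp [It.lk, It.fst, It.snd, this]
  | v s a => cases s <;> simp [It.lk, It.fst, It.snd]

theorem itm_sign {t t' : It} (h : t.Nrm) (h' : t'.Nrm) (e : t' ≠ t.neg) :
    0 ≤ t.lk t.fst t.snd * t'.lk t.fst t.snd := by
  cases t <;> cases t' <;> rename_i s _ <;>
    simp only [It.lk, It.fst, It.snd, It.Nrm, It.neg, ne_eq, It.c.injEq, It.v.injEq] at * <;>
    split_ifs <;> first | omega | simp_all

/-- PLAN: strong induction on the length: the entry of the head item vanishes, so `t.neg` occurs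
in the tail; `List.perm_cons_erase`, `ops_perm`, `op_neg`. -/
theorem ops_zero {p N : ℕ} {l : List It} (hl : Val p N l) (hn : ∀ t ∈ l, t.Nrm)
    (h0 : ∀ i < N, ∀ j < N, lkl l i j = 0) : Rel2 (· < p) (Ops l : Cob X) 1 := by
  induction hk : l.length using Nat.strong_induction_on generalizing l with
  | h k ih =>
    cases l with
    | nil => exact .refl _ _
    | cons t l =>
      have ht := hl t (by simp)
      have hm : t.neg ∈ l := by
        by_contra hm
        have h1 := h0 _ ht.2.1 _ ht.2.2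
        have h2 : 0 ≤ t.lk t.fst t.snd * lkl l t.fst t.snd := by
          rw [lkl, ← List.sum_map_mul_left]
          exact List.sum_nonneg (List.forall_mem_map.2 fun t' ht' => itm_sign (hn t (by simp))
            (hn t' (by simp [ht'])) fun e => hm (e ▸ ht'))
        have h3 := itm_pos (hn t (by simp))
        rw [lkl_cons] at h1
        rw [eq_neg_of_add_eq_zero_right h1] at h2
        exact h3 (mul_self_eq_zero.1 (le_antisymm (by linarith) (mul_self_nonneg _)))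
      have hp : (t :: l).Perm (t :: t.neg :: l.erase t.neg) := (List.perm_cons_erase hm).cons t
      have hs : ∀ t' ∈ l.erase t.neg, t' ∈ t :: l := fun t' h =>
        List.mem_cons_of_mem _ (List.mem_of_mem_erase h)
      refine (ops_perm hp fun t' h => (hl t' h).1).trans ?_
      rw [Ops_cons, Ops_cons, ← mul_assoc]
      refine ((op_neg t ht.1).right' fun a _ => DP.Ops _ a).trans ?_
      rw [one_mul]
      refine ih _ ?_ (fun t' h => hl t' (hs t' h)) (fun t' h => hn t' (hs t' h))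
        (fun i hi j hj => ?_) rfl
      · rw [← hk]
        exact Nat.lt_succ_of_le List.length_erase_le
      · have e1 : lkl (t :: l) i j = lkl (t :: t.neg :: l.erase t.neg) i j := (hp.map _).sum_eq
        have e2 := lkl_neg [t] i j
        rw [List.map_singleton, lkl_cons, lkl_cons, lkl_nil] at e2
        rw [h0 i hi j hj, lkl_cons, lkl_cons] at e1
        linarith

theorem lu {p N : ℕ} {l l' : List It} (hl : Val p N l) (hl' : Val p N l')
    (h : ∀ i < N, ∀ j < N, lkl l i j = lkl l' i j) : Rel2 (· < p) (Ops l : Cob X) (Ops l') := by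
  obtain ⟨l1, a1, a2, a3, a4⟩ := ops_nrm (X := X) (itm_app hl hl'.neg)
  have h1 := a4.trans (ops_zero a1 a2 fun i hi j hj => by
    rw [a3, lkl_app, lkl_neg, h i hi j hj, add_neg_cancel])
  refine (mf_rel ((ops_neg' l' fun t ht => (hl' t ht).1).symm.left (Ops l)) (mul_one _).symm
    rfl).trans (mf_rel (h1.right' fun a _ => DP.Ops l' a) ?_ (one_mul _))
  rw [Ops_app, mul_assoc]

theorem exists_list (p N : ℕ) (A : ℕ → ℕ → ℤ) (hA : ∀ i j, A i j = A j i) :
    ∃ l, Val p N l ∧ (∀ t ∈ l, t.Nrm) ∧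
      ∀ i < N, ∀ j < N, lkl l i j = if i < p ∨ j < p then A i j else 0 := by
  have key : ∀ S : Finset (ℕ × ℕ), (∀ q ∈ S, q.1 ≤ q.2 ∧ q.1 < p ∧ q.2 < N) → ∃ l, Val p N l ∧
      (∀ t ∈ l, t.Nrm) ∧ ∀ i j, i ≤ j → lkl l i j = if (i, j) ∈ S then A i j else 0 := by
    intro S
    induction S using Finset.induction_on with
    | empty => exact fun _ => ⟨[], by simp [Val], by simp, by simp [lkl_nil]⟩
    | insert q S hq ih =>
      intro h
      obtain ⟨l, a1, a2, a3⟩ := ih fun q' h' => h q' (Finset.mem_insert_of_mem h')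
      obtain ⟨a, b⟩ := q
      obtain ⟨h1, h2, h3⟩ : a ≤ b ∧ a < p ∧ b < N := h _ (Finset.mem_insert_self _ _)
      obtain ⟨t, t1, t2, t3, t4⟩ : ∃ t : It, t.fst = a ∧ t.snd = b ∧ t.Nrm ∧ ∀ i j, i ≤ j →
          t.lk i j = if i = a ∧ j = b then (if A a b < 0 then -1 else 1) else 0 := by
        rcases h1.eq_or_lt with rfl | h1
        · exact ⟨.v (decide (A a a < 0)) a, rfl, rfl, trivial, fun i j _ => by simp [It.lk]⟩
        · refine ⟨.c (decide (A a b < 0)) a b, rfl, rfl, h1, fun i j hij => ?_⟩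
          rw [It.lk, if_neg (c := i = b ∧ j = a) (by omega)]
          simp
      refine ⟨List.replicate (A a b).natAbs t ++ l, itm_app (fun t' h' => ?_) a1,
        itm_app (fun t' h' => List.eq_of_mem_replicate h' ▸ t3) a2, fun i j hij => ?_⟩
      · rw [List.eq_of_mem_replicate h', t1, t2]
        omega
      · rw [lkl_app, a3 i j hij, lkl, List.map_replicate, List.sum_replicate, t4 i j hij]
        by_cases e : i = a ∧ j = b
        · obtain ⟨rfl, rfl⟩ := e
          simp only [hq, Finset.mem_insert_self, and_self, if_true, if_false, nsmul_eq_mul]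
          split_ifs <;> omega
        · simp [e]
  obtain ⟨l, a1, a2, a3⟩ := key ((Finset.range N ×ˢ Finset.range N).filter
    fun q => q.1 ≤ q.2 ∧ q.1 < p) (by simp; omega)
  have k : ∀ i < N, ∀ j < N, i ≤ j → lkl l i j = if i < p ∨ j < p then A i j else 0 := by
    intro i hi j hj hij
    rw [a3 i j hij]
    exact if_congr (by simp; omega) rfl rfl
  refine ⟨l, a1, a2, fun i hi j hj => (le_total i j).elim (k i hi j hj) fun h => ?_⟩
  rw [lkl_symm, k j hj i hi h, hA]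
  exact if_congr or_comm rfl rfl

end Pool.Agent.GH
end

-- merged part: Pool.Agent.Work.MP_c00b06_gt.NF0
section
/-! Handles of a homology handlebody are products of meridians. -/

namespace Pool.Agent.GH
open Gn

variable {X : Wd → Wd → Prop}

theorem nf0_l (t : Bool) {a j : ℕ} (haj : a ≠ j) : (Sl t a j * G l j : Cob X) = G l j := by
  obtain ⟨a', h1⟩ : ∃ a', (Ma a * G l j : Cob X) = G l (j + 1) * Ma a' := by
    rcases lt_or_gt_of_ne haj with h | h
    · exact ⟨a, Ma_farR h (G l 0)⟩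
    · obtain ⟨r, rfl⟩ := Nat.exists_eq_add_of_le (show j + 1 ≤ a from h)
      exact ⟨j + r, by rw [Ma_farL (Ty.G l j (p := j + 1) (q := j) le_rfl rfl), up_G, Nat.add_comm 1]⟩
  have h2 : (B false j 1 * G l (j + 1) : Cob X) = G l (j + 1) * B false j 1 :=
    far ((B_ty false j 1).cast rfl (Nat.add_comm _ _)) 0 (G l 0)
  have h3 : (up j (sg (!t)) * G l (j + 1) : Cob X) = G l (j + 1) * up j (sg (!t)) :=
    far ((NL.sg _).ty.up j) 0 (G l 0)
  have h4 : (G d j * G l (j + 1) : Cob X) = G l j * G e j := (congrArg (up j) ax_iR :)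
  have h5 : (G e j * up j (sg (!t)) : Cob X) = G e j := by
    cases t
    · exact (congrArg (up j) eT :)
    · exact mul_one _
  have h6 : (G e j * B false j 1 : Cob X) = G e 0 := upEt_B false j 1
  rw [Sl, mul_assoc, h1, ← mul_assoc, mul_assoc _ (B _ _ _), h2, ← mul_assoc, mul_assoc (G d j), h3,
    ← mul_assoc, h4, mul_assoc (G l j), h5, mul_assoc (G l j), h6, mul_assoc, e_Ma, mul_one]

theorem sl_Lm (t : Bool) {o s a j : ℕ} (h1 : o ≤ j) (h2 : j < o + s) (haj : a ≠ j) :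
    (Sl t a j * up o (Lm s) : Cob X) = up o (Lm s) := by
  obtain ⟨i, rfl⟩ := Nat.exists_eq_add_of_le h1
  obtain ⟨s, rfl⟩ : ∃ r, s = r + 1 := ⟨s - 1, by omega⟩
  rw [← Lm_ins (i := i) (by omega), map_mul, up_G, ← mul_assoc, nf0_l t haj]

variable [Snd X]

theorem lk_ex {N : ℕ} {h : Cob X} (H : NL 0 N h) : ∃ A, Smt A ∧ Lk N h A := by
  obtain ⟨k, hk, R⟩ := hd_lin H le_rfl
  rw [nl_E H, E_zero, one_mul] at R
  exact ⟨_, fun i j => by simp only [lkl_symm k i j], lk_sim (lk_ops (lk_Et N) hk) R.sim.symm⟩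

theorem bh {N p : ℕ} {h h' : Cob X} (H : NL 0 N h) (H' : NL 0 N h') (hp : p ≤ N)
    (hE : h * E p = h' * E p) {A : ℕ → ℕ → ℤ} (hA : Lk N h A) (hA' : Lk N h' A) :
    Rel2 (· < p) h h' := by
  obtain ⟨k, hk, R⟩ := hd_lin H hp
  obtain ⟨k', hk', R'⟩ := hd_lin H' hp
  refine R.trans (.trans ?_ R'.symm)
  rw [hE]
  refine .left _ (lu hk hk' fun i hi j hj => ?_)
  have h1 := lk_uniq (lk_sim hA R.sim) (lk_ops (lk_del hA hp) hk) hi hj
  have h2 := lk_uniq (lk_sim hA' R'.sim) (lk_ops (lk_del hA' hp) hk') hi hj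
  exact add_left_cancel (h1.symm.trans h2)

theorem bh0 {N : ℕ} {h h' : Cob X} (H : NL 0 N h) (H' : NL 0 N h') {A : ℕ → ℕ → ℤ}
    (hA : Lk N h A) (hA' : Lk N h' A) : Sim 1 h h' := by
  exact (bh H H' le_rfl ((nl_E H).trans (nl_E H').symm) hA hA').sim

theorem clr_z {o s a j : ℕ} (ha : a < o) (hj : j < s) (z : ℤ) {h : Cob X} {A : ℕ → ℕ → ℤ}
    (H : NL 0 (o + s) h) (hA : Lk (o + s) h A) (hS : Smt A) :
    ∃ (h' : Cob X) (A' : ℕ → ℕ → ℤ), NL 0 (o + s) h' ∧ Lk (o + s) h' A' ∧ Smt A' ∧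
      h' * up o (Lm s) = h * up o (Lm s) ∧ (∀ x y, x ≠ a → y ≠ a → A' x y = A x y) ∧
      ∀ y, y ≠ a → A' a y = A a y + z * A (o + j) y := by
  have st : ∀ (t : Bool) (z : ℤ), (∃ (h' : Cob X) (A' : ℕ → ℕ → ℤ), NL 0 (o + s) h' ∧
      Lk (o + s) h' A' ∧ Smt A' ∧ h' * up o (Lm s) = h * up o (Lm s) ∧
      (∀ x y, x ≠ a → y ≠ a → A' x y = A x y) ∧ ∀ y, y ≠ a → A' a y = A a y + z * A (o + j) y) →
      ∃ (h' : Cob X) (A' : ℕ → ℕ → ℤ), NL 0 (o + s) h' ∧
      Lk (o + s) h' A' ∧ Smt A' ∧ h' * up o (Lm s) = h * up o (Lm s) ∧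
      (∀ x y, x ≠ a → y ≠ a → A' x y = A x y) ∧
      ∀ y, y ≠ a → A' a y = A a y + (z + if t then 1 else -1) * A (o + j) y := by
    rintro t z ⟨h', A', k1, k2, k3, k4, k5, k6⟩
    have n : a ≠ o + j := by omega
    refine ⟨_, _, k1.mul (NL.Sl t (by omega) (by omega)),
      lk_Sl k2 t (j := o + j) (by omega) (by omega) n, fun x y => ?_, ?_, fun x y hx hy => ?_,
      fun y hy => ?_⟩
    · simp only [k3 x y, k3 (o + j) y, k3 (o + j) x, and_comm (a := x = a)]
      ring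
    · rw [mul_assoc, sl_Lm t (by omega) (by omega) n, k4]
    · simp [hx, hy, k5 x y hx hy]
    · simp only [hy, k6 y hy, k5 _ y n.symm hy, if_true, if_false, and_false]
      ring
  induction z using Int.induction_on with
  | zero => exact ⟨h, A, H, hA, hS, rfl, fun _ _ _ _ => rfl, fun _ _ => by simp⟩
  | succ i ih => exact st true _ ih
  | pred i ih => exact st false _ ih

theorem nf0_row {o s a : ℕ} (ha : a < o) (z : ℕ → ℤ) {h : Cob X} {A : ℕ → ℕ → ℤ}
    (H : NL 0 (o + s) h) (hA : Lk (o + s) h A) (hS : Smt A) {k : ℕ} (hk : k ≤ s) :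
    ∃ (h' : Cob X) (A' : ℕ → ℕ → ℤ), NL 0 (o + s) h' ∧ Lk (o + s) h' A' ∧ Smt A' ∧
      h' * up o (Lm s) = h * up o (Lm s) ∧ (∀ x y, x ≠ a → y ≠ a → A' x y = A x y) ∧
      ∀ y, y ≠ a → A' a y = A a y + ∑ i ∈ Finset.range k, z i * A (o + i) y := by
  induction k with
  | zero => exact ⟨h, A, H, hA, hS, rfl, fun _ _ _ _ => rfl, fun _ _ => by simp⟩
  | succ k ih =>
    obtain ⟨h', A', k1, k2, k3, k4, k5, k6⟩ := ih (by omega)
    obtain ⟨h2, A2, m1, m2, m3, m4, m5, m6⟩ := clr_z ha (j := k) hk (z k) k1 k2 k3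
    refine ⟨h2, A2, m1, m2, m3, m4.trans k4, fun x y hx hy => (m5 x y hx hy).trans (k5 x y hx hy),
      fun y hy => ?_⟩
    rw [m6 y hy, k6 y hy, k5 _ y (by omega) hy, Finset.sum_range_succ, add_assoc]

theorem clr {o s p : ℕ} (hp : p ≤ o) {h : Cob X} {A : ℕ → ℕ → ℤ} (H : NL 0 (o + s) h)
    (hA : Lk (o + s) h A) (hS : Smt A) (hU : Unm A o s) :
    ∃ (h' : Cob X) (A' : ℕ → ℕ → ℤ), NL 0 (o + s) h' ∧ Lk (o + s) h' A' ∧ Smt A' ∧
      h' * up o (Lm s) = h * up o (Lm s) ∧ ∀ a < p, ∀ j < s, A' a (o + j) = 0 := by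
  suffices ∃ (h' : Cob X) (A' : ℕ → ℕ → ℤ), (NL 0 (o + s) h' ∧ Lk (o + s) h' A' ∧ Smt A' ∧
      h' * up o (Lm s) = h * up o (Lm s) ∧ ∀ a < p, ∀ j < s, A' a (o + j) = 0) ∧ Unm A' o s from
    this.imp fun _ k => k.imp fun _ k => k.1
  induction p with
  | zero => exact ⟨h, A, ⟨H, hA, hS, rfl, fun _ k => absurd k (Nat.not_lt_zero _)⟩, hU⟩
  | succ p ih =>
    obtain ⟨h', A', ⟨k1, k2, k3, k4, k5⟩, k6⟩ := ih (by omega)
    obtain ⟨z, hz⟩ := unm_surj k6 fun j => A' p (o + j)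
    obtain ⟨h2, A2, m1, m2, m3, m4, m5, m6⟩ := nf0_row (a := p) hp z k1 k2 k3 le_rfl
    refine ⟨h2, A2, ⟨m1, m2, m3, m4.trans k4, fun a ha j hj => ?_⟩,
      unm_congr k6 fun i _ j _ => (m5 _ _ (by omega) (by omega)).symm⟩
    by_cases c : a = p
    · rw [c, m6 _ (by omega), hz j hj]
    · rw [m5 _ _ c (by omega), k5 a (by omega) j hj]

theorem nf0 {p n : ℕ} {x : Cob X} (hx : Ty 0 (p + n) x) (hs : Std n (x * E p)) :
    ∃ l, Val p (p + n) l ∧ Rel2 (· < p) x (x * E p * Et p * Ops l) := by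
  obtain ⟨s, h, H, rfl⟩ := nf hx
  obtain ⟨A, hS, hA⟩ := lk_ex H
  obtain ⟨h', A', k1, k2, k3, k4, k5⟩ := clr (Nat.le_add_right p n) H hA hS (unm_of_std hA hs)
  obtain ⟨l, hl, -, e⟩ := exists_list p (p + n) A' k3
  have hl' : Val p (p + n + s) l := hl.mono (Nat.le_add_right _ _)
  have n1 : NL (p + n) (p + n) (E p * Et p * Ops l : Cob X) :=
    (((NL.E p).wide (q' := n) (by omega) (by omega)).mul
      ((NL.Et p).wide (by omega) (by omega))).mul (NL.Ops hl)
  have R := bh (p := p) k1 (k1.mul (n1.wide (by omega) rfl)) (by omega)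
    (by rw [mul_assoc, mul_assoc, ops_E hl, mul_assoc, Et_E, mul_one]) k2 (by
      rw [← mul_assoc, ← mul_assoc]
      refine lk_congr (lk_ops (lk_del k2 (by omega)) hl') fun x hx y hy => ?_
      by_cases c : p + n ≤ x ∨ p + n ≤ y
      · rw [lkl_out hl c, add_zero]
        split_ifs with c'
        · rcases c' with c' | c'
          · obtain ⟨j, rfl⟩ := Nat.exists_eq_add_of_le (show p + n ≤ y by omega)
            exact (k5 x c' j (by omega)).symm
          · obtain ⟨j, rfl⟩ := Nat.exists_eq_add_of_le (show p + n ≤ x by omega)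
            exact ((k3 _ _).trans (k5 y c' j (by omega))).symm
        · rfl
      · rw [e x (by omega) y (by omega)]
        split_ifs <;> simp)
  have R' := R.right' (k := up (p + n) (Lm s)) fun a ha => DP.farR (by omega) _
  refine ⟨l, hl, ?_⟩
  have fr := far n1.ty 0 (Lm s)
  rw [Nat.add_zero] at fr
  rw [mul_assoc h', fr, ← mul_assoc, k4] at R'
  simpa only [mul_assoc] using R'

end Pool.Agent.GH
end
end
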