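import Pool.Agent.Work.MP_c00b06_gt.Defs

-- merged part: Pool.Agent.Work.MP_c00b06_gt.Mac
section
-- merged part: Pool.Agent.Work.MP_c00b06_gt.Base
section
/-! The monoid of words modulo moves, shifts, typing, block braids. -/

namespace Pool.Agent.GH
open Gn

variable {X : Wd → Wd → Prop}

def mk (x : Wd) : Cob X := Quot.mk (Step X) x

theorem sh_sh (i j : ℕ) (x : Wd) : sh i (sh j x) = sh (i + j) x := by
  simp [sh, Nat.add_assoc]

theorem sh_app (i : ℕ) (x y : Wd) : sh i (x ++ y) = sh i x ++ sh i y := by simp [sh]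

theorem sh_zero (x : Wd) : sh 0 x = x := by simp [sh]

theorem step_left (z : Wd) {x y : Wd} (h : Step X x y) : Step X (z ++ x) (z ++ y) := by
  obtain ⟨p, q, i, a, b, h⟩ := h
  have := Step.mk (X := X) (z ++ p) q i a b h
  simpa [List.append_assoc] using this

theorem step_right (z : Wd) {x y : Wd} (h : Step X x y) : Step X (x ++ z) (y ++ z) := by
  obtain ⟨p, q, i, a, b, h⟩ := h
  have := Step.mk (X := X) p (q ++ z) i a b h
  simpa [List.append_assoc] using this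

theorem step_sh (k : ℕ) {x y : Wd} (h : Step X x y) : Step X (sh k x) (sh k y) := by
  obtain ⟨p, q, i, a, b, h⟩ := h
  have := Step.mk (X := X) (sh k p) (sh k q) (k + i) a b h
  simpa [sh_app, sh_sh] using this

instance : Mul (Cob X) :=
  ⟨Quot.map₂ (· ++ ·) (fun a _ _ h => step_left a h) (fun _ _ b h => step_right b h)⟩

instance : One (Cob X) := ⟨mk []⟩

theorem mk_app (x y : Wd) : (mk (x ++ y) : Cob X) = mk x * mk y := rfl

theorem mk_nil : (mk [] : Cob X) = 1 := rfl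

theorem ind {p : Cob X → Prop} (h : ∀ x, p (mk x)) (f : Cob X) : p f := Quot.ind h f

instance : Monoid (Cob X) where
  mul_assoc a b c := by
    induction a using ind; induction b using ind; induction c using ind
    simp only [← mk_app, List.append_assoc]
  one_mul a := by induction a using ind; rw [← mk_nil, ← mk_app]; rfl
  mul_one a := by induction a using ind; rw [← mk_nil, ← mk_app, List.append_nil]

/-- Shift by `i` handles. -/
def up (i : ℕ) : Cob X →* Cob X where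
  toFun := Quot.map (sh i) (fun _ _ h => step_sh i h)
  map_one' := rfl
  map_mul' a b := by
    induction a using ind; induction b using ind
    exact congrArg mk (sh_app i _ _)

theorem up_mk (i : ℕ) (x : Wd) : up i (mk x : Cob X) = mk (sh i x) := rfl

theorem up_up (i j : ℕ) (f : Cob X) : up i (up j f) = up (i + j) f := by
  induction f using ind; simp only [up_mk, sh_sh]

theorem up_zero (f : Cob X) : up 0 f = f := by
  induction f using ind; simp only [up_mk, sh_zero]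

/-- The generator `g` at position `i`. -/
def G (g : Gn) (i : ℕ) : Cob X := mk [(i, g)]

theorem up_G (i j : ℕ) (g : Gn) : up i (G g j : Cob X) = G g (i + j) := rfl

theorem mk_cons (i : ℕ) (g : Gn) (x : Wd) : (mk ((i, g) :: x) : Cob X) = G g i * mk x := rfl

theorem mk_ax {x y : Wd} (h : Ax x y) : (mk x : Cob X) = mk y := by
  have := Quot.sound (Step.mk (X := X) [] [] 0 x y (Or.inl h))
  simp only [sh_zero, List.nil_append, List.append_nil] at this
  exact this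

theorem mk_tab {x y : Wd} (h : (x, y) ∈ axs) : (mk x : Cob X) = mk y := mk_ax (Ax.tab (x, y) h)

/-- `f` is represented by a composable word from `p` handles to `q` handles. -/
def Ty (p q : ℕ) (f : Cob X) : Prop := ∃ x, mk x = f ∧ Ok p x q

theorem ok_app {p q r : ℕ} {x y : Wd} (hx : Ok p x q) (hy : Ok q y r) : Ok p (x ++ y) r := by
  induction x generalizing p with
  | nil => cases hx; exact hy
  | cons a x ih => exact ⟨hx.1, ih hx.2⟩

theorem ok_sh (i : ℕ) {p q : ℕ} {x : Wd} (hx : Ok p x q) : Ok (i + p) (sh i x) (i + q) := by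
  induction x generalizing p with
  | nil => cases hx; rfl
  | cons a x ih =>
    refine ⟨by have := hx.1; show i + a.1 + a.2.ar ≤ i + p; omega, ?_⟩
    have h := ih hx.2
    have h1 := hx.1
    have e : i + p - a.2.ar + a.2.co = i + (p - a.2.ar + a.2.co) := by omega
    show Ok (i + p - a.2.ar + a.2.co) (sh i x) (i + q)
    rw [e]; exact h

theorem ok_pad (j : ℕ) {p q : ℕ} {x : Wd} (hx : Ok p x q) : Ok (p + j) x (q + j) := by
  induction x generalizing p with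
  | nil => cases hx; rfl
  | cons a x ih =>
    have h1 := hx.1
    refine ⟨by omega, ?_⟩
    have e : p + j - a.2.ar + a.2.co = p - a.2.ar + a.2.co + j := by omega
    rw [e]; exact ih hx.2

theorem Ty.one (p : ℕ) : Ty p p (1 : Cob X) := ⟨[], rfl, rfl⟩

theorem Ty.mul {p q r : ℕ} {f g : Cob X} (hf : Ty p q f) (hg : Ty q r g) : Ty p r (f * g) := by
  obtain ⟨x, rfl, hx⟩ := hf
  obtain ⟨y, rfl, hy⟩ := hg
  exact ⟨x ++ y, rfl, ok_app hx hy⟩

theorem Ty.up (i : ℕ) {p q : ℕ} {f : Cob X} (hf : Ty p q f) : Ty (i + p) (i + q) (up i f) := by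
  obtain ⟨x, rfl, hx⟩ := hf
  exact ⟨sh i x, rfl, ok_sh i hx⟩

theorem Ty.pad (j : ℕ) {p q : ℕ} {f : Cob X} (hf : Ty p q f) : Ty (p + j) (q + j) f := by
  obtain ⟨x, rfl, hx⟩ := hf
  exact ⟨x, rfl, ok_pad j hx⟩

theorem Ty.cast {p q p' q' : ℕ} {f : Cob X} (hf : Ty p q f) (hp : p = p') (hq : q = q') :
    Ty p' q' f := hp ▸ hq ▸ hf

/-- Shift and pad at once; close the two side goals by `omega`. -/
theorem Ty.at {p q p' q' : ℕ} {f : Cob X} (hf : Ty p q f) (i : ℕ) (h1 : i + p ≤ p')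
    (h2 : q' + p = p' + q) : Ty p' q' (GH.up i f) :=
  ((hf.up i).pad (p' - (i + p))).cast (by omega) (by omega)

theorem Ty.wide {p q p' q' : ℕ} {f : Cob X} (hf : Ty p q f) (h1 : p ≤ p')
    (h2 : q' + p = p' + q) : Ty p' q' f :=
  (hf.pad (p' - p)).cast (by omega) (by omega)

theorem Ty.G (g : Gn) (i : ℕ) {p q : ℕ} (h1 : i + g.ar ≤ p) (h2 : q + g.ar = p + g.co) :
    Ty p q (G g i : Cob X) :=
  ⟨[(i, g)], rfl, h1, by show p - g.ar + g.co = q; omega⟩

theorem Ty.mk {p q : ℕ} {x : Wd} (h : Ok p x q) : Ty p q (mk x : Cob X) := ⟨x, rfl, h⟩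

/-- Induction over typed elements, adding letters at the end. -/
theorem Ty.ind_end {p : ℕ} {C : ℕ → Cob X → Prop} (h1 : C p 1)
    (h2 : ∀ q f g i, Ty p q f → C q f → i + g.ar ≤ q → C (q - g.ar + g.co) (f * GH.G g i))
    {q : ℕ} {f : Cob X} (hf : Ty p q f) : C q f := by
  obtain ⟨x, rfl, hx⟩ := hf
  suffices H : ∀ (x : Wd) (r : ℕ) (f : Cob X), Ty p r f → C r f → Ok r x q → C q (f * GH.mk x) by
    simpa using H x p 1 (Ty.one p) h1 hx
  intro x
  induction x with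
  | nil => intro r f _ hc ho; cases ho; simpa [mk_nil] using hc
  | cons a x ih =>
    intro r f hf hc ho
    obtain ⟨i, g⟩ := a
    rw [mk_cons, ← mul_assoc]
    have h0 : i + g.ar ≤ r := ho.1
    exact ih _ _ (hf.mul (Ty.G g i h0 (by omega))) (h2 r f g i hf hc h0) ho.2

theorem exists_ty (f : Cob X) : ∃ p q, Ty p q f := by
  induction f using ind with
  | h x =>
    induction x with
    | nil => exact ⟨0, 0, Ty.one 0⟩
    | cons a x ih =>
      obtain ⟨p, q, h⟩ := ih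
      obtain ⟨i, g⟩ := a
      rw [mk_cons]
      exact ⟨i + g.ar + p, q + i + g.co,
        (Ty.G g i (q := i + g.co + p) (by omega) (by omega)).mul (h.wide (by omega) (by omega))⟩

theorem far_G (g h : Gn) (i j : ℕ) (hij : i + g.co ≤ j) :
    (G g i * G h j : Cob X) = G h (j - g.co + g.ar) * G g i := by
  have := congrArg (up i) (mk_ax (X := X) (Ax.far g h (j - i - g.co)))
  simp only [mk_cons, mk_nil, mul_one, map_mul, up_G, Nat.add_zero] at this
  rw [show j = i + (g.co + (j - i - g.co)) by omega, this]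
  congr 2; omega

theorem far_Gf (g : Gn) (i j : ℕ) (hij : i + g.co ≤ j) (h : Cob X) :
    G g i * up j h = up (j - g.co + g.ar) h * G g i := by
  induction h using ind with
  | h x =>
    induction x with
    | nil => simp [mk_nil]
    | cons a x ih =>
      obtain ⟨k, t⟩ := a
      rw [mk_cons, map_mul, map_mul, up_G, up_G, ← mul_assoc, far_G g t i (j + k) (by omega),
        mul_assoc, ih, ← mul_assoc]
      congr 3; omega

/-- Interchange law. -/
theorem far {p q : ℕ} {f : Cob X} (hf : Ty p q f) (k : ℕ) (h : Cob X) :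
    f * up (q + k) h = up (p + k) h * f := by
  refine Ty.ind_end (p := p) (C := fun q f => f * up (q + k) h = up (p + k) h * f) ?_ ?_ hf
  · simp
  · intro q f g i _ ih hi
    rw [mul_assoc, far_Gf g i _ (by omega), ← mul_assoc,
      show q - g.ar + g.co + k - g.co + g.ar = q + k by omega, ih, mul_assoc]

/-- Interchange law at an offset. -/
theorem far_at {p q : ℕ} {f : Cob X} (hf : Ty p q f) (i j j' : ℕ) (h1 : i + q ≤ j)
    (h2 : j' + q = j + p) (h : Cob X) : up i f * up j h = up j' h * up i f := by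
  have := far (hf.up i) (j - (i + q)) h
  rwa [show i + q + (j - (i + q)) = j by omega, show i + p + (j - (i + q)) = j' by omega] at this

/-- `true` is `P` (the left handle passes over), `false` is `Q`. -/
def cr (s : Bool) : Gn := if s then P else Q

/-- The left block of `p` handles crosses the right block of `q` handles. -/
def B (s : Bool) : ℕ → ℕ → Cob X
  | 0, _ => 1
  | p + 1, q => up 1 (B s p q) * mk (br (cr s) q)

theorem B_zero_left (s : Bool) (q : ℕ) : (B s 0 q : Cob X) = 1 := rfl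

theorem B_one_left (s : Bool) (q : ℕ) : (B s 1 q : Cob X) = mk (br (cr s) q) := by simp [B]

theorem B_succ_left (s : Bool) (p q : ℕ) :
    (B s (p + 1) q : Cob X) = up 1 (B s p q) * B s 1 q := by rw [B_one_left]; rfl

theorem B_one_succ (s : Bool) (q : ℕ) : (B s 1 (q + 1) : Cob X) = B s 1 q * G (cr s) q := by
  simp only [B_one_left, br, List.range_succ, List.map_append, mk_app]; rfl

theorem B_zero_right (s : Bool) (p : ℕ) : (B s p 0 : Cob X) = 1 := by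
  induction p with
  | zero => rfl
  | succ p ih => simp [B, ih, br, mk_nil]

theorem B_one_one (s : Bool) : (B s 1 1 : Cob X) = G (cr s) 0 := by
  rw [B_one_succ, B_zero_right, one_mul]

theorem cr_ar (s : Bool) : (cr s).ar = 2 := by cases s <;> rfl

theorem cr_co (s : Bool) : (cr s).co = 2 := by cases s <;> rfl

theorem B_one_ty (s : Bool) (q : ℕ) : Ty (q + 1) (q + 1) (B s 1 q : Cob X) := by
  induction q with
  | zero => rw [B_zero_right]; exact Ty.one _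
  | succ q ih =>
    rw [B_one_succ]
    exact (ih.pad 1).mul (Ty.G _ _ (by rw [cr_ar]) (by rw [cr_ar, cr_co]))

theorem B_ty (s : Bool) (p q : ℕ) : Ty (p + q) (q + p) (B s p q : Cob X) := by
  induction p with
  | zero => exact (Ty.one _).cast rfl (by omega)
  | succ p ih =>
    rw [B_succ_left]
    exact (ih.at 1 (q' := q + (p + 1)) (by omega) (by omega)).mul
      ((B_one_ty s q).wide (by omega) (by omega))

theorem B_add_left (s : Bool) (p p' q : ℕ) :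
    (B s (p + p') q : Cob X) = up p (B s p' q) * B s p q := by
  induction p with
  | zero => simp [B_zero_left, up_zero]
  | succ p ih =>
    rw [show p + 1 + p' = p + p' + 1 by omega, B_succ_left, ih, B_succ_left s p, map_mul, up_up,
      mul_assoc, Nat.add_comm 1 p]

theorem B_one_add (s : Bool) (q q' : ℕ) :
    (B s 1 (q + q') : Cob X) = B s 1 q * up q (B s 1 q') := by
  induction q' with
  | zero => simp [B_zero_right]
  | succ r ih => rw [← Nat.add_assoc, B_one_succ, B_one_succ, ih, map_mul, up_G, mul_assoc]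

theorem B_add_right (s : Bool) (p q q' : ℕ) :
    (B s p (q + q') : Cob X) = B s p q * up q (B s p q') := by
  induction p with
  | zero => simp [B_zero_left]
  | succ p ih =>
    have h := far (B_one_ty (X := X) s q) 0 (B s p q')
    rw [B_succ_left, B_succ_left s p, B_succ_left s p, ih, B_one_add, map_mul, map_mul, up_up,
      up_up, mul_assoc, mul_assoc, ← mul_assoc (B s 1 q), ← mul_assoc (up (1 + q) _),
      Nat.add_comm 1 q, ← h]

theorem cr_inv (s : Bool) (i : ℕ) : (G (cr s) i * G (cr (!s)) i : Cob X) = 1 := by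
  have h1 : (mk [(0, P), (0, Q)] : Cob X) = mk [] := mk_tab (by simp [axs])
  have h2 : (mk [(0, Q), (0, P)] : Cob X) = mk [] := mk_tab (by simp [axs])
  cases s
  · exact (congrArg (up i) h2 :)
  · exact (congrArg (up i) h1 :)

theorem B_one_inv (s : Bool) (q : ℕ) : (B s 1 q * B (!s) q 1 : Cob X) = 1 := by
  induction q with
  | zero => simp [B_zero_right, B_zero_left]
  | succ q ih =>
    rw [B_one_succ, B_add_left, B_one_one, up_G, Nat.add_zero, mul_assoc,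
      ← mul_assoc (G (cr s) q), cr_inv, one_mul, ih]

theorem B_inv (s : Bool) (p q : ℕ) : (B s p q * B (!s) q p : Cob X) = 1 := by
  induction p with
  | zero => simp [B_zero_right, B_zero_left]
  | succ p ih =>
    rw [B_succ_left, Nat.add_comm p 1, B_add_right, mul_assoc, ← mul_assoc (B s 1 q), B_one_inv,
      one_mul, ← map_mul, ih, map_one]

theorem B_inv' (s : Bool) (p q : ℕ) : (B (!s) p q * B s q p : Cob X) = 1 := by
  simpa using B_inv (X := X) (!s) p q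

theorem nat_G (s : Bool) (g : Gn) (i r : ℕ) :
    (B s 1 (i + g.ar + r) * G g i : Cob X) = G g (1 + i) * B s 1 (i + g.co + r) := by
  have h0 : (B s 1 g.ar * G g 0 : Cob X) = G g 1 * B s 1 g.co := by
    have := mk_ax (X := X) (Ax.nat (cr s) g (by cases s <;> simp [cr]))
    rw [B_one_left, B_one_left]; exact this
  have h1 := congrArg (up i) h0
  simp only [map_mul, up_G, Nat.add_zero] at h1
  have h2 := far_Gf (X := X) g i (i + g.co) le_rfl (B s 1 r)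
  rw [Nat.add_sub_cancel] at h2
  have h3 := far (B_one_ty (X := X) s i) 0 (G g 0)
  simp only [up_G, Nat.add_zero] at h3
  rw [B_one_add, B_one_add, B_one_add, B_one_add, mul_assoc, ← h2, mul_assoc, ← mul_assoc (up i _),
    h1, ← mul_assoc, ← mul_assoc, h3, Nat.add_comm 1 i]
  simp only [mul_assoc]

theorem natL_one (s : Bool) {p q : ℕ} {f : Cob X} (hf : Ty p q f) :
    B s 1 p * f = up 1 f * B s 1 q := by
  refine Ty.ind_end (p := p) (C := fun q f => B s 1 p * f = up 1 f * B s 1 q) ?_ ?_ hf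
  · simp
  · intro q f g i _ ih hi
    have h := nat_G (X := X) s g i (q - (i + g.ar))
    rw [show i + g.ar + (q - (i + g.ar)) = q by omega,
      show i + g.co + (q - (i + g.ar)) = q - g.ar + g.co by omega] at h
    rw [← mul_assoc, ih, mul_assoc, h, map_mul, up_G, mul_assoc]

/-- Naturality: a block of `k` handles coming from the left crosses `f`. -/
theorem natL (s : Bool) (k : ℕ) {p q : ℕ} {f : Cob X} (hf : Ty p q f) :
    B s k p * f = up k f * B s k q := by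
  induction k with
  | zero => simp [B_zero_left, up_zero]
  | succ k ih =>
    rw [B_succ_left, B_succ_left s k, mul_assoc, natL_one s hf, ← mul_assoc, ← map_mul, ih, map_mul,
      up_up, mul_assoc, Nat.add_comm 1 k]

/-- Naturality: a block of `k` handles coming from the right crosses `f`. -/
theorem natR (s : Bool) (k : ℕ) {p q : ℕ} {f : Cob X} (hf : Ty p q f) :
    f * B s q k = B s p k * up k f := by
  calc f * B s q k = B s p k * B (!s) k p * f * B s q k := by rw [B_inv, one_mul]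
    _ = B s p k * up k f * (B (!s) k q * B s q k) := by
      rw [mul_assoc (B s p k), natL (!s) k hf]; simp only [mul_assoc]
    _ = _ := by rw [B_inv', mul_one]

end Pool.Agent.GH
end

-- merged part: Pool.Agent.Work.MP_c00b06_gt.Chk
section
/-! A verified checker for rewriting certificates on coloured words with boxes.  Colour `c` is a
bundle of `ρ c` handles (`ρ 0 = 1`). -/

namespace Pool.Agent.GH
open Gn

variable {X : Wd → Wd → Prop}

inductive Lt where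
  | g (x : Gn)
  | b (k : ℕ)
  deriving DecidableEq

abbrev CW : Type := List (ℕ × Lt)
abbrev Sg : Type := List (List ℕ × List ℕ)

def W (ρ : ℕ → ℕ) : List ℕ → ℕ
  | [] => 0
  | c :: s => ρ c + W ρ s

theorem W_app (ρ : ℕ → ℕ) (s t : List ℕ) : W ρ (s ++ t) = W ρ s + W ρ t := by
  induction s with
  | nil => simp [W]
  | cons c s ih => simp [W, ih, Nat.add_assoc]

theorem W_rep {ρ : ℕ → ℕ} (h : ρ 0 = 1) (p : ℕ) : W ρ (List.replicate p 0) = p := by
  induction p with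
  | zero => rfl
  | succ p ih => simp [List.replicate_succ, W, ih, h, Nat.add_comm]

def isBr : Lt → Option Bool
  | .g P => some true
  | .g Q => some false
  | _ => none

def sig0 (sg : Sg) : Lt → Option (List ℕ × List ℕ)
  | .g x => some (List.replicate x.ar 0, List.replicate x.co 0)
  | .b k => sg[k]?

def sig (sg : Sg) (t : List ℕ) (a : Lt) : Option (List ℕ × List ℕ) :=
  match isBr a with
  | some _ => match t with
    | x :: y :: _ => some ([x, y], [y, x])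
    | _ => none
  | none => (sig0 sg a).bind fun r => if r.1.isPrefixOf t then some r else none

inductive Sy where
  | g (x : Gn)
  | br (s : Bool) (x y : ℕ)
  | b (k : ℕ)
  deriving DecidableEq

def sy (t : List ℕ) (a : Lt) : Sy :=
  match isBr a with
  | some s => .br s (t.getD 0 0) (t.getD 1 0)
  | none => match a with
    | .g x => .g x
    | .b k => .b k

def val (ρ : ℕ → ℕ) (env : List (Cob X)) : Sy → Cob X
  | .g x => G x 0
  | .br s x y => B s (ρ x) (ρ y)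
  | .b k => env.getD k 1

def nx (sg : Sg) (s : List ℕ) (x : ℕ × Lt) : Option (List ℕ) :=
  if x.1 ≤ s.length then
    (sig sg (s.drop x.1) x.2).map fun r => s.take x.1 ++ r.2 ++ s.drop (x.1 + r.1.length)
  else none

def tgt (sg : Sg) : List ℕ → CW → Option (List ℕ)
  | s, [] => some s
  | s, x :: r => (nx sg s x).bind fun t => tgt sg t r

def cmp (sg : Sg) : List ℕ → CW → List (List ℕ × Sy)
  | _, [] => []
  | s, x :: r => (s.take x.1, sy (s.drop x.1) x.2) :: cmp sg ((nx sg s x).getD []) r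

def ev2 (ρ : ℕ → ℕ) (env : List (Cob X)) : List (List ℕ × Sy) → Cob X
  | [] => 1
  | x :: r => up (W ρ x.1) (val ρ env x.2) * ev2 ρ env r

def csh (o : ℕ) (x : CW) : CW := x.map fun a => (o + a.1, a.2)

def pu (x : Wd) : CW := x.map fun a => (a.1, .g a.2)

def okb : ℕ → Wd → Bool
  | _, [] => true
  | p, a :: x => decide (a.1 + a.2.ar ≤ p) && okb (p - a.2.ar + a.2.co) x

def brL (s : Bool) : ℕ → CW
  | 0 => []
  | n + 1 => (0, .g (cr s)) :: csh 1 (brL s n)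

def brR (s : Bool) : ℕ → CW
  | 0 => []
  | n + 1 => csh 1 (brR s n) ++ [(0, .g (cr s))]

inductive Kd where
  | far (a : Lt) (k : ℕ) (c : Lt)
  | can (s : Bool)
  | nl (s : Bool) (a : Lt)
  | nr (s : Bool) (a : Lt)
  | pu (k p : ℕ)
  | co (k : ℕ)

abbrev CR : Type := List ℕ × CW × CW

def gen (sg : Sg) (rp : List (Wd × Wd)) (rc : List CR) (t : List ℕ) : Kd → Option (CW × CW)
  | .far a k c => (sig sg t a).map fun r =>
      ([(0, a), (r.2.length + k, c)], [(r.1.length + k, c), (0, a)])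
  | .can s => some ([(0, .g (cr s)), (0, .g (cr (!s)))], [])
  | .nl s a => (sig sg (t.drop 1) a).map fun r =>
      (brL s r.1.length ++ [(0, a)], (1, a) :: brL s r.2.length)
  | .nr s a => (sig sg t a).map fun r =>
      ((0, a) :: brR s r.2.length, brR s r.1.length ++ [(1, a)])
  | .pu k p => (rp[k]?).bind fun r =>
      if (List.replicate p 0).isPrefixOf t && okb p r.1 && okb p r.2 then some (pu r.1, pu r.2)
      else none
  | .co k => (rc[k]?).bind fun r =>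
      if r.1.isPrefixOf t && (tgt sg r.1 r.2.1).isSome && (tgt sg r.1 r.2.2).isSome then some r.2
      else none

abbrev Sp : Type := ℕ × ℕ × Bool × Kd

def app (sg : Sg) (rp : List (Wd × Wd)) (rc : List CR) (s : List ℕ) (x : CW) (c : Sp) :
    Option CW :=
  (tgt sg s (x.take c.1)).bind fun t => (gen sg rp rc (t.drop c.2.1) c.2.2.2).bind fun r =>
    if decide (c.2.1 ≤ t.length) && (tgt sg (t.drop c.2.1) r.1).isSome &&
        decide (tgt sg (t.drop c.2.1) r.1 = tgt sg (t.drop c.2.1) r.2) &&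
        (csh c.2.1 (if c.2.2.1 then r.1 else r.2)).isPrefixOf (x.drop c.1) then
      some (x.take c.1 ++ csh c.2.1 (if c.2.2.1 then r.2 else r.1) ++
        x.drop (c.1 + (if c.2.2.1 then r.1 else r.2).length))
    else none

def runc (sg : Sg) (rp : List (Wd × Wd)) (rc : List CR) (s : List ℕ) : CW → List Sp → Option CW
  | x, [] => some x
  | x, c :: cs => (app sg rp rc s x c).bind fun y => runc sg rp rc s y cs

def EnvOk (ρ : ℕ → ℕ) : Sg → List (Cob X) → Prop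
  | [], _ => True
  | r :: sg, env => Ty (W ρ r.1) (W ρ r.2) (env.headD 1) ∧ EnvOk ρ sg env.tail

def PuOk (X : Wd → Wd → Prop) : List (Wd × Wd) → Prop
  | [] => True
  | r :: rp => (mk r.1 : Cob X) = mk r.2 ∧ PuOk X rp

def CoOk (ρ : ℕ → ℕ) (env : List (Cob X)) : List (List (List ℕ × Sy) × List (List ℕ × Sy)) → Prop
  | [] => True
  | r :: rc => ev2 ρ env r.1 = ev2 ρ env r.2 ∧ CoOk ρ env rc

theorem puOk_axs : PuOk X axs := by
  suffices H : ∀ rp : List (Wd × Wd), (∀ r ∈ rp, r ∈ axs) → PuOk X rp from H _ fun _ h => h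
  intro rp h
  induction rp with
  | nil => trivial
  | cons r rp ih => exact ⟨mk_tab (h r (by simp)), ih fun r hr => h r (by simp [hr])⟩

theorem puOk_app {a c : List (Wd × Wd)} (ha : PuOk X a) (hc : PuOk X c) : PuOk X (a ++ c) := by
  induction a with
  | nil => exact hc
  | cons r a ih => exact ⟨ha.1, ih ha.2⟩

def chk (sg : Sg) (rp : List (Wd × Wd)) (rc : List CR)
    (cc : List (List (List ℕ × Sy) × List (List ℕ × Sy))) (s : List ℕ) (x y : CW)
    (cx cy : List (List ℕ × Sy)) (cs : List Sp) : Bool :=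
  decide (runc sg (rp ++ axs) rc s x cs = some y) && decide (cmp sg s x = cx) &&
    decide (cmp sg s y = cy) &&
    decide (rc.map (fun r => (cmp sg r.1 r.2.1, cmp sg r.1 r.2.2)) = cc)

/- PLAN.  Put `evc s x := ev2 ρ env (cmp sg s x)`.
 (1) `val_ty`: `sig sg t a = some (i, o)` gives `t = i ++ r` and `Ty (W ρ i) (W ρ o) (val ρ env (sy t a))`
   (braids: `B_ty`; generators `Ty.G`, `W_rep`; boxes: `EnvOk`, induction on `sg`), and
   `sig sg (i ++ r') a = some (i, o)`, `sy (i ++ r') a = sy (i ++ r) a` for every `r'`.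
 (2) `tgt s x = some t` gives `tgt s (x ++ y) = tgt t y` and `cmp s (x ++ y) = cmp s x ++ cmp t y`;
   `ev2` of an append is the product.
 (3) offset: `o ≤ s.length`, `tgt (s.drop o) x = some t` give `tgt s (csh o x) = some (s.take o ++ t)` and
   `evc s (csh o x) = up (W ρ (s.take o)) (evc (s.drop o) x)` (write `s = a ++ c`, `o = a.length`,
   induction on `x` generalizing `c`; `W_app`, `up_up`).
 (4) padding: `tgt s x = some t` gives `tgt (s ++ r) x = some (t ++ r)`, `cmp (s ++ r) x = cmp s x`.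
 (5) `evc (c :: i ++ r) (brL s i.length) = B s (ρ c) (W ρ i)` with target `i ++ c :: r` (`B_add_right`), and
   `evc (i ++ c :: r) (brR s i.length) = B s (W ρ i) (ρ c)` with target `c :: i ++ r` (`B_add_left`).
 (6) `okb p x` gives `evc (replicate p 0 ++ r) (pu x) = mk x` (target `replicate q 0 ++ r`), `B_one_one`.
 (7) `gen .. t k = some (L, R)` and both targets are `some` give `evc t L = evc t R`: `far`, `B_inv`,
   `natL`, `natR`, (6), (4).
 (8) `app` and `runc` preserve `evc s`. -/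

theorem chk_isBr (s : Bool) : isBr (.g (cr s)) = some s := by cases s <;> rfl

theorem chk_sig_br (sg : Sg) (s : Bool) (x y : ℕ) (r : List ℕ) :
    sig sg (x :: y :: r) (.g (cr s)) = some ([x, y], [y, x]) := by
  simp only [sig, chk_isBr]

theorem chk_sy_br (s : Bool) (x y : ℕ) (r : List ℕ) :
    sy (x :: y :: r) (.g (cr s)) = .br s x y := by
  simp [sy, chk_isBr]

theorem chk_sig_pre {sg : Sg} {t i o : List ℕ} {a : Lt} (h : sig sg t a = some (i, o)) :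
    ∃ r, t = i ++ r := by
  unfold sig at h
  split at h
  · split at h
    · rename_i x y r
      cases h
      exact ⟨r, rfl⟩
    · cases h
  · obtain ⟨r, -, h2⟩ := Option.bind_eq_some_iff.1 h
    split at h2
    · rename_i h3
      cases h2
      obtain ⟨r, hr⟩ := List.isPrefixOf_iff_prefix.1 h3
      exact ⟨r, hr.symm⟩
    · cases h2

theorem chk_sig_st {sg : Sg} {i o r : List ℕ} {a : Lt} (h : sig sg (i ++ r) a = some (i, o))
    (r' : List ℕ) : sig sg (i ++ r') a = some (i, o) ∧ sy (i ++ r') a = sy (i ++ r) a := by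
  cases hb : isBr a with
  | some s =>
    simp only [sig, hb] at h
    split at h
    · rename_i x y r'' he
      simp only [Option.some.injEq, Prod.mk.injEq] at h
      obtain ⟨rfl, rfl⟩ := h
      simp [sig, sy, hb]
    · cases h
  | none =>
    simp only [sig, hb] at h
    obtain ⟨q, h1, h2⟩ := Option.bind_eq_some_iff.1 h
    split at h2
    · cases h2
      refine ⟨?_, by simp only [sy, hb]⟩
      simp only [sig, hb, h1, Option.bind_some]
      rw [if_pos (List.isPrefixOf_iff_prefix.2 (List.prefix_append _ _))]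
    · cases h2

theorem chk_env {ρ : ℕ → ℕ} {sg : Sg} {env : List (Cob X)} (he : EnvOk ρ sg env) {k : ℕ}
    {r : List ℕ × List ℕ} (h : sg[k]? = some r) : Ty (W ρ r.1) (W ρ r.2) (env.getD k 1) := by
  induction sg generalizing env k with
  | nil => simp at h
  | cons q sg ih =>
    cases k with
    | zero =>
      simp only [List.getElem?_cons_zero, Option.some.injEq] at h
      subst h
      have := he.1
      cases env <;> simpa using this
    | succ k =>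
      have := ih he.2 (k := k) (by simpa using h)
      cases env <;> simpa using this

theorem chk_val_ty {ρ : ℕ → ℕ} {sg : Sg} {env : List (Cob X)} (h0 : ρ 0 = 1)
    (he : EnvOk ρ sg env) {t i o : List ℕ} {a : Lt} (h : sig sg t a = some (i, o)) :
    Ty (W ρ i) (W ρ o) (val ρ env (sy t a)) := by
  cases hb : isBr a with
  | some s =>
    simp only [sig, hb] at h
    split at h
    · rename_i x y r
      simp only [Option.some.injEq, Prod.mk.injEq] at h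
      obtain ⟨rfl, rfl⟩ := h
      simpa [sy, hb, val, W] using B_ty (X := X) s (ρ x) (ρ y)
    · cases h
  | none =>
    simp only [sig, hb] at h
    obtain ⟨q, h1, h2⟩ := Option.bind_eq_some_iff.1 h
    split at h2
    · cases h2
      cases a with
      | g x =>
        simp only [sig0, Option.some.injEq, Prod.mk.injEq] at h1
        obtain ⟨rfl, rfl⟩ := h1
        simp only [sy, hb, val, W_rep h0]
        exact Ty.G x 0 (by omega) (by omega)
      | b k =>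
        simp only [sy, hb, val]
        exact chk_env he h1
    · cases h2

theorem chk_nx {sg : Sg} {i o r : List ℕ} {g : Lt} (h : sig sg (i ++ r) g = some (i, o))
    (a : List ℕ) : nx sg (a ++ (i ++ r)) (a.length, g) = some (a ++ (o ++ r)) := by
  simp [nx, h, ← List.drop_drop]

theorem chk_nx_inv {sg : Sg} {s t : List ℕ} {x : ℕ × Lt} (h : nx sg s x = some t) :
    ∃ a i o r, s = a ++ (i ++ r) ∧ x.1 = a.length ∧ sig sg (i ++ r) x.2 = some (i, o) ∧
      t = a ++ (o ++ r) := by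
  unfold nx at h
  split at h
  · rename_i hl
    obtain ⟨⟨i, o⟩, h1, h2⟩ := Option.map_eq_some_iff.1 h
    obtain ⟨r, hr⟩ := chk_sig_pre h1
    refine ⟨s.take x.1, i, o, r, ?_, by simp [hl], hr ▸ h1, ?_⟩
    · rw [← hr, List.take_append_drop]
    · rw [← h2, ← List.drop_drop, hr]; simp
  · cases h

/-- `x` runs from `s` to `t` with value `f`. -/
def chk_Ev (ρ : ℕ → ℕ) (env : List (Cob X)) (sg : Sg) (s : List ℕ) (x : CW) (t : List ℕ)
    (f : Cob X) : Prop :=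
  tgt sg s x = some t ∧ ev2 ρ env (cmp sg s x) = f

section
variable {ρ : ℕ → ℕ} {env : List (Cob X)} {sg : Sg}

theorem chk_Ev_nil (s : List ℕ) : chk_Ev ρ env sg s [] s 1 := ⟨rfl, rfl⟩

theorem chk_Ev_cons {i o r : List ℕ} {g : Lt} (h : sig sg (i ++ r) g = some (i, o))
    (a : List ℕ) {x : CW} {t : List ℕ} {f : Cob X} (hx : chk_Ev ρ env sg (a ++ (o ++ r)) x t f) :
    chk_Ev ρ env sg (a ++ (i ++ r)) ((a.length, g) :: x) t
      (up (W ρ a) (val ρ env (sy (i ++ r) g)) * f) := by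
  refine ⟨?_, ?_⟩
  · simp only [tgt, chk_nx h, Option.bind_some, hx.1]
  · simp only [cmp, ev2, chk_nx h, Option.getD_some, hx.2, List.take_left', List.drop_left']

theorem chk_Ev_cast {s s' t t' : List ℕ} {x x' : CW} {f f' : Cob X} (h : chk_Ev ρ env sg s x t f)
    (h1 : s = s') (h2 : x = x') (h3 : t = t') (h4 : f = f') : chk_Ev ρ env sg s' x' t' f' := by
  subst h1 h2 h3 h4; exact h

theorem chk_tgt_cons {s t : List ℕ} {a : ℕ × Lt} {x : CW} (h : tgt sg s (a :: x) = some t) :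
    ∃ s', nx sg s a = some s' ∧ tgt sg s' x = some t := Option.bind_eq_some_iff.1 h

theorem chk_app_cmp {s t : List ℕ} {x : CW} (h : tgt sg s x = some t) (y : CW) :
    tgt sg s (x ++ y) = tgt sg t y ∧ cmp sg s (x ++ y) = cmp sg s x ++ cmp sg t y := by
  induction x generalizing s with
  | nil => cases h; exact ⟨rfl, rfl⟩
  | cons a x ih =>
    obtain ⟨s', h1, h2⟩ := chk_tgt_cons h
    simp only [List.cons_append, tgt, cmp, h1, Option.bind_some, Option.getD_some, ih h2,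
      and_self]

theorem chk_ev2_app (u v : List (List ℕ × Sy)) :
    ev2 ρ env (u ++ v) = ev2 ρ env u * ev2 ρ env v := by
  induction u with
  | nil => simp [ev2]
  | cons a u ih => simp only [List.cons_append, ev2, ih, mul_assoc]

theorem chk_Ev_app {s t w : List ℕ} {x y : CW} {f g : Cob X} (hx : chk_Ev ρ env sg s x t f)
    (hy : chk_Ev ρ env sg t y w g) : chk_Ev ρ env sg s (x ++ y) w (f * g) := by
  obtain ⟨h1, h2⟩ := chk_app_cmp hx.1 y
  exact ⟨h1.trans hy.1, by rw [h2, chk_ev2_app, hx.2, hy.2]⟩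

theorem chk_Ev_csh (a : List ℕ) {s t : List ℕ} {x : CW} {f : Cob X}
    (hx : chk_Ev ρ env sg s x t f) :
    chk_Ev ρ env sg (a ++ s) (csh a.length x) (a ++ t) (up (W ρ a) f) := by
  induction x generalizing s f with
  | nil =>
    obtain ⟨h1, rfl⟩ := hx
    cases h1
    exact chk_Ev_cast (chk_Ev_nil _) rfl rfl rfl (map_one _).symm
  | cons g x ih =>
    obtain ⟨s', h1, h2⟩ := chk_tgt_cons hx.1
    obtain ⟨c, i, o, r, rfl, h3, h4, rfl⟩ := chk_nx_inv h1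
    obtain ⟨j, g⟩ := g
    simp only at h3 h4
    subst h3
    have h5 := ih (s := c ++ (o ++ r)) ⟨h2, rfl⟩
    have h6 := chk_Ev_cons h4 c (ρ := ρ) (env := env) ⟨h2, rfl⟩
    rw [← List.append_assoc] at h5
    refine chk_Ev_cast (chk_Ev_cons h4 (a ++ c) h5) (List.append_assoc _ _ _) (by simp [csh]) rfl ?_
    rw [← hx.2, h6.2, map_mul, up_up, W_app]

theorem chk_pad {s t : List ℕ} {x : CW} (hx : tgt sg s x = some t) (r : List ℕ) :
    tgt sg (s ++ r) x = some (t ++ r) ∧ cmp sg (s ++ r) x = cmp sg s x := by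
  induction x generalizing s with
  | nil => cases hx; exact ⟨rfl, rfl⟩
  | cons g x ih =>
    obtain ⟨s', h1, h2⟩ := chk_tgt_cons hx
    obtain ⟨c, i, o, q, rfl, h3, h4, rfl⟩ := chk_nx_inv h1
    obtain ⟨j, g⟩ := g
    simp only at h3 h4
    subst h3
    obtain ⟨h5, h6⟩ := chk_sig_st h4 (q ++ r)
    obtain ⟨h7, h8⟩ := ih h2
    simp only [List.append_assoc] at h7 h8 ⊢
    simp only [tgt, cmp, chk_nx h4, chk_nx h5, Option.bind_some, Option.getD_some, h7, h8, h6,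
      List.take_left', List.drop_left', and_self]

theorem chk_brL (s : Bool) (c : ℕ) (i r : List ℕ) :
    chk_Ev ρ env sg (c :: (i ++ r)) (brL s i.length) (i ++ c :: r) (B s (ρ c) (W ρ i)) := by
  induction i with
  | nil => exact chk_Ev_cast (chk_Ev_nil _) rfl rfl rfl (B_zero_right _ _).symm
  | cons j i ih =>
    have h1 := chk_Ev_csh [j] ih
    have h2 := chk_Ev_cons (i := [c, j]) (o := [j, c]) (r := i ++ r) (chk_sig_br sg s c j _) [] h1
    refine chk_Ev_cast h2 rfl rfl rfl ?_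
    simp [chk_sy_br, val, W, up_zero, B_add_right]

theorem chk_brR (s : Bool) (c : ℕ) (i r : List ℕ) :
    chk_Ev ρ env sg (i ++ c :: r) (brR s i.length) (c :: (i ++ r)) (B s (W ρ i) (ρ c)) := by
  induction i with
  | nil => exact chk_Ev_cast (chk_Ev_nil _) rfl rfl rfl rfl
  | cons j i ih =>
    have h1 := chk_Ev_csh [j] ih
    have h2 := chk_Ev_cons (ρ := ρ) (env := env) (i := [j, c]) (o := [c, j]) (r := i ++ r)
      (chk_sig_br sg s j c _) [] (chk_Ev_nil _)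
    refine chk_Ev_cast (chk_Ev_app h1 h2) rfl rfl rfl ?_
    simp [chk_sy_br, val, W, up_zero, B_add_left]

theorem chk_brR_hd (s : Bool) (n : ℕ) : ∃ tl, brR s (n + 1) = (n, .g (cr s)) :: tl := by
  induction n with
  | zero => exact ⟨[], rfl⟩
  | succ n ih =>
    obtain ⟨tl, h⟩ := ih
    refine ⟨csh 1 tl ++ [(0, .g (cr s))], ?_⟩
    rw [brR, h]
    simp [csh, Nat.add_comm]

theorem chk_sig_pu (h0 : ρ 0 = 1) (g : Gn) (r : List ℕ) :
    sig sg (List.replicate g.ar 0 ++ r) (.g g) = some (List.replicate g.ar 0, List.replicate g.co 0)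
      ∧ val ρ env (sy (List.replicate g.ar 0 ++ r) (.g g)) = G g 0 := by
  cases g
  case P =>
    refine ⟨rfl, ?_⟩
    show B true (ρ 0) (ρ 0) = _
    rw [h0, B_one_one]; rfl
  case Q =>
    refine ⟨rfl, ?_⟩
    show B false (ρ 0) (ρ 0) = _
    rw [h0, B_one_one]; rfl
  all_goals exact ⟨by simp [sig, sig0, isBr], rfl⟩

theorem chk_pu (h0 : ρ 0 = 1) {p : ℕ} {x : Wd} (h : okb p x = true) (r : List ℕ) :
    ev2 ρ env (cmp sg (List.replicate p 0 ++ r) (pu x)) = mk x := by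
  suffices H : ∃ t, chk_Ev ρ env sg (List.replicate p 0 ++ r) (pu x) t (mk x) from H.choose_spec.2
  induction x generalizing p with
  | nil => exact ⟨_, chk_Ev_nil _⟩
  | cons a x ih =>
    obtain ⟨j, g⟩ := a
    simp only [okb, Bool.and_eq_true, decide_eq_true_eq] at h
    obtain ⟨t, ht⟩ := ih h.2
    obtain ⟨k, rfl⟩ := Nat.exists_eq_add_of_le h.1
    obtain ⟨h1, h2⟩ := chk_sig_pu (env := env) (sg := sg) h0 g (List.replicate k 0 ++ r)
    rw [show j + g.ar + k - g.ar + g.co = j + (g.co + k) by omega, List.replicate_add,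
      List.replicate_add, List.append_assoc, List.append_assoc] at ht
    refine ⟨t, chk_Ev_cast (chk_Ev_cons h1 _ ht) ?_ (by simp [pu]) rfl ?_⟩
    · simp only [List.replicate_add, List.append_assoc]
    · rw [h2, W_rep h0, up_G, mk_cons, Nat.add_zero]

theorem chk_puOk {rp : List (Wd × Wd)} (h : PuOk X rp) {k : ℕ} {r : Wd × Wd}
    (hk : rp[k]? = some r) : (mk r.1 : Cob X) = mk r.2 := by
  have hm := List.mem_of_getElem? hk
  clear hk
  induction rp with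
  | nil => cases hm
  | cons q rp ih =>
    rcases List.mem_cons.1 hm with rfl | hm
    · exact h.1
    · exact ih h.2 hm

theorem chk_coOk {cc : List (List (List ℕ × Sy) × List (List ℕ × Sy))} (h : CoOk ρ env cc)
    {r : List (List ℕ × Sy) × List (List ℕ × Sy)} (hm : r ∈ cc) :
    ev2 ρ env r.1 = ev2 ρ env r.2 := by
  induction cc with
  | nil => cases hm
  | cons q rp ih =>
    rcases List.mem_cons.1 hm with rfl | hm
    · exact h.1
    · exact ih h.2 hm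

theorem chk_gen (h0 : ρ 0 = 1) (he : EnvOk ρ sg env) {rp : List (Wd × Wd)} {rc : List CR}
    (hp : PuOk X rp)
    (hc : CoOk ρ env (rc.map fun r => (cmp sg r.1 r.2.1, cmp sg r.1 r.2.2)))
    {t w : List ℕ} {k : Kd} {L R : CW} (h : gen sg rp rc t k = some (L, R))
    (hL : tgt sg t L = some w) (hR : tgt sg t R = some w) :
    ev2 ρ env (cmp sg t L) = ev2 ρ env (cmp sg t R) := by
  cases k with
  | far a k c =>
    obtain ⟨⟨i, o⟩, h1, h2⟩ := Option.map_eq_some_iff.1 h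
    obtain ⟨r, rfl⟩ := chk_sig_pre h1
    simp only [Prod.mk.injEq] at h2
    obtain ⟨rfl, rfl⟩ := h2
    obtain ⟨s', h3, -⟩ := chk_tgt_cons hR
    obtain ⟨b, i', o', r', h4, h5, h6, -⟩ := chk_nx_inv h3
    simp only at h5 h6
    obtain ⟨d, rfl⟩ : ∃ d, b = i ++ d := by
      have h7 : i <+: b := List.prefix_of_prefix_length_le (List.prefix_append i r)
        (h4 ▸ List.prefix_append b _) (by omega)
      obtain ⟨d, hd⟩ := h7
      exact ⟨d, hd.symm⟩
    rw [List.append_assoc, List.append_cancel_left_eq] at h4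
    subst h4
    have hk : k = d.length := by simpa using h5
    subst hk
    obtain ⟨h7, h8⟩ := chk_sig_st h1 (d ++ (o' ++ r'))
    have e1 := chk_Ev_cons (ρ := ρ) (env := env) h6 (o ++ d) (chk_Ev_nil _)
    rw [List.append_assoc o d (i' ++ r')] at e1
    have e2 := chk_Ev_cons h1 [] e1
    have e3 := chk_Ev_cons (ρ := ρ) (env := env) h7 [] (chk_Ev_nil _)
    rw [List.nil_append, ← List.append_assoc i d (o' ++ r')] at e3
    have e4 := chk_Ev_cons h6 (i ++ d) e3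
    have e5 := e2.2
    have e6 := e4.2
    simp only [List.nil_append, List.length_nil, List.length_append, List.append_assoc, W,
      up_zero, mul_one, W_app, h8] at e5 e6
    rw [e5, e6]
    exact far (chk_val_ty h0 he h1) _ _
  | can s =>
    simp only [gen, Option.some.injEq, Prod.mk.injEq] at h
    obtain ⟨rfl, rfl⟩ := h
    obtain ⟨s', h3, -⟩ := chk_tgt_cons hL
    match t, h3 with
    | [], h3 => simp [nx, sig, chk_isBr] at h3
    | [x], h3 => simp [nx, sig, chk_isBr] at h3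
    | x :: y :: r, _ =>
      have e1 := chk_Ev_cons (ρ := ρ) (env := env) (i := [y, x]) (o := [x, y]) (r := r)
        (chk_sig_br sg (!s) y x _) [] (chk_Ev_nil _)
      have e2 := (chk_Ev_cons (i := [x, y]) (o := [y, x]) (r := r) (chk_sig_br sg s x y _) [] e1).2
      refine e2.trans ?_
      simp [chk_sy_br, val, W, up_zero, B_inv, cmp, ev2]
  | nl s a =>
    obtain ⟨⟨i, o⟩, h1, h2⟩ := Option.map_eq_some_iff.1 h
    simp only [Prod.mk.injEq] at h2
    obtain ⟨rfl, rfl⟩ := h2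
    obtain ⟨s', h3, -⟩ := chk_tgt_cons hR
    cases t with
    | nil => simp [nx] at h3
    | cons c t =>
      simp only [List.drop_succ_cons, List.drop_zero] at h1
      obtain ⟨r, rfl⟩ := chk_sig_pre h1
      obtain ⟨h7, h8⟩ := chk_sig_st h1 (c :: r)
      have e1 := (chk_Ev_app (chk_brL (ρ := ρ) (env := env) (sg := sg) s c i r)
        (chk_Ev_cons h7 [] (chk_Ev_nil _))).2
      have e2 := (chk_Ev_cons h1 [c] (chk_brL (ρ := ρ) (env := env) (sg := sg) s c o r)).2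
      refine e1.trans (Eq.trans ?_ e2.symm)
      simp only [W, up_zero, mul_one, h8, Nat.add_zero]
      exact natL s _ (chk_val_ty h0 he h1)
  | nr s a =>
    obtain ⟨⟨i, o⟩, h1, h2⟩ := Option.map_eq_some_iff.1 h
    simp only [Prod.mk.injEq] at h2
    obtain ⟨rfl, rfl⟩ := h2
    obtain ⟨r, rfl⟩ := chk_sig_pre h1
    cases r with
    | nil =>
      exfalso
      cases hi : i.length with
      | zero =>
        rw [hi] at hR
        obtain ⟨s', h3, -⟩ := chk_tgt_cons hR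
        simp [nx, hi] at h3
      | succ n =>
        obtain ⟨tl, htl⟩ := chk_brR_hd s n
        rw [hi, htl] at hR
        obtain ⟨s', h3, -⟩ := chk_tgt_cons hR
        obtain ⟨b, i', o', r', h4, h5, h6, -⟩ := chk_nx_inv h3
        have h7 := congrArg List.length h4
        simp only [List.append_nil, List.length_append] at h5 h7
        simp only [sig, chk_isBr] at h6
        split at h6
        · simp only [Option.some.injEq, Prod.mk.injEq] at h6
          have h8 := congrArg List.length h6.1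
          simp only [List.length_cons, List.length_nil] at h8
          omega
        · cases h6
    | cons c r =>
      obtain ⟨h7, h8⟩ := chk_sig_st h1 r
      have e1 := (chk_Ev_cons h1 [] (chk_brR (ρ := ρ) (env := env) (sg := sg) s c o r)).2
      have e2 := (chk_Ev_app (chk_brR (ρ := ρ) (env := env) (sg := sg) s c i r)
        (chk_Ev_cons h7 [c] (chk_Ev_nil _))).2
      refine e1.trans (Eq.trans ?_ e2.symm)
      simp only [W, up_zero, mul_one, h8, Nat.add_zero]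
      exact natR s _ (chk_val_ty h0 he h1)
  | pu k p =>
    obtain ⟨r, h1, h2⟩ := Option.bind_eq_some_iff.1 h
    split at h2
    · rename_i h3
      simp only [Bool.and_eq_true] at h3
      simp only [Option.some.injEq, Prod.mk.injEq] at h2
      obtain ⟨rfl, rfl⟩ := h2
      obtain ⟨q, rfl⟩ := List.isPrefixOf_iff_prefix.1 h3.1.1
      rw [chk_pu h0 h3.1.2, chk_pu h0 h3.2, chk_puOk hp h1]
    · cases h2
  | co k =>
    obtain ⟨⟨s, L', R'⟩, h1, h2⟩ := Option.bind_eq_some_iff.1 h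
    split at h2
    · rename_i h3
      simp only [Bool.and_eq_true, Option.isSome_iff_exists] at h3
      simp only [Option.some.injEq, Prod.mk.injEq] at h2
      obtain ⟨rfl, rfl⟩ := h2
      obtain ⟨⟨h4, t1, h5⟩, t2, h6⟩ := h3
      obtain ⟨q, rfl⟩ := List.isPrefixOf_iff_prefix.1 h4
      rw [(chk_pad h5 q).2, (chk_pad h6 q).2]
      exact chk_coOk hc (List.mem_map_of_mem (List.mem_of_getElem? h1))
    · cases h2

theorem chk_step {s t w : List ℕ} {A L R C : CW} {o : ℕ} (hA : tgt sg s A = some t)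
    (ho : o ≤ t.length) (hL : tgt sg (t.drop o) L = some w) (hR : tgt sg (t.drop o) R = some w)
    (h : ev2 ρ env (cmp sg (t.drop o) L) = ev2 ρ env (cmp sg (t.drop o) R)) :
    ev2 ρ env (cmp sg s (A ++ csh o L ++ C)) = ev2 ρ env (cmp sg s (A ++ csh o R ++ C)) := by
  have e1 := chk_Ev_csh (ρ := ρ) (env := env) (t.take o) ⟨hL, rfl⟩
  have e2 := chk_Ev_csh (ρ := ρ) (env := env) (t.take o) ⟨hR, rfl⟩
  rw [List.take_append_drop, List.length_take_of_le ho] at e1 e2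
  have e3 := chk_Ev_app (ρ := ρ) (env := env) ⟨hA, rfl⟩ e1
  have e4 := chk_Ev_app (ρ := ρ) (env := env) ⟨hA, rfl⟩ e2
  rw [(chk_app_cmp e3.1 C).2, (chk_app_cmp e4.1 C).2, chk_ev2_app, chk_ev2_app, e3.2, e4.2, h]

theorem chk_app (h0 : ρ 0 = 1) (he : EnvOk ρ sg env) {rp : List (Wd × Wd)} {rc : List CR}
    (hp : PuOk X rp)
    (hc : CoOk ρ env (rc.map fun r => (cmp sg r.1 r.2.1, cmp sg r.1 r.2.2)))
    {s : List ℕ} {x y : CW} {c : Sp} (h : app sg rp rc s x c = some y) :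
    ev2 ρ env (cmp sg s x) = ev2 ρ env (cmp sg s y) := by
  obtain ⟨n, o, d, k⟩ := c
  obtain ⟨t, h1, h2⟩ := Option.bind_eq_some_iff.1 h
  obtain ⟨⟨L, R⟩, h3, h4⟩ := Option.bind_eq_some_iff.1 h2
  obtain ⟨h5, h4⟩ := Option.ite_none_right_eq_some.1 h4
  simp only [Bool.and_eq_true, decide_eq_true_eq, Option.isSome_iff_exists] at h5
  obtain ⟨⟨⟨ho, w, hL⟩, hR⟩, h6⟩ := h5
  have hR' := hR ▸ hL
  have e := chk_gen h0 he hp hc h3 hL hR'
  obtain ⟨C, hC⟩ := List.isPrefixOf_iff_prefix.1 h6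
  have hx : x = x.take n ++ csh o (if d then L else R) ++ C := by
    rw [List.append_assoc, hC, List.take_append_drop]
  have hd : x.drop (n + (if d then L else R).length) = C := by
    rw [← List.drop_drop, ← hC]
    exact List.drop_left' (by simp [csh])
  simp only [Option.some.injEq] at h4
  rw [← h4, hd]
  conv_lhs => rw [hx]
  cases d
  · exact chk_step h1 ho hR' hL e.symm
  · exact chk_step h1 ho hL hR' e

theorem chk_runc (h0 : ρ 0 = 1) (he : EnvOk ρ sg env) {rp : List (Wd × Wd)} {rc : List CR}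
    (hp : PuOk X rp)
    (hc : CoOk ρ env (rc.map fun r => (cmp sg r.1 r.2.1, cmp sg r.1 r.2.2)))
    {s : List ℕ} {x y : CW} {cs : List Sp} (h : runc sg rp rc s x cs = some y) :
    ev2 ρ env (cmp sg s x) = ev2 ρ env (cmp sg s y) := by
  induction cs generalizing x with
  | nil => cases h; rfl
  | cons c cs ih =>
    obtain ⟨z, h1, h2⟩ := Option.bind_eq_some_iff.1 h
    exact (chk_app h0 he hp hc h1).trans (ih h2)

end

/-- Soundness for coloured words. -/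
theorem col_sound (ρ : ℕ → ℕ) (env : List (Cob X)) (sg : Sg) (rp : List (Wd × Wd)) (rc : List CR)
    (cc : List (List (List ℕ × Sy) × List (List ℕ × Sy))) (s : List ℕ) (x y : CW)
    (cx cy : List (List ℕ × Sy)) (cs : List Sp) (h : chk sg rp rc cc s x y cx cy cs = true)
    (h0 : ρ 0 = 1) (he : EnvOk ρ sg env) (hp : PuOk X rp) (hc : CoOk ρ env cc) :
    ev2 ρ env cx = ev2 ρ env cy := by
  simp only [chk, Bool.and_eq_true, decide_eq_true_eq] at h
  obtain ⟨⟨⟨h1, rfl⟩, rfl⟩, rfl⟩ := h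
  exact chk_runc h0 he (puOk_app hp puOk_axs) hc h1

def chkP (rp : List (Wd × Wd)) (p : ℕ) (x y : Wd) (cs : List Sp) : Bool :=
  decide (runc [] (rp ++ axs) [] (List.replicate p 0) (pu x) cs = some (pu y)) && okb p x && okb p y

/-- Soundness for plain words. -/
theorem pure_sound (rp : List (Wd × Wd)) (p : ℕ) (x y : Wd) (cs : List Sp)
    (h : chkP rp p x y cs = true) (hp : PuOk X rp) : (mk x : Cob X) = mk y := by
  simp only [chkP, Bool.and_eq_true, decide_eq_true_eq] at h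
  obtain ⟨⟨h1, hx⟩, hy⟩ := h
  have e := chk_runc (ρ := fun _ => 1) (env := ([] : List (Cob X))) (sg := []) (rc := []) rfl
    trivial (puOk_app hp puOk_axs) trivial h1
  have e1 := chk_pu (ρ := fun _ => 1) (env := ([] : List (Cob X))) (sg := []) rfl hx []
  have e2 := chk_pu (ρ := fun _ => 1) (env := ([] : List (Cob X))) (sg := []) rfl hy []
  rw [List.append_nil] at e1 e2
  rw [← e1, ← e2, e]

end Pool.Agent.GH
end

-- merged part: Pool.Agent.Work.MP_c00b06_gt.Mac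
section
/-! Named morphisms. -/

namespace Pool.Agent.GH
open Gn

variable {X : Wd → Wd → Prop}

def Ad : Cob X := mk ad
def Ev : Cob X := mk ev
def Y : Cob X := mk Yn

theorem cr_true : cr true = P := rfl
theorem cr_false : cr false = Q := rfl

theorem Ad_ty : Ty 2 1 (Ad : Cob X) := Ty.mk (by simp [ad, Ok, Gn.ar, Gn.co])
theorem Ev_ty : Ty 2 0 (Ev : Cob X) := Ty.mk (by simp [ev, Ok, Gn.ar, Gn.co])
theorem Y_ty : Ty 2 1 (Y : Cob X) := Ty.mk (by simp [Yn, Ok, Gn.ar, Gn.co])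

theorem Ad_def : (Ad : Cob X) = G d 0 * G P 1 * G S 2 * G m 0 * G m 0 := rfl
theorem Ev_def : (Ev : Cob X) = G w 1 * G S 1 * G m 0 * G m 1 * G l 0 * G l 0 := rfl
theorem Y_def :
    (Y : Cob X) = G d 0 * G d 2 * G P 1 * G S 2 * G S 3 * G m 0 * G m 0 * G m 0 := rfl

end Pool.Agent.GH
end
end

-- merged part: Pool.Agent.Work.MP_c00b06_gt.Sem3
section
-- merged part: Pool.Agent.Work.MP_c00b06_gt.Cor
section
/-! Core definitions of the clasper calculus, with their types. -/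

namespace Pool.Agent.GH
open Gn

variable {X : Wd → Wd → Prop}

/-- Fill the first `p` handles. -/
def E : ℕ → Cob X
  | 0 => 1
  | p + 1 => G u 0 * E p

/-- Create `p` trivial handles at the front. -/
def Et : ℕ → Cob X
  | 0 => 1
  | p + 1 => Et p * G e 0

/-- Surgery on the first `s` handles. -/
def Lm : ℕ → Cob X
  | 0 => 1
  | s + 1 => G l 0 * Lm s

/-- Iterated commutator. -/
def Rt (τ : Tr) : Cob X := mk τ.wd

/-- Surgery along a tree clasper. -/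
def TT (τ : Tr) : Cob X := Rt τ * Ev

/-- The tree with one node. -/
def Y1 : Tr := .nd .lf .lf

theorem E_zero : (E 0 : Cob X) = 1 := rfl
theorem E_succ (p : ℕ) : (E (p + 1) : Cob X) = G u 0 * E p := rfl
theorem Et_zero : (Et 0 : Cob X) = 1 := rfl
theorem Et_succ (p : ℕ) : (Et (p + 1) : Cob X) = Et p * G e 0 := rfl
theorem Lm_zero : (Lm 0 : Cob X) = 1 := rfl
theorem Lm_succ (p : ℕ) : (Lm (p + 1) : Cob X) = G l 0 * Lm p := rfl
theorem Rt_lf : (Rt .lf : Cob X) = 1 := rfl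
theorem Rt_nd (a b : Tr) : (Rt (.nd a b) : Cob X) = Rt a * up 1 (Rt b) * Y := rfl
theorem TT_Y1 : (TT Y1 : Cob X) = Y * Ev := rfl
theorem mk_sg (τ : Tr) : (mk τ.sg : Cob X) = TT τ := rfl

theorem mk_fl (p : ℕ) : (mk (fl p) : Cob X) = E p := by
  induction p with
  | zero => rfl
  | succ p ih => rw [E_succ, ← ih]; rfl

theorem E_ty (p : ℕ) : Ty p 0 (E p : Cob X) := by
  induction p with
  | zero => exact Ty.one 0
  | succ p ih => exact (Ty.G u 0 (q := p) (by simp [Gn.ar]) (by simp [Gn.ar, Gn.co])).mul ih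

theorem Et_ty (p : ℕ) : Ty 0 p (Et p : Cob X) := by
  induction p with
  | zero => exact Ty.one 0
  | succ p ih => exact ih.mul (Ty.G e 0 (by simp [Gn.ar]) (by simp [Gn.ar, Gn.co]))

theorem Lm_ty (p : ℕ) : Ty p 0 (Lm p : Cob X) := by
  induction p with
  | zero => exact Ty.one 0
  | succ p ih => exact (Ty.G l 0 (q := p) (by simp [Gn.ar]) (by simp [Gn.ar, Gn.co])).mul ih

theorem Rt_ty (τ : Tr) : Ty (τ.nn + 1) 1 (Rt τ : Cob X) := by
  induction τ with
  | lf => exact Ty.one 1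
  | nd a b iha ihb =>
    rw [Rt_nd]
    exact ((iha.wide (q' := 1 + (b.nn + 1)) (by simp [Tr.nn]; omega) (by simp [Tr.nn]; omega)).mul
      (ihb.up 1)).mul Y_ty

theorem TT_ty (τ : Tr) : Ty (τ.nn + 2) 0 (TT τ : Cob X) := ((Rt_ty τ).pad 1).mul Ev_ty

/-- One surgery along a tree with `k` nodes, somewhere in a word. -/
def Mv (k : ℕ) (f g : Cob X) : Prop :=
  ∃ (a b : Cob X) (i : ℕ) (τ : Tr), τ.nn = k ∧ f = a * up i (E (k + 1) * G e 0) * b ∧
    g = a * up i (Rt τ) * b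

/-- `Y_k`-equivalence. -/
def Sim (k : ℕ) : Cob X → Cob X → Prop := Relation.EqvGen (Mv k)

/-- One surgery along a tree with `k` nodes, between states on `n` handles, in leaf form. -/
def Lf (k n : ℕ) (f g : Cob X) : Prop :=
  ∃ (x : Cob X) (τ : Tr), τ.nn = k ∧ Ty 0 (k + 2 + n) x ∧ f = x * E (k + 2) ∧ g = x * TT τ

/-- All trees with `D` nodes are trivial. -/
def Nil (D : ℕ) (X : Wd → Wd → Prop) : Prop :=
  ∀ τ : Tr, τ.nn = D → (Rt τ : Cob X) = E (D + 1) * G e 0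

/-- A typed morphism on `p` handles that disappears when the handles are filled. -/
def TG (p : ℕ) (g : Cob X) : Prop := Ty p p g ∧ g * E p = E p

/-- Diagonal adjoint action of handle `0` on the next `n` handles. -/
def adN : ℕ → Cob X
  | 0 => G u 0
  | n + 1 => G d 0 * G P 1 * Ad * up 1 (adN n)

/-- Output handle `i` of `f` is literally the output of a tree with `k` nodes. -/
def Lit (k i : ℕ) (f : Cob X) : Prop :=
  ∃ (g : Cob X) (τ : Tr), τ.nn = k ∧ f = g * up i (Rt τ)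

/-- Input handle `i` of `Ψ` has depth `j`. -/
def Dp (j i : ℕ) (Ψ : Cob X) : Prop :=
  ∀ (k : ℕ) (F : Cob X), Lit k i F → Sim (k + j) (F * G m i * Ψ) (F * G u i * Ψ)

/-- The depth of output `j` of `f` passes to input `i`. -/
def DP (f : Cob X) (i j : ℕ) : Prop :=
  ∀ (o k : ℕ) (Ψ : Cob X), Dp k (o + j) Ψ → Dp k (o + i) (up o f * Ψ)

/-- Coaction: handle `0` is acted on by a copairing; the free leg comes first. -/
def Co : Cob X := G w 0 * up 1 Ad

/-- Equal up to adjoint actions on input `0`, which ends in output `a`. -/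
inductive CoEq (a : ℕ) : Cob X → Cob X → Prop
  | base (g : Cob X) : DP g 1 a → CoEq a (Co * g) (G e 0 * g)
  | refl (f : Cob X) : CoEq a f f
  | symm {f g : Cob X} : CoEq a f g → CoEq a g f
  | trans {f g h : Cob X} : CoEq a f g → CoEq a g h → CoEq a f h

/-- Interchangeable, one degree higher, when the output handles in `M` are deep. -/
def Rel2 (M : ℕ → Prop) (f g : Cob X) : Prop :=
  ∀ (F : Cob X) (k : ℕ) (Ψ : Cob X), (∀ a, M a → Dp k a Ψ) → Sim (k + 1) (F * f * Ψ) (F * g * Ψ)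

/-- The front handle passes over `a` handles and multiplies the next one from the left. -/
def Ma (a : ℕ) : Cob X := B true 1 a * G m a

def sg (s : Bool) : Cob X := if s then G T 0 else 1

/-- Multiplication into input `a` of `f` becomes multiplication into output `a'`. -/
def MF (s : Bool) (f : Cob X) (a a' : ℕ) : Prop :=
  CoEq a' (Ma a * f) (up 1 f * sg s * Ma a') ∧ DP f a a'

/-- Negative (`true`) and positive (`false`) clasp. -/
def cw (s : Bool) : Cob X := G w 0 * sg (!s)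

/-- Negative (`true`) and positive (`false`) twist. -/
def vw (s : Bool) : Cob X := if s then G v 0 else G V 0

/-- Items: a clasp between handles `a` and `b`, a twist on handle `a`. -/
inductive It where
  | c (s : Bool) (a b : ℕ)
  | v (s : Bool) (a : ℕ)
  deriving DecidableEq

def It.fst : It → ℕ
  | .c _ a _ => a
  | .v _ a => a

def It.snd : It → ℕ
  | .c _ _ b => b
  | .v _ a => a

/-- Normal items: the first leg of a clasp is the left one. -/
def It.Nrm : It → Prop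
  | .c _ a b => a < b
  | .v _ _ => True

def It.op : It → Cob X
  | .c s a b => cw s * up 1 (Ma b) * Ma a
  | .v s a => vw s * Ma a

def Ops (l : List It) : Cob X := (l.map It.op).prod

/-- Linking matrix of an item. -/
def It.lk : It → ℕ → ℕ → ℤ
  | .c s a b, i, j => (if s then -1 else 1) *
      ((if i = a ∧ j = b then 1 else 0) + (if i = b ∧ j = a then 1 else 0))
  | .v s a, i, j => if i = a ∧ j = a then (if s then -1 else 1) else 0

def lkl (l : List It) (i j : ℕ) : ℤ := (l.map fun t => t.lk i j).sum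

/-- All first legs are among the first `p` handles, all legs among the first `N`. -/
def Val (p N : ℕ) (l : List It) : Prop := ∀ t ∈ l, t.fst < p ∧ t.fst < N ∧ t.snd < N

/-- A letter: a tree surgery on the trivial state whose leaves clasp the handles. -/
def Ltr (k n : ℕ) (g : Cob X) : Prop :=
  ∃ (τ : Tr) (l : List It), τ.nn = k ∧ Val (k + 2) (k + 2 + n) l ∧
    g = Et (k + 2 + n) * Ops l * TT τ

/-- Typed morphisms without surgery letter. -/
def NL (p q : ℕ) (f : Cob X) : Prop := ∃ x, mk x = f ∧ Ok p x q ∧ ∀ a ∈ x, a.2 ≠ l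

/-- States built without `d`, `u`, `l`. -/
inductive HD : ℕ → Cob X → Prop
  | nil : HD 0 1
  | step (N : ℕ) (h : Cob X) (g : Gn) (i : ℕ) : HD N h → g ≠ d → g ≠ u → g ≠ l → i + g.ar ≤ N →
      HD (N - g.ar + g.co) (h * G g i)

/-- Product of the braided tensor power. -/
def Mu : ℕ → Cob X
  | 0 => 1
  | n + 1 => up 1 (B true n 1) * G m 0 * up 1 (Mu n)

/-- Stacking of two states on `n` handles. -/
def pr (n : ℕ) (x y : Cob X) : Cob X := x * up n y * Mu n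

/-- `f` is multiplicative and unital for stacking. -/
def Hm (N N' : ℕ) (f : Cob X) : Prop :=
  Ty N N' f ∧ Mu N * f = f * up N' f * Mu N' ∧ Et N * f = Et N'

/-- Slide of handle `a` over handle `j`. -/
def Sl (s : Bool) (a j : ℕ) : Cob X := G d j * up j (sg (!s)) * B false j 1 * Ma a

/-- Invertible typed morphisms. -/
def Ivt (n : ℕ) (f : Cob X) : Prop := Ty n n f ∧ ∃ g, Ty n n g ∧ f * g = 1 ∧ g * f = 1

theorem Co_ty : Ty 1 2 (Co : Cob X) :=
  (Ty.G w 0 (q := 3) (by simp [Gn.ar]) (by simp [Gn.ar, Gn.co])).mul (Ad_ty.up 1)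

theorem NL.ty {p q : ℕ} {f : Cob X} (h : NL p q f) : Ty p q f := by
  obtain ⟨x, h1, h2, _⟩ := h
  exact ⟨x, h1, h2⟩

theorem NL.one (p : ℕ) : NL p p (1 : Cob X) := ⟨[], rfl, rfl, by simp⟩

theorem NL.mul {p q r : ℕ} {f g : Cob X} (hf : NL p q f) (hg : NL q r g) : NL p r (f * g) := by
  obtain ⟨x, rfl, hx, hx'⟩ := hf
  obtain ⟨y, rfl, hy, hy'⟩ := hg
  refine ⟨x ++ y, rfl, ok_app hx hy, fun a ha => ?_⟩
  rcases List.mem_append.1 ha with h | h
  exacts [hx' a h, hy' a h]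

theorem NL.at {p q p' q' : ℕ} {f : Cob X} (hf : NL p q f) (i : ℕ) (h1 : i + p ≤ p')
    (h2 : q' + p = p' + q) : NL p' q' (up i f) := by
  obtain ⟨x, rfl, hx, hx'⟩ := hf
  refine ⟨sh i x, rfl, ?_, fun a ha => ?_⟩
  · have := ok_pad (p' - (i + p)) (ok_sh i hx)
    rwa [show i + p + (p' - (i + p)) = p' by omega, show i + q + (p' - (i + p)) = q' by omega] at this
  · obtain ⟨b, hb, rfl⟩ := List.mem_map.1 ha
    exact hx' b hb

theorem NL.wide {p q p' q' : ℕ} {f : Cob X} (hf : NL p q f) (h1 : p ≤ p')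
    (h2 : q' + p = p' + q) : NL p' q' f := by
  have := hf.at 0 (p' := p') (q' := q') (by omega) h2
  rwa [up_zero] at this

theorem NL.G (g : Gn) (hg : g ≠ l) (i : ℕ) {p q : ℕ} (h1 : i + g.ar ≤ p)
    (h2 : q + g.ar = p + g.co) : NL p q (G g i : Cob X) :=
  ⟨[(i, g)], rfl, ⟨h1, by show p - g.ar + g.co = q; omega⟩, by simpa using hg⟩

theorem NL.B (s : Bool) (p q : ℕ) : NL (p + q) (q + p) (B s p q : Cob X) := by
  have h1 : ∀ q, NL (q + 1) (q + 1) (GH.B s 1 q : Cob X) := by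
    intro q
    induction q with
    | zero => rw [B_zero_right]; exact NL.one _
    | succ q ih =>
      rw [B_one_succ]
      exact (ih.wide (q' := q + 1 + 1) (by omega) (by omega)).mul
        (NL.G _ (by cases s <;> simp [cr]) _ (by rw [cr_ar]) (by rw [cr_ar, cr_co]))
  induction p with
  | zero => exact (NL.one _).wide (p := q) (q := q) (by omega) (by omega)
  | succ p ih =>
    rw [B_succ_left]
    exact (ih.at 1 (q' := q + (p + 1)) (by omega) (by omega)).mul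
      ((h1 q).wide (by omega) (by omega))

theorem NL.E (p : ℕ) : NL p 0 (E p : Cob X) := by
  induction p with
  | zero => exact NL.one 0
  | succ p ih =>
    exact (NL.G u (by simp) 0 (q := p) (by simp [Gn.ar]) (by simp [Gn.ar, Gn.co])).mul ih

theorem NL.Et (p : ℕ) : NL 0 p (Et p : Cob X) := by
  induction p with
  | zero => exact NL.one 0
  | succ p ih => exact ih.mul (NL.G e (by simp) 0 (by simp [Gn.ar]) (by simp [Gn.ar, Gn.co]))

theorem NL.sg (s : Bool) : NL 1 1 (sg s : Cob X) := by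
  cases s
  · exact NL.one 1
  · exact NL.G T (by simp) 0 (by simp [Gn.ar]) (by simp [Gn.ar, Gn.co])

theorem NL.cw (s : Bool) : NL 0 2 (cw s : Cob X) :=
  (NL.G w (by simp) 0 (q := 2) (by simp [Gn.ar]) (by simp [Gn.ar, Gn.co])).mul
    ((NL.sg _).wide (by omega) (by omega))

theorem NL.vw (s : Bool) : NL 0 1 (vw s : Cob X) := by
  cases s
  · exact NL.G V (by simp) 0 (by simp [Gn.ar]) (by simp [Gn.ar, Gn.co])
  · exact NL.G v (by simp) 0 (by simp [Gn.ar]) (by simp [Gn.ar, Gn.co])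

theorem NL.Ma {a N : ℕ} (h : a < N) : NL (N + 1) N (Ma a : Cob X) :=
  ((NL.B true 1 a).wide (q' := N + 1) (by omega) (by omega)).mul
    (NL.G m (by simp) a (by simp [Gn.ar]; omega) (by simp [Gn.ar, Gn.co]))

theorem NL.op {N : ℕ} (t : It) (h1 : t.fst < N) (h2 : t.snd < N) : NL N N (t.op : Cob X) := by
  cases t with
  | c s a b =>
    exact (((NL.cw s).wide (q' := N + 2) (by omega) (by omega)).mul
      ((NL.Ma h2).at 1 (q' := N + 1) (by omega) (by omega))).mul (NL.Ma h1)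
  | v s a => exact ((NL.vw s).wide (q' := N + 1) (by omega) (by omega)).mul (NL.Ma h1)

theorem Ops_nil : (Ops [] : Cob X) = 1 := rfl

theorem Ops_cons (t : It) (l : List It) : (Ops (t :: l) : Cob X) = t.op * Ops l := by simp [Ops]

theorem Ops_app (l l' : List It) : (Ops (l ++ l') : Cob X) = Ops l * Ops l' := by simp [Ops]

theorem NL.Ops {p N : ℕ} {l : List It} (h : Val p N l) : NL N N (Ops l : Cob X) := by
  induction l with
  | nil => exact NL.one N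
  | cons t l ih =>
    rw [Ops_cons]
    exact (NL.op t (h t (by simp)).2.1 (h t (by simp)).2.2).mul
      (ih fun t' ht => h t' (by simp [ht]))

theorem NL.Mu (n : ℕ) : NL (n + n) n (Mu n : Cob X) := by
  induction n with
  | zero => exact NL.one 0
  | succ n ih =>
    exact (((NL.B true n 1).at 1 (q' := n + 1 + (n + 1)) (by omega) (by omega)).mul
      (NL.G m (by simp) 0 (q := 1 + (n + n)) (by simp [Gn.ar]; omega)
        (by simp [Gn.ar, Gn.co]; omega))).mul (ih.at 1 (by omega) (by omega))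

theorem NL.Sl (s : Bool) {a j N : ℕ} (ha : a < N) (hj : j < N) : NL N N (Sl s a j : Cob X) :=
  (((NL.G d (by simp) j (q := N + 1) (by simp [Gn.ar]; omega) (by simp [Gn.ar, Gn.co])).mul
    ((NL.sg _).at j (q' := N + 1) (by omega) (by omega))).mul
    ((NL.B false j 1).wide (q' := N + 1) (by omega) (by omega))).mul (NL.Ma ha)

theorem pr_ty {n : ℕ} {x y : Cob X} (hx : Ty 0 n x) (hy : Ty 0 n y) : Ty 0 n (pr n x y) :=
  (hx.mul (hy.up n)).mul (NL.Mu n).ty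

theorem Ltr.ty {k n : ℕ} {g : Cob X} (h : Ltr k n g) : Ty 0 n g := by
  obtain ⟨τ, l, rfl, hl, rfl⟩ := h
  exact ((Et_ty _).mul (NL.Ops hl).ty).mul ((TT_ty τ).wide (by omega) (by omega))

end Pool.Agent.GH
end

-- merged part: Pool.Agent.Work.MP_c00b06_gt.Sem
section
/-! Representations of words: basic tools. -/

namespace Pool.Agent.GH
open Gn

/-- Drop the first `i` handles of a state. -/
def tl {α : Type} (i : ℕ) (a : ℕ → α) : ℕ → α := fun k => a (i + k)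

def Rl (Γ : Type) [Group Γ] (x : Wd) (a b : ℕ → Γ × Γ) : Prop := Nonempty (Run Γ x a b)

def Det (x : Wd) : Prop :=
  ∀ (Γ : Type) [Group Γ] (a b : ℕ → Γ × Γ), Subsingleton (Run Γ x a b)

def Eqv (x y : Wd) : Prop :=
  ∀ (Γ : Type) [Group Γ] (a b : ℕ → Γ × Γ), Nonempty (Run Γ x a b ≃ Run Γ y a b)

variable {Γ : Type} [Group Γ]

theorem rl_nil (a b : ℕ → Γ × Γ) : Rl Γ [] a b ↔ a = b := ⟨fun ⟨h⟩ => h.down, fun h => ⟨⟨h⟩⟩⟩

theorem rl_cons (x : ℕ × Gn) (r : Wd) (a b : ℕ → Γ × Γ) :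
    Rl Γ (x :: r) a b ↔ ∃ c, Stp x a c ∧ Rl Γ r c b :=
  ⟨fun ⟨⟨c, h, k⟩⟩ => ⟨c, h.down, ⟨k⟩⟩, fun ⟨c, h, ⟨k⟩⟩ => ⟨⟨c, ⟨h⟩, k⟩⟩⟩

/-- The list of intermediate states of a run. -/
def Chain : Wd → (ℕ → Γ × Γ) → List (ℕ → Γ × Γ) → (ℕ → Γ × Γ) → Prop
  | [], a, [], b => a = b
  | x :: r, a, c :: cs, b => Stp x a c ∧ Chain r c cs b
  | _, _, _, _ => False

/-- The intermediate states of a run. -/
def sem_ls : (x : Wd) → (a b : ℕ → Γ × Γ) → Run Γ x a b → List (ℕ → Γ × Γ)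
  | [], _, _, _ => []
  | _ :: r, _, b, z => z.1 :: sem_ls r z.1 b z.2.2

theorem sem_ls_chain (x : Wd) : ∀ (a b : ℕ → Γ × Γ) (z : Run Γ x a b), Chain x a (sem_ls x a b z) b := by
  induction x with
  | nil => exact fun a b z => z.down
  | cons y r ih => exact fun a b z => ⟨z.2.1.down, ih _ _ _⟩

theorem sem_ls_inj (x : Wd) : ∀ (a b : ℕ → Γ × Γ) (z z' : Run Γ x a b),
    sem_ls x a b z = sem_ls x a b z' → z = z' := by
  induction x with
  | nil => rintro a b ⟨_⟩ ⟨_⟩ _; rfl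
  | cons y r ih =>
    rintro a b ⟨c, ⟨_⟩, z⟩ ⟨c', ⟨_⟩, z'⟩ h
    obtain ⟨h1, h2⟩ := List.cons.inj h
    obtain rfl : c = c' := h1
    obtain rfl := ih c b z z' h2
    rfl

theorem det_of_chain (x : Wd) (h : ∀ (Γ : Type) [Group Γ] (a b : ℕ → Γ × Γ) (cs ds : List (ℕ → Γ × Γ)),
    Chain x a cs b → Chain x a ds b → cs = ds) : Det x := by
  intro Γ _ a b
  exact ⟨fun r s => sem_ls_inj x a b r s (h Γ a b _ _ (sem_ls_chain x a b r) (sem_ls_chain x a b s))⟩

theorem det_nil : Det [] := by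
  intro Γ _ a b
  exact ⟨by rintro ⟨_⟩ ⟨_⟩; rfl⟩

theorem sem_ext {α : Type} {c c' : ℕ → α} (i n : ℕ) (h1 : ∀ k < i, c k = c' k)
    (h2 : ∀ k < n, c (i + k) = c' (i + k)) (h3 : ∀ k, c (i + n + k) = c' (i + n + k)) : c = c' := by
  funext k
  by_cases hk : k < i
  · exact h1 k hk
  by_cases hn : k < i + n
  · have := h2 (k - i) (by omega)
    rwa [show i + (k - i) = k by omega] at this
  · have := h3 (k - (i + n))
    rwa [show i + n + (k - (i + n)) = k by omega] at this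

theorem sem_two {p : ℕ → Prop} (h0 : p 0) (h1 : p 1) : ∀ k < 2, p k := by
  intro k hk
  obtain rfl | rfl : k = 0 ∨ k = 1 := by omega
  exacts [h0, h1]

theorem sem_one {p : ℕ → Prop} (h0 : p 0) : ∀ k < 1, p k := by
  intro k hk
  obtain rfl : k = 0 := by omega
  exact h0

theorem sem_fwd (i : ℕ) (g : Gn) (hg : g ∈ [P, Q, m, u, S, T, l]) {a c c' : ℕ → Γ × Γ}
    (h : Stp (i, g) a c) (h' : Stp (i, g) a c') : c = c' := by
  obtain ⟨h1, h2, h3⟩ := h
  obtain ⟨k1, k2, k3⟩ := h'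
  refine sem_ext i g.co (fun k hk => (h1 k hk).trans (k1 k hk).symm) ?_
    (fun k => (h3 k).trans (k3 k).symm)
  simp only [List.mem_cons, List.not_mem_nil, or_false] at hg
  rcases hg with rfl | rfl | rfl | rfl | rfl | rfl | rfl
  · exact sem_two (h2.1.trans k2.1.symm) (h2.2.trans k2.2.symm)
  · exact sem_two (h2.1.trans k2.1.symm) (h2.2.trans k2.2.symm)
  · exact sem_one (h2.2.trans k2.2.symm)
  · exact fun k hk => absurd hk (Nat.not_lt_zero k)
  · exact sem_one (Eq.trans h2 (Eq.symm k2))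
  · exact sem_one (Eq.trans h2 (Eq.symm k2))
  · exact fun k hk => absurd hk (Nat.not_lt_zero k)

theorem sem_cj (t : Γ) {x y : Γ × Γ} (h : cj t x = cj t y) : x = y := by
  simpa [cj, Prod.ext_iff] using h

theorem sem_rel_bwd (g : Gn) (hg : g ∈ [P, Q, e, d, S, T, v, V, w]) {a a' c : ℕ → Γ × Γ}
    (h : Rel g a c) (h' : Rel g a' c) : ∀ k < g.ar, a k = a' k := by
  simp only [List.mem_cons, List.not_mem_nil, or_false] at hg
  rcases hg with rfl | rfl | rfl | rfl | rfl | rfl | rfl | rfl | rfl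
  · have e0 : a 0 = a' 0 := h.2.symm.trans h'.2
    refine sem_two e0 (sem_cj (bd (a 0)) ?_)
    rw [← h.1, e0, ← h'.1]
  · have e1 : a 1 = a' 1 := h.1.symm.trans h'.1
    refine sem_two (sem_cj (bd (a 1))⁻¹ ?_) e1
    rw [← h.2, e1, ← h'.2]
  · exact fun k hk => absurd hk (Nat.not_lt_zero k)
  · exact sem_one (Prod.ext (h.1.trans h'.1.symm) (h.2.2.symm.trans h'.2.2))
  · have key : ∀ x y : Γ × Γ, y = (bd x * x.1⁻¹, x.1 * x.2⁻¹ * x.1⁻¹) →
        x = (y.1⁻¹ * bd y, y.2⁻¹ * bd y) := by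
      rintro ⟨x1, x2⟩ _ rfl
      simp only [bd, Prod.mk.injEq]
      constructor <;> group
    exact sem_one ((key _ _ h).trans (key _ _ h').symm)
  · have key : ∀ x y : Γ × Γ, y = (x.1⁻¹ * bd x, x.2⁻¹ * bd x) →
        x = (bd y * y.1⁻¹, y.1 * y.2⁻¹ * y.1⁻¹) := by
      rintro ⟨x1, x2⟩ _ rfl
      simp only [bd, Prod.mk.injEq]
      constructor <;> group
    exact sem_one ((key _ _ h).trans (key _ _ h').symm)
  · exact fun k hk => absurd hk (Nat.not_lt_zero k)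
  · exact fun k hk => absurd hk (Nat.not_lt_zero k)
  · exact fun k hk => absurd hk (Nat.not_lt_zero k)

theorem sem_bwd (i : ℕ) (g : Gn) (hg : g ∈ [P, Q, e, d, S, T, v, V, w]) {a a' c : ℕ → Γ × Γ}
    (h : Stp (i, g) a c) (h' : Stp (i, g) a' c) : a = a' :=
  sem_ext i g.ar (fun k hk => (h.1 k hk).symm.trans (h'.1 k hk)) (sem_rel_bwd g hg h.2.1 h'.2.1)
    (fun k => (h.2.2 k).symm.trans (h'.2.2 k))

theorem sem_app (x y : Wd) (a c : ℕ → Γ × Γ) :
    Nonempty (Run Γ (x ++ y) a c ≃ Σ b : ℕ → Γ × Γ, Run Γ x a b × Run Γ y b c) := by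
  induction x generalizing a with
  | nil =>
    refine ⟨Equiv.ofBijective (fun z => ⟨a, ⟨rfl⟩, z⟩) ⟨?_, ?_⟩⟩
    · intro z z' h
      exact congrArg Prod.snd (eq_of_heq (Sigma.mk.inj h).2)
    · rintro ⟨b, ⟨h⟩, z⟩
      subst h
      exact ⟨z, rfl⟩
  | cons t x ih =>
    have E := fun a => Classical.choice (ih a)
    refine ⟨(Equiv.sigmaCongrRight fun a' => Equiv.prodCongr (Equiv.refl _) (E a')).trans ?_⟩
    exact ⟨fun z => ⟨z.2.2.1, ⟨z.1, z.2.1, z.2.2.2.1⟩, z.2.2.2.2⟩,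
      fun z => ⟨z.2.1.1, z.2.1.2.1, z.1, z.2.1.2.2, z.2.2⟩, fun _ => rfl, fun _ => rfl⟩

/-- A letter whose output is a function of its input. -/
theorem det_cons (i : ℕ) (g : Gn) (hg : g ∈ [P, Q, m, u, S, T, l]) {x : Wd} (h : Det x) :
    Det ((i, g) :: x) := by
  intro Γ _ a b
  refine ⟨?_⟩
  rintro ⟨c, ⟨h1⟩, z⟩ ⟨c', ⟨h2⟩, z'⟩
  obtain rfl := sem_fwd i g hg h1 h2
  obtain rfl := (h Γ c b).elim z z'
  rfl

/-- A letter whose input is a function of its output. -/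
theorem det_snoc (i : ℕ) (g : Gn) (hg : g ∈ [P, Q, e, d, S, T, v, V, w]) {x : Wd} (h : Det x) :
    Det (x ++ [(i, g)]) := by
  intro Γ _ a b
  obtain ⟨E⟩ := sem_app x [(i, g)] a b
  refine @Equiv.subsingleton _ _ E ⟨?_⟩
  rintro ⟨c, z, c1, ⟨h1⟩, ⟨e1⟩⟩ ⟨c', z', c2, ⟨h2⟩, ⟨e2⟩⟩
  subst e1 e2
  obtain rfl := sem_bwd i g hg h1 h2
  obtain rfl := (h Γ a c).elim z z'
  rfl

theorem eqv_of {x y : Wd} (hx : Det x) (hy : Det y)
    (h : ∀ (Γ : Type) [Group Γ] (a b : ℕ → Γ × Γ), Rl Γ x a b ↔ Rl Γ y a b) : Eqv x y := by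
  intro Γ _ a b
  have := hx Γ a b
  have := hy Γ a b
  exact ⟨equivOfSubsingletonOfSubsingleton (fun z => Classical.choice ((h Γ a b).1 ⟨z⟩))
    (fun z => Classical.choice ((h Γ a b).2 ⟨z⟩))⟩

/-- Prepend a handle to a state. -/
def cs {α : Type} (h : α) (a : ℕ → α) : ℕ → α
  | 0 => h
  | k + 1 => a k

@[simp] theorem cs_zero {α : Type} (h : α) (a : ℕ → α) : cs h a 0 = h := rfl

@[simp] theorem cs_succ {α : Type} (h : α) (a : ℕ → α) (k : ℕ) : cs h a (k + 1) = a k := rfl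

theorem cs_inj {α : Type} (h h' : α) (a a' : ℕ → α) : cs h a = cs h' a' ↔ h = h' ∧ a = a' := by
  refine ⟨fun e => ⟨congrFun e 0, funext fun k => congrFun e (k + 1)⟩, ?_⟩
  rintro ⟨rfl, rfl⟩; rfl

theorem exists_cs {α : Type} (a : ℕ → α) : ∃ h t, a = cs h t :=
  ⟨a 0, fun k => a (k + 1), funext fun k => by cases k <;> rfl⟩

theorem stp_succ (i : ℕ) (g : Gn) (h : Γ × Γ) (a c : ℕ → Γ × Γ) :
    Stp (i + 1, g) (cs h a) c ↔ ∃ c', c = cs h c' ∧ Stp (i, g) a c' := by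
  have key : ∀ (h' : Γ × Γ) (c' : ℕ → Γ × Γ),
      Stp (i + 1, g) (cs h a) (cs h' c') ↔ h' = h ∧ Stp (i, g) a c' := by
    intro h' c'
    have e1 : ∀ (x : Γ × Γ) (b : ℕ → Γ × Γ) (k : ℕ), cs x b (i + 1 + k) = b (i + k) := by
      intro x b k; rw [show i + 1 + k = i + k + 1 by omega]; rfl
    have e2 : ∀ (x : Γ × Γ) (b : ℕ → Γ × Γ) (n k : ℕ), cs x b (i + 1 + n + k) = b (i + n + k) := by
      intro x b n k; rw [show i + 1 + n + k = i + n + k + 1 by omega]; rfl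
    simp only [Stp, e1, e2, Nat.forall_lt_succ_left, cs_zero, cs_succ, and_assoc]
  obtain ⟨h', c', rfl⟩ := exists_cs c
  rw [key]
  constructor
  · rintro ⟨rfl, h2⟩; exact ⟨c', rfl, h2⟩
  · rintro ⟨c'', e, h2⟩
    obtain ⟨rfl, rfl⟩ := (cs_inj _ _ _ _).1 e
    exact ⟨rfl, h2⟩

theorem sem_zero (g : Gn) (a c : ℕ → Γ × Γ) :
    Stp (0, g) a c ↔ Rel g a c ∧ tl g.co c = tl g.ar a := by
  simp only [Stp, Nat.zero_add, Nat.not_lt_zero, false_imp_iff, implies_true, true_and, funext_iff,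
    tl]

theorem sem_cs0 {α : Type} (a : ℕ → α) : tl 0 a = a := funext fun k => by simp [tl]

theorem sem_cs1' {α : Type} (x : α) (a : ℕ → α) : tl 1 (cs x a) = a :=
  funext fun k => by rw [tl, Nat.add_comm]; rfl

theorem sem_cs2 {α : Type} (x y : α) (a : ℕ → α) : tl 2 (cs x (cs y a)) = a :=
  funext fun k => by rw [tl, Nat.add_comm]; rfl

theorem sem_cs1 {α : Type} (x y : α) (a : ℕ → α) : cs x (cs y a) 1 = y := rfl

theorem stp_P (x y : Γ × Γ) (a c : ℕ → Γ × Γ) :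
    Stp (0, P) (cs x (cs y a)) c ↔ c = cs (cj (bd x) y) (cs x a) := by
  obtain ⟨p, c, rfl⟩ := exists_cs c
  obtain ⟨q, c, rfl⟩ := exists_cs c
  simp only [sem_zero, Rel, Gn.co, Gn.ar, sem_cs2, cs_inj, cs_zero, sem_cs1, and_assoc]

theorem stp_Q (x y : Γ × Γ) (a c : ℕ → Γ × Γ) :
    Stp (0, Q) (cs x (cs y a)) c ↔ c = cs y (cs (cj (bd y)⁻¹ x) a) := by
  obtain ⟨p, c, rfl⟩ := exists_cs c
  obtain ⟨q, c, rfl⟩ := exists_cs c
  simp only [sem_zero, Rel, Gn.co, Gn.ar, sem_cs2, cs_inj, cs_zero, sem_cs1, and_assoc]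

theorem stp_m (x y : Γ × Γ) (a c : ℕ → Γ × Γ) :
    Stp (0, m) (cs x (cs y a)) c ↔ y.1 = x.2⁻¹ * x.1 * x.2 ∧ c = cs (x.1, x.2 * y.2) a := by
  obtain ⟨p, c, rfl⟩ := exists_cs c
  simp only [sem_zero, Rel, Gn.co, Gn.ar, sem_cs2, sem_cs1', cs_inj, cs_zero, sem_cs1, and_assoc]

theorem stp_e (a c : ℕ → Γ × Γ) : Stp (0, e) a c ↔ ∃ t, c = cs (t, 1) a := by
  obtain ⟨⟨p, q⟩, c, rfl⟩ := exists_cs c
  simp [sem_zero, Rel, Gn.co, Gn.ar, sem_cs0, sem_cs1', cs_inj]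

theorem stp_d (x : Γ × Γ) (a c : ℕ → Γ × Γ) :
    Stp (0, d) (cs x a) c ↔ ∃ t, c = cs (x.1 * t⁻¹, t * x.2 * t⁻¹) (cs (t, x.2) a) := by
  obtain ⟨⟨p, q⟩, c, rfl⟩ := exists_cs c
  obtain ⟨⟨p', q'⟩, c, rfl⟩ := exists_cs c
  simp only [sem_zero, Rel, Gn.co, Gn.ar, sem_cs2, sem_cs1', cs_inj, cs_zero, sem_cs1, and_assoc,
    Prod.mk.injEq]
  constructor
  · rintro ⟨h1, h2, h3, h4⟩
    exact ⟨p', by rw [h1, mul_inv_cancel_right], h2, rfl, h3, h4⟩
  · rintro ⟨t, h1, h2, rfl, h3, h4⟩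
    exact ⟨by rw [h1, inv_mul_cancel_right], h2, h3, h4⟩

theorem stp_u (x : Γ × Γ) (a c : ℕ → Γ × Γ) : Stp (0, u) (cs x a) c ↔ x.1 = 1 ∧ c = a := by
  simp only [sem_zero, Rel, Gn.co, Gn.ar, sem_cs0, sem_cs1', cs_zero]

theorem stp_S (x : Γ × Γ) (a c : ℕ → Γ × Γ) :
    Stp (0, S) (cs x a) c ↔ c = cs (bd x * x.1⁻¹, x.1 * x.2⁻¹ * x.1⁻¹) a := by
  obtain ⟨p, c, rfl⟩ := exists_cs c
  simp only [sem_zero, Rel, Gn.co, Gn.ar, sem_cs1', cs_inj, cs_zero]

theorem stp_T (x : Γ × Γ) (a c : ℕ → Γ × Γ) :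
    Stp (0, T) (cs x a) c ↔ c = cs (x.1⁻¹ * bd x, x.2⁻¹ * bd x) a := by
  obtain ⟨p, c, rfl⟩ := exists_cs c
  simp only [sem_zero, Rel, Gn.co, Gn.ar, sem_cs1', cs_inj, cs_zero]

theorem stp_l (x : Γ × Γ) (a c : ℕ → Γ × Γ) : Stp (0, l) (cs x a) c ↔ x.2 = 1 ∧ c = a := by
  simp only [sem_zero, Rel, Gn.co, Gn.ar, sem_cs0, sem_cs1', cs_zero]

theorem stp_v (a c : ℕ → Γ × Γ) : Stp (0, v) a c ↔ ∃ t, c = cs (t, t⁻¹) a := by
  obtain ⟨⟨p, q⟩, c, rfl⟩ := exists_cs c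
  simp [sem_zero, Rel, Gn.co, Gn.ar, sem_cs0, sem_cs1', cs_inj, and_assoc]

theorem stp_V (a c : ℕ → Γ × Γ) : Stp (0, V) a c ↔ ∃ t, c = cs (t, t) a := by
  obtain ⟨⟨p, q⟩, c, rfl⟩ := exists_cs c
  simp [sem_zero, Rel, Gn.co, Gn.ar, sem_cs0, sem_cs1', cs_inj, and_assoc]

theorem stp_w (a c : ℕ → Γ × Γ) : Stp (0, w) a c ↔ ∃ s t, c = cs (s, t⁻¹) (cs (t, s⁻¹) a) := by
  obtain ⟨⟨p, q⟩, c, rfl⟩ := exists_cs c
  obtain ⟨⟨p', q'⟩, c, rfl⟩ := exists_cs c
  simp [sem_zero, Rel, Gn.co, Gn.ar, sem_cs0, sem_cs2, cs_inj, and_assoc]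

theorem run_app (x y : Wd) (a c : ℕ → Γ × Γ) :
    Nonempty (Run Γ (x ++ y) a c ≃ Σ b : ℕ → Γ × Γ, Run Γ x a b × Run Γ y b c) :=
  sem_app x y a c

theorem sem_tl {α : Type} (i : ℕ) {a b : ℕ → α} (h1 : ∀ k < i, a k = b k) (h2 : tl i a = tl i b) :
    a = b :=
  sem_ext i 0 h1 (fun k hk => absurd hk (Nat.not_lt_zero k)) (congrFun h2)

theorem sem_sh (i j : ℕ) (g : Gn) (a c : ℕ → Γ × Γ) :
    Stp (i + j, g) a c ↔ (∀ k < i, c k = a k) ∧ Stp (j, g) (tl i a) (tl i c) := by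
  simp only [Stp, tl, Nat.add_assoc, ← and_assoc]
  refine and_congr_left' (and_congr_left' ⟨fun h => ⟨fun k hk => h k (by omega),
    fun k hk => h _ (by omega)⟩, fun h k hk => ?_⟩)
  by_cases hi : k < i
  · exact h.1 k hi
  · have := h.2 (k - i) (by omega)
    rwa [show i + (k - i) = k by omega] at this

theorem run_sh (i : ℕ) (x : Wd) (a b : ℕ → Γ × Γ) :
    Nonempty (Run Γ (sh i x) a b ≃ PLift (∀ k < i, b k = a k) × Run Γ x (tl i a) (tl i b)) := by
  induction x generalizing a with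
  | nil =>
    have h1 : Subsingleton (Run Γ (sh i []) a b) := det_nil Γ a b
    have h2 : Subsingleton (Run Γ [] (tl i a) (tl i b)) := det_nil Γ _ _
    refine ⟨equivOfSubsingletonOfSubsingleton (fun z => ?_) (fun z => ⟨?_⟩)⟩
    · exact ⟨⟨fun k _ => (congrFun z.down k).symm⟩, ⟨congrArg (tl i) z.down⟩⟩
    · exact sem_tl i (fun k hk => (z.1.down k hk).symm) z.2.down
  | cons t x ih =>
    obtain ⟨j, g⟩ := t
    have E := fun a => Classical.choice (ih a)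
    refine ⟨(Equiv.sigmaCongrRight fun c => Equiv.prodCongr (Equiv.refl _) (E c)).trans
      (Equiv.ofBijective (fun z => ⟨⟨fun k hk => (z.2.2.1.down k hk).trans
        (((sem_sh i j g a z.1).1 z.2.1.down).1 k hk)⟩,
        ⟨tl i z.1, ⟨((sem_sh i j g a z.1).1 z.2.1.down).2⟩, z.2.2.2⟩⟩) ⟨?_, ?_⟩)⟩
    · rintro ⟨c, ⟨h1⟩, ⟨h2⟩, z⟩ ⟨c', ⟨h1'⟩, ⟨h2'⟩, z'⟩ h
      obtain ⟨e1, e2⟩ := Sigma.mk.inj (congrArg Prod.snd h)
      obtain rfl : c = c' := sem_tl i (fun k hk => (h2 k hk).symm.trans (h2' k hk)) e1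
      obtain rfl : z = z' := congrArg Prod.snd (eq_of_heq e2)
      rfl
    · rintro ⟨⟨h1⟩, c', ⟨h2⟩, z⟩
      obtain ⟨c, hc, rfl⟩ : ∃ c : ℕ → Γ × Γ, (∀ k < i, c k = a k) ∧ tl i c = c' :=
        ⟨fun k => if k < i then a k else c' (k - i), fun k hk => if_pos hk,
          funext fun k => by simp [tl]⟩
      exact ⟨⟨c, ⟨(sem_sh i j g a c).2 ⟨hc, h2⟩⟩, ⟨fun k hk => (h1 k hk).trans (hc k hk).symm⟩, z⟩,
        rfl⟩

theorem eqv_ctx (p q : Wd) (i : ℕ) {x y : Wd} (h : Eqv x y) :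
    Eqv (p ++ sh i x ++ q) (p ++ sh i y ++ q) := by
  have h1 : Eqv (sh i x) (sh i y) := by
    intro Γ _ a b
    obtain ⟨E1⟩ := run_sh i x a b
    obtain ⟨E2⟩ := run_sh i y a b
    obtain ⟨E⟩ := h Γ (tl i a) (tl i b)
    exact ⟨E1.trans ((Equiv.prodCongr (Equiv.refl _) E).trans E2.symm)⟩
  have h2 : Eqv (p ++ sh i x) (p ++ sh i y) := by
    intro Γ _ a b
    obtain ⟨E1⟩ := run_app p (sh i x) a b
    obtain ⟨E2⟩ := run_app p (sh i y) a b
    exact ⟨E1.trans ((Equiv.sigmaCongrRight fun c =>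
      Equiv.prodCongr (Equiv.refl _) (Classical.choice (h1 Γ c b))).trans E2.symm)⟩
  intro Γ _ a b
  obtain ⟨E1⟩ := run_app (p ++ sh i x) q a b
  obtain ⟨E2⟩ := run_app (p ++ sh i y) q a b
  exact ⟨E1.trans ((Equiv.sigmaCongrRight fun c =>
    Equiv.prodCongr (Classical.choice (h2 Γ a c)) (Equiv.refl _)).trans E2.symm)⟩

end Pool.Agent.GH
end

-- merged part: Pool.Agent.Work.MP_c00b06_gt.SemA
section
/-! The Hopf algebra relations preserve representations. -/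

namespace Pool.Agent.GH
open Gn

section
variable {Γ : Type} [Group Γ]

theorem sema_two (g : Gn) (h h' : Γ × Γ) (a c : ℕ → Γ × Γ) :
    Stp (2, g) (cs h (cs h' a)) c ↔ ∃ c', c = cs h (cs h' c') ∧ Stp (0, g) a c' := by
  rw [show (2 : ℕ) = 1 + 1 from rfl, stp_succ]
  constructor
  · rintro ⟨c1, rfl, h1⟩
    rw [show (1 : ℕ) = 0 + 1 from rfl, stp_succ] at h1
    obtain ⟨c2, rfl, h2⟩ := h1
    exact ⟨c2, rfl, h2⟩
  · rintro ⟨c2, rfl, h2⟩
    refine ⟨cs h' c2, rfl, ?_⟩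
    rw [show (1 : ℕ) = 0 + 1 from rfl, stp_succ]
    exact ⟨c2, rfl, h2⟩

theorem sema_one (g : Gn) (h : Γ × Γ) (a c : ℕ → Γ × Γ) :
    Stp (1, g) (cs h a) c ↔ ∃ c', c = cs h c' ∧ Stp (0, g) a c' := stp_succ 0 g h a c

theorem sema_ex1 {α : Type} (a : ℕ → α) : ∃ x t, a = cs x t := exists_cs a

theorem sema_ex2 {α : Type} (a : ℕ → α) : ∃ x y t, a = cs x (cs y t) := by
  obtain ⟨x, t, rfl⟩ := exists_cs a
  obtain ⟨y, t, rfl⟩ := exists_cs t
  exact ⟨x, y, t, rfl⟩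

theorem sema_ex3 {α : Type} (a : ℕ → α) : ∃ x y z t, a = cs x (cs y (cs z t)) := by
  obtain ⟨x, y, t, rfl⟩ := sema_ex2 a
  obtain ⟨z, t, rfl⟩ := exists_cs t
  exact ⟨x, y, z, t, rfl⟩
end

theorem sema_d1 (i : ℕ) (g : Gn) (hg : g ∈ [P, Q, m, u, S, T, l]) : Det [(i, g)] :=
  det_cons i g hg det_nil

theorem sema_d2 (i : ℕ) (g : Gn) (hg : g ∈ [P, Q, e, d, S, T, v, V, w]) : Det [(i, g)] :=
  det_snoc i g hg det_nil

theorem sema_1 : Eqv [(0, m), (0, m)] [(1, m), (0, m)] := by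
  refine eqv_of (det_cons _ _ (by simp) (sema_d1 _ _ (by simp)))
    (det_cons _ _ (by simp) (sema_d1 _ _ (by simp))) ?_
  intro Γ _ a b
  obtain ⟨x, y, z, t, rfl⟩ := sema_ex3 a
  simp only [rl_cons, rl_nil, sema_one, stp_m]
  constructor
  · rintro ⟨c, ⟨h1, rfl⟩, c', h2, rfl⟩
    rw [stp_m] at h2
    obtain ⟨h2, rfl⟩ := h2
    refine ⟨_, ⟨_, rfl, ?_, rfl⟩, _, (stp_m _ _ _ _).2 ⟨h1, rfl⟩, ?_⟩
    · simp only at h2; rw [h2, h1]; group
    · simp only [mul_assoc]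
  · rintro ⟨c, ⟨c1, rfl, h1, rfl⟩, c', h2, rfl⟩
    rw [stp_m] at h2
    obtain ⟨h2, rfl⟩ := h2
    refine ⟨_, ⟨h2, rfl⟩, _, (stp_m _ _ _ _).2 ⟨?_, rfl⟩, ?_⟩
    · simp only at h2 ⊢; rw [h1, h2]; group
    · simp only [mul_assoc]

theorem sema_detc (x : ℕ × Gn) {r : Wd} (hr : Det r)
    (h : ∀ (Γ : Type) [Group Γ] (a b c c' : ℕ → Γ × Γ), Stp x a c → Rl Γ r c b → Stp x a c' →
      Rl Γ r c' b → c = c') : Det (x :: r) := by
  intro Γ _ a b
  refine ⟨?_⟩
  rintro ⟨c, h1, k⟩ ⟨c', h1', k'⟩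
  obtain rfl := h Γ a b c c' h1.down ⟨k⟩ h1'.down ⟨k'⟩
  have := hr Γ c b
  rw [Subsingleton.elim k k', Subsingleton.elim h1 h1']

theorem sema_r2 {Γ : Type} [Group Γ] (x : Γ × Γ) (t c b : ℕ → Γ × Γ) (h1 : Stp (0, e) (cs x t) c)
    (h2 : Rl Γ [(0, m)] c b) : c = cs (x.1, 1) (cs x t) ∧ cs x t = b := by
  rw [stp_e] at h1
  obtain ⟨s, rfl⟩ := h1
  simp only [rl_cons, rl_nil, stp_m] at h2
  obtain ⟨c, ⟨h2, rfl⟩, rfl⟩ := h2
  have hs : s = x.1 := by rw [h2]; simp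
  subst hs
  simp

theorem sema_2 : Eqv [(0, e), (0, m)] [] := by
  refine eqv_of (sema_detc _ (sema_d1 _ _ (by simp)) ?_) det_nil ?_
  · intro Γ _ a b c c' h1 h2 h3 h4
    obtain ⟨x, t, rfl⟩ := sema_ex1 a
    rw [(sema_r2 x t c b h1 h2).1, (sema_r2 x t c' b h3 h4).1]
  · intro Γ _ a b
    obtain ⟨x, t, rfl⟩ := sema_ex1 a
    rw [rl_cons, rl_nil]
    constructor
    · rintro ⟨c, h1, h2⟩
      exact (sema_r2 x t c b h1 h2).2
    · rintro rfl
      refine ⟨_, (stp_e _ _).2 ⟨x.1, rfl⟩, (rl_cons _ _ _ _).2 ⟨_, (stp_m _ _ _ _).2 ⟨by simp, rfl⟩,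
        (rl_nil _ _).2 (by simp)⟩⟩

theorem sema_r3 {Γ : Type} [Group Γ] (x : Γ × Γ) (t c b : ℕ → Γ × Γ) (h1 : Stp (1, e) (cs x t) c)
    (h2 : Rl Γ [(0, m)] c b) : c = cs x (cs (x.2⁻¹ * x.1 * x.2, 1) t) ∧ cs x t = b := by
  rw [sema_one] at h1
  obtain ⟨c1, rfl, h1⟩ := h1
  rw [stp_e] at h1
  obtain ⟨s, rfl⟩ := h1
  simp only [rl_cons, rl_nil, stp_m] at h2
  obtain ⟨c, ⟨h2, rfl⟩, rfl⟩ := h2
  subst h2
  simp

theorem sema_3 : Eqv [(1, e), (0, m)] [] := by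
  refine eqv_of (sema_detc _ (sema_d1 _ _ (by simp)) ?_) det_nil ?_
  · intro Γ _ a b c c' h1 h2 h3 h4
    obtain ⟨x, t, rfl⟩ := sema_ex1 a
    rw [(sema_r3 x t c b h1 h2).1, (sema_r3 x t c' b h3 h4).1]
  · intro Γ _ a b
    obtain ⟨x, t, rfl⟩ := sema_ex1 a
    rw [rl_cons, rl_nil]
    constructor
    · rintro ⟨c, h1, h2⟩
      exact (sema_r3 x t c b h1 h2).2
    · rintro rfl
      refine ⟨_, (sema_one _ _ _ _).2 ⟨_, rfl, (stp_e _ _).2 ⟨x.2⁻¹ * x.1 * x.2, rfl⟩⟩,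
        (rl_cons _ _ _ _).2 ⟨_, (stp_m _ _ _ _).2 ⟨rfl, rfl⟩, (rl_nil _ _).2 (by simp)⟩⟩

theorem sema_4 : Eqv [(0, d), (0, d)] [(0, d), (1, d)] := by
  refine eqv_of (det_snoc (x := [(0, d)]) _ _ (by simp) (sema_d2 _ _ (by simp)))
    (det_snoc (x := [(0, d)]) _ _ (by simp) (sema_d2 _ _ (by simp))) ?_
  intro Γ _ a b
  obtain ⟨x, t, rfl⟩ := sema_ex1 a
  simp only [rl_cons, rl_nil, stp_d]
  constructor
  · rintro ⟨c, ⟨s, rfl⟩, c', h2, rfl⟩
    rw [stp_d] at h2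
    obtain ⟨r, rfl⟩ := h2
    refine ⟨_, ⟨r * s, rfl⟩, _, (sema_one _ _ _ _).2 ⟨_, rfl, (stp_d _ _ _).2 ⟨s, rfl⟩⟩, ?_⟩
    simp only [cs_inj, Prod.mk.injEq, and_true]
    refine ⟨⟨?_, ?_⟩, ?_⟩ <;> group
  · rintro ⟨c, ⟨s, rfl⟩, c', h2, rfl⟩
    rw [sema_one] at h2
    obtain ⟨c1, rfl, h2⟩ := h2
    rw [stp_d] at h2
    obtain ⟨r, rfl⟩ := h2
    refine ⟨_, ⟨r, rfl⟩, _, (stp_d _ _ _).2 ⟨s * r⁻¹, rfl⟩, ?_⟩
    simp only [cs_inj, Prod.mk.injEq, and_true]
    refine ⟨?_, ?_⟩ <;> group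

theorem sema_r5 {Γ : Type} [Group Γ] (x : Γ × Γ) (t c b : ℕ → Γ × Γ) (h1 : Stp (0, d) (cs x t) c)
    (h2 : Rl Γ [(0, u)] c b) :
    c = cs (x.1 * x.1⁻¹, x.1 * x.2 * x.1⁻¹) (cs (x.1, x.2) t) ∧ cs x t = b := by
  rw [stp_d] at h1
  obtain ⟨s, rfl⟩ := h1
  simp only [rl_cons, rl_nil, stp_u] at h2
  obtain ⟨c, ⟨h2, rfl⟩, rfl⟩ := h2
  have hs : s = x.1 := (mul_inv_eq_one.1 h2).symm
  subst hs
  exact ⟨rfl, rfl⟩

theorem sema_5 : Eqv [(0, d), (0, u)] [] := by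
  refine eqv_of (sema_detc _ (sema_d1 _ _ (by simp)) ?_) det_nil ?_
  · intro Γ _ a b c c' h1 h2 h3 h4
    obtain ⟨x, t, rfl⟩ := sema_ex1 a
    rw [(sema_r5 x t c b h1 h2).1, (sema_r5 x t c' b h3 h4).1]
  · intro Γ _ a b
    obtain ⟨x, t, rfl⟩ := sema_ex1 a
    rw [rl_cons, rl_nil]
    constructor
    · rintro ⟨c, h1, h2⟩
      exact (sema_r5 x t c b h1 h2).2
    · rintro rfl
      exact ⟨_, (stp_d _ _ _).2 ⟨x.1, rfl⟩, (rl_cons _ _ _ _).2 ⟨_, (stp_u _ _ _).2 ⟨by simp, rfl⟩,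
        (rl_nil _ _).2 rfl⟩⟩

theorem sema_r6 {Γ : Type} [Group Γ] (x : Γ × Γ) (t c b : ℕ → Γ × Γ) (h1 : Stp (0, d) (cs x t) c)
    (h2 : Rl Γ [(1, u)] c b) :
    c = cs (x.1 * 1⁻¹, 1 * x.2 * 1⁻¹) (cs (1, x.2) t) ∧ cs x t = b := by
  rw [stp_d] at h1
  obtain ⟨s, rfl⟩ := h1
  simp only [rl_cons, rl_nil, sema_one, stp_u] at h2
  obtain ⟨c, ⟨c1, rfl, h2, rfl⟩, rfl⟩ := h2
  subst h2
  simp

theorem sema_6 : Eqv [(0, d), (1, u)] [] := by
  refine eqv_of (sema_detc _ (sema_d1 _ _ (by simp)) ?_) det_nil ?_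
  · intro Γ _ a b c c' h1 h2 h3 h4
    obtain ⟨x, t, rfl⟩ := sema_ex1 a
    rw [(sema_r6 x t c b h1 h2).1, (sema_r6 x t c' b h3 h4).1]
  · intro Γ _ a b
    obtain ⟨x, t, rfl⟩ := sema_ex1 a
    rw [rl_cons, rl_nil]
    constructor
    · rintro ⟨c, h1, h2⟩
      exact (sema_r6 x t c b h1 h2).2
    · rintro rfl
      exact ⟨_, (stp_d _ _ _).2 ⟨1, rfl⟩, (rl_cons _ _ _ _).2 ⟨_,
        (sema_one _ _ _ _).2 ⟨_, rfl, (stp_u _ _ _).2 ⟨rfl, rfl⟩⟩, (rl_nil _ _).2 (by simp)⟩⟩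

/-- The last three letters of the bialgebra relation. -/
theorem sema_t7 {Γ : Type} [Group Γ] (A B C D : Γ × Γ) (t b : ℕ → Γ × Γ) :
    Rl Γ [(1, P), (0, m), (1, m)] (cs A (cs B (cs C (cs D t)))) b ↔
      (cj (bd B) C).1 = A.2⁻¹ * A.1 * A.2 ∧ D.1 = B.2⁻¹ * B.1 * B.2 ∧
        b = cs (A.1, A.2 * (cj (bd B) C).2) (cs (B.1, B.2 * D.2) t) := by
  simp only [rl_cons, rl_nil, sema_one, stp_P]
  constructor
  · rintro ⟨c, ⟨c1, rfl, rfl⟩, c2, h2, c3, h3, rfl⟩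
    rw [stp_m] at h2
    obtain ⟨h2, rfl⟩ := h2
    rw [sema_one] at h3
    obtain ⟨c4, rfl, h3⟩ := h3
    rw [stp_m] at h3
    obtain ⟨h3, rfl⟩ := h3
    exact ⟨h2, h3, rfl⟩
  · rintro ⟨h2, h3, rfl⟩
    exact ⟨_, ⟨_, rfl, rfl⟩, _, (stp_m _ _ _ _).2 ⟨h2, rfl⟩, _,
      (sema_one _ _ _ _).2 ⟨_, rfl, (stp_m _ _ _ _).2 ⟨h3, rfl⟩⟩, rfl⟩

theorem sema_u7 {Γ : Type} [Group Γ] (A B y : Γ × Γ) (t b : ℕ → Γ × Γ) :
    Rl Γ [(2, d), (1, P), (0, m), (1, m)] (cs A (cs B (cs y t))) b ↔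
      ∃ r, (cj (bd B) (y.1 * r⁻¹, r * y.2 * r⁻¹)).1 = A.2⁻¹ * A.1 * A.2 ∧ r = B.2⁻¹ * B.1 * B.2 ∧
        b = cs (A.1, A.2 * (cj (bd B) (y.1 * r⁻¹, r * y.2 * r⁻¹)).2) (cs (B.1, B.2 * y.2) t) := by
  rw [rl_cons]
  constructor
  · rintro ⟨c, h1, h2⟩
    rw [sema_two] at h1
    obtain ⟨c1, rfl, h1⟩ := h1
    rw [stp_d] at h1
    obtain ⟨r, rfl⟩ := h1
    rw [sema_t7] at h2
    exact ⟨r, h2⟩
  · rintro ⟨r, h⟩
    exact ⟨_, (sema_two _ _ _ _ _).2 ⟨_, rfl, (stp_d _ _ _).2 ⟨r, rfl⟩⟩, (sema_t7 _ _ _ _ _ _).2 h⟩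

theorem sema_7 : Eqv [(0, m), (0, d)] [(0, d), (2, d), (1, P), (0, m), (1, m)] := by
  refine eqv_of (det_cons _ _ (by simp) (sema_d2 _ _ (by simp))) (sema_detc _ (sema_detc _
    (det_cons _ _ (by simp) (det_cons _ _ (by simp) (sema_d1 _ _ (by simp)))) ?_) ?_) ?_
  · intro Γ _ a b c c' h1 h2 h3 h4
    obtain ⟨A, B, y, t, rfl⟩ := sema_ex3 a
    rw [sema_two] at h1 h3
    obtain ⟨c1, rfl, h1⟩ := h1
    obtain ⟨c2, rfl, h3⟩ := h3
    rw [stp_d] at h1 h3
    obtain ⟨r, rfl⟩ := h1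
    obtain ⟨r', rfl⟩ := h3
    rw [sema_t7] at h2 h4
    have e1 : r = B.2⁻¹ * B.1 * B.2 := h2.2.1
    have e2 : r' = B.2⁻¹ * B.1 * B.2 := h4.2.1
    rw [e1, e2]
  · intro Γ _ a b c c' h1 h2 h3 h4
    obtain ⟨x, y, t, rfl⟩ := sema_ex2 a
    rw [stp_d] at h1 h3
    obtain ⟨s, rfl⟩ := h1
    obtain ⟨s', rfl⟩ := h3
    rw [sema_u7] at h2 h4
    obtain ⟨r, -, -, h2⟩ := h2
    obtain ⟨r', -, -, h4⟩ := h4
    have e1 : (b 1).1 = s := by rw [h2]; rfl
    have e2 : (b 1).1 = s' := by rw [h4]; rfl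
    rw [← e1, ← e2]
  · intro Γ _ a b
    obtain ⟨⟨x1, x2⟩, ⟨y1, y2⟩, t, rfl⟩ := sema_ex2 a
    constructor
    · intro h
      simp only [rl_cons, rl_nil, stp_m] at h
      obtain ⟨c, ⟨h1, rfl⟩, c', h2, rfl⟩ := h
      rw [stp_d] at h2
      obtain ⟨s, rfl⟩ := h2
      subst h1
      refine (rl_cons _ _ _ _).2 ⟨_, (stp_d _ _ _).2 ⟨s, rfl⟩, (sema_u7 _ _ _ _ _).2
        ⟨x2⁻¹ * s * x2, ?_, rfl, ?_⟩⟩
      · simp only [cj, bd]; group
      · simp only [cs_inj, Prod.mk.injEq, and_true, true_and, cj, bd]; group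
    · intro h
      rw [rl_cons] at h
      obtain ⟨c, h1, h2⟩ := h
      rw [stp_d] at h1
      obtain ⟨s, rfl⟩ := h1
      rw [sema_u7] at h2
      obtain ⟨r, h2, rfl, rfl⟩ := h2
      simp only [cj, bd] at h2
      have hy : y1 = x2⁻¹ * x1 * x2 := by
        calc y1 = (s * x2⁻¹ * s⁻¹ * x2)⁻¹ * (s * x2⁻¹ * s⁻¹ * x2 * (y1 * (x2⁻¹ * s * x2)⁻¹) *
            (s * x2⁻¹ * s⁻¹ * x2)⁻¹) * (s * x2⁻¹ * s⁻¹ * x2) * (x2⁻¹ * s * x2) := by group
          _ = x2⁻¹ * x1 * x2 := by rw [h2]; group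
      simp only [rl_cons, rl_nil]
      refine ⟨_, (stp_m _ _ _ _).2 ⟨hy, rfl⟩, _, (stp_d _ _ _).2 ⟨s, rfl⟩, ?_⟩
      simp only [cs_inj, Prod.mk.injEq, and_true, true_and, cj, bd]; group

theorem sema_8 : Eqv [(0, m), (0, u)] [(0, u), (0, u)] := by
  refine eqv_of (det_cons _ _ (by simp) (sema_d1 _ _ (by simp)))
    (det_cons _ _ (by simp) (sema_d1 _ _ (by simp))) ?_
  intro Γ _ a b
  obtain ⟨x, y, t, rfl⟩ := sema_ex2 a
  simp only [rl_cons, rl_nil, stp_m, stp_u]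
  constructor
  · rintro ⟨c, ⟨h1, rfl⟩, c', h2, rfl⟩
    rw [stp_u] at h2
    obtain ⟨h2, rfl⟩ := h2
    simp only at h2
    exact ⟨_, ⟨h2, rfl⟩, _, (stp_u _ _ _).2 ⟨by rw [h1, h2]; group, rfl⟩, rfl⟩
  · rintro ⟨c, ⟨h1, rfl⟩, c', h2, rfl⟩
    rw [stp_u] at h2
    obtain ⟨h2, rfl⟩ := h2
    exact ⟨_, ⟨by rw [h1, h2]; group, rfl⟩, _, (stp_u _ _ _).2 ⟨h1, rfl⟩, rfl⟩

theorem sema_9 : Eqv [(0, e), (0, d)] [(0, e), (0, e)] := by
  refine eqv_of (det_snoc (x := [(0, e)]) _ _ (by simp) (sema_d2 _ _ (by simp)))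
    (det_snoc (x := [(0, e)]) _ _ (by simp) (sema_d2 _ _ (by simp))) ?_
  intro Γ _ a b
  simp only [rl_cons, rl_nil, stp_e]
  constructor
  · rintro ⟨c, ⟨s, rfl⟩, c', h2, rfl⟩
    rw [stp_d] at h2
    obtain ⟨r, rfl⟩ := h2
    exact ⟨_, ⟨r, rfl⟩, _, ⟨s * r⁻¹, rfl⟩, by simp⟩
  · rintro ⟨c, ⟨s, rfl⟩, c', ⟨r, rfl⟩, rfl⟩
    exact ⟨_, ⟨r * s, rfl⟩, _, (stp_d _ _ _).2 ⟨s, rfl⟩, by simp⟩

theorem sema_r10 {Γ : Type} [Group Γ] (a c b : ℕ → Γ × Γ) (h1 : Stp (0, e) a c)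
    (h2 : Rl Γ [(0, u)] c b) : c = cs (1, 1) a ∧ a = b := by
  rw [stp_e] at h1
  obtain ⟨s, rfl⟩ := h1
  simp only [rl_cons, rl_nil, stp_u] at h2
  obtain ⟨c, ⟨h2, rfl⟩, rfl⟩ := h2
  subst h2
  exact ⟨rfl, rfl⟩

theorem sema_10 : Eqv [(0, e), (0, u)] [] := by
  refine eqv_of (sema_detc _ (sema_d1 _ _ (by simp)) ?_) det_nil ?_
  · intro Γ _ a b c c' h1 h2 h3 h4
    rw [(sema_r10 a c b h1 h2).1, (sema_r10 a c' b h3 h4).1]
  · intro Γ _ a b
    rw [rl_cons, rl_nil]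
    constructor
    · rintro ⟨c, h1, h2⟩
      exact (sema_r10 a c b h1 h2).2
    · rintro rfl
      exact ⟨_, (stp_e _ _).2 ⟨1, rfl⟩, (rl_cons _ _ _ _).2 ⟨_, (stp_u _ _ _).2 ⟨rfl, rfl⟩,
        (rl_nil _ _).2 rfl⟩⟩

theorem sema_ue {Γ : Type} [Group Γ] (x : Γ × Γ) (t b : ℕ → Γ × Γ) :
    Rl Γ [(0, u), (0, e)] (cs x t) b ↔ x.1 = 1 ∧ ∃ r, b = cs (r, 1) t := by
  simp only [rl_cons, rl_nil, stp_u, stp_e]
  constructor
  · rintro ⟨c, ⟨h1, rfl⟩, c', ⟨r, rfl⟩, rfl⟩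
    exact ⟨h1, r, rfl⟩
  · rintro ⟨h1, r, rfl⟩
    exact ⟨_, ⟨h1, rfl⟩, _, ⟨r, rfl⟩, rfl⟩

theorem sema_t11 {Γ : Type} [Group Γ] (x1 x2 s : Γ) (t b : ℕ → Γ × Γ) :
    Rl Γ [(0, S), (0, m)] (cs (x1 * s⁻¹, s * x2 * s⁻¹) (cs (s, x2) t)) b ↔
      x1 = 1 ∧ b = cs (x2⁻¹ * s * x2, 1) t := by
  simp only [rl_cons, rl_nil, stp_S]
  constructor
  · rintro ⟨c, rfl, c', h2, rfl⟩
    rw [stp_m] at h2
    obtain ⟨h2, rfl⟩ := h2
    simp only [bd] at h2
    have h3 : s = s * x1⁻¹ := by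
      refine h2.trans ?_
      group
    have hx : x1 = 1 := by simpa using h3
    subst hx
    refine ⟨rfl, ?_⟩
    simp only [cs_inj, Prod.mk.injEq, and_true, bd]
    refine ⟨?_, ?_⟩ <;> group
  · rintro ⟨rfl, rfl⟩
    refine ⟨_, rfl, _, (stp_m _ _ _ _).2 ⟨?_, rfl⟩, ?_⟩
    · simp only [bd]; group
    · simp only [cs_inj, Prod.mk.injEq, and_true, bd]
      refine ⟨?_, ?_⟩ <;> group

theorem sema_11 : Eqv [(0, d), (0, S), (0, m)] [(0, u), (0, e)] := by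
  refine eqv_of (sema_detc _ (det_cons _ _ (by simp) (sema_d1 _ _ (by simp))) ?_)
    (det_cons _ _ (by simp) (sema_d2 _ _ (by simp))) ?_
  · intro Γ _ a b c c' h1 h2 h3 h4
    obtain ⟨⟨x1, x2⟩, t, rfl⟩ := sema_ex1 a
    rw [stp_d] at h1 h3
    obtain ⟨s, rfl⟩ := h1
    obtain ⟨s', rfl⟩ := h3
    rw [sema_t11] at h2 h4
    have e1 : s = x2 * (b 0).1 * x2⁻¹ := by rw [h2.2]; simp only [cs_zero]; group
    have e2 : s' = x2 * (b 0).1 * x2⁻¹ := by rw [h4.2]; simp only [cs_zero]; group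
    rw [e1, e2]
  · intro Γ _ a b
    obtain ⟨⟨x1, x2⟩, t, rfl⟩ := sema_ex1 a
    rw [sema_ue, rl_cons]
    constructor
    · rintro ⟨c, h1, h2⟩
      rw [stp_d] at h1
      obtain ⟨s, rfl⟩ := h1
      rw [sema_t11] at h2
      exact ⟨h2.1, _, h2.2⟩
    · rintro ⟨h1, r, rfl⟩
      refine ⟨_, (stp_d _ _ _).2 ⟨x2 * r * x2⁻¹, rfl⟩, (sema_t11 _ _ _ _ _).2 ⟨h1, ?_⟩⟩
      simp only [cs_inj, Prod.mk.injEq, and_true]; group

theorem sema_t12 {Γ : Type} [Group Γ] (x1 x2 s : Γ) (t b : ℕ → Γ × Γ) :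
    Rl Γ [(1, S), (0, m)] (cs (x1 * s⁻¹, s * x2 * s⁻¹) (cs (s, x2) t)) b ↔
      x1 = 1 ∧ b = cs (s⁻¹, 1) t := by
  simp only [rl_cons, rl_nil, sema_one, stp_S]
  constructor
  · rintro ⟨c, ⟨c1, rfl, rfl⟩, c', h2, rfl⟩
    rw [stp_m] at h2
    obtain ⟨h2, rfl⟩ := h2
    simp only [bd] at h2
    have hx : x1 = 1 := by
      calc x1 = (s * x2 * s⁻¹) * ((s * x2 * s⁻¹)⁻¹ * (x1 * s⁻¹) * (s * x2 * s⁻¹)) *
          (s * x2 * s⁻¹)⁻¹ * s := by group
        _ = 1 := by rw [← h2]; group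
    subst hx
    refine ⟨rfl, ?_⟩
    simp only [cs_inj, Prod.mk.injEq, and_true]
    refine ⟨?_, ?_⟩ <;> group
  · rintro ⟨rfl, rfl⟩
    refine ⟨_, ⟨_, rfl, rfl⟩, _, (stp_m _ _ _ _).2 ⟨?_, rfl⟩, ?_⟩
    · simp only [bd]; group
    · simp only [cs_inj, Prod.mk.injEq, and_true]
      refine ⟨?_, ?_⟩ <;> group

theorem sema_12 : Eqv [(0, d), (1, S), (0, m)] [(0, u), (0, e)] := by
  refine eqv_of (sema_detc _ (det_cons _ _ (by simp) (sema_d1 _ _ (by simp))) ?_)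
    (det_cons _ _ (by simp) (sema_d2 _ _ (by simp))) ?_
  · intro Γ _ a b c c' h1 h2 h3 h4
    obtain ⟨⟨x1, x2⟩, t, rfl⟩ := sema_ex1 a
    rw [stp_d] at h1 h3
    obtain ⟨s, rfl⟩ := h1
    obtain ⟨s', rfl⟩ := h3
    rw [sema_t12] at h2 h4
    have e1 : s = (b 0).1⁻¹ := by rw [h2.2]; simp
    have e2 : s' = (b 0).1⁻¹ := by rw [h4.2]; simp
    rw [e1, e2]
  · intro Γ _ a b
    obtain ⟨⟨x1, x2⟩, t, rfl⟩ := sema_ex1 a
    rw [sema_ue, rl_cons]
    constructor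
    · rintro ⟨c, h1, h2⟩
      rw [stp_d] at h1
      obtain ⟨s, rfl⟩ := h1
      rw [sema_t12] at h2
      exact ⟨h2.1, _, h2.2⟩
    · rintro ⟨h1, r, rfl⟩
      exact ⟨_, (stp_d _ _ _).2 ⟨r⁻¹, rfl⟩, (sema_t12 _ _ _ _ _).2 ⟨h1, by simp⟩⟩

theorem sema_13 : Eqv [(0, S), (0, T)] [] := by
  refine eqv_of (det_cons _ _ (by simp) (sema_d1 _ _ (by simp))) det_nil ?_
  intro Γ _ a b
  obtain ⟨⟨x1, x2⟩, t, rfl⟩ := sema_ex1 a
  simp only [rl_cons, rl_nil, stp_S, exists_eq_left, stp_T]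
  apply Eq.congr_left
  simp only [cs_inj, Prod.mk.injEq, and_true, bd]
  refine ⟨?_, ?_⟩ <;> group

theorem sema_14 : Eqv [(0, T), (0, S)] [] := by
  refine eqv_of (det_cons _ _ (by simp) (sema_d1 _ _ (by simp))) det_nil ?_
  intro Γ _ a b
  obtain ⟨⟨x1, x2⟩, t, rfl⟩ := sema_ex1 a
  simp only [rl_cons, rl_nil, stp_S, exists_eq_left, stp_T]
  apply Eq.congr_left
  simp only [cs_inj, Prod.mk.injEq, and_true, bd]
  refine ⟨?_, ?_⟩ <;> group

theorem sema_15 : Eqv [(0, P), (0, Q)] [] := by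
  refine eqv_of (det_cons _ _ (by simp) (sema_d1 _ _ (by simp))) det_nil ?_
  intro Γ _ a b
  obtain ⟨x, ⟨y1, y2⟩, t, rfl⟩ := sema_ex2 a
  simp only [rl_cons, rl_nil, stp_P, exists_eq_left, stp_Q]
  apply Eq.congr_left
  simp only [cs_inj, Prod.mk.injEq, and_true, true_and, cj]
  refine ⟨?_, ?_⟩ <;> group

theorem sema_16 : Eqv [(0, Q), (0, P)] [] := by
  refine eqv_of (det_cons _ _ (by simp) (sema_d1 _ _ (by simp))) det_nil ?_
  intro Γ _ a b
  obtain ⟨⟨x1, x2⟩, y, t, rfl⟩ := sema_ex2 a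
  simp only [rl_cons, rl_nil, stp_P, exists_eq_left, stp_Q]
  apply Eq.congr_left
  simp only [cs_inj, Prod.mk.injEq, and_true, cj]
  refine ⟨?_, ?_⟩ <;> group

theorem eqvA : ∀ r ∈ axs.take 16, Eqv r.1 r.2 := by
  intro r hr
  simp only [axs, List.take_succ_cons, List.take_zero, List.mem_cons, List.not_mem_nil,
    or_false] at hr
  rcases hr with rfl | rfl | rfl | rfl | rfl | rfl | rfl | rfl | rfl | rfl | rfl | rfl | rfl | rfl |
    rfl | rfl
  exacts [sema_1, sema_2, sema_3, sema_4, sema_5, sema_6, sema_7, sema_8, sema_9, sema_10, sema_11,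
    sema_12, sema_13, sema_14, sema_15, sema_16]

end Pool.Agent.GH
end

-- merged part: Pool.Agent.Work.MP_c00b06_gt.SemB
section
/-! The integral, ribbon, copairing and pairing relations preserve representations. -/

namespace Pool.Agent.GH
open Gn

section
variable {Γ : Type} [Group Γ]

/-- One letter followed by a condition on the new state. -/
def semB_St (i : ℕ) (g : Gn) (a : ℕ → Γ × Γ) (K : (ℕ → Γ × Γ) → Prop) : Prop :=
  ∃ c, Stp (i, g) a c ∧ K c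

theorem semB_cons (i : ℕ) (g : Gn) (r : Wd) (a b : ℕ → Γ × Γ) :
    Rl Γ ((i, g) :: r) a b ↔ semB_St i g a (fun c => Rl Γ r c b) := rl_cons _ _ _ _

theorem semB_succ (i : ℕ) (g : Gn) (h : Γ × Γ) (a : ℕ → Γ × Γ) (K : (ℕ → Γ × Γ) → Prop) :
    semB_St (i + 1) g (cs h a) K ↔ semB_St i g a (fun c => K (cs h c)) := by
  constructor
  · rintro ⟨c, h1, h2⟩
    obtain ⟨c', rfl, h3⟩ := (stp_succ i g h a c).1 h1
    exact ⟨c', h3, h2⟩
  · rintro ⟨c, h1, h2⟩
    exact ⟨_, (stp_succ i g h a _).2 ⟨c, rfl, h1⟩, h2⟩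

theorem semB_1 (g : Gn) (h : Γ × Γ) (a : ℕ → Γ × Γ) (K : (ℕ → Γ × Γ) → Prop) :
    semB_St 1 g (cs h a) K ↔ semB_St 0 g a (fun c => K (cs h c)) := semB_succ 0 g h a K

theorem semB_2 (g : Gn) (h : Γ × Γ) (a : ℕ → Γ × Γ) (K : (ℕ → Γ × Γ) → Prop) :
    semB_St 2 g (cs h a) K ↔ semB_St 1 g a (fun c => K (cs h c)) := semB_succ 1 g h a K

theorem semB_3 (g : Gn) (h : Γ × Γ) (a : ℕ → Γ × Γ) (K : (ℕ → Γ × Γ) → Prop) :
    semB_St 3 g (cs h a) K ↔ semB_St 2 g a (fun c => K (cs h c)) := semB_succ 2 g h a K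

theorem semB_m (x y : Γ × Γ) (a : ℕ → Γ × Γ) (K : (ℕ → Γ × Γ) → Prop) :
    semB_St 0 m (cs x (cs y a)) K ↔ y.1 = x.2⁻¹ * x.1 * x.2 ∧ K (cs (x.1, x.2 * y.2) a) := by
  simp only [semB_St, stp_m]
  exact ⟨fun ⟨_, ⟨h1, h2⟩, h3⟩ => ⟨h1, h2 ▸ h3⟩, fun ⟨h1, h2⟩ => ⟨_, ⟨h1, rfl⟩, h2⟩⟩

theorem semB_e (a : ℕ → Γ × Γ) (K : (ℕ → Γ × Γ) → Prop) :
    semB_St 0 e a K ↔ ∃ t, K (cs (t, 1) a) := by
  simp only [semB_St, stp_e]
  exact ⟨fun ⟨_, ⟨t, h2⟩, h3⟩ => ⟨t, h2 ▸ h3⟩, fun ⟨t, h2⟩ => ⟨_, ⟨t, rfl⟩, h2⟩⟩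

theorem semB_d (x : Γ × Γ) (a : ℕ → Γ × Γ) (K : (ℕ → Γ × Γ) → Prop) :
    semB_St 0 d (cs x a) K ↔ ∃ t, K (cs (x.1 * t⁻¹, t * x.2 * t⁻¹) (cs (t, x.2) a)) := by
  simp only [semB_St, stp_d]
  exact ⟨fun ⟨_, ⟨t, h2⟩, h3⟩ => ⟨t, h2 ▸ h3⟩, fun ⟨t, h2⟩ => ⟨_, ⟨t, rfl⟩, h2⟩⟩

theorem semB_u (x : Γ × Γ) (a : ℕ → Γ × Γ) (K : (ℕ → Γ × Γ) → Prop) :
    semB_St 0 u (cs x a) K ↔ x.1 = 1 ∧ K a := by
  simp only [semB_St, stp_u]
  exact ⟨fun ⟨_, ⟨h1, h2⟩, h3⟩ => ⟨h1, h2 ▸ h3⟩, fun ⟨h1, h2⟩ => ⟨_, ⟨h1, rfl⟩, h2⟩⟩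

theorem semB_S (x : Γ × Γ) (a : ℕ → Γ × Γ) (K : (ℕ → Γ × Γ) → Prop) :
    semB_St 0 S (cs x a) K ↔ K (cs (bd x * x.1⁻¹, x.1 * x.2⁻¹ * x.1⁻¹) a) := by
  simp only [semB_St, stp_S]
  exact ⟨fun ⟨_, h2, h3⟩ => h2 ▸ h3, fun h2 => ⟨_, rfl, h2⟩⟩

theorem semB_l (x : Γ × Γ) (a : ℕ → Γ × Γ) (K : (ℕ → Γ × Γ) → Prop) :
    semB_St 0 l (cs x a) K ↔ x.2 = 1 ∧ K a := by
  simp only [semB_St, stp_l]
  exact ⟨fun ⟨_, ⟨h1, h2⟩, h3⟩ => ⟨h1, h2 ▸ h3⟩, fun ⟨h1, h2⟩ => ⟨_, ⟨h1, rfl⟩, h2⟩⟩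

theorem semB_v (a : ℕ → Γ × Γ) (K : (ℕ → Γ × Γ) → Prop) :
    semB_St 0 v a K ↔ ∃ t, K (cs (t, t⁻¹) a) := by
  simp only [semB_St, stp_v]
  exact ⟨fun ⟨_, ⟨t, h2⟩, h3⟩ => ⟨t, h2 ▸ h3⟩, fun ⟨t, h2⟩ => ⟨_, ⟨t, rfl⟩, h2⟩⟩

theorem semB_V (a : ℕ → Γ × Γ) (K : (ℕ → Γ × Γ) → Prop) :
    semB_St 0 V a K ↔ ∃ t, K (cs (t, t) a) := by
  simp only [semB_St, stp_V]
  exact ⟨fun ⟨_, ⟨t, h2⟩, h3⟩ => ⟨t, h2 ▸ h3⟩, fun ⟨t, h2⟩ => ⟨_, ⟨t, rfl⟩, h2⟩⟩

theorem semB_w (a : ℕ → Γ × Γ) (K : (ℕ → Γ × Γ) → Prop) :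
    semB_St 0 w a K ↔ ∃ s t, K (cs (s, t⁻¹) (cs (t, s⁻¹) a)) := by
  simp only [semB_St, stp_w]
  exact ⟨fun ⟨_, ⟨s, t, h2⟩, h3⟩ => ⟨s, t, h2 ▸ h3⟩, fun ⟨s, t, h2⟩ => ⟨_, ⟨s, t, rfl⟩, h2⟩⟩

end

/-- A word cut in two deterministic halves with a unique middle state. -/
theorem semB_det {x y : Wd} (hx : Det x) (hy : Det y)
    (h : ∀ (Γ : Type) [Group Γ] (a b c c' : ℕ → Γ × Γ),
      Rl Γ x a c → Rl Γ x a c' → Rl Γ y c b → Rl Γ y c' b → c = c') : Det (x ++ y) := by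
  intro Γ _ a b
  obtain ⟨E⟩ := run_app (Γ := Γ) x y a b
  have : Subsingleton (Σ c : ℕ → Γ × Γ, Run Γ x a c × Run Γ y c b) := by
    constructor
    rintro ⟨c, p, q⟩ ⟨c', p', q'⟩
    obtain rfl := h Γ a b c c' ⟨p⟩ ⟨p'⟩ ⟨q⟩ ⟨q'⟩
    rw [(hx Γ a c).elim p p', (hy Γ c b).elim q q']
  exact E.subsingleton

theorem semB_f1 (i : ℕ) (g : Gn) (hg : g ∈ [P, Q, m, u, S, T, l]) : Det [(i, g)] :=
  det_cons i g hg det_nil

theorem semB_b1 (i : ℕ) (g : Gn) (hg : g ∈ [P, Q, e, d, S, T, v, V, w]) : Det [(i, g)] :=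
  det_snoc (x := []) i g hg det_nil

theorem semB_b2 (i j : ℕ) (g h : Gn) (hg : g ∈ [P, Q, e, d, S, T, v, V, w])
    (hh : h ∈ [P, Q, e, d, S, T, v, V, w]) : Det [(i, g), (j, h)] :=
  det_snoc (x := [(i, g)]) j h hh (semB_b1 i g hg)

theorem semB_le : Det [(0, l), (0, e)] := det_cons 0 l (by simp) (semB_b1 0 e (by simp))

theorem semB_16 : Eqv [(0, d), (1, l)] [(0, l), (0, e)] := by
  refine eqv_of (semB_det (x := [(0, d)]) (y := [(1, l)]) (semB_b1 _ _ (by simp))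
    (semB_f1 _ _ (by simp)) ?_) semB_le ?_
  · intro Γ _ a b c c' h1 h2 h3 h4
    obtain ⟨⟨x, y⟩, a, rfl⟩ := exists_cs a
    simp only [semB_cons, rl_nil, semB_d] at h1 h2
    obtain ⟨t, rfl⟩ := h1
    obtain ⟨t', rfl⟩ := h2
    simp only [semB_cons, rl_nil, semB_1, semB_l] at h3 h4
    have h5 := h3.2.trans h4.2.symm
    simp only [cs_inj, Prod.mk.injEq, mul_right_inj, inv_inj] at h5
    rw [h5.1.1]
  · intro Γ _ a b
    obtain ⟨⟨x, y⟩, a, rfl⟩ := exists_cs a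
    simp only [semB_cons, rl_nil, semB_d, semB_1, semB_l, semB_e]
    constructor
    · rintro ⟨t, rfl, rfl⟩
      exact ⟨rfl, x * t⁻¹, by simp⟩
    · rintro ⟨rfl, t, rfl⟩
      exact ⟨t⁻¹ * x, rfl, by simp⟩

theorem semB_17 : Eqv [(0, d), (0, l)] [(0, l), (0, e)] := by
  refine eqv_of (semB_det (x := [(0, d)]) (y := [(0, l)]) (semB_b1 _ _ (by simp))
    (semB_f1 _ _ (by simp)) ?_) semB_le ?_
  · intro Γ _ a b c c' h1 h2 h3 h4
    obtain ⟨⟨x, y⟩, a, rfl⟩ := exists_cs a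
    simp only [semB_cons, rl_nil, semB_d] at h1 h2
    obtain ⟨t, rfl⟩ := h1
    obtain ⟨t', rfl⟩ := h2
    simp only [semB_cons, rl_nil, semB_l] at h3 h4
    have h5 := h3.2.trans h4.2.symm
    simp only [cs_inj, Prod.mk.injEq] at h5
    rw [h5.1.1]
  · intro Γ _ a b
    obtain ⟨⟨x, y⟩, a, rfl⟩ := exists_cs a
    simp only [semB_cons, rl_nil, semB_d, semB_l, semB_e]
    constructor
    · rintro ⟨t, h, rfl⟩
      obtain rfl : y = 1 := by simpa using h
      exact ⟨rfl, t, rfl⟩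
    · rintro ⟨rfl, t, rfl⟩
      exact ⟨t, by simp, rfl⟩

theorem semB_18 : Eqv [(0, S), (0, l)] [(0, l)] := by
  refine eqv_of (det_cons _ _ (by simp) (semB_f1 _ _ (by simp))) (semB_f1 _ _ (by simp)) ?_
  intro Γ _ a b
  obtain ⟨⟨x, y⟩, a, rfl⟩ := exists_cs a
  simp only [semB_cons, rl_nil, semB_S, semB_l]
  simp

theorem semB_19 : Eqv [(0, v), (0, m)] [(1, v), (0, m)] := by
  refine eqv_of (semB_det (x := [(0, v)]) (y := [(0, m)]) (semB_b1 _ _ (by simp))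
    (semB_f1 _ _ (by simp)) ?_) (semB_det (x := [(1, v)]) (y := [(0, m)]) (semB_b1 _ _ (by simp))
    (semB_f1 _ _ (by simp)) ?_) ?_
  · intro Γ _ a b c c' h1 h2 h3 h4
    obtain ⟨⟨x, y⟩, a, rfl⟩ := exists_cs a
    simp only [semB_cons, rl_nil, semB_v] at h1 h2
    obtain ⟨t, rfl⟩ := h1
    obtain ⟨t', rfl⟩ := h2
    simp only [semB_cons, rl_nil, semB_m] at h3 h4
    have h5 := h3.2.trans h4.2.symm
    simp only [cs_inj, Prod.mk.injEq] at h5
    rw [h5.1.1]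
  · intro Γ _ a b c c' h1 h2 h3 h4
    obtain ⟨⟨x, y⟩, a, rfl⟩ := exists_cs a
    simp only [semB_cons, rl_nil, semB_1, semB_v] at h1 h2
    obtain ⟨t, rfl⟩ := h1
    obtain ⟨t', rfl⟩ := h2
    simp only [semB_cons, rl_nil, semB_m] at h3 h4
    rw [h3.1, h4.1]
  · intro Γ _ a b
    obtain ⟨⟨x, y⟩, a, rfl⟩ := exists_cs a
    simp only [semB_cons, rl_nil, semB_1, semB_v, semB_m]
    constructor
    · rintro ⟨t, h, rfl⟩
      obtain rfl : x = t := by simpa using h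
      exact ⟨_, rfl, by simp [mul_assoc]⟩
    · rintro ⟨t, rfl, rfl⟩
      exact ⟨x, by simp, by simp [mul_assoc]⟩

theorem semB_20 : Eqv [(0, v), (0, V), (0, m)] [(0, e)] := by
  refine eqv_of (semB_det (x := [(0, v), (0, V)]) (y := [(0, m)])
    (semB_b2 _ _ _ _ (by simp) (by simp)) (semB_f1 _ _ (by simp)) ?_) (semB_b1 _ _ (by simp)) ?_
  · intro Γ _ a b c c' h1 h2 h3 h4
    simp only [semB_cons, rl_nil, semB_v, semB_V] at h1 h2
    obtain ⟨t, s, rfl⟩ := h1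
    obtain ⟨t', s', rfl⟩ := h2
    simp only [semB_cons, rl_nil, semB_m] at h3 h4
    have h5 := h3.2.trans h4.2.symm
    simp only [cs_inj, Prod.mk.injEq] at h5
    rw [h3.1, h4.1, h5.1.1]
  · intro Γ _ a b
    simp only [semB_cons, rl_nil, semB_v, semB_V, semB_m, semB_e]
    constructor
    · rintro ⟨t, s, rfl, rfl⟩
      exact ⟨s, by simp⟩
    · rintro ⟨t, rfl⟩
      exact ⟨t, t, by simp, by simp⟩

theorem semB_21 : Eqv [(0, v), (0, u)] [] := by
  refine eqv_of (semB_det (x := [(0, v)]) (y := [(0, u)]) (semB_b1 _ _ (by simp))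
    (semB_f1 _ _ (by simp)) ?_) det_nil ?_
  · intro Γ _ a b c c' h1 h2 h3 h4
    simp only [semB_cons, rl_nil, semB_v] at h1 h2
    obtain ⟨t, rfl⟩ := h1
    obtain ⟨t', rfl⟩ := h2
    simp only [semB_cons, rl_nil, semB_u] at h3 h4
    rw [h3.1, h4.1]
  · intro Γ _ a b
    simp only [semB_cons, rl_nil, semB_v, semB_u]
    exact ⟨fun ⟨_, _, h⟩ => h, fun h => ⟨1, rfl, h⟩⟩

theorem semB_22 : Eqv [(0, v), (0, S)] [(0, v)] := by
  refine eqv_of (semB_b2 _ _ _ _ (by simp) (by simp)) (semB_b1 _ _ (by simp)) ?_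
  intro Γ _ a b
  simp only [semB_cons, rl_nil, semB_v, semB_S]
  constructor
  · rintro ⟨t, rfl⟩
    exact ⟨t⁻¹, by simp [bd]⟩
  · rintro ⟨t, rfl⟩
    exact ⟨t⁻¹, by simp [bd]⟩

theorem semB_23 : Eqv [(0, v), (0, d)] [(0, v), (1, w), (3, v), (0, m), (1, m)] := by
  refine eqv_of (semB_b2 _ _ _ _ (by simp) (by simp))
    (semB_det (x := [(0, v), (1, w), (3, v)]) (y := [(0, m), (1, m)])
      (det_snoc (x := [(0, v), (1, w)]) _ _ (by simp) (semB_b2 _ _ _ _ (by simp) (by simp)))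
      (det_cons _ _ (by simp) (semB_f1 _ _ (by simp))) ?_) ?_
  · intro Γ _ a b c c' h1 h2 h3 h4
    simp only [semB_cons, rl_nil, semB_1, semB_2, semB_3, semB_v, semB_w] at h1 h2
    obtain ⟨p, q, r, n, rfl⟩ := h1
    obtain ⟨p', q', r', n', rfl⟩ := h2
    simp only [semB_cons, rl_nil, semB_1, semB_m] at h3 h4
    have h5 := h3.2.2.trans h4.2.2.symm
    simp only [cs_inj, Prod.mk.injEq] at h5
    obtain ⟨⟨rfl, -⟩, ⟨rfl, -⟩, -⟩ := h5
    obtain ⟨rfl, rfl, -⟩ := h3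
    obtain ⟨rfl, rfl, -⟩ := h4
    rfl
  · intro Γ _ a b
    simp only [semB_cons, rl_nil, semB_1, semB_2, semB_3, semB_v, semB_w, semB_m, semB_d]
    constructor
    · rintro ⟨t, s, rfl⟩
      exact ⟨t * s⁻¹, _, s, _, rfl, rfl, by simp [mul_assoc]⟩
    · rintro ⟨p, q, r, n, rfl, rfl, rfl⟩
      exact ⟨p * r, r, by simp [mul_assoc]⟩

theorem semB_24 : Eqv [(0, w), (1, d)] [(0, w), (1, w), (0, m)] := by
  refine eqv_of (semB_b2 _ _ _ _ (by simp) (by simp))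
    (semB_det (x := [(0, w), (1, w)]) (y := [(0, m)]) (semB_b2 _ _ _ _ (by simp) (by simp))
      (semB_f1 _ _ (by simp)) ?_) ?_
  · intro Γ _ a b c c' h1 h2 h3 h4
    simp only [semB_cons, rl_nil, semB_1, semB_w] at h1 h2
    obtain ⟨s, t, p, q, rfl⟩ := h1
    obtain ⟨s', t', p', q', rfl⟩ := h2
    simp only [semB_cons, rl_nil, semB_m] at h3 h4
    have h5 := h3.2.trans h4.2.symm
    simp only [cs_inj, Prod.mk.injEq] at h5
    obtain ⟨⟨rfl, -⟩, ⟨rfl, -⟩, ⟨rfl, -⟩, -⟩ := h5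
    rw [h3.1, h4.1]
  · intro Γ _ a b
    simp only [semB_cons, rl_nil, semB_1, semB_w, semB_m, semB_d]
    constructor
    · rintro ⟨s, t, n, rfl⟩
      exact ⟨s, n, _, t * n⁻¹, rfl, by simp [mul_assoc]⟩
    · rintro ⟨s, t, p, q, rfl, rfl⟩
      exact ⟨s, q * t, t, by simp [mul_assoc]⟩

theorem semB_25 : Eqv [(0, w), (0, d)] [(0, w), (1, w), (2, m)] := by
  refine eqv_of (semB_b2 _ _ _ _ (by simp) (by simp))
    (semB_det (x := [(0, w), (1, w)]) (y := [(2, m)]) (semB_b2 _ _ _ _ (by simp) (by simp))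
      (semB_f1 _ _ (by simp)) ?_) ?_
  · intro Γ _ a b c c' h1 h2 h3 h4
    simp only [semB_cons, rl_nil, semB_1, semB_w] at h1 h2
    obtain ⟨s, t, p, q, rfl⟩ := h1
    obtain ⟨s', t', p', q', rfl⟩ := h2
    simp only [semB_cons, rl_nil, semB_1, semB_2, semB_m] at h3 h4
    have h5 := h3.2.trans h4.2.symm
    simp only [cs_inj, Prod.mk.injEq] at h5
    obtain ⟨⟨rfl, -⟩, ⟨rfl, -⟩, ⟨rfl, -⟩, -⟩ := h5
    rw [h3.1, h4.1]
  · intro Γ _ a b
    simp only [semB_cons, rl_nil, semB_1, semB_2, semB_w, semB_m, semB_d]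
    constructor
    · rintro ⟨s, t, n, rfl⟩
      exact ⟨s * n⁻¹, _, n, t, rfl, by simp [mul_assoc]⟩
    · rintro ⟨s, t, p, q, rfl, rfl⟩
      exact ⟨s * p, q, p, by simp [mul_assoc]⟩

theorem semB_f4 (i j k n : ℕ) : Det [(i, m), (j, m), (k, l), (n, l)] :=
  det_cons _ _ (by simp) (det_cons _ _ (by simp) (det_cons _ _ (by simp) (semB_f1 _ _ (by simp))))

theorem semB_26 : Eqv [(0, w), (2, w), (2, S), (1, m), (2, m), (1, l), (1, l)] [] := by
  refine eqv_of (semB_det (x := [(0, w), (2, w), (2, S)]) (y := [(1, m), (2, m), (1, l), (1, l)])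
      (det_snoc (x := [(0, w), (2, w)]) _ _ (by simp) (semB_b2 _ _ _ _ (by simp) (by simp)))
      (semB_f4 _ _ _ _) ?_) det_nil ?_
  · intro Γ _ a b c c' h1 h2 h3 h4
    obtain ⟨⟨x, y⟩, a, rfl⟩ := exists_cs a
    simp only [semB_cons, rl_nil, semB_1, semB_2, semB_w, semB_S] at h1 h2
    obtain ⟨s, t, p, q, rfl⟩ := h1
    obtain ⟨s', t', p', q', rfl⟩ := h2
    simp only [semB_cons, rl_nil, semB_1, semB_2, semB_m, semB_l] at h3 h4
    have h5 := h3.2.2.2.2.trans h4.2.2.2.2.symm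
    simp only [cs_inj, Prod.mk.injEq, inv_inj] at h5
    obtain ⟨⟨rfl, rfl⟩, -⟩ := h5
    obtain rfl : p = y := inv_mul_eq_one.1 h3.2.2.2.1
    obtain rfl : p' = p := inv_mul_eq_one.1 h4.2.2.2.1
    obtain rfl : q = q' := by simpa using h3.2.1.symm.trans h4.2.1
    rfl
  · intro Γ _ a b
    obtain ⟨⟨x, y⟩, a, rfl⟩ := exists_cs a
    simp only [semB_cons, rl_nil, semB_1, semB_2, semB_w, semB_S, semB_m, semB_l, bd]
    constructor
    · rintro ⟨s, t, p, q, h1, rfl, h3, h4, rfl⟩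
      obtain rfl : p = y := inv_mul_eq_one.1 h4
      obtain rfl : s = p * q⁻¹⁻¹ * p⁻¹ := inv_mul_eq_one.1 h3
      obtain rfl : t = p⁻¹ := by
        have h6 : t = (p * q * p⁻¹)⁻¹ * (p * q⁻¹⁻¹ * p⁻¹ * q⁻¹ * p⁻¹) * (p * q * p⁻¹) := by
          rw [h1]; group
        rw [h6]; group
      simp
    · rintro rfl
      refine ⟨x, y⁻¹, y, y⁻¹ * x * y, by group, by group, by group, by group, by simp⟩

theorem semB_27 : Eqv [(1, w), (1, w), (1, S), (0, m), (1, m), (0, l), (0, l)] [] := by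
  refine eqv_of (semB_det (x := [(1, w), (1, w), (1, S)]) (y := [(0, m), (1, m), (0, l), (0, l)])
      (det_snoc (x := [(1, w), (1, w)]) _ _ (by simp) (semB_b2 _ _ _ _ (by simp) (by simp)))
      (semB_f4 _ _ _ _) ?_) det_nil ?_
  · intro Γ _ a b c c' h1 h2 h3 h4
    obtain ⟨⟨x, y⟩, a, rfl⟩ := exists_cs a
    simp only [semB_cons, rl_nil, semB_1, semB_w, semB_S] at h1 h2
    obtain ⟨s, t, p, q, rfl⟩ := h1
    obtain ⟨s', t', p', q', rfl⟩ := h2
    simp only [semB_cons, rl_nil, semB_1, semB_m, semB_l] at h3 h4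
    have h5 := h3.2.2.2.2.trans h4.2.2.2.2.symm
    simp only [cs_inj, Prod.mk.injEq, inv_inj] at h5
    obtain ⟨⟨rfl, rfl⟩, -⟩ := h5
    obtain rfl : p = t⁻¹ := inv_mul_eq_one.1 h3.2.2.2.1
    obtain rfl : p' = t⁻¹ := inv_mul_eq_one.1 h4.2.2.2.1
    obtain rfl : q = q' := by simpa using h3.2.1.symm.trans h4.2.1
    rfl
  · intro Γ _ a b
    obtain ⟨⟨x, y⟩, a, rfl⟩ := exists_cs a
    simp only [semB_cons, rl_nil, semB_1, semB_w, semB_S, semB_m, semB_l, bd]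
    constructor
    · rintro ⟨s, t, p, q, h1, rfl, h3, h4, rfl⟩
      obtain rfl : p = t⁻¹ := inv_mul_eq_one.1 h4
      obtain rfl : y = (t⁻¹ * q⁻¹⁻¹ * t⁻¹⁻¹)⁻¹ := eq_inv_of_mul_eq_one_left h3
      obtain rfl : x = t := by
        have h6 : x = (t⁻¹ * q * t)⁻¹ * (t⁻¹ * q⁻¹⁻¹ * t⁻¹⁻¹ * q⁻¹ * t⁻¹⁻¹) * (t⁻¹ * q * t) := by
          rw [h1]; group
        rw [h6]; group
      simp
    · rintro rfl
      refine ⟨y⁻¹, x, x⁻¹, x * y⁻¹ * x⁻¹, by group, by group, by group, by group, by simp⟩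

theorem semB_28 : Eqv [(0, v), (0, l)] [] := by
  refine eqv_of (semB_det (x := [(0, v)]) (y := [(0, l)]) (semB_b1 _ _ (by simp))
    (semB_f1 _ _ (by simp)) ?_) det_nil ?_
  · intro Γ _ a b c c' h1 h2 h3 h4
    simp only [semB_cons, rl_nil, semB_v] at h1 h2
    obtain ⟨t, rfl⟩ := h1
    obtain ⟨t', rfl⟩ := h2
    simp only [semB_cons, rl_nil, semB_l, inv_eq_one] at h3 h4
    rw [h3.1, h4.1]
  · intro Γ _ a b
    simp only [semB_cons, rl_nil, semB_v, semB_l]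
    exact ⟨fun ⟨_, _, h⟩ => h, fun h => ⟨1, inv_one, h⟩⟩

theorem semB_29 : Eqv [(0, V), (0, l)] [] := by
  refine eqv_of (semB_det (x := [(0, V)]) (y := [(0, l)]) (semB_b1 _ _ (by simp))
    (semB_f1 _ _ (by simp)) ?_) det_nil ?_
  · intro Γ _ a b c c' h1 h2 h3 h4
    simp only [semB_cons, rl_nil, semB_V] at h1 h2
    obtain ⟨t, rfl⟩ := h1
    obtain ⟨t', rfl⟩ := h2
    simp only [semB_cons, rl_nil, semB_l] at h3 h4
    rw [h3.1, h4.1]
  · intro Γ _ a b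
    simp only [semB_cons, rl_nil, semB_V, semB_l]
    exact ⟨fun ⟨_, _, h⟩ => h, fun h => ⟨1, rfl, h⟩⟩

theorem eqvB : ∀ r ∈ (axs.drop 16).take 14, Eqv r.1 r.2 := by
  intro r hr
  simp only [axs, List.drop_succ_cons, List.drop_zero, List.take_succ_cons, List.take_zero,
    List.mem_cons, List.not_mem_nil, or_false] at hr
  rcases hr with rfl | rfl | rfl | rfl | rfl | rfl | rfl | rfl | rfl | rfl | rfl | rfl | rfl | rfl
  exacts [semB_16, semB_17, semB_18, semB_19, semB_20, semB_21, semB_22, semB_23, semB_24,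
    semB_25, semB_26, semB_27, semB_28, semB_29]

end Pool.Agent.GH
end

-- merged part: Pool.Agent.Work.MP_c00b06_gt.SemC
section
/-! The two relations for the adjoint action preserve representations. -/

namespace Pool.Agent.GH
open Gn

variable {Γ : Type} [Group Γ]

/-- A first letter whose output is determined by the two ends. -/
theorem semc_det {x : ℕ × Gn} {r : Wd} (h : Det r)
    (hu : ∀ (Γ : Type) [Group Γ] (a b c c' : ℕ → Γ × Γ),
      Stp x a c → Rl Γ r c b → Stp x a c' → Rl Γ r c' b → c = c') : Det (x :: r) := by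
  intro Γ _ a b
  refine ⟨fun ⟨c, h1, k1⟩ ⟨c', h2, k2⟩ => ?_⟩
  obtain rfl := hu Γ a b c c' h1.down ⟨k1⟩ h2.down ⟨k2⟩
  rw [(h Γ c b).elim k1 k2, Subsingleton.elim h1 h2]

theorem semc_det_sh (i : ℕ) {x : Wd} (h : Det x) : Det (sh i x) := fun Γ _ a b =>
  have := h Γ (tl i a) (tl i b)
  (run_sh i x a b).elim fun f => f.subsingleton

theorem semc_sh (x : Wd) (h : Γ × Γ) (a c : ℕ → Γ × Γ) :
    Rl Γ (sh 1 x) (cs h a) c ↔ ∃ c', c = cs h c' ∧ Rl Γ x a c' := by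
  induction x generalizing a with
  | nil => simp [sh, rl_nil, eq_comm]
  | cons y x ih =>
    rw [show sh 1 (y :: x) = (y.1 + 1, y.2) :: sh 1 x from by rw [Nat.add_comm]; rfl]
    simp only [rl_cons, stp_succ]
    exact ⟨fun ⟨_, ⟨c', h0, h1⟩, h2⟩ => ((ih _).1 (h0 ▸ h2)).imp fun _ h3 => ⟨h3.1, c', h1, h3.2⟩,
      fun ⟨c'', h0, c', h1, h3⟩ => ⟨_, ⟨c', rfl, h1⟩, (ih _).2 ⟨c'', h0, h3⟩⟩⟩

theorem semc_app (x y : Wd) (a c : ℕ → Γ × Γ) :
    Rl Γ (x ++ y) a c ↔ ∃ b, Rl Γ x a b ∧ Rl Γ y b c :=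
  (run_app x y a c).elim fun f =>
    ⟨fun ⟨r⟩ => ⟨(f r).1, ⟨(f r).2.1⟩, ⟨(f r).2.2⟩⟩, fun ⟨b, ⟨r⟩, ⟨s⟩⟩ => ⟨f.symm ⟨b, r, s⟩⟩⟩

theorem semc_cj {A B X Y : Γ} (U : Γ) (h : A = B) (h' : X * Y⁻¹ = U * (A * B⁻¹) * U⁻¹) :
    X = Y := by
  rwa [h, mul_inv_cancel, mul_one, mul_inv_cancel, mul_inv_eq_one] at h'

section
variable (r : Wd) (h x y : Γ × Γ) (a c : ℕ → Γ × Γ)

theorem semc_P1 : Rl Γ ((1, P) :: r) (cs h (cs x (cs y a))) c ↔
    Rl Γ r (cs h (cs (cj (bd x) y) (cs x a))) c := by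
  simp [rl_cons, stp_succ, stp_P]

theorem semc_S1 : Rl Γ ((1, S) :: r) (cs h (cs x a)) c ↔
    Rl Γ r (cs h (cs (bd x * x.1⁻¹, x.1 * x.2⁻¹ * x.1⁻¹) a)) c := by
  simp [rl_cons, stp_succ, stp_S]

theorem semc_S2 : Rl Γ ((2, S) :: r) (cs h (cs y (cs x a))) c ↔
    Rl Γ r (cs h (cs y (cs (bd x * x.1⁻¹, x.1 * x.2⁻¹ * x.1⁻¹) a))) c := by
  simp [rl_cons, stp_succ, stp_S]

theorem semc_m : Rl Γ ((0, m) :: r) (cs x (cs y a)) c ↔
    y.1 = x.2⁻¹ * x.1 * x.2 ∧ Rl Γ r (cs (x.1, x.2 * y.2) a) c := by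
  simp [rl_cons, stp_m, and_assoc]

theorem semc_d : Rl Γ ((0, d) :: r) (cs x a) c ↔
    ∃ t, Rl Γ r (cs (x.1 * t⁻¹, t * x.2 * t⁻¹) (cs (t, x.2) a)) c := by
  simp [rl_cons, stp_d]

end

theorem semc_tail (p q t : Γ) (x : Γ × Γ) (a c : ℕ → Γ × Γ) :
    Rl Γ [(1, P), (2, S), (0, m), (0, m)] (cs (p * t⁻¹, t * q * t⁻¹) (cs (t, q) (cs x a))) c ↔
      t = q * x.1⁻¹ * q⁻¹ * p ∧ p = q * bd x * q⁻¹ ∧ c = cs (cj q x) a := by
  rw [semc_P1, semc_S2, semc_m, semc_m, rl_nil]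
  simp only [cj, bd]
  constructor
  · rintro ⟨h1, h2, rfl⟩
    obtain rfl : q * x.1 * q⁻¹ * t = p := semc_cj (t * q * t⁻¹) h1 (by group)
    obtain rfl : q * x.2⁻¹ * x.1⁻¹ * x.2 * q⁻¹ = t :=
      semc_cj (t * q * (t * q⁻¹ * t⁻¹ * q)⁻¹) h2 (by group)
    refine ⟨by group, by group, ?_⟩
    congr 2 <;> group
  · rintro ⟨rfl, rfl, rfl⟩
    refine ⟨by group, by group, ?_⟩
    congr 2 <;> group

theorem semc_ad (g x : Γ × Γ) (a c : ℕ → Γ × Γ) : Rl Γ ad (cs g (cs x a)) c ↔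
    g.1 = g.2 * bd x * g.2⁻¹ ∧ c = cs (cj g.2 x) a := by
  simp [ad, semc_d, semc_tail]

theorem semc_det_ad : Det ad := by
  refine semc_det (det_cons _ _ (by simp) (det_cons _ _ (by simp) (det_cons _ _ (by simp)
    (det_cons _ _ (by simp) det_nil)))) fun Γ _ a b c c' h1 h2 h3 h4 => ?_
  obtain ⟨g, a, rfl⟩ := exists_cs a
  obtain ⟨x, a, rfl⟩ := exists_cs a
  obtain ⟨t, rfl⟩ := (stp_d ..).1 h1
  obtain ⟨t', rfl⟩ := (stp_d ..).1 h3
  rw [((semc_tail ..).1 h2).1, ((semc_tail ..).1 h4).1]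

theorem semc_co (p q t s : Γ) (a c : ℕ → Γ × Γ) :
    Rl Γ [(1, P), (1, S), (0, m)] (cs (p * t⁻¹ * s⁻¹, s * (t * q * t⁻¹) * s⁻¹)
      (cs (s, t * q * t⁻¹) (cs (t, q) a))) c ↔ s = t * p * t⁻¹ ∧
        c = cs (t⁻¹, (t * bd (p, q) * t⁻¹)⁻¹) (cs (cj t (p, q)) a) := by
  rw [semc_P1, semc_S1, semc_m, rl_nil]
  simp only [cj, bd]
  constructor
  · rintro ⟨h1, rfl⟩
    obtain rfl : s = t * p * t⁻¹ := semc_cj (t * (s * (t * q * t⁻¹) * s⁻¹)) h1 (by group)
    refine ⟨rfl, ?_⟩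
    congr 2 <;> group
  · rintro ⟨rfl, rfl⟩
    refine ⟨by group, ?_⟩
    congr 2 <;> group

theorem semc_mid {h x y : Γ × Γ} {a c : ℕ → Γ × Γ}
    (h1 : Rl Γ [(1, P), (1, S), (0, m)] (cs h (cs x (cs y a))) c) : c 1 = x := by
  rw [semc_P1, semc_S1, semc_m, rl_nil] at h1
  rw [← h1.2]
  rfl

theorem semc_one : Eqv [(0, d), (0, d), (1, P), (1, S), (0, m)] ((0, w) :: sh 1 ad) := by
  refine eqv_of (semc_det (semc_det (det_cons _ _ (by simp) (det_cons _ _ (by simp)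
    (det_cons _ _ (by simp) det_nil))) fun Γ _ a b c c' h1 h2 h3 h4 => ?_)
    fun Γ _ a b c c' h1 h2 h3 h4 => ?_)
    (semc_det (semc_det_sh 1 semc_det_ad) fun Γ _ a b c c' h1 h2 h3 h4 => ?_) fun Γ _ a b => ?_
  · obtain ⟨g, a, rfl⟩ := exists_cs a
    obtain ⟨x, a, rfl⟩ := exists_cs a
    obtain ⟨t, rfl⟩ := (stp_d ..).1 h1
    obtain ⟨t', rfl⟩ := (stp_d ..).1 h3
    obtain rfl : t = t' := congrArg Prod.fst ((semc_mid h2).symm.trans (semc_mid h4))
    rfl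
  · obtain ⟨g, a, rfl⟩ := exists_cs a
    obtain ⟨t, rfl⟩ := (stp_d ..).1 h1
    obtain ⟨t', rfl⟩ := (stp_d ..).1 h3
    obtain ⟨s, h2⟩ := (semc_d ..).1 h2
    obtain ⟨s', h4⟩ := (semc_d ..).1 h4
    obtain rfl : t = t' := inv_injective (congrArg (fun z => (z 0).1)
      (((semc_co ..).1 h2).2.symm.trans ((semc_co ..).1 h4).2))
    rfl
  · obtain ⟨s, t, rfl⟩ := (stp_w ..).1 h1
    obtain ⟨s', t', rfl⟩ := (stp_w ..).1 h3
    obtain ⟨z, rfl, -⟩ := (semc_sh ..).1 h2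
    obtain ⟨z', h5, -⟩ := (semc_sh ..).1 h4
    obtain ⟨rfl, h6⟩ := Prod.mk.inj ((cs_inj ..).1 h5).1
    rw [inv_injective h6]
  · obtain ⟨⟨p, q⟩, a, rfl⟩ := exists_cs a
    simp only [semc_d, semc_co, exists_eq_left, rl_cons (0, w), stp_w]
    constructor
    · rintro ⟨t, rfl⟩
      exact ⟨_, ⟨t⁻¹, t * bd (p, q) * t⁻¹, rfl⟩,
        (semc_sh ..).2 ⟨_, rfl, (semc_ad ..).2 ⟨by simp, by simp⟩⟩⟩
    · rintro ⟨_, ⟨s, t, rfl⟩, h1⟩
      obtain ⟨z, rfl, h2⟩ := (semc_sh ..).1 h1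
      obtain ⟨h3, rfl⟩ := (semc_ad ..).1 h2
      obtain rfl : t = s⁻¹ * bd (p, q) * s⁻¹⁻¹ := h3
      exact ⟨s⁻¹, by rw [inv_inv]⟩

theorem semc_two : Eqv ((0, d) :: sh 1 ad) ([(0, d), (1, P)] ++ ad ++ [(0, P)]) := by
  have key : ∀ (Γ : Type) [Group Γ] (p q t : Γ) (x : Γ × Γ) (a b : ℕ → Γ × Γ),
      Rl Γ ((1, P) :: (ad ++ [(0, P)])) (cs (p * t⁻¹, t * q * t⁻¹) (cs (t, q) (cs x a))) b ↔
        t = (q * bd x * q⁻¹)⁻¹ * p ∧ b = cs (p * (q * bd x * q⁻¹)⁻¹,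
          q * bd x * q⁻¹ * q * (q * bd x * q⁻¹)⁻¹) (cs (cj q x) a) := by
    intro Γ _ p q t x a b
    rw [semc_P1]
    simp only [semc_app, semc_ad, and_assoc, exists_and_left, exists_eq_left, rl_cons (0, P),
      stp_P, rl_nil, cj, bd]
    constructor
    · rintro ⟨h1, rfl⟩
      obtain rfl : p = q * (x.1 * x.2⁻¹ * x.1⁻¹ * x.2) * q⁻¹ * t := semc_cj 1 h1 (by group)
      refine ⟨by group, ?_⟩
      congr 2 <;> group
    · rintro ⟨rfl, rfl⟩
      refine ⟨by group, ?_⟩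
      congr 2 <;> group
  refine eqv_of (semc_det (semc_det_sh 1 semc_det_ad) fun Γ _ a b c c' h1 h2 h3 h4 => ?_)
    (semc_det (det_cons _ _ (by simp) (det_snoc _ _ (by simp) semc_det_ad))
      fun Γ _ a b c c' h1 h2 h3 h4 => ?_) fun Γ _ a b => ?_
  · obtain ⟨g, a, rfl⟩ := exists_cs a
    obtain ⟨t, rfl⟩ := (stp_d ..).1 h1
    obtain ⟨t', rfl⟩ := (stp_d ..).1 h3
    obtain ⟨z, rfl, -⟩ := (semc_sh ..).1 h2
    obtain ⟨z', h5, -⟩ := (semc_sh ..).1 h4
    rw [inv_injective (mul_left_cancel (Prod.mk.inj ((cs_inj ..).1 h5).1).1)]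
  · obtain ⟨g, a, rfl⟩ := exists_cs a
    obtain ⟨x, a, rfl⟩ := exists_cs a
    obtain ⟨t, rfl⟩ := (stp_d ..).1 h1
    obtain ⟨t', rfl⟩ := (stp_d ..).1 h3
    rw [((key ..).1 h2).1, ((key ..).1 h4).1]
  · obtain ⟨⟨p, q⟩, a, rfl⟩ := exists_cs a
    obtain ⟨x, a, rfl⟩ := exists_cs a
    change _ ↔ Rl Γ ((0, d) :: (1, P) :: (ad ++ [(0, P)])) _ _
    simp only [semc_d, key, semc_sh, semc_ad, exists_eq_left]
    exact ⟨fun ⟨t, z, h1, h2, h3⟩ => by rw [h1, h2, h3], fun h => ⟨_, _, h, rfl, rfl⟩⟩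

/- PLAN: as in `SemA`: one auxiliary lemma per relation, by `eqv_of`.  It helps to prove first
`Rl Γ ad (cs g (cs x a)) c ↔ g.1 = (g.2 * bd x * g.2⁻¹)⁻¹ ∧ c = cs (cj g.2 x) a` or its corrected form
(compute it), and a version of `rl_app`. -/
theorem eqvC : ∀ r ∈ (axs.drop 30).take 2, Eqv r.1 r.2 := by
  intro r hr
  simp only [axs, List.drop, List.take, List.mem_cons, List.not_mem_nil, or_false] at hr
  rcases hr with rfl | rfl
  exacts [semc_one, semc_two]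

end Pool.Agent.GH
end

-- merged part: Pool.Agent.Work.MP_c00b06_gt.SemN
section
/-! Commutation of distant letters and naturality preserve representations. -/

namespace Pool.Agent.GH
open Gn

theorem semn_rel_congr {Γ : Type} [Group Γ] (g : Gn) {a c a' c' : ℕ → Γ × Γ}
    (ha : ∀ j < g.ar, a' j = a j) (hc : ∀ j < g.co, c' j = c j) (h : Rel g a c) : Rel g a' c' := by
  cases g <;> simp only [Gn.ar, Gn.co] at ha hc <;> simp only [Rel] at h ⊢
  · rw [ha 0 (by omega), ha 1 (by omega), hc 0 (by omega), hc 1 (by omega)]; exact h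
  · rw [ha 0 (by omega), ha 1 (by omega), hc 0 (by omega), hc 1 (by omega)]; exact h
  · rw [ha 0 (by omega), ha 1 (by omega), hc 0 (by omega)]; exact h
  · rw [hc 0 (by omega)]; exact h
  · rw [ha 0 (by omega), hc 0 (by omega), hc 1 (by omega)]; exact h
  · rw [ha 0 (by omega)]; exact h
  · rw [ha 0 (by omega), hc 0 (by omega)]; exact h
  · rw [ha 0 (by omega), hc 0 (by omega)]; exact h
  · rw [ha 0 (by omega)]; exact h
  · rw [hc 0 (by omega)]; exact h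
  · rw [hc 0 (by omega)]; exact h
  · rw [hc 0 (by omega), hc 1 (by omega)]; exact h

theorem semn_det_one (x : ℕ × Gn) : Det [x] := by
  refine det_of_chain _ ?_
  intro Γ _ a b cs ds h1 h2
  match cs, ds, h1, h2 with
  | [c], [c'], h1, h2 =>
    have e1 : c = b := h1.2
    have e2 : c' = b := h2.2
    rw [e1, e2]
  | [], _, h1, _ => exact h1.elim
  | _ :: _ :: _, _, h1, _ => exact h1.2.elim
  | [_], [], _, h2 => exact h2.elim
  | [_], _ :: _ :: _, _, h2 => exact h2.2.elim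

theorem semn_det_two (x y : ℕ × Gn) (h : ∀ (Γ : Type) [Group Γ] (a b c c' : ℕ → Γ × Γ),
    Stp x a c → Stp y c b → Stp x a c' → Stp y c' b → c = c') : Det [x, y] := by
  refine det_of_chain _ ?_
  intro Γ _ a b cs ds h1 h2
  match cs, ds, h1, h2 with
  | [c, z], [c', z'], h1, h2 =>
    have e1 : z = b := h1.2.2
    have e2 : z' = b := h2.2.2
    subst e1
    subst e2
    rw [h Γ a _ c c' h1.1 h1.2.1 h2.1 h2.2.1]
  | [], _, h1, _ => exact h1.elim
  | [_], _, h1, _ => exact h1.2.elim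
  | _ :: _ :: _ :: _, _, h1, _ => exact h1.2.2.elim
  | [_, _], [], _, h2 => exact h2.elim
  | [_, _], [_], _, h2 => exact h2.2.elim
  | [_, _], _ :: _ :: _ :: _, _, h2 => exact h2.2.2.elim

theorem semn_rl_two {Γ : Type} [Group Γ] (x y : ℕ × Gn) (a b : ℕ → Γ × Γ) :
    Rl Γ [x, y] a b ↔ ∃ c, Stp x a c ∧ Stp y c b := by
  simp only [rl_cons, rl_nil, exists_eq_right]

theorem semn_det_left (c : Gn) (hc : c = P ∨ c = Q) (n : ℕ) {x : Wd} (h : Det x) :
    Det (br c n ++ x) := by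
  unfold br
  generalize List.range n = L
  induction L with
  | nil => exact h
  | cons i L ih =>
    exact det_cons i c (by rcases hc with rfl | rfl <;> simp) ih

theorem semn_det_right (c : Gn) (hc : c = P ∨ c = Q) (n : ℕ) {x : Wd} (h : Det x) :
    Det (x ++ br c n) := by
  induction n with
  | zero => simpa [br] using h
  | succ n ih =>
    have e : x ++ br c (n + 1) = (x ++ br c n) ++ [(n, c)] := by
      simp [br, List.range_succ]
    rw [e]
    exact det_snoc n c (by rcases hc with rfl | rfl <;> simp) ih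

theorem semn_one {Γ : Type} [Group Γ] (g : Gn) (h : Γ × Γ) (a c : ℕ → Γ × Γ) :
    Stp (1, g) (cs h a) c ↔ ∃ c', c = cs h c' ∧ Stp (0, g) a c' := stp_succ 0 g h a c

theorem semn_br0 (c : Gn) : br c 0 = [] := rfl

theorem semn_br1 (c : Gn) : br c 1 = [(0, c)] := rfl

theorem semn_br2 (c : Gn) : br c 2 = [(0, c), (1, c)] := rfl

theorem semn_ex {Γ : Type} [Group Γ] (s : Γ) (p : Γ → Prop) :
    (∃ t, p t) ↔ ∃ t, p (s * t * s⁻¹) :=
  ⟨fun ⟨t, h⟩ => ⟨s⁻¹ * t * s, by simpa [mul_assoc] using h⟩, fun ⟨_, h⟩ => ⟨_, h⟩⟩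

theorem semn_bd_cj {Γ : Type} [Group Γ] (s : Γ) (x : Γ × Γ) : bd (cj s x) = s * bd x * s⁻¹ := by
  simp only [bd, cj]; group

theorem semn_cj_cj {Γ : Type} [Group Γ] (s t : Γ) (x : Γ × Γ) : cj s (cj t x) = cj (s * t) x := by
  simp only [cj]; ext <;> simp only <;> group

theorem semn_cj_one {Γ : Type} [Group Γ] (x : Γ × Γ) : cj 1 x = x := by
  simp [cj]

theorem semn_flat {α β : Type} (x : α) (F : β → ℕ → α) (R : (ℕ → α) → Prop) :
    (∃ c, (∃ c', c = cs x c' ∧ ∃ t, c' = F t) ∧ R c) ↔ ∃ t, R (cs x (F t)) :=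
  ⟨fun ⟨_, ⟨_, h1, t, h2⟩, h3⟩ => ⟨t, h2 ▸ h1 ▸ h3⟩, fun ⟨t, h⟩ => ⟨_, ⟨_, rfl, t, rfl⟩, h⟩⟩

theorem semn_flat2 {α β : Type} (x : α) (F : β → β → ℕ → α) (R : (ℕ → α) → Prop) :
    (∃ c, (∃ c', c = cs x c' ∧ ∃ s t, c' = F s t) ∧ R c) ↔ ∃ s t, R (cs x (F s t)) :=
  ⟨fun ⟨_, ⟨_, h1, s, t, h2⟩, h3⟩ => ⟨s, t, h2 ▸ h1 ▸ h3⟩,
    fun ⟨s, t, h⟩ => ⟨_, ⟨_, rfl, s, t, rfl⟩, h⟩⟩

theorem semn_flat3 {α : Type} (x : α) (p : Prop) (R : α → Prop) :
    (∃ c, (c = x ∧ p) ∧ R c) ↔ p ∧ R x :=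
  ⟨fun ⟨_, ⟨h1, h2⟩, h3⟩ => ⟨h2, h1 ▸ h3⟩, fun ⟨h2, h3⟩ => ⟨_, ⟨rfl, h2⟩, h3⟩⟩

theorem semn_eq {α : Type} {b x y : α} (h : x = y) : b = x ↔ b = y := by rw [h]

theorem semn_natP {Γ : Type} [Group Γ] (g : Gn) (a b : ℕ → Γ × Γ) :
    Rl Γ (br P g.ar ++ [(0, g)]) a b ↔ Rl Γ ((1, g) :: br P g.co) a b := by
  obtain ⟨x, a, rfl⟩ := exists_cs a
  obtain ⟨y, a, rfl⟩ := exists_cs a
  obtain ⟨z, a, rfl⟩ := exists_cs a
  cases g <;>
    simp only [Gn.ar, Gn.co, semn_br0, semn_br1, semn_br2, List.nil_append, List.cons_append,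
      rl_cons, rl_nil, exists_eq_right, semn_one, stp_P, stp_Q, stp_m, stp_e, stp_d, stp_u, stp_S,
      stp_T, stp_l, stp_v, stp_V, stp_w, exists_eq_left, exists_eq_right_right, semn_flat,
      semn_flat2, semn_flat3]
  all_goals generalize bd x = s
  · refine semn_eq ?_
    congr 1
    rw [semn_bd_cj, semn_cj_cj, semn_cj_cj]; congr 1; group
  · refine semn_eq ?_
    congr 2
    rw [semn_bd_cj, semn_cj_cj, semn_cj_cj]; congr 1; group
  · refine and_congr ?_ (semn_eq ?_)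
    · simp only [cj]
      constructor
      · intro h
        calc z.1 = s⁻¹ * (s * z.1 * s⁻¹) * s := by group
          _ = _ := by rw [h]; group
      · intro h; rw [h]; group
    · congr 1
      simp only [cj]; congr 1; group
  · rw [semn_ex s]
    refine exists_congr fun t => semn_eq ?_
    congr 1
    simp [cj]
  · rw [semn_ex s]
    refine exists_congr fun t => semn_eq ?_
    simp only [cj]
    congr 1
    congr 1 <;> group
  · rw [and_comm]
    refine and_congr Iff.rfl ?_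
    simp [cj]
  · refine semn_eq ?_
    congr 1
    rw [semn_bd_cj]
    simp only [cj]
    congr 1 <;> group
  · refine semn_eq ?_
    congr 1
    rw [semn_bd_cj]
    simp only [cj]
    congr 1 <;> group
  · rw [and_comm]
    refine and_congr Iff.rfl ?_
    simp [cj]
  · rw [semn_ex s]
    refine exists_congr fun t => semn_eq ?_
    simp only [cj]
    congr 2; group
  · rw [semn_ex s]
    refine exists_congr fun t => semn_eq ?_
    simp only [cj]
  · rw [semn_ex s]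
    refine exists_congr fun r => ?_
    rw [semn_ex s]
    refine exists_congr fun t => semn_eq ?_
    simp only [cj]
    congr 1
    · congr 1; group
    · congr 2; group

theorem semn_natQ {Γ : Type} [Group Γ] (g : Gn) (a b : ℕ → Γ × Γ) :
    Rl Γ (br Q g.ar ++ [(0, g)]) a b ↔ Rl Γ ((1, g) :: br Q g.co) a b := by
  obtain ⟨x, a, rfl⟩ := exists_cs a
  obtain ⟨y, a, rfl⟩ := exists_cs a
  obtain ⟨z, a, rfl⟩ := exists_cs a
  cases g <;>
    simp only [Gn.ar, Gn.co, semn_br0, semn_br1, semn_br2, List.nil_append, List.cons_append,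
      rl_cons, rl_nil, exists_eq_right, semn_one, stp_P, stp_Q, stp_m, stp_e, stp_d, stp_u, stp_S,
      stp_T, stp_l, stp_v, stp_V, stp_w, exists_eq_left, exists_eq_right_right, semn_flat,
      semn_flat2, semn_flat3, semn_cj_cj]
  · rw [show (bd y)⁻¹ * (bd (cj (bd y) z))⁻¹ = (bd z)⁻¹ * (bd y)⁻¹ by rw [semn_bd_cj]; group]
  · rw [show (bd (cj (bd z)⁻¹ y))⁻¹ * (bd z)⁻¹ = (bd z)⁻¹ * (bd y)⁻¹ by rw [semn_bd_cj]; group]
  · refine and_congr_right fun h => ?_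
    rw [show (bd (y.1, y.2 * z.2))⁻¹ = (bd z)⁻¹ * (bd y)⁻¹ by simp only [bd, h]; group]
  · refine exists_congr fun t => ?_
    rw [show (bd (t, (1 : Γ)))⁻¹ = 1 by simp only [bd]; group, semn_cj_one]
  · refine exists_congr fun t => ?_
    rw [show (bd (t, y.2))⁻¹ * (bd (y.1 * t⁻¹, t * y.2 * t⁻¹))⁻¹ = (bd y)⁻¹ by
      simp only [bd]; group]
  · rw [and_comm]
    refine and_congr_left fun h => ?_
    rw [show (bd y)⁻¹ = 1 by simp only [bd, h]; group, semn_cj_one]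
  · rw [show (bd (bd y * y.1⁻¹, y.1 * y.2⁻¹ * y.1⁻¹))⁻¹ = (bd y)⁻¹ by simp only [bd]; group]
  · rw [show (bd (y.1⁻¹ * bd y, y.2⁻¹ * bd y))⁻¹ = (bd y)⁻¹ by simp only [bd]; group]
  · rw [and_comm]
    refine and_congr_left fun h => ?_
    rw [show (bd y)⁻¹ = 1 by simp only [bd, h]; group, semn_cj_one]
  · refine exists_congr fun t => ?_
    rw [show (bd (t, t⁻¹))⁻¹ = 1 by simp only [bd]; group, semn_cj_one]
  · refine exists_congr fun t => ?_
    rw [show (bd (t, t))⁻¹ = 1 by simp only [bd]; group, semn_cj_one]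
  · refine exists_congr fun s => exists_congr fun t => ?_
    rw [show (bd (t, s⁻¹))⁻¹ * (bd (s, t⁻¹))⁻¹ = 1 by simp only [bd]; group, semn_cj_one]

/- PLAN.  `far`: the middle state is determined by the two ends (`det_of_chain`), and the other middle
state is built by `fun k => if k < .. then .. else ..`; `Rel g a c` only reads `a k` for `k < g.ar` and
`c k` for `k < g.co`.  `nat`: case on `c` and `g` (24 concrete pairs of words; `br` unfolds by `decide`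
or `simp [br, List.range_succ]`); braid letters are removed by `det_cons`, `det_snoc`; for `Rl` use
`exists_cs` and the `stp_*` lemmas; every generator preserves the product of the `bd` and is
invariant under simultaneous conjugation. -/
theorem eqv_far (g h : Gn) (k : ℕ) : Eqv [(0, g), (g.co + k, h)] [(g.ar + k, h), (0, g)] := by
  refine eqv_of (semn_det_two _ _ ?_) (semn_det_two _ _ ?_) ?_
  · intro Γ _ a b c c' h1 h2 h3 h4
    funext j
    by_cases hj : j < g.co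
    · rw [← h2.1 j (by simp only; omega), ← h4.1 j (by simp only; omega)]
    · have e1 := h1.2.2 (j - g.co)
      have e2 := h3.2.2 (j - g.co)
      simp only [Nat.zero_add] at e1 e2
      rw [show g.co + (j - g.co) = j by omega] at e1 e2
      rw [e1, e2]
  · intro Γ _ a b c c' h1 h2 h3 h4
    funext j
    by_cases hj : j < g.ar
    · rw [h1.1 j (by simp only; omega), h3.1 j (by simp only; omega)]
    · have e1 := h2.2.2 (j - g.ar)
      have e2 := h4.2.2 (j - g.ar)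
      simp only [Nat.zero_add] at e1 e2
      rw [show g.ar + (j - g.ar) = j by omega] at e1 e2
      rw [← e1, ← e2]
  · intro Γ _ a b
    rw [semn_rl_two, semn_rl_two]
    simp only [Stp, Nat.zero_add]
    constructor
    · rintro ⟨c, ⟨-, h1, h2⟩, h3, h4, h5⟩
      refine ⟨fun j => if j < g.ar then a j else b (j - g.ar + g.co), ⟨?_, ?_, ?_⟩, ?_, ?_, ?_⟩
      · intro j hj
        beta_reduce
        by_cases hj' : j < g.ar
        · rw [if_pos hj']
        · rw [if_neg hj', h3 _ (by omega), Nat.add_comm, h2]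
          congr 1; omega
      · refine semn_rel_congr h ?_ ?_ h4
        · intro j _
          rw [Nat.add_assoc g.co, h2, Nat.add_assoc]
        · intro j _
          show (if _ then _ else _) = _
          rw [if_neg (by omega)]
          congr 1; omega
      · intro j
        beta_reduce
        rw [if_neg (by omega), show g.ar + k + h.co + j - g.ar + g.co = g.co + k + h.co + j by omega,
          h5, show g.co + k + h.ar + j = g.co + (k + h.ar + j) by omega, h2]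
        congr 1; omega
      · intro j hj; omega
      · refine semn_rel_congr g ?_ ?_ h1
        · intro j hj
          show (if _ then _ else _) = _
          rw [if_pos hj]
        · intro j hj
          exact h3 j (by omega)
      · intro j
        beta_reduce
        rw [if_neg (by omega)]
        congr 1; omega
    · rintro ⟨c, ⟨h1, h2, h3⟩, -, h4, h5⟩
      refine ⟨fun j => if j < g.co then b j else a (j - g.co + g.ar), ⟨?_, ?_, ?_⟩, ?_, ?_, ?_⟩
      · intro j hj; omega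
      · refine semn_rel_congr g ?_ ?_ h4
        · intro j hj
          exact (h1 j (by omega)).symm
        · intro j hj
          show (if _ then _ else _) = _
          rw [if_pos hj]
      · intro j
        beta_reduce
        rw [if_neg (by omega)]
        congr 1; omega
      · intro j hj
        beta_reduce
        by_cases hj' : j < g.co
        · rw [if_pos hj']
        · rw [if_neg hj', ← h1 _ (by omega), Nat.add_comm, ← h5]
          congr 1; omega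
      · refine semn_rel_congr h ?_ ?_ h2
        · intro j _
          show (if _ then _ else _) = _
          rw [if_neg (by omega)]
          congr 1; omega
        · intro j _
          rw [Nat.add_assoc g.co, h5, Nat.add_assoc]
      · intro j
        beta_reduce
        rw [if_neg (by omega), show g.co + k + h.ar + j - g.co + g.ar = g.ar + k + h.ar + j by omega,
          ← h3, show g.co + k + h.co + j = g.co + (k + h.co + j) by omega, h5]
        congr 1; omega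

theorem eqv_nat (c g : Gn) (hc : c = P ∨ c = Q) :
    Eqv (br c g.ar ++ [(0, g)]) ((1, g) :: br c g.co) := by
  refine eqv_of (semn_det_left c hc _ (semn_det_one _))
    (semn_det_right c hc _ (x := [(1, g)]) (semn_det_one _)) ?_
  intro Γ _ a b
  rcases hc with rfl | rfl
  · exact semn_natP g a b
  · exact semn_natQ g a b

end Pool.Agent.GH
end

-- merged part: Pool.Agent.Work.MP_c00b06_gt.Sem2
section
/-! Representations of morphisms. -/

namespace Pool.Agent.GH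
open Gn

variable {X : Wd → Wd → Prop}

/-- Net change of the number of handles. -/
def dg (x : Wd) : ℤ := (x.map fun a => (a.2.co : ℤ) - a.2.ar).sum

def EqG (Γ : Type) [Group Γ] (x y : Wd) : Prop :=
  ∀ a b : ℕ → Γ × Γ, Nonempty (Run Γ x a b ≃ Run Γ y a b)

/-- The extra relations keep the boundary relation in `Γ`. -/
class Gd (Γ : Type) [Group Γ] (X : Wd → Wd → Prop) : Prop where
  rl : ∀ x y, X x y → ∀ a b : ℕ → Γ × Γ, Rl Γ x a b ↔ Rl Γ y a b

/-- The extra relations keep the degree and the representations in commutative groups. -/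
class Snd (X : Wd → Wd → Prop) : Prop where
  dg : ∀ x y, X x y → dg x = dg y
  eqc : ∀ x y, X x y → ∀ (Γ : Type) [CommGroup Γ], EqG Γ x y

instance gdComm [Snd X] (Γ : Type) [CommGroup Γ] : Gd Γ X := by
  exact ⟨fun x y h a b => (Snd.eqc x y h Γ a b).elim fun E => E.nonempty_congr⟩

/-- PLAN: `eqvA eqvB eqvC eqv_far eqv_nat`. -/
theorem eqv_ax {x y : Wd} (h : Ax x y) : Eqv x y := by
  cases h with
  | tab r hr =>
    rw [show axs = axs.take 16 ++ ((axs.drop 16).take 14 ++ (axs.drop 30).take 2) from rfl,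
      List.mem_append, List.mem_append] at hr
    exact hr.elim (eqvA r) fun h => h.elim (eqvB r) (eqvC r)
  | far g h k => exact eqv_far g h k
  | nat c g hc => exact eqv_nat c g hc

theorem dg_ok {p q : ℕ} {x : Wd} (h : Ok p x q) : dg x = (q : ℤ) - p := by
  induction x generalizing p with
  | nil => cases h; simp [dg]
  | cons a x ih =>
    have h1 := h.1
    have h2 := ih h.2
    simp only [dg, List.map_cons, List.sum_cons] at h2 ⊢
    omega

theorem dg_app (x y : Wd) : dg (x ++ y) = dg x + dg y := by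
  simp [dg]

theorem dg_sh (i : ℕ) (x : Wd) : dg (sh i x) = dg x := by
  simp [dg, sh, Function.comp_def]

theorem sem2_ex {C : Wd → Wd → Prop} (he : Equivalence C) (h1 : ∀ x y, Step X x y → C x y)
    {x y : Wd} (h : (mk x : Cob X) = mk y) : C x y :=
  he.eqvGen_iff.1 ((Quot.eqvGen_exact h).mono h1)

theorem sem2_dg {x y : Wd} (h : Ax x y) : dg x = dg y := by
  cases h with
  | tab r hr => exact (show ∀ r ∈ axs, dg r.1 = dg r.2 by decide) r hr
  | far g h k => simp [dg, add_comm]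
  | nat c g hc => rcases hc with rfl | rfl <;> cases g <;> rfl

theorem dg_mk [Snd X] {x y : Wd} (h : (mk x : Cob X) = mk y) : dg x = dg y := by
  refine sem2_ex (C := fun x y => dg x = dg y) ⟨fun _ => rfl, Eq.symm, Eq.trans⟩ ?_ h
  rintro _ _ ⟨p, q, i, x, y, h⟩
  simp only [dg_app, dg_sh, h.elim sem2_dg (Snd.dg x y)]

variable {Γ : Type}

section
variable [Group Γ]

theorem EqG.refl (x : Wd) : EqG Γ x x := by
  exact fun _ _ => ⟨Equiv.refl _⟩

theorem EqG.symm {x y : Wd} (h : EqG Γ x y) : EqG Γ y x := by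
  exact fun a b => (h a b).map Equiv.symm

theorem EqG.trans {x y z : Wd} (h : EqG Γ x y) (h' : EqG Γ y z) : EqG Γ x z := by
  exact fun a b => (h a b).map2 Equiv.trans (h' a b)

/-- PLAN: as `eqv_ctx`. -/
theorem eqg_ctx (p q : Wd) (i : ℕ) {x y : Wd} (h : EqG Γ x y) :
    EqG Γ (p ++ sh i x ++ q) (p ++ sh i y ++ q) := by
  have h1 : EqG Γ (sh i x) (sh i y) := by
    intro a b
    obtain ⟨E1⟩ := run_sh i x a b
    obtain ⟨E2⟩ := run_sh i y a b
    obtain ⟨E⟩ := h (tl i a) (tl i b)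
    exact ⟨E1.trans ((Equiv.prodCongr (Equiv.refl _) E).trans E2.symm)⟩
  have h2 : EqG Γ (p ++ sh i x) (p ++ sh i y) := by
    intro a b
    obtain ⟨E1⟩ := run_app p (sh i x) a b
    obtain ⟨E2⟩ := run_app p (sh i y) a b
    exact ⟨E1.trans ((Equiv.sigmaCongrRight fun c =>
      Equiv.prodCongr (Equiv.refl _) (Classical.choice (h1 c b))).trans E2.symm)⟩
  intro a b
  obtain ⟨E1⟩ := run_app (p ++ sh i x) q a b
  obtain ⟨E2⟩ := run_app (p ++ sh i y) q a b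
  exact ⟨E1.trans ((Equiv.sigmaCongrRight fun c =>
    Equiv.prodCongr (Classical.choice (h2 a c)) (Equiv.refl _)).trans E2.symm)⟩

theorem rl_app (x y : Wd) (a c : ℕ → Γ × Γ) :
    Rl Γ (x ++ y) a c ↔ ∃ b, Rl Γ x a b ∧ Rl Γ y b c := by
  obtain ⟨E⟩ := run_app x y a c
  simp only [Rl, E.nonempty_congr, nonempty_sigma, nonempty_prod]

theorem rl_sh (i : ℕ) (x : Wd) (a b : ℕ → Γ × Γ) :
    Rl Γ (sh i x) a b ↔ (∀ k < i, b k = a k) ∧ Rl Γ x (tl i a) (tl i b) := by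
  obtain ⟨E⟩ := run_sh i x a b
  simp only [Rl, E.nonempty_congr, nonempty_prod, nonempty_plift]
  exact and_congr_left' ⟨fun ⟨h⟩ => h, fun h => ⟨h⟩⟩

theorem rl_mk [Gd Γ X] {x y : Wd} (h : (mk x : Cob X) = mk y) (a b : ℕ → Γ × Γ) :
    Rl Γ x a b ↔ Rl Γ y a b := by
  refine sem2_ex (C := fun x y => ∀ a b : ℕ → Γ × Γ, Rl Γ x a b ↔ Rl Γ y a b)
    ⟨fun _ _ _ => Iff.rfl, fun h a b => (h a b).symm, fun h k a b => (h a b).trans (k a b)⟩ ?_ h a b
  rintro _ _ ⟨p, q, i, x, y, h⟩ a b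
  have k : ∀ a b : ℕ → Γ × Γ, Rl Γ x a b ↔ Rl Γ y a b := h.elim
    (fun h a b => (eqv_ax h Γ a b).elim fun E => E.nonempty_congr) (Gd.rl x y)
  simp only [rl_app, rl_sh, k]

/-- The boundary values `a`, `b` extend over `f`. -/
def R (Γ : Type) [Group Γ] (f : Cob X) (a b : ℕ → Γ × Γ) : Prop := ∃ x, mk x = f ∧ Rl Γ x a b

/-- The only representation that is trivial on the boundary is the trivial one. -/
def U (Γ : Type) [Group Γ] (f : Cob X) : Prop := ∀ x, mk x = f → Subsingleton (Run Γ x 1 1)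

/-- Image of a state under a group map. -/
def mp {Γ' : Type} [Group Γ'] (φ : Γ →* Γ') (a : ℕ → Γ × Γ) : ℕ → Γ' × Γ' :=
  fun i => (φ (a i).1, φ (a i).2)

theorem sem2_triv (x : Wd) : Rl Γ x 1 1 := by
  induction x with
  | nil => exact (rl_nil _ _).2 rfl
  | cons t x ih =>
    refine (rl_cons _ _ _ _).2 ⟨1, ⟨fun _ _ => rfl, ?_, fun _ => rfl⟩, ih⟩
    cases t.2 <;> simp [Rel, cj, bd, Prod.ext_iff]

theorem sem2_map {Γ' : Type} [Group Γ'] (φ : Γ →* Γ') {x : Wd} {a b : ℕ → Γ × Γ}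
    (h : Rl Γ x a b) : Rl Γ' x (mp φ a) (mp φ b) := by
  induction x generalizing a with
  | nil => rw [rl_nil] at h ⊢; rw [h]
  | cons t x ih =>
    obtain ⟨c, ⟨h1, h2, h3⟩, h4⟩ := (rl_cons _ _ _ _).1 h
    refine (rl_cons _ _ _ _).2 ⟨mp φ c, ⟨fun k hk => by simp only [mp, h1 k hk], ?_,
      fun k => by simp only [mp, h3 k]⟩, ih h4⟩
    revert h2
    cases t.2 <;> simp only [Rel, mp, cj, bd, Prod.ext_iff] <;> intro h2 <;>
      simp only [h2, map_mul, map_inv, map_one, and_self]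

/-- A pair of states as a state in the product group. -/
def sem2_pr {Z : Type} (a : ℕ → Γ × Γ) (a' : ℕ → Z × Z) : ℕ → (Γ × Z) × (Γ × Z) :=
  fun i => (((a i).1, (a' i).1), ((a i).2, (a' i).2))

theorem sem2_prod {Z : Type} [Group Z] {x : Wd} {a b : ℕ → Γ × Γ} {a' b' : ℕ → Z × Z}
    (h : Rl Γ x a b) (h' : Rl Z x a' b') : Rl (Γ × Z) x (sem2_pr a a') (sem2_pr b b') := by
  induction x generalizing a a' with
  | nil => rw [rl_nil] at h h' ⊢; rw [h, h']
  | cons t x ih =>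
    obtain ⟨c, ⟨h1, h2, h3⟩, h4⟩ := (rl_cons _ _ _ _).1 h
    obtain ⟨c', ⟨k1, k2, k3⟩, k4⟩ := (rl_cons _ _ _ _).1 h'
    refine (rl_cons _ _ _ _).2 ⟨sem2_pr c c', ⟨fun k hk => by simp only [sem2_pr, h1 k hk, k1 k hk],
      ?_, fun k => by simp only [sem2_pr, h3 k, k3 k]⟩, ih h4 k4⟩
    revert h2 k2
    cases t.2 <;> simp only [Rel, sem2_pr, cj, bd, Prod.ext_iff] <;> intro h2 k2 <;>
      simp only [h2, k2, Prod.fst_mul, Prod.snd_mul, Prod.fst_inv, Prod.snd_inv, Prod.fst_one,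
        Prod.snd_one, and_self]

theorem sem2_rel {g : Gn} {a c a' c' : ℕ → Γ × Γ} (ha : ∀ k < g.ar, a' k = a k)
    (hc : ∀ k < g.co, c' k = c k) (h : Rel g a c) : Rel g a' c' := by
  cases g <;> simp only [Gn.ar, Gn.co, Nat.forall_lt_succ_left, Nat.zero_add] at ha hc <;>
    simpa only [Rel, ha, hc] using h

theorem sem2_tl {α : Type} (p : ℕ) (x : α) (a : ℕ → α) : tl (p + 1) (cs x a) = tl p a :=
  funext fun k => by rw [tl, Nat.add_right_comm]; rfl

theorem R_triv (f : Cob X) : R Γ f 1 1 := by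
  induction f using ind with
  | h x => exact ⟨x, rfl, sem2_triv x⟩

theorem R_map {Γ' : Type} [Group Γ'] (φ : Γ →* Γ') {f : Cob X} {a b : ℕ → Γ × Γ} (h : R Γ f a b) :
    R Γ' f (mp φ a) (mp φ b) := by
  obtain ⟨x, e, h⟩ := h
  exact ⟨x, e, sem2_map φ h⟩

/-- PLAN: runs in `Γ` and in `Z` along the same word give a run in `Γ × Z`; map it by
`(g, z) ↦ g * ι z`. -/
theorem R_cen [Snd X] {Z : Type} [CommGroup Z] (ι : Z →* Γ) (hι : ∀ z g, ι z * g = g * ι z)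
    {f : Cob X} {a b : ℕ → Γ × Γ} {a' b' : ℕ → Z × Z} (h : R Γ f a b) (h' : R Z f a' b') :
    R Γ f (a * mp ι a') (b * mp ι b') := by
  obtain ⟨x, rfl, h⟩ := h
  obtain ⟨y, e, h'⟩ := h'
  exact ⟨x, rfl, sem2_map ((MonoidHom.id Γ).noncommCoprod ι fun g z => (hι z g).symm)
    (sem2_prod h ((rl_mk e _ _).1 h'))⟩

variable [Gd Γ X]

theorem R_mk (x : Wd) (a b : ℕ → Γ × Γ) : R Γ (mk x : Cob X) a b ↔ Rl Γ x a b := by
  exact ⟨fun ⟨_, k, h⟩ => (rl_mk k a b).1 h, fun h => ⟨x, rfl, h⟩⟩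

theorem R_one (a b : ℕ → Γ × Γ) : R Γ (1 : Cob X) a b ↔ a = b := by
  exact (R_mk [] a b).trans (rl_nil a b)

theorem R_mul (f g : Cob X) (a c : ℕ → Γ × Γ) :
    R Γ (f * g) a c ↔ ∃ b, R Γ f a b ∧ R Γ g b c := by
  induction f using ind
  induction g using ind
  simp only [← mk_app, R_mk, rl_app]

theorem R_up (i : ℕ) (f : Cob X) (a b : ℕ → Γ × Γ) :
    R Γ (up i f) a b ↔ (∀ k < i, b k = a k) ∧ R Γ f (tl i a) (tl i b) := by
  induction f using ind
  rw [up_mk, R_mk, R_mk, rl_sh]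

theorem R_G (g : Gn) (i : ℕ) (a b : ℕ → Γ × Γ) : R Γ (G g i : Cob X) a b ↔ Stp (i, g) a b := by
  simp [G, R_mk, rl_cons, rl_nil]

theorem R_tail {p q : ℕ} {f : Cob X} (hf : Ty p q f) {a b : ℕ → Γ × Γ} (h : R Γ f a b) :
    tl q b = tl p a := by
  obtain ⟨x, rfl, hx⟩ := hf
  rw [R_mk] at h
  induction x generalizing p a with
  | nil => cases hx; rw [(rl_nil _ _).1 h]
  | cons t x ih =>
    obtain ⟨c, ⟨-, -, h3⟩, h4⟩ := (rl_cons _ _ _ _).1 h
    have h1 := hx.1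
    refine (ih hx.2 h4).trans (funext fun k => ?_)
    exact (congrArg c (by omega)).trans ((h3 (p - t.2.ar - t.1 + k)).trans (congrArg a (by omega)))

/-- A typed morphism only sees its own handles. -/
theorem R_loc {p q : ℕ} {f : Cob X} (hf : Ty p q f) {a b a' b' : ℕ → Γ × Γ} (h : R Γ f a b)
    (ha : ∀ k < p, a' k = a k) (hb : ∀ k < q, b' k = b k) (ht : tl q b' = tl p a') :
    R Γ f a' b' := by
  obtain ⟨x, rfl, hx⟩ := hf
  rw [R_mk] at h ⊢
  induction x generalizing p a a' with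
  | nil =>
    cases hx
    rw [rl_nil] at h ⊢
    exact sem_tl q (fun k hk => by rw [ha k hk, hb k hk, h]) ht.symm
  | cons t x ih =>
    obtain ⟨c, ⟨h1, h2, h3⟩, h4⟩ := (rl_cons _ _ _ _).1 h
    have h0 := hx.1
    refine (rl_cons _ _ _ _).2 ⟨fun k => if k < p - t.2.ar + t.2.co then c k else
      a' (k - (p - t.2.ar + t.2.co) + p), ⟨fun k hk => ?_, sem2_rel (fun k hk => ha _ (by omega))
      (fun k hk => if_pos (by omega)) h2, fun k => ?_⟩,
      ih (fun k hk => if_pos hk) (ht.trans (funext fun k => ?_)) hx.2 h4⟩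
    · exact (if_pos (by omega)).trans ((h1 k hk).trans (ha k (by omega)).symm)
    · beta_reduce
      split_ifs
      · rw [h3 k, ha _ (by omega)]
      · exact congrArg a' (by omega)
    · rw [tl, tl, if_neg (by omega)]
      exact congrArg a' (by omega)

theorem R_E (p : ℕ) (a b : ℕ → Γ × Γ) :
    R Γ (E p : Cob X) a b ↔ (∀ k < p, (a k).1 = 1) ∧ b = tl p a := by
  induction p generalizing a with
  | zero => simp [E_zero, R_one, sem_cs0, eq_comm]
  | succ p ih =>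
    obtain ⟨x, a, rfl⟩ := exists_cs a
    simp only [E_succ, R_mul, R_G, stp_u, ih, sem2_tl, Nat.forall_lt_succ_left, and_assoc, cs_zero,
      cs_succ, exists_and_left, exists_eq_left]

theorem R_Lm (p : ℕ) (a b : ℕ → Γ × Γ) :
    R Γ (Lm p : Cob X) a b ↔ (∀ k < p, (a k).2 = 1) ∧ b = tl p a := by
  induction p generalizing a with
  | zero => simp [Lm_zero, R_one, sem_cs0, eq_comm]
  | succ p ih =>
    obtain ⟨x, a, rfl⟩ := exists_cs a
    simp only [Lm_succ, R_mul, R_G, stp_l, ih, sem2_tl, Nat.forall_lt_succ_left, and_assoc, cs_zero,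
      cs_succ, exists_and_left, exists_eq_left]

theorem R_Et (p : ℕ) (a b : ℕ → Γ × Γ) :
    R Γ (Et p : Cob X) a b ↔ (∀ k < p, (b k).2 = 1) ∧ tl p b = a := by
  induction p generalizing b with
  | zero => simp [Et_zero, R_one, sem_cs0, eq_comm]
  | succ p ih =>
    obtain ⟨⟨x, y⟩, b, rfl⟩ := exists_cs b
    simp only [Et_succ, R_mul, R_G, stp_e, ih, sem2_tl, Nat.forall_lt_succ_left, cs_inj, cs_zero,
      cs_succ, Prod.mk.injEq]
    exact ⟨fun ⟨_, ⟨h1, h2⟩, _, ⟨_, h3⟩, h4⟩ => h4 ▸ ⟨⟨h3, h1⟩, h2⟩,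
      fun ⟨⟨h1, h2⟩, h3⟩ => ⟨b, ⟨h2, h3⟩, x, ⟨rfl, h1⟩, rfl⟩⟩

/-- The block permutation. -/
def bp {α : Type} (p q : ℕ) (a : ℕ → α) : ℕ → α :=
  fun i => if i < q then a (p + i) else if i < q + p then a (i - q) else a i

theorem sem2_mul {f g : Cob X} {a b c : ℕ → Γ × Γ} (h : ∀ z, R Γ f a z ↔ z = b)
    (k : ∀ z, R Γ g b z ↔ z = c) (z : ℕ → Γ × Γ) : R Γ (f * g) a z ↔ z = c := by
  simp [R_mul, h, k]

theorem sem2_cr (s : Bool) (q : ℕ) {a : ℕ → Γ × Γ} (h : bd (a q) = 1) (h' : bd (a (q + 1)) = 1)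
    (z : ℕ → Γ × Γ) : R Γ (G (cr s) q : Cob X) a z ↔
      z = fun k => a (if k = q then q + 1 else if k = q + 1 then q else k) := by
  have e : Rel (cr s) (fun k => a (q + k)) (fun k => z (q + k)) ↔
      z q = a (q + 1) ∧ z (q + 1) = a q := by
    cases s <;> simp [cr, Rel, cj, h, h']
  simp only [R_G, Stp, e, cr_ar, cr_co]
  constructor
  · rintro ⟨h1, ⟨h2, h3⟩, h4⟩
    refine sem_ext q 2 (fun k hk => (h1 k hk).trans ?_) (sem_two (h2.trans ?_) (h3.trans ?_))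
      fun k => (h4 k).trans ?_ <;> refine congrArg a ?_ <;> split_ifs <;> omega
  · rintro rfl
    refine ⟨fun k hk => ?_, ⟨?_, ?_⟩, fun k => ?_⟩ <;> refine congrArg a ?_ <;> split_ifs <;> omega

theorem sem2_B1 (s : Bool) (q : ℕ) {a : ℕ → Γ × Γ} (h : ∀ k < 1 + q, bd (a k) = 1)
    (z : ℕ → Γ × Γ) : R Γ (B s 1 q : Cob X) a z ↔ z = bp 1 q a := by
  induction q generalizing z with
  | zero =>
    rw [B_zero_right, R_one, eq_comm]
    refine Eq.congr_right (funext fun k => ?_)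
    simp [bp]
  | succ q ih =>
    rw [B_one_succ]
    refine (sem2_mul (ih fun k hk => h k (by omega)) (sem2_cr s q ?_ ?_) z).trans
      (Eq.congr_right (funext fun k => ?_))
    · simpa [bp] using h 0 (by omega)
    · simpa [bp] using h (q + 1) (by omega)
    · simp only [bp]
      split_ifs <;> exact congrArg a (by omega)

theorem sem2_B (s : Bool) (p q : ℕ) {a : ℕ → Γ × Γ} (h : ∀ k < p + q, bd (a k) = 1)
    (z : ℕ → Γ × Γ) : R Γ (B s p q : Cob X) a z ↔ z = bp p q a := by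
  induction p generalizing a z with
  | zero =>
    rw [B_zero_left, R_one, eq_comm]
    refine Eq.congr_right (funext fun k => ?_)
    simp only [bp]
    split_ifs <;> exact congrArg a (by omega)
  | succ p ih =>
    have e : tl 1 (fun k => a (if k = 0 then 0 else if k ≤ q then p + k else
        if k ≤ q + p then k - q else k)) = bp p q (tl 1 a) := funext fun k => by
      simp only [tl, bp]
      split_ifs <;> exact congrArg a (by omega)
    rw [B_succ_left]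
    refine (sem2_mul (b := fun k => a (if k = 0 then 0 else if k ≤ q then p + k else
      if k ≤ q + p then k - q else k)) (fun z => ?_) (sem2_B1 s q fun k hk => h _ ?_) z).trans
      (Eq.congr_right (funext fun k => ?_))
    · rw [R_up, ih (a := tl 1 a) fun k hk => h (1 + k) (by omega), ← e]
      exact ⟨fun k => sem_tl 1 (sem_one (k.1 0 one_pos)) k.2, fun k => by
        subst k
        exact ⟨sem_one rfl, rfl⟩⟩
    · split_ifs <;> omega
    · simp only [bp]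
      split_ifs <;> exact congrArg a (by omega)

theorem R_B_bd (s : Bool) (p q : ℕ) {a : ℕ → Γ × Γ} (h : ∀ k < p + q, bd (a k) = 1) :
    R Γ (B s p q : Cob X) a (bp p q a) := by
  exact (sem2_B s p q h _).2 rfl

end

section
variable [CommGroup Γ] [Snd X]

theorem eqg_mk {x y : Wd} (h : (mk x : Cob X) = mk y) : EqG Γ x y := by
  refine sem2_ex ⟨EqG.refl, EqG.symm, EqG.trans⟩ ?_ h
  rintro _ _ ⟨p, q, i, x, y, h⟩
  exact eqg_ctx p q i (h.elim (fun h => eqv_ax h Γ) fun h => Snd.eqc x y h Γ)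

theorem R_cmul {f : Cob X} {a b a' b' : ℕ → Γ × Γ} (h : R Γ f a b) (h' : R Γ f a' b') :
    R Γ f (a * a') (b * b') := by
  exact R_cen (MonoidHom.id Γ) mul_comm h h'

omit [Snd X] in
theorem R_cinv {f : Cob X} {a b : ℕ → Γ × Γ} (h : R Γ f a b) : R Γ f a⁻¹ b⁻¹ := by
  exact R_map invMonoidHom h

theorem R_B (s : Bool) (p q : ℕ) (a b : ℕ → Γ × Γ) : R Γ (B s p q : Cob X) a b ↔ b = bp p q a := by
  exact sem2_B s p q (fun k _ => by simp [bd]) b

theorem U_mk (x : Wd) : U Γ (mk x : Cob X) ↔ Subsingleton (Run Γ x 1 1) := by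
  exact ⟨fun h => h x rfl, fun h y e => (eqg_mk e 1 1).elim fun E => E.subsingleton_congr.2 h⟩

theorem U_one : U Γ (1 : Cob X) := by
  exact (U_mk []).2 (det_nil Γ 1 1)

theorem U_left {f g : Cob X} (h : U Γ (f * g)) : U Γ f := by
  induction f using ind with | h x => ?_
  induction g using ind with | h y => ?_
  obtain ⟨E⟩ := run_app (Γ := Γ) x y 1 1
  obtain ⟨z⟩ := sem2_triv (Γ := Γ) y
  have k := E.subsingleton_congr.1 (h _ (mk_app x y))
  exact (U_mk x).2 ⟨fun r r' =>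
    congrArg Prod.fst (eq_of_heq (Sigma.mk.inj (k.elim ⟨1, r, z⟩ ⟨1, r', z⟩)).2)⟩

theorem U_mid {f g : Cob X} (h : U Γ (f * g)) {c : ℕ → Γ × Γ} (h1 : R Γ f 1 c) (h2 : R Γ g c 1) :
    c = 1 := by
  induction f using ind with | h x => ?_
  induction g using ind with | h y => ?_
  obtain ⟨E⟩ := run_app (Γ := Γ) x y 1 1
  obtain ⟨z⟩ := sem2_triv (Γ := Γ) x
  obtain ⟨z'⟩ := sem2_triv (Γ := Γ) y
  obtain ⟨r⟩ := (R_mk x _ _).1 h1
  obtain ⟨r'⟩ := (R_mk y _ _).1 h2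
  exact congrArg Sigma.fst ((E.subsingleton_congr.1 (h _ (mk_app x y))).elim ⟨c, r, r'⟩ ⟨1, z, z'⟩)

end

/-- The first homology is generated by the meridians of the first `n` handles. -/
def Std (n : ℕ) (x : Cob X) : Prop :=
  ∀ (Γ : Type) [CommGroup Γ], U Γ x ∧
    ∀ c : ℕ → Γ × Γ, R Γ x 1 c → (∀ i < n, (c i).1 = 1) → c = 1

end Pool.Agent.GH
end

-- merged part: Pool.Agent.Work.MP_c00b06_gt.Sem3
section
/-! Representations of trees in filtered groups. -/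

namespace Pool.Agent.GH
open Gn

variable {Γ : Type} [Group Γ]

/-- Commutator. -/
def cm (x y : Γ) : Γ := x * y * x⁻¹ * y⁻¹

/-- A central series indexed from `1`. -/
structure Flt (Γ : Type) [Group Γ] where
  F : ℕ → Subgroup Γ
  top : F 1 = ⊤
  anti : ∀ i, F (i + 1) ≤ F i
  comm : ∀ i j, ∀ x ∈ F i, ∀ y ∈ F j, cm x y ∈ F (i + j)

theorem Flt.le (F : Flt Γ) {i j : ℕ} (h : i ≤ j) : F.F j ≤ F.F i := by
  induction h with
  | refl => exact le_rfl
  | step _ ih => exact (F.anti _).trans ih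

theorem sem3_top (F : Flt Γ) (x : Γ) : x ∈ F.F 1 := by
  rw [F.top]
  exact Subgroup.mem_top x

theorem sem3_cm (F : Flt Γ) {i j k : ℕ} {x y : Γ} (hx : x ∈ F.F i) (hy : y ∈ F.F j)
    (h : k ≤ i + j) : cm x y ∈ F.F k := F.le h (F.comm i j x hx y hy)

theorem sem3_com {x y : Γ} (h : cm x y = 1) : x * y = y * x := by
  rwa [cm, mul_inv_eq_one, mul_inv_eq_iff_eq_mul] at h

theorem sem3_bot (F : Flt Γ) {i j k : ℕ} {x y : Γ} (hx : x ∈ F.F i) (hy : y ∈ F.F j)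
    (h : k ≤ i + j) (h0 : F.F k = ⊥) : x * y = y * x :=
  sem3_com (Subgroup.mem_bot.1 (h0 ▸ sem3_cm F hx hy h))

theorem Flt.normal (F : Flt Γ) (i : ℕ) : (F.F i).Normal := by
  refine ⟨fun x hx g => ?_⟩
  have h := (F.F i).mul_mem (sem3_cm F (sem3_top F g) hx (Nat.le_add_left i 1)) hx
  rwa [cm, inv_mul_cancel_right] at h

theorem Flt.cen (F : Flt Γ) {k : ℕ} (h : F.F (k + 1) = ⊥) {x : Γ} (hx : x ∈ F.F k) :
    x ∈ Subgroup.center Γ := by
  exact Subgroup.mem_center_iff.2 fun g => (sem3_bot F hx (sem3_top F g) le_rfl h).symm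

/-- The filtration of a commutative group. -/
def fltComm (A : Type) [CommGroup A] : Flt A where
  F i := if i ≤ 1 then ⊤ else ⊥
  top := by simp
  anti := by
    intro i
    split_ifs with h1 h2
    exacts [le_rfl, absurd (by omega) h2, le_top, le_rfl]
  comm := by
    intro i j x _ y _
    rw [cm, mul_comm x y, mul_inv_cancel_right, mul_inv_cancel]
    exact one_mem _

theorem rl_ev (x y : Γ × Γ) (t c : ℕ → Γ × Γ) :
    Rl Γ ev (cs x (cs y t)) c ↔ x.1 = y.2⁻¹ ∧ y.1 = x.2⁻¹ ∧ c = t := by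
  obtain ⟨x1, x2⟩ := x
  obtain ⟨y1, y2⟩ := y
  have key : ∀ s r : Γ, Rl Γ [(1, S), (0, m), (1, m), (0, l), (0, l)]
      (cs (x1, x2) (cs (s, r⁻¹) (cs (r, s⁻¹) (cs (y1, y2) t)))) c ↔
      s * r * s⁻¹ * r⁻¹ * s⁻¹ = x2⁻¹ * x1 * x2 ∧ y1 = s * r * s⁻¹ ∧ x2 * (s * r * s⁻¹) = 1 ∧
        s⁻¹ * y2 = 1 ∧ c = t := by
    intro s r
    rw [semc_S1, semc_m]
    simp [rl_cons, stp_succ, stp_m, stp_l, rl_nil, bd]
  simp only [ev, rl_cons (1, w), stp_succ, stp_w]
  constructor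
  · rintro ⟨_, ⟨_, rfl, s, r, rfl⟩, h⟩
    obtain ⟨h1, rfl, h3, h4, h5⟩ := (key s r).1 h
    obtain rfl := inv_mul_eq_one.1 h4
    obtain rfl := eq_inv_of_mul_eq_one_left h3
    exact ⟨semc_cj (s * r * s⁻¹)⁻¹ h1.symm (by group), (inv_inv _).symm, h5⟩
  · rintro ⟨rfl, rfl, rfl⟩
    exact ⟨_, ⟨_, rfl, y2, y2⁻¹ * x2⁻¹ * y2, rfl⟩,
      (key _ _).2 ⟨by group, by group, by group, by group, rfl⟩⟩

theorem sem3_raw (h0 h1 h2 h3 : Γ × Γ) (t c : ℕ → Γ × Γ) :
    Rl Γ [(1, P), (2, S), (3, S), (0, m), (0, m), (0, m)] (cs h0 (cs h1 (cs h2 (cs h3 t)))) c ↔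
      bd h1 * h2.1 * (bd h1)⁻¹ = h0.2⁻¹ * h0.1 * h0.2 ∧
      bd h1 * h1.1⁻¹ = (h0.2 * (bd h1 * h2.2 * (bd h1)⁻¹))⁻¹ * h0.1 *
        (h0.2 * (bd h1 * h2.2 * (bd h1)⁻¹)) ∧
      bd h3 * h3.1⁻¹ = (h0.2 * (bd h1 * h2.2 * (bd h1)⁻¹) * (h1.1 * h1.2⁻¹ * h1.1⁻¹))⁻¹ * h0.1 *
        (h0.2 * (bd h1 * h2.2 * (bd h1)⁻¹) * (h1.1 * h1.2⁻¹ * h1.1⁻¹)) ∧
      cs (h0.1, h0.2 * (bd h1 * h2.2 * (bd h1)⁻¹) * (h1.1 * h1.2⁻¹ * h1.1⁻¹) *
        (h3.1 * h3.2⁻¹ * h3.1⁻¹)) t = c := by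
  rw [semc_P1, semc_S2]
  simp only [rl_cons (3, S), stp_succ, stp_S, exists_eq_right, exists_eq_left, semc_m, rl_nil, cj]

theorem sem3_j {h0 h1 h2 h3 : Γ × Γ} {t c : ℕ → Γ × Γ}
    (h : Rl Γ [(1, P), (2, S), (3, S), (0, m), (0, m), (0, m)]
      (cs h0 (cs h1 (cs h2 (cs h3 t)))) c) : h3.1 = (c 0).2⁻¹ * (c 0).1⁻¹ * (c 0).2 := by
  obtain ⟨-, -, k, rfl⟩ := (sem3_raw ..).1 h
  generalize h0.2 * (bd h1 * h2.2 * (bd h1)⁻¹) * (h1.1 * h1.2⁻¹ * h1.1⁻¹) = z at k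
  have e : h0.1 = z * (bd h3 * h3.1⁻¹) * z⁻¹ := by
    rw [k]
    group
  simp only [cs_zero, e, bd]
  group

theorem sem3_tail (p x q g s j : Γ) (t c : ℕ → Γ × Γ) :
    Rl Γ [(1, P), (2, S), (3, S), (0, m), (0, m), (0, m)] (cs (p * s⁻¹, s * x * s⁻¹) (cs (s, x)
      (cs (q * j⁻¹, j * (j⁻¹ * g * j) * j⁻¹) (cs (j, j⁻¹ * g * j) t)))) c ↔
      s = g⁻¹ * j * g ∧ p = cm x g * j⁻¹ * (cm x g)⁻¹ * g⁻¹ * j * g ∧
      q = g * x⁻¹ * g⁻¹ * j⁻¹ * g * x * g⁻¹ * j ∧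
      c = cs (cm x g * j⁻¹ * (cm x g)⁻¹, cm x g) t := by
  rw [sem3_raw]
  simp only [bd, cm]
  constructor
  · rintro ⟨h1, h2, h3, rfl⟩
    obtain rfl : x * g * x⁻¹ * g⁻¹ * j⁻¹ * (x * g * x⁻¹ * g⁻¹)⁻¹ * s = p :=
      semc_cj (x * g * x⁻¹) h3 (by group)
    obtain rfl : s = g⁻¹ * j * g :=
      inv_injective (semc_cj (x * (s * x⁻¹ * s⁻¹ * x)⁻¹) h2 (by group))
    obtain rfl : q = g * x⁻¹ * g⁻¹ * j⁻¹ * g * x * g⁻¹ * j :=
      semc_cj (g⁻¹ * j * g * x⁻¹ * (g⁻¹ * j * g)⁻¹ * x)⁻¹ h1 (by group)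
    refine ⟨rfl, by group, rfl, ?_⟩
    congr 2 <;> group
  · rintro ⟨rfl, rfl, rfl, rfl⟩
    refine ⟨by group, by group, by group, ?_⟩
    congr 2 <;> group

theorem sem3_d2 (h0 h1 y : Γ × Γ) (t c : ℕ → Γ × Γ) :
    Stp (2, d) (cs h0 (cs h1 (cs y t))) c ↔
      ∃ j, c = cs h0 (cs h1 (cs (y.1 * j⁻¹, j * y.2 * j⁻¹) (cs (j, y.2) t))) := by
  simp [stp_succ, stp_d]

/-- The fundamental group of the node is free on `x, g, j`.  PLAN: in the first `d` the second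
meridian is `g⁻¹ * j * g`, in the second `d` it is `j` (use `stp_*`, `stp_succ`, `group`).  For
the converse put `j` = second meridian of the second `d`, `g = j * b.2 * j⁻¹`; the last two `m`
force the second meridian of the first `d` to be `g⁻¹ * j * g`. -/
theorem rl_Y (a b : Γ × Γ) (t c : ℕ → Γ × Γ) :
    Rl Γ Yn (cs a (cs b t)) c ↔ ∃ x g j : Γ,
      a = (cm x g * j⁻¹ * (cm x g)⁻¹ * g⁻¹ * j * g, x) ∧
      b = (g * x⁻¹ * g⁻¹ * j⁻¹ * g * x * g⁻¹ * j, j⁻¹ * g * j) ∧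
      c = cs (cm x g * j⁻¹ * (cm x g)⁻¹, cm x g) t := by
  obtain ⟨p, x⟩ := a
  obtain ⟨q, y⟩ := b
  rw [Yn, semc_d]
  simp only [rl_cons (2, d), sem3_d2]
  constructor
  · rintro ⟨s, _, ⟨j, rfl⟩, h⟩
    obtain ⟨g, rfl⟩ : ∃ g, y = j⁻¹ * g * j := ⟨j * y * j⁻¹, by group⟩
    obtain ⟨-, rfl, rfl, rfl⟩ := (sem3_tail ..).1 h
    exact ⟨x, g, j, rfl, rfl, rfl⟩
  · rintro ⟨x', g, j, h1, h2, rfl⟩
    obtain ⟨rfl, rfl⟩ := Prod.mk.inj h1
    obtain ⟨rfl, rfl⟩ := Prod.mk.inj h2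
    exact ⟨_, _, ⟨j, rfl⟩, (sem3_tail ..).2 ⟨rfl, rfl, rfl, rfl⟩⟩

/-- PLAN: `det_of_chain` or directly: the output gives `j`, hence both `d` steps; the other
letters are forward deterministic (`det_cons`). -/
theorem det_Y : Det Yn := by
  refine semc_det (semc_det (det_cons _ _ (by simp) (det_cons _ _ (by simp) (det_cons _ _ (by simp)
    (det_cons _ _ (by simp) (det_cons _ _ (by simp) (det_cons _ _ (by simp) det_nil))))))
    fun Γ _ a b c c' h1 h2 h3 h4 => ?_) fun Γ _ a b c c' h1 h2 h3 h4 => ?_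
  · obtain ⟨h, a, rfl⟩ := exists_cs a
    obtain ⟨h', a, rfl⟩ := exists_cs a
    obtain ⟨y, a, rfl⟩ := exists_cs a
    obtain ⟨j, rfl⟩ := (sem3_d2 ..).1 h1
    obtain ⟨j', rfl⟩ := (sem3_d2 ..).1 h3
    obtain rfl : j = j' := (sem3_j h2).trans (sem3_j h4).symm
    rfl
  · obtain ⟨⟨p, x⟩, a, rfl⟩ := exists_cs a
    obtain ⟨⟨q, y⟩, a, rfl⟩ := exists_cs a
    obtain ⟨s, rfl⟩ := (stp_d ..).1 h1
    obtain ⟨s', rfl⟩ := (stp_d ..).1 h3
    obtain ⟨_, k1, h2⟩ := (rl_cons ..).1 h2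
    obtain ⟨_, k2, h4⟩ := (rl_cons ..).1 h4
    obtain ⟨j, rfl⟩ := (sem3_d2 ..).1 k1
    obtain ⟨j', rfl⟩ := (sem3_d2 ..).1 k2
    obtain rfl : j = j' := (sem3_j h2).trans (sem3_j h4).symm
    obtain ⟨g, rfl⟩ : ∃ g, y = j⁻¹ * g * j := ⟨j * y * j⁻¹, by group⟩
    rw [((sem3_tail ..).1 h2).1, ((sem3_tail ..).1 h4).1]

/-- Longitude of the output of a tree. -/
def Lc : Tr → (ℕ → Γ) → Γ
  | .lf, x => x 0
  | .nd a b, x => cm (Lc a x) (Lc b (tl (a.nn + 1) x))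

/-- Meridians of the inputs of a tree, to first order. -/
def mu : Tr → (ℕ → Γ) → Γ → ℕ → Γ
  | .lf, _, M, _ => M
  | .nd a b, x, M, i =>
    if i ≤ a.nn then mu a x (cm M (Lc b (tl (a.nn + 1) x))⁻¹) i
    else mu b (tl (a.nn + 1) x) (cm (Lc a x)⁻¹ M) (i - (a.nn + 1))

/-- Meridians of the leaves of a tree surgery, to first order. -/
def mus (τ : Tr) (x : ℕ → Γ) (i : ℕ) : Γ :=
  if i ≤ τ.nn then mu τ x (x (τ.nn + 1))⁻¹ i else (Lc τ x)⁻¹

theorem Lc_mem (F : Flt Γ) (τ : Tr) (x : ℕ → Γ) : Lc τ x ∈ F.F (τ.nn + 1) := by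
  induction τ generalizing x with
  | lf => exact sem3_top F _
  | nd a b iha ihb => exact sem3_cm F (iha _) (ihb _) (by simp only [Tr.nn]; omega)

theorem mu_mem (F : Flt Γ) (τ : Tr) (x : ℕ → Γ) {j : ℕ} {M : Γ} (hM : M ∈ F.F j) (i : ℕ) :
    mu τ x M i ∈ F.F (j + τ.nn) := by
  induction τ generalizing x j M i with
  | lf => exact hM
  | nd a b iha ihb =>
    rw [mu]
    split_ifs
    · exact F.le (by simp only [Tr.nn]; omega)
        (iha x (sem3_cm F hM (inv_mem (Lc_mem F b _)) le_rfl) _)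
    · exact F.le (by simp only [Tr.nn]; omega)
        (ihb _ (sem3_cm F (inv_mem (Lc_mem F a _)) hM le_rfl) _)

theorem mus_mem (F : Flt Γ) (τ : Tr) (x : ℕ → Γ) (i : ℕ) : mus τ x i ∈ F.F (τ.nn + 1) := by
  rw [mus]
  split_ifs
  · exact F.le (by omega) (mu_mem F τ x (sem3_top F _) i)
  · exact inv_mem (Lc_mem F τ x)

theorem sem3_cong (F : Flt Γ) {i j : ℕ} {x x' y y' : Γ} (hx : x ∈ F.F i)
    (hx' : x⁻¹ * x' ∈ F.F (i + 1)) (hy : y ∈ F.F j) (hy' : y⁻¹ * y' ∈ F.F (j + 1)) :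
    (cm x y)⁻¹ * cm x' y' ∈ F.F (i + j + 1) := by
  obtain ⟨p, rfl⟩ : ∃ p, x' = x * p := ⟨x⁻¹ * x', by group⟩
  obtain ⟨q, rfl⟩ : ∃ q, y' = y * q := ⟨y⁻¹ * y', by group⟩
  rw [inv_mul_cancel_left] at hx' hy'
  have h1 := (F.normal _).conj_mem _
    (sem3_cm F hx' (mul_mem hy (F.anti j hy')) (k := i + j + 1) (by omega)) ((cm x y)⁻¹ * x)
  have h2 := (F.normal _).conj_mem _
    (sem3_cm F hy' (inv_mem hx) (k := i + j + 1) (by omega)) (y * x)
  convert mul_mem h1 h2 using 1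
  simp only [cm]
  group

theorem sem3_tl {α : Type} (i j : ℕ) (a : ℕ → α) : tl i (tl j a) = tl (j + i) a :=
  funext fun k => by simp only [tl, Nat.add_assoc]

theorem sem3_eta {α : Type} (a : ℕ → α) : cs (a 0) (tl 1 a) = a := by
  obtain ⟨h, t, rfl⟩ := exists_cs a
  rw [sem_cs1', cs_zero]

theorem sem3_nd (a b : Tr) (s c : ℕ → Γ × Γ) : Rl Γ (Tr.nd a b).wd s c ↔ ∃ x g j t t',
    Rl Γ a.wd s (cs (cm x g * j⁻¹ * (cm x g)⁻¹ * g⁻¹ * j * g, x) t) ∧
    Rl Γ b.wd t (cs (g * x⁻¹ * g⁻¹ * j⁻¹ * g * x * g⁻¹ * j, j⁻¹ * g * j) t') ∧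
    c = cs (cm x g * j⁻¹ * (cm x g)⁻¹, cm x g) t' := by
  rw [Tr.wd, semc_app]
  simp only [semc_app]
  constructor
  · rintro ⟨s2, ⟨s1, h1, h2⟩, h3⟩
    obtain ⟨p, t, rfl⟩ := exists_cs s1
    obtain ⟨s3, rfl, h4⟩ := (semc_sh ..).1 h2
    obtain ⟨q, t', rfl⟩ := exists_cs s3
    obtain ⟨x, g, j, rfl, rfl, rfl⟩ := (rl_Y ..).1 h3
    exact ⟨x, g, j, t, t', h1, h4, rfl⟩
  · rintro ⟨x, g, j, t, t', h1, h2, rfl⟩
    exact ⟨_, ⟨_, h1, (semc_sh ..).2 ⟨_, rfl, h2⟩⟩, (rl_Y ..).2 ⟨x, g, j, rfl, rfl, rfl⟩⟩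

/-- PLAN: induction on `τ`, generalizing everything.  For `nd a b` use `rl_Y` with `x = Lc a`,
`j = M⁻¹`, `g = M⁻¹ * Lc b * M`; `cm x g = Lc (nd a b)` commutes with `M` because
`F (j + nn + 1) = ⊥`; the two input meridians are `cm M g⁻¹` and `cm (g * x⁻¹ * g⁻¹) M`, of levels
`j + b.nn + 1` and `j + a.nn + 1`.  Congruences modulo `F n` are best done in the quotient group
by the normal subgroup `F n`. -/
theorem rl_tree_intro (F : Flt Γ) (τ : Tr) (x : ℕ → Γ) {j : ℕ} (hj : 1 ≤ j) {M M' : Γ}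
    (hM : M ∈ F.F j) (hM' : M⁻¹ * M' ∈ F.F (j + 1)) (h0 : F.F (j + τ.nn + 1) = ⊥)
    {a : ℕ → Γ × Γ} (ha : ∀ i ≤ τ.nn, a i = (mu τ x M' i, x i)) :
    Rl Γ τ.wd a (cs (M, Lc τ x) (tl (τ.nn + 1) a)) := by
  induction τ generalizing x j M M' a with
  | lf =>
    obtain rfl : M = M' := inv_mul_eq_one.1 (Subgroup.mem_bot.1 (h0 ▸ hM'))
    refine (rl_nil ..).2 ((sem3_eta a).symm.trans ?_)
    rw [ha 0 le_rfl]
    rfl
  | nd p q ihp ihq =>
    simp only [Tr.nn] at h0 ha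
    have hX := Lc_mem F p x
    have hY := Lc_mem F q (tl (p.nn + 1) x)
    have e0 : Lc (p.nd q) x = cm (Lc p x) (Lc q (tl (p.nn + 1) x)) := rfl
    have a1 : ∀ i ≤ p.nn, a i = (mu p x (cm M' (Lc q (tl (p.nn + 1) x))⁻¹) i, x i) :=
      fun i hi => by rw [ha i (by omega), mu, if_pos hi]
    have a2 : ∀ i ≤ q.nn, tl (p.nn + 1) a i =
        (mu q (tl (p.nn + 1) x) (cm (Lc p x)⁻¹ M') i, tl (p.nn + 1) x i) := fun i hi => by
      rw [tl, ha _ (by omega), mu, if_neg (by omega), Nat.add_sub_cancel_left]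
      rfl
    have hg : M⁻¹ * Lc q (tl (p.nn + 1) x) * M ∈ F.F (q.nn + 1) := (F.normal _).conj_mem' _ hY M
    have k1 := ihp x (j := j + (q.nn + 1)) (by omega) (sem3_cm F hM (inv_mem hg) le_rfl)
      (sem3_cong F hM hM' (inv_mem hg) (by
        convert sem3_cm F (inv_mem hM) hY (k := q.nn + 1 + 1) (by omega) using 1
        simp only [cm, inv_inv])) (by rw [← h0]; congr 1; omega) a1
    have hx := (F.normal _).conj_mem _ (inv_mem hX) (M⁻¹ * Lc q (tl (p.nn + 1) x) * M)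
    have k2 := ihq (tl (p.nn + 1) x) (j := p.nn + 1 + j) (by omega) (sem3_cm F hx hM le_rfl)
      (sem3_cong F hx (by
        convert sem3_cm F hg hX (k := p.nn + 1 + 1) (by omega) using 1
        simp only [cm]
        group) hM hM') (by rw [← h0]; congr 1; omega) a2
    rw [e0]
    generalize Lc p x = X at hX k1 k2 ⊢
    generalize Lc q (tl (p.nn + 1) x) = Y at hY k1 k2 ⊢
    have c1 := sem3_bot F hX (sem3_cm F (inv_mem hY) (inv_mem hM) le_rfl) (by omega) h0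
    have c2 := sem3_bot F (sem3_cm F hX hY le_rfl) hM (by omega) h0
    have e1 : cm X (M⁻¹ * Y * M) = cm X Y :=
      semc_cj (X * Y * X⁻¹) c1 (by simp only [cm]; group)
    have e2 : cm X Y * M * (cm X Y)⁻¹ = M := by rw [c2, mul_inv_cancel_right]
    refine (sem3_nd ..).2 ⟨X, M⁻¹ * Y * M, M⁻¹, tl (p.nn + 1) a,
      tl (q.nn + 1) (tl (p.nn + 1) a), ?_, ?_, ?_⟩
    · convert k1 using 3
      rw [e1, inv_inv, e2, cm, inv_inv]
    · convert k2 using 3
      · simp only [cm]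
        group
      · group
    · rw [e1, inv_inv, e2, sem3_tl]
      congr 2
      simp only [Tr.nn]
      omega

theorem rl_tree_lon (F : Flt Γ) (τ : Tr) {a c : ℕ → Γ × Γ} (h : Rl Γ τ.wd a c) :
    (c 0).2 ∈ F.F (τ.nn + 1) ∧ tl 1 c = tl (τ.nn + 1) a := by
  induction τ generalizing a c with
  | lf =>
    obtain rfl := (rl_nil ..).1 h
    exact ⟨sem3_top F _, rfl⟩
  | nd p q ihp ihq =>
    obtain ⟨x, g, j, t, t', h1, h2, rfl⟩ := (sem3_nd ..).1 h
    obtain ⟨a1, a2⟩ := ihp h1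
    obtain ⟨a3, a4⟩ := ihq h2
    rw [sem_cs1'] at a2 a4
    have hg : g ∈ F.F (q.nn + 1) := by simpa using (F.normal _).mem_comm_iff.1 a3
    refine ⟨sem3_cm F a1 hg (by simp only [Tr.nn]; omega), ?_⟩
    rw [sem_cs1', a4, a2, sem3_tl]
    congr 1
    simp only [Tr.nn]
    omega

theorem rl_tree_mer (F : Flt Γ) (τ : Tr) {a c : ℕ → Γ × Γ} (h : Rl Γ τ.wd a c) {j : ℕ}
    (hj : (c 0).1 ∈ F.F j) : ∀ i ≤ τ.nn, (a i).1 ∈ F.F (j + τ.nn) := by
  induction τ generalizing a c j with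
  | lf =>
    obtain rfl := (rl_nil ..).1 h
    intro i hi
    obtain rfl : i = 0 := Nat.le_zero.1 hi
    exact hj
  | nd p q ihp ihq =>
    obtain ⟨x, g, z, t, t', h1, h2, rfl⟩ := (sem3_nd ..).1 h
    obtain ⟨a1, a2⟩ := rl_tree_lon F p h1
    rw [sem_cs1'] at a2
    have hx : x ∈ F.F (p.nn + 1) := a1
    have hg : g ∈ F.F (q.nn + 1) := by
      simpa using (F.normal _).mem_comm_iff.1 (rl_tree_lon F q h2).1
    have hz : z⁻¹ ∈ F.F j := by simpa using (F.normal _).mem_comm_iff.1 hj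
    have k1 := ihp h1 (j := j + (q.nn + 1)) (by
      convert mul_mem (sem3_cm F (sem3_cm F hx hg le_rfl) hz (k := j + (q.nn + 1)) (by omega))
        (sem3_cm F hz (inv_mem hg) le_rfl) using 1
      simp only [cs_zero]
      generalize cm x g = y
      simp only [cm]
      group)
    have k2 := ihq h2 (j := p.nn + 1 + j) (by
      convert sem3_cm F ((F.normal _).conj_mem _ (inv_mem hx) g) hz le_rfl using 1
      simp only [cs_zero, cm]
      group)
    intro i hi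
    simp only [Tr.nn] at hi ⊢
    by_cases k : i ≤ p.nn
    · exact F.le (by omega) (k1 i k)
    · have := k2 (i - (p.nn + 1)) (by omega)
      rw [a2, tl, show p.nn + 1 + (i - (p.nn + 1)) = i by omega] at this
      exact F.le (by omega) this

theorem rl_fl_e (p : ℕ) (a c : ℕ → Γ × Γ) :
    Rl Γ (fl p ++ [(0, e)]) a c ↔ (∀ i < p, (a i).1 = 1) ∧ (c 0).2 = 1 ∧ tl 1 c = tl p a := by
  induction p generalizing a with
  | zero => simp [fl, rl_cons, rl_nil, sem_zero, Rel, Gn.co, Gn.ar]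
  | succ p ih =>
    obtain ⟨h, a, rfl⟩ := exists_cs a
    have e1 : tl (p + 1) (cs h a) = tl p a := by
      rw [Nat.add_comm, ← sem3_tl, sem_cs1']
    rw [show fl (p + 1) ++ [(0, e)] = (0, u) :: (fl p ++ [(0, e)]) from rfl, rl_cons, e1]
    simp only [stp_u, and_assoc, exists_and_left, exists_eq_left, ih, Nat.forall_lt_succ_left,
      cs_zero, cs_succ]

theorem rl_tree_nil (F : Flt Γ) (τ : Tr) (h0 : F.F (τ.nn + 1) = ⊥) (a c : ℕ → Γ × Γ) :
    Rl Γ τ.wd a c ↔ Rl Γ (fl (τ.nn + 1) ++ [(0, e)]) a c := by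
  have h1 : ∀ {k : ℕ} {y : Γ}, y ∈ F.F k → τ.nn + 1 ≤ k → y = 1 := fun hy hk =>
    Subgroup.mem_bot.1 (h0 ▸ F.le hk hy)
  rw [rl_fl_e]
  constructor
  · intro h
    obtain ⟨a1, a2⟩ := rl_tree_lon F τ h
    exact ⟨fun i hi => h1 (rl_tree_mer F τ h (sem3_top F _) i (by omega)) (by omega),
      h1 a1 le_rfl, a2⟩
  · rintro ⟨a1, a2, a3⟩
    have k := rl_tree_intro F τ (fun i => (a i).2) le_rfl (sem3_top F (c 0).1)
      (M' := (c 0).1) (by rw [inv_mul_cancel]; exact one_mem _)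
      (eq_bot_iff.2 fun y hy => Subgroup.mem_bot.2 (h1 hy (by omega))) (a := a) fun i hi =>
        Prod.ext ((a1 i (by omega)).trans (h1 (mu_mem F τ _ (sem3_top F _) i) (by omega)).symm) rfl
    rwa [h1 (Lc_mem F τ _) le_rfl, ← a2, ← a3, Prod.mk.eta, sem3_eta] at k

theorem rl_sg (F : Flt Γ) (τ : Tr) (h0 : F.F (τ.nn + 2) = ⊥) (x : ℕ → Γ) {a : ℕ → Γ × Γ}
    (ha : ∀ i ≤ τ.nn + 1, a i = (mus τ x i, x i)) : Rl Γ τ.sg a (tl (τ.nn + 2) a) := by
  have k := rl_tree_intro F τ x le_rfl (sem3_top F (x (τ.nn + 1))⁻¹)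
    (M' := (x (τ.nn + 1))⁻¹) (by rw [inv_mul_cancel]; exact one_mem _)
    (by rw [← h0]; congr 1; omega) (a := a) fun i hi => by rw [ha i (by omega), mus, if_pos hi]
  refine (semc_app ..).2 ⟨_, k, ?_⟩
  rw [← sem3_eta (tl (τ.nn + 1) a), sem3_tl, rl_ev, tl, Nat.add_zero, ha _ le_rfl, mus,
    if_neg (by omega)]
  exact ⟨rfl, rfl, rfl⟩

/-- PLAN: both words are `Det`; `rl_tree_nil` with `fltComm`. -/
theorem eqg_Y (A : Type) [CommGroup A] : EqG A Yn (fl 2 ++ [(0, e)]) := by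
  intro a b
  have h1 := det_Y A a b
  have h2 : Det (fl 2 ++ [(0, e)]) :=
    det_snoc _ _ (by simp) (det_cons _ _ (by simp) (det_cons _ _ (by simp) det_nil))
  have h3 := h2 A a b
  have h : Rl A Yn a b ↔ Rl A (fl 2 ++ [(0, e)]) a b :=
    rl_tree_nil (fltComm A) (.nd .lf .lf) (by simp [fltComm, Tr.nn]) a b
  exact ⟨equivOfSubsingletonOfSubsingleton (fun z => Classical.choice (h.1 ⟨z⟩))
    (fun z => Classical.choice (h.2 ⟨z⟩))⟩

end Pool.Agent.GH
end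
end
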