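import Mathlib
import Pool.Agent.Work.MP_c00b06_gt.M1
import Pool.Agent.Work.MP_c00b06_gt.NF0
import Pool.Agent.Work.MP_c00b06_gt.Id5
import Pool.Agent.Work.MP_c00b06_gt.Sem3
import Pool.Agent.Work.MP_c00b06_gt.Id6
import Pool.Agent.Work.MP_c00b06_gt.D2a

-- merged part: Pool.Agent.Work.MP_c00b06_gt.GT5
section
-- merged part: Pool.Agent.Work.MP_c00b06_gt.GT1
section
/-! Cubes in filtered groups (Host-Kra cubes, recursive definition) and alternating sums. -/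

namespace Pool.Agent.GH

variable {G : Type} [Group G]

/-- A filtration with `N 0` the whole group. -/
structure Fl (N : ℕ → Subgroup G) : Prop where
  top : N 0 = ⊤
  anti : ∀ i, N (i + 1) ≤ N i
  comm : ∀ i j, ∀ x ∈ N i, ∀ y ∈ N j, x * y * x⁻¹ * y⁻¹ ∈ N (i + j)

/-- `f` restricted to the lists of length `r` is a cube of level `b`. -/
def Cube (N : ℕ → Subgroup G) : ℕ → ℕ → (List Bool → G) → Prop
  | 0, b, f => f [] ∈ N b
  | r + 1, b, f => Cube N r b (fun s => f (false :: s)) ∧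
      Cube N r (b + 1) (fun s => (f (false :: s))⁻¹ * f (true :: s))

/-- Alternating sum over the lists of length `r`. -/
def alt {A : Type} [AddCommGroup A] : ℕ → (List Bool → A) → A
  | 0, f => f []
  | r + 1, f => alt r (fun s => f (false :: s)) - alt r (fun s => f (true :: s))

/-- `θ` has degree `< d` on the cubes with values in `S`. -/
def Pol (N : ℕ → Subgroup G) (S : Set G) (d : ℕ) {A : Type} [AddCommGroup A] (θ : G → A) : Prop :=
  ∀ r, d ≤ r → ∀ f, Cube N r 0 f → (∀ s : List Bool, s.length = r → f s ∈ S) →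
    alt r (fun s => θ (f s)) = 0

/-- No map of degree `< d` on the cubes with values in `S` separates `g` from `1`. -/
def Dm (N : ℕ → Subgroup G) (S : Set G) (d : ℕ) (g : G) : Prop :=
  ∀ (A : Type) [AddCommGroup A] (θ : G → A), Pol N S d θ → θ g = θ 1

variable {N : ℕ → Subgroup G}

theorem Fl.le (h : Fl N) {i j : ℕ} (hij : i ≤ j) : N j ≤ N i := by
  exact antitone_nat_of_succ_le h.anti hij

/-- PLAN: `comm 0 i`. -/
theorem Fl.conj (h : Fl N) {i : ℕ} {x : G} (hx : x ∈ N i) (g : G) : g * x * g⁻¹ ∈ N i := by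
  have := h.comm 0 i g (h.top ▸ Subgroup.mem_top g) x hx
  rw [zero_add] at this
  simpa using mul_mem this hx

theorem Fl.normal (h : Fl N) (i : ℕ) : (N i).Normal := by
  exact ⟨fun _ hx g => h.conj hx g⟩

theorem cube_congr {r b : ℕ} {f g : List Bool → G} (h : ∀ s : List Bool, s.length = r → f s = g s)
    (hf : Cube N r b f) : Cube N r b g := by
  induction r generalizing b f g with
  | zero => exact (congrArg (· ∈ N b) (h [] rfl)).mp hf
  | succ r ih =>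
    refine ⟨ih (fun s hs => h _ (by simp [hs])) hf.1, ih (fun s hs => ?_) hf.2⟩
    rw [h (false :: s) (by simp [hs]), h (true :: s) (by simp [hs])]

theorem cube_const (h : Fl N) (r : ℕ) {b : ℕ} {x : G} (hx : x ∈ N b) :
    Cube N r b (fun _ => x) := by
  induction r generalizing b x with
  | zero => exact hx
  | succ r ih => exact ⟨ih hx, ih (by simp)⟩

theorem cube_mono (h : Fl N) {r b b' : ℕ} {f : List Bool → G} (hb : b ≤ b') (hf : Cube N r b' f) :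
    Cube N r b f := by
  induction r generalizing b b' f with
  | zero => exact h.le hb hf
  | succ r ih => exact ⟨ih hb hf.1, ih (Nat.succ_le_succ hb) hf.2⟩

theorem gt1_all (h : Fl N) (r : ℕ) :
    (∀ b f g, Cube N r b f → Cube N r b g → Cube N r b (fun s => f s * g s)) ∧
    (∀ b f, Cube N r b f → Cube N r b (fun s => (f s)⁻¹)) ∧
    ∀ b c f g, Cube N r b f → Cube N r c g →
      Cube N r (b + c) (fun s => f s * g s * (f s)⁻¹ * (g s)⁻¹) := by
  induction r with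
  | zero => exact ⟨fun _ _ _ => mul_mem, fun _ _ => inv_mem, fun b c _ _ hf hg => h.comm b c _ hf _ hg⟩
  | succ r ih =>
    obtain ⟨m, i, k⟩ := ih
    have cj {b c f g} (hf : Cube N r b f) (hg : Cube N r c g) :
        Cube N r c (fun s => f s * g s * (f s)⁻¹) :=
      cube_congr (fun s _ => by group)
        (m _ _ _ (cube_mono h (Nat.le_add_left c b) (k _ _ _ _ hf hg)) hg)
    refine ⟨fun b f g hf hg => ⟨m _ _ _ hf.1 hg.1,
      cube_congr (fun s _ => by group) (m _ _ _ (cj (i _ _ hg.1) hf.2) hg.2)⟩,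
      fun b f hf => ⟨i _ _ hf.1, cube_congr (fun s _ => by group) (cj hf.1 (i _ _ hf.2))⟩,
      fun b c f g hf hg => ⟨k _ _ _ _ hf.1 hg.1, ?_⟩⟩
    have h1 := k _ _ _ _ hf.2 (m _ _ _ hg.1 (cube_mono h (Nat.le_succ c) hg.2))
    rw [Nat.add_right_comm] at h1
    have h2 : Cube N r (b + c + 1) _ := k b (c + 1) _ _ hf.1 hg.2
    exact cube_congr (fun s _ => by group) (m _ _ _ (cj (i _ _ (k _ _ _ _ hf.1 hg.1)) (cj hf.1 h1))
      (cj hg.1 h2))

/-- PLAN: prove `cube_mul`, `cube_inv`, `cube_comm` together by induction on `r` (all levels at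
once).  With `f1 = f0 * p`, `g1 = g0 * q`:
`(f0 g0)⁻¹ (f1 g1) = (g0⁻¹ p g0) q` and `g0⁻¹ p g0 = [g0⁻¹, p] p`; the commutator of two cubes of
dimension `r + 1` expands into products of conjugates of commutators of cubes of dimension `r`
(conjugation by a cube of any level keeps the level: use `cube_comm` and `cube_mono`). -/
theorem cube_mul (h : Fl N) {r b : ℕ} {f g : List Bool → G} (hf : Cube N r b f)
    (hg : Cube N r b g) : Cube N r b (fun s => f s * g s) := by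
  exact (gt1_all h r).1 b f g hf hg

theorem cube_inv (h : Fl N) {r b : ℕ} {f : List Bool → G} (hf : Cube N r b f) :
    Cube N r b (fun s => (f s)⁻¹) := by
  exact (gt1_all h r).2.1 b f hf

theorem cube_comm (h : Fl N) {r b c : ℕ} {f g : List Bool → G} (hf : Cube N r b f)
    (hg : Cube N r c g) : Cube N r (b + c) (fun s => f s * g s * (f s)⁻¹ * (g s)⁻¹) := by
  exact (gt1_all h r).2.2 b c f g hf hg

theorem cube_mem (h : Fl N) {r b : ℕ} {f : List Bool → G} (hf : Cube N r b f) (s : List Bool)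
    (hs : s.length = r) : f s ∈ N b := by
  induction r generalizing b f s with
  | zero =>
    obtain rfl := List.length_eq_zero_iff.1 hs
    exact hf
  | succ r ih =>
    obtain _ | ⟨x, s⟩ := s
    · simp at hs
    have h0 := ih hf.1 s (by simpa using hs)
    cases x
    · exact h0
    · simpa using mul_mem h0 (h.anti b (ih hf.2 s (by simpa using hs)))

theorem cube_mem' (h : Fl N) {r b : ℕ} {f : List Bool → G} (hf : Cube N r b f) (s t : List Bool)
    (hs : s.length = r) (ht : t.length = r) : (f s)⁻¹ * f t ∈ N (b + 1) := by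
  induction r generalizing b f s t with
  | zero =>
    obtain rfl := List.length_eq_zero_iff.1 hs
    obtain rfl := List.length_eq_zero_iff.1 ht
    simp
  | succ r ih =>
    have key (x : Bool) (u : List Bool) (hu : (x :: u).length = r + 1) :
        (f (false :: u))⁻¹ * f (x :: u) ∈ N (b + 1) := by
      cases x
      · simp
      · exact cube_mem h hf.2 u (by simpa using hu)
    obtain _ | ⟨x, s⟩ := s
    · simp at hs
    obtain _ | ⟨y, t⟩ := t
    · simp at ht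
    have := mul_mem (mul_mem (inv_mem (key x s hs))
      (ih hf.1 s t (by simpa using hs) (by simpa using ht))) (key y t ht)
    simpa [mul_assoc] using this

/-- A map that is multiplicative and filtered on a subgroup sends cubes to cubes. -/
theorem cube_map_on {G' : Type} [Group G'] {N' : ℕ → Subgroup G'} (S : Subgroup G) (φ : G → G')
    (hφ : ∀ x ∈ S, ∀ y ∈ S, φ (x * y) = φ x * φ y) (hN : ∀ k, ∀ x ∈ S, x ∈ N k → φ x ∈ N' k)
    {r b : ℕ} {f : List Bool → G} (hf : Cube N r b f)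
    (hS : ∀ s : List Bool, s.length = r → f s ∈ S) : Cube N' r b (fun s => φ (f s)) := by
  induction r generalizing b f with
  | zero => exact hN b _ (hS [] rfl) hf
  | succ r ih =>
    have h0 (x : Bool) (s : List Bool) (hs : s.length = r) : f (x :: s) ∈ S := hS _ (by simp [hs])
    have h1 (s : List Bool) (hs : s.length = r) : (f (false :: s))⁻¹ * f (true :: s) ∈ S :=
      mul_mem (inv_mem (h0 _ s hs)) (h0 _ s hs)
    refine ⟨ih hf.1 (h0 _), cube_congr (fun s hs => ?_) (ih hf.2 h1)⟩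
    rw [eq_inv_mul_iff_mul_eq, ← hφ _ (h0 _ s hs) _ (h1 s hs), mul_inv_cancel_left]

theorem cube_map {G' : Type} [Group G'] {N' : ℕ → Subgroup G'} (φ : G →* G')
    (hN : ∀ k, ∀ x ∈ N k, φ x ∈ N' k) {r b : ℕ} {f : List Bool → G} (hf : Cube N r b f) :
    Cube N' r b (fun s => φ (f s)) := by
  exact cube_map_on ⊤ φ (fun x _ y _ => φ.map_mul x y) (fun k x _ => hN k x) hf
    fun _ _ => Subgroup.mem_top _

/-- A function that is trivial on the face `s_q = false` and a cube of level `b + 1` on the face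
`s_q = true`.  PLAN: induction on `q`, generalizing `r b f`. -/
theorem cube_ins (h : Fl N) {q r b : ℕ} (hq : q ≤ r) {f : List Bool → G}
    (h0 : ∀ s : List Bool, s.length = r → f (s.insertIdx q false) = 1)
    (h1 : Cube N r (b + 1) (fun s => f (s.insertIdx q true))) : Cube N (r + 1) b f := by
  induction q generalizing r b f with
  | zero =>
    simp only [List.insertIdx_zero] at h0 h1
    exact ⟨cube_congr (fun s hs => (h0 s hs).symm) (cube_const h r (one_mem _)),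
      cube_congr (fun s hs => by rw [h0 s hs, inv_one, one_mul]) h1⟩
  | succ q ih =>
    obtain _ | r := r
    · omega
    have h2 (x : Bool) (s : List Bool) (hs : s.length = r) : f (x :: s.insertIdx q false) = 1 :=
      h0 (x :: s) (by simp [hs])
    exact ⟨ih (by omega) (h2 false) h1.1,
      ih (by omega) (fun s hs => by rw [h2 _ s hs, h2 _ s hs, inv_one, one_mul]) h1.2⟩

theorem alt_congr {A : Type} [AddCommGroup A] {r : ℕ} {f g : List Bool → A}
    (h : ∀ s : List Bool, s.length = r → f s = g s) : alt r f = alt r g := by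
  induction r generalizing f g with
  | zero => exact h [] rfl
  | succ r ih =>
    rw [alt, alt, ih (g := fun s => g (false :: s)) fun s hs => h _ (by simp [hs]),
      ih (f := fun s => f (true :: s)) (g := fun s => g (true :: s)) fun s hs => h _ (by simp [hs])]

theorem alt_add {A : Type} [AddCommGroup A] (r : ℕ) (f g : List Bool → A) :
    alt r (fun s => f s + g s) = alt r f + alt r g := by
  induction r generalizing f g with
  | zero => rfl
  | succ r ih =>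
    rw [alt, alt, alt, ih, ih]
    abel

theorem alt_const {A : Type} [AddCommGroup A] {r : ℕ} (hr : 1 ≤ r) (a : A) :
    alt r (fun _ => a) = 0 := by
  obtain _ | r := r
  · omega
  · exact sub_self _

theorem alt_eq {A : Type} [AddCommGroup A] (r : ℕ) (F : List Bool → A) :
    ∑ s : Fin r → Bool, (-1 : ℤ) ^ (List.ofFn s).count true • F (List.ofFn s) = alt r F := by
  induction r generalizing F with
  | zero => simp [alt]
  | succ r ih =>
    rw [alt, ← ih, ← ih, ← (Fin.consEquiv fun _ => Bool).sum_comp, Fintype.sum_prod_type,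
      Fintype.sum_bool, add_comm, sub_eq_add_neg, ← Finset.sum_neg_distrib]
    congr 1 <;> refine Finset.sum_congr rfl fun s _ => ?_ <;>
      simp [Fin.consEquiv, List.ofFn_succ, pow_succ]

/-- Only the top vertex differs. -/
theorem alt_top {A : Type} [AddCommGroup A] {r : ℕ} (hr : 1 ≤ r) (a a' : A) :
    alt r (fun s => if s.all id then a' else a) = (-1 : ℤ) ^ r • (a' - a) := by
  induction r, hr using Nat.le_induction with
  | base => simp [alt]
  | succ r hr ih =>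
    have e : alt (r + 1) (fun s => if s.all id then a' else a) =
        alt r (fun _ => a) - alt r fun s => if s.all id then a' else a := by
      simp [alt]
    rw [e, ih, alt_const hr, pow_succ, mul_neg_one, neg_smul, zero_sub]

/-- A map that is additive on a subgroup `S` and kills `S ∩ N d` has degree `< d`.
PLAN: `alt r (χ ∘ f) = 0` for cubes of level `b` with `d ≤ r + b`, induction on `r`. -/
theorem pol_hom (h : Fl N) (S : Subgroup G) {d : ℕ} {A : Type} [AddCommGroup A] (χ : G → A)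
    (hχ : ∀ x ∈ S, ∀ y ∈ S, χ (x * y) = χ x + χ y) (h0 : ∀ x ∈ S, x ∈ N d → χ x = 0) :
    Pol N S d χ := by
  have key (r b : ℕ) (f : List Bool → G) (hd : d ≤ r + b) (hf : Cube N r b f)
      (hS : ∀ s : List Bool, s.length = r → f s ∈ S) : alt r (fun s => χ (f s)) = 0 := by
    induction r generalizing b f with
    | zero => exact h0 _ (hS [] rfl) (h.le (by omega) hf)
    | succ r ih =>
      have h1 (x : Bool) (s : List Bool) (hs : s.length = r) : f (x :: s) ∈ S :=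
        hS _ (by simp [hs])
      have h2 (s : List Bool) (hs : s.length = r) : (f (false :: s))⁻¹ * f (true :: s) ∈ S :=
        mul_mem (inv_mem (h1 _ s hs)) (h1 _ s hs)
      rw [alt, alt_congr (f := fun s => χ (f (true :: s))) (g := fun s => χ (f (false :: s)) +
        χ ((f (false :: s))⁻¹ * f (true :: s))) fun s hs => by
          rw [← hχ _ (h1 _ s hs) _ (h2 s hs), mul_inv_cancel_left],
        alt_add, ih (b + 1) _ (by omega) hf.2 h2, add_zero, sub_self]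
  exact fun r hr f hf hS => key r 0 f hr hf hS

theorem dm_hom (h : Fl N) (S : Subgroup G) {d : ℕ} {A : Type} [AddCommGroup A] (χ : G → A)
    (hχ : ∀ x ∈ S, ∀ y ∈ S, χ (x * y) = χ x + χ y) (h0 : ∀ x ∈ S, x ∈ N d → χ x = 0) {g : G}
    (hg : Dm N S d g) : χ g = 0 := by
  exact (hg A χ (pol_hom h S χ hχ h0)).trans (h0 1 (one_mem _) (one_mem _))

/-- Retraction. -/
theorem dm_ret {S S' : Set G} {d : ℕ} {g : G} (ρ : G → G)
    (hρ : ∀ r f, Cube N r 0 f → (∀ s : List Bool, s.length = r → f s ∈ S) →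
      Cube N r 0 (fun s => ρ (f s)) ∧ ∀ s : List Bool, s.length = r → ρ (f s) ∈ S')
    (h1 : ρ 1 = 1) (hg : ρ g = g) (h : Dm N S d g) : Dm N S' d g := by
  intro A _ θ hθ
  have := h A (fun x => θ (ρ x)) fun r hr f hf hS =>
    hθ r hr _ (hρ r f hf hS).1 (hρ r f hf hS).2
  rwa [hg, h1] at this

theorem dm_map {G' : Type} [Group G'] {N' : ℕ → Subgroup G'} (φ : G →* G')
    (hN : ∀ k, ∀ x ∈ N k, φ x ∈ N' k) {d : ℕ} {g : G} (h : Dm N Set.univ d g) :
    Dm N' Set.univ d (φ g) := by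
  intro A _ θ hθ
  have := h A (fun x => θ (φ x)) fun r hr f hf _ =>
    hθ r hr _ (cube_map φ hN hf) fun _ _ => Set.mem_univ _
  rwa [map_one] at this

/-- Translation. PLAN: `x ↦ θ (a * x)` has degree `< d` too (`cube_const`, `cube_mul`). -/
theorem dm_of_sep (h : Fl N) {d : ℕ} {a b : G}
    (H : ∀ (A : Type) [AddCommGroup A] (θ : G → A), Pol N Set.univ d θ → θ a = θ b) :
    Dm N Set.univ d (a⁻¹ * b) := by
  intro A _ θ hθ
  have := H A (fun x => θ (a⁻¹ * x)) fun r hr f hf _ => hθ r hr _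
    (cube_mul h (cube_const h r (h.top ▸ Subgroup.mem_top _)) hf) fun _ _ => Set.mem_univ _
  rw [inv_mul_cancel] at this
  exact this.symm

/-- PLAN: the indicator of `N 1` is constant on cubes (`cube_mem'`), so `g ∈ N 1`; then `dm_ret`
with `ρ x = (t x)⁻¹ * x`, where `t x` is a representative of the coset `x N 1`, equal to `1` on
`N 1`. -/
theorem dm_one (h : Fl N) {d : ℕ} (hd : 1 ≤ d) {g : G} (hg : Dm N Set.univ d g) :
    g ∈ N 1 ∧ Dm N (N 1) d g := by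
  classical
  have key {r : ℕ} {f : List Bool → G} (hf : Cube N r 0 f) (s : List Bool) (hs : s.length = r) :
      (f s : G ⧸ N 1) = f (List.replicate r false) :=
    QuotientGroup.eq.2 (cube_mem' h hf s _ hs List.length_replicate)
  have h0 {x : G} : (x : G ⧸ N 1) = (1 : G) ↔ x ∈ N 1 := by
    rw [eq_comm, QuotientGroup.eq, inv_one, one_mul]
  have h1 : g ∈ N 1 := by
    have := hg ℤ (fun x => if (x : G ⧸ N 1) = (1 : G) then 1 else 0) fun r hr f hf _ =>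
      (alt_congr fun s hs => congrArg (fun q => if q = ((1 : G) : G ⧸ N 1) then (1 : ℤ) else 0)
        (key hf s hs)).trans (alt_const (hd.trans hr) _)
    by_contra e
    simp [h0, e] at this
  let t (q : G ⧸ N 1) : G := if q = (1 : G) then 1 else q.out
  have ht (q : G ⧸ N 1) : (t q : G ⧸ N 1) = q := by
    by_cases e : q = (1 : G)
    · simp only [t, if_pos e]
      exact e.symm
    · simp only [t, if_neg e, QuotientGroup.out_eq']
  refine ⟨h1, dm_ret (fun x => (t x)⁻¹ * x) (fun r f hf _ => ⟨cube_congr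
    (fun s hs => by rw [key hf s hs]) (cube_mul h (cube_const h r (x := (t (f (List.replicate r
      false)))⁻¹) (h.top ▸ Subgroup.mem_top _)) hf), fun s _ => QuotientGroup.eq.1 (ht _)⟩) ?_ ?_ hg⟩
  · simp [t]
  · simp [t, h0, h1]

/-- Commutative case. PLAN: `dm_hom` with values in `Additive S`. -/
theorem dm_comm (h : Fl N) (S : Subgroup G) (hS : ∀ x ∈ S, ∀ y ∈ S, x * y = y * x) {d : ℕ}
    (hb : N d = ⊥) {g : G} (hg : Dm N S d g) (hgS : g ∈ S) : g = 1 := by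
  classical
  let _ : CommGroup S := { (inferInstance : Group S) with
    mul_comm := fun x y => Subtype.ext (hS x x.2 y y.2) }
  have := dm_hom h S (A := Additive S) (fun x => if e : x ∈ S then Additive.ofMul ⟨x, e⟩ else 0)
    (fun x hx y hy => by rw [dif_pos hx, dif_pos hy, dif_pos (mul_mem hx hy)]; rfl)
    (fun x hx e => by
      obtain rfl : x = 1 := by simpa [hb] using e
      rw [dif_pos hx]
      rfl) hg
  rw [dif_pos hgS] at this
  exact congrArg Subtype.val (show (⟨g, hgS⟩ : S) = 1 from this)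

end Pool.Agent.GH
end

-- merged part: Pool.Agent.Work.MP_c00b06_gt.GT2
section
/-! The class two lemma. -/

namespace Pool.Agent.GH

theorem gt2_proj {A B D ι : Type} [AddCommGroup A] [AddCommGroup B] [AddCommGroup D] [Fintype ι]
    (c : A →+ A →+ D) (hc : ∀ a, c a a = 0) (f : A ≃+ B) (p : ι → B →+ B)
    (hp : ∀ a, ∑ i, p i a = a) (hz : ∀ i, ∃ x, ∀ a, ∃ n : ℤ, p i a = n • x) :
    ∃ β : A →+ A →+ D, ∀ a b, β a b - β b a = c a b := by
  let q : ι → A →+ A := fun i => f.symm.toAddMonoidHom.comp ((p i).comp f.toAddMonoidHom)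
  have hq a : ∑ i, q i a = a := f.injective (by simp [q, hp])
  have ha a b : c a b + c b a = 0 := by
    have := hc (a + b)
    simp only [map_add, AddMonoidHom.add_apply, hc, zero_add, add_zero] at this
    rwa [add_comm]
  let e := Fintype.equivFin ι
  refine ⟨∑ i, ∑ j, if e i < e j then (c.comp (q i)).compl₂ (q j) else 0, fun a b => ?_⟩
  conv_rhs => rw [← hq a, ← hq b]
  simp only [AddMonoidHom.finsetSum_apply, map_sum]
  rw [Finset.sum_comm, ← Finset.sum_sub_distrib]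
  refine Finset.sum_congr rfl fun j _ => ?_
  rw [← Finset.sum_sub_distrib]
  refine Finset.sum_congr rfl fun i _ => ?_
  rcases lt_trichotomy (e i) (e j) with h | h | h
  · simp [h, h.not_gt]
  · obtain rfl := e.injective h
    obtain ⟨x, hx⟩ := hz i
    obtain ⟨n, hn⟩ := hx (f a)
    obtain ⟨m, hm⟩ := hx (f b)
    simp [q, hn, hm, hc]
  · simp [h, h.not_gt, neg_eq_iff_add_eq_zero, ha]

theorem gt2_fg {A D : Type} [AddCommGroup A] [AddCommGroup D] [AddGroup.FG A]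
    (c : A →+ A →+ D) (hc : ∀ a, c a a = 0) :
    ∃ β : A →+ A →+ D, ∀ a b, β a b - β b a = c a b := by
  classical
  obtain ⟨n, ι, _, q, -, e, ⟨f⟩⟩ := AddCommGroup.equiv_free_prod_directSum_zmod A
  refine gt2_proj c hc f (Sum.elim
    (fun i : Fin n => ((Finsupp.singleAddHom i).comp (Finsupp.applyAddHom i)).prodMap 0)
    fun i : ι => (0 : _ →+ _).prodMap ((DirectSum.of _ i).comp (DFinsupp.evalAddMonoidHom i)))
    (fun a => Prod.ext ?_ ?_) (Sum.rec (fun i => ⟨(Finsupp.single i 1, 0), fun a => ⟨a.1 i, ?_⟩⟩)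
      fun i => ⟨(0, DirectSum.of _ i 1), fun a => ?_⟩)
  · simp [Prod.fst_sum]
  · simpa [Prod.snd_sum] using! DirectSum.sum_univ_of a.2
  · simp [Prod.map]
  · obtain ⟨m, hm⟩ := ZMod.intCast_surjective (a.2 i)
    refine ⟨m, Prod.ext (by simp) ?_⟩
    rw [Prod.smul_snd, ← map_zsmul, zsmul_one, hm]
    rfl

theorem gt2_germ {A D : Type} [AddCommGroup A] [AddCommGroup D] (c : A →+ A →+ D)
    (hc : ∀ a, c a a = 0) : ∃ (E : Type) (_ : AddCommGroup E) (ι : D →+ E) (β : A →+ A →+ E),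
      Function.Injective ι ∧ ∀ a b, β a b - β b a = ι (c a b) := by
  classical
  choose β hβ using fun s : Finset A => gt2_fg (A := AddSubgroup.closure (s : Set A))
    ((c.comp (AddSubgroup.subtype _)).compl₂ (AddSubgroup.subtype _)) fun a => hc a
  let r (s : Finset A) (a : A) : AddSubgroup.closure (s : Set A) :=
    if h : a ∈ AddSubgroup.closure (s : Set A) then ⟨a, h⟩ else 0
  have hr a : ∀ᶠ s : Finset A in Filter.atTop, (r s a : A) = a :=
    (Filter.eventually_finset_mem_atTop a).mono fun s h =>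
      congrArg Subtype.val (dif_pos (AddSubgroup.subset_closure (Finset.mem_coe.2 h)))
  have h2 a b : ∀ᶠ s : Finset A in Filter.atTop, r s (a + b) = r s a + r s b := by
    filter_upwards [hr a, hr b, hr (a + b)] with s h1 h2 h3
    exact Subtype.ext (by rw [AddSubgroup.coe_add, h1, h2, h3])
  refine ⟨Filter.Germ (Filter.atTop : Filter (Finset A)) D, inferInstance,
    .mk' (fun d => (d : Filter.Germ _ D)) fun _ _ => rfl,
    .mk' (fun a => .mk' (fun b => Filter.Germ.ofFun fun s => β s (r s a) (r s b)) fun b b' => ?_)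
      fun a a' => AddMonoidHom.ext fun b => ?_, fun _ _ h => Filter.Germ.const_inj.1 h,
    fun a b => ?_⟩
  · exact Filter.Germ.coe_eq.2 ((h2 b b').mono fun s h => by simp [h])
  · exact Filter.Germ.coe_eq.2 ((h2 a a').mono fun s h => by simp [h])
  · refine Filter.Germ.coe_eq.2 ?_
    filter_upwards [hr a, hr b] with s h1 h2
    simpa [h1, h2] using hβ s (r s a) (r s b)

/-- An alternating bilinear form with values in a divisible group is the skew part of a bilinear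
form. -/
theorem exists_beta {A D : Type} [AddCommGroup A] [AddCommGroup D] [DivisibleBy D ℤ]
    (c : A →+ A →+ D) (hc : ∀ a, c a a = 0) :
    ∃ β : A →+ A →+ D, ∀ a b, β a b - β b a = c a b := by
  obtain ⟨E, _, ι, β, h1, h2⟩ := gt2_germ c hc
  obtain ⟨r, hr⟩ := (Module.Baer.of_divisible D).extension_property_addMonoidHom ι h1 (.id D)
  exact ⟨β.compr₂ r, fun a b => (map_sub r _ _).symm.trans
    ((congrArg r (h2 a b)).trans (DFunLike.congr_fun hr _))⟩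

variable {G : Type} [Group G] {N : ℕ → Subgroup G}

/-- Bilinear maps on cubes. -/
theorem alt_bil (h : Fl N) (S : Subgroup G) {A : Type} [AddCommGroup A] (β : G → G → A)
    (h1 : ∀ x ∈ S, ∀ y ∈ S, ∀ z ∈ S, β (x * y) z = β x z + β y z)
    (h2 : ∀ x ∈ S, ∀ y ∈ S, ∀ z ∈ S, β x (y * z) = β x y + β x z) {c : ℕ}
    (h3 : ∀ x ∈ S, ∀ y ∈ S, x ∈ N c ∨ y ∈ N c → β x y = 0) {r b b' : ℕ} {f g : List Bool → G}
    (hf : Cube N r b f) (hg : Cube N r b' g) (hfS : ∀ s : List Bool, s.length = r → f s ∈ S)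
    (hgS : ∀ s : List Bool, s.length = r → g s ∈ S) (hr : 2 * c ≤ r + b + b' + 1) :
    alt r (fun s => β (f s) (g s)) = 0 := by
  induction r generalizing b b' f g with
  | zero =>
    refine h3 _ (hfS _ rfl) _ (hgS _ rfl) ?_
    by_cases e : c ≤ b
    exacts [.inl (h.le e hf), .inr (h.le (by omega) hg)]
  | succ r ih =>
    have f0 (s : List Bool) (e : s.length = r) := hfS (false :: s) (congrArg _ e)
    have g0 (s : List Bool) (e : s.length = r) := hgS (false :: s) (congrArg _ e)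
    have f1 (s : List Bool) (e : s.length = r) :=
      mul_mem (inv_mem (f0 s e)) (hfS (true :: s) (congrArg _ e))
    have g1 (s : List Bool) (e : s.length = r) :=
      mul_mem (inv_mem (g0 s e)) (hgS (true :: s) (congrArg _ e))
    rw [alt, alt_congr (f := fun s => β (f (true :: s)) (g (true :: s))) fun s e => by
      rw [← mul_inv_cancel_left (f (false :: s)) (f (true :: s)),
        ← mul_inv_cancel_left (g (false :: s)) (g (true :: s)),
        h1 _ (f0 s e) _ (f1 s e) _ (mul_mem (g0 s e) (g1 s e)), h2 _ (f0 s e) _ (g0 s e) _ (g1 s e),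
        h2 _ (f1 s e) _ (g0 s e) _ (g1 s e)], alt_add, alt_add, alt_add,
      ih hf.1 hg.2 f0 g1 (by omega), ih hf.2 hg.1 f1 g0 (by omega), ih hf.2 hg.2 f1 g1 (by omega),
      add_zero, add_zero, add_zero, sub_self]

/-- Quadratic maps. -/
theorem pol_quad (h : Fl N) (S : Subgroup G) {A : Type} [AddCommGroup A] (β : G → G → A)
    (h1 : ∀ x ∈ S, ∀ y ∈ S, ∀ z ∈ S, β (x * y) z = β x z + β y z)
    (h2 : ∀ x ∈ S, ∀ y ∈ S, ∀ z ∈ S, β x (y * z) = β x y + β x z) {c d : ℕ}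
    (h3 : ∀ x ∈ S, ∀ y ∈ S, x ∈ N c ∨ y ∈ N c → β x y = 0) (hc : 2 * c ≤ d + 1) (θ : G → A)
    (hθ : ∀ x ∈ S, ∀ y ∈ S, θ (x * y) = θ x + θ y + β x y) (h0 : ∀ x ∈ S, x ∈ N d → θ x = 0) :
    Pol N S d θ := by
  suffices H : ∀ r b f, Cube N r b f → (∀ s : List Bool, s.length = r → f s ∈ S) → d ≤ r + b →
      alt r (fun s => θ (f s)) = 0 from fun r hr f hf hS => H r 0 f hf hS hr
  intro r
  induction r with
  | zero => exact fun b f hf hS e => h0 _ (hS _ rfl) (h.le (by omega) hf)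
  | succ r ih =>
    intro b f hf hS e
    have f0 (s : List Bool) (e : s.length = r) := hS (false :: s) (congrArg _ e)
    have f1 (s : List Bool) (e : s.length = r) :=
      mul_mem (inv_mem (f0 s e)) (hS (true :: s) (congrArg _ e))
    rw [alt, alt_congr (f := fun s => θ (f (true :: s))) fun s e => by
      rw [← mul_inv_cancel_left (f (false :: s)) (f (true :: s)), hθ _ (f0 s e) _ (f1 s e)],
      alt_add, alt_add, ih _ _ hf.2 f1 (by omega),
      alt_bil h S β h1 h2 h3 hf.1 hf.2 f0 f1 (by omega), add_zero, add_zero, sub_self]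

theorem gt2_grp {H E : Type} [Group H] [AddCommGroup E] (β : H → H → E)
    (h1 : ∀ x y z, β (x * y) z = β x z + β y z) (h2 : ∀ x y z, β x (y * z) = β x y + β x z) :
    ∃ _ : Group (H × E), ∀ a b : H × E, a * b = (a.1 * b.1, a.2 + b.2 + β a.1 b.1) := by
  have h3 x : β 1 x = 0 := by simpa using h1 1 1 x
  let _ : Mul (H × E) := ⟨fun a b => (a.1 * b.1, a.2 + b.2 + β a.1 b.1)⟩
  let _ : One (H × E) := ⟨(1, 0)⟩
  let _ : Inv (H × E) := ⟨fun a => (a.1⁻¹, -(a.2 + β a.1⁻¹ a.1))⟩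
  refine ⟨Group.ofLeftAxioms (fun a b c => Prod.ext (mul_assoc _ _ _) ?_)
    (fun a => Prod.ext (one_mul _) ?_) fun a => Prod.ext (inv_mul_cancel _) ?_, fun _ _ => rfl⟩
  · show a.2 + b.2 + β _ _ + c.2 + β (a.1 * b.1) _ = a.2 + (b.2 + c.2 + β _ _) + β _ (b.1 * c.1)
    rw [h1, h2]
    abel
  · show 0 + a.2 + β 1 _ = _
    rw [h3, zero_add, add_zero]
  · show -(a.2 + β _ _) + a.2 + β a.1⁻¹ a.1 = 0
    abel

/-- A quadratic map on a group of class two with trivial zero set. -/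
theorem gt2_two {H : Type} [Group H] (M : Subgroup H) (hM : M ≤ Subgroup.center H)
    (hc : ∀ x y, x * y * x⁻¹ * y⁻¹ ∈ M) :
    ∃ (A : Type) (_ : AddCommGroup A) (θ : H → A) (β : H → H → A),
      (∀ x y z, β (x * y) z = β x z + β y z) ∧ (∀ x y z, β x (y * z) = β x y + β x z) ∧
      (∀ x y, x ∈ M ∨ y ∈ M → β x y = 0) ∧ (∀ x y, θ (x * y) = θ x + θ y + β x y) ∧
      ∀ g, θ g = 0 ↔ g = 1 := by
  have hz x y := Subgroup.mem_center_iff.1 (hM (hc x y))
  have : M.Normal := ⟨fun m hm x => by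
    rwa [Subgroup.mem_center_iff.1 (hM hm), mul_inv_cancel_right]⟩
  let _ : CommGroup (H ⧸ M) := { QuotientGroup.Quotient.group M with
    mul_comm := fun a b => QuotientGroup.induction_on a fun x => QuotientGroup.induction_on b
      fun y => QuotientGroup.eq.2 (by simpa [mul_assoc] using hc y⁻¹ x⁻¹) }
  let _ : CommGroup M := { M.toGroup with
    mul_comm := fun a b => Subtype.ext (Subgroup.mem_center_iff.1 (hM b.2) a) }
  let k : H →* H →* M := .mk' (fun x => .mk' (fun y => ⟨x * y * x⁻¹ * y⁻¹, hc x y⟩) fun y z =>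
    Subtype.ext (by
      show x * (y * z) * x⁻¹ * (y * z)⁻¹ = x * y * x⁻¹ * y⁻¹ * (x * z * x⁻¹ * z⁻¹)
      rw [← mul_inv_cancel_right (x * z * x⁻¹ * z⁻¹) y, ← hz x z y]
      group)) fun x y => MonoidHom.ext fun z => Subtype.ext (by
      show x * y * z * (x * y)⁻¹ * z⁻¹ = x * z * x⁻¹ * z⁻¹ * (y * z * y⁻¹ * z⁻¹)
      rw [mul_assoc (x * z), mul_assoc x z (_ * _), mul_assoc x (z * _) (y * _ * _ * _), hz y z]
      group)
  have k1 : ∀ m ∈ M, k m = 1 := fun m hm => MonoidHom.ext fun y => Subtype.ext (by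
    show m * y * m⁻¹ * y⁻¹ = 1
    rw [← Subgroup.mem_center_iff.1 (hM hm), mul_inv_cancel_right, mul_inv_cancel])
  have k2 : ∀ m ∈ M, (QuotientGroup.lift M k k1).flip m = 1 := fun m hm => MonoidHom.ext fun a =>
    QuotientGroup.induction_on a fun x => Subtype.ext (by
      show x * m * x⁻¹ * m⁻¹ = 1
      rw [Subgroup.mem_center_iff.1 (hM hm), mul_inv_cancel_right, mul_inv_cancel])
  obtain ⟨E, _, ι, β, hι, hβ⟩ := gt2_germ (A := Additive (H ⧸ M)) (D := Additive M)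
    (.mk' (fun a => MonoidHom.toAdditive (QuotientGroup.lift M _ k2 a.toMul)) fun a b => by
      ext
      simp) fun a => QuotientGroup.induction_on (C := fun a => QuotientGroup.lift M _ k2 a a = 1)
        a.toMul fun x => Subtype.ext (show x * x * x⁻¹ * x⁻¹ = 1 by group)
  let γ : H → H → E := fun x y => β (.ofMul (y : H ⧸ M)) (.ofMul (x : H ⧸ M))
  have g1 x y z : γ (x * y) z = γ x z + γ y z := by simp [γ]
  have g2 x y z : γ x (y * z) = γ x y + γ x z := by simp [γ]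
  have g3 x y (h : x ∈ M ∨ y ∈ M) : γ x y = 0 := by
    rcases h with h | h <;> simp [γ, (QuotientGroup.eq_one_iff _).2 h]
  have g4 x y : γ x y - γ y x = ι (.ofMul (k x y)) := hβ _ _
  obtain ⟨_, hm⟩ := gt2_grp γ g1 g2
  have h1 : ((1, 0) : H × E) = 1 := (mul_eq_left (a := 1)).1 (by simp [hm, g3])
  let κ : M →* H × E := .mk' (fun m => (m, ι (.ofMul m))) fun a b => by simp [hm, g3]
  have hK : commutator (H × E) ≤ κ.range := Subgroup.commutator_le.2 fun a _ b _ =>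
    ⟨k a.1 b.1, by
      rw [commutatorElement_def, eq_mul_inv_iff_mul_eq, eq_mul_inv_iff_mul_eq, hm, hm, hm]
      refine Prod.ext (show a.1 * b.1 * a.1⁻¹ * b.1⁻¹ * b.1 * a.1 = a.1 * b.1 by group) ?_
      show ι (.ofMul (k _ _)) + _ + γ (k _ _) _ + _ + γ (k _ _ * _) _ = _ + _ + _
      rw [g1, g3 _ _ (.inl (k _ _).2), g3 _ _ (.inl (k _ _).2), ← g4]
      abel⟩
  have j s t : Abelianization.of ((1, s + t) : H × E) =
      Abelianization.of (1, s) * Abelianization.of (1, t) := by simp [← map_mul, hm, g3]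
  refine ⟨Additive (Abelianization (H × E)), inferInstance,
    fun x => .ofMul (Abelianization.of (x, 0)), fun x y => -.ofMul (Abelianization.of (1, γ x y)),
    fun x y z => by simp only [g1, j, ofMul_mul, neg_add],
    fun x y z => by simp only [g2, j, ofMul_mul, neg_add], fun x y h => by simp [g3 x y h, h1],
    fun x y => ?_, fun g => ⟨fun h => ?_, fun h => by simp [h, h1]⟩⟩
  · simp [eq_add_neg_iff_add_eq, ← ofMul_mul, ← map_mul, hm, g3]
  · obtain ⟨m, e⟩ := hK ((QuotientGroup.eq_one_iff _).1 h)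
    exact (congrArg Prod.fst e).symm.trans (congrArg Subtype.val
      (show m = 1 from hι ((congrArg Prod.snd e).trans (map_zero ι).symm)))

theorem dm_two (h : Fl N)
    (sl : ∀ i j, 1 ≤ i → 1 ≤ j → ∀ x ∈ N i, ∀ y ∈ N j, x * y * x⁻¹ * y⁻¹ ∈ N (i + j + 1)) {d : ℕ}
    (hd : d ≤ 7) (hb : N d = ⊥) {g : G} (hg : Dm N (N 2) d g) (hg2 : g ∈ N 2) : g = 1 := by
  by_cases h5 : d ≤ 5
  · refine dm_comm h (N 2) (fun x hx y hy => ?_) hb hg hg2
    have := h.le h5 (sl 2 2 one_le_two one_le_two x hx y hy)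
    rwa [hb, Subgroup.mem_bot, mul_inv_eq_one, mul_inv_eq_iff_eq_mul] at this
  obtain ⟨A, _, θ, β, h1, h2, h3, h4, h6⟩ := gt2_two ((N (d - 3)).subgroupOf (N 2))
    (fun m hm => Subgroup.mem_center_iff.2 fun x => Subtype.ext (by
      have := sl 2 (d - 3) one_le_two (by omega) x x.2 m hm
      rwa [show 2 + (d - 3) + 1 = d by omega, hb, Subgroup.mem_bot, mul_inv_eq_one,
        mul_inv_eq_iff_eq_mul] at this))
    fun x y => h.le (show d - 3 ≤ 5 by omega) (sl 2 2 one_le_two one_le_two x x.2 y y.2)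
  classical
  obtain ⟨ρ, hρ⟩ : ∃ ρ : G → N 2, ∀ x ∈ N 2, (ρ x : G) = x :=
    ⟨fun x => if e : x ∈ N 2 then ⟨x, e⟩ else 1, fun x e => congrArg Subtype.val (dif_pos e)⟩
  have hm : ∀ x ∈ N 2, ∀ y ∈ N 2, ρ (x * y) = ρ x * ρ y := fun x hx y hy =>
    Subtype.ext (by rw [Subgroup.coe_mul, hρ x hx, hρ y hy, hρ _ (mul_mem hx hy)])
  have h7 : θ (ρ 1) = 0 := (h6 _).2 (Subtype.ext (hρ 1 (one_mem _)))
  have h8 := hg A (fun x => θ (ρ x)) (pol_quad h (N 2) (fun x y => β (ρ x) (ρ y))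
    (fun x hx y hy z _ => by rw [hm x hx y hy, h1]) (fun x _ y hy z hz => by rw [hm y hy z hz, h2])
    (fun x hx y hy e => h3 _ _ (e.imp (fun e => show (ρ x : G) ∈ N _ by rwa [hρ x hx])
      fun e => show (ρ y : G) ∈ N _ by rwa [hρ y hy])) (show 2 * (d - 3) ≤ d + 1 by omega) _
    (fun x hx y hy => by rw [hm x hx y hy, h4]) fun x _ e => by
      rwa [show x = 1 from Subgroup.mem_bot.1 (hb ▸ e)])
  rw [← hρ g hg2, (h6 _).1 (h8.trans h7)]
  rfl

end Pool.Agent.GH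
end

-- merged part: Pool.Agent.Work.MP_c00b06_gt.GT3
section
/-! Retractions: Brunnian part, cyclic part; the group theoretic main step. -/

namespace Pool.Agent.GH

variable {G : Type} [Group G] {N : ℕ → Subgroup G}

/-- The subgroup generated by `y` and `N 2`. -/
def Cy (N : ℕ → Subgroup G) (y : G) : Subgroup G := Subgroup.closure ({y} ∪ (N 2 : Set G))

theorem gt3_y (y : G) : y ∈ Cy N y := Subgroup.subset_closure (Or.inl rfl)

theorem gt3_le (y : G) : N 2 ≤ Cy N y := fun _ hx => Subgroup.subset_closure (Or.inr hx)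

theorem mem_Cy (h : Fl N) (y x : G) : x ∈ Cy N y ↔ ∃ k : ℤ, (y ^ k)⁻¹ * x ∈ N 2 := by
  have := h.normal 2
  constructor
  · intro hx
    have k : Cy N y ≤ (Subgroup.zpowers (y : G ⧸ N 2)).comap (QuotientGroup.mk' (N 2)) := by
      refine (Subgroup.closure_le _).2 ?_
      rintro z (rfl | hz)
      · exact Subgroup.mem_zpowers _
      · exact ⟨0, (zpow_zero _).trans ((QuotientGroup.eq_one_iff z).2 hz).symm⟩
    obtain ⟨k, hk⟩ := k hx
    exact ⟨k, QuotientGroup.eq.1 hk⟩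
  · rintro ⟨k, hk⟩
    simpa using mul_mem (zpow_mem (gt3_y y) k) (gt3_le y hk)

/-- PLAN.  `lam g = 0` by `dm_hom` (`N d ≤ N 3`).  `x ↦ y ^ lam x` is multiplicative and filtered
on `Cy N y` (`cube_map_on`); `ρ x = (y ^ lam x)⁻¹ * x` maps `Cy N y` into `N 2`
(write `x = y ^ k * z`, `lam x = k + lam z`); use `dm_ret`. -/
theorem dm_cyc (h : Fl N) {d : ℕ} (hd : 3 ≤ d) {y : G} (hy : y ∈ N 1) (lam : G → ℤ)
    (hl : ∀ a ∈ Cy N y, ∀ b ∈ Cy N y, lam (a * b) = lam a + lam b) (hy1 : lam y = 1)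
    (h3 : ∀ x ∈ N 3, lam x = 0) (h2 : ∀ x ∈ N 2, y ^ lam x ∈ N 2) {g : G}
    (hg : Dm N (Cy N y) d g) (hgS : g ∈ Cy N y) : g ∈ N 2 ∧ Dm N (N 2) d g := by
  have l1 : lam 1 = 0 := by simpa using hl 1 (one_mem _) 1 (one_mem _)
  have lk : ∀ k : ℤ, lam (y ^ k) = k := fun k => by
    have e : ∀ k : ℤ, lam (y ^ (k + 1)) = lam (y ^ k) + 1 := fun k => by
      rw [zpow_add_one, hl _ (zpow_mem (gt3_y y) k) _ (gt3_y y), hy1]
    induction k using Int.induction_on with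
    | zero => simpa using l1
    | succ k ih => rw [e, ih]
    | pred k ih =>
      have := e (-k - 1)
      rw [sub_add_cancel, ih] at this
      omega
  have r2 : ∀ x ∈ Cy N y, (y ^ lam x)⁻¹ * x ∈ N 2 := fun x hx => by
    obtain ⟨k, hk⟩ := (mem_Cy h y x).1 hx
    have e := hl _ (zpow_mem (gt3_y y) k) _ (gt3_le y hk)
    rw [mul_inv_cancel_left, lk] at e
    rw [e, zpow_add, mul_inv_rev, mul_assoc]
    exact mul_mem (inv_mem (h2 _ hk)) hk
  have g0 : (y ^ lam g)⁻¹ * g = g := by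
    rw [dm_hom h (Cy N y) lam hl (fun x _ hx => h3 x (h.le hd hx)) hg, zpow_zero, inv_one, one_mul]
  refine ⟨g0 ▸ r2 g hgS, dm_ret (fun x => (y ^ lam x)⁻¹ * x) (fun r f hf hS =>
    ⟨cube_mul h (cube_inv h (cube_map_on (Cy N y) (fun x => y ^ lam x)
      (fun a ha b hb => by rw [hl a ha b hb, zpow_add]) (fun k x _ hx => ?_) hf hS)) hf,
      fun s hs => r2 _ (hS s hs)⟩) (by simp [l1]) g0 hg⟩
  match k, hx with
  | 0, _ => exact h.top ▸ Subgroup.mem_top _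
  | 1, _ => exact zpow_mem hy _
  | 2, hx => exact h2 x hx
  | k + 3, hx => rw [h3 x (h.le (by omega) hx), zpow_zero]; exact one_mem _

/-- Brunnian projection. -/
def bru (δ : ℕ → G →* G) : ℕ → G → G
  | 0, x => x
  | n + 1, x => bru δ n x * (δ n (bru δ n x))⁻¹

/-- PLAN.  `bru δ n` sends cubes to cubes (`cube_map`, `cube_mul`, `cube_inv`), fixes `1` and `g`,
keeps `N 1`.  Modulo `N 2` it is multiplicative on `N 1` (commutators of `N 1` are in `N 2`, `N 2`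
is normal and kept), sends `y` to `y` and every `x` fixed by some `δ i` into `N 2` (the `δ`
commute: `δ i (bru δ i x) = bru δ i (δ i x)`).  So it maps `N 1` into `Cy N y` (closure
induction), and `g = bru δ n g`.  Use `dm_ret`.  It may be easiest to work in the quotient by
`N 2`. -/
theorem dm_br (h : Fl N) (n : ℕ) (δ : ℕ → G →* G)
    (hc : ∀ i < n, ∀ j < n, ∀ x, δ i (δ j x) = δ j (δ i x))
    (hf : ∀ i < n, ∀ k, ∀ x ∈ N k, δ i x ∈ N k) {y : G} (hy : y ∈ N 1) (hyd : ∀ i < n, δ i y ∈ N 2)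
    (gen : ∀ x ∈ N 1, x ∈ Subgroup.closure
      ({y} ∪ {x | x ∈ N 1 ∧ ∃ i < n, δ i x = x} ∪ (N 2 : Set G)))
    {d : ℕ} {g : G} (hg : Dm N (N 1) d g) (hg1 : g ∈ N 1) (hb : ∀ i < n, δ i g = 1) :
    g ∈ Cy N y ∧ Dm N (Cy N y) d g := by
  have := h.normal 2
  have b0 : ∀ x, (∀ i < n, δ i x = 1) → ∀ m ≤ n, bru δ m x = x := fun x hx m hm => by
    induction m with
    | zero => rfl
    | succ m ih => rw [bru, ih (by omega), hx m hm, inv_one, mul_one]
  have b1 : bru δ n 1 = 1 := b0 1 (fun i _ => map_one _) n le_rfl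
  have b2 : ∀ k, ∀ x ∈ N k, ∀ m ≤ n, bru δ m x ∈ N k := fun k x hx m hm => by
    induction m with
    | zero => exact hx
    | succ m ih => exact mul_mem (ih (by omega)) (inv_mem (hf m hm k _ (ih (by omega))))
  have b3 : ∀ i < n, ∀ x, ∀ m ≤ n, δ i (bru δ m x) = bru δ m (δ i x) := fun i hi x m hm => by
    induction m with
    | zero => rfl
    | succ m ih => rw [bru, bru, map_mul, map_inv, hc i hi m hm, ih (by omega)]
  have b4 : ∀ i < n, ∀ x, δ i x = x → ∀ m ≤ n, i < m → bru δ m x = 1 := fun i hi x hx m hm k => by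
    induction m with
    | zero => omega
    | succ m ih =>
      rcases (Nat.lt_succ_iff.1 k).eq_or_lt with rfl | k
      · rw [bru, b3 i hi x i hi.le, hx, mul_inv_cancel]
      · rw [bru, ih (by omega) k, map_one, inv_one, mul_one]
  have q1 : ∀ i < n, ∀ a b : G, (a : G ⧸ N 2) = b → (δ i a : G ⧸ N 2) = δ i b :=
    fun i hi a b e => QuotientGroup.eq.2 (by
      rw [← map_inv, ← map_mul]
      exact hf i hi 2 _ (QuotientGroup.eq.1 e))
  have q2 : ∀ a ∈ N 1, ∀ b ∈ N 1, (a : G ⧸ N 2) * b = b * a := fun a ha b hb => by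
    have := (QuotientGroup.eq_one_iff _).2 (h.comm 1 1 a ha b hb)
    simp only [QuotientGroup.mk_mul, QuotientGroup.mk_inv] at this
    rwa [mul_inv_eq_one, mul_inv_eq_iff_eq_mul] at this
  have q3 : ∀ a ∈ N 1, ∀ b ∈ N 1, ∀ m ≤ n,
      ((bru δ m a * bru δ m b : G) : G ⧸ N 2) = bru δ m (a * b) := fun a ha b hb m hm => by
    induction m with
    | zero => rfl
    | succ m ih =>
      have e := ih (by omega)
      have a1 := inv_mem (hf m hm 1 _ (b2 1 a ha m (by omega)))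
      have e2 := q2 _ a1 _ (b2 1 b hb (m + 1) hm)
      simp only [bru, QuotientGroup.mk_mul, QuotientGroup.mk_inv] at e2 ⊢
      rw [← q1 m hm _ _ e, ← e, map_mul]
      simp only [QuotientGroup.mk_mul, mul_inv_rev]
      rw [mul_assoc, e2]
      simp only [mul_assoc]
  have q4 : ∀ m ≤ n, (y : G ⧸ N 2) = bru δ m y := fun m hm => by
    induction m with
    | zero => rfl
    | succ m ih =>
      have e := ih (by omega)
      simp only [bru, QuotientGroup.mk_mul, QuotientGroup.mk_inv]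
      rw [← q1 m hm _ _ e, ← e, (QuotientGroup.eq_one_iff _).2 (hyd m hm), inv_one, mul_one]
  have q5 : ∀ a b : G, (a : G ⧸ N 2) = b → a ∈ Cy N y → b ∈ Cy N y := fun a b e ha => by
    simpa using mul_mem ha (gt3_le y (QuotientGroup.eq.1 e))
  have key : ∀ x ∈ N 1, bru δ n x ∈ Cy N y := fun x hx => by
    refine (Subgroup.closure_induction (p := fun x _ => x ∈ N 1 ∧ bru δ n x ∈ Cy N y) ?_
      ⟨one_mem _, b1.symm ▸ one_mem _⟩ (fun a b _ _ ha hb => ⟨mul_mem ha.1 hb.1,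
        q5 _ _ (q3 a ha.1 b hb.1 n le_rfl) (mul_mem ha.2 hb.2)⟩) (fun a _ ha => ⟨inv_mem ha.1, ?_⟩)
      (gen x hx)).2
    · rintro z ((rfl | ⟨hz, i, hi, e⟩) | hz)
      · exact ⟨hy, q5 _ _ (q4 n le_rfl) (gt3_y _)⟩
      · exact ⟨hz, b4 i hi z e n le_rfl hi ▸ one_mem _⟩
      · exact ⟨h.anti 1 hz, gt3_le y (b2 2 z hz n le_rfl)⟩
    · have e := q3 a ha.1 _ (inv_mem ha.1) n le_rfl
      rw [mul_inv_cancel, b1] at e
      exact (Subgroup.mul_mem_cancel_left _ ha.2).1 (q5 _ _ e.symm (one_mem _))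
  have g0 := b0 g hb n le_rfl
  refine ⟨g0 ▸ key g hg1, dm_ret (bru δ n) (fun r f hr hS => ⟨?_, fun s hs => key _ (hS s hs)⟩)
    b1 g0 hg⟩
  suffices ∀ m ≤ n, Cube N r 0 fun s => bru δ m (f s) from this n le_rfl
  intro m hm
  induction m with
  | zero => exact hr
  | succ m ih =>
    exact cube_mul h (ih (by omega)) (cube_inv h (cube_map (δ m) (hf m hm) (ih (by omega))))

/-- PLAN: `dm_one`, `dm_br`, then `Cy N y = N 2` or `dm_cyc`, then `dm_two`. -/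
theorem gt_step (h : Fl N)
    (sl : ∀ i j, 1 ≤ i → 1 ≤ j → ∀ x ∈ N i, ∀ y ∈ N j, x * y * x⁻¹ * y⁻¹ ∈ N (i + j + 1)) {d : ℕ}
    (hd3 : 3 ≤ d) (hd : d ≤ 7) (hb : N d = ⊥) (n : ℕ) (δ : ℕ → G →* G)
    (hc : ∀ i < n, ∀ j < n, ∀ x, δ i (δ j x) = δ j (δ i x))
    (hf : ∀ i < n, ∀ k, ∀ x ∈ N k, δ i x ∈ N k) {y : G} (hy : y ∈ N 1) (hyd : ∀ i < n, δ i y ∈ N 2)
    (gen : ∀ x ∈ N 1, x ∈ Subgroup.closure
      ({y} ∪ {x | x ∈ N 1 ∧ ∃ i < n, δ i x = x} ∪ (N 2 : Set G)))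
    (hlam : y ∈ N 2 ∨ ∃ lam : G → ℤ,
      (∀ a ∈ Cy N y, ∀ b ∈ Cy N y, lam (a * b) = lam a + lam b) ∧ lam y = 1 ∧
      (∀ x ∈ N 3, lam x = 0) ∧ ∀ x ∈ N 2, y ^ lam x ∈ N 2)
    {g : G} (hg : Dm N Set.univ d g) (hbr : ∀ i < n, δ i g = 1) : g = 1 := by
  obtain ⟨g1, g2⟩ := dm_one h (by omega) hg
  obtain ⟨g3, g4⟩ := dm_br h n δ hc hf hy hyd gen g2 g1 hbr
  rcases hlam with k | ⟨lam, l1, l2, l3, l4⟩
  · have e : Cy N y = N 2 := le_antisymm ((Subgroup.closure_le _).2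
      (Set.union_subset (Set.singleton_subset_iff.2 k) subset_rfl)) (gt3_le y)
    rw [e] at g3 g4
    exact dm_two h sl hd hb g4 g3
  · obtain ⟨g5, g6⟩ := dm_cyc h hd3 hy lam l1 l2 l3 l4 g4 g3
    exact dm_two h sl hd hb g6 g5

/-- PLAN: `dm_one`, `dm_comm`. -/
theorem gt_comm (h : Fl N) (hc : ∀ x ∈ N 1, ∀ y ∈ N 1, x * y = y * x) {d : ℕ} (hd : 1 ≤ d)
    (hb : N d = ⊥) {g : G} (hg : Dm N Set.univ d g) : g = 1 := by
  exact dm_comm h (N 1) hc hb (dm_one h hd hg).2 (dm_one h hd hg).1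

end Pool.Agent.GH
end

-- merged part: Pool.Agent.Work.MP_c00b06_gt.GT4
section
/-! The class two lemma for a cyclic top. -/

namespace Pool.Agent.GH

/-- PLAN: the product of copies of `AddCircle (1 : ℚ)` indexed by the characters of `D`
(`CharacterModule`, `CharacterModule.exists_character_apply_ne_zero_of_ne_zero`). -/
theorem gt4_div (D : Type) [AddCommGroup D] : ∃ (E : Type) (_ : AddCommGroup E)
    (_ : DivisibleBy E ℤ) (ι : D →+ E), Function.Injective ι := by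
  refine ⟨CharacterModule D → AddCircle (1 : ℚ), inferInstance, inferInstance,
    .mk' (fun d χ => χ d) fun a b => funext fun χ => map_add χ a b,
    (injective_iff_map_eq_zero _).2 fun d h => by_contra fun hd => ?_⟩
  obtain ⟨χ, hχ⟩ := CharacterModule.exists_character_apply_ne_zero_of_ne_zero hd
  exact hχ (congrFun h χ)

section
variable {A D : Type} [AddCommGroup A] [AddCommGroup D]

theorem gt4_skew (c : A →+ A →+ D) (hc : ∀ a, c a a = 0) (a b : A) : c a b + c b a = 0 := by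
  have := hc (a + b)
  simp only [map_add, AddMonoidHom.add_apply, hc, zero_add, add_zero] at this
  rwa [add_comm]

/-- PLAN: write `u = a z + u'`, `v = b z + v'`, let `g = s a + t b` be the gcd and
`w = s u + t v`; then `n w ∈ B`, `u - (a / g) w ∈ C`, `v - (b / g) w ∈ C`, so
`c (n u) v = (b / g) c (n u) w = (b / g) c u (n w) = 0`. -/
theorem gt4_P (c : A →+ A →+ D) (hc : ∀ a, c a a = 0) (B C : AddSubgroup A)
    (hCB : ∀ x ∈ C, ∀ y ∈ B, c x y = 0) (z : A) (hz : ∀ a, ∃ k : ℤ, a - k • z ∈ C) (n : ℤ)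
    (u v : A) (hu : n • u ∈ B) (hv : n • v ∈ B) : c (n • u) v = 0 := by
  obtain ⟨a, ha⟩ := hz u
  obtain ⟨b, hb⟩ := hz v
  obtain ⟨a', e1⟩ := Int.gcd_dvd_left a b
  obtain ⟨b', e2⟩ := Int.gcd_dvd_right a b
  have e3 := Int.gcd_eq_gcd_ab a b
  generalize (Int.gcd a b : ℤ) = g, Int.gcdA a b = s, Int.gcdB a b = t at e1 e2 e3
  obtain ⟨w, hw⟩ : ∃ w, w = s • u + t • v := ⟨_, rfl⟩
  have h1 : w - g • z ∈ C := by
    have := add_mem (zsmul_mem ha s) (zsmul_mem hb t)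
    rwa [show s • (u - a • z) + t • (v - b • z) = w - g • z by rw [hw, e3]; module] at this
  have h2 : u - a' • w ∈ C := by
    have := sub_mem ha (zsmul_mem h1 a')
    rwa [show u - a • z - a' • (w - g • z) = u - a' • w by rw [e1]; module] at this
  have h3 : v - b' • w ∈ C := by
    have := sub_mem hb (zsmul_mem h1 b')
    rwa [show v - b • z - b' • (w - g • z) = v - b' • w by rw [e2]; module] at this
  have h4 : n • w ∈ B := by
    have := add_mem (zsmul_mem hu s) (zsmul_mem hv t)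
    rwa [show s • n • u + t • n • v = n • w by rw [hw]; module] at this
  have h5 := hCB _ h2 _ h4
  have h6 := gt4_skew c hc (n • u) (v - b' • w)
  rw [hCB _ h3 _ hu, add_zero, map_sub, map_zsmul (c (n • u)), sub_eq_zero] at h6
  simp only [map_sub, map_zsmul, AddMonoidHom.sub_apply, AddMonoidHom.smul_apply, hc, smul_zero,
    sub_zero] at h5
  rw [h6, map_zsmul, AddMonoidHom.smul_apply, h5, smul_zero]

theorem gt4_lift [DivisibleBy D ℤ] {Y : Type} [AddCommGroup Y] (φ : A →+ Y) (ψ : A →+ D)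
    (h : ∀ a, φ a = 0 → ψ a = 0) : ∃ F : Y →+ D, ∀ a, F (φ a) = ψ a := by
  obtain ⟨F, hF⟩ := (Module.Baer.of_divisible D).extension_property_addMonoidHom
    (QuotientAddGroup.kerLift φ) (QuotientAddGroup.kerLift_injective φ)
    (QuotientAddGroup.lift φ.ker ψ h)
  exact ⟨F, fun a => DFunLike.congr_fun hF (QuotientAddGroup.mk a)⟩

theorem gt4_dec (A : Type) [AddCommGroup A] [AddGroup.FG A] : ∃ (ι : Type) (_ : Fintype ι)
    (x : ι → A) (p : ι → A →+ A), (∀ a, ∑ i, p i a = a) ∧ ∀ i a, ∃ n : ℤ, p i a = n • x i := by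
  classical
  obtain ⟨n, ι, _, q, -, e, ⟨f⟩⟩ := AddCommGroup.equiv_free_prod_directSum_zmod A
  suffices ∃ (κ : Type) (_ : Fintype κ) (x : κ → _) (p : κ → _ →+ _), (∀ a, ∑ i, p i a = a) ∧
      ∀ i a, ∃ n : ℤ, p i a = n • x i by
    obtain ⟨κ, _, x, p, h1, h2⟩ := this
    refine ⟨κ, inferInstance, fun i => f.symm (x i),
      fun i => f.symm.toAddMonoidHom.comp ((p i).comp f.toAddMonoidHom),
      fun a => f.injective (by simp [h1]), fun i a => (h2 i (f a)).imp fun m hm => by simp [hm]⟩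
  refine ⟨Fin n ⊕ ι, inferInstance,
    Sum.elim (fun i => (Finsupp.single i 1, 0)) fun i => (0, DirectSum.of _ i 1), Sum.elim
    (fun i : Fin n => ((Finsupp.singleAddHom i).comp (Finsupp.applyAddHom i)).prodMap 0)
    fun i : ι => (0 : _ →+ _).prodMap ((DirectSum.of _ i).comp (DFinsupp.evalAddMonoidHom i)),
    fun a => Prod.ext ?_ ?_, Sum.rec (fun i a => ⟨a.1 i, ?_⟩) fun i a => ?_⟩
  · simp [Prod.fst_sum]
  · simpa [Prod.snd_sum] using! DirectSum.sum_univ_of a.2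
  · simp [Prod.map]
  · obtain ⟨m, hm⟩ := ZMod.intCast_surjective (a.2 i)
    refine ⟨m, Prod.ext (by simp) ?_⟩
    rw [Sum.elim_inr, Sum.elim_inr, Prod.smul_snd, ← map_zsmul, zsmul_one, hm]
    rfl

theorem gt4_one [DivisibleBy D ℤ] (c : A →+ A →+ D) (B : AddSubgroup A)
    (hP : ∀ (n : ℤ) (u v : A), n • u ∈ B → n • v ∈ B → c (n • u) v = 0) (e : A) :
    ∃ F : A →+ D, (∀ b ∈ B, F b = c b e) ∧ ∀ m : ℤ, m • (e : A ⧸ B) = 0 → m • F = 0 := by
  obtain ⟨n, hn⟩ : ∃ n : ℤ, ∀ m : ℤ, n ∣ m ↔ m • (e : A ⧸ B) = 0 :=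
    ⟨_, fun _ => addOrderOf_dvd_iff_zsmul_eq_zero⟩
  have h1 : n • e ∈ B := (QuotientAddGroup.eq_zero_iff _).1 ((hn n).1 dvd_rfl)
  obtain ⟨F, hF⟩ := gt4_lift (B.subtype.coprod (n • AddMonoidHom.id A))
    ((c.flip e).comp (B.subtype.comp (AddMonoidHom.fst B A))) fun x hx => by
      have h2 : (x.1 : A) = n • (-x.2) := by
        rw [smul_neg]
        exact eq_neg_of_add_eq_zero_left hx
      show c x.1 e = 0
      rw [h2]
      exact hP n _ e (h2 ▸ x.1.2) h1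
  refine ⟨F, fun b hb => by simpa using hF (⟨b, hb⟩, 0), fun m hm => ?_⟩
  obtain ⟨k, rfl⟩ := (hn m).2 hm
  have h2 : n • F = 0 := AddMonoidHom.ext fun a => by simpa using hF (0, a)
  rw [mul_comm, mul_smul, h2, smul_zero]

/-- PLAN: decompose `A ⧸ B` into cyclic groups (`AddCommGroup.equiv_free_prod_directSum_zmod`),
with generators of order `n j` (`0` for the free part) lifted to `e j : A`.  The map
`b + n j • a ↦ c b (e j)` is well defined on `B ⊔ n j • A`; extend it to `F j : A →+ D`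
(`Module.Baer.of_divisible`), so `n j • F j = 0`.  Put `γ x y = ∑ j, (coordinate j of y) • F j x`. -/
theorem gt4_ext [DivisibleBy D ℤ] (c : A →+ A →+ D) (B : AddSubgroup A) [AddGroup.FG (A ⧸ B)]
    (hP : ∀ (n : ℤ) (u v : A), n • u ∈ B → n • v ∈ B → c (n • u) v = 0) :
    ∃ γ : A →+ A →+ D, (∀ a, ∀ b ∈ B, γ a b = 0) ∧ ∀ b ∈ B, ∀ y, γ b y = c b y := by
  obtain ⟨ι, _, x, p, h1, h2⟩ := gt4_dec (A ⧸ B)
  choose k hk using h2
  choose e he using fun i => QuotientAddGroup.mk_surjective (x i)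
  choose F f1 f2 using fun i => gt4_one c B hP (e i)
  let γ : A ⧸ B →+ A →+ D := .mk' (fun q => ∑ i, k i q • F i) fun q q' => by
    rw [← Finset.sum_add_distrib]
    refine Finset.sum_congr rfl fun i _ => ?_
    rw [← add_smul, ← sub_eq_zero, ← sub_smul]
    refine f2 i _ ?_
    rw [he, sub_smul, add_smul, ← hk, ← hk, ← hk, map_add, sub_self]
  refine ⟨(γ.comp (QuotientAddGroup.mk' B)).flip, fun a b hb => ?_, fun b hb y => ?_⟩
  · show γ (b : A ⧸ B) a = 0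
    rw [(QuotientAddGroup.eq_zero_iff b).2 hb, map_zero, AddMonoidHom.zero_apply]
  · show (∑ i, k i (y : A ⧸ B) • F i) b = c b y
    have h3 : -(∑ i, k i (y : A ⧸ B) • e i) + y ∈ B := QuotientAddGroup.eq.1 (by
      rw [QuotientAddGroup.mk_sum]
      simp only [QuotientAddGroup.mk_zsmul, he, ← hk, h1])
    have h4 := hP 1 b _ (by rwa [one_smul]) (by rwa [one_smul])
    rw [one_smul, map_add, map_neg, neg_add_eq_zero, map_sum] at h4
    rw [← h4, AddMonoidHom.finsetSum_apply]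
    exact Finset.sum_congr rfl fun i _ => by rw [AddMonoidHom.smul_apply, f1 i b hb, map_zsmul]

/-- PLAN: `c x y - γ x y + γ y x` is alternating and vanishes on `B`; descend it to `A ⧸ B`,
`exists_beta`. -/
theorem gt4_fg [DivisibleBy D ℤ] (c : A →+ A →+ D) (hc : ∀ a, c a a = 0) (B : AddSubgroup A)
    [AddGroup.FG (A ⧸ B)]
    (hP : ∀ (n : ℤ) (u v : A), n • u ∈ B → n • v ∈ B → c (n • u) v = 0) :
    ∃ β : A →+ A →+ D, (∀ a b, β a b - β b a = c a b) ∧ ∀ a, ∀ b ∈ B, β a b = 0 := by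
  obtain ⟨γ, g1, g2⟩ := gt4_ext c B hP
  have h1 : ∀ b ∈ B, (c - γ + γ.flip) b = 0 := fun b hb => AddMonoidHom.ext fun y => by
    simp [g1 y b hb, g2 b hb y]
  have h2 : ∀ b ∈ B, (QuotientAddGroup.lift B _ h1).flip b = 0 := fun b hb =>
    AddMonoidHom.ext fun q => QuotientAddGroup.induction_on q fun x => by
      show c x b - γ x b + γ b x = 0
      rw [g1 x b hb, g2 b hb x, sub_zero, gt4_skew c hc]
  obtain ⟨β, hβ⟩ := exists_beta (QuotientAddGroup.lift B _ h2).flip fun q =>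
    QuotientAddGroup.induction_on q fun x => by
      show c x x - γ x x + γ x x = 0
      rw [hc, sub_add_cancel]
  refine ⟨γ + (β.comp (QuotientAddGroup.mk' B)).compl₂ (QuotientAddGroup.mk' B), fun a b => ?_,
    fun a b hb => ?_⟩
  · have h3 : β (a : A ⧸ B) (b : A ⧸ B) - β (b : A ⧸ B) (a : A ⧸ B) = c a b - γ a b + γ b a :=
      hβ _ _
    show γ a b + β (a : A ⧸ B) (b : A ⧸ B) - (γ b a + β (b : A ⧸ B) (a : A ⧸ B)) = c a b
    rw [add_sub_add_comm, h3]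
    abel
  · show γ a b + β (a : A ⧸ B) (b : A ⧸ B) = 0
    rw [g1 a b hb, (QuotientAddGroup.eq_zero_iff b).2 hb, map_zero, add_zero]

/-- PLAN: `gt4_div`, then the proof of `gt2_germ` with `gt4_fg` for the finitely generated
subgroups (and `B.addSubgroupOf`). -/
theorem gt4_germ (c : A →+ A →+ D) (hc : ∀ a, c a a = 0) (B : AddSubgroup A)
    (hP : ∀ (n : ℤ) (u v : A), n • u ∈ B → n • v ∈ B → c (n • u) v = 0) :
    ∃ (E : Type) (_ : AddCommGroup E) (ι : D →+ E) (β : A →+ A →+ E), Function.Injective ι ∧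
      (∀ a b, β a b - β b a = ι (c a b)) ∧ ∀ a, ∀ b ∈ B, β a b = 0 := by
  classical
  obtain ⟨E, _, _, ι, hι⟩ := gt4_div D
  choose β hβ hB using fun s : Finset A => gt4_fg (A := AddSubgroup.closure (s : Set A))
    (((c.compr₂ ι).comp (AddSubgroup.subtype _)).compl₂ (AddSubgroup.subtype _))
    (fun a => (congrArg ι (hc a)).trans (map_zero ι)) (B.addSubgroupOf _)
    fun n u v hu hv => (congrArg ι (hP n u v hu hv)).trans (map_zero ι)
  let r (s : Finset A) (a : A) : AddSubgroup.closure (s : Set A) :=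
    if h : a ∈ AddSubgroup.closure (s : Set A) then ⟨a, h⟩ else 0
  have hr a : ∀ᶠ s : Finset A in Filter.atTop, (r s a : A) = a :=
    (Filter.eventually_finset_mem_atTop a).mono fun s h =>
      congrArg Subtype.val (dif_pos (AddSubgroup.subset_closure (Finset.mem_coe.2 h)))
  have h2 a b : ∀ᶠ s : Finset A in Filter.atTop, r s (a + b) = r s a + r s b := by
    filter_upwards [hr a, hr b, hr (a + b)] with s h1 h2 h3
    exact Subtype.ext (by rw [AddSubgroup.coe_add, h1, h2, h3])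
  refine ⟨Filter.Germ (Filter.atTop : Filter (Finset A)) E, inferInstance,
    .mk' (fun d => (ι d : Filter.Germ _ E)) fun _ _ => by rw [map_add]; rfl,
    .mk' (fun a => .mk' (fun b => Filter.Germ.ofFun fun s => β s (r s a) (r s b)) fun b b' => ?_)
      fun a a' => AddMonoidHom.ext fun b => ?_, fun _ _ h => hι (Filter.Germ.const_inj.1 h),
    fun a b => ?_, fun a b hb => ?_⟩
  · exact Filter.Germ.coe_eq.2 ((h2 b b').mono fun s h => by simp [h])
  · exact Filter.Germ.coe_eq.2 ((h2 a a').mono fun s h => by simp [h])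
  · refine Filter.Germ.coe_eq.2 ?_
    filter_upwards [hr a, hr b] with s h1 h2
    simpa [h1, h2] using hβ s (r s a) (r s b)
  · refine Filter.Germ.coe_eq.2 ?_
    filter_upwards [hr b] with s h1
    exact hB s _ _ (show (r s b : A) ∈ B by rwa [h1])

end

/-- PLAN: the proof of `gt2_two`, with `gt4_germ` and `gt4_P` for the images of `K` and `C` in
`H ⧸ M`. -/
theorem gt4_two {H : Type} [Group H] (M K C : Subgroup H) (hM : M ≤ Subgroup.center H)
    (hc : ∀ x y, x * y * x⁻¹ * y⁻¹ ∈ M) (hMK : M ≤ K) (hKC : K ≤ C)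
    (hCK : ∀ x ∈ C, ∀ y ∈ K, x * y = y * x) (z : H) (hz : ∀ x, ∃ k : ℤ, (z ^ k)⁻¹ * x ∈ C) :
    ∃ (A : Type) (_ : AddCommGroup A) (θ : H → A) (β : H → H → A),
      (∀ x y z, β (x * y) z = β x z + β y z) ∧ (∀ x y z, β x (y * z) = β x y + β x z) ∧
      (∀ x y, y ∈ K → β x y = 0) ∧ (∀ x y, x ∈ K → x * y = y * x → β x y = 0) ∧
      (∀ x y, θ (x * y) = θ x + θ y + β x y) ∧ ∀ g, θ g = 0 ↔ g = 1 := by
  have hw x y := Subgroup.mem_center_iff.1 (hM (hc x y))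
  have : M.Normal := ⟨fun m hm x => by
    rwa [Subgroup.mem_center_iff.1 (hM hm), mul_inv_cancel_right]⟩
  let _ : CommGroup (H ⧸ M) := { QuotientGroup.Quotient.group M with
    mul_comm := fun a b => QuotientGroup.induction_on a fun x => QuotientGroup.induction_on b
      fun y => QuotientGroup.eq.2 (by simpa [mul_assoc] using hc y⁻¹ x⁻¹) }
  let _ : CommGroup M := { M.toGroup with
    mul_comm := fun a b => Subtype.ext (Subgroup.mem_center_iff.1 (hM b.2) a) }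
  let k : H →* H →* M := .mk' (fun x => .mk' (fun y => ⟨x * y * x⁻¹ * y⁻¹, hc x y⟩) fun y z =>
    Subtype.ext (by
      show x * (y * z) * x⁻¹ * (y * z)⁻¹ = x * y * x⁻¹ * y⁻¹ * (x * z * x⁻¹ * z⁻¹)
      rw [← mul_inv_cancel_right (x * z * x⁻¹ * z⁻¹) y, ← hw x z y]
      group)) fun x y => MonoidHom.ext fun z => Subtype.ext (by
      show x * y * z * (x * y)⁻¹ * z⁻¹ = x * z * x⁻¹ * z⁻¹ * (y * z * y⁻¹ * z⁻¹)
      rw [mul_assoc (x * z), mul_assoc x z (_ * _), mul_assoc x (z * _) (y * _ * _ * _), hw y z]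
      group)
  have k0 x y (e : x * y = y * x) : k x y = 1 := Subtype.ext (by
    show x * y * x⁻¹ * y⁻¹ = 1
    rw [e, mul_inv_cancel_right, mul_inv_cancel])
  have k1 : ∀ m ∈ M, k m = 1 := fun m hm => MonoidHom.ext fun y =>
    k0 m y (Subgroup.mem_center_iff.1 (hM hm) y).symm
  have k2 : ∀ m ∈ M, (QuotientGroup.lift M k k1).flip m = 1 := fun m hm => MonoidHom.ext fun a =>
    QuotientGroup.induction_on a fun x => k0 x m (Subgroup.mem_center_iff.1 (hM hm) x)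
  let c : Additive (H ⧸ M) →+ Additive (H ⧸ M) →+ Additive M := AddMonoidHom.flip
    (.mk' (fun a => MonoidHom.toAdditive (QuotientGroup.lift M _ k2 a.toMul)) fun a b => by
      ext
      simp)
  have c0 : ∀ a, c a a = 0 := fun a =>
    QuotientGroup.induction_on (C := fun a => QuotientGroup.lift M _ k2 a a = 1) a.toMul
      fun x => k0 x x rfl
  obtain ⟨E, _, ι, β, hι, hβ, hB⟩ := gt4_germ c c0 (K.map (QuotientGroup.mk' M)).toAddSubgroup
    (gt4_P c c0 _ (C.map (QuotientGroup.mk' M)).toAddSubgroup (by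
      rintro a ⟨x, hx, e1⟩ b ⟨y, hy, e2⟩
      obtain rfl : Additive.ofMul (x : H ⧸ M) = a := e1
      obtain rfl : Additive.ofMul (y : H ⧸ M) = b := e2
      exact k0 x y (hCK x hx y hy)) (.ofMul (z : H ⧸ M)) fun a => by
      obtain ⟨x, e⟩ := QuotientGroup.mk_surjective a.toMul
      obtain ⟨n, hn⟩ := hz x
      refine ⟨n, _, hn, ?_⟩
      show (((z ^ n)⁻¹ * x : H) : H ⧸ M) = a.toMul / (z : H ⧸ M) ^ n
      rw [← e, div_eq_inv_mul]
      rfl)
  let γ : H → H → E := fun x y => β (.ofMul (x : H ⧸ M)) (.ofMul (y : H ⧸ M))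
  have g1 x y z : γ (x * y) z = γ x z + γ y z := by simp [γ]
  have g2 x y z : γ x (y * z) = γ x y + γ x z := by simp [γ]
  have g3 x y (h : x ∈ M ∨ y ∈ M) : γ x y = 0 := by
    rcases h with h | h <;> simp [γ, (QuotientGroup.eq_one_iff _).2 h]
  have g4 x y : γ x y - γ y x = ι (.ofMul (k x y)) := hβ _ _
  have g5 x y (h : y ∈ K) : γ x y = 0 := hB _ _ ⟨y, h, rfl⟩
  have g6 x y (h : x ∈ K) (e : x * y = y * x) : γ x y = 0 := by
    have := g4 x y
    rwa [g5 y x h, k0 x y e, sub_zero, ofMul_one, map_zero] at this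
  obtain ⟨_, hm⟩ := gt2_grp γ g1 g2
  have h1 : ((1, 0) : H × E) = 1 := (mul_eq_left (a := 1)).1 (by simp [hm, g3])
  let κ : M →* H × E := .mk' (fun m => (m, ι (.ofMul m))) fun a b => by simp [hm, g3]
  have hK : commutator (H × E) ≤ κ.range := Subgroup.commutator_le.2 fun a _ b _ =>
    ⟨k a.1 b.1, by
      rw [commutatorElement_def, eq_mul_inv_iff_mul_eq, eq_mul_inv_iff_mul_eq, hm, hm, hm]
      refine Prod.ext (show a.1 * b.1 * a.1⁻¹ * b.1⁻¹ * b.1 * a.1 = a.1 * b.1 by group) ?_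
      show ι (.ofMul (k _ _)) + _ + γ (k _ _) _ + _ + γ (k _ _ * _) _ = _ + _ + _
      rw [g1, g3 _ _ (.inl (k _ _).2), g3 _ _ (.inl (k _ _).2), ← g4]
      abel⟩
  have j s t : Abelianization.of ((1, s + t) : H × E) =
      Abelianization.of (1, s) * Abelianization.of (1, t) := by simp [← map_mul, hm, g3]
  refine ⟨Additive (Abelianization (H × E)), inferInstance,
    fun x => .ofMul (Abelianization.of (x, 0)), fun x y => -.ofMul (Abelianization.of (1, γ x y)),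
    fun x y z => by simp only [g1, j, ofMul_mul, neg_add],
    fun x y z => by simp only [g2, j, ofMul_mul, neg_add], fun x y h => by simp [g5 x y h, h1],
    fun x y h e => by simp [g6 x y h e, h1],
    fun x y => ?_, fun g => ⟨fun h => ?_, fun h => by simp [h, h1]⟩⟩
  · simp [eq_add_neg_iff_add_eq, ← ofMul_mul, ← map_mul, hm, g3]
  · obtain ⟨m, e⟩ := hK ((QuotientGroup.eq_one_iff _).1 h)
    exact (congrArg Prod.fst e).symm.trans (congrArg Subtype.val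
      (show m = 1 from hι ((congrArg Prod.snd e).trans (map_zero ι).symm)))

variable {G : Type} [Group G] {N : ℕ → Subgroup G}

/-- PLAN: as `alt_bil`. -/
theorem alt_bil2 (S : Subgroup G) {A : Type} [AddCommGroup A] (β : G → G → A)
    (h1 : ∀ x ∈ S, ∀ y ∈ S, ∀ z ∈ S, β (x * y) z = β x z + β y z)
    (h2 : ∀ x ∈ S, ∀ y ∈ S, ∀ z ∈ S, β x (y * z) = β x y + β x z) {d : ℕ}
    (h3 : ∀ i j, d ≤ i + j → ∀ x ∈ S, ∀ y ∈ S, x ∈ N i → y ∈ N j → β x y = 0) {r b b' : ℕ}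
    {f g : List Bool → G} (hf : Cube N r b f) (hg : Cube N r b' g)
    (hfS : ∀ s : List Bool, s.length = r → f s ∈ S)
    (hgS : ∀ s : List Bool, s.length = r → g s ∈ S) (hr : d ≤ r + b + b') :
    alt r (fun s => β (f s) (g s)) = 0 := by
  induction r generalizing b b' f g with
  | zero => exact h3 b b' (by omega) _ (hfS _ rfl) _ (hgS _ rfl) hf hg
  | succ r ih =>
    have f0 (s : List Bool) (e : s.length = r) := hfS (false :: s) (congrArg _ e)
    have g0 (s : List Bool) (e : s.length = r) := hgS (false :: s) (congrArg _ e)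
    have f1 (s : List Bool) (e : s.length = r) :=
      mul_mem (inv_mem (f0 s e)) (hfS (true :: s) (congrArg _ e))
    have g1 (s : List Bool) (e : s.length = r) :=
      mul_mem (inv_mem (g0 s e)) (hgS (true :: s) (congrArg _ e))
    rw [alt, alt_congr (f := fun s => β (f (true :: s)) (g (true :: s))) fun s e => by
      rw [← mul_inv_cancel_left (f (false :: s)) (f (true :: s)),
        ← mul_inv_cancel_left (g (false :: s)) (g (true :: s)),
        h1 _ (f0 s e) _ (f1 s e) _ (mul_mem (g0 s e) (g1 s e)), h2 _ (f0 s e) _ (g0 s e) _ (g1 s e),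
        h2 _ (f1 s e) _ (g0 s e) _ (g1 s e)], alt_add, alt_add, alt_add,
      ih hf.1 hg.2 f0 g1 (by omega), ih hf.2 hg.1 f1 g0 (by omega), ih hf.2 hg.2 f1 g1 (by omega),
      add_zero, add_zero, add_zero, sub_self]

/-- PLAN: as `pol_quad`. -/
theorem pol_quad2 (h : Fl N) (S : Subgroup G) {A : Type} [AddCommGroup A] (β : G → G → A)
    (h1 : ∀ x ∈ S, ∀ y ∈ S, ∀ z ∈ S, β (x * y) z = β x z + β y z)
    (h2 : ∀ x ∈ S, ∀ y ∈ S, ∀ z ∈ S, β x (y * z) = β x y + β x z) {d : ℕ}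
    (h3 : ∀ i j, d ≤ i + j → ∀ x ∈ S, ∀ y ∈ S, x ∈ N i → y ∈ N j → β x y = 0) (θ : G → A)
    (hθ : ∀ x ∈ S, ∀ y ∈ S, θ (x * y) = θ x + θ y + β x y) (h0 : ∀ x ∈ S, x ∈ N d → θ x = 0) :
    Pol N S d θ := by
  suffices H : ∀ r b f, Cube N r b f → (∀ s : List Bool, s.length = r → f s ∈ S) → d ≤ r + b →
      alt r (fun s => θ (f s)) = 0 from fun r hr f hf hS => H r 0 f hf hS hr
  intro r
  induction r with
  | zero => exact fun b f hf hS e => h0 _ (hS _ rfl) (h.le (by omega) hf)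
  | succ r ih =>
    intro b f hf hS e
    have f0 (s : List Bool) (e : s.length = r) := hS (false :: s) (congrArg _ e)
    have f1 (s : List Bool) (e : s.length = r) :=
      mul_mem (inv_mem (f0 s e)) (hS (true :: s) (congrArg _ e))
    rw [alt, alt_congr (f := fun s => θ (f (true :: s))) fun s e => by
      rw [← mul_inv_cancel_left (f (false :: s)) (f (true :: s)), hθ _ (f0 s e) _ (f1 s e)],
      alt_add, alt_add, ih _ _ hf.2 f1 (by omega),
      alt_bil2 S β h1 h2 h3 hf.1 hf.2 f0 f1 (by omega), add_zero, add_zero, sub_self]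

/-- The subgroup generated by `L` and `N 3`. -/
def Gn3 (N : ℕ → Subgroup G) (L : List G) : Subgroup G :=
  Subgroup.closure ({x | x ∈ L} ∪ (N 3 : Set G))

theorem gn3_mem {L : List G} {x : G} (h : x ∈ L) : x ∈ Gn3 N L :=
  Subgroup.subset_closure (Or.inl h)

theorem gn3_le (L : List G) : N 3 ≤ Gn3 N L := fun _ hx => Subgroup.subset_closure (Or.inr hx)

theorem gn3_sub {L : List G} {S : Subgroup G} (h1 : ∀ x ∈ L, x ∈ S) (h2 : N 3 ≤ S) :
    Gn3 N L ≤ S := (Subgroup.closure_le _).2 (Set.union_subset h1 h2)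

/-- PLAN: as `mem_Cy`. -/
theorem mem_gn3_one (h : Fl N) (z x : G) : x ∈ Gn3 N [z] ↔ ∃ k : ℤ, (z ^ k)⁻¹ * x ∈ N 3 := by
  have := h.normal 3
  constructor
  · intro hx
    have k : Gn3 N [z] ≤ (Subgroup.zpowers (z : G ⧸ N 3)).comap (QuotientGroup.mk' (N 3)) := by
      refine gn3_sub (fun y hy => ?_) fun y hy => ?_
      · rw [List.mem_singleton.1 hy]
        exact Subgroup.mem_zpowers _
      · exact ⟨0, (zpow_zero _).trans ((QuotientGroup.eq_one_iff y).2 hy).symm⟩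
    obtain ⟨k, hk⟩ := k hx
    exact ⟨k, QuotientGroup.eq.1 hk⟩
  · rintro ⟨k, hk⟩
    simpa using mul_mem (zpow_mem (gn3_mem (N := N) (List.mem_singleton_self z)) k) (gn3_le [z] hk)

/-- PLAN: as `dm_two`, with `H = Gn3 N [z] ≤ N 2`, `M = N (d - 3)`, `K = N (d - 4)` if `7 ≤ d`,
`C = N 3`.  Commutators of `H` are in `N 6` (`mem_gn3_one`; powers of `z` commute, `sl 2 3`; work
modulo the normal subgroup `N 6`).  For `d ≤ i + j`: either `d - 4 ≤ j`, or `d - 4 ≤ i` and the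
two elements commute (`sl i j`, or `x = 1` if `j = 0`). -/
theorem dm_top (h : Fl N)
    (sl : ∀ i j, 1 ≤ i → 1 ≤ j → ∀ x ∈ N i, ∀ y ∈ N j, x * y * x⁻¹ * y⁻¹ ∈ N (i + j + 1)) {d : ℕ}
    (hd7 : 7 ≤ d) (hd : d ≤ 9) (hb : N d = ⊥) {z : G} (hz : z ∈ N 2) {g : G}
    (hg : Dm N (Gn3 N [z]) d g) (hgS : g ∈ Gn3 N [z]) : g = 1 := by
  have hS : Gn3 N [z] ≤ N 2 := gn3_sub (fun x hx => List.mem_singleton.1 hx ▸ hz) (h.anti 2)
  have cm : ∀ i j, 1 ≤ i → 1 ≤ j → d ≤ i + j + 1 → ∀ x ∈ N i, ∀ y ∈ N j, x * y = y * x :=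
    fun i j hi hj e x hx y hy => by
      have := h.le e (sl i j hi hj x hx y hy)
      rwa [hb, Subgroup.mem_bot, mul_inv_eq_one, mul_inv_eq_iff_eq_mul] at this
  have c6 : ∀ x ∈ Gn3 N [z], ∀ y ∈ Gn3 N [z], x * y * x⁻¹ * y⁻¹ ∈ N 6 := fun x hx y hy => by
    have := h.normal 6
    have q : ∀ a ∈ N 2, ∀ b ∈ N 3, Commute (a : G ⧸ N 6) b := fun a ha b hb => by
      have := (QuotientGroup.eq_one_iff _).2 (sl 2 3 one_le_two (by omega) a ha b hb)
      simp only [QuotientGroup.mk_mul, QuotientGroup.mk_inv] at this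
      rwa [mul_inv_eq_one, mul_inv_eq_iff_eq_mul] at this
    obtain ⟨a, ha⟩ := (mem_gn3_one h z x).1 hx
    obtain ⟨b, hb⟩ := (mem_gn3_one h z y).1 hy
    have e : Commute (x : G ⧸ N 6) y := by
      rw [← mul_inv_cancel_left (z ^ a) x, QuotientGroup.mk_mul]
      refine Commute.mul_left ?_ (q y (hS hy) _ ha).symm
      rw [← mul_inv_cancel_left (z ^ b) y, QuotientGroup.mk_mul]
      exact Commute.mul_right (((Commute.refl z).zpow_zpow a b).map (QuotientGroup.mk' (N 6)))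
        (q _ (zpow_mem hz a) _ hb)
    refine (QuotientGroup.eq_one_iff _).1 ?_
    simp only [QuotientGroup.mk_mul, QuotientGroup.mk_inv]
    rw [e.eq, mul_inv_cancel_right, mul_inv_cancel]
  obtain ⟨A, _, θ, β, h1, h2, h3, h3', h4, h6⟩ := gt4_two ((N (d - 3)).subgroupOf (Gn3 N [z]))
    ((N (d - 4)).subgroupOf (Gn3 N [z])) ((N 3).subgroupOf (Gn3 N [z]))
    (fun m hm => Subgroup.mem_center_iff.2 fun x => Subtype.ext
      (cm 2 (d - 3) one_le_two (by omega) (by omega) x (hS x.2) m hm))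
    (fun x y => h.le (show d - 3 ≤ 6 by omega) (c6 x x.2 y y.2))
    (fun x hx => h.le (show d - 4 ≤ d - 3 by omega) hx)
    (fun x hx => h.le (show 3 ≤ d - 4 by omega) hx)
    (fun x hx y hy => Subtype.ext (cm 3 (d - 4) (by omega) (by omega) (by omega) x hx y hy))
    ⟨z, gn3_mem (List.mem_singleton_self z)⟩ fun x => (mem_gn3_one h z x).1 x.2
  classical
  obtain ⟨ρ, hρ⟩ : ∃ ρ : G → Gn3 N [z], ∀ x ∈ Gn3 N [z], (ρ x : G) = x :=
    ⟨fun x => if e : x ∈ Gn3 N [z] then ⟨x, e⟩ else 1,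
      fun x e => congrArg Subtype.val (dif_pos e)⟩
  have hm : ∀ x ∈ Gn3 N [z], ∀ y ∈ Gn3 N [z], ρ (x * y) = ρ x * ρ y := fun x hx y hy =>
    Subtype.ext (by rw [Subgroup.coe_mul, hρ x hx, hρ y hy, hρ _ (mul_mem hx hy)])
  have h7 : θ (ρ 1) = 0 := (h6 _).2 (Subtype.ext (hρ 1 (one_mem _)))
  have h8 := hg A (fun x => θ (ρ x)) (pol_quad2 h (Gn3 N [z]) (fun x y => β (ρ x) (ρ y))
    (fun x hx y hy z _ => by rw [hm x hx y hy, h1]) (fun x _ y hy z hz => by rw [hm y hy z hz, h2])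
    (fun i j e x hx y hy xi yj => by
      by_cases c : d - 4 ≤ j
      · exact h3 _ _ (show (ρ y : G) ∈ N _ by rw [hρ y hy]; exact h.le c yj)
      refine h3' _ _ (show (ρ x : G) ∈ N _ by rw [hρ x hx]; exact h.le (by omega) xi)
        (Subtype.ext ?_)
      rw [Subgroup.coe_mul, Subgroup.coe_mul, hρ x hx, hρ y hy]
      rcases Nat.eq_zero_or_pos j with rfl | j0
      · exact cm i 2 (by omega) one_le_two (by omega) x xi y (hS hy)
      · exact cm i j (by omega) j0 (by omega) x xi y yj) _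
    (fun x hx y hy => by rw [hm x hx y hy, h4]) fun x _ e => by
      rwa [show x = 1 from Subgroup.mem_bot.1 (hb ▸ e)])
  rw [← hρ g hgS, (h6 _).1 (h8.trans h7)]
  rfl

end Pool.Agent.GH
end

-- merged part: Pool.Agent.Work.MP_c00b06_gt.GT5
section
/-! Retractions modulo the third term of the filtration. -/

namespace Pool.Agent.GH

variable {G : Type} [Group G] {N : ℕ → Subgroup G}

/-- Commutators gain one more degree. -/
def Slk (N : ℕ → Subgroup G) : Prop :=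
  ∀ i j, 1 ≤ i → 1 ≤ j → ∀ x ∈ N i, ∀ y ∈ N j, x * y * x⁻¹ * y⁻¹ ∈ N (i + j + 1)

theorem gt5_b0 (δ : ℕ → G →* G) (n : ℕ) {x : G} (hx : ∀ i < n, δ i x = 1) :
    ∀ m ≤ n, bru δ m x = x := fun m hm => by
  induction m with
  | zero => rfl
  | succ m ih => rw [bru, ih (by omega), hx m hm, inv_one, mul_one]

theorem gt5_mem {S : Subgroup G} (hS : N 3 ≤ S) {a b : G} (e : (a : G ⧸ N 3) = b) (ha : a ∈ S) :
    b ∈ S := by
  simpa using mul_mem ha (hS (QuotientGroup.eq.1 e))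

theorem gt5_comm (sl : Slk N) [(N 3).Normal] {a b : G} (ha : a ∈ N 1) (hb : b ∈ N 1) :
    (a : G ⧸ N 3) * b = b * a := by
  have := (QuotientGroup.eq_one_iff _).2 (sl 1 1 le_rfl le_rfl a ha b hb)
  simp only [QuotientGroup.mk_mul, QuotientGroup.mk_inv] at this
  rwa [mul_inv_eq_one, mul_inv_eq_iff_eq_mul] at this

theorem gt5_zpow (S : Subgroup G) (lam : G → ℤ)
    (hl : ∀ a ∈ S, ∀ b ∈ S, lam (a * b) = lam a + lam b) {a : G} (ha : a ∈ S) (k : ℤ) :
    lam (a ^ k) = k * lam a := by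
  let φ : S →* Multiplicative ℤ := .mk' (fun x => Multiplicative.ofAdd (lam x)) fun x y => by
    rw [Subgroup.coe_mul, hl _ x.2 _ y.2, ofAdd_add]
  have := congrArg Multiplicative.toAdd (map_zpow φ ⟨a, ha⟩ k)
  simpa [φ] using this

theorem gt5_inv (S : Subgroup G) (lam : G → ℤ)
    (hl : ∀ a ∈ S, ∀ b ∈ S, lam (a * b) = lam a + lam b) {a : G} (ha : a ∈ S) :
    lam a⁻¹ = -lam a := by
  simpa using gt5_zpow S lam hl ha (-1)

theorem bru_fix (δ : ℕ → G →* G) (n : ℕ) {x : G} (h : ∀ i < n, δ i x = 1) : bru δ n x = x := by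
  exact gt5_b0 δ n h n le_rfl

/-- PLAN: the proof of `key` in `dm_br`, modulo `N 3` (commutators of `N 1` are in `N 3`). -/
theorem br3 (h : Fl N) (sl : Slk N) (n : ℕ) (δ : ℕ → G →* G)
    (hc : ∀ i < n, ∀ j < n, ∀ x, δ i (δ j x) = δ j (δ i x))
    (hf : ∀ i < n, ∀ k, ∀ x ∈ N k, δ i x ∈ N k) {L : List G}
    (hL : ∀ y ∈ L, y ∈ N 1 ∧ ∀ i < n, δ i y ∈ N 3) {x : G}
    (hx : x ∈ Subgroup.closure
      ({y | y ∈ L} ∪ {x | x ∈ N 1 ∧ ∃ i < n, δ i x = x} ∪ (N 3 : Set G))) :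
    bru δ n x ∈ Gn3 N L := by
  have := h.normal 3
  have b1 : bru δ n 1 = 1 := bru_fix δ n fun i _ => map_one _
  have b2 : ∀ k, ∀ x ∈ N k, ∀ m ≤ n, bru δ m x ∈ N k := fun k x hx m hm => by
    induction m with
    | zero => exact hx
    | succ m ih => exact mul_mem (ih (by omega)) (inv_mem (hf m hm k _ (ih (by omega))))
  have b3 : ∀ i < n, ∀ x, ∀ m ≤ n, δ i (bru δ m x) = bru δ m (δ i x) := fun i hi x m hm => by
    induction m with
    | zero => rfl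
    | succ m ih => rw [bru, bru, map_mul, map_inv, hc i hi m hm, ih (by omega)]
  have b4 : ∀ i < n, ∀ x, δ i x = x → ∀ m ≤ n, i < m → bru δ m x = 1 := fun i hi x hx m hm k => by
    induction m with
    | zero => omega
    | succ m ih =>
      rcases (Nat.lt_succ_iff.1 k).eq_or_lt with rfl | k
      · rw [bru, b3 i hi x i hi.le, hx, mul_inv_cancel]
      · rw [bru, ih (by omega) k, map_one, inv_one, mul_one]
  have q1 : ∀ i < n, ∀ a b : G, (a : G ⧸ N 3) = b → (δ i a : G ⧸ N 3) = δ i b :=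
    fun i hi a b e => QuotientGroup.eq.2 (by
      rw [← map_inv, ← map_mul]
      exact hf i hi 3 _ (QuotientGroup.eq.1 e))
  have q3 : ∀ a ∈ N 1, ∀ b ∈ N 1, ∀ m ≤ n,
      ((bru δ m a * bru δ m b : G) : G ⧸ N 3) = bru δ m (a * b) := fun a ha b hb m hm => by
    induction m with
    | zero => rfl
    | succ m ih =>
      have e := ih (by omega)
      have a1 := inv_mem (hf m hm 1 _ (b2 1 a ha m (by omega)))
      have e2 := gt5_comm sl a1 (b2 1 b hb (m + 1) hm)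
      simp only [bru, QuotientGroup.mk_mul, QuotientGroup.mk_inv] at e2 ⊢
      rw [← q1 m hm _ _ e, ← e, map_mul]
      simp only [QuotientGroup.mk_mul, mul_inv_rev]
      rw [mul_assoc, e2]
      simp only [mul_assoc]
  have q4 : ∀ y ∈ L, ∀ m ≤ n, (y : G ⧸ N 3) = bru δ m y := fun y hy m hm => by
    induction m with
    | zero => rfl
    | succ m ih =>
      have e := ih (by omega)
      simp only [bru, QuotientGroup.mk_mul, QuotientGroup.mk_inv]
      rw [← q1 m hm _ _ e, ← e, (QuotientGroup.eq_one_iff _).2 ((hL y hy).2 m hm), inv_one, mul_one]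
  refine (Subgroup.closure_induction (p := fun x _ => x ∈ N 1 ∧ bru δ n x ∈ Gn3 N L) ?_
    ⟨one_mem _, b1.symm ▸ one_mem _⟩ (fun a b _ _ ha hb => ⟨mul_mem ha.1 hb.1,
      gt5_mem (gn3_le L) (q3 a ha.1 b hb.1 n le_rfl) (mul_mem ha.2 hb.2)⟩)
    (fun a _ ha => ⟨inv_mem ha.1, ?_⟩) hx).2
  · rintro z ((hz | ⟨hz, i, hi, e⟩) | hz)
    · exact ⟨(hL z hz).1, gt5_mem (gn3_le L) (q4 z hz n le_rfl) (gn3_mem hz)⟩
    · exact ⟨hz, b4 i hi z e n le_rfl hi ▸ one_mem _⟩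
    · exact ⟨h.le (by omega) hz, gn3_le L (b2 3 z hz n le_rfl)⟩
  · have e := q3 a ha.1 _ (inv_mem ha.1) n le_rfl
    rw [mul_inv_cancel, b1] at e
    exact (Subgroup.mul_mem_cancel_left _ ha.2).1 (gt5_mem (gn3_le L) e.symm (one_mem _))

/-- PLAN: `dm_one`, `br3`, `bru_fix`, `dm_ret` as in `dm_br`. -/
theorem dm_br3 (h : Fl N) (sl : Slk N) (n : ℕ) (δ : ℕ → G →* G)
    (hc : ∀ i < n, ∀ j < n, ∀ x, δ i (δ j x) = δ j (δ i x))
    (hf : ∀ i < n, ∀ k, ∀ x ∈ N k, δ i x ∈ N k) {L : List G}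
    (hL : ∀ y ∈ L, y ∈ N 1 ∧ ∀ i < n, δ i y ∈ N 3)
    (gen : ∀ x ∈ N 1, x ∈ Subgroup.closure
      ({y | y ∈ L} ∪ {x | x ∈ N 1 ∧ ∃ i < n, δ i x = x} ∪ (N 3 : Set G)))
    {d : ℕ} (hd : 1 ≤ d) {g : G} (hg : Dm N Set.univ d g) (hb : ∀ i < n, δ i g = 1) :
    g ∈ Gn3 N L ∧ Dm N (Gn3 N L) d g := by
  obtain ⟨g1, g2⟩ := dm_one h hd hg
  have key : ∀ x ∈ N 1, bru δ n x ∈ Gn3 N L := fun x hx => br3 h sl n δ hc hf hL (gen x hx)
  have g0 := bru_fix δ n hb
  refine ⟨g0 ▸ key g g1, dm_ret (bru δ n) (fun r f hr hS => ⟨?_, fun s hs => key _ (hS s hs)⟩)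
    (bru_fix δ n fun i _ => map_one _) g0 g2⟩
  suffices ∀ m ≤ n, Cube N r 0 fun s => bru δ m (f s) from this n le_rfl
  intro m hm
  induction m with
  | zero => exact hr
  | succ m ih =>
    exact cube_mul h (ih (by omega)) (cube_inv h (cube_map (δ m) (hf m hm) (ih (by omega))))

/-- PLAN: as `dm_cyc`. -/
theorem dm_ker (h : Fl N) {d : ℕ} (hd : 3 ≤ d) (S S' : Subgroup G) {y : G} (hyS : y ∈ S)
    (hy : y ∈ N 1) (lam : G → ℤ) (hl : ∀ a ∈ S, ∀ b ∈ S, lam (a * b) = lam a + lam b)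
    (hy1 : lam y = 1) (h3 : ∀ x ∈ N 3, lam x = 0) (h2 : ∀ x ∈ S, x ∈ N 2 → y ^ lam x ∈ N 2)
    (hS : ∀ x ∈ S, lam x = 0 → x ∈ S') {g : G} (hg : Dm N S d g) (hgS : g ∈ S) :
    g ∈ S' ∧ Dm N S' d g := by
  have l1 : lam 1 = 0 := h3 1 (one_mem _)
  have r2 : ∀ x ∈ S, (y ^ lam x)⁻¹ * x ∈ S' := fun x hx => by
    have e := inv_mem (zpow_mem hyS (lam x))
    refine hS _ (mul_mem e hx) ?_
    rw [hl _ e _ hx, gt5_inv S lam hl (zpow_mem hyS _), gt5_zpow S lam hl hyS, hy1]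
    ring
  have g0 : (y ^ lam g)⁻¹ * g = g := by
    rw [dm_hom h S lam hl (fun x _ hx => h3 x (h.le hd hx)) hg, zpow_zero, inv_one, one_mul]
  refine ⟨g0 ▸ r2 g hgS, dm_ret (fun x => (y ^ lam x)⁻¹ * x) (fun r f hf hS =>
    ⟨cube_mul h (cube_inv h (cube_map_on S (fun x => y ^ lam x)
      (fun a ha b hb => by rw [hl a ha b hb, zpow_add]) (fun k x hxS hx => ?_) hf hS)) hf,
      fun s hs => r2 _ (hS s hs)⟩) (by simp [l1]) g0 hg⟩
  match k, hx with
  | 0, _ => exact h.top ▸ Subgroup.mem_top _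
  | 1, _ => exact zpow_mem hy _
  | 2, hx => exact h2 x hxS hx
  | k + 3, hx => rw [h3 x (h.le (by omega) hx), zpow_zero]; exact one_mem _

/-- PLAN: the set of `x ∈ Gn3 N (y :: L)` with `x * (y ^ lam x)⁻¹` in the smaller subgroup is a
subgroup (`N 1` is commutative modulo `N 3`); closure induction. -/
theorem ker_gen (h : Fl N) (sl : Slk N) {y : G} {L : List G} (hy : y ∈ N 1)
    (hL : ∀ a ∈ L, a ∈ N 1) (lam : G → ℤ)
    (hl : ∀ a ∈ Gn3 N (y :: L), ∀ b ∈ Gn3 N (y :: L), lam (a * b) = lam a + lam b)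
    (hy1 : lam y = 1) (h3 : ∀ x ∈ N 3, lam x = 0) {x : G} (hx : x ∈ Gn3 N (y :: L))
    (h0 : lam x = 0) : x ∈ Gn3 N (L.map fun a => a * (y ^ lam a)⁻¹) := by
  have := h.normal 3
  have hyS : y ∈ Gn3 N (y :: L) := gn3_mem List.mem_cons_self
  have h1 : Gn3 N (y :: L) ≤ N 1 := gn3_sub (fun a ha => by
    rcases List.mem_cons.1 ha with rfl | ha
    exacts [hy, hL a ha]) (h.le (by omega))
  have key : x * (y ^ lam x)⁻¹ ∈ Gn3 N (L.map fun a => a * (y ^ lam a)⁻¹) := by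
    refine Subgroup.closure_induction
      (p := fun x _ => x * (y ^ lam x)⁻¹ ∈ Gn3 N (L.map fun a => a * (y ^ lam a)⁻¹)) ?_ ?_
      (fun a b ha hb pa pb => ?_) (fun a ha pa => ?_) hx
    · rintro z (hz | hz)
      · rcases List.mem_cons.1 hz with rfl | hz
        · rw [hy1, zpow_one, mul_inv_cancel]
          exact one_mem _
        · exact gn3_mem (List.mem_map_of_mem hz)
      · rw [h3 z hz, zpow_zero, inv_one, mul_one]
        exact gn3_le _ hz
    · rw [h3 1 (one_mem _), zpow_zero, inv_one, mul_one]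
      exact one_mem _
    · refine gt5_mem (gn3_le _) ?_ (mul_mem pa pb)
      have e := gt5_comm sl (inv_mem (zpow_mem hy (lam a)))
        (mul_mem (h1 hb) (inv_mem (zpow_mem hy (lam b))))
      rw [hl a ha b hb, zpow_add, mul_inv_rev]
      simp only [QuotientGroup.mk_mul] at e ⊢
      rw [mul_assoc, e]
      simp only [mul_assoc]
    · refine gt5_mem (gn3_le _) ?_ (inv_mem pa)
      have e := gt5_comm sl (zpow_mem hy (lam a)) (inv_mem (h1 ha))
      rw [gt5_inv _ lam hl ha, zpow_neg, inv_inv, mul_inv_rev, inv_inv]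
      simpa only [QuotientGroup.mk_mul] using e
  rwa [h0, zpow_zero, inv_one, mul_one] at key

variable {d : ℕ} {g : G}

/-- PLAN: `dm_top` with `z = 1`. -/
theorem gt_n5 (h : Fl N) (sl : Slk N) (hd7 : 7 ≤ d) (hd : d ≤ 9) (hb : N d = ⊥)
    (hg : Dm N (Gn3 N []) d g) (hgS : g ∈ Gn3 N []) : g = 1 := by
  have e : Gn3 N [] = Gn3 N [1] := le_antisymm (gn3_sub (by simp) (gn3_le _))
    (gn3_sub (fun x hx => by
      rw [List.mem_singleton.1 hx]
      exact one_mem _) (gn3_le _))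
  rw [e] at hg hgS
  exact dm_top h sl hd7 hd hb (one_mem _) hg hgS

/-- PLAN: `dm_ker` with `ker_gen` twice, then `dm_top`. -/
theorem gt_n4 (h : Fl N) (sl : Slk N) (hd7 : 7 ≤ d) (hd : d ≤ 9) (hb : N d = ⊥) {a b c : G}
    (ha : a ∈ N 2) (hb2 : b ∈ N 2) (hc : c ∈ N 2) (k1 k2 : G → ℤ)
    (h1 : ∀ x ∈ N 2, ∀ y ∈ N 2, k1 (x * y) = k1 x + k1 y)
    (h2 : ∀ x ∈ N 2, ∀ y ∈ N 2, k2 (x * y) = k2 x + k2 y) (h13 : ∀ x ∈ N 3, k1 x = 0)
    (h23 : ∀ x ∈ N 3, k2 x = 0) (h1a : k1 a = 1) (h2a : k2 a = 0) (h2b : k2 b = 1)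
    (hg : Dm N (Gn3 N [a, b, c]) d g) (hgS : g ∈ Gn3 N [a, b, c]) : g = 1 := by
  have n21 : N 2 ≤ N 1 := h.anti 1
  have s1 : Gn3 N [a, b, c] ≤ N 2 := gn3_sub (by simp [ha, hb2, hc]) (h.anti 2)
  have l1 : ∀ x ∈ Gn3 N [a, b, c], ∀ y ∈ Gn3 N [a, b, c], k1 (x * y) = k1 x + k1 y :=
    fun x hx y hy => h1 x (s1 hx) y (s1 hy)
  obtain ⟨g1, g2⟩ := dm_ker h (by omega) (Gn3 N [a, b, c]) _ (gn3_mem List.mem_cons_self) (n21 ha)
    k1 l1 h1a h13 (fun x _ _ => zpow_mem ha _) (fun x hx h0 =>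
      ker_gen h sl (n21 ha) (by simp [n21 hb2, n21 hc]) k1 l1 h1a h13 hx h0) hg hgS
  rw [List.map_cons, List.map_cons, List.map_nil] at g1 g2
  have hb' : b * (a ^ k1 b)⁻¹ ∈ N 2 := mul_mem hb2 (inv_mem (zpow_mem ha _))
  have hc' : c * (a ^ k1 c)⁻¹ ∈ N 2 := mul_mem hc (inv_mem (zpow_mem ha _))
  have kb : k2 (b * (a ^ k1 b)⁻¹) = 1 := by
    rw [h2 _ hb2 _ (inv_mem (zpow_mem ha _)), gt5_inv _ k2 h2 (zpow_mem ha _),
      gt5_zpow _ k2 h2 ha, h2a, h2b]
    ring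
  generalize b * (a ^ k1 b)⁻¹ = b' at g1 g2 hb' kb
  generalize c * (a ^ k1 c)⁻¹ = c' at g1 g2 hc'
  have s2 : Gn3 N [b', c'] ≤ N 2 := gn3_sub (by simp [hb', hc']) (h.anti 2)
  have l2 : ∀ x ∈ Gn3 N [b', c'], ∀ y ∈ Gn3 N [b', c'], k2 (x * y) = k2 x + k2 y :=
    fun x hx y hy => h2 x (s2 hx) y (s2 hy)
  obtain ⟨g3, g4⟩ := dm_ker h (by omega) (Gn3 N [b', c']) _ (gn3_mem List.mem_cons_self) (n21 hb')
    k2 l2 kb h23 (fun x _ _ => zpow_mem hb' _) (fun x hx h0 =>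
      ker_gen h sl (n21 hb') (by simp [n21 hc']) k2 l2 kb h23 hx h0) g2 g1
  rw [List.map_cons, List.map_nil] at g3 g4
  exact dm_top h sl hd7 hd hb (mul_mem hc' (inv_mem (zpow_mem hb' _))) g4 g3

/-- PLAN: `dm_ker` with `ker_gen`. -/
theorem gt_n3 (h : Fl N) (sl : Slk N) (hd : 3 ≤ d) {y : G} {L : List G} (hy : y ∈ N 1)
    (hL : ∀ a ∈ L, a ∈ N 2) (lam : G → ℤ)
    (hl : ∀ a ∈ Cy N y, ∀ b ∈ Cy N y, lam (a * b) = lam a + lam b) (hy1 : lam y = 1)
    (h2 : ∀ x ∈ N 2, lam x = 0) (hg : Dm N (Gn3 N (y :: L)) d g) (hgS : g ∈ Gn3 N (y :: L)) :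
    g ∈ Gn3 N L ∧ Dm N (Gn3 N L) d g := by
  have s1 : Gn3 N (y :: L) ≤ Cy N y := gn3_sub (fun a ha => by
    rcases List.mem_cons.1 ha with rfl | ha
    exacts [gt3_y _, gt3_le y (hL a ha)]) ((h.anti 2).trans (gt3_le y))
  have l1 : ∀ a ∈ Gn3 N (y :: L), ∀ b ∈ Gn3 N (y :: L), lam (a * b) = lam a + lam b :=
    fun a ha b hb => hl a (s1 ha) b (s1 hb)
  have h3 : ∀ x ∈ N 3, lam x = 0 := fun x hx => h2 x (h.anti 2 hx)
  have e : (L.map fun a => a * (y ^ lam a)⁻¹) = L := by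
    conv_rhs => rw [← List.map_id L]
    exact List.map_congr_left fun a ha => by
      rw [h2 a (hL a ha), zpow_zero, inv_one, mul_one, id]
  refine dm_ker h hd (Gn3 N (y :: L)) _ (gn3_mem List.mem_cons_self) hy lam l1 hy1 h3
    (fun x _ hx => ?_) (fun x hx h0 => ?_) hg hgS
  · rw [h2 x hx, zpow_zero]
    exact one_mem _
  · rw [← e]
    exact ker_gen h sl hy (fun a ha => h.anti 1 (hL a ha)) lam l1 hy1 h3 hx h0

/-- PLAN: modulo `N 3` (where `N 1` is commutative) every element of `Gn3 N [y, a, b]` is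
`y ^ k * a ^ r * b ^ s`.  Let `lam a = 2 α`, `lam b = 2 β`, `y * y = a ^ p * b ^ q`, so
`p α + q β = 1`.  If `lam x = 0` then `k` is even, so `x = a ^ r * b ^ s` with `r α + s β = 0`, and
`x = z ^ (r q - s p)` for `z = a ^ β * b ^ (-α)`.  `dm_ker` with `S' = Gn3 N [z]`, `dm_top`. -/
theorem gt_n2 (h : Fl N) (sl : Slk N) (hd7 : 7 ≤ d) (hd : d ≤ 9) (hb : N d = ⊥) {y a b : G}
    (hy : y ∈ N 1) (ha : a ∈ N 2) (hb2 : b ∈ N 2) (hyy : y * y ∈ Gn3 N [a, b]) (lam : G → ℤ)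
    (hl : ∀ a ∈ Cy N y, ∀ b ∈ Cy N y, lam (a * b) = lam a + lam b) (hy1 : lam y = 1)
    (h3 : ∀ x ∈ N 3, lam x = 0) (h2 : ∀ x ∈ N 2, Even (lam x))
    (hg : Dm N (Gn3 N [y, a, b]) d g) (hgS : g ∈ Gn3 N [y, a, b]) : g = 1 := by
  have := h.normal 3
  have n21 : N 2 ≤ N 1 := h.anti 1
  have s0 : Gn3 N [a, b] ≤ N 2 := gn3_sub (by simp [ha, hb2]) (h.anti 2)
  have s1 : Gn3 N [y, a, b] ≤ Cy N y := gn3_sub
    (by simp [gt3_y, gt3_le y ha, gt3_le y hb2]) ((h.anti 2).trans (gt3_le y))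
  have l1 : ∀ u ∈ Gn3 N [y, a, b], ∀ v ∈ Gn3 N [y, a, b], lam (u * v) = lam u + lam v :=
    fun u hu v hv => hl u (s1 hu) v (s1 hv)
  have cab : Commute (a : G ⧸ N 3) b := gt5_comm sl (n21 ha) (n21 hb2)
  have pm : ∀ p q r s : ℤ, (a : G ⧸ N 3) ^ p * (b : G ⧸ N 3) ^ q * ((a : G ⧸ N 3) ^ r *
      (b : G ⧸ N 3) ^ s) = (a : G ⧸ N 3) ^ (p + r) * (b : G ⧸ N 3) ^ (q + s) := fun p q r s => by
    rw [zpow_add, zpow_add, mul_assoc, mul_assoc, (cab.zpow_zpow r q).left_comm]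
  have pz : ∀ p q k : ℤ, ((a : G ⧸ N 3) ^ p * (b : G ⧸ N 3) ^ q) ^ k =
      (a : G ⧸ N 3) ^ (p * k) * (b : G ⧸ N 3) ^ (q * k) := fun p q k => by
    rw [(cab.zpow_zpow p q).mul_zpow, zpow_mul, zpow_mul]
  have dec : ∀ x ∈ Gn3 N [a, b], ∃ p q : ℤ,
      (x : G ⧸ N 3) = (a : G ⧸ N 3) ^ p * (b : G ⧸ N 3) ^ q := fun x hx => by
    refine Subgroup.closure_induction
      (p := fun (x : G) _ => ∃ p q : ℤ, (x : G ⧸ N 3) = (a : G ⧸ N 3) ^ p * (b : G ⧸ N 3) ^ q) ?_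
      ⟨0, 0, by simp⟩ ?_ ?_ hx
    · rintro z (hz | hz)
      · rcases List.mem_cons.1 hz with rfl | hz
        · exact ⟨1, 0, by simp⟩
        · rw [List.mem_singleton.1 hz]
          exact ⟨0, 1, by simp⟩
      · exact ⟨0, 0, by simpa using hz⟩
    · rintro u v _ _ ⟨p, q, e⟩ ⟨r, s, e'⟩
      exact ⟨p + r, q + s, by rw [QuotientGroup.mk_mul, e, e', pm]⟩
    · rintro u _ ⟨p, q, e⟩
      exact ⟨p * -1, q * -1, by rw [QuotientGroup.mk_inv, e, ← pz, zpow_neg_one]⟩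
  obtain ⟨p, q, e⟩ := dec _ hyy
  obtain ⟨α, hα⟩ := h2 a ha
  obtain ⟨β, hβ⟩ := h2 b hb2
  have hpq : p * α + q * β = 1 := by
    have ca := gt3_le y ha
    have cb := gt3_le y hb2
    have m1 : a ^ p * b ^ q ∈ Cy N y := mul_mem (zpow_mem ca p) (zpow_mem cb q)
    have m2 : (a ^ p * b ^ q)⁻¹ * (y * y) ∈ N 3 := QuotientGroup.eq.1 (by
      rw [e, QuotientGroup.mk_mul, QuotientGroup.mk_zpow, QuotientGroup.mk_zpow])
    have e1 := hl _ m1 _ (gt3_le y (h.anti 2 m2))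
    rw [mul_inv_cancel_left, hl _ (gt3_y y) _ (gt3_y y), hy1, h3 _ m2,
      hl _ (zpow_mem ca p) _ (zpow_mem cb q), gt5_zpow _ lam hl ca, gt5_zpow _ lam hl cb, hα,
      hβ] at e1
    linarith
  have yk : ∀ k : ℤ, y ^ (k + k) = (y * y) ^ k := fun k => by
    rw [zpow_add, (Commute.refl y).mul_zpow]
  have hz : a ^ β * b ^ (-α) ∈ N 2 := mul_mem (zpow_mem ha _) (zpow_mem hb2 _)
  have zk : ∀ (k : ℤ) (x : G), (x : G ⧸ N 3) = (a : G ⧸ N 3) ^ (β * k) * (b : G ⧸ N 3) ^ (-α * k) →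
      x ∈ Gn3 N [a ^ β * b ^ (-α)] := fun k x ex => by
    refine gt5_mem (gn3_le _) ?_ (zpow_mem (gn3_mem List.mem_cons_self) k)
    rw [ex, QuotientGroup.mk_zpow, QuotientGroup.mk_mul, QuotientGroup.mk_zpow,
      QuotientGroup.mk_zpow, pz]
  have s2 : Gn3 N ([a, b].map fun u => u * (y ^ lam u)⁻¹) ≤ Gn3 N [a ^ β * b ^ (-α)] := by
    refine gn3_sub (fun x hx => ?_) (gn3_le _)
    rw [List.map_cons, List.map_cons, List.map_nil, hα, hβ, yk, yk] at hx
    rcases List.mem_cons.1 hx with rfl | hx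
    · refine zk q _ ?_
      have e1 := pm 1 0 (p * -α) (q * -α)
      rw [zpow_one, zpow_zero, mul_one, ← pz, ← e] at e1
      rw [QuotientGroup.mk_mul, QuotientGroup.mk_inv, QuotientGroup.mk_zpow, ← zpow_neg, e1]
      congr 2
      · linarith
      · ring
    · rw [List.mem_singleton.1 hx]
      refine zk (-p) _ ?_
      have e1 := pm 0 1 (p * -β) (q * -β)
      rw [zpow_one, zpow_zero, one_mul, ← pz, ← e] at e1
      rw [QuotientGroup.mk_mul, QuotientGroup.mk_inv, QuotientGroup.mk_zpow, ← zpow_neg, e1]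
      congr 2
      · ring
      · linarith
  obtain ⟨g1, g2⟩ := dm_ker h (by omega) (Gn3 N [y, a, b]) (Gn3 N [a ^ β * b ^ (-α)])
    (gn3_mem List.mem_cons_self) hy lam l1 hy1 h3 (fun x _ hx => by
      obtain ⟨k, hk⟩ := h2 x hx
      rw [hk, yk]
      exact zpow_mem (s0 hyy) k) (fun x hx h0 =>
      s2 (ker_gen h sl hy (by simp [n21 ha, n21 hb2]) lam l1 hy1 h3 hx h0)) hg hgS
  exact dm_top h sl hd7 hd hb hz g2 g1

end Pool.Agent.GH
end
end

-- merged part: Pool.Agent.Work.MP_c00b06_gt.Fin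
section
-- merged part: Pool.Agent.Work.MP_c00b06_gt.Gen
section
/-! Letters generate the filtration; invertibility. -/

namespace Pool.Agent.GH
open Gn

variable {X : Wd → Wd → Prop}

/-- Products of letters of degree `k`. -/
inductive LP (k n : ℕ) : Cob X → Prop
  | one : LP k n (Et n)
  | mul {L g : Cob X} : Ltr k n L → LP k n g → LP k n (pr n L g)

theorem ltr_K {p n : ℕ} {l : List It} (hl : Val p (p + n) l) :
    (Et (p + n) * Ops l * E p : Cob X) = Et n := by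
  rw [mul_assoc, ops_E hl, Et_add, mul_assoc, Et_E, mul_one]

theorem Ltr.sim {k n : ℕ} {L : Cob X} (h : Ltr k n L) : Sim k L (Et n) := by
  obtain ⟨τ, l, rfl, hl, rfl⟩ := h
  exact ((sim_TT τ).left _).trans (Sim.of_eq (ltr_K hl))

theorem LP.ty {k n : ℕ} {g : Cob X} (h : LP k n g) : Ty 0 n g := by
  induction h with
  | one => exact Et_ty n
  | mul h _ ih => exact pr_ty h.ty ih

theorem LP.sim {k n : ℕ} {g : Cob X} (h : LP k n g) : Sim k g (Et n) := by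
  induction h with
  | one => exact Sim.refl _ _
  | mul h _ ih => exact (h.sim.pr ih).trans (Sim.of_eq (Et_pr n _))

theorem gen_rel (τ : Tr) {f g : Cob X} (h : Rel2 (· < τ.nn + 2) f g) :
    Sim (τ.nn + 1) (f * TT τ) (g * TT τ) := by
  have := h 1 τ.nn (TT τ * 1) fun a ha => dp_TT τ (Nat.le_of_lt_succ ha) 1
  rwa [one_mul, one_mul, mul_one] at this

theorem gen_r (τ : Tr) (n : ℕ) (z y : Cob X) :
    pr (τ.nn + 2 + n) z (y * Et (τ.nn + 2)) * TT τ = pr n (z * TT τ) y := by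
  rw [eta_r (TT_ty τ), Nat.zero_add, Et_zero, mul_one]

theorem gen_l (τ : Tr) (n : ℕ) (z y : Cob X) :
    pr (τ.nn + 2 + n) (y * Et (τ.nn + 2)) z * TT τ = pr n y (z * TT τ) := by
  rw [eta_l (TT_ty τ), Nat.zero_add, Et_zero, mul_one]

theorem gen_down {C : ℕ → Prop} (D : ℕ) (h0 : ∀ k, D ≤ k → C k) (hs : ∀ k, C (k + 1) → C k)
    (k : ℕ) : C k := by
  suffices ∀ j k, D ≤ k + j → C k from this D k (Nat.le_add_left _ _)
  intro j
  induction j with
  | zero => exact h0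
  | succ j ih => exact fun k hk => hs k (ih (k + 1) (by omega))

theorem gen_cancel {n : ℕ} {g x : Cob X} (hg : Un n g) (h : Un n (pr n g x)) : Un n x := by
  obtain ⟨b, rfl⟩ := hg
  obtain ⟨a, ha⟩ := h
  refine ⟨b⁻¹ * a, ?_⟩
  rw [vl_mul, ha, ← pr_assoc (vl_ty b), ← vl_mul, inv_mul_cancel, vl_one, Et_pr]

/-- A letter commutes with every state, one degree higher.  PLAN: with `p = k + 2`,
`K = Et (p + n) * Ops l`: `pr n L y = pr (p + n) K (y * Et p) * TT τ` (`eta_r`),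
`pr n y L = pr (p + n) (y * Et p) K * TT τ` (`eta_l`); `ops_pr_l`, `ops_pr_r`, `dp_TT`. -/
theorem Ltr.comm {k n : ℕ} {L : Cob X} (h : Ltr k n L) (y : Cob X) :
    Sim (k + 1) (pr n L y) (pr n y L) := by
  obtain ⟨τ, l, rfl, hl, rfl⟩ := h
  have h1 := ops_pr_l (X := X) hl (Et (τ.nn + 2 + n)) (y * Et (τ.nn + 2))
  have h2 := ops_pr_r (X := X) hl (y * Et (τ.nn + 2)) (Et (τ.nn + 2 + n))
  rw [Et_pr] at h1
  rw [pr_Et] at h2
  rw [← gen_r, ← gen_l]
  exact gen_rel τ (h1.trans h2.symm)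

variable [Snd X]

/-- PLAN: `nf0`, `ops_pr_l` with `z = Et`, `dp_TT`, `eta_r`. -/
theorem c_fwd {k n : ℕ} (τ : Tr) (hτ : τ.nn = k) {x : Cob X} (hx : Ty 0 (k + 2 + n) x)
    (hs : Std n (x * E (k + 2))) :
    ∃ L, Ltr k n L ∧ Sim (k + 1) (x * TT τ) (pr n L (x * E (k + 2))) := by
  subst hτ
  obtain ⟨l, hl, h⟩ := nf0 hx hs
  have h1 := ops_pr_l (X := X) hl (Et (τ.nn + 2 + n)) (x * E (τ.nn + 2) * Et (τ.nn + 2))
  rw [Et_pr] at h1
  refine ⟨_, ⟨τ, l, rfl, hl, rfl⟩, ?_⟩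
  rw [← gen_r]
  exact gen_rel τ (h.trans h1.symm)

/-- PLAN: `sim_lf`, induction on the chain, `c_fwd`, `std_sim`. -/
theorem ch {k n : ℕ} (hk : 1 ≤ k) {y y' : Cob X} (hy : Ty 0 n y) (hy' : Ty 0 n y') (hs : Std n y)
    (h : Sim k y y') : ∃ g, LP k n g ∧ Sim (k + 1) y' (pr n g y) := by
  have H := sim_lf hy hy' h
  clear hy' h
  induction H with
  | refl => exact ⟨_, LP.one, Sim.of_eq (Et_pr n y).symm⟩
  | tail _ hb ih =>
    obtain ⟨g, hg, h⟩ := ih
    obtain ⟨x, τ, hτ, hx, rfl, rfl⟩ := hb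
    have h1 : Sim k (x * E (k + 2)) y :=
      (sim_succ h).trans ((hg.sim.pr (Sim.refl k y)).trans (Sim.of_eq (Et_pr n y)))
    obtain ⟨L, hL, h2⟩ := c_fwd τ hτ hx (std_sim (sim_le hk h1.symm) hs)
    refine ⟨_, hg.mul hL, h2.trans ?_⟩
    rw [pr_assoc hg.ty]
    exact (Sim.refl _ L).pr h

variable {D : ℕ}

/-- PLAN: downward induction on `k` (`nil_sim` for `D ≤ k`): by `ch` every `x` of level `k` has
some `g` of level `k` with `pr n g x` of level `k + 1`, hence invertible; apply this to `g` too. -/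
theorem un_sim (hD : Nil D X) {k n : ℕ} (hk : 1 ≤ k) {x : Cob X} (hx : Ty 0 n x)
    (h : Sim k x (Et n)) : Un n x := by
  refine gen_down (C := fun k => 1 ≤ k → ∀ x : Cob X, Ty 0 n x → Sim k x (Et n) → Un n x) D
    (fun k hk _ x _ h => ⟨1, (nil_sim hD hk h).symm⟩) (fun k ih hk => ?_) k hk x hx h
  have key : ∀ x : Cob X, Ty 0 n x → Sim k x (Et n) → ∃ g, LP k n g ∧ Un n (pr n g x) := by
    intro x hx h
    obtain ⟨g, hg, h1⟩ := ch hk hx (Et_ty n) (std_sim (sim_le hk h.symm) (std_Et n)) h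
    exact ⟨g, hg, ih (Nat.succ_pos k) _ (pr_ty hg.ty hx) h1.symm⟩
  intro x hx h
  obtain ⟨g, hg, h1⟩ := key x hx h
  obtain ⟨g', hg', h2⟩ := key g hg.ty hg.sim
  exact gen_cancel (un_of_inv hg.ty hx hg'.ty h1 h2) h1

theorem un_sim' (hD : Nil D X) {n : ℕ} {x y : Cob X} (hy : Un n y) (hx : Ty 0 n x)
    (h : Sim 1 x y) : Un n x := by
  obtain ⟨g, rfl⟩ := hy
  refine gen_cancel ⟨g⁻¹, rfl⟩ (un_sim hD le_rfl (pr_ty (vl_ty _) hx) ?_)
  refine ((Sim.refl 1 _).pr h).trans (Sim.of_eq ?_)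
  rw [← vl_mul, inv_mul_cancel, vl_one]

/-- PLAN: downward induction on `k`; `ch` from `Et n` to `vl g`, `un_sim`, `mem_NN'`. -/
theorem nn_ind (hD : Nil D X) {k n : ℕ} (hk : 1 ≤ k) {p : Gp X n → Prop} (h1 : p 1)
    (hm : ∀ a b, p a → p b → p (a * b)) (hl : ∀ j, k ≤ j → ∀ g, Ltr j n (vl g) → p g)
    {g : Gp X n} (hg : g ∈ NN X n k) : p g := by
  refine gen_down (C := fun j => k ≤ j → ∀ g ∈ NN X n j, p g) D (fun j hj hk' g hg => ?_)
    (fun j ih hj g hg => ?_) k le_rfl g hg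
  · rw [vl_inj (g := g) (h := 1) (nil_sim hD hj ((mem_NN (hk.trans hk') g).1 hg))]
    exact h1
  · have hj1 := hk.trans hj
    obtain ⟨f, hf, h⟩ := ch hj1 (Et_ty n) (vl_ty g) (std_Et n) ((mem_NN hj1 g).1 hg).symm
    rw [pr_Et] at h
    obtain ⟨a, rfl, ha⟩ : ∃ a : Gp X n, vl a = f ∧ p a := by
      clear h
      induction hf with
      | one => exact ⟨1, rfl, h1⟩
      | mul hL _ ih =>
        obtain ⟨a, rfl, ha⟩ := ih
        obtain ⟨b, rfl⟩ := un_sim hD hj1 hL.ty hL.sim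
        exact ⟨b * a, rfl, hm _ _ (hl j hj b hL) ha⟩
    rw [← mul_inv_cancel_left a g]
    exact hm _ _ ha (ih (by omega) _ ((mem_NN' (Nat.succ_pos j) a g).2 h.symm))

theorem cen (hD : Nil D X) {k n : ℕ} (hk : 1 ≤ k) {g : Gp X n} (hg : g ∈ NN X n k) {y : Cob X}
    (hy : Ty 0 n y) : Sim (k + 1) (pr n (vl g) y) (pr n y (vl g)) := by
  refine nn_ind hD hk (p := fun g => Sim (k + 1) (pr n (vl g) y) (pr n y (vl g)))
    (Sim.of_eq ((Et_pr n y).trans (pr_Et n y).symm)) (fun a b ha hb => ?_)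
    (fun j hj g h => sim_le (Nat.succ_le_succ hj) (h.comm y)) hg
  rw [vl_mul, pr_assoc (vl_ty b), ← pr_assoc (vl_ty a)]
  refine ((Sim.refl _ _).pr hb).trans ?_
  rw [← pr_assoc hy]
  exact ha.pr (Sim.refl _ _)

/-- PLAN: `ops_pr_l`, `ops_neg`, `ops_neg'`, `un_sim`, `un_of_inv`. -/
theorem un_ops (hD : Nil D X) {p N : ℕ} {l : List It} (hl : Val p N l) :
    Un N (Et N * Ops l : Cob X) := by
  have t1 : Ty 0 N (Et N * Ops l : Cob X) := (Et_ty N).mul (NL.Ops hl).ty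
  have t2 : Ty 0 N (Et N * Ops (l.map It.neg) : Cob X) := (Et_ty N).mul (NL.Ops hl.neg).ty
  refine un_of_inv t1 t2 t2 (un_sim hD le_rfl (pr_ty t1 t2) ?_)
    (un_sim hD le_rfl (pr_ty t2 t1) ?_)
  · refine (ops_pr_l hl _ _).sim.trans ?_
    rw [Et_pr, mul_assoc]
    exact ((ops_neg' (M := fun _ => True) l fun _ _ => trivial).sim.left _).trans
      (Sim.of_eq (mul_one _))
  · refine (ops_pr_l hl.neg _ _).sim.trans ?_
    rw [Et_pr, mul_assoc]
    exact ((ops_neg (M := fun _ => True) l fun _ _ => trivial).sim.left _).trans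
      (Sim.of_eq (mul_one _))

/-- PLAN: if `vl g = x * E p`, multiply `x` by the unit `vl g⁻¹ * Et p` (`hm_Et0`); the product
`x'` has `x' * E p = Et n` (`hm_E0`); `nf0`, `std_Et`, `un_ops`, `un_sim'`. -/
theorem unit_of_E (hD : Nil D X) {p n : ℕ} {x : Cob X} (hx : Ty 0 (p + n) x)
    (h : Un n (x * E p)) : Un (p + n) x := by
  obtain ⟨g, hg⟩ := h
  have hu : Un (p + n) (vl g⁻¹ * Et p) := Un.hm ⟨g⁻¹, rfl⟩ (hm_Et0 p n)
  have t : Ty 0 (p + n) (pr (p + n) (vl g⁻¹ * Et p) x) :=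
    pr_ty ((vl_ty _).mul (hm_Et0 p n).1) hx
  have e : pr (p + n) (vl g⁻¹ * Et p) x * E p = Et n := by
    rw [(hm_E0 p n).pr, mul_assoc, Et_E, mul_one, ← hg, ← vl_mul, inv_mul_cancel, vl_one]
  obtain ⟨l, hl, h⟩ := nf0 t (by rw [e]; exact std_Et n)
  rw [e, ← Et_add] at h
  exact gen_cancel hu (un_sim' hD (un_ops hD hl) t h.sim)

/-- PLAN: `U_mk`, `run_app`. -/
theorem U_mul {Γ : Type} [CommGroup Γ] {f g : Cob X} (hf : U Γ f) (hg : U Γ g)
    (h : ∀ c, R Γ f 1 c → R Γ g c 1 → c = 1) : U Γ (f * g) := by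
  induction f using ind with | h x => ?_
  induction g using ind with | h y => ?_
  obtain ⟨Φ⟩ := run_app (Γ := Γ) x y 1 1
  have kx := (U_mk x).1 hf
  have ky := (U_mk y).1 hg
  rw [← mk_app, U_mk, Φ.subsingleton_congr]
  refine ⟨fun ⟨b, r, s⟩ ⟨b', r', s'⟩ => ?_⟩
  obtain rfl := h b ((R_mk x _ _).2 ⟨r⟩) ((R_mk y _ _).2 ⟨s⟩)
  obtain rfl := h b' ((R_mk x _ _).2 ⟨r'⟩) ((R_mk y _ _).2 ⟨s'⟩)
  rw [kx.elim r r', ky.elim s s']

omit [Snd X] in
theorem gen_det (n : ℕ) : Det (fl n) := by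
  induction n with
  | zero => exact det_nil
  | succ n ih => exact det_cons 0 u (by simp) ih

/-- PLAN: `U_mul`; the word `fl n` is `Det` (`det_cons`); `R_mul`, `R_E`. -/
theorem std_E {n : ℕ} {x : Cob X} (h : Std n x) : Std 0 (x * E n) := by
  intro Γ _
  refine ⟨U_mul (h Γ).1 ?_ fun c h1 h2 => (h Γ).2 c h1 ((R_E n _ _).1 h2).1, fun c hc _ => ?_⟩
  · rw [← mk_fl, U_mk]
    exact gen_det n Γ 1 1
  · obtain ⟨b, h1, h2⟩ := (R_mul _ _ _ _).1 hc
    obtain ⟨h3, rfl⟩ := (R_E n _ _).1 h2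
    rw [(h Γ).2 b h1 h3]
    rfl

/-- PLAN: `std_E`, `m1` for `x * E n` give `y`; `Un 0 (x * E n)` by `un_sim`, `un_of_inv`,
`pr_comm_zero`; then `unit_of_E` with `n = 0`. -/
theorem std_unit (hD : Nil D X) {n : ℕ} {x : Cob X} (hx : Ty 0 n x) (h : Std n x) : Un n x := by
  have t : Ty 0 0 (x * E n) := hx.mul (E_ty n)
  obtain ⟨y, hy, h1⟩ := m1 t (std_E h)
  have h2 : Un 0 (pr 0 (x * E n) y) := by
    refine un_sim hD le_rfl (pr_ty t hy) ?_
    rwa [pr, up_zero, Mu_zero, mul_one, Et_zero]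
  exact unit_of_E (p := n) (n := 0) hD hx (un_of_inv t hy hy h2 (pr_comm_zero t ▸ h2))

end Pool.Agent.GH
end

-- merged part: Pool.Agent.Work.MP_c00b06_gt.K1a
section
/-! Clasps between a letter and a Y-graph. -/

namespace Pool.Agent.GH
open Gn

variable {X : Wd → Wd → Prop}

/-- PLAN: split `E p * Et p` around the position `a` or induct on `p`; `Ma_farL`, `Ma_farR`,
`Ma_add`, `ax_mu`. -/
theorem Ma_del (o p a : ℕ) : (Ma a * up o (E p * Et p) : Cob X) =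
    if o ≤ a ∧ a < o + p then G u 0 * up o (E p * Et p) else up (o + 1) (E p * Et p) * Ma a := by
  split_ifs with h
  · obtain ⟨c, rfl⟩ : ∃ c, a = o + c := ⟨a - o, by omega⟩
    have k := B_upE (X := X) true 1 o
    rw [rr_u] at k
    rw [Ma_add, mul_assoc, ← map_mul, ← mul_assoc (Ma c), itm_MaE (by omega), E_succ,
      mul_assoc (G u 0), map_mul, ← mul_assoc, k]
  · rcases Nat.lt_or_ge a o with h1 | h1
    · exact Ma_farR h1 _
    · obtain ⟨c, rfl⟩ : ∃ c, a = o + p + c := ⟨a - (o + p), by omega⟩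
      rw [Ma_farL (((E_ty p).mul (Et_ty p)).up o), up_up, Nat.add_comm 1 o]

theorem op_del (o p : ℕ) (t : It) (h : t.fst < o) : (t.op * up o (E p * Et p) : Cob X) =
    if o ≤ t.snd ∧ t.snd < o + p then up o (E p * Et p) else up o (E p * Et p) * t.op := by
  cases t with
  | c s a b =>
    have e1 : (cw s * G u 1 : Cob X) = G e 0 := by
      cases s
      · refine (mul_assoc _ _ _).trans ((congrArg _ (far_G T u 0 1 le_rfl)).trans ?_)
        exact (mul_assoc _ _ _).symm.trans ((congrArg (· * G T 0) wuR).trans eT)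
      · exact (congrArg (· * _) (mul_one _)).trans wuR
    have e2 := far (X := X) (Ty.G e 0 (p := 0) (q := 1) le_rfl rfl) o (E p * Et p)
    have e3 := far (X := X) (NL.cw s).ty o (E p * Et p)
    rw [Nat.zero_add] at e2 e3
    rw [It.op, mul_assoc, Ma_farR (a := a) h, ← mul_assoc, mul_assoc (cw s), Nat.add_comm o 1,
      ← up_up, ← map_mul, Ma_del]
    change _ = if o ≤ b ∧ b < o + p then _ else _
    split_ifs with h1
    · rw [map_mul, up_G, ← mul_assoc, e1, up_up, e2, mul_assoc, e_Ma, mul_one]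
    · rw [map_mul, up_up, ← mul_assoc, show 1 + (o + 1) = 2 + o by omega, e3]
      simp only [mul_assoc]
  | v s a =>
    have e3 := far (X := X) (NL.vw s).ty o (E p * Et p)
    rw [Nat.zero_add] at e3
    have h' : a < o := h
    rw [if_neg (c := o ≤ (It.v s a).snd ∧ _) (fun k => absurd k.1 (not_le.2 h')), It.op, mul_assoc,
      Ma_farR h', ← mul_assoc, Nat.add_comm o 1, e3, mul_assoc]

theorem k1a_del (o p : ℕ) (l : List It) (h : ∀ t ∈ l, t.fst < o) :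
    (Ops l * up o (E p * Et p) : Cob X) = up o (E p * Et p) *
      Ops (l.filter fun t => !decide (o ≤ t.snd ∧ t.snd < o + p)) := by
  induction l with
  | nil => rw [List.filter_nil, Ops_nil, one_mul, mul_one]
  | cons t l ih =>
    rw [Ops_cons, mul_assoc, ih fun t' ht => h t' (by simp [ht]), ← mul_assoc,
      op_del o p t (h t (by simp))]
    split_ifs with h1
    · rw [List.filter_cons_of_neg (by simpa using h1)]
    · rw [List.filter_cons_of_pos (by rw [decide_eq_false h1]; rfl), Ops_cons, mul_assoc]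

theorem k1a_bad (τ : Tr) {p : ℕ} {Ψ : Cob X} (hΨ : ∀ a < p, Dp 1 a Ψ) (l : List It)
    (h : ∀ t ∈ l, t.fst < τ.nn + 2 ∧ τ.nn + 2 ≤ t.snd ∧ t.snd < τ.nn + 2 + p) (F : Cob X) :
    Sim (τ.nn + 1) (F * Ops l * TT τ * Ψ) (F * TT τ * Ψ) := by
  induction l generalizing F with
  | nil => rw [Ops_nil, mul_one]; exact Sim.refl _ _
  | cons t l ih =>
    rw [Ops_cons, ← mul_assoc]
    refine (ih (fun t' ht => h t' (by simp [ht])) _).trans ?_
    obtain ⟨h1, h2, h3⟩ := h t (by simp)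
    cases t with
    | c s a b =>
      simp only [It.fst, It.snd] at h1 h2 h3
      obtain ⟨c, rfl⟩ : ∃ c, b = τ.nn + 2 + c := ⟨b - (τ.nn + 2), by omega⟩
      exact xl_last τ s (by omega) (hΨ c (by omega)) F
    | v s a =>
      simp only [It.fst, It.snd] at h1 h2
      omega

/-- The strands of a letter of degree `k` that go to places of depth one can be removed, one
degree higher.  PLAN: `L = Et * Ops l * TT τ`; let `good` be the items of `l` whose second leg is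
not in `[k + 2, k + 2 + p)` and `bad` the others (clasps).  `ops_perm` with `dp_TT` moves `bad` to
the end, `xl_last` removes its items from the end, and
`L * E p * Et p = Et * Ops good * TT τ` (`far`, `op_del`, `hm_E`, `hm_Et`). -/
theorem xla {k n p : ℕ} {L : Cob X} (h : Ltr k n L) (hp : p ≤ n) {Ψ : Cob X}
    (hΨ : ∀ a < p, Dp 1 a Ψ) (F : Cob X) :
    Sim (k + 1) (F * L * Ψ) (F * (L * (E p * Et p)) * Ψ) := by
  obtain ⟨τ, l, rfl, hl, rfl⟩ := h
  obtain ⟨r, rfl⟩ : ∃ r, n = p + r := ⟨n - p, by omega⟩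
  have e1 := far (X := X) (TT_ty τ) 0 (E p * Et p)
  rw [Nat.add_zero, up_zero, Nat.add_zero] at e1
  have e2 : (Et (τ.nn + 2 + (p + r)) * up (τ.nn + 2) (E p * Et p) : Cob X) =
      Et (τ.nn + 2 + (p + r)) := by
    rw [map_mul, ← mul_assoc, ← Nat.add_assoc, (hm_E _ p r).2.2, (hm_Et _ p r).2.2]
  have pm := (List.perm_append_comm.trans (List.filter_append_perm
    (fun t : It => decide (τ.nn + 2 ≤ t.snd ∧ t.snd < τ.nn + 2 + p)) l)).symm
  have k1 := ops_perm (X := X) (M := (· < τ.nn + 2)) pm (fun t ht => (hl t ht).1)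
    (F * Et (τ.nn + 2 + (p + r))) τ.nn (TT τ * Ψ) fun a ha => dp_TT τ (by omega) Ψ
  rw [Ops_app, ← mul_assoc, ← mul_assoc, ← mul_assoc] at k1
  have k2 := k1.trans (k1a_bad τ hΨ _ (fun t ht => ⟨(hl t (List.mem_filter.1 ht).1).1,
    of_decide_eq_true (List.mem_filter.1 ht).2⟩) _)
  rw [mul_assoc _ (TT τ) (E p * Et p), e1, ← mul_assoc _ (up _ _) (TT τ),
    mul_assoc _ (Ops l) (up _ _), k1a_del _ p l fun t ht => (hl t ht).1,
    ← mul_assoc (Et _) (up _ _), e2]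
  simpa only [mul_assoc] using k2

variable [Snd X] {D : ℕ}

/-- PLAN: `nn_ind` for the property: for all typed `y z`,
`pr y (pr (vl g) z) * Ψ` and `pr y (pr (vl g * (E p * Et p)) z) * Ψ` are `Sim (b + 1)`; for a
letter use `xla` with the continuation `up N z * Mu N * y * Mu N * Ψ` (`far` moves `y` to the
right; `DP.farR`, `DP.Mu_l`, `DP.farL`, `DP.Mu_r`); `E p * Et p` is multiplicative (`hm_E0`,
`hm_Et0`). -/
theorem xla_nn (hD : Nil D X) {b p n : ℕ} (hb : 1 ≤ b) {g : Gp X (p + n)}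
    (hg : g ∈ NN X (p + n) b) {Ψ : Cob X} (hΨ : ∀ a < p, Dp 1 a Ψ) {y : Cob X}
    (hy : Ty 0 (p + n) y) :
    Sim (b + 1) (pr (p + n) y (vl g) * Ψ) (pr (p + n) y (vl g * (E p * Et p)) * Ψ) := by
  have hδ : Hm (p + n) (p + n) (E p * Et p : Cob X) := hm_mul (hm_E0 p n) (hm_Et0 p n)
  have key := nn_ind hD hb (p := fun g => ∀ y, Ty 0 (p + n) y → ∀ z,
    Sim (b + 1) (pr (p + n) y (pr (p + n) (vl g) z) * Ψ)
      (pr (p + n) y (pr (p + n) (vl g * (E p * Et p)) z) * Ψ)) ?_ ?_ ?_ hg y hy (Et (p + n))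
  · rwa [pr_Et, pr_Et] at key
  · intro y _ z
    rw [vl_one, hδ.2.2]
    exact Sim.refl _ _
  · intro a c ha hc y hy z
    have t1 := (vl_ty a).mul hδ.1
    have t2 := (vl_ty c).mul hδ.1
    rw [vl_mul, hδ.pr, pr_assoc (vl_ty c), pr_assoc t2]
    refine (ha y hy _).trans ?_
    rw [← pr_assoc t1, ← pr_assoc t1]
    exact hc _ (pr_ty hy t1) z
  · intro j hj g hL y hy z
    have e : ∀ w : Cob X, pr (p + n) y (pr (p + n) w z) * Ψ =
        1 * w * (up (p + n) z * (Mu (p + n) * (y * (Mu (p + n) * Ψ)))) := fun w => by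
      have k := far hy 0 (pr (p + n) w z)
      rw [Nat.add_zero, Nat.add_zero, up_zero] at k
      rw [pr, k, pr]
      simp only [mul_assoc, one_mul]
    rw [e, e]
    refine sim_le (Nat.succ_le_succ hj) (xla hL (Nat.le_add_right p n) (fun a ha => ?_) 1)
    have ha' : a < p + n := by omega
    exact (DP.farR ha' z).dp ((DP.Mu_l ha').dp ((dp1_cast (DP.farL hy a) (Nat.zero_add a) rfl).dp
      ((DP.Mu_r ha').dp (hΨ a ha))))

/-- PLAN: `x`, `x'` are units (`unit_of_E`), `g = x⁻¹ x'` is in `NN b` and `vl g * E 3 = Et n`;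
`xla_nn` with `Ψ = TT Y1` (`dp_TT`). -/
theorem k1_Y (hD : Nil D X) {b n : ℕ} (hb : 1 ≤ b) {x x' : Cob X} (hx : Ty 0 (3 + n) x)
    (hx' : Ty 0 (3 + n) x') (h : Sim b x x') (hE : x * E 3 = x' * E 3) (hu : Un n (x * E 3)) :
    Sim (b + 1) (x * TT Y1) (x' * TT Y1) := by
  obtain ⟨g, rfl⟩ := unit_of_E hD hx hu
  obtain ⟨g', rfl⟩ := unit_of_E hD hx' (hE ▸ hu)
  have e1 : (hm_E0 (X := X) 3 n).gp g = (hm_E0 3 n).gp g' := vl_inj hE
  have e2 : vl (g⁻¹ * g') * E 3 = Et n := by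
    rw [← Hm.vl_gp (hm_E0 3 n), map_mul, map_inv, e1, inv_mul_cancel, vl_one]
  have k := xla_nn hD hb ((mem_NN' hb g g').2 h) (Ψ := TT Y1)
    (fun a ha => mul_one (TT Y1 : Cob X) ▸ dp_TT Y1 (Nat.le_of_lt_succ ha) 1) hx
  rw [← vl_mul, mul_inv_cancel_left, ← mul_assoc, e2, ← Et_add, pr_Et] at k
  exact k.symm

/-- The same at an offset.  PLAN: apply `k1_Y` to `x * B true o 3` (`natL`). -/
theorem k1_Y_at (hD : Nil D X) {b o n : ℕ} (hb : 1 ≤ b) {x x' : Cob X} (hx : Ty 0 (o + 3 + n) x)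
    (hx' : Ty 0 (o + 3 + n) x') (h : Sim b x x') (hE : x * up o (E 3) = x' * up o (E 3))
    (hu : Un (o + n) (x * up o (E 3))) :
    Sim (b + 1) (x * up o (TT Y1)) (x' * up o (TT Y1)) := by
  have e : ∀ f : Cob X, Ty 3 0 f → ∀ z : Cob X, z * B true o 3 * f = z * up o f := fun f hf z => by
    rw [mul_assoc, natL true o hf, B_zero_right, mul_one]
  have tB : Ty (o + 3 + n) (3 + (o + n)) (B true o 3 : Cob X) :=
    (B_ty true o 3).wide (by omega) (by omega)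
  have k := k1_Y hD hb (hx.mul tB) (hx'.mul tB) (h.right _)
    (by rw [e _ (E_ty 3), e _ (E_ty 3), hE]) (by rwa [e _ (E_ty 3)])
  rwa [e _ (TT_ty Y1), e _ (TT_ty Y1)] at k

end Pool.Agent.GH
end

-- merged part: Pool.Agent.Work.MP_c00b06_gt.K1b
section
/-! Degrees add up; commutators gain one more degree. -/

namespace Pool.Agent.GH
open Gn

variable {X : Wd → Wd → Prop}

/-- The statement for a tree. -/
def K1 (X : Wd → Wd → Prop) (τ : Tr) : Prop :=
  ∀ (b n : ℕ) (x x' : Cob X), 1 ≤ b → Ty 0 (τ.nn + 2 + n) x → Ty 0 (τ.nn + 2 + n) x' → Sim b x x' →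
    x * E (τ.nn + 2) = x' * E (τ.nn + 2) → Un n (x * E (τ.nn + 2)) →
      Sim (b + τ.nn) (x * TT τ) (x' * TT τ)

/-- The statement for the first leaf, attached to the root of `τ`. -/
def K2 (X : Wd → Wd → Prop) (τ : Tr) : Prop :=
  ∀ (b n : ℕ) (x x' : Cob X), 1 ≤ b → Ty 0 (τ.nn + 2 + n) x → Ty 0 (τ.nn + 2 + n) x' → Sim b x x' →
    x * G u 0 = x' * G u 0 → Un n (x * E (τ.nn + 2)) →
      Sim (b + τ.nn) (x * (up 1 (Rt τ) * Ev)) (x' * (up 1 (Rt τ) * Ev))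

theorem k1b_u (f : Cob X) : up 1 f * G u 0 = G u 0 * f := by
  have := far_Gf u 0 0 le_rfl f
  rw [up_zero] at this
  exact this.symm

theorem k1b_E2 (f : Cob X) : up 1 f * E 2 = G u 0 * (f * G u 0) := by
  rw [E_succ, ← mul_assoc, k1b_u, sim1_one, mul_assoc]

theorem k1b_wT (τ : Tr) : (G w (τ.nn + 1) * TT τ : Cob X) = Rt τ := by
  have e1 : (Rt τ * G w 1 : Cob X) = G w (τ.nn + 1) * Rt τ := sim1_far0 τ (G w 0)
  rw [TT, ← mul_assoc, ← e1, mul_assoc, zL, mul_one]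

theorem k1b_wE (p : ℕ) : (G w p * E (p + 1) : Cob X) = E p * G e 0 := by
  have e1 : (E p * G e 0 : Cob X) = G e p * E p := far (E_ty p) 0 (G e 0)
  have e2 : (G w p * G u p : Cob X) = G e p := congrArg (up p) (wuL (X := X))
  rw [e1, ← e2, ← E_ins (le_refl p), mul_assoc]

/-- A copairing after `q` handles, its free leg brought to the front. -/
def k1b_H (q : ℕ) : Cob X := G w q * B true (q + 1) 1

theorem k1b_Hnl (q : ℕ) : NL q (q + 2) (k1b_H q : Cob X) :=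
  (NL.G w (by decide) q (q := q + 2) le_rfl rfl).mul ((NL.B true (q + 1) 1).wide le_rfl (by omega))

theorem k1b_HF {q : ℕ} {F : Cob X} (hF : Ty (q + 1) 0 F) : k1b_H q * up 1 F = G w q * F := by
  rw [k1b_H, mul_assoc, ← natR true 1 hF, B_zero_left, mul_one]

def k1b_O (p q : ℕ) : Cob X :=
  up 1 (G w p * up (p + 2) (k1b_H q) * B true (p + 1) 2 * G P 0 * G S 0)

theorem k1b_Z {Φ : Cob X} (hΦ : Ty 3 0 Φ) : Ty 3 0 (G P 1 * G S 1 * Φ) :=
  ((Ty.G P 1 (q := 3) le_rfl rfl).mul (Ty.G S 1 (by decide) rfl)).mul hΦ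

theorem k1b_OF (p q : ℕ) {Φ F : Cob X} (hΦ : Ty 3 0 Φ) (hF : Ty (p + 1) 0 F) :
    k1b_O p q * Φ * F = up 1 (G w p * F * up 1 (k1b_H q)) * (G P 1 * G S 1 * Φ) := by
  have e1 := far (k1b_Z hΦ) 0 F
  have e2 := far hF 1 (k1b_H q)
  have e3 := natR true 2 hF
  rw [up_zero] at e1
  rw [B_zero_left, mul_one] at e3
  rw [mul_assoc (G w p), e2, ← mul_assoc (G w p)]
  conv_rhs => rw [e3]
  rw [← mul_assoc _ _ (up 2 F), map_mul _ _ (up 2 F), up_up, mul_assoc _ (up _ F), ← e1, k1b_O]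
  simp only [map_mul, up_G, mul_assoc]

theorem k1b_OG (p q : ℕ) {Φ F F' : Cob X} (hΦ : Ty 3 0 Φ) (hF : Ty (p + 1) 0 F)
    (hF' : Ty (q + 1) 0 F') :
    k1b_O p q * Φ * F * F' = up 1 (G w p * F * up 1 (G w q * F')) * (G P 1 * G S 1 * Φ) := by
  have e1 := far (k1b_Z hΦ) 0 F'
  rw [up_zero] at e1
  rw [k1b_OF p q hΦ hF, mul_assoc, e1, ← k1b_HF hF']
  simp only [map_mul, up_up, mul_assoc]

theorem k1b_OE (p q : ℕ) {Φ : Cob X} (hΦ : Ty 3 0 Φ) (h : G e 2 * Φ = E 2) :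
    k1b_O p q * Φ * E (p + 1) = G u 0 * (E p * k1b_H q * G u 0) := by
  have e1 : (G e 0 * up 1 (k1b_H q) : Cob X) = k1b_H q * G e 0 :=
    (far_Gf e 0 1 le_rfl _).trans (congrArg (· * G e 0) (up_zero _))
  have e2 : (G e 1 * G P 1 : Cob X) = G e 2 := by
    have := congrArg (up 1) (Et_B (X := X) true 1 1)
    rwa [B_one_one, Et_succ, Et_zero, one_mul] at this
  have e3 : (G S 1 * G e 2 : Cob X) = G e 2 * G S 1 := far_G S e 1 2 le_rfl
  have e4 : (G S 1 * E 2 : Cob X) = E 2 := nl_E (NL.G S (by decide) 1 le_rfl rfl)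
  rw [k1b_OF p q hΦ (E_ty _), k1b_wE, mul_assoc (E p), e1, ← mul_assoc (E p), map_mul, up_G,
    mul_assoc, ← mul_assoc (G e _), ← mul_assoc (G e _), e2, ← e3, mul_assoc (G S 1), h, e4, k1b_E2]

theorem k1b_OEE (p q : ℕ) {Φ : Cob X} (hΦ : Ty 3 0 Φ) (h : G e 2 * Φ = E 2) :
    k1b_O p q * Φ * E (p + 1) * E (q + 1) = E (p + q + 1) := by
  rw [k1b_OE p q hΦ h, mul_assoc, mul_assoc, mul_assoc, ← E_succ, nl_E (k1b_Hnl q), ← E_add,
    ← E_succ]



/-- Cut a tree at the node next to the first leaf.  PLAN: with `p = σ.nn + 1`, `q = ρ.nn + 1`,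
`Rt σ = G w p * TT σ` (`zL`), the same for `ρ`; `up 1 Y * Ev = P1 S1 Y0 ev0` (invert `CY1`);
`O` creates the two copairings, brings their free legs to the positions `1, 2` by braids
(naturality of `TT σ`, `TT ρ`) and applies `P1 S1`.  For the other equations use that a trivial
leaf kills a tree (`e_TT`, `wuL`, `wuR`).  `O0`, `O1`, `O2` are what is left after `G u 0`. -/
theorem cut (σ ρ : Tr) : ∃ O O0 O1 O2 : Cob X,
    Ty (σ.nn + ρ.nn + 3) (3 + (σ.nn + 2) + (ρ.nn + 2)) O ∧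
    up 1 (Rt (.nd σ ρ)) * Ev = O * TT Y1 * TT σ * TT ρ ∧
    O * E 3 = G u 0 * O0 ∧ O * TT Y1 * E (σ.nn + 2) = G u 0 * O1 ∧
    O * TT Y1 * TT σ * E (ρ.nn + 2) = G u 0 * O2 ∧
    O * E 3 * E (σ.nn + 2) * E (ρ.nn + 2) = E (σ.nn + ρ.nn + 3) ∧
    O * TT Y1 * E (σ.nn + 2) * E (ρ.nn + 2) = E (σ.nn + ρ.nn + 3) ∧
    O * TT Y1 * TT σ * E (ρ.nn + 2) = E (σ.nn + ρ.nn + 3) := by
  have e1 : (G e 2 * TT Y1 : Cob X) = E 2 := e_TT Y1 le_rfl
  have e2 : (G e 2 * E 3 : Cob X) = E 2 := nl_E (NL.G e (by decide) 2 le_rfl rfl)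
  have e3 : (G e 2 * (G P 1 * G S 1 * TT Y1) : Cob X) = E 2 := by
    have a1 : (G e 2 * G P 1 : Cob X) = G e 1 := by
      have := congrArg (up 1) (upEt_B (X := X) true 1 1)
      rwa [B_one_one, Et_succ, Et_zero, one_mul] at this
    have a2 : (G e 1 * G S 1 : Cob X) = G e 1 := congrArg (up 1) (eS (X := X))
    rw [← mul_assoc, ← mul_assoc, a1, a2]
    exact e_TT Y1 (by decide)
  have e4 : (G P 1 * G S 1 * TT Y1 : Cob X) = up 1 Y * Ev := by
    have a1 : (G S 1 * G T 1 : Cob X) = 1 := congrArg (up 1) (ax_ST (X := X))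
    have a2 : (G P 1 * G Q 1 : Cob X) = 1 := congrArg (up 1) (ax_PQ (X := X))
    rw [TT_Y1, CY1]
    simp only [← mul_assoc]
    rw [mul_assoc _ (G S 1), a1, mul_one, a2, one_mul]
  have e5 : σ.nn + 1 + (ρ.nn + 1) + 1 = σ.nn + ρ.nn + 3 := by omega
  have e6 : (k1b_O (σ.nn + 1) (ρ.nn + 1) * TT Y1 * TT σ * E (ρ.nn + 2) : Cob X) =
      E (σ.nn + ρ.nn + 3) := by
    rw [k1b_OG _ _ (TT_ty Y1) (TT_ty σ) (E_ty _), k1b_wT, k1b_wE, map_mul _ (E _), ← mul_assoc (Rt σ),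
      map_mul, up_up, up_G, mul_assoc, e3, k1b_E2, mul_assoc (Rt σ), k1b_u, ← mul_assoc (Rt σ), Rt_u,
      ← E_add, ← E_succ, e5]
  refine ⟨k1b_O (σ.nn + 1) (ρ.nn + 1), _, _, E (σ.nn + ρ.nn + 2), ?_, ?_,
    (mul_assoc _ _ (E 2)).symm.trans ((congrArg (· * E 2) (k1b_u _)).trans (mul_assoc _ _ _)),
    k1b_OE _ _ (TT_ty Y1) e1, e6, e5 ▸ k1b_OEE _ _ (E_ty 3) e2, e5 ▸ k1b_OEE _ _ (TT_ty Y1) e1, e6⟩
  · refine Ty.at (p := σ.nn + ρ.nn + 2) (q := σ.nn + ρ.nn + 6) ?_ 1 (by omega) (by omega)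
    exact ((((Ty.G w _ (q := σ.nn + ρ.nn + 4) (by simp only [Gn.ar]; omega) rfl).mul
      ((k1b_Hnl _).ty.at _ (q' := σ.nn + ρ.nn + 6) (by omega) (by omega))).mul
      ((B_ty true _ 2).wide (q' := σ.nn + ρ.nn + 6) (by omega) (by omega))).mul
      (Ty.G P 0 (q := σ.nn + ρ.nn + 6) (by simp [Gn.ar]) rfl)).mul (Ty.G S 0 (by simp [Gn.ar]) rfl)
  · rw [k1b_OG _ _ (TT_ty Y1) (TT_ty σ) (TT_ty ρ), k1b_wT, k1b_wT, e4, Rt_nd, map_mul _ _ Y,
      mul_assoc]

variable [Snd X] {D : ℕ}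

/-- PLAN: `cut`; `k1_Y` for `x * O`, then `K1 σ`, then `K1 ρ`; the invertibility hypotheses come
from `unit_of_E` (with `E_add`). -/
theorem k2_nd (hD : Nil D X) {σ ρ : Tr} (hσ : K1 X σ) (hρ : K1 X ρ) : K2 X (.nd σ ρ) := by
  intro b n x x' hb hx hx' hs hE hu
  obtain ⟨O, O0, O1, O2, h1, h2, h3, h4, h5, h6, h7, h8⟩ := cut (X := X) σ ρ
  have hO : Ty ((Tr.nd σ ρ).nn + 2 + n) (3 + (σ.nn + 2 + (ρ.nn + 2 + n))) O :=
    h1.wide (by simp only [Tr.nn]; omega) (by simp only [Tr.nn]; omega)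
  have t1 : ∀ {f : Cob X}, Ty 3 0 f →
      Ty (3 + (σ.nn + 2 + (ρ.nn + 2 + n))) (σ.nn + 2 + (ρ.nn + 2 + n)) f :=
    fun h => h.wide (by omega) (by omega)
  have t2 : ∀ {f : Cob X}, Ty (σ.nn + 2) 0 f →
      Ty (σ.nn + 2 + (ρ.nn + 2 + n)) (ρ.nn + 2 + n) f := fun h => h.wide (by omega) (by omega)
  have eq : ∀ {f g : Cob X}, f = G u 0 * g → x * f = x' * f := by
    rintro _ g rfl
    rw [← mul_assoc, hE, mul_assoc]
  have un : ∀ {f : Cob X}, f = E (σ.nn + ρ.nn + 3) → Un n (x * f) := by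
    rintro _ rfl
    exact hu
  have s1 := k1_Y hD hb (hx.mul hO) (hx'.mul hO) (hs.right O)
    (by simpa only [mul_assoc] using eq h3)
    (unit_of_E hD ((hx.mul hO).mul (t1 (E_ty 3))) (unit_of_E hD
      (((hx.mul hO).mul (t1 (E_ty 3))).mul (t2 (E_ty _))) (by simpa only [mul_assoc] using un h6)))
  have s2 := hσ (b + 1) _ _ _ (by omega) ((hx.mul hO).mul (t1 (TT_ty Y1)))
    ((hx'.mul hO).mul (t1 (TT_ty Y1))) s1 (by simpa only [mul_assoc] using eq h4)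
    (unit_of_E hD (((hx.mul hO).mul (t1 (TT_ty Y1))).mul (t2 (E_ty _)))
      (by simpa only [mul_assoc] using un h7))
  have s3 := hρ (b + 1 + σ.nn) n _ _ (by omega)
    (((hx.mul hO).mul (t1 (TT_ty Y1))).mul (t2 (TT_ty σ)))
    (((hx'.mul hO).mul (t1 (TT_ty Y1))).mul (t2 (TT_ty σ))) s2
    (by simpa only [mul_assoc] using eq h5) (by simpa only [mul_assoc] using un h8)
  rw [h2, show b + (Tr.nd σ ρ).nn = b + 1 + σ.nn + ρ.nn by simp only [Tr.nn]; omega]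
  simpa only [mul_assoc] using s3

omit [Snd X] in
theorem k1b_step {τ : Tr} (h : ∀ τ' : Tr, τ'.nn = τ.nn → K2 X τ') {b n t : ℕ} {x x' : Cob X}
    (hb : 1 ≤ b) (ht : t ≤ τ.nn + 1) (hx : Ty 0 (τ.nn + 2 + n) x) (hx' : Ty 0 (τ.nn + 2 + n) x')
    (hs : Sim b x x') (hE : x * G u t = x' * G u t) (hu : Un n (x * E (τ.nn + 2))) :
    Sim (b + τ.nn) (x * TT τ) (x' * TT τ) := by
  obtain ⟨g, τ', h1, h2, h3⟩ := rr (X := X) τ ht
  have h4 : TG (τ.nn + 2) (B false t 1 * up 1 g : Cob X) := by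
    have := tg_at (tg_B (X := X) false t 1) 0 (q := τ.nn + 2) (by omega)
    rw [up_zero] at this
    exact tg_mul this (tg_at h2 1 (by omega))
  have h5 : (B false t 1 * up 1 g * G u 0 : Cob X) = G u t * g := by
    have := B_E (X := X) false t 1
    rw [sim1_one] at this
    rw [mul_assoc, k1b_u, ← mul_assoc, this]
    rfl
  have h6 := h4.1.pad n
  have := h τ' h1 b n (x * (B false t 1 * up 1 g)) (x' * (B false t 1 * up 1 g)) hb
    (h1 ▸ hx.mul h6) (h1 ▸ hx'.mul h6) (hs.right _)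
    (by rw [mul_assoc, mul_assoc x', h5, ← mul_assoc, hE, mul_assoc])
    (by rw [h1, mul_assoc, h4.2]; exact hu)
  rw [h1] at this
  rw [h3]
  simpa only [map_mul, mul_assoc] using this



/-- PLAN: let `p = τ.nn + 2`, `x`, `x'` units (`unit_of_E`), `γ = x⁻¹ x'`,
`x_t = pr x (vl γ * (E t * Et t))` for `t ≤ p`; `x_0 = x'`, `x_p = x`, all `Sim b` to `x`,
`x_t * G u t = x_(t+1) * G u t` (`hm_u`), `x_t * E p = x * E p`.  For the pair `x_t`, `x_(t+1)`
re-root at leaf `t` (`rr`) and apply `K2 τ'` to `x_t * B false t 1 * up 1 g`. -/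
theorem k1_of_k2 (hD : Nil D X) {τ : Tr} (h : ∀ τ' : Tr, τ'.nn = τ.nn → K2 X τ') : K1 X τ := by
  intro b n x x' hb hx hx' hs hE hu
  obtain ⟨a, rfl⟩ := unit_of_E hD hx hu
  obtain ⟨a', rfl⟩ := unit_of_E hD hx' (hE ▸ hu)
  obtain ⟨c, rfl⟩ : ∃ c, a' = a * c := ⟨a⁻¹ * a', by group⟩
  have c1 : Sim b (vl c) (Et (τ.nn + 2 + n)) := by
    have := (mem_NN' hb _ _).2 hs
    rwa [inv_mul_cancel_left, mem_NN hb] at this
  have c2 : vl c * E (τ.nn + 2) = Et n := by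
    have : (hm_E0 (τ.nn + 2) n).gp a = (hm_E0 (τ.nn + 2) n).gp (a * c) := vl_inj hE
    rw [map_mul, left_eq_mul] at this
    exact congrArg vl this
  have hm : ∀ t ≤ τ.nn + 2, Hm (τ.nn + 2 + n) (τ.nn + 2 + n) (E t * Et t : Cob X) := fun t ht =>
    mu1_cast (hm_mul (hm_E0 t (τ.nn + 2 + n - t)) (hm_Et0 t _)) (by omega) (by omega)
  have ty : ∀ t ≤ τ.nn + 2, Ty 0 (τ.nn + 2 + n)
      (pr (τ.nn + 2 + n) (vl a) (vl c * (E t * Et t))) := fun t ht =>
    pr_ty hx ((vl_ty c).mul (hm t ht).1)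
  have sm : ∀ t ≤ τ.nn + 2, Sim b (pr (τ.nn + 2 + n) (vl a) (vl c * (E t * Et t))) (vl a) := by
    intro t ht
    have := (Sim.refl b (vl a)).pr (n := τ.nn + 2 + n) (c1.right (E t * Et t))
    rwa [(hm t ht).2.2, pr_Et] at this
  have H : ∀ t ≤ τ.nn + 2, Sim (b + τ.nn) (pr (τ.nn + 2 + n) (vl a) (vl c * (E t * Et t)) * TT τ)
      (vl (a * c) * TT τ) := by
    intro t
    induction t with
    | zero => exact fun _ => .of_eq (by rw [E_zero, Et_zero, mul_one, mul_one, vl_mul])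
    | succ t ih =>
      intro ht
      refine (k1b_step h hb (t := t) (by omega) (ty t (by omega)) (ty _ ht)
        ((sm t (by omega)).trans (sm _ ht).symm) ?_ ?_).symm.trans (ih (by omega))
      · have e0 : Hm (τ.nn + 2 + n) (τ.nn + 1 + n) (G u t : Cob X) :=
          mu1_cast (hm_u (N := τ.nn + 1 + n) (by omega)) (by omega) rfl
        have e1 : (Et t * G u t : Cob X) = G u 0 * Et t := far (Et_ty t) 0 (G u 0)
        have e2 : (G e t * G u t : Cob X) = 1 := congrArg (up t) (ax_eu (X := X))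
        have e3 : (E t * Et t * G u t : Cob X) = E (t + 1) * Et (t + 1) * G u t := by
          rw [mul_assoc, e1, ← Et_ins (le_refl t), mul_assoc, mul_assoc, e2, mul_one, E_add,
            sim1_one, mul_assoc]
        rw [e0.pr, e0.pr, mul_assoc (vl c), mul_assoc (vl c), e3]
      · obtain ⟨r, hr⟩ := Nat.exists_eq_add_of_le (Nat.le_of_succ_le ht)
        have e1 : (E t * Et t * E (τ.nn + 2) : Cob X) = E (τ.nn + 2) := by
          rw [hr, E_add, ← mul_assoc, mul_assoc (E t), Et_E, mul_one]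
        rw [(hm_E0 (τ.nn + 2) n).pr, mul_assoc (vl c), e1, c2, pr_Et]
        exact hu
  have := H _ le_rfl
  rwa [← mul_assoc, c2, ← Et_add, pr_Et] at this

/-- PLAN: strong induction on `τ.nn`; `K2 lf` is trivial. -/
theorem k1 (hD : Nil D X) (τ : Tr) : K1 X τ := by
  induction h : τ.nn using Nat.strong_induction_on generalizing τ with
  | _ k ih =>
    refine k1_of_k2 hD fun τ' h' => ?_
    cases τ' with
    | lf => exact fun b n x x' _ _ _ hs _ _ => hs.right _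
    | nd σ ρ =>
      simp only [Tr.nn] at h'
      exact k2_nd hD (ih σ.nn (by omega) σ rfl) (ih ρ.nn (by omega) ρ rfl)

/-- PLAN: `nn_ind` on `h` (the elements whose commutator with every `g ∈ NN i` is in
`NN (i + j + 1)` are closed under products, by `NN_conj`).  For a letter `vl h = K * TT τ`,
`K = Et * Ops l`, apply `k1` to `pr K (vl g * Et p)` and `pr (vl g * Et p) K` (`cen` for the image
of `g` under `hm_Et0`, `ltr_K`, `hm_E0`), and `eta_l`, `eta_r`. -/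
theorem slack (hD : Nil D X) (n i j : ℕ) (hi : 1 ≤ i) (hj : 1 ≤ j) (g : Gp X n)
    (hg : g ∈ NN X n i) (h : Gp X n) (hh : h ∈ NN X n j) :
    g * h * g⁻¹ * h⁻¹ ∈ NN X n (i + j + 1) := by
  refine nn_ind hD hj (p := fun h => g * h * g⁻¹ * h⁻¹ ∈ NN X n (i + j + 1)) ?_ ?_ ?_ hh
  · simpa using (NN X n (i + j + 1)).one_mem
  · intro a b ha hb
    have := (NN X n (i + j + 1)).mul_mem ha (NN_conj hb a)
    convert this using 1
    group
  · rintro _ hk h ⟨τ, r, rfl, h1, h2⟩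
    have hK : Ty 0 (τ.nn + 2 + n) (Et (τ.nn + 2 + n) * Ops r : Cob X) :=
      (Et_ty _).mul (NL.Ops h1).ty
    have hg' := (hm_Et0 (τ.nn + 2) n).mem_NN hg
    have s1 := cen hD hi hg' hK
    have t1 := vl_ty ((hm_Et0 (τ.nn + 2) n).gp g)
    rw [Hm.vl_gp] at s1 t1
    have e1 : pr (τ.nn + 2 + n) (vl g * Et (τ.nn + 2)) (Et (τ.nn + 2 + n) * Ops r) *
        E (τ.nn + 2) = vl g := by
      rw [(hm_E0 (τ.nn + 2) n).pr, ltr_K h1, pr_Et, mul_assoc, Et_E, mul_one]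
    have e2 : pr (τ.nn + 2 + n) (Et (τ.nn + 2 + n) * Ops r) (vl g * Et (τ.nn + 2)) *
        E (τ.nn + 2) = vl g := by
      rw [(hm_E0 (τ.nn + 2) n).pr, ltr_K h1, Et_pr, mul_assoc, Et_E, mul_one]
    have s2 := k1 hD τ (i + 1) n _ _ (by omega) (pr_ty t1 hK) (pr_ty hK t1) s1 (e1.trans e2.symm)
      ⟨g, e1.symm⟩
    rw [eta_l (TT_ty τ), eta_r (TT_ty τ), ← h2, Et_zero, mul_one, Nat.zero_add, ← vl_mul,
      ← vl_mul] at s2
    have s3 := NN_conj ((mem_NN' (k := i + j + 1) (by omega) _ _).2 (sim_le (by omega) s2.symm))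
      (h * g)
    convert s3 using 1
    group

theorem fl_NN (hD : Nil D X) (n : ℕ) : Fl (NN X n) := by
  refine ⟨NN_zero n, NN_anti n, fun i j x hx y hy => ?_⟩
  rcases Nat.eq_zero_or_pos i with rfl | hi
  · rw [Nat.zero_add]
    exact (NN X n j).mul_mem (NN_conj hy x) ((NN X n j).inv_mem hy)
  rcases Nat.eq_zero_or_pos j with rfl | hj
  · have := (NN X n i).mul_mem hx (NN_conj ((NN X n i).inv_mem hx) y)
    rwa [← mul_assoc, ← mul_assoc] at this
  exact NN_anti n _ (slack hD n i j hi hj x hx y hy)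

end Pool.Agent.GH
end

-- merged part: Pool.Agent.Work.MP_c00b06_gt.D1b
section
/-! Degree one: a Y-graph is determined by its linking matrix, additively. -/

namespace Pool.Agent.GH
open Gn

variable {X : Wd → Wd → Prop}

/-- `g` is, up to degree two, the surgery along a Y-graph with linking matrix `A`. -/
def Ph (n : ℕ) (A : ℕ → ℕ → ℤ) (g : Cob X) : Prop :=
  ∃ h : Cob X, NL 0 (3 + n) h ∧ h * E 3 = Et n ∧ Lk (3 + n) h A ∧ Sim 2 g (h * TT Y1)

variable {n : ℕ} {A A' A'' : ℕ → ℕ → ℤ} {g g' g'' : Cob X}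

theorem ph_sim (h : Ph n A g) (hs : Sim 2 g' g) : Ph n A g' := by
  obtain ⟨x, h1, h2, h3, h4⟩ := h
  exact ⟨x, h1, h2, h3, hs.trans h4⟩

/-- PLAN: `sim_TT`, `sim_le`. -/
theorem ph_one (h : Ph n A g) : Sim 1 g (Et n) := by
  obtain ⟨x, -, h2, -, h4⟩ := h
  exact (sim_le (by norm_num) h4).trans (((sim_TT Y1).left x).trans (Sim.of_eq h2))

variable [Snd X]

omit [Snd X] in
theorem d1b_TT : Ty 3 0 (TT Y1 : Cob X) := TT_ty Y1

omit [Snd X] in
theorem d1b_self {h : Cob X} (h1 : NL 0 (3 + n) h) (h2 : h * E 3 = Et n) (h3 : Lk (3 + n) h A) :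
    Ph n A (h * TT Y1) := ⟨h, h1, h2, h3, Sim.refl _ _⟩

omit [Snd X] in
theorem d1b_ty {h : Cob X} (h1 : Ty 0 (3 + n) h) : Ty 0 n (h * TT Y1) :=
  h1.mul (d1b_TT.wide (by omega) (by omega))

omit [Snd X] in
theorem d1b_mod {k : Cob X} (h : Ph n A g) (hk : NL 3 3 k) (hT : k * TT Y1 = TT Y1)
    (hL : ∀ x : Cob X, Lk (3 + n) x A → Lk (3 + n) (x * k) A') : Ph n A' g := by
  obtain ⟨x, h1, h2, h3, h4⟩ := h
  refine ⟨x * k, h1.mul (hk.wide (by omega) (by omega)), ?_, hL x h3, ?_⟩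
  · rw [mul_assoc, nl_E hk, h2]
  · rwa [mul_assoc, hT]

omit [Snd X] in
theorem d1b_far {F : Cob X} (hF : Ty 3 0 F) (c : Gn) (i : ℕ) : G c (3 + i) * F = F * G c i := by
  have := far hF i (G c 0)
  rw [up_G, up_G, Nat.zero_add, Nat.add_zero, Nat.add_zero] at this
  exact this.symm

omit [Snd X] in
theorem d1b_eu (i : ℕ) : (G e i * G u i : Cob X) = 1 := congrArg (up i) ax_eu

omit [Snd X] in
theorem d1b_EtP {i : ℕ} (hi : i + 1 < n) : (Et n * G P i : Cob X) = Et n := by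
  obtain ⟨r, rfl⟩ : ∃ r, n = r + 1 + 1 := ⟨n - 2, by omega⟩
  have e1 : (G e 0 * G P 0 : Cob X) = G e 1 := by
    have := Et_B (X := X) true 1 1
    rwa [B_one_one, Et_succ, Et_zero, one_mul] at this
  have e2 : (G e i * G P i : Cob X) = G e (i + 1) := congrArg (up i) e1
  rw [← Et_ins (i := i) (p := r + 1) (by omega), mul_assoc, e2, Et_ins (by omega),
    Et_ins (by omega)]

theorem d1b_sq (i x : ℕ) : sgn i x * sgn i x = 1 := by
  unfold sgn
  split_ifs <;> norm_num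

theorem d1b_sg (x : ℕ) : sgn 1 x * sgn 0 x * sgn 1 (Equiv.swap 1 2 x) = sg3 x := by
  rcases x with _ | _ | _ | x
  · decide
  · decide
  · decide
  · rw [Equiv.swap_apply_of_ne_of_ne (by omega) (by omega)]
    unfold sgn sg3
    rw [if_neg (by omega), if_neg (by omega), if_neg (by omega)]
    norm_num

/-- PLAN: `exists_list`, `h = Et (p + n) * Ops l`, `ltr_K`, `lk_ops`, `lk_Et`, `lk_congr`. -/
theorem ph_mat (p n : ℕ) (H : ℕ → ℕ → ℤ) (hH : ∀ i j, H i j = H j i)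
    (h0 : ∀ i j, p ≤ i → p ≤ j → H i j = 0) :
    ∃ h : Cob X, NL 0 (p + n) h ∧ h * E p = Et n ∧ Lk (p + n) h H := by
  obtain ⟨l, hl, -, h⟩ := exists_list p (p + n) H hH
  refine ⟨Et (p + n) * Ops l, (NL.Et _).mul (NL.Ops hl), ltr_K hl,
    lk_congr (lk_ops (lk_Et _) hl) fun x hx y hy => ?_⟩
  rw [zero_add, h x hx y hy]
  split_ifs with c
  · rfl
  · exact (h0 x y (by omega) (by omega)).symm

/-- PLAN: `bh` with `p = 3`, `dp_TT Y1`. -/
theorem ph_uniq (h : Ph n A g) (h' : Ph n A g') : Sim 2 g g' := by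
  obtain ⟨x, h1, h2, h3, h4⟩ := h
  obtain ⟨x', h1', h2', h3', h4'⟩ := h'
  exact h4.trans ((gen_rel Y1
    (bh h1 h1' (Nat.le_add_right 3 n) (h2.trans h2'.symm) h3 h3')).trans h4'.symm)

/-- PLAN: `ph_mat` gives `h0`; take `h0 * G u 0 * G e 0` (`lk_ue`, `e_TT`). -/
theorem ph_zero (hA : Adm n A) (h : ∀ j, A 0 j = 0) : Ph n A (Et n : Cob X) := by
  obtain ⟨x, h1, h2, h3⟩ := ph_mat (X := X) 3 n A hA.1 hA.2.1
  have e1 : (G e 0 * TT Y1 : Cob X) = E 2 := e_TT Y1 (Nat.zero_le _)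
  refine ⟨x * G u 0 * G e 0, (h1.mul (NL.G u (by decide) 0 (q := 2 + n) (by simp [Gn.ar]; omega)
    (by simp [Gn.ar, Gn.co]; omega))).mul (NL.G e (by decide) 0 (by simp [Gn.ar])
      (by simp [Gn.ar, Gn.co]; omega)), ?_, lk_congr (lk_ue h3 (by omega)) fun a _ b _ => ?_,
    Sim.of_eq ?_⟩
  · rw [E_succ 2, mul_assoc, ← mul_assoc (G e 0), ax_eu, one_mul, mul_assoc, ← E_succ, h2]
  · split_ifs with c
    · rcases c with rfl | rfl
      · exact (h b).symm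
      · rw [hA.1, h]
    · rfl
  · rw [mul_assoc, e1, mul_assoc, ← E_succ, h2]

/-- PLAN: `TS01`, `lk_T`, `lk_cr`, `lk_S`, `nl_E` (`E 3` after a typed morphism without `l`). -/
theorem ph_s01 (h : Ph n A g) : Ph n (s01 A) g := by
  refine d1b_mod (k := G T 0 * G T 0 * G Q 0 * G S 2) h ?_ ?_ fun x hx => ?_
  · exact (((NL.G T (by decide) 0 (q := 3) (by decide) (by decide)).mul
      (NL.G T (by decide) 0 (q := 3) (by decide) (by decide))).mul
      (NL.G Q (by decide) 0 (q := 3) (by decide) (by decide))).mul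
      (NL.G S (by decide) 2 (by decide) (by decide))
  · rw [TT_Y1, ← mul_assoc]
    exact TS01.symm
  · have := lk_S (lk_cr false (lk_T (lk_T hx (i := 0) (by omega)) (i := 0) (by omega)) (i := 0)
      (by omega)) (i := 2) (by omega)
    rw [← mul_assoc, ← mul_assoc, ← mul_assoc]
    refine lk_congr this fun a _ b _ => ?_
    have ha := d1b_sq 0 (Equiv.swap 0 1 a)
    have hb := d1b_sq 0 (Equiv.swap 0 1 b)
    show _ * (sgn 0 (Equiv.swap 0 1 a) * sgn 0 (Equiv.swap 0 1 b) *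
      (sgn 0 (Equiv.swap 0 1 a) * sgn 0 (Equiv.swap 0 1 b) *
        A (Equiv.swap 0 1 a) (Equiv.swap 0 1 b))) = _ * A (Equiv.swap 0 1 a) (Equiv.swap 0 1 b)
    congr 1
    rw [← mul_assoc, mul_mul_mul_comm, ha, hb, one_mul, one_mul]

/-- PLAN: `TS12`. -/
theorem ph_s12 (h : Ph n A g) : Ph n (s12 A) g := by
  refine d1b_mod (k := G T 1 * G Q 1 * G S 0 * G T 1) h ?_ ?_ fun x hx => ?_
  · exact (((NL.G T (by decide) 1 (q := 3) (by decide) (by decide)).mul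
      (NL.G Q (by decide) 1 (q := 3) (by decide) (by decide))).mul
      (NL.G S (by decide) 0 (q := 3) (by decide) (by decide))).mul
      (NL.G T (by decide) 1 (by decide) (by decide))
  · rw [TT_Y1, ← mul_assoc]
    exact TS12
  · have := lk_T (lk_S (lk_cr false (lk_T hx (i := 1) (by omega)) (i := 1) (by omega)) (i := 0)
      (by omega)) (i := 1) (by omega)
    rw [← mul_assoc, ← mul_assoc, ← mul_assoc]
    refine lk_congr this fun a _ b _ => ?_
    show sgn 1 a * sgn 1 b * (sgn 0 a * sgn 0 b * (sgn 1 (Equiv.swap 1 2 a) *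
      sgn 1 (Equiv.swap 1 2 b) * A (Equiv.swap 1 2 a) (Equiv.swap 1 2 b))) =
        sg3 a * sg3 b * A (Equiv.swap 1 2 a) (Equiv.swap 1 2 b)
    rw [← d1b_sg a, ← d1b_sg b]
    ring

/-- PLAN: `h * G P (3 + i)`, `far`, `lk_cr`; `Et n * G P i = Et n`. -/
theorem ph_cr (h : Ph n A g) {i : ℕ} (hi : i + 1 < n) :
    Ph n (fun x y => A (Equiv.swap (3 + i) (3 + i + 1) x) (Equiv.swap (3 + i) (3 + i + 1) y))
      (g * G P i) := by
  obtain ⟨x, h1, h2, h3, h4⟩ := h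
  refine ⟨x * G P (3 + i), h1.mul (NL.G P (by decide) _ (by simp [Gn.ar]; omega)
    (by simp [Gn.ar, Gn.co])), ?_, lk_cr true h3 (by omega), ?_⟩
  · rw [mul_assoc, d1b_far (E_ty 3), ← mul_assoc, h2, d1b_EtP hi]
  · rw [mul_assoc, d1b_far d1b_TT, ← mul_assoc]
    exact h4.right _

/-- PLAN: `ph_mat` gives `h0`; take `h = h0 * G u (3 + i) * G e (3 + i)` and `g = h * TT Y1`
(`lk_ue`, `far`, `Et_ins`, `ax_eu`). -/
theorem ph_supp (hA : Adm n A) {i : ℕ} (hi : i < n) (h : ∀ j, A j (3 + i) = 0) :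
    ∃ g : Cob X, Ty 0 n g ∧ Ph n A g ∧ g * (G u i * G e i) = g := by
  obtain ⟨x, h1, h2, h3⟩ := ph_mat (X := X) 3 n A hA.1 hA.2.1
  have k1 : NL 0 (3 + n) (x * G u (3 + i) * G e (3 + i)) :=
    (h1.mul (NL.G u (by decide) _ (q := 2 + n) (by simp [Gn.ar]; omega)
      (by simp [Gn.ar, Gn.co]; omega))).mul (NL.G e (by decide) _ (by simp [Gn.ar]; omega)
        (by simp [Gn.ar, Gn.co]; omega))
  refine ⟨x * G u (3 + i) * G e (3 + i) * TT Y1, d1b_ty k1.ty, d1b_self k1 ?_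
    (lk_congr (lk_ue h3 (by omega)) fun a _ b _ => ?_), ?_⟩
  · obtain ⟨r, rfl⟩ : ∃ r, n = r + 1 := ⟨n - 1, by omega⟩
    rw [mul_assoc, d1b_far (E_ty 3), ← mul_assoc, mul_assoc x, d1b_far (E_ty 3), ← mul_assoc, h2,
      ← Et_ins (i := i) (p := r) (by omega), mul_assoc (Et r), d1b_eu, mul_one]
  · split_ifs with c
    · rcases c with rfl | rfl
      · rw [hA.1, h]
      · exact (h a).symm
    · rfl
  · rw [← mul_assoc, mul_assoc _ (TT Y1), ← d1b_far d1b_TT, ← mul_assoc, mul_assoc _ (TT Y1),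
      ← d1b_far d1b_TT, ← mul_assoc, mul_assoc _ (G e (3 + i)) (G u (3 + i)), d1b_eu, mul_one]

/-- PLAN: the tree is `Y1`; `A = lkl l`; `lkl_symm`, `lkl_low`, `lkl_out`, `ltr_K`. -/
theorem ph_letter (h : Ltr 1 n g) : ∃ A, Adm n A ∧ Ph n A g := by
  obtain ⟨τ, l, hτ, hl, rfl⟩ := h
  obtain rfl : τ = Y1 := by
    rcases τ with _ | ⟨_ | _, _ | _⟩
    · cases hτ
    · rfl
    all_goals simp only [Tr.nn] at hτ; omega
  exact ⟨lkl l, ⟨lkl_symm l, fun i j hi hj => lkl_low hl hi hj,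
    fun i j hj => lkl_out hl (Or.inr hj)⟩, d1b_self ((NL.Et _).mul (NL.Ops hl)) (ltr_K hl)
      (lk_congr (lk_ops (lk_Et _) hl) fun x _ y _ => zero_add _)⟩

variable {D : ℕ}

/-- PLAN: `ph_mat`, `ph_one`, `un_sim`. -/
theorem ph_ex (hD : Nil D X) (hA : Adm n A) : ∃ x : Gp X n, Ph n A (vl x) := by
  obtain ⟨x, h1, h2, h3⟩ := ph_mat (X := X) 3 n A hA.1 hA.2.1
  have k := d1b_self h1 h2 h3
  obtain ⟨y, hy⟩ := un_sim hD le_rfl (d1b_ty h1.ty) (ph_one k)
  exact ⟨y, hy ▸ k⟩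

/-- The two copies of the leaves `1` and `2`. -/
def d1b_c : Cob X := G d 2 * G P 0 * G P 1 * G d 4 * G P 1 * G P 2 * G P 3 * G P 0 * G P 1 * G P 2

omit [Snd X] in
theorem d1b_cty : Ty 4 6 (d1b_c : Cob X) :=
  Ty.mk (x := [(2, d), (0, P), (1, P), (4, d), (1, P), (2, P), (3, P), (0, P), (1, P), (2, P)])
    (by simp [Ok, Gn.ar, Gn.co])

omit [Snd X] in
theorem d1b_cE : (d1b_c * E 3 : Cob X) = G u 0 := d1b_add3

omit [Snd X] in
theorem d1b_cE' : (d1b_c * up 3 (E 3) : Cob X) = G u 1 := d1b_add4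

omit [Snd X] in
theorem d1b_split (h : Cob X) : Sim 2 (h * G m 0 * TT Y1) (h * d1b_c * TT Y1 * TT Y1) := by
  have k := act_rem (dp_zero 0 (up 1 Y * G d 2 * up 1 Ev * Ev : Cob X))
    (lit_Y0 (lit_zero 1 (h * G d 0 * G d 3 * G P 1 * G P 2)))
  rw [up_zero] at k
  have e1 := congrArg (h * ·) (d1b_add (X := X))
  have e2 := congrArg (h * ·) (d1b_add2 (X := X))
  simp only [TT_Y1, d1b_c, ← mul_assoc] at k e1 e2 ⊢
  rw [e1, ← e2]
  exact k

/-- Splitting of leaf `0`.  PLAN: `d1b_add`, `act_rem` (with `lit_Y0`, `lit_zero`, `dp_zero`),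
`d1b_add2` give `Sim 2 (h * m0 * TT) (x * TT * TT)` for
`x = h * d2 P0 P1 d4 * (P1 P2 P3 P0 P1 P2)`, and `x * E 3 = h * u0` (`d1b_add3`),
`x * TT * E 3 = h * u1 * TT =: g` (`far`, `d1b_add4`).  Apply `k1_Y` with `b = 1` to `x * TT` and
`z = pr (3 + n) (g * Et 3) (h * u0)` (`sim_TT`, `un_sim`, `hm_E0`, `E_ins`), then `eta_l` with
`q = 0`. -/
theorem add0 (hD : Nil D X) {h : Cob X} (hh : Ty 0 (4 + n) h) (hE : h * E 4 = Et n) :
    Sim 2 (h * G m 0 * TT Y1) (pr n (h * G u 1 * TT Y1) (h * G u 0 * TT Y1)) := by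
  have hx : Ty 0 (3 + (3 + n)) (h * d1b_c) := hh.mul (d1b_cty.wide (by omega) (by omega))
  have hu : ∀ i, i ≤ 3 → Ty 0 (3 + n) (h * G u i) := fun i hi =>
    hh.mul (Ty.G u i (by simp [Gn.ar]; omega) (by simp [Gn.ar, Gn.co]; omega))
  have huE : ∀ i, i ≤ 3 → h * G u i * E 3 = Et n := fun i hi => by rw [mul_assoc, E_ins hi, hE]
  have hg : Ty 0 n (h * G u 1 * TT Y1) := d1b_ty (hu 1 (by omega))
  have hs : Sim 1 (h * G u 1 * TT Y1) (Et n) :=
    ((sim_TT Y1).left _).trans (Sim.of_eq (huE 1 (by omega)))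
  have e1 : h * d1b_c * TT Y1 * E 3 = h * G u 1 * TT Y1 := by
    have := far (d1b_TT (X := X)) 0 (E 3)
    rw [up_zero] at this
    rw [mul_assoc, this, ← mul_assoc, mul_assoc h, d1b_cE']
  have e2 : pr (3 + n) (h * G u 1 * TT Y1 * Et 3) (h * G u 0) * E 3 = h * G u 1 * TT Y1 := by
    rw [eta_l (E_ty 3), Nat.zero_add, Et_zero, mul_one, huE 0 (by omega), pr_Et]
  have k := k1_Y hD le_rfl (d1b_ty hx)
    (pr_ty (hg.mul ((Et_ty 3).wide (q' := 3 + n) (by omega) (by omega))) (hu 0 (by omega))) ?_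
    (e1.trans e2.symm) (e1 ▸ un_sim hD le_rfl hg hs)
  · exact (d1b_split h).trans (k.trans (Sim.of_eq (gen_l Y1 n _ _)))
  · refine ((sim_TT Y1).left _).trans ((Sim.of_eq ?_).trans
      ((hs.right (Et 3)).pr (Sim.refl 1 (h * G u 0))).symm)
    rw [← Et_add, Et_pr]
    exact (mul_assoc _ _ _).trans (congrArg (h * ·) d1b_cE)

/-- The linking matrix before the first two leaves are joined. -/
def d1b_H (A A' A'' : ℕ → ℕ → ℤ) (r : ℤ) : ℕ → ℕ → ℤ
  | 0, 0 => A' 0 0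
  | 0, 1 => r
  | 1, 0 => r
  | 1, 1 => A'' 0 0
  | 0, j + 2 => A' 0 (j + 1)
  | 1, j + 2 => A'' 0 (j + 1)
  | i + 2, 0 => A' 0 (i + 1)
  | i + 2, 1 => A'' 0 (i + 1)
  | i + 2, j + 2 => A (i + 1) (j + 1)

theorem d1b_s00 : skip 1 0 = 0 := rfl

theorem d1b_s1 (x : ℕ) : skip 1 (x + 1) = x + 2 := if_neg (by omega)

theorem d1b_s0 (x : ℕ) : skip 0 x = x + 1 := rfl

/-- PLAN: `ph_mat 4 n H` with `H 0 0 = A' 0 0`, `H 1 1 = A'' 0 0`,
`2 * H 0 1 = A 0 0 - A' 0 0 - A'' 0 0`, `H 0 (j + 1) = A' 0 j`, `H 1 (j + 1) = A'' 0 j`,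
`H (i + 1) (j + 1) = A i j` for `i, j ≥ 1`; `lk_m`, `lk_u`, `add0`, `ph_uniq`. -/
theorem ph_add (hD : Nil D X) (hA : Adm n A) (hA' : Adm n A') (hA'' : Adm n A'')
    (h : AddR A A' A'') (h' : Ph n A' g') (h'' : Ph n A'' g'') : Ph n A (pr n g' g'') := by
  obtain ⟨a1, a2, r, a3⟩ := h
  obtain ⟨x, h1, h2, h3⟩ := ph_mat (X := X) 4 n (d1b_H A A' A'' r) (fun i j => by
    rcases i with _ | _ | i <;> rcases j with _ | _ | j <;> first | rfl | exact hA.1 _ _)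
    (fun i j hi hj => by
      obtain ⟨i, rfl⟩ : ∃ k, i = k + 2 := ⟨i - 2, by omega⟩
      obtain ⟨j, rfl⟩ : ∃ k, j = k + 2 := ⟨j - 2, by omega⟩
      exact hA.2.1 _ _ (by omega) (by omega))
  have h4 : Lk (3 + n + 1) x (d1b_H A A' A'' r) := by
    rwa [show 3 + n + 1 = 4 + n by omega]
  have hu : ∀ i, i ≤ 3 → NL 0 (3 + n) (x * G u i) := fun i hi =>
    h1.mul (NL.G u (by decide) i (by simp [Gn.ar]; omega) (by simp [Gn.ar, Gn.co]; omega))
  have huE : ∀ i, i ≤ 3 → x * G u i * E 3 = Et n := fun i hi => by rw [mul_assoc, E_ins hi, h2]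
  have p1 : Ph n A' (x * G u 1 * TT Y1) := by
    refine d1b_self (hu 1 (by omega)) (huE 1 (by omega))
      (lk_congr (lk_u h4 (by omega)) fun a _ b _ => ?_)
    rcases a with _ | a <;> rcases b with _ | b <;> simp only [d1b_s00, d1b_s1, d1b_H]
    · exact hA'.1 _ _
    · exact (a1 _ _ (by omega) (by omega)).1.symm
  have p2 : Ph n A'' (x * G u 0 * TT Y1) := by
    refine d1b_self (hu 0 (by omega)) (huE 0 (by omega))
      (lk_congr (lk_u h4 (by omega)) fun a _ b _ => ?_)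
    rcases a with _ | a <;> rcases b with _ | b
    · rfl
    · rfl
    · exact hA''.1 _ _
    · exact (a1 _ _ (by omega) (by omega)).2.symm
  have p3 : Ph n A (x * G m 0 * TT Y1) := by
    have k : NL 4 3 (G m 0 : Cob X) := NL.G m (by decide) 0 (by decide) (by decide)
    refine d1b_self (h1.mul (k.wide (by omega) (by omega))) (by rw [mul_assoc, nl_E k, h2])
      (lk_congr (lk_m h4 (i := 0) (by omega)) fun a _ b _ => ?_)
    rcases a with _ | a <;> rcases b with _ | b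
    · show A' 0 0 + r + r + A'' 0 0 = A 0 0
      omega
    · show d1b_H A A' A'' r 0 (skip 1 (b + 1)) + d1b_H A A' A'' r 1 (skip 1 (b + 1)) + 0 + 0 = _
      rw [d1b_s1, a2 _ (by omega), add_zero, add_zero]
      rfl
    · show d1b_H A A' A'' r (skip 1 (a + 1)) 0 + 0 + d1b_H A A' A'' r (skip 1 (a + 1)) 1 + 0 = _
      rw [d1b_s1, hA.1, a2 _ (by omega), add_zero, add_zero]
      rfl
    · show d1b_H A A' A'' r (skip 1 (a + 1)) (skip 1 (b + 1)) + 0 + 0 + 0 = _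
      rw [d1b_s1, d1b_s1, add_zero, add_zero, add_zero]
      rfl
  exact ph_sim p3 (((ph_uniq h' p1).pr (ph_uniq h'' p2)).trans (add0 hD h1.ty h2).symm)

end Pool.Agent.GH
end

-- merged part: Pool.Agent.Work.MP_c00b06_gt.U34
section
/-! Unitriangular groups of size three and four. -/

namespace Pool.Agent.GH
open Gn

/-- Upper unitriangular integral matrices of size three. -/
structure U3 where
  a : ℤ
  b : ℤ
  c : ℤ
  deriving DecidableEq

theorem U3.ext' {x y : U3} (h1 : x.a = y.a) (h2 : x.b = y.b) (h3 : x.c = y.c) : x = y := by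
  cases x; cases y; simp_all

instance u3Mul : Mul U3 := ⟨fun x y => ⟨x.a + y.a, x.b + y.b, x.c + y.c + x.a * y.b⟩⟩
instance u3One : One U3 := ⟨⟨0, 0, 0⟩⟩
instance u3Inv : Inv U3 := ⟨fun x => ⟨-x.a, -x.b, -x.c + x.a * x.b⟩⟩

theorem U3.mul_def (x y : U3) : x * y = ⟨x.a + y.a, x.b + y.b, x.c + y.c + x.a * y.b⟩ := rfl
theorem U3.one_def : (1 : U3) = ⟨0, 0, 0⟩ := rfl
theorem U3.inv_def (x : U3) : x⁻¹ = ⟨-x.a, -x.b, -x.c + x.a * x.b⟩ := rfl

instance u3Group : Group U3 :=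
  Group.ofLeftAxioms
    (fun x y z => by apply U3.ext' <;> simp only [U3.mul_def] <;> ring)
    (fun x => by apply U3.ext' <;> simp [U3.mul_def, U3.one_def])
    (fun x => by apply U3.ext' <;> simp only [U3.mul_def, U3.inv_def, U3.one_def] <;> ring)

/-- Upper unitriangular integral matrices of size four; `a, b, c` is the first diagonal. -/
structure U4 where
  a : ℤ
  b : ℤ
  c : ℤ
  d : ℤ
  e : ℤ
  f : ℤ
  deriving DecidableEq

theorem U4.ext' {x y : U4} (h1 : x.a = y.a) (h2 : x.b = y.b) (h3 : x.c = y.c) (h4 : x.d = y.d)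
    (h5 : x.e = y.e) (h6 : x.f = y.f) : x = y := by
  cases x; cases y; simp_all

instance u4Mul : Mul U4 := ⟨fun x y => ⟨x.a + y.a, x.b + y.b, x.c + y.c, x.d + y.d + x.a * y.b,
  x.e + y.e + x.b * y.c, x.f + y.f + x.a * y.e + x.d * y.c⟩⟩
instance u4One : One U4 := ⟨⟨0, 0, 0, 0, 0, 0⟩⟩
instance u4Inv : Inv U4 := ⟨fun x => ⟨-x.a, -x.b, -x.c, -x.d + x.a * x.b, -x.e + x.b * x.c,
  -x.f + x.a * x.e + x.d * x.c - x.a * x.b * x.c⟩⟩

theorem U4.mul_def (x y : U4) : x * y = ⟨x.a + y.a, x.b + y.b, x.c + y.c, x.d + y.d + x.a * y.b,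
  x.e + y.e + x.b * y.c, x.f + y.f + x.a * y.e + x.d * y.c⟩ := rfl
theorem U4.one_def : (1 : U4) = ⟨0, 0, 0, 0, 0, 0⟩ := rfl
theorem U4.inv_def (x : U4) : x⁻¹ = ⟨-x.a, -x.b, -x.c, -x.d + x.a * x.b, -x.e + x.b * x.c,
  -x.f + x.a * x.e + x.d * x.c - x.a * x.b * x.c⟩ := rfl

instance u4Group : Group U4 :=
  Group.ofLeftAxioms
    (fun x y z => by apply U4.ext' <;> simp only [U4.mul_def] <;> ring)
    (fun x => by apply U4.ext' <;> simp [U4.mul_def, U4.one_def])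
    (fun x => by apply U4.ext' <;> simp only [U4.mul_def, U4.inv_def, U4.one_def] <;> ring)

/-- `θ` is additive on the centre. -/
def Adc {Γ : Type} [Group Γ] (θ : Γ → ℤ) : Prop :=
  ∀ x ∈ Subgroup.center Γ, ∀ y ∈ Subgroup.center Γ, θ (x * y) = θ x + θ y

theorem u34_cm3 (x y : U3) : cm x y = ⟨0, 0, x.a * y.b - x.b * y.a⟩ := by
  apply U3.ext' <;> simp only [cm, U3.mul_def, U3.inv_def] <;> ring

theorem u34_cm4 (x y : U4) : cm x y = ⟨0, 0, 0, x.a * y.b - x.b * y.a, x.b * y.c - x.c * y.b,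
    x.a * y.e - x.e * y.a + x.d * y.c - x.c * y.d - (x.c + y.c) * (x.a * y.b - x.b * y.a)⟩ := by
  apply U4.ext' <;> simp only [cm, U4.mul_def, U4.inv_def] <;> ring

def u34_F3 (i : ℕ) : Subgroup U3 where
  carrier := {x | (2 ≤ i → x.a = 0 ∧ x.b = 0) ∧ (3 ≤ i → x.c = 0)}
  mul_mem' := fun {x y} hx hy => ⟨fun h => by simp [U3.mul_def, hx.1 h, hy.1 h],
    fun h => by simp [U3.mul_def, hx.1 (by omega), hx.2 h, hy.2 h]⟩
  one_mem' := ⟨fun _ => ⟨rfl, rfl⟩, fun _ => rfl⟩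
  inv_mem' := fun {x} hx => ⟨fun h => by simp [U3.inv_def, hx.1 h],
    fun h => by simp [U3.inv_def, hx.1 (by omega), hx.2 h]⟩

def u34_F4 (i : ℕ) : Subgroup U4 where
  carrier := {x | (2 ≤ i → x.a = 0 ∧ x.b = 0 ∧ x.c = 0) ∧ (3 ≤ i → x.d = 0 ∧ x.e = 0) ∧
    (4 ≤ i → x.f = 0)}
  mul_mem' := fun {x y} hx hy => ⟨fun h => by simp [U4.mul_def, hx.1 h, hy.1 h],
    fun h => by simp [U4.mul_def, hx.1 (by omega), hx.2.1 h, hy.2.1 h],
    fun h => by simp [U4.mul_def, hx.1 (by omega), hx.2.1 (by omega), hx.2.2 h, hy.2.2 h]⟩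
  one_mem' := ⟨fun _ => ⟨rfl, rfl, rfl⟩, fun _ => ⟨rfl, rfl⟩, fun _ => rfl⟩
  inv_mem' := fun {x} hx => ⟨fun h => by simp [U4.inv_def, hx.1 h],
    fun h => by simp [U4.inv_def, hx.1 (by omega), hx.2.1 h],
    fun h => by simp [U4.inv_def, hx.1 (by omega), hx.2.2 h]⟩

/-- PLAN: `F i` is the set of `x` with `2 ≤ i → x.a = 0 ∧ x.b = 0` and `3 ≤ i → x.c = 0`. -/
theorem flt3 : ∃ F : Flt U3, F.F 3 = ⊥ := by
  refine ⟨⟨u34_F3, eq_top_iff.2 fun _ _ => ⟨by omega, by omega⟩,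
    fun i x hx => ⟨fun h => hx.1 (by omega), fun h => hx.2 (by omega)⟩,
    fun i j x hx y hy => ?_⟩,
    eq_bot_iff.2 fun x hx => U3.ext' (hx.1 (by omega)).1 (hx.1 (by omega)).2 (hx.2 le_rfl)⟩
  rw [u34_cm3]
  refine ⟨fun _ => ⟨rfl, rfl⟩, fun h => ?_⟩
  by_cases k : 2 ≤ i
  · simp [hx.1 k]
  · simp [hy.1 (by omega)]

/-- PLAN: `F i` is the set of `x` with `2 ≤ i → x.a = 0 ∧ x.b = 0 ∧ x.c = 0`,
`3 ≤ i → x.d = 0 ∧ x.e = 0` and `4 ≤ i → x.f = 0`. -/
theorem flt4 : ∃ F : Flt U4, F.F 4 = ⊥ := by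
  refine ⟨⟨u34_F4, eq_top_iff.2 fun _ _ => ⟨by omega, by omega, by omega⟩,
    fun i x hx => ⟨fun h => hx.1 (by omega), fun h => hx.2.1 (by omega), fun h => hx.2.2 (by omega)⟩,
    fun i j x hx y hy => ?_⟩, eq_bot_iff.2 fun x hx => U4.ext' (hx.1 (by omega)).1
      (hx.1 (by omega)).2.1 (hx.1 (by omega)).2.2 (hx.2.1 (by omega)).1 (hx.2.1 (by omega)).2
      (hx.2.2 le_rfl)⟩
  rw [u34_cm4]
  refine ⟨fun _ => ⟨rfl, rfl, rfl⟩, fun h => ?_, fun h => ?_⟩
  · by_cases k : 2 ≤ i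
    · simp [hx.1 k]
    · simp [hy.1 (by omega)]
  · by_cases k : 3 ≤ i
    · simp [hx.1 (by omega), hx.2.1 k]
    · by_cases k' : 3 ≤ j
      · simp [hy.1 (by omega), hy.2.1 k']
      · simp [hx.1 (by omega), hy.1 (by omega)]

theorem adc3 : Adc U3.c := by
  intro x hx y _
  have h := congrArg U3.c (Subgroup.mem_center_iff.1 hx ⟨0, 1, 0⟩)
  simp only [U3.mul_def] at h ⊢
  rw [show x.a = 0 by omega, zero_mul, add_zero]

theorem adc4 : Adc U4.f := by
  intro x hx y hy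
  have h := congrArg U4.d (Subgroup.mem_center_iff.1 hx ⟨0, 1, 0, 0, 0, 0⟩)
  have k := congrArg U4.e (Subgroup.mem_center_iff.1 hy ⟨0, 1, 0, 0, 0, 0⟩)
  simp only [U4.mul_def] at h k ⊢
  rw [show x.a = 0 by omega, show y.c = 0 by omega, zero_mul, mul_zero, add_zero, add_zero]

theorem cen3 (z : ℤ) : (⟨0, 0, z⟩ : U3) ∈ Subgroup.center U3 :=
  Subgroup.mem_center_iff.2 fun g => by simp [U3.mul_def, add_comm]

theorem cen4 (z : ℤ) : (⟨0, 0, 0, 0, 0, z⟩ : U4) ∈ Subgroup.center U4 :=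
  Subgroup.mem_center_iff.2 fun g => by simp [U4.mul_def, add_comm]

/-- The coordinates on the first diagonal are group maps. -/
theorem hom4 : (∃ π : U4 →* Multiplicative ℤ, ∀ x, Multiplicative.toAdd (π x) = x.a) ∧
    (∃ π : U4 →* Multiplicative ℤ, ∀ x, Multiplicative.toAdd (π x) = x.b) ∧
    ∃ π : U4 →* Multiplicative ℤ, ∀ x, Multiplicative.toAdd (π x) = x.c :=
  ⟨⟨.mk' (fun x => .ofAdd x.a) fun _ _ => rfl, fun _ => rfl⟩,
    ⟨.mk' (fun x => .ofAdd x.b) fun _ _ => rfl, fun _ => rfl⟩,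
    .mk' (fun x => .ofAdd x.c) fun _ _ => rfl, fun _ => rfl⟩

def t3 : ℕ → U3
  | 0 => ⟨0, 1, 0⟩
  | 1 => ⟨1, 0, 0⟩
  | _ + 2 => 1

def t4 : ℕ → U4
  | 0 => ⟨1, 0, 0, 0, 0, 0⟩
  | 1 => ⟨0, 1, 1, 0, 0, 0⟩
  | _ + 2 => 1

/-- PLAN: `stp_w`, `stp_succ`, `rl_sh`, `rl_Y` with `x = (t3 1)⁻¹`, `g = (t3 0)⁻¹`, `j = 1`. -/
theorem rl_y0 : Rl U3 ([(0, w), (1, w)] ++ sh 2 Yn) 1
    (fun i => if i < 3 then (t3 i, if i = 2 then ⟨0, 0, 1⟩ else 1) else 1) := by
  refine (rl_app ..).2 ⟨_, (rl_cons ..).2 ⟨_, (stp_w ..).2 ⟨t3 0, 1, rfl⟩, (rl_cons ..).2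
    ⟨_, (stp_succ 0 ..).2 ⟨_, rfl, (stp_w ..).2 ⟨t3 1, 1, rfl⟩⟩, (rl_nil ..).2 rfl⟩⟩,
    (rl_sh ..).2 ⟨sem_two (by decide) (by decide), ?_⟩⟩
  rw [sem_cs2]
  refine (rl_Y ..).2 ⟨(t3 1)⁻¹, (t3 0)⁻¹, 1, by decide, by decide, funext fun i => ?_⟩
  cases i with
  | zero => decide
  | succ i => exact if_neg (by omega)

/-- PLAN: `stp_w` with `s = t4 0`, `t = ⟨0, 0, 0, 0, 0, -1⟩`, `stp_v` with
`t = ⟨0, 0, 0, -1, 0, 0⟩`, `rl_Y` with `x = ⟨0, 0, 0, 1, 0, 0⟩`, `g = ⟨-1, 0, 0, -1, 0, 0⟩`,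
`j = ⟨0, -1, -1, 0, 1, 0⟩`. -/
theorem rl_W0 : Rl U4 ([(0, w), (1, v)] ++ sh 1 Yn) 1
    (fun i => if i < 2 then (t4 i, if i = 0 then ⟨0, 0, 0, 0, 0, 1⟩ else 1) else 1) := by
  refine (rl_app ..).2 ⟨_, (rl_cons ..).2 ⟨_, (stp_w ..).2 ⟨t4 0, ⟨0, 0, 0, 0, 0, -1⟩, rfl⟩,
    (rl_cons ..).2 ⟨_, (stp_succ 0 ..).2 ⟨_, rfl, (stp_v ..).2 ⟨⟨0, 0, 0, -1, 0, 0⟩, rfl⟩⟩,
    (rl_nil ..).2 rfl⟩⟩, (rl_sh ..).2 ⟨sem_one (by decide), ?_⟩⟩
  rw [sem_cs1']
  refine (rl_Y ..).2 ⟨⟨0, 0, 0, 1, 0, 0⟩, ⟨-1, 0, 0, -1, 0, 0⟩, ⟨0, -1, -1, 0, 1, 0⟩, by decide,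
    by decide, funext fun i => ?_⟩
  cases i with
  | zero => decide
  | succ i => exact if_neg (by omega)

/-- PLAN: the two trees with two nodes; unfold `mus`, `mu`, `Lc`, `cm`; the sum is twice an
explicit polynomial in the coordinates `(x a).a`, `(x a).b` (or zero). -/
theorem even4 (τ : Tr) (hτ : τ.nn = 2) (x : ℕ → U4) (hx : ∀ a < 4, (x a).c = (x a).b) :
    Even (∑ a ∈ Finset.range 4, (x a).a * (mus τ x a).f) := by
  have h0 := hx 0 (by omega)
  have h1 := hx 1 (by omega)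
  have h2 := hx 2 (by omega)
  have h3 := hx 3 (by omega)
  rcases τ with _ | ⟨_ | ⟨_ | _, _ | _⟩, _ | ⟨_ | _, _ | _⟩⟩ <;> simp only [Tr.nn] at hτ <;>
    try omega
  · refine ⟨(x 0).a * (x 2).a * (x 1).b * (x 3).b + (x 1).a * (x 3).a * (x 0).b * (x 2).b -
      (x 0).a * (x 1).a * (x 2).b * (x 3).b - (x 2).a * (x 3).a * (x 0).b * (x 1).b, ?_⟩
    simp [Finset.sum_range_succ, mus, mu, Lc, Tr.nn, tl, u34_cm4, U4.inv_def, h0, h1, h2, h3]
    ring
  · refine ⟨((x 0).a * (x 1).b - (x 1).a * (x 0).b) * ((x 2).a * (x 3).b - (x 3).a * (x 2).b), ?_⟩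
    simp [Finset.sum_range_succ, mus, mu, Lc, Tr.nn, tl, u34_cm4, U4.inv_def, h0, h1, h2, h3]
    ring

end Pool.Agent.GH
end

-- merged part: Pool.Agent.Work.MP_c00b06_gt.Inv
section
/-! Invariants from representations with central longitudes. -/

namespace Pool.Agent.GH
open Gn

variable {X : Wd → Wd → Prop}

variable {Γ : Type} [Group Γ]

/-- The meridians `t` and the central longitudes `ℓ` extend over the state `x`. -/
def Cn (t : ℕ → Γ) (n : ℕ) (x : Cob X) (ℓ : ℕ → Γ) : Prop :=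
  (∀ i, ℓ i ∈ Subgroup.center Γ) ∧ R Γ x 1 (fun i => if i < n then (t i, ℓ i) else 1)

theorem inv_cj {c : Γ} (hc : c ∈ Subgroup.center Γ) (y : Γ) : c * y * c⁻¹ = y := by
  rw [← Subgroup.mem_center_iff.1 hc, mul_inv_cancel_right]

theorem inv_cm1 {c : Γ} (hc : c ∈ Subgroup.center Γ) (x y : Γ) : cm (x * c) y = cm x y := by
  conv_rhs => rw [cm, ← congrArg (x * · * x⁻¹ * y⁻¹) (inv_cj hc y)]
  rw [cm]; group

theorem inv_cm2 {c : Γ} (hc : c ∈ Subgroup.center Γ) (x y : Γ) : cm x (y * c) = cm x y := by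
  conv_rhs => rw [cm, ← congrArg (x * y * · * y⁻¹) (inv_cj hc x⁻¹)]
  rw [cm]; group

theorem inv_inv' {c : Γ} (hc : c ∈ Subgroup.center Γ) (x : Γ) : (x * c)⁻¹ = x⁻¹ * c⁻¹ := by
  rw [Subgroup.mem_center_iff.1 hc, mul_inv_rev]

theorem inv_tl (k : ℕ) (x z : ℕ → Γ) : tl k (x * z) = tl k x * tl k z := rfl

theorem inv_bd {h : Γ × Γ} (hc : h.2 ∈ Subgroup.center Γ) : bd h = 1 := by
  rw [bd, Subgroup.mem_center_iff.1 (inv_mem hc)]; group

theorem Lc_cen (τ : Tr) (x z : ℕ → Γ) (hz : ∀ i, z i ∈ Subgroup.center Γ) :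
    ∃ c ∈ Subgroup.center Γ, Lc τ (x * z) = Lc τ x * c ∧ (1 ≤ τ.nn → c = 1) := by
  induction τ generalizing x z with
  | lf => exact ⟨z 0, hz 0, rfl, fun h => absurd h (by simp [Tr.nn])⟩
  | nd a b iha ihb =>
    obtain ⟨c, hc, e, -⟩ := iha x z hz
    obtain ⟨c', hc', e', -⟩ := ihb (tl (a.nn + 1) x) (tl (a.nn + 1) z) fun _ => hz _
    exact ⟨1, one_mem _, by rw [Lc, Lc, inv_tl, e, e', inv_cm1 hc, inv_cm2 hc', mul_one],
      fun _ => rfl⟩

theorem mu_cen (τ : Tr) (x z : ℕ → Γ) (hz : ∀ i, z i ∈ Subgroup.center Γ) (M : Γ) (i : ℕ) :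
    mu τ (x * z) M i = mu τ x M i := by
  induction τ generalizing x z M i with
  | lf => rfl
  | nd a b iha ihb =>
    obtain ⟨c, hc, e, -⟩ := Lc_cen a x z hz
    obtain ⟨c', hc', e', -⟩ := Lc_cen b (tl (a.nn + 1) x) (tl (a.nn + 1) z) fun _ => hz _
    rw [mu, mu, inv_tl, iha x z hz, ihb _ (tl (a.nn + 1) z) fun _ => hz _, e, e', inv_inv' hc,
      inv_inv' hc', inv_cm1 (inv_mem hc), inv_cm2 (inv_mem hc')]

theorem mus_cen (τ : Tr) (hτ : 1 ≤ τ.nn) (x z : ℕ → Γ) (hz : ∀ i, z i ∈ Subgroup.center Γ)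
    (i : ℕ) : mus τ (x * z) i = mus τ x i := by
  obtain ⟨c, -, e, hc⟩ := Lc_cen τ x z hz
  rw [mus, mus, e, hc hτ, mul_one, mu_cen τ x z hz, Pi.mul_apply, inv_inv' (hz _)]
  rcases τ with _ | ⟨a, b⟩
  · exact absurd hτ (by simp [Tr.nn])
  · rw [mu, mu, inv_cm1 (inv_mem (hz _)), inv_cm2 (inv_mem (hz _))]

open scoped IsMulCommutative in
theorem adc_prod {θ : Γ → ℤ} (hθ : Adc θ) (p : ℕ) (z : ℕ → Subgroup.center Γ) (k : ℕ → ℤ) :
    θ (∏ a ∈ Finset.range p, z a ^ k a : Subgroup.center Γ) =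
      ∑ a ∈ Finset.range p, k a * θ (z a) := by
  let φ : Subgroup.center Γ →* Multiplicative ℤ :=
    MonoidHom.mk' (fun z => .ofAdd (θ z)) fun a b => congrArg _ (hθ _ a.2 _ b.2)
  have h := congrArg Multiplicative.toAdd (map_prod φ (fun a => z a ^ k a) (Finset.range p))
  simp only [map_zpow, toAdd_prod, toAdd_zpow, smul_eq_mul] at h
  exact h

variable [Gd Γ X]

theorem inv_up1 {g : Cob X} (x : Γ × Γ) {t c : ℕ → Γ × Γ} (h : R Γ g t c) :
    R Γ (up 1 g) (cs x t) (cs x c) :=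
  (R_up _ _ _ _).2 ⟨sem_one rfl, by rwa [sem_cs1', sem_cs1']⟩

/-- PLAN: `R_B_bd`, `stp_m` (through `R_G`, `R_up`). -/
theorem R_Ma_bd (a : ℕ) (x : Γ × Γ) (t : ℕ → Γ × Γ) (hx : bd x = 1) (ht : ∀ k < a, bd (t k) = 1)
    (h : (t a).1 = x.2⁻¹ * x.1 * x.2) :
    R Γ (Ma a : Cob X) (cs x t) (Function.update t a (x.1, x.2 * (t a).2)) := by
  have h0 : bp 1 a (cs x t) a = x := by simp [bp]
  have h1 : ∀ k, bp 1 a (cs x t) (a + 1 + k) = t (a + k) := fun k => by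
    rw [bp, if_neg (by omega), if_neg (by omega), show a + 1 + k = a + k + 1 by omega, cs_succ]
  have h4 : bp 1 a (cs x t) (a + 1) = t a := h1 0
  refine (R_mul _ _ _ _).2 ⟨_, R_B_bd true 1 a fun k hk => ?_, (R_G _ _ _ _).2
    ⟨fun k hk => ?_, ?_, fun k => ?_⟩⟩
  · cases k with
    | zero => exact hx
    | succ k => exact ht k (by omega)
  · rw [Function.update_of_ne hk.ne, bp, if_pos hk, Nat.add_comm 1 k, cs_succ]
  · simp only [Rel, Nat.add_zero, h0, h4, Function.update_self, h, and_self]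
  · simp only [Gn.ar, Gn.co]
    rw [Function.update_of_ne (by omega), show a + 2 + k = a + 1 + (1 + k) by omega, h1,
      Nat.add_assoc]

/-- PLAN: induction on `n`; `Mu_succ`, `R_B_bd`. -/
theorem R_Mu (n : ℕ) (a : ℕ → Γ × Γ) (h1 : ∀ i < n + n, (a i).2 ∈ Subgroup.center Γ)
    (h2 : ∀ i < n, (a (n + i)).1 = (a i).1) :
    R Γ (Mu n : Cob X) a
      (fun i => if i < n then ((a i).1, (a i).2 * (a (n + i)).2) else a (n + i)) := by
  induction n generalizing a with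
  | zero => exact (R_one _ _).2 (by simp)
  | succ n ih =>
    obtain ⟨x, t, rfl⟩ := exists_cs a
    have e1 : bp n 1 t = cs (t n) fun i => t (skip n i) := funext fun i => by
      cases i with
      | zero => rfl
      | succ i =>
        rw [bp, if_neg (by omega), cs_succ, skip]
        by_cases hi : i < n
        · rw [if_pos (by omega), if_pos hi, Nat.add_sub_cancel]
        · rw [if_neg (by omega), if_neg hi]
    have e2 : ∀ i, skip n (n + i) = n + i + 1 := fun i => if_neg (by omega)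
    have e3 : ∀ i < n, skip n i = i := fun i hi => if_pos hi
    have k1 := R_B_bd (X := X) true n 1 (a := t) fun k hk => inv_bd (h1 (k + 1) (by omega))
    have k2 := ih (fun i => t (skip n i))
      (fun i hi => h1 (skip n i + 1) (by unfold skip; split_ifs <;> omega))
      fun i hi => by rw [e2, e3 i hi]; exact (by rw [Nat.add_right_comm n 1]; rfl :
        cs x t (n + 1 + (i + 1)) = t (n + i + 1)) ▸ h2 (i + 1) (by omega)
    rw [e1] at k1
    refine (R_mul _ _ _ _).2 ⟨_, (R_mul _ _ _ _).2 ⟨_, inv_up1 x k1, (R_G _ _ _ _).2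
      ((stp_m _ _ _ _).2 ⟨?_, rfl⟩)⟩, ?_⟩
    · have := inv_cj (inv_mem (h1 0 (by omega))) x.1
      rw [inv_inv] at this
      exact (h2 0 (by omega)).trans this.symm
    · refine (congrArg _ (funext fun i => ?_)).mp (inv_up1 _ k2)
      cases i with
      | zero => rw [if_pos (by omega)]; rfl
      | succ i =>
        simp only [cs_succ, e2, Nat.add_lt_add_iff_right,
          show n + 1 + (i + 1) = n + i + 1 + 1 by omega]
        split_ifs with hi
        · rw [e3 i hi]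
        · rfl

theorem cn_mul {t : ℕ → Γ} {n : ℕ} {x y : Cob X} {ℓ ℓ' : ℕ → Γ} (hx : Cn t n x ℓ)
    (hy : Cn t n y ℓ') : Cn t n (pr n x y) (ℓ * ℓ') := by
  let c : ℕ → Γ × Γ := fun i => if i < n then (t i, ℓ i) else
    if i - n < n then (t (i - n), ℓ' (i - n)) else 1
  have c1 : ∀ i < n, c i = (t i, ℓ i) := fun i hi => if_pos hi
  have c2 : ∀ i, c (n + i) = if i < n then (t i, ℓ' i) else 1 := fun i => by
    simp only [c, Nat.add_sub_cancel_left]
    exact if_neg (by omega)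
  have k := R_Mu (X := X) n c (fun i hi => by
      by_cases h : i < n
      · rw [c1 i h]; exact hx.1 i
      · rw [show i = n + (i - n) by omega, c2, if_pos (by omega)]; exact hy.1 _)
    fun i hi => by rw [c2, if_pos hi, c1 i hi]
  refine ⟨fun i => mul_mem (hx.1 i) (hy.1 i), (R_mul _ _ _ _).2 ⟨c, (R_mul _ _ _ _).2 ⟨_, hx.2,
    (R_up _ _ _ _).2 ⟨fun k hk => (c1 k hk).trans (if_pos hk).symm, ?_⟩⟩,
    (congrArg _ (funext fun i => ?_)).mp k⟩⟩
  · rw [(lk1_tl n _).2 fun i hi => if_neg hi.not_gt, show tl n c = _ from funext c2]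
    exact hy.2
  · rw [c2]
    split_ifs with hi
    · rw [c1 i hi]; rfl
    · rfl

theorem cn_one (t : ℕ → Γ) (n : ℕ) : Cn t n (Et n : Cob X) 1 := by
  exact ⟨fun _ => one_mem _, (R_Et _ _ _).2 ⟨fun k hk => by rw [if_pos hk]; rfl,
    (lk1_tl n _).2 fun i hi => if_neg hi.not_gt⟩⟩

theorem cn_Et {t : ℕ → Γ} {n : ℕ} {ℓ : ℕ → Γ} (h : Cn t n (Et n : Cob X) ℓ) :
    ∀ i < n, ℓ i = 1 := by
  intro i hi
  simpa only [if_pos hi] using ((R_Et _ _ _).1 h.2).1 i hi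

theorem cn_sim (F : Flt Γ) {k : ℕ} (h0 : F.F (k + 1) = ⊥) {t : ℕ → Γ} {n : ℕ} {x y : Cob X}
    {ℓ : ℕ → Γ} (h : Sim k x y) (hx : Cn t n x ℓ) : Cn t n y ℓ := by
  exact ⟨hx.1, (R_sim F h0 h _ _).1 hx.2⟩

/-- PLAN: the longitudes of `g ∈ S` are unique below `n`: multiply by longitudes of `g⁻¹`
(`cn_mul`, `cn_Et`). -/
theorem inv_lam (t : ℕ → Γ) {n s : ℕ} (hs : s < n) {θ : Γ → ℤ} (hθ : Adc θ)
    (S : Subgroup (Gp X n)) (hS : ∀ g ∈ S, ∃ ℓ, Cn t n (vl g) ℓ) :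
    ∃ lam : Gp X n → ℤ, (∀ a ∈ S, ∀ b ∈ S, lam (a * b) = lam a + lam b) ∧
      ∀ g ∈ S, ∀ ℓ, Cn t n (vl g) ℓ → lam g = θ (ℓ s) := by
  choose! L hL using hS
  have key : ∀ g ∈ S, ∀ ℓ, Cn t n (vl g) ℓ → ℓ s * L g⁻¹ s = 1 := fun g hg ℓ h => by
    have k := cn_mul h (hL _ (inv_mem hg))
    rw [← vl_mul, mul_inv_cancel] at k
    exact cn_Et k s hs
  have uq : ∀ g ∈ S, ∀ ℓ, Cn t n (vl g) ℓ → θ (L g s) = θ (ℓ s) := fun g hg ℓ h =>
    congrArg θ (mul_right_cancel ((key g hg _ (hL g hg)).trans (key g hg ℓ h).symm))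
  exact ⟨fun g => θ (L g s), fun a ha b hb => (uq _ (mul_mem ha hb) _
    (cn_mul (hL a ha) (hL b hb))).trans (hθ _ ((hL a ha).1 s) _ ((hL b hb).1 s)), uq⟩

/-- The states of `tot_ops`. -/
def inv_st (p n : ℕ) (t x : ℕ → Γ) : ℕ → Γ × Γ :=
  fun i => if i < p then (1, x i) else if i < p + n then (t (i - p), 1) else 1

omit [Gd Γ X] in
theorem inv_st_bd (p n : ℕ) (t x : ℕ → Γ) (k : ℕ) : bd (inv_st p n t x k) = 1 := by
  unfold inv_st
  split_ifs <;> simp [bd]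

theorem inv_Ma {p a : ℕ} (ha : a < p) (n : ℕ) (t x : ℕ → Γ) (y : Γ) :
    R Γ (Ma a : Cob X) (cs (1, y) (inv_st p n t x))
      (inv_st p n t (Function.update x a (y * x a))) := by
  have e : inv_st p n t x a = (1, x a) := if_pos ha
  refine (congrArg _ (funext fun i => ?_)).mp (R_Ma_bd a (1, y) (inv_st p n t x) (by simp [bd])
    (fun k _ => inv_st_bd p n t x k) (by simp [e]))
  by_cases hi : i = a
  · subst hi
    simp [inv_st, ha]
  · simp [inv_st, hi]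

theorem inv_op {p n : ℕ} (i : It) (h1 : i.fst < p) (h2 : i.snd < p + n) (t x0 : ℕ → Γ) :
    ∃ x : ℕ → Γ, (∀ π : Γ →* Multiplicative ℤ, ∀ a < p, Multiplicative.toAdd (π (x a)) =
        Multiplicative.toAdd (π (x0 a)) +
          ∑ s ∈ Finset.range n, i.lk a (p + s) * Multiplicative.toAdd (π (t s))) ∧
      R Γ (i.op : Cob X) (inv_st p n t x0) (inv_st p n t x) := by
  rcases i with ⟨s, a, b⟩ | ⟨s, a⟩
  · change a < p at h1
    change b < p + n at h2
    obtain ⟨τ, hτ⟩ : ∃ τ, τ = (inv_st p n t x0 b).1 := ⟨_, rfl⟩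
    have k1 : R Γ (cw s : Cob X) (inv_st p n t x0)
        (cs (1, τ ^ (if s then -1 else 1 : ℤ)) (cs (τ, 1) (inv_st p n t x0))) := by
      refine (R_mul _ _ _ _).2 ⟨_, (R_G _ _ _ _).2 ((stp_w _ _).2 ⟨1, τ, rfl⟩), ?_⟩
      cases s <;> simp [sg, R_G, R_one, stp_T, bd]
    have k2 := R_Ma_bd (X := X) b (τ, 1) (inv_st p n t x0) (by simp [bd])
      (fun k _ => inv_st_bd p n t x0 k) (by simp [hτ])
    rw [one_mul, hτ, Function.update_eq_self, ← hτ] at k2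
    refine ⟨_, fun π c hc => ?_, (R_mul _ _ _ _).2 ⟨_, (R_mul _ _ _ _).2 ⟨_, k1, inv_up1 _ k2⟩,
      inv_Ma h1 n t x0 _⟩⟩
    have e1 : ∀ j, p + j ≠ a := fun j => by omega
    by_cases hca : c = a
    · subst hca
      by_cases hb : b < p
      · have e2 : ∀ j, p + j ≠ b := fun j => by omega
        simp [It.lk, e1, e2, hτ, inv_st, hb]
      · obtain ⟨b, rfl⟩ := Nat.exists_eq_add_of_le (not_lt.1 hb)
        have e2 : b < n := by omega
        cases s <;> simp [It.lk, e1, e2, hτ, inv_st, add_comm]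
    · simp [It.lk, e1, hca]
  · change a < p at h1
    have k1 : R Γ (vw s : Cob X) (inv_st p n t x0) (cs (1, 1) (inv_st p n t x0)) := by
      cases s <;> simp [vw, R_G, stp_v, stp_V, cs_inj]
    have k2 := inv_Ma (X := X) h1 n t x0 1
    rw [one_mul, Function.update_eq_self] at k2
    have e1 : ∀ j, p + j ≠ a := fun j => by omega
    exact ⟨x0, fun π c hc => by simp [It.lk, e1], (R_mul _ _ _ _).2 ⟨_, k1, k2⟩⟩

/-- Trivial meridians on the first `p` handles.  PLAN: induction on `l`, generalizing `x0`; for a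
clasp `c s a b` the new handles are `(1, τ ^ ∓1)` and `(τ, 1)` with `τ` the meridian of handle `b`
(`stp_w`, `stp_T`), `R_Ma_bd` twice; for a twist the new handle is trivial. -/
theorem tot_ops {p n : ℕ} {l : List It} (hl : Val p (p + n) l) (t x0 : ℕ → Γ) :
    ∃ x : ℕ → Γ, (∀ π : Γ →* Multiplicative ℤ, ∀ a < p, Multiplicative.toAdd (π (x a)) =
        Multiplicative.toAdd (π (x0 a)) +
          ∑ s ∈ Finset.range n, lkl l a (p + s) * Multiplicative.toAdd (π (t s))) ∧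
      R Γ (Ops l : Cob X)
        (fun i => if i < p then (1, x0 i) else if i < p + n then (t (i - p), 1) else 1)
        (fun i => if i < p then (1, x i) else if i < p + n then (t (i - p), 1) else 1) := by
  induction l generalizing x0 with
  | nil => exact ⟨x0, fun π a _ => by simp [lkl_nil], (R_one _ _).2 rfl⟩
  | cons i l ih =>
    obtain ⟨x1, a1, a2⟩ := inv_op (X := X) i (hl i (by simp)).1 (hl i (by simp)).2.2 t x0
    obtain ⟨x, b1, b2⟩ := ih (fun j hj => hl j (by simp [hj])) x1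
    refine ⟨x, fun π a ha => ?_, Ops_cons (X := X) i l ▸ (R_mul _ _ _ _).2 ⟨_, a2, b2⟩⟩
    simp only [b1 π a ha, a1 π a ha, lkl_cons, add_mul, Finset.sum_add_distrib, add_assoc]

variable [Snd X]

open scoped IsMulCommutative in
/-- The longitudes of a letter.  PLAN: `p = τ.nn + 2`, `K = Et (p + n) * Ops l`.  `tot_ops` with
`x0 = 1` gives `x` and a solution of `K`.  The elements `M a = mus τ x a` are central (`mus_mem`,
`Flt.cen`).  In the commutative group `Subgroup.center Γ` (`open scoped IsMulCommutative`) the state `K` has the solution with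
meridians `M a` on `a < p`, trivial meridians on the strands and longitudes given by `lkl l`
(`lk_ops`, `lk_Et`).  Multiply the two solutions (`R_cen`); the leaves now have longitudes
`x * z` with `z` central and `mus τ (x * z) = mus τ x` (`mus_cen`), so `rl_sg` applies to `x * z`
(`mk_sg`, `R_mk`, `R_mul`); the witness for the statement is `x` itself; `adc_prod`. -/
theorem kl (F : Flt Γ) (τ : Tr) (hk : 1 ≤ τ.nn) (h0 : F.F (τ.nn + 2) = ⊥) {n : ℕ} {l : List It}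
    (hl : Val (τ.nn + 2) (τ.nn + 2 + n) l) (t : ℕ → Γ) {θ : Γ → ℤ} (hθ : Adc θ) :
    ∃ x ℓ : ℕ → Γ, (∀ π : Γ →* Multiplicative ℤ, ∀ a < τ.nn + 2, Multiplicative.toAdd (π (x a)) =
        ∑ s ∈ Finset.range n, lkl l a (τ.nn + 2 + s) * Multiplicative.toAdd (π (t s))) ∧
      Cn t n (Et (τ.nn + 2 + n) * Ops l * TT τ : Cob X) ℓ ∧
      ∀ s < n, θ (ℓ s) =
        ∑ a ∈ Finset.range (τ.nn + 2), lkl l (τ.nn + 2 + s) a * θ (mus τ x a) := by
  obtain ⟨x, a1, a2⟩ := tot_ops (X := X) hl t 1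
  generalize hp : τ.nn + 2 = p at hl a1 a2 ⊢
  have k1 : R Γ (Et (p + n) * Ops l : Cob X) 1 (inv_st p n t x) :=
    (R_mul _ _ _ _).2 ⟨_, (R_Et _ _ _).2 ⟨fun k hk => by split_ifs <;> rfl,
      (lk1_tl _ _).2 fun i hi => by rw [if_neg (by omega), if_neg (by omega)]⟩, a2⟩
  let M : ℕ → Subgroup.center Γ := fun a => ⟨mus τ x a, F.cen h0 (mus_mem F τ x a)⟩
  let z : ℕ → Subgroup.center Γ := fun i =>
    if i < p + n then ∏ j ∈ Finset.range p, M j ^ lkl l i j else 1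
  have k2 : R (Subgroup.center Γ) (Et (p + n) * Ops l : Cob X) 1
      fun i => (if i < p then M i else 1, z i) := by
    refine (lk_ops (lk_Et _) hl _ _).2 ⟨fun i hi => ?_, fun i hi => ?_⟩
    · simp only [z, if_pos hi, Finset.prod_range_add, add_lt_iff_neg_left, not_lt_zero, if_false,
        one_zpow, Finset.prod_const_one, mul_one, zero_add]
      exact Finset.prod_congr rfl fun j hj => by rw [if_pos (Finset.mem_range.1 hj)]
    · simp only [z]
      rw [if_neg (by omega), if_neg (by omega)]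
      rfl
  have k3 := R_cen (Subgroup.center Γ).subtype
    (fun z g => (Subgroup.mem_center_iff.1 z.2 g).symm) k1 k2
  rw [show (1 : ℕ → Γ × Γ) * mp (Subgroup.center Γ).subtype 1 = 1 from mul_one _] at k3
  have k4 := (R_mk (X := X) _ _ _).2 (rl_sg F τ h0 (x * fun i => (z i : Γ))
    (a := inv_st p n t x * mp (Subgroup.center Γ).subtype fun i => (if i < p then M i else 1, z i))
    fun i hi => by
      have : i < p := by omega
      rw [mus_cen τ hk x _ fun i => (z i).2]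
      simp [inv_st, mp, this, M])
  rw [hp] at k4
  refine ⟨x, fun s => z (p + s), fun π a ha => by simpa using a1 π a ha, ⟨fun i => (z _).2,
    (R_mul _ _ _ _).2 ⟨_, k3, (congrArg _ (funext fun i => ?_)).mp k4⟩⟩, fun s hs => ?_⟩
  · by_cases hi : i < n <;> simp [tl, inv_st, mp, hi, z, Prod.ext_iff]
  · simp only [z, Nat.add_lt_add_iff_left, if_pos hs]
    exact adc_prod hθ p M _

end Pool.Agent.GH
end

-- merged part: Pool.Agent.Work.MP_c00b06_gt.D1c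
section
/-! Degree one: generators. -/

namespace Pool.Agent.GH
open Gn

variable {X : Wd → Wd → Prop}

/-- The Whitehead string link. -/
def W0 : Cob X := G w 0 * G v 1 * up 1 Y

/-- The Borromean string link. -/
def y0 : Cob X := G w 0 * G w 1 * up 2 Y

theorem W0_ty : Ty 0 2 (W0 : Cob X) := by
  exact ((Ty.G w 0 (q := 2) le_rfl rfl).mul (Ty.G v 1 (q := 3) (by decide) rfl)).mul (Y_ty.up 1)

theorem y0_ty : Ty 0 3 (y0 : Cob X) := by
  exact ((Ty.G w 0 (q := 2) le_rfl rfl).mul (Ty.G w 1 (q := 4) (by decide) rfl)).mul (Y_ty.up 2)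

theorem hm_ue {n i : ℕ} (h : i < n) : Hm n n (G u i * G e i : Cob X) := by
  obtain ⟨N, rfl⟩ : ∃ N, n = N + 1 := ⟨n - 1, by omega⟩
  exact hm_mul (hm_u (by omega)) (hm_e (by omega))

/-- Replace strand `i` by a trivial one. -/
def dlt (n i : ℕ) : Gp X n →* Gp X n := if h : i < n then (hm_ue h).gp else MonoidHom.id _

theorem vl_dlt {n i : ℕ} (h : i < n) (g : Gp X n) : vl (dlt n i g) = vl g * (G u i * G e i) := by
  rw [dlt, dif_pos h, Hm.vl_gp]

theorem d1c_far {i j : ℕ} (h : i < j) :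
    (G u i * G e i * (G u j * G e j) : Cob X) = G u j * G e j * (G u i * G e i) := by
  have k : Ty 1 1 (G u 0 * G e 0 : Cob X) :=
    (Ty.G u 0 (q := 0) le_rfl rfl).mul (Ty.G e 0 le_rfl rfl)
  exact far_at k i j j h rfl (G u 0 * G e 0)

theorem dlt_comm (n : ℕ) :
    ∀ i < n, ∀ j < n, ∀ x : Gp X n, dlt n i (dlt n j x) = dlt n j (dlt n i x) := by
  intro i hi j hj x
  refine vl_inj ?_
  rw [vl_dlt hi, vl_dlt hj, vl_dlt hj, vl_dlt hi, mul_assoc (vl x), mul_assoc (vl x)]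
  rcases lt_trichotomy i j with h | rfl | h
  · rw [d1c_far h]
  · rfl
  · rw [d1c_far h]

theorem dlt_NN (n : ℕ) : ∀ i < n, ∀ k, ∀ x ∈ NN X n k, dlt n i x ∈ NN X n k := by
  intro i hi k x hx
  rw [dlt, dif_pos hi]
  exact (hm_ue hi).mem_NN hx

theorem d1c_Et2 : (Et 2 : Cob X) = G e 0 * G e 0 := by
  rw [Et_succ, Et_succ, Et_zero, one_mul]

theorem d1c_E3 (f : Cob X) : f * E 3 = f * G u 0 * G u 0 * G u 0 := by
  simp only [E_succ, E_zero, mul_one, mul_assoc]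

/-- PLAN: `d1b_W0`, `d1b_W1`. -/
theorem dlt_W0 {y : Gp X 2} (h : vl y = W0) : ∀ i < 2, dlt 2 i y = 1 := by
  intro i hi
  refine vl_inj ?_
  rw [vl_dlt hi, h, vl_one, d1c_Et2, ← mul_assoc]
  interval_cases i
  exacts [d1b_W0, d1b_W1]

/-- PLAN: `d1b_y0`, `d1b_y1`, `d1b_y2`. -/
theorem dlt_y0 {y : Gp X 3} (h : vl y = y0) : ∀ i < 3, dlt 3 i y = 1 := by
  intro i hi
  refine vl_inj ?_
  rw [vl_dlt hi, h, vl_one, Et_succ, d1c_Et2, ← mul_assoc]
  interval_cases i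
  exacts [d1b_y0, d1b_y1, d1b_y2]

variable [Snd X]

theorem d1c_P {N : ℕ} {f : Cob X} {A : ℕ → ℕ → ℤ} (h : NL 0 N f ∧ Lk N f A) (i : ℕ)
    (hi : i + 1 < N) : NL 0 N (f * G P i) ∧
      Lk N (f * G P i) (fun x y => A (Equiv.swap i (i + 1) x) (Equiv.swap i (i + 1) y)) :=
  ⟨h.1.mul (NL.G P (by decide) i hi rfl), lk_cr true h.2 hi⟩

theorem d1c_w {N : ℕ} {f : Cob X} {A : ℕ → ℕ → ℤ} (h : NL 0 N f ∧ Lk N f A) (i : ℕ)
    (hi : i ≤ N) : NL 0 (N + 2) (f * G w i) ∧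
      Lk (N + 2) (f * G w i) (fun x y => if (x = i ∧ y = i + 1) ∨ (x = i + 1 ∧ y = i) then -1
        else if x = i ∨ x = i + 1 ∨ y = i ∨ y = i + 1 then 0
        else A (unskip i (unskip i x)) (unskip i (unskip i y))) :=
  ⟨h.1.mul (NL.G w (by decide) i hi rfl), lk_w h.2 hi⟩

theorem d1c_w0 : NL 0 2 (G w 0 : Cob X) ∧ Lk 2 (G w 0 : Cob X) (lkl [.c true 0 1]) := by
  have h := d1c_w (X := X) ⟨NL.one 0, lk_Et 0⟩ 0 le_rfl
  rw [one_mul] at h
  exact ⟨h.1, lk_congr h.2 (by decide)⟩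

theorem d1c_y : NL 0 6 (G w 0 * G w 1 * G w 4 * G P 1 * G P 2 * G P 3 * G P 0 * G P 1 * G P 2 :
    Cob X) ∧ Lk 6 (G w 0 * G w 1 * G w 4 * G P 1 * G P 2 * G P 3 * G P 0 * G P 1 * G P 2 : Cob X)
      Ay := by
  have h := d1c_P (d1c_P (d1c_P (d1c_P (d1c_P (d1c_P (d1c_w (d1c_w (d1c_w0 (X := X)) 1 (by decide))
    4 le_rfl) 1 (by decide)) 2 (by decide)) 3 (by decide)) 0 (by decide)) 1 (by decide)) 2
    (by decide)
  exact ⟨h.1, lk_congr h.2 (by decide)⟩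

/-- PLAN: `d1b_hW`, `d1b_hWE`; the matrix by `lk_w lk_v lk_cr` from `lk_Et 0`, then `lk_congr`
(`interval_cases`, `decide` or `simp`). -/
theorem ph_W : Ph 2 AW (W0 : Cob X) := by
  have h0 := d1c_w0 (X := X)
  have h := d1c_P (d1c_P (d1c_P (d1c_w ⟨h0.1.mul (NL.G v (by decide) 1 (by decide) rfl),
    lk_v h0.2 (by decide)⟩ 3 le_rfl) 0 (by decide)) 1 (by decide)) 2 (by decide)
  refine ⟨_, h.1, ?_, lk_congr h.2 (by decide), Sim.of_eq ?_⟩
  · rw [d1c_E3, d1c_Et2, d1b_hWE]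
  · rw [TT_Y1, ← mul_assoc, W0, d1b_hW]

/-- PLAN: `d1b_h1`, `d1b_h1E`, `lk_m`. -/
theorem ph_W1 : Ph 2 A1 (W0 : Cob X) := by
  have h := d1c_y (X := X)
  refine ⟨_, h.1.mul (NL.G m (by decide) 4 le_rfl rfl), ?_,
    lk_congr (lk_m (i := 4) h.2 (by decide)) (by decide), Sim.of_eq ?_⟩
  · rw [d1c_E3, d1c_Et2, d1b_h1E]
  · rw [TT_Y1, ← mul_assoc, W0, d1b_h1]

omit [Snd X] in
theorem d1c_congr {n : ℕ} {A A' : ℕ → ℕ → ℤ} {g : Cob X} (h : Ph n A g)
    (hA : ∀ x < 3 + n, ∀ y < 3 + n, A x y = A' x y) : Ph n A' g :=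
  let ⟨k, h1, h2, h3, h4⟩ := h
  ⟨k, h1, h2, lk_congr h3 hA, h4⟩

/-- PLAN: `ph_cr`. -/
theorem ph_W' : Ph 2 AW' (W0 * G P 0 : Cob X) ∧ Ph 2 A1' (W0 * G P 0 : Cob X) := by
  exact ⟨d1c_congr (ph_cr ph_W (i := 0) (by decide)) (by decide),
    d1c_congr (ph_cr ph_W1 (i := 0) (by decide)) (by decide)⟩

/-- PLAN: `d1b_hy`, `d1b_hyE`. -/
theorem ph_y : Ph 3 Ay (y0 : Cob X) := by
  have h := d1c_y (X := X)
  refine ⟨_, h.1, ?_, h.2, Sim.of_eq ?_⟩
  · rw [d1c_E3, Et_succ, d1c_Et2, d1b_hyE]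
  · rw [TT_Y1, ← mul_assoc, y0, d1b_hy]

variable {D : ℕ}

theorem d1c_un (hD : Nil D X) {n : ℕ} {A : ℕ → ℕ → ℤ} {g : Cob X} (hg : Ty 0 n g)
    (h : Ph n A g) : ∃ y : Gp X n, vl y = g ∧ y ∈ NN X n 1 := by
  obtain ⟨y, rfl⟩ := un_sim hD le_rfl hg (ph_one h)
  exact ⟨y, rfl, (mem_NN le_rfl y).2 (ph_one h)⟩

theorem un_W0 (hD : Nil D X) : ∃ y : Gp X 2, vl y = W0 ∧ y ∈ NN X 2 1 := by
  exact d1c_un hD W0_ty ph_W

theorem un_y0 (hD : Nil D X) : ∃ y : Gp X 3, vl y = y0 ∧ y ∈ NN X 3 1 := by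
  exact d1c_un hD y0_ty ph_y

/-- PLAN: `ph_add` for `AW`, `AW` and the matrix `AW` with row `0` removed; `ph_zero`,
`ph_uniq`. -/
theorem W0_sq (hD : Nil D X) {y : Gp X 2} (h : vl y = W0) : y * y ∈ NN X 2 2 := by
  have hv : Val 3 (3 + 2) [.c true 1 3, .c true 2 4] := by
    intro t ht
    simp only [List.mem_cons, List.not_mem_nil, or_false] at ht
    rcases ht with rfl | rfl <;> simp [It.fst, It.snd]
  have hA : Adm 2 (lkl [.c true 1 3, .c true 2 4]) :=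
    ⟨lkl_symm _, fun i j hi hj => lkl_low hv hi hj, fun i j hj => lkl_out hv (Or.inr hj)⟩
  have h0 : ∀ j, lkl [.c true 1 3, .c true 2 4] 0 j = 0 := fun j => by simp [lkl, It.lk]
  have hR : AddR (lkl [.c true 1 3, .c true 2 4]) AW AW := by
    refine ⟨fun i j hi _ => (and_self_iff).2 ?_, fun j hj => ?_, by decide⟩
    · rw [AW, lkl_cons (.v true 0), It.lk, if_neg fun k => hi k.1, zero_add]
    · rw [AW, lkl_cons (.v true 0), It.lk, if_neg fun k => hj k.2, h0]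
      rfl
  rw [mem_NN (by decide), vl_mul, h]
  exact ph_uniq (ph_add hD hA adm_two.1 adm_two.1 hR ph_W ph_W) (ph_zero hA h0)

/-- PLAN: `nn_ind` with `k = 1`; letters of degree `≥ 2` are in `NN 2` (`Ltr.sim`, `sim_le`);
for degree one use `ph_letter` and `deg1_abs` for the property
`fun A => ∀ g : Gp X n, Ph n A (vl g) → g ∈ S`, `S` the subgroup in the statement (`ph_ex`,
`ph_add`, `ph_uniq`, `mem_NN'`, `s01_s01`, `ph_supp` with `un_sim`, `ph_sim`). -/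
theorem deg1_gen (hD : Nil D X) {n : ℕ} (hn : 2 ≤ n) {y : Gp X n} (h2 : n = 2 → vl y = W0)
    (h3 : n = 3 → vl y = y0) : ∀ x ∈ NN X n 1, x ∈ Subgroup.closure
      ({y} ∪ {x | x ∈ NN X n 1 ∧ ∃ i < n, dlt n i x = x} ∪ (NN X n 2 : Set (Gp X n))) := by
  generalize hS : Subgroup.closure
    ({y} ∪ {x | x ∈ NN X n 1 ∧ ∃ i < n, dlt n i x = x} ∪ (NN X n 2 : Set (Gp X n))) = S
  have s1 : y ∈ S := hS ▸ Subgroup.subset_closure (Or.inl (Or.inl rfl))
  have s2 : ∀ x ∈ NN X n 1, ∀ i < n, dlt n i x = x → x ∈ S := fun x hx i hi e =>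
    hS ▸ Subgroup.subset_closure (Or.inl (Or.inr ⟨hx, i, hi, e⟩))
  have s3 : ∀ x ∈ NN X n 2, x ∈ S := fun x hx => hS ▸ Subgroup.subset_closure (Or.inr hx)
  have K : ∀ {A : ℕ → ℕ → ℤ} {x : Gp X n}, Ph n A (vl x) → x ∈ S →
      ∀ g : Gp X n, Ph n A (vl g) → g ∈ S := fun {A x} h hx g hg => by
    have := mul_mem hx (s3 _ ((mem_NN' (by decide) x g).2 (ph_uniq h hg)))
    rwa [mul_inv_cancel_left] at this
  have H : Deg1 n fun A => ∀ g : Gp X n, Ph n A (vl g) → g ∈ S := by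
    refine ⟨fun A A' A'' hA hA' hA'' hR => ?_, fun A hA h => K (x := 1) (ph_zero hA h) (one_mem _),
      fun A _ h g hg => h g (s01_s01 A ▸ ph_s01 hg), fun A _ h g hg => h g (s12_s12 A ▸ ph_s12 hg),
      fun A hA i hi h => ?_, fun e => ?_, fun e => ?_⟩
    · obtain ⟨x, hx⟩ := ph_ex hD hA'
      refine ⟨fun k k' => ?_, fun k k' g hg => ?_⟩
      · obtain ⟨z, hz⟩ := ph_ex hD hA''
        exact K (x := x * z) (ph_add hD hA hA' hA'' hR hx hz) (mul_mem (k x hx) (k' z hz))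
      · exact (mul_mem_cancel_left (k' x hx)).1 (k (x * g) (ph_add hD hA hA' hA'' hR hx hg))
    · obtain ⟨g, h1, h2, h3⟩ := ph_supp (X := X) hA hi h
      obtain ⟨x, rfl, hx⟩ := d1c_un hD h1 h2
      exact K h2 (s2 x hx i hi (vl_inj ((vl_dlt hi x).trans h3)))
    · subst e
      exact K (h3 rfl ▸ ph_y) s1
    · subst e
      refine ⟨K (h2 rfl ▸ ph_W) s1, K (h2 rfl ▸ ph_W1) s1, fun k => ?_⟩
      obtain ⟨x, hx, -⟩ := d1c_un hD (W0_ty.mul (Ty.G P 0 le_rfl rfl)) ph_W'.1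
      exact K (hx ▸ ph_W'.2) (k x (hx ▸ ph_W'.1))
  intro x hx
  refine nn_ind hD le_rfl (p := fun g => g ∈ S) (one_mem _) (fun _ _ => mul_mem)
    (fun j hj g hg => ?_) hx
  rcases hj.eq_or_lt with rfl | hj
  · obtain ⟨A, hA, h⟩ := ph_letter hg
    exact deg1_abs H hn hA g h
  · exact s3 g ((mem_NN (by decide) g).2 (sim_le hj hg.sim))

end Pool.Agent.GH
end

-- merged part: Pool.Agent.Work.MP_c00b06_gt.Lam
section
/-! The triple linking number and the invariant of the Whitehead link. -/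

namespace Pool.Agent.GH
open Gn

variable {X : Wd → Wd → Prop}

variable [Snd X] {D : ℕ}

/-- PLAN: `rl_y0`, `R_mk`, `cen3`. -/
theorem cn_y0 [Gd U3 X] : Cn t3 3 (y0 : Cob X) (fun i => if i = 2 then ⟨0, 0, 1⟩ else 1) := by
  refine ⟨fun i => ?_, (R_mk _ _ _).2 rl_y0⟩
  beta_reduce
  split_ifs
  exacts [cen3 1, one_mem _]

/-- PLAN: `rl_W0`, `R_mk`, `cen4`. -/
theorem cn_W0 [Gd U4 X] :
    Cn t4 2 (W0 : Cob X) (fun i => if i = 0 then ⟨0, 0, 0, 0, 0, 1⟩ else 1) := by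
  refine ⟨fun i => ?_, (R_mk _ _ _).2 rl_W0⟩
  beta_reduce
  split_ifs
  exacts [cen4 1, one_mem _]

/-- PLAN: `nn_ind` with `k = 1`; `kl` for letters of degree one, `cn_sim` with `Ltr.sim`, `sim_le`
and `cn_one` for the other letters; `flt3`. -/
theorem tot3 [Gd U3 X] (hD : Nil D X) {g : Gp X 3} (hg : g ∈ NN X 3 1) :
    ∃ ℓ, Cn t3 3 (vl g) ℓ := by
  obtain ⟨F, hF⟩ := flt3
  refine nn_ind hD le_rfl (p := fun g => ∃ ℓ, Cn t3 3 (vl g) ℓ) ⟨1, cn_one _ _⟩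
    (fun a b ⟨ℓ, h⟩ ⟨ℓ', h'⟩ => ⟨_, cn_mul h h'⟩) (fun j hj g h => ?_) hg
  rcases hj.eq_or_lt with rfl | hj
  · obtain ⟨τ, l, h1, hl, e⟩ := h
    rw [← h1] at hl e
    obtain ⟨x, ℓ, -, k, -⟩ := kl (X := X) F τ h1.ge (by rw [h1, hF]) hl t3 adc3
    exact ⟨ℓ, e ▸ k⟩
  · exact ⟨1, cn_sim F hF (sim_le hj h.sim).symm (cn_one _ _)⟩

/-- PLAN: `nn_ind` with `k = 2`; `kl`, `hom4`, `lkl_symm`, `even4` for letters of degree two,
`cn_sim` for the other letters; `flt4`, `adc4`. -/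
theorem tot4 [Gd U4 X] (hD : Nil D X) {g : Gp X 2} (hg : g ∈ NN X 2 2) :
    ∃ ℓ, Cn t4 2 (vl g) ℓ ∧ Even (ℓ 0).f := by
  obtain ⟨F, hF⟩ := flt4
  refine nn_ind hD one_le_two (p := fun g => ∃ ℓ, Cn t4 2 (vl g) ℓ ∧ Even (ℓ 0).f)
    ⟨1, cn_one _ _, Even.zero⟩ (fun a b ⟨ℓ, h, k⟩ ⟨ℓ', h', k'⟩ => ⟨_, cn_mul h h', ?_⟩)
    (fun j hj g h => ?_) hg
  · rw [Pi.mul_apply, adc4 _ (h.1 0) _ (h'.1 0)]
    exact k.add k'
  rcases hj.eq_or_lt with rfl | hj
  · obtain ⟨τ, l, h1, hl, e⟩ := h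
    obtain ⟨x, ℓ, k1, k2, k3⟩ := kl (X := X) (n := 2) (l := l) F τ (by omega) (by rw [h1, hF])
      (by rwa [h1]) t4 adc4
    refine ⟨ℓ, by rwa [e, ← show τ.nn + 2 = 2 + 2 by omega], ?_⟩
    obtain ⟨⟨πa, ha⟩, ⟨πb, hb⟩, πc, hc⟩ := hom4
    have ka := k1 πa
    have kb := k1 πb
    have kc := k1 πc
    simp only [ha, hb, hc, h1, Finset.sum_range_succ, Finset.sum_range_zero, t4, mul_one, mul_zero,
      add_zero, zero_add] at ka kb kc
    rw [k3 0 two_pos, h1, Finset.sum_congr rfl fun a k => by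
      rw [lkl_symm, Nat.add_zero, ← ka a (Finset.mem_range.1 k)]]
    exact even4 τ h1 x fun a k => (kc a k).trans (kb a k).symm
  · exact ⟨1, cn_sim F hF (sim_le hj h.sim).symm (cn_one _ _), Even.zero⟩

/-- PLAN: `inv_lam` with `S = Cy`, `s = 2`; `Cy ≤ NN 1`; `lam` vanishes on `NN 2` (`cn_sim`). -/
theorem lam3 [Gd U3 X] (hD : Nil D X) {y : Gp X 3} (h : vl y = y0) (hy : y ∈ NN X 3 1) :
    ∃ lam : Gp X 3 → ℤ,
      (∀ a ∈ Cy (NN X 3) y, ∀ b ∈ Cy (NN X 3) y, lam (a * b) = lam a + lam b) ∧ lam y = 1 ∧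
      (∀ x ∈ NN X 3 3, lam x = 0) ∧ ∀ x ∈ NN X 3 2, y ^ lam x ∈ NN X 3 2 := by
  obtain ⟨F, hF⟩ := flt3
  have h1 : Cy (NN X 3) y ≤ NN X 3 1 := (Subgroup.closure_le _).2 (by
    rintro x (rfl | hx)
    exacts [hy, NN_anti 3 1 hx])
  obtain ⟨lam, k1, k2⟩ := inv_lam t3 (s := 2) (by omega) adc3 (Cy (NN X 3) y)
    fun g hg => tot3 hD (h1 hg)
  have h2 : ∀ x ∈ NN X 3 2, lam x = 0 := fun x hx =>
    k2 x (gt3_le y hx) 1 (cn_sim F hF ((mem_NN one_le_two x).1 hx).symm (cn_one _ _))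
  refine ⟨lam, k1, k2 y (gt3_y y) _ (h ▸ cn_y0), fun x hx => h2 x (NN_anti 3 2 hx),
    fun x hx => ?_⟩
  rw [h2 x hx, zpow_zero]
  exact one_mem _

/-- PLAN: `inv_lam` with `S = Cy`, `s = 0`.  Every element of `Cy` has longitudes: `mem_Cy`,
`y ^ k = (y * y) ^ (k / 2) * y ^ (k % 2)`, `W0_sq`, `tot4`, `cn_W0`, `cn_mul`. -/
theorem lam2 [Gd U4 X] (hD : Nil D X) {y : Gp X 2} (h : vl y = W0) :
    ∃ lam : Gp X 2 → ℤ,
      (∀ a ∈ Cy (NN X 2) y, ∀ b ∈ Cy (NN X 2) y, lam (a * b) = lam a + lam b) ∧ lam y = 1 ∧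
      (∀ x ∈ NN X 2 3, lam x = 0) ∧ ∀ x ∈ NN X 2 2, y ^ lam x ∈ NN X 2 2 := by
  obtain ⟨F, hF⟩ := flt4
  have sq : ∀ k : ℤ, y ^ (k + k) ∈ NN X 2 2 := fun k => by
    rw [zpow_add, ← (Commute.refl y).mul_zpow]
    exact zpow_mem (W0_sq hD h) k
  obtain ⟨lam, k1, k2⟩ := inv_lam t4 (s := 0) two_pos adc4 (Cy (NN X 2) y) fun g hg => by
    obtain ⟨k, hk⟩ := (mem_Cy (fl_NN hD 2) y g).1 hg
    rcases Int.even_or_odd' k with ⟨j, rfl | rfl⟩
    · have := mul_mem (sq j) hk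
      rw [two_mul, mul_inv_cancel_left] at this
      exact (tot4 hD this).imp fun _ k => k.1
    · obtain ⟨ℓ, k, -⟩ := tot4 hD (mul_mem (sq j) hk)
      have k' := cn_mul (h ▸ cn_W0 : Cn t4 2 (vl y) _) k
      rw [← vl_mul, ← mul_assoc, ← zpow_one_add, two_mul, add_comm 1, mul_inv_cancel_left] at k'
      exact ⟨_, k'⟩
  refine ⟨lam, k1, k2 y (gt3_y y) _ (h ▸ cn_W0), fun x hx => k2 x (gt3_le y (NN_anti 2 2 hx)) 1
    (cn_sim F hF ((mem_NN (by omega) x).1 hx).symm (cn_one _ _)), fun x hx => ?_⟩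
  obtain ⟨ℓ, k, j, e⟩ := tot4 hD hx
  rw [k2 x (gt3_le y hx) ℓ k, e]
  exact sq j

end Pool.Agent.GH
end

-- merged part: Pool.Agent.Work.MP_c00b06_gt.Cub
section
/-! Surgeries along disjoint Y-graphs form a cube. -/

namespace Pool.Agent.GH
open Gn

variable {X : Wd → Wd → Prop}

variable [Snd X] {D : ℕ}

omit [Snd X] in
theorem cub_hm {p N : ℕ} (h : p ≤ N) : Hm N N (E p * Et p : Cob X) :=
  mu1_cast (hm_mul (hm_E0 p (N - p)) (hm_Et0 p (N - p))) (by omega) (by omega)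

omit [Snd X] in
theorem cub_del (o p : ℕ) :
    (E (o + p) * Et (o + p) * up o (E p) : Cob X) = E o * Et o * up o (E p) := by
  rw [mu1_f ((E_ty o).mul (Et_ty o)), ← mul_assoc, ← E_add', Et_add', mul_assoc, mul_assoc,
    ← map_mul, Et_E, map_one, mul_one]

theorem un_sel (hD : Nil D X) {r n : ℕ} {x : Cob X} (hx : Ty 0 (3 * r + n) x)
    (hu : Un n (x * E (3 * r))) (s : List Bool) (hs : s.length = r) : Un n (x * mk (sel s)) := by
  subst hs
  exact un_sim' hD hu (hx.mul ((sel_ty s).wide (by omega) (by omega))) ((sim_sel s).left x)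

/-- PLAN.  Induction on `r`, for all `b x x'`.  `r = 0`: `mem_NN'`.  Step `r + 1`: `x`, `x'` are
units, `γ = x⁻¹ x'`, `x_q = pr x (vl γ * (E (3 q) * Et (3 q)))` for `q ≤ r + 1`; `x_0 = x'`.  The
function is the product of the function of the pair `(x, x_(r+1))`, which is the constant
`γ * E (3 (r + 1))` (`eta_r`, `cube_const`), and of those of the pairs `(x_(q+1), x_q)` for
`q = r, ..., 0` (`cube_mul`, `cube_congr`; descending induction on `q`).  For such a pair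
`x_(q+1) * up (3 q) (E 3) = x_q * up (3 q) (E 3)` (`hm_E`), so `cube_ins`, `sel_ins`, `k1_Y_at`
and the induction hypothesis at level `b + 1` apply. -/
theorem cube_pair (hD : Nil D X) {n : ℕ} (r : ℕ) {b : ℕ} (hb : 1 ≤ b) {x x' : Cob X}
    (hx : Ty 0 (3 * r + n) x) (hx' : Ty 0 (3 * r + n) x') (h : Sim b x x')
    (hu : Un n (x * E (3 * r))) :
    Cube (NN X n) r b (fun s => (tu n (x * mk (sel s)))⁻¹ * tu n (x' * mk (sel s))) := by
  induction r generalizing b x x' with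
  | zero =>
    rw [Nat.mul_zero, E_zero, mul_one] at hu
    rw [Nat.mul_zero, Nat.zero_add] at hx'
    refine (mem_NN' hb _ _).2 ?_
    rwa [sel_nil, mul_one, mul_one, vl_tu hu, vl_tu (un_sim' hD hu hx' (sim_le hb h.symm))]
  | succ r ih =>
    have hF := fl_NN hD n
    have u1 := unit_of_E hD hx hu
    obtain ⟨g', rfl⟩ := un_sim' hD u1 hx' (sim_le hb h.symm)
    obtain ⟨g, rfl⟩ := u1
    have hγ := (mem_NN' hb g g').2 h
    let y : ℕ → Cob X := fun q =>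
      pr (3 * (r + 1) + n) (vl g) (vl (g⁻¹ * g') * (E (3 * q) * Et (3 * q)))
    have hy : ∀ q ≤ r + 1, ∃ k, vl k = y q ∧ g⁻¹ * k ∈ NN X _ b := fun q hq =>
      have a := cub_hm (X := X) (p := 3 * q) (N := 3 * (r + 1) + n) (by omega)
      ⟨g * a.gp (g⁻¹ * g'), rfl, by rw [inv_mul_cancel_left]; exact a.mem_NN hγ⟩
    have step : ∀ q ≤ r, Cube (NN X n) (r + 1) b
        fun s => (tu n (y (q + 1) * mk (sel s)))⁻¹ * tu n (y q * mk (sel s)) := fun q hq => by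
      obtain ⟨k, k1, k2⟩ := hy q (by omega)
      obtain ⟨k', k1', k2'⟩ := hy (q + 1) (by omega)
      have hm : Hm (3 * (r + 1) + n) (3 * r + n) (up (3 * q) (E 3) : Cob X) :=
        mu1_cast (hm_E (3 * q) 3 (3 * (r - q) + n)) (by omega) (by omega)
      have hE : y (q + 1) * up (3 * q) (E 3) = y q * up (3 * q) (E 3) := by
        simp only [y, hm.pr, mul_assoc (vl _)]
        rw [Nat.mul_succ 3 q, cub_del]
      have hs : Sim b (vl k') (vl k) := ((mem_NN' hb _ _).1 k2').symm.trans ((mem_NN' hb _ _).1 k2)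
      have ty : ∀ k : Gp X (3 * (r + 1) + n), Ty 0 (3 * r + n) (vl k * up (3 * q) (TT Y1)) :=
        fun k => (vl_ty k).mul ((slot_ty true).at _ (by omega) (by omega))
      have u2 : Un (3 * r + n) (vl k' * up (3 * q) (E 3)) := Un.hm ⟨k', rfl⟩ hm
      rw [← k1, ← k1'] at hE ⊢
      refine cube_ins hF hq (fun s hs => ?_) (cube_congr (fun s hs => ?_) (ih (b := b + 1) (by omega)
        (ty k') (ty k) (k1_Y_at (n := 3 * (r - q) + n) hD hb ((vl_ty k').cast rfl (by omega))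
          ((vl_ty k).cast rfl (by omega)) hs hE ?_) ?_))
      · rw [sel_ins s (hs ▸ hq), ← mul_assoc, ← mul_assoc]
        exact inv_mul_eq_one.2 (congrArg (fun z => tu n (z * _)) hE)
      · rw [sel_ins s (hs ▸ hq), ← mul_assoc, ← mul_assoc]
        rfl
      · rwa [show 3 * q + (3 * (r - q) + n) = 3 * r + n by omega]
      · exact (un_sim' hD u2 (ty k') (((sim_TT Y1).up _).left _)).hm (hm_E0 _ _)
    have key : ∀ j q, q + j = r + 1 → Cube (NN X n) (r + 1) b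
        fun s => (tu n (vl g * mk (sel s)))⁻¹ * tu n (y q * mk (sel s)) := by
      intro j
      induction j with
      | zero =>
        rintro q rfl
        refine cube_congr (fun s hs => ?_) (cube_const hF _ ((hm_E0 _ n).mem_NN hγ))
        have e := eta_r (n := n) (hs ▸ sel_ty (X := X) s) (vl g) (vl (g⁻¹ * g') * E (3 * (r + 1)))
        rw [Et_zero, mul_one, Nat.zero_add, mul_assoc, ← vl_tu (un_sel hD hx hu s hs)] at e
        refine eq_inv_mul_iff_mul_eq.2 ((tu_vl _).symm.trans (congrArg _ e.symm))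
      | succ j ihj =>
        intro q hq
        refine cube_congr (fun s _ => ?_) (cube_mul hF (ihj (q + 1) (by omega)) (step q (by omega)))
        rw [mul_assoc, mul_inv_cancel_left]
    have e0 : y 0 = vl g' := by
      simp only [y, Nat.mul_zero, E_zero, Et_zero, mul_one, ← vl_mul, mul_inv_cancel_left]
    exact e0 ▸ key (r + 1) 0 (by omega)

/-- PLAN: induction on `r`; `sel_cons`; `cube_pair` for `x * E 3` and `x * TT Y1`. -/
theorem cube_sel (hD : Nil D X) {n : ℕ} (r : ℕ) {x : Cob X} (hx : Ty 0 (3 * r + n) x)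
    (hu : Un n (x * E (3 * r))) : Cube (NN X n) r 0 (fun s => tu n (x * mk (sel s))) := by
  induction r generalizing x with
  | zero => exact Or.inl rfl
  | succ r ih =>
    have ty : ∀ o, Ty 0 (3 * r + n) (x * slot o) := fun o =>
      hx.mul ((slot_ty o).wide (by omega) (by omega))
    have u1 : Un n (x * slot false * E (3 * r)) := by
      rwa [show 3 * (r + 1) = 3 + 3 * r by omega, E_add, ← mul_assoc] at hu
    constructor
    · simpa only [sel_cons, ← mul_assoc] using ih (ty false) u1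
    · simpa only [sel_cons, ← mul_assoc] using cube_pair hD r le_rfl (ty false) (ty true)
        ((sim_TT Y1).symm.left x) u1

end Pool.Agent.GH
end

-- merged part: Pool.Agent.Work.MP_c00b06_gt.Main
section
/-! Polynomial maps of low degree separate the invertible states. -/

namespace Pool.Agent.GH
open Gn

variable {X : Wd → Wd → Prop}

variable {D : ℕ}

/-- PLAN: `gt_comm`; `slack` with `i = j = 1`, `Fl.le`, `NN_nil`. -/
theorem main_lo [Snd X] (hD : Nil D X) (h1 : 1 ≤ D) (h3 : D ≤ 3) (n : ℕ) {g : Gp X n}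
    (hg : Dm (NN X n) Set.univ D g) : g = 1 := by
  refine gt_comm (fl_NN hD n) (fun x hx y hy => ?_) h1 (NN_nil hD h1 n) hg
  have h := (fl_NN hD n).le h3 (slack hD n 1 1 le_rfl le_rfl x hx y hy)
  rwa [NN_nil hD h1, Subgroup.mem_bot, mul_inv_eq_one, mul_inv_eq_iff_eq_mul] at h

/-- PLAN: `gt_comm`, `pr_comm_zero`, `pr_comm_one`, `vl_inj`. -/
theorem main_one [Snd X] (hD : Nil D X) (h1 : 1 ≤ D) {n : ℕ} (hn : n ≤ 1) {g : Gp X n}
    (hg : Dm (NN X n) Set.univ D g) : g = 1 := by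
  refine gt_comm (fl_NN hD n) (fun x _ y _ => vl_inj ?_) h1 (NN_nil hD h1 n) hg
  rw [vl_mul, vl_mul]
  obtain rfl | rfl := Nat.le_one_iff_eq_zero_or_eq_one.1 hn
  exacts [pr_comm_zero (vl_ty x), pr_comm_one (vl_ty x) (vl_ty y)]

/-- PLAN: induction on `n`.  For `n + 1 ≥ 2` the images of `g` under `(hm_u _).gp` are trivial
(`dm_map`, `Hm.mem_NN`, induction hypothesis), so `dlt (n + 1) i g = 1` (`vl_dlt`, `Et_ins`).
Apply `gt_step` with `y` from `un_W0`, `un_y0`, or `y = 1` for four or more strands (`deg1_gen`,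
`lam2`, `lam3`, `dlt_W0`, `dlt_y0`, `dlt_comm`, `dlt_NN`, `slack`, `fl_NN`, `NN_nil`). -/
theorem main_hi [Snd X] [Gd U3 X] [Gd U4 X] (hD : Nil D X) (h3 : 3 ≤ D) (h7 : D ≤ 7) (n : ℕ)
    {g : Gp X n} (hg : Dm (NN X n) Set.univ D g) : g = 1 := by
  have h1 : 1 ≤ D := by omega
  induction n with
  | zero => exact main_one hD h1 zero_le_one hg
  | succ n ih =>
    rcases Nat.eq_zero_or_pos n with rfl | hn
    · exact main_one hD h1 le_rfl hg
    have hb : ∀ i < n + 1, dlt (n + 1) i g = 1 := fun i hi => by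
      have a := hm_u (X := X) (Nat.le_of_lt_succ hi)
      have e := congrArg vl (ih (dm_map a.gp (fun _ _ hx => a.mem_NN hx) hg))
      rw [a.vl_gp, vl_one] at e
      exact vl_inj (by rw [vl_dlt hi, ← mul_assoc, e, Et_ins (Nat.le_of_lt_succ hi), vl_one])
    have key := fun (y : Gp X (n + 1)) hy hyd h2 h3' hl =>
      gt_step (fl_NN hD (n + 1)) (fun i j hi hj x hx z hz => slack hD _ i j hi hj x hx z hz) h3 h7
        (NN_nil hD h1 _) (n + 1) (dlt (n + 1)) (dlt_comm _) (dlt_NN _) (y := y) hy hyd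
        (deg1_gen hD (Nat.succ_le_succ hn) h2 h3') hl hg hb
    obtain rfl | rfl | hn : n = 1 ∨ n = 2 ∨ 3 ≤ n := by omega
    · obtain ⟨y, e, hy⟩ := un_W0 hD
      exact key y hy (fun i hi => dlt_W0 e i hi ▸ one_mem _) (fun _ => e) (fun a => by omega)
        (.inr (lam2 hD e))
    · obtain ⟨y, e, hy⟩ := un_y0 hD
      exact key y hy (fun i hi => dlt_y0 e i hi ▸ one_mem _) (fun a => by omega) (fun _ => e)
        (.inr (lam3 hD e hy))
    · exact key 1 (one_mem _) (fun i _ => by rw [map_one]; exact one_mem _) (fun a => by omega)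
        (fun a => by omega) (.inl (one_mem _))

/-- PLAN: `snd_same`, `gd_same`, `snd_XD`, `gd_XD` with `flt3`, `flt4` (`Flt.le`), `nil_XD`. -/
theorem main_XD (hX : ∀ x y, X x y → Same x y) (h1 : 1 ≤ D) (h7 : D ≤ 7) (n : ℕ)
    {g : Gp (XD D X) n} (hg : Dm (NN (XD D X) n) Set.univ D g) : g = 1 := by
  have := snd_same hX
  have := snd_XD (X := X) h1
  rcases le_total D 3 with h | h
  · exact main_lo (nil_XD D) h1 h n hg
  obtain ⟨F, hF⟩ := flt3
  obtain ⟨F', hF'⟩ := flt4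
  have := gd_same hX U3
  have := gd_same hX U4
  have := gd_XD (X := X) F (D := D) (le_bot_iff.1 (hF ▸ F.le (by omega)))
  have := gd_XD (X := X) F' (D := D) (le_bot_iff.1 (hF' ▸ F'.le (by omega)))
  exact main_hi (nil_XD D) h h7 n hg

end Pool.Agent.GH
end

-- merged part: Pool.Agent.Work.MP_c00b06_gt.Fin
section
/-! The two implications. -/

namespace Pool.Agent.GH
open Gn

variable {X : Wd → Wd → Prop}

variable {g b k : ℕ}

/-- PLAN: `exists_O`; choose a word for `mk x * O`; the cube `c s = if all s then C' else C`;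
`alt_eq`, `alt_congr`, `alt_top`, `mk_fl`, `mk_sg`. -/
theorem easy_step (hk : 1 ≤ k) {C C' : HC X g b} (h : YStep k C C') {A : Type} [AddCommGroup A]
    (f : FreeAbelianGroup (HC X g b) →+ A) (hf : ∀ z ∈ Fil X g b k, f z = 0) :
    f (FreeAbelianGroup.of C) = f (FreeAbelianGroup.of C') := by
  obtain ⟨x, t, rfl, hx, e, e'⟩ := h
  obtain ⟨O, hO, hs⟩ := exists_O (X := X) t
  obtain ⟨y, hy, hy'⟩ := (Ty.mk hx).mul (hO.pad (2 * g + b))
  have h1 := hf _ (AddSubgroup.subset_closure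
    ⟨t.nn, y, fun s => if (List.ofFn s).all id then C' else C, le_rfl, hy', fun s => ?_, rfl⟩)
  · rw [map_sum] at h1
    simp only [map_zsmul, apply_ite FreeAbelianGroup.of, apply_ite f] at h1
    rw [alt_eq t.nn fun s => if s.all id then f (FreeAbelianGroup.of C')
      else f (FreeAbelianGroup.of C), alt_top hk, (isUnit_one.neg.pow _).smul_eq_zero] at h1
    exact (sub_eq_zero.1 h1).symm
  · change _ = mk y * mk (sel _)
    rw [hy, mul_assoc, hs _ List.length_ofFn]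
    beta_reduce
    split_ifs
    · exact e'
    · rw [← mk_fl]
      exact e

theorem easy (hk : 1 ≤ k) {C C' : HC X g b} (h : Relation.EqvGen (YStep k) C C') {A : Type}
    [AddCommGroup A] (f : FreeAbelianGroup (HC X g b) →+ A) (hf : ∀ z ∈ Fil X g b k, f z = 0) :
    f (FreeAbelianGroup.of C) = f (FreeAbelianGroup.of C') := by
  induction h with
  | rel x y h => exact easy_step hk h f hf
  | refl x => rfl
  | symm x y _ ih => exact ih.symm
  | trans x y z _ _ ih ih' => exact ih.trans ih'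

/-- A function on homology cylinders whose alternating sums vanish.  PLAN:
`FreeAbelianGroup.lift`, `AddSubgroup.closure_induction`, `alt_eq`. -/
theorem fil_ker {A : Type} [AddCommGroup A] (θ : Cob X → A)
    (hθ : ∀ (r : ℕ) (x : Wd), k ≤ r → Ok 0 x (3 * r + (2 * g + b)) →
      alt r (fun s => θ (mk (x ++ sel s))) = 0) :
    ∀ z ∈ Fil X g b k, FreeAbelianGroup.lift (fun C : HC X g b => θ C.1) z = 0 := by
  refine fun z hz => (AddSubgroup.closure_le
    (FreeAbelianGroup.lift fun C : HC X g b => θ C.1).ker).2 ?_ hz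
  rintro _ ⟨r, x, c, hr, hx, hc, rfl⟩
  change FreeAbelianGroup.lift _ _ = 0
  rw [map_sum]
  simp only [map_zsmul, FreeAbelianGroup.lift_apply_of, hc]
  exact (alt_eq r fun s => θ (mk (x ++ sel s))).trans (hθ r x hr hx)

/-- The quotient map. -/
def toXD (D : ℕ) : Cob X → Cob (XD D X) :=
  Quot.lift (fun x => mk x) fun _ _ h => mk_XD D (Quot.sound h)

theorem toXD_mk (D : ℕ) (x : Wd) : toXD D (mk x : Cob X) = mk x := rfl

theorem fin_far {r : ℕ} (x φ : Cob X) (s : List Bool) (hs : s.length = r) :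
    x * mk (sel s) * φ = x * up (3 * r) φ * mk (sel s) := by
  have h := far (sel_ty (X := X) s) 0 φ
  rw [Nat.add_zero, Nat.add_zero, up_zero, hs] at h
  rw [mul_assoc, h, mul_assoc]

/-- All vertices of a cube are invertible, or none.  PLAN:
`x * mk (sel s) * φ = x * up (3 * r) φ * mk (sel s)` (`far`, `sel_ty`); `un_sel`; `un_sim'` with
`sim_sel`. -/
theorem un_cube [Snd X] {D : ℕ} (hD : Nil D X) {r n : ℕ} {x φ : Cob X} (hx : Ty 0 (3 * r + n) x)
    (hφ : Ty n n φ) (s : List Bool) (hs : s.length = r) :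
    Un n (x * mk (sel s) * φ) ↔ Un n (x * up (3 * r) φ * E (3 * r)) := by
  have hy := hx.mul (hφ.up (3 * r))
  rw [fin_far x φ s hs]
  refine ⟨fun h => un_sim' hD h (hy.mul ((E_ty _).wide (by omega) (by omega))) ?_,
    fun h => un_sel hD hy h s hs⟩
  exact (hs ▸ (sim_sel s).symm).left _

/-- PLAN: `cube_sel` for `x * up (3 * r) φ` if it applies, else all values are `θ 1` (`un_cube`,
`alt_const`). -/
theorem alt_cube [Snd X] {D : ℕ} (hD : Nil D X) (h1 : 1 ≤ D) {r n : ℕ} (hr : D ≤ r) {x φ : Cob X}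
    (hx : Ty 0 (3 * r + n) x) (hφ : Ty n n φ) {A : Type} [AddCommGroup A] {θ : Gp X n → A}
    (hθ : Pol (NN X n) Set.univ D θ) : alt r (fun s => θ (tu n (x * mk (sel s) * φ))) = 0 := by
  by_cases hu : Un n (x * up (3 * r) φ * E (3 * r))
  · rw [alt_congr fun s hs => by rw [fin_far x φ s hs]]
    exact hθ r hr _ (cube_sel hD r (hx.mul (hφ.up (3 * r))) hu) fun _ _ => Set.mem_univ _
  · rw [alt_congr (g := fun _ => θ 1) fun s hs => by
      rw [tu, dif_neg (mt (un_cube hD hx hφ s hs).1 hu)]]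
    exact alt_const (h1.trans hr) _

/-- PLAN: work in `Cob (XD k X)`, `n = 2 * g + b`.  Take words `x`, `x'` for `C`, `C'`, `φ` from
`sp` for `x`; `mk x * φ` is invertible (`std_unit`).  The indicator of `Un n (toXD k c * φ)` has
vanishing alternating sums (`un_cube`, `alt_const`, `fil_ker`), so `mk x' * φ` is invertible.
`dm_of_sep` with `fil_ker` and `alt_cube`, then `main_XD`, `vl_tu`; cancel `φ`; `sim_of_XD`. -/
theorem hard_sim (hX : ∀ x y, X x y → Same x y) (h1 : 1 ≤ k) (h7 : k ≤ 7) {C C' : HC X g b}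
    (H : ∀ (A : Type) [AddCommGroup A] (f : FreeAbelianGroup (HC X g b) →+ A),
      (∀ z ∈ Fil X g b k, f z = 0) → f (FreeAbelianGroup.of C) = f (FreeAbelianGroup.of C')) :
    Sim k C.1 C'.1 := by
  classical
  have := snd_same hX
  have : Snd (XD k X) := snd_XD h1
  have hD := nil_XD (X := X) k
  obtain ⟨_, x, rfl, hx⟩ := C
  obtain ⟨_, x', rfl, hx'⟩ := C'
  obtain ⟨φ, ⟨hφ, ψ, -, e, -⟩, hs⟩ := sp (X := XD k X) hx
  have hu := std_unit hD ((Ty.mk hx.1).mul hφ) hs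
  have k1 := H ℤ _ (fil_ker (fun c => if Un (2 * g + b) (toXD k c * φ) then 1 else 0)
    fun r y hr hy => (alt_congr (g := fun _ =>
      if Un (2 * g + b) (mk y * up (3 * r) φ * E (3 * r)) then 1 else 0) fun s hs =>
        if_congr (un_cube hD (Ty.mk hy) hφ s hs) rfl rfl).trans (alt_const (h1.trans hr) _))
  rw [FreeAbelianGroup.lift_apply_of, FreeAbelianGroup.lift_apply_of] at k1
  have hu' : Un (2 * g + b) (mk x' * φ) := by
    by_contra k2
    exact one_ne_zero (((if_pos hu).symm.trans k1).trans (if_neg k2))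
  have k2 := main_XD hX h1 h7 _ (dm_of_sep (fl_NN hD (2 * g + b))
    (a := tu _ (mk x * φ)) (b := tu _ (mk x' * φ)) fun A _ θ hθ => by
      have k3 := H A _ (fil_ker (fun c => θ (tu (2 * g + b) (toXD k c * φ)))
        fun r y hr hy => alt_cube hD h1 hr (Ty.mk hy) hφ hθ)
      rwa [FreeAbelianGroup.lift_apply_of, FreeAbelianGroup.lift_apply_of] at k3)
  have k3 := congrArg (fun a => vl a * ψ) (inv_mul_eq_one.1 k2)
  simp only [vl_tu hu, vl_tu hu', mul_assoc, e, mul_one] at k3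
  exact sim_of_XD k k3

/-- PLAN: `sim_lf`; induction along the chain, all states are homology cylinders (`Lf.ty`,
`lf_sim`, `sim_le`, `isHC_sim`); `mk_fl`, `mk_sg`. -/
theorem eqv_of_sim [Snd X] (h1 : 1 ≤ k) {C C' : HC X g b} (h : Sim k C.1 C'.1) :
    Relation.EqvGen (YStep k) C C' := by
  have ty : ∀ c : HC X g b, Ty 0 (2 * g + b) c.1 := fun c =>
    c.2.imp fun _ hx => ⟨hx.1, hx.2.1⟩
  have key : ∀ c, Relation.ReflTransGen (Lf k (2 * g + b)) C.1 c →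
      ∃ hc, Relation.EqvGen (YStep k) C ⟨c, hc⟩ := by
    intro c hc
    induction hc with
    | refl => exact ⟨C.2, .refl _⟩
    | tail _ h2 ih =>
      obtain ⟨⟨x, rfl, hx⟩, ih⟩ := ih
      obtain ⟨y, rfl, hy⟩ := h2.ty.2
      refine ⟨⟨y, rfl, isHC_sim hx (sim_le h1 (lf_sim h2)) hy⟩, .trans _ _ _ ih (.rel _ _ ?_)⟩
      obtain ⟨_, τ, hτ, ⟨z, rfl, hz⟩, e1, e2⟩ := h2
      rw [← mk_fl] at e1
      exact ⟨z, τ, hτ, hz, e1, e2⟩
  exact (key _ (sim_lf (ty C) (ty C') h)).2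

theorem conj_le_seven (hX : ∀ x y, X x y → Same x y) (g b k : ℕ) (h1 : 1 ≤ k) (h7 : k ≤ 7) :
    Conj X g b k := by
  intro C C'
  have := snd_same hX
  exact ⟨fun h A _ f hf => easy h1 h f hf, fun H => eqv_of_sim h1 (hard_sim hX h1 h7 H)⟩

end Pool.Agent.GH
end
end

-- merged part: Pool.Agent.Work.MP_c00b06_gt.Fin2
section
-- merged part: Pool.Agent.Work.MP_c00b06_gt.D2b
section
/-! Degree two: the H-graph. -/

namespace Pool.Agent.GH
open Gn

variable {X : Wd → Wd → Prop}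

/-- A tree with two nodes. -/
def H2 : Tr := .nd Y1 .lf

/-- Surgery along the H-graph, in symmetric form. -/
def Hs : Cob X := Y * up 1 Y * Ev

theorem TT_H2 : (TT H2 : Cob X) = Y * Y * Ev := by
  rfl

theorem Hs_ty : Ty 4 0 (Hs : Cob X) := by
  exact ((Y_ty.wide (p' := 4) (q' := 3) (by omega) (by omega)).mul
    (Y_ty.at 1 (by omega) (by omega))).mul Ev_ty

/-- The change of the tree form of the H-graph to the symmetric one. -/
def d2b_a : Cob X := G T 2 * G P 0 * G S 0 * G S 0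

theorem d2b_anl : NL 4 4 (d2b_a : Cob X) :=
  ⟨[(2, T), (0, P), (0, S), (0, S)], rfl, by simp [Ok, Gn.ar, Gn.co], by decide⟩

theorem d2b_aT : (d2b_a * TT H2 : Cob X) = Hs := d2_H2i

theorem d2b_aT' (x : Cob X) : x * d2b_a * TT H2 = x * Hs := by rw [mul_assoc, d2b_aT]

theorem d2b_aE (x : Cob X) : x * d2b_a * E 4 = x * E 4 := by rw [mul_assoc, nl_E d2b_anl]

theorem d2b_dp {g : Gn} (hg : DP (G g 0 : Cob X) 0 0) (h1 : g.ar = 1) (h2 : g.co = 1) (i a : ℕ) :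
    DP (G g i : Cob X) a a := by
  rcases lt_trichotomy a i with h | rfl | h
  · exact DP.farR h (G g 0)
  · exact hg.up a
  · exact DP.farL (Ty.G g i (p := a) (q := a) (by omega) (by omega)) 0



/-- PLAN: `d2_H2`, `d2_H3`. -/
theorem TT_Hs (τ : Tr) (h : τ.nn = 2) : ∃ g : Cob X, NL 4 4 g ∧ TT τ = g * Hs := by
  have k : NL 4 4 (G T 0 * G T 0 * G Q 0 * G S 2 : Cob X) :=
    ⟨[(0, T), (0, T), (0, Q), (2, S)], rfl, by simp [Ok, Gn.ar, Gn.co], by decide⟩
  have k' : NL 4 4 (G T 0 * G T 0 * G Q 0 * G Q 1 * G S 3 : Cob X) :=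
    ⟨[(0, T), (0, T), (0, Q), (1, Q), (3, S)], rfl, by simp [Ok, Gn.ar, Gn.co], by decide⟩
  have e1 : (TT H2 : Cob X) = G T 0 * G T 0 * G Q 0 * G S 2 * Hs := d2_H2
  have e2 : (TT (.nd .lf Y1) : Cob X) = G T 0 * G T 0 * G Q 0 * G Q 1 * G S 3 * TT H2 := d2_H3
  obtain rfl | rfl : τ = H2 ∨ τ = .nd .lf Y1 := by
    rcases τ with _ | ⟨_ | ⟨_ | _, _ | _⟩, _ | ⟨_ | _, _ | _⟩⟩ <;>
      first | exact Or.inl rfl | exact Or.inr rfl | (simp only [Tr.nn] at h; omega)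
  · exact ⟨_, k, e1⟩
  · exact ⟨_, k'.mul k, by rw [e2, e1, ← mul_assoc]⟩

/-- PLAN: `d2_H2i`, `sim_TT`, `nl_E`. -/
theorem sim_Hs : Sim 2 (Hs : Cob X) (E 4) := by
  rw [← d2b_aT]
  exact ((sim_TT H2).left _).trans (Sim.of_eq (nl_E d2b_anl))

/-- PLAN: `d2_H2i`, `dp_TT`, `DP.S`, `DP.T`, `DP.cr0`, `DP.cr1`, `DP.farL`, `DP.farR`. -/
theorem dp_Hs {a : ℕ} (ha : a < 4) (Ψ : Cob X) : Dp 2 a (Hs * Ψ) := by
  obtain ⟨b, hb, k⟩ : ∃ b < 4, DP (G P 0 : Cob X) a b := by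
    rcases a with _ | _ | a
    · exact ⟨1, by omega, DP.cr0 true⟩
    · exact ⟨0, by omega, DP.cr1 true⟩
    · exact ⟨a + 2, ha, DP.farL (Ty.G P 0 (p := a + 2) (q := a + 2) (by simp [Gn.ar]) rfl) 0⟩
  rw [← d2b_aT, mul_assoc]
  exact ((((d2b_dp DP.T rfl rfl 2 a).mul k).mul (d2b_dp DP.S rfl rfl 0 b)).mul
    (d2b_dp DP.S rfl rfl 0 b)).dp (dp_TT H2 (show b ≤ 3 by omega) Ψ)

/-- PLAN: `eY0`, `eY1`, `eev0`, `eev1`, `Yu`. -/
theorem e_Hs {a : ℕ} (ha : a < 4) : (G e a * Hs : Cob X) = E 3 := by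
  have k0 : ∀ i, (G e i * Y : Cob X) = G u 0 * G e 0 → (G e i * Hs : Cob X) = E 3 := fun i h => by
    have e1 : (G e 0 * up 1 Y : Cob X) = Y * G e 0 :=
      (far (Ty.G e 0 (p := 0) (q := 1) le_rfl rfl) 0 Y).trans (by rw [up_zero])
    rw [Hs, ← mul_assoc, ← mul_assoc, h, mul_assoc (G u 0), e1, mul_assoc, mul_assoc, eev0, Yu]
    rfl
  have k1 : ∀ i, (G e i * Y : Cob X) = G u 0 * G e 0 → (G e (2 + i) * Hs : Cob X) = E 3 :=
    fun i h => by
      have e1 : (Y * G e (1 + i) : Cob X) = G e (2 + i) * Y := far Y_ty i (G e 0)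
      have e2 : (G e (1 + i) * up 1 Y : Cob X) = G u 1 * G e 1 := by
        have := congrArg (up 1) h
        rwa [map_mul, map_mul] at this
      have e3 : (Y * G u 1 : Cob X) = G u 2 * Y := far Y_ty 0 (G u 0)
      rw [Hs, ← mul_assoc, ← mul_assoc, ← e1, mul_assoc Y, e2, ← mul_assoc, e3, mul_assoc,
        eev1, mul_assoc, Yu]
      exact E_ins (p := 2) le_rfl
  rcases a with _ | _ | _ | _ | a
  · exact k0 0 eY0
  · exact k0 1 eY1
  · exact k1 0 eY0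
  · exact k1 1 eY1
  · omega

theorem g1_nl : NL 2 3 (g1 : Cob X) := by
  exact ⟨[(0, d), (2, d), (3, d), (1, P), (3, P), (2, P)] ++ ad ++ [(1, S), (0, m)], rfl,
    by simp [ad, Ok, Gn.ar, Gn.co], by decide⟩

/-- PLAN: `d2_g1a`, `d2_g1b`, `d2_g1c`, `sim_tree Y1`. -/
theorem g1_sim : Sim 1 (g1 : Cob X) (G e 0) := by
  have s : Sim 1 (Y : Cob X) (E 2 * G e 0) := sim_tree Y1
  have k1 := (s.left (G d 0 * G d 2 * G d 3 * G P 1 * G P 3 * G P 2 * G d 1)).right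
    (G m 0 * G S 1 * G m 0)
  have k2 := ((s.up 2).left (G w 1 * G d 3)).right (G m 2 * G P 0)
  exact (Sim.of_eq d2_g1a).trans (k1.trans ((Sim.of_eq d2_g1b).trans
    (k2.trans (Sim.of_eq d2_g1c))))

/-- PLAN: `F * Ψ = F * G e (i + 1) * G m i * Ψ` (`ax_mR`), `lit_farR`. -/
theorem dp_rem {j i k : ℕ} {Ψ F : Cob X} (hΨ : Dp j i Ψ) (hF : Lit k i F) :
    Sim (k + j) (F * Ψ) (F * G u i * G e i * Ψ) := by
  have k := hΨ k _ (lit_farR hF i.lt_succ_self (G e 0))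
  have e1 : (G e (i + 1) * G m i : Cob X) = 1 := congrArg (up i) ax_mR
  have e2 : (G u i * G e i : Cob X) = G e (i + 1) * G u i := far_G u e i i le_rfl
  rwa [up_G, Nat.add_zero, mul_assoc F, e1, mul_one, mul_assoc F, ← e2, ← mul_assoc] at k

variable [Snd X]

/-- PLAN: as `lk_u`, `lk_m`; `R_mul`, `R_G`. -/
theorem lk_d {N : ℕ} {f : Cob X} {A : ℕ → ℕ → ℤ} (h : Lk N f A) {i : ℕ} (hi : i < N) :
    Lk (N + 1) (f * G d i) (fun x y => A (unskip (i + 1) x) (unskip (i + 1) y)) := by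
  intro Γ _ c
  have e1 : skip (i + 1) i = i := if_pos i.lt_succ_self
  have e2 : unskip (i + 1) (i + 1) = i := if_neg (lt_irrefl _)
  have e : ∀ b : ℕ → Γ × Γ, Stp (i, d) b c ↔ (c (i + 1)).2 = (c i).2 ∧ b = fun k =>
      ((c (skip (i + 1) k)).1 * if k = i then (c (i + 1)).1 else 1, (c (skip (i + 1) k)).2) := by
    intro b
    simp only [Stp, Rel, Gn.co, Gn.ar, Nat.add_zero, mul_inv_cancel_comm]
    constructor
    · rintro ⟨h1, ⟨h2, h3, h4⟩, h5⟩
      refine ⟨h4.trans h3.symm, sem_ext i 1 (fun k hk => ?_) (sem_one ?_) fun k => ?_⟩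
      · simp [h1 k hk, skip, hk.ne, Nat.lt_succ_of_lt hk]
      · simp [e1, Prod.ext_iff, h2, h3]
      · rw [← h5, skip, if_neg (by omega), if_neg (by omega), mul_one,
          show i + 1 + k + 1 = i + 2 + k by omega]
    · rintro ⟨h1, rfl⟩
      refine ⟨fun k hk => ?_, by simp [e1, h1], fun k => ?_⟩
      · simp [skip, hk.ne, Nat.lt_succ_of_lt hk]
      · beta_reduce
        rw [skip, if_neg (by omega), if_neg (by omega), mul_one,
          show i + 1 + k + 1 = i + 2 + k by omega]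
  have key : ∀ (a : ℕ → Γ) (t : Γ) (x : ℕ), ∏ j ∈ Finset.range N,
      (a j * if j = i then t else 1) ^ A x j = t ^ A x i * ∏ j ∈ Finset.range N, a j ^ A x j :=
    fun a t x => by
      simp only [mul_zpow, Finset.prod_mul_distrib]
      rw [mul_comm, Finset.prod_eq_single_of_mem i (Finset.mem_range.2 hi) fun j _ hj => by
        rw [if_neg hj, one_zpow], if_pos rfl]
  simp only [R_mul, R_G, h Γ, e, lk1_all hi, lk1_ge hi, lk1_prod hi, lk1_un, e2, ← and_assoc,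
    exists_eq_right, key fun j => (c (skip (i + 1) j)).1]
  constructor
  · rintro ⟨⟨h1, h2⟩, h3⟩
    refine ⟨⟨?_, h1⟩, fun x hx => ?_⟩
    · rw [h3, ← h1 i hi, e1]
    · simpa [show x ≠ i by omega, Prod.ext_iff] using h2 x hx
  · rintro ⟨⟨h1, h2⟩, h3⟩
    refine ⟨⟨h2, fun x hx => ?_⟩, ?_⟩
    · simp [show x ≠ i by omega, h3 x hx, Prod.ext_iff]
    · rw [h1, ← h2 i hi, e1]

variable {D n : ℕ}

/-- PLAN: `k1 hD H2` for `x * g`, `x' * g` with `Hs = g * TT H2` (`d2_H2i`, `nl_E`). -/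
theorem k1_Hs (hD : Nil D X) {b : ℕ} (hb : 1 ≤ b) {x x' : Cob X} (hx : Ty 0 (4 + n) x)
    (hx' : Ty 0 (4 + n) x') (h : Sim b x x') (hE : x * E 4 = x' * E 4) (hu : Un n (x * E 4)) :
    Sim (b + 2) (x * Hs) (x' * Hs) := by
  have ta : Ty (4 + n) (4 + n) (d2b_a : Cob X) := d2b_anl.ty.pad n
  have k := k1 hD H2 b n (x * d2b_a) (x' * d2b_a) hb (hx.mul ta) (hx'.mul ta) (h.right _)
    ((d2b_aE x).trans (hE.trans (d2b_aE x').symm)) ((d2b_aE x).symm ▸ hu)
  rwa [d2b_aT', d2b_aT'] at k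

omit [Snd X] in
theorem d2b_ty {h : Cob X} (hh : Ty 0 (4 + n) h) : Ty 0 n (h * Hs) :=
  hh.mul (Hs_ty.wide (by omega) (by omega))

omit [Snd X] in
theorem d2b_uT {i : ℕ} (hi : i ≤ 2) (h : Cob X) : h * up 3 Y * G u i * TT Y1 = h * G u i * Hs := by
  have e1 : (G u i * up 2 Y : Cob X) = up 3 Y * G u i := far_Gf u i 2 hi Y
  have e2 : (Y * up 1 Y : Cob X) = up 2 Y * Y := far Y_ty 0 Y
  rw [mul_assoc h, ← e1, Hs, e2, TT_Y1]
  simp only [mul_assoc]

omit [Snd X] in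
theorem d2b_c (h : Cob X) : h * up 3 Y * d1b_c = h * G d 2 * G P 0 * G P 1 * up 4 Y * G d 4 *
    G P 1 * G P 2 * G P 3 * G P 0 * G P 1 * G P 2 := by
  have t : Ty 3 4 (G d 2 * G P 0 * G P 1 : Cob X) :=
    Ty.mk (x := [(2, d), (0, P), (1, P)]) (by simp [Ok, Gn.ar, Gn.co])
  have e1 : h * (G d 2 * G P 0 * G P 1 * up 4 Y) = h * (up 3 Y * (G d 2 * G P 0 * G P 1)) :=
    congrArg (h * ·) (far t 0 Y)
  simp only [d1b_c, ← mul_assoc] at e1 ⊢
  rw [e1]

omit [Snd X] in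
theorem d2b_lit (h : Cob X) : Lit 1 2 (h * up 3 Y * d1b_c) := by
  rw [d2b_c]
  exact lit_cr1 true (lit1_G (lit1_G (lit_cr1 true (lit1_G (lit1_G
    (lit_d (lit_Y0 (lit_zero 4 _))).1 P 1 4 (by decide) rfl) P 2 4 (by decide) rfl)) P 0 3
      (by decide) rfl) P 1 3 (by decide) rfl)

omit [Snd X] in
theorem d2b_split (h : Cob X) :
    Sim 3 (h * G m 0 * Hs) (h * up 3 Y * d1b_c * TT Y1 * TT Y1) := by
  have d1 : Dp 1 0 (up 1 Y * Ev : Cob X) := by
    have := (DP.farR Nat.one_pos (G P 0)).dp ((DP.farR Nat.one_pos (G S 0)).dp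
      (dp_TT (X := X) Y1 (Nat.zero_le _) 1))
    rw [d2_Yev]
    exact this
  have k := act_rem ((DP.farR Nat.one_pos Y).dp (DP.m0.dp d1))
    (lit_Y0 (lit_zero 1 (h * G d 0 * G d 3 * G P 1 * G P 2)))
  rw [up_zero] at k
  have e1 := congrArg (h * ·) (d2_add (X := X))
  have e2 := congrArg (h * ·) (d2_add2 (X := X))
  rw [d2b_c]
  simp only [TT_Y1, Hs, ← mul_assoc] at k e1 e2 ⊢
  rw [e1, ← e2]
  exact k

omit [Snd X] in
theorem d2b_rem (h : Cob X) : Sim 2 (h * up 3 Y * d1b_c * TT Y1) (h * up 3 Y * G u 0) := by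
  have k := dp_rem (dp_TT (X := X) Y1 (a := 2) le_rfl 1) (d2b_lit h)
  have e1 : (G e 2 * TT Y1 : Cob X) = E 2 := e_TT Y1 le_rfl
  rwa [mul_one, mul_assoc _ (G e 2), e1, mul_assoc _ (G u 2), E_ins le_rfl, mul_assoc _ d1b_c (E _),
    d1b_cE] at k



/-- PLAN: `d2_add`; `act_rem` with the continuation `up 1 Y * G m 0 * (up 1 Y * Ev)`, whose input
`0` has depth one (`d2_Yev`, `dp_TT Y1`, `DP.farR`, `DP.m0`); `d2_add2` gives
`x * TT Y1 * TT Y1` with `x = h * d2 P0 P1 * up 4 Y * d4 * (P1 P2 P3 P0 P1 P2)`, and `Lit 1 2 x`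
(`lit_Y0`, `lit_d`, `lit_cr1`, `lit_farL`, `lit_farR`).  So `Sim 2 (x * TT Y1) (x * E 3)`
(`dp_rem`, `e_TT`).  With `h' = h * up 3 Y`: `x * E 3 = h' * G u 0` (`d1b_add3`) and
`x * TT Y1 * E 3 = h' * G u 1 * TT Y1 = h * G u 1 * Hs =: g` (`d1b_add4`).  Finish as in `add0`,
with `k1_Y` for `b = 2` and `sim_Hs`. -/
theorem add2 (hD : Nil D X) {h : Cob X} (hh : Ty 0 (5 + n) h) (hE : h * E 5 = Et n) :
    Sim 3 (h * G m 0 * Hs) (pr n (h * G u 1 * Hs) (h * G u 0 * Hs)) := by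
  have hh' : Ty 0 (4 + n) (h * up 3 Y) := hh.mul (Y_ty.at 3 (by omega) (by omega))
  have hx : Ty 0 (3 + (3 + n)) (h * up 3 Y * d1b_c) :=
    hh'.mul (d1b_cty.wide (by omega) (by omega))
  have hu : Ty 0 (3 + n) (h * up 3 Y * G u 0) :=
    hh'.mul (Ty.G u 0 (by simp [Gn.ar]; omega) (by simp [Gn.ar, Gn.co]; omega))
  have huE : h * up 3 Y * G u 0 * E 3 = Et n := by
    rw [mul_assoc, ← E_succ, mul_assoc, sim1_YE le_rfl, hE]
  have hg : Ty 0 n (h * G u 1 * Hs) :=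
    d2b_ty (hh.mul (Ty.G u 1 (by simp [Gn.ar]; omega) (by simp [Gn.ar, Gn.co]; omega)))
  have hs : Sim 2 (h * G u 1 * Hs) (Et n) :=
    (sim_Hs.left _).trans (Sim.of_eq (by rw [mul_assoc, E_ins (by omega), hE]))
  have e1 : h * up 3 Y * d1b_c * TT Y1 * E 3 = h * G u 1 * Hs := by
    have := far (d1b_TT (X := X)) 0 (E 3)
    rw [up_zero] at this
    rw [mul_assoc, this, ← mul_assoc, mul_assoc _ d1b_c, d1b_cE', d2b_uT (by omega)]
  have e2 : pr (3 + n) (h * G u 1 * Hs * Et 3) (h * up 3 Y * G u 0) * E 3 = h * G u 1 * Hs := by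
    rw [eta_l (E_ty 3), Nat.zero_add, Et_zero, mul_one, huE, pr_Et]
  have k := k1_Y hD (b := 2) (by omega) (d1b_ty hx)
    (pr_ty (hg.mul ((Et_ty 3).wide (q' := 3 + n) (by omega) (by omega))) hu) ?_
    (e1.trans e2.symm) (e1 ▸ un_sim hD (by omega) hg hs)
  · refine (d2b_split h).trans (k.trans (Sim.of_eq ((gen_l Y1 n _ _).trans ?_)))
    rw [d2b_uT (by omega)]
  · refine (d2b_rem h).trans ((Sim.of_eq ?_).trans
      ((hs.right (Et 3)).pr (Sim.refl 2 (h * up 3 Y * G u 0))).symm)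
    rw [← Et_add, Et_pr]

/-- The morphism that exhibits antisymmetry. -/
def d2b_t : Cob X :=
  g1 * up 3 g1 * G Q 3 * G Q 4 * G T 5 * G P 0 * G P 1 * G P 2 * G P 3 * up 4 Ev

omit [Snd X] in
theorem d2b_tty : Ty 4 4 (d2b_t : Cob X) := by
  have t : Ty 6 6 (G Q 3 * G Q 4 * G T 5 * G P 0 * G P 1 * G P 2 * G P 3 : Cob X) :=
    Ty.mk (x := [(3, Q), (4, Q), (5, T), (0, P), (1, P), (2, P), (3, P)])
      (by simp [Ok, Gn.ar, Gn.co])
  have k := (((g1_ty.pad 2).mul (g1_ty.up 3)).mul t).mul (Ev_ty.up 4)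
  simpa only [d2b_t, mul_assoc] using k

omit [Snd X] in
theorem d2b_tH : (d2b_t * Hs : Cob X) = E 4 := by
  have k := (d2_as1 (X := X)).symm
  simp only [d2b_t, g1, Hs, E_succ, E_zero, mul_one, ← mul_assoc] at k ⊢
  exact k

omit [Snd X] in
theorem d2b_tE : (d2b_t * E 4 : Cob X) = G T 2 * G T 2 * G Q 2 * Hs := by
  have k := d2_as2 (X := X)
  simp only [d2b_t, g1, Hs, E_succ, E_zero, mul_one, ← mul_assoc] at k ⊢
  exact k

omit [Snd X] in
theorem d2b_t1 : Sim 1 (d2b_t : Cob X) 1 :=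
  ((((((((((g1_sim.mul (g1_sim.up 3)).right _).right _).right _).right _).right _).right _).right
    _).right _)).trans (Sim.of_eq d2_as3)



/-- Antisymmetry.  PLAN: let `θ` be the morphism of `d2_as1` (so `θ * Hs = E 4`),
`y = h * θ * E 4 = h * (T2 T2 Q2) * Hs` (`d2_as2`), `Sim 1 θ 1` (`g1_sim`, `d2_as3`).  Apply
`k1_Hs` with `b = 1` to `h * θ` and `pr (4 + n) (y * Et 4) h` (`hm_E0`, `un_sim`, `eta_l`). -/
theorem as2 (hD : Nil D X) {h : Cob X} (hh : Ty 0 (4 + n) h) (hE : h * E 4 = Et n) :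
    Sim 3 (pr n (h * (G T 2 * G T 2 * G Q 2) * Hs) (h * Hs)) (Et n) := by
  have k0 : NL 4 4 (G T 2 * G T 2 * G Q 2 : Cob X) :=
    ⟨[(2, T), (2, T), (2, Q)], rfl, by simp [Ok, Gn.ar, Gn.co], by decide⟩
  have hy : Ty 0 n (h * (G T 2 * G T 2 * G Q 2) * Hs) := d2b_ty (hh.mul (k0.ty.pad n))
  have hs : Sim 1 (h * (G T 2 * G T 2 * G Q 2) * Hs) (Et n) :=
    sim_succ ((sim_Hs.left _).trans (Sim.of_eq (by rw [mul_assoc, nl_E k0, hE])))
  have e1 : h * d2b_t * E 4 = h * (G T 2 * G T 2 * G Q 2) * Hs := by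
    rw [mul_assoc, d2b_tE, ← mul_assoc]
  have e2 : pr (4 + n) (h * (G T 2 * G T 2 * G Q 2) * Hs * Et 4) h * E 4 =
      h * (G T 2 * G T 2 * G Q 2) * Hs := by
    rw [eta_l (E_ty 4), Nat.zero_add, Et_zero, mul_one, hE, pr_Et]
  have k := k1_Hs hD le_rfl (hh.mul (d2b_tty.pad n))
    (pr_ty (hy.mul ((Et_ty 4).wide (q' := 4 + n) (by omega) (by omega))) hh) ?_
    (e1.trans e2.symm) (e1 ▸ un_sim hD le_rfl hy hs)
  · rw [mul_assoc, d2b_tH, hE, eta_l Hs_ty, Nat.zero_add, Et_zero, mul_one] at k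
    exact k.symm
  · refine (d2b_t1.left h).trans ((Sim.of_eq ?_).trans
      ((hs.right (Et 4)).pr (Sim.refl 1 h)).symm)
    rw [← Et_add, Et_pr, mul_one]

/-- The braid that follows the twist. -/
def d2b_W : Cob X := G P 1 * G P 2 * G P 0 * G P 1 * G S 1 * G S 1 * G P 0 * G S 1 * G S 1 * G P 0

omit [Snd X] in
theorem d2b_Wnl : NL 4 4 (d2b_W : Cob X) :=
  ⟨[(1, P), (2, P), (0, P), (1, P), (1, S), (1, S), (0, P), (1, S), (1, S), (0, P)], rfl,
    by simp [Ok, Gn.ar, Gn.co], by decide⟩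

omit [Snd X] in
theorem d2b_W1 : (up 1 g1 * d2b_W * TT H2 : Cob X) = G v 0 * Hs := d2_v1.symm

omit [Snd X] in
theorem d2b_W2 : (G e 1 * d2b_W * TT H2 : Cob X) = E 3 := d2_v2



/-- A twisted leaf.  PLAN: `d2_v1`, `d2_v2`, `g1_sim`, `k1 hD H2` with `b = 1` (`nl_E` for the
equality after `E 4`). -/
theorem tw2 (hD : Nil D X) {h : Cob X} (hh : Ty 0 (3 + n) h) (hE : h * E 3 = Et n) :
    Sim 3 (h * G v 0 * Hs) (Et n) := by
  have n1 : NL 3 4 (up 1 g1 * d2b_W : Cob X) := (g1_nl.at 1 le_rfl rfl).mul d2b_Wnl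
  have n2 : NL 3 4 (G e 1 * d2b_W : Cob X) :=
    (NL.G e (by decide) 1 (by decide) (by decide)).mul d2b_Wnl
  have e1 : h * (up 1 g1 * d2b_W) * E 4 = Et n := by rw [mul_assoc, nl_E n1, hE]
  have e2 : h * (G e 1 * d2b_W) * E 4 = Et n := by rw [mul_assoc, nl_E n2, hE]
  have k := k1 hD H2 1 n _ _ le_rfl (hh.mul (n1.ty.pad n)) (hh.mul (n2.ty.pad n))
    (((g1_sim.up 1).right d2b_W).left h) (e1.trans e2.symm) ⟨1, e1.symm⟩
  rwa [mul_assoc, d2b_W1, mul_assoc, d2b_W2, hE, ← mul_assoc] at k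

end Pool.Agent.GH
end

-- merged part: Pool.Agent.Work.MP_c00b06_gt.D2c
section
/-! Degree two: an H-graph is determined by its linking matrix. -/

namespace Pool.Agent.GH
open Gn

variable {X : Wd → Wd → Prop}

/-- `g` is, up to degree three, the surgery along an H-graph with linking matrix `A`. -/
def Ph2 (n : ℕ) (A : ℕ → ℕ → ℤ) (g : Cob X) : Prop :=
  ∃ h : Cob X, NL 0 (4 + n) h ∧ h * E 4 = Et n ∧ Lk (4 + n) h A ∧ Sim 3 g (h * Hs)

variable {n : ℕ} {A A' A'' : ℕ → ℕ → ℤ} {g g' g'' : Cob X}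

theorem ph2_sim (h : Ph2 n A g) (hs : Sim 3 g' g) : Ph2 n A g' := by
  obtain ⟨x, h1, h2, h3, h4⟩ := h
  exact ⟨x, h1, h2, h3, hs.trans h4⟩

theorem ph2_two (h : Ph2 n A g) : Sim 2 g (Et n) := by
  obtain ⟨x, -, h2, -, h4⟩ := h
  exact (sim_le (by norm_num) h4).trans ((sim_Hs.left x).trans (Sim.of_eq h2))

theorem ph2_congr (h : Ph2 n A g) (hA : ∀ x < 4 + n, ∀ y < 4 + n, A x y = A' x y) :
    Ph2 n A' g := by
  obtain ⟨x, h1, h2, h3, h4⟩ := h
  exact ⟨x, h1, h2, lk_congr h3 hA, h4⟩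

variable [Snd X]

omit [Snd X] in
theorem d2c_self {h : Cob X} (h1 : NL 0 (4 + n) h) (h2 : h * E 4 = Et n) (h3 : Lk (4 + n) h A) :
    Ph2 n A (h * Hs) := ⟨h, h1, h2, h3, Sim.refl _ _⟩

omit [Snd X] in
theorem d2c_ty {h : Cob X} (h1 : Ty 0 (4 + n) h) : Ty 0 n (h * Hs) :=
  h1.mul (Hs_ty.wide (by omega) (by omega))

omit [Snd X] in
theorem d2c_far {F : Cob X} (hF : Ty 4 0 F) (c : Gn) (i : ℕ) : G c (4 + i) * F = F * G c i := by
  have := far hF i (G c 0)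
  rw [up_G, up_G, Nat.zero_add, Nat.add_zero, Nat.add_zero] at this
  exact this.symm

omit [Snd X] in
theorem d2c_rel {f f' : Cob X} (h : Rel2 (· < 4) f f') : Sim 3 (f * Hs) (f' * Hs) := by
  have := h 1 2 (Hs * 1) fun a ha => dp_Hs ha 1
  rwa [one_mul, one_mul, mul_one] at this

omit [Snd X] in
theorem d2c_ue {N i : ℕ} {x : Cob X} (h : NL 0 N x) (hi : i < N) : NL 0 N (x * G u i * G e i) :=
  (h.mul (NL.G u (by decide) i (q := N - 1) (by simp [Gn.ar]; omega)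
    (by simp [Gn.ar, Gn.co]; omega))).mul (NL.G e (by decide) i (by simp [Gn.ar]; omega)
      (by simp [Gn.ar, Gn.co]; omega))

omit [Snd X] in
theorem d2c_nl {N i : ℕ} (hi : i + 1 < N) : NL N N (G T i * G T i * G Q i : Cob X) :=
  ((NL.G T (by decide) i (q := N) (by simp [Gn.ar]; omega) (by simp [Gn.ar, Gn.co])).mul
    (NL.G T (by decide) i (q := N) (by simp [Gn.ar]; omega) (by simp [Gn.ar, Gn.co]))).mul
      (NL.G Q (by decide) i (by simp [Gn.ar]; omega) (by simp [Gn.ar, Gn.co]))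

omit [Snd X] in
theorem d2c_mul {k x : Cob X} (h1 : NL 0 (4 + n) x) (h2 : x * E 4 = Et n) (hk : NL 4 4 k)
    (h3 : Lk (4 + n) (x * k) A) : Ph2 n A (x * k * Hs) :=
  d2c_self (h1.mul (hk.wide (by omega) (by omega))) (by rw [mul_assoc, nl_E hk, h2]) h3

theorem d2c_lk {N i : ℕ} {x : Cob X} (h : Lk N x A) (hi : i + 1 < N) :
    Lk N (x * (G T i * G T i * G Q i)) (prm (Equiv.swap i (i + 1)) A) := by
  have := lk_cr false (lk_T (lk_T h (i := i) (by omega)) (i := i) (by omega)) hi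
  rw [← mul_assoc, ← mul_assoc]
  refine lk_congr this fun a _ b _ => ?_
  rw [← mul_assoc, mul_mul_mul_comm, d1b_sq, d1b_sq, one_mul, one_mul]
  rfl

theorem d2c_symm {N : ℕ} {x : Cob X} (h1 : NL 0 N x) (h3 : Lk N x A) {a b : ℕ} (ha : a < N)
    (hb : b < N) : A a b = A b a := by
  obtain ⟨C, hC, h⟩ := lk_ex h1
  rw [lk_uniq h3 h ha hb, lk_uniq h3 h hb ha, hC]

theorem d2c_del (h : Ph2 n A g) {i : ℕ} (hi : i < n) :
    Ph2 n (fun x y => if x = 4 + i ∨ y = 4 + i then 0 else A x y) (g * (G u i * G e i)) := by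
  obtain ⟨x, h1, h2, h3, h4⟩ := h
  refine ⟨x * G u (4 + i) * G e (4 + i), d2c_ue h1 (by omega), ?_, lk_ue h3 (by omega), ?_⟩
  · obtain ⟨r, rfl⟩ : ∃ r, n = r + 1 := ⟨n - 1, by omega⟩
    rw [mul_assoc, d2c_far (E_ty 4), ← mul_assoc, mul_assoc x, d2c_far (E_ty 4), ← mul_assoc, h2,
      ← Et_ins (i := i) (p := r) (by omega), mul_assoc (Et r), d1b_eu, mul_one]
  · rw [mul_assoc _ _ Hs, d2c_far Hs_ty, ← mul_assoc _ Hs, mul_assoc x, d2c_far Hs_ty,
      ← mul_assoc x, mul_assoc _ (G u i)]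
    exact h4.right _

theorem d2c_hft (x : ℕ) :
    Equiv.swap 1 2 (Equiv.swap 2 3 (Equiv.swap 0 1 (Equiv.swap 1 2 x))) = hft x := by
  rcases x with _ | _ | _ | _ | x
  · decide
  · decide
  · decide
  · decide
  · have e : ∀ a b : ℕ, a < 4 → b < 4 → Equiv.swap a b (x + 1 + 1 + 1 + 1) = x + 1 + 1 + 1 + 1 :=
      fun a b ha hb => Equiv.swap_apply_of_ne_of_ne (by omega) (by omega)
    rw [e _ _ (by omega) (by omega), e _ _ (by omega) (by omega), e _ _ (by omega) (by omega),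
      e _ _ (by omega) (by omega), hft, if_neg (by omega), if_neg (by omega), if_neg (by omega),
      if_neg (by omega)]

/-- PLAN: `bh` with `p = 4`, `dp_Hs`. -/
theorem ph2_uniq (h : Ph2 n A g) (h' : Ph2 n A g') : Sim 3 g g' := by
  obtain ⟨x, h1, h2, h3, h4⟩ := h
  obtain ⟨x', h1', h2', h3', h4'⟩ := h'
  exact h4.trans
    ((d2c_rel (bh h1 h1' (Nat.le_add_right 4 n) (h2.trans h2'.symm) h3 h3')).trans h4'.symm)

/-- PLAN: `h * G u r * G e r` has the same matrix (`lk_ue`; the matrix is symmetric in the range,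
by `lk_ex` and `lk_uniq`); `bh`, `e_Hs`, `E_ins`. -/
theorem ph2_row (h : Ph2 n A g) {r : ℕ} (hr : r < 4) (h0 : ∀ j < 4 + n, A r j = 0) :
    Sim 3 g (Et n) := by
  obtain ⟨x, h1, h2, h3, h4⟩ := h
  have e1 : x * G u r * E 3 = Et n := by rw [mul_assoc, E_ins (by omega), h2]
  have k : Ph2 n A (x * G u r * G e r * Hs) := by
    refine d2c_self (d2c_ue h1 (by omega)) ?_ (lk_congr (lk_ue h3 (by omega)) fun a ha b hb => ?_)
    · rw [← E_ins (i := r) (p := 3) (by omega), mul_assoc, ← mul_assoc (G e r), d1b_eu, one_mul, e1]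
    · split_ifs with c
      · rcases c with rfl | rfl
        · exact (h0 b hb).symm
        · rw [d2c_symm h1 h3 ha hb, h0 a ha]
      · rfl
  rw [mul_assoc, e_Hs hr, e1] at k
  exact ph2_uniq ⟨x, h1, h2, h3, h4⟩ k

/-- PLAN: `h * G u (4 + i) * G e (4 + i)` (`lk_ue`, `far`, `Et_ins`), `ph2_row`. -/
theorem ph2_del (h : Ph2 n A g) {i r : ℕ} (hi : i < n) (hr : r < 4)
    (h0 : ∀ j, j ≠ 4 + i → A r j = 0) : Sim 3 (g * (G u i * G e i)) (Et n) := by
  refine ph2_row (d2c_del h hi) hr fun j _ => ?_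
  split_ifs with c
  · rfl
  · exact h0 j fun e => c (Or.inr e)

/-- PLAN: `d2_ht`, `lk_cr`, `lk_T`, `nl_E`. -/
theorem ph2_hft (h : Ph2 n A g) : Ph2 n (prm hft A) g := by
  obtain ⟨x, h1, h2, h3, h4⟩ := h
  have q : ∀ i, i < 3 → NL 4 4 (G Q i : Cob X) := fun i hi =>
    NL.G Q (by decide) i (by simp [Gn.ar]; omega) (by simp [Gn.ar, Gn.co])
  have l1 := d2c_lk (d2c_lk (lk_cr false (lk_cr false (lk_cr false (lk_cr false h3 (i := 1)
    (by omega)) (i := 2) (by omega)) (i := 0) (by omega)) (i := 1) (by omega)) (i := 2)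
    (by omega)) (i := 2) (by omega)
  have k := d2c_mul (A := prm hft A) h1 h2 ((((((q 1 (by omega)).mul (q 2 (by omega))).mul
    (q 0 (by omega))).mul (q 1 (by omega))).mul (d2c_nl (i := 2) (by omega))).mul
      (d2c_nl (i := 2) (by omega))) (by
    simp only [← mul_assoc] at l1 ⊢
    refine lk_congr l1 fun a _ b _ => ?_
    simp only [prm, Equiv.swap_apply_self]
    rw [← d2c_hft, ← d2c_hft])
  refine ph2_sim k (h4.trans (Sim.of_eq ?_))
  have e := congrArg (x * ·) (d2_ht (X := X))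
  simp only [Hs, ← mul_assoc] at e ⊢
  exact e

/-- PLAN: `ph_mat 4`; as `ph_supp`. -/
theorem ph2_supp (hA : Adm4 n A) {i : ℕ} (hi : i < n) (h : ∀ j, A j (4 + i) = 0) :
    ∃ g : Cob X, Ty 0 n g ∧ Ph2 n A g ∧ g * (G u i * G e i) = g := by
  obtain ⟨x, h1, h2, h3⟩ := ph_mat (X := X) 4 n A hA.1 hA.2.1
  refine ⟨x * Hs * (G u i * G e i), (d2c_ty h1.ty).mul ((Ty.G u i (q := n - 1)
    (by simp [Gn.ar]; omega) (by simp [Gn.ar, Gn.co]; omega)).mul (Ty.G e i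
      (by simp [Gn.ar]; omega) (by simp [Gn.ar, Gn.co]; omega))),
    ph2_congr (d2c_del (d2c_self h1 h2 h3) hi) fun a _ b _ => ?_, ?_⟩
  · split_ifs with c
    · rcases c with rfl | rfl
      · rw [hA.1, h]
      · exact (h a).symm
    · rfl
  · rw [mul_assoc, mul_assoc (G u i), ← mul_assoc (G e i), d1b_eu, one_mul]

/-- PLAN: `ph_mat 2`; `h = h0 * G w 0` where `h0` on `2 + n` handles has the matrix
`A (x + 2) (y + 2)` (`lk_w`, `d2_wY`, `eev0`, `Yu`). -/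
theorem ph2_lol (hA : Adm4 n A) (h0 : ∀ j, A 0 j = if j = 1 then -1 else 0)
    (h1 : ∀ j, A 1 j = if j = 0 then -1 else 0) : Ph2 n A (Et n : Cob X) := by
  obtain ⟨x, h2, h3, h4⟩ := ph_mat (X := X) 2 n (fun a b => A (a + 2) (b + 2))
    (fun i j => hA.1 _ _) fun i j hi hj => hA.2.1 _ _ (by omega) (by omega)
  have k : NL 2 4 (G w 0 : Cob X) := NL.G w (by decide) 0 (by decide) (by decide)
  have l1 := lk_w h4 (Nat.zero_le _)
  rw [show 2 + n + 2 = 4 + n by omega] at l1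
  refine ⟨x * G w 0, h2.mul (k.wide (by omega) (by omega)), by rw [mul_assoc, nl_E k, h3],
    lk_congr l1 fun a _ b _ => ?_, Sim.of_eq ?_⟩
  · rcases a with _ | _ | a
    · rw [h0]
      simp
    · rw [h1]
      simp
    · rcases b with _ | _ | b
      · rw [hA.1 _ 0, h0]
        simp
      · rw [hA.1 _ (0 + 1), h1]
        simp
      · rw [if_neg (by omega), if_neg (by omega)]
        rfl
  · have e1 : (G e 0 * up 1 Y : Cob X) = Y * G e 0 :=
      (far_Gf e 0 1 le_rfl _).trans (congrArg (· * G e 0) (up_zero _))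
    rw [Hs, mul_assoc x, ← mul_assoc (G w 0), ← mul_assoc (G w 0), d2_wY, e1, mul_assoc Y, eev0, Yu,
      ← h3, E_succ 1, sim1_one]

/-- PLAN: `d2_H2`, `TT_H2`, `ltr_K`, `lk_ops`; as `ph_s01`. -/
theorem ph2_ltr {l : List It} (hl : Val 4 (4 + n) l) :
    Ph2 n (s01 (lkl l)) (Et (4 + n) * Ops l * TT H2 : Cob X) := by
  have l1 := lk_S (d2c_lk (lk_ops (lk_Et (X := X) (4 + n)) hl) (i := 0) (by omega)) (i := 2)
    (by omega)
  have k := d2c_mul (A := s01 (lkl l)) ((NL.Et _).mul (NL.Ops hl)) (ltr_K hl)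
    ((d2c_nl (i := 0) (by omega)).mul (NL.G S (by decide) 2 (by decide) (by decide))) (by
      rw [← mul_assoc]
      refine lk_congr l1 fun a _ b _ => ?_
      simp only [prm, zero_add, s01])
  refine ph2_sim k (Sim.of_eq ?_)
  rw [TT_H2, d2_H2, Hs]
  simp only [mul_assoc]

/-- PLAN: `TT_Hs`; `lk_ex` for `h = Et * Ops l * g`; cut the matrix off outside the range; the
block of the strands vanishes by `lk_del`, `lk_Et`, `lk_uniq` (`h * E 4 * Et 4 = Et (4 + n)`). -/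
theorem ph2_letter (h : Ltr 2 n g) : ∃ A, Adm4 n A ∧ Ph2 n A g := by
  obtain ⟨τ, l, hτ, hl, rfl⟩ := h
  obtain ⟨k, hk, e⟩ := TT_Hs (X := X) τ hτ
  have h1 : NL 0 (4 + n) (Et (4 + n) * Ops l : Cob X) := (NL.Et _).mul (NL.Ops hl)
  have h2 : (Et (4 + n) * Ops l * E 4 : Cob X) = Et n := ltr_K hl
  obtain ⟨C, hC, h3⟩ := lk_ex (h1.mul (hk.wide (q' := 4 + n) (by omega) (by omega)))
  have h4 := lk_del h3 (Nat.le_add_right 4 n)
  rw [mul_assoc _ k, nl_E hk, h2, ← Et_add] at h4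
  refine ⟨fun a b => if a < 4 + n ∧ b < 4 + n then C a b else 0,
    ⟨fun i j => ?_, fun i j hi hj => ?_, fun i j hj => if_neg (by omega)⟩, ?_⟩
  · exact if_congr and_comm (hC i j) rfl
  · show (if i < 4 + n ∧ j < 4 + n then C i j else 0) = 0
    split_ifs with c
    · have := lk_uniq h4 (lk_Et _) c.1 c.2
      rwa [if_neg (by omega)] at this
    · rfl
  · rw [e, ← mul_assoc]
    exact d2c_mul h1 h2 hk (lk_congr h3 fun a ha b hb => (if_pos ⟨ha, hb⟩).symm)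

variable {D : ℕ}

theorem ph2_ex (hD : Nil D X) (hA : Adm4 n A) : ∃ x : Gp X n, Ph2 n A (vl x) := by
  obtain ⟨x, h1, h2, h3⟩ := ph_mat (X := X) 4 n A hA.1 hA.2.1
  have k := d2c_self h1 h2 h3
  obtain ⟨y, hy⟩ := un_sim hD one_le_two (d2c_ty h1.ty) (ph2_two k)
  exact ⟨y, hy ▸ k⟩

/-- PLAN: as `ph_add`, with `ph_mat 5` and `add2`. -/
theorem ph2_add (hD : Nil D X) (hA : Adm4 n A) (hA' : Adm4 n A') (hA'' : Adm4 n A'')
    (h : AddR A A' A'') (h' : Ph2 n A' g') (h'' : Ph2 n A'' g'') : Ph2 n A (pr n g' g'') := by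
  obtain ⟨a1, a2, r, a3⟩ := h
  obtain ⟨x, h1, h2, h3⟩ := ph_mat (X := X) 5 n (d1b_H A A' A'' r) (fun i j => by
    rcases i with _ | _ | i <;> rcases j with _ | _ | j <;> first | rfl | exact hA.1 _ _)
    (fun i j hi hj => by
      obtain ⟨i, rfl⟩ : ∃ k, i = k + 2 := ⟨i - 2, by omega⟩
      obtain ⟨j, rfl⟩ : ∃ k, j = k + 2 := ⟨j - 2, by omega⟩
      exact hA.2.1 _ _ (by omega) (by omega))
  have h4 : Lk (4 + n + 1) x (d1b_H A A' A'' r) := by
    rwa [show 4 + n + 1 = 5 + n by omega]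
  have hu : ∀ i, i ≤ 4 → NL 0 (4 + n) (x * G u i) := fun i hi =>
    h1.mul (NL.G u (by decide) i (by simp [Gn.ar]; omega) (by simp [Gn.ar, Gn.co]; omega))
  have huE : ∀ i, i ≤ 4 → x * G u i * E 4 = Et n := fun i hi => by rw [mul_assoc, E_ins hi, h2]
  have p1 : Ph2 n A' (x * G u 1 * Hs) := by
    refine d2c_self (hu 1 (by omega)) (huE 1 (by omega))
      (lk_congr (lk_u h4 (by omega)) fun a _ b _ => ?_)
    rcases a with _ | a <;> rcases b with _ | b <;> simp only [d1b_s00, d1b_s1, d1b_H]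
    · exact hA'.1 _ _
    · exact (a1 _ _ (by omega) (by omega)).1.symm
  have p2 : Ph2 n A'' (x * G u 0 * Hs) := by
    refine d2c_self (hu 0 (by omega)) (huE 0 (by omega))
      (lk_congr (lk_u h4 (by omega)) fun a _ b _ => ?_)
    rcases a with _ | a <;> rcases b with _ | b
    · rfl
    · rfl
    · exact hA''.1 _ _
    · exact (a1 _ _ (by omega) (by omega)).2.symm
  have p3 : Ph2 n A (x * G m 0 * Hs) := by
    have k : NL 5 4 (G m 0 : Cob X) := NL.G m (by decide) 0 (by decide) (by decide)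
    refine d2c_self (h1.mul (k.wide (by omega) (by omega))) (by rw [mul_assoc, nl_E k, h2])
      (lk_congr (lk_m h4 (i := 0) (by omega)) fun a _ b _ => ?_)
    rcases a with _ | a <;> rcases b with _ | b
    · show A' 0 0 + r + r + A'' 0 0 = A 0 0
      omega
    · show d1b_H A A' A'' r 0 (skip 1 (b + 1)) + d1b_H A A' A'' r 1 (skip 1 (b + 1)) + 0 + 0 = _
      rw [d1b_s1, a2 _ (by omega), add_zero, add_zero]
      rfl
    · show d1b_H A A' A'' r (skip 1 (a + 1)) 0 + 0 + d1b_H A A' A'' r (skip 1 (a + 1)) 1 + 0 = _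
      rw [d1b_s1, hA.1, a2 _ (by omega), add_zero, add_zero]
      rfl
    · show d1b_H A A' A'' r (skip 1 (a + 1)) (skip 1 (b + 1)) + 0 + 0 + 0 = _
      rw [d1b_s1, d1b_s1, add_zero, add_zero, add_zero]
      rfl
  exact ph2_sim p3 (((ph2_uniq h' p1).pr (ph2_uniq h'' p2)).trans (add2 hD h1.ty h2).symm)

/-- PLAN: `as2`, `ph2_uniq`, `lk_T`, `lk_cr`. -/
theorem ph2_sw23 (hD : Nil D X) (h : Ph2 n A g) (h' : Ph2 n (prm (Equiv.swap 2 3) A) g') :
    Sim 3 (pr n g' g) (Et n) := by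
  obtain ⟨x, h1, h2, h3, h4⟩ := h
  have k := d2c_mul h1 h2 (d2c_nl (i := 2) (by omega)) (d2c_lk h3 (by omega))
  exact ((ph2_uniq h' k).pr h4).trans (as2 hD h1.ty h2)

/-- PLAN: the same with `d2_sw`. -/
theorem ph2_sw01 (hD : Nil D X) (h : Ph2 n A g) (h' : Ph2 n (prm (Equiv.swap 0 1) A) g') :
    Sim 3 (pr n g' g) (Et n) := by
  obtain ⟨x, h1, h2, h3, h4⟩ := h
  have k := d2c_mul h1 h2 (d2c_nl (i := 0) (by omega)) (d2c_lk h3 (by omega))
  have e : x * (G T 0 * G T 0 * G Q 0) * Hs = x * (G T 2 * G T 2 * G Q 2) * Hs := by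
    have := congrArg (x * ·) (d2_sw (X := X))
    simp only [Hs, ← mul_assoc] at this ⊢
    exact this
  rw [e] at k
  exact ((ph2_uniq h' k).pr h4).trans (as2 hD h1.ty h2)

/-- PLAN: `h = h0 * G v 0` with `h0` from `ph_mat 3` for `A (x + 1) (y + 1)`; `lk_v`, `tw2`. -/
theorem ph2_twist (hD : Nil D X) (hA : Adm4 n A) (h0 : ∀ j, A 0 j = if j = 0 then -1 else 0) :
    Ph2 n A (Et n : Cob X) := by
  obtain ⟨x, h2, h3, h4⟩ := ph_mat (X := X) 3 n (fun a b => A (a + 1) (b + 1))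
    (fun i j => hA.1 _ _) fun i j hi hj => hA.2.1 _ _ (by omega) (by omega)
  have k : NL 3 4 (G v 0 : Cob X) := NL.G v (by decide) 0 (by decide) (by decide)
  have l1 := lk_v h4 (Nat.zero_le _)
  rw [show 3 + n + 1 = 4 + n by omega] at l1
  refine ⟨x * G v 0, h2.mul (k.wide (by omega) (by omega)), by rw [mul_assoc, nl_E k, h3],
    lk_congr l1 fun a _ b _ => ?_, (tw2 hD h2.ty h3).symm⟩
  rcases a with _ | a
  · rw [h0]
    simp
  · rcases b with _ | b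
    · rw [hA.1 _ 0, h0]
      simp
    · rw [if_neg (by omega), if_neg (by omega)]
      rfl

/-- PLAN: `h = h0 * G d 0` with the same `h0`; `lk_d`, `d2_dY`, `tw2`. -/
theorem ph2_same (hD : Nil D X) (hA : Adm4 n A) {s : ℕ} (hs : 4 ≤ s)
    (h0 : ∀ j, A 0 j = if j = s then -1 else 0) (h1 : ∀ j, A 1 j = if j = s then -1 else 0) :
    Ph2 n A (Et n : Cob X) := by
  obtain ⟨x, h2, h3, h4⟩ := ph_mat (X := X) 3 n (fun a b => A (a + 1) (b + 1))
    (fun i j => hA.1 _ _) fun i j hi hj => hA.2.1 _ _ (by omega) (by omega)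
  have k : NL 3 4 (G d 0 : Cob X) := NL.G d (by decide) 0 (by decide) (by decide)
  have l1 := lk_d h4 (i := 0) (by omega)
  rw [show 3 + n + 1 = 4 + n by omega] at l1
  have e1 : ∀ a b, A (unskip (0 + 1) a + 1) b = A a b := fun a b => by
    rcases a with _ | a
    · exact (h1 b).trans (h0 b).symm
    · rw [unskip, if_neg (by omega)]
      rfl
  refine ⟨x * G d 0, h2.mul (k.wide (by omega) (by omega)), by rw [mul_assoc, nl_E k, h3],
    lk_congr l1 fun a _ b _ => by rw [e1, hA.1, e1, hA.1],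
    (tw2 hD h2.ty h3).symm.trans (Sim.of_eq ?_)⟩
  have := congrArg (fun z => x * z * up 1 Y * Ev) (d2_dY (X := X))
  simp only [Hs, ← mul_assoc] at this ⊢
  exact this.symm

end Pool.Agent.GH
end

-- merged part: Pool.Agent.Work.MP_c00b06_gt.D2d
section
/-! Degree two: generators and invariants. -/

namespace Pool.Agent.GH
open Gn

variable {X : Wd → Wd → Prop}

theorem mus_H2 (x : ℕ → U4) : (mus H2 x 3).f =
    -(((x 0).a * (x 1).b - (x 0).b * (x 1).a) * (x 2).c -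
      (x 2).a * ((x 0).b * (x 1).c - (x 0).c * (x 1).b)) := by
  simp [mus, H2, Y1, Lc, Tr.nn, tl, u34_cm4, U4.inv_def]
  ring

theorem d2d_t {s s' : Bool} {a a' j : ℕ} (hj : 4 ≤ j) (ha : Equiv.swap 0 1 a' = a)
    (hs : s = s' ↔ a ≠ 2) (x y : ℕ) : It.lk (.c s a j) x y =
      sgn 2 x * sgn 2 y * It.lk (.c s' a' j) (Equiv.swap 0 1 x) (Equiv.swap 0 1 y) := by
  simp only [It.lk, Equiv.swap_apply_eq_iff, ha,
    Equiv.swap_apply_of_ne_of_ne (show j ≠ 0 by omega) (show j ≠ 1 by omega), sgn]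
  cases s <;> cases s' <;> simp only [Bool.false_eq_true, Bool.true_eq_false, true_iff, false_iff,
    if_true, if_false] at hs ⊢ <;> split_ifs <;> omega

theorem pt_eq {j0 j1 j2 j3 : ℕ} (h0 : 4 ≤ j0) (h1 : 4 ≤ j1) (h2 : 4 ≤ j2) (h3 : 4 ≤ j3) :
    pt j0 j1 j2 j3 = s01 (lkl [.c true 1 j0, .c true 0 j1, .c false 2 j2, .c true 3 j3]) := by
  funext x y
  simp only [pt, s01, lkl_cons, lkl_nil]
  rw [d2d_t (s' := true) (a' := 1) h0 (by decide) (by decide),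
    d2d_t (s' := true) (a := 1) (a' := 0) h1 (by decide) (by decide),
    d2d_t (s' := false) (a := 2) (a' := 2) h2 (by decide) (by decide),
    d2d_t (s' := true) (a := 3) (a' := 3) h3 (by decide) (by decide)]
  ring

variable [Snd X] {D n : ℕ}

/-- PLAN: `nn_ind` with `k = 2`; letters of degree `≥ 3` are in `NN 3`; for degree two use
`ph2_letter` and `deg2_abs` for `fun A => ∀ g : Gp X n, Ph2 n A (vl g) → g ∈ S` (as `deg1_gen`;
`ph2_ex ph2_add ph2_uniq ph2_row ph2_sw01 ph2_sw23 ph2_hft ph2_supp ph2_twist ph2_same ph2_lol`,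
`hft_hft`, `ph2_two`, `un_sim`, `mem_NN`, `mem_NN'`). -/
theorem deg2_gen (hD : Nil D X) (hn : 2 ≤ n) {L : List (Gp X n)}
    (hL : ∀ A ∈ gens n, ∃ y ∈ L, Ph2 n A (vl y)) : ∀ x ∈ NN X n 2, x ∈ Subgroup.closure
      ({y | y ∈ L} ∪ {x | x ∈ NN X n 1 ∧ ∃ i < n, dlt n i x = x} ∪ (NN X n 3 : Set (Gp X n))) := by
  generalize hS : Subgroup.closure
    ({y | y ∈ L} ∪ {x | x ∈ NN X n 1 ∧ ∃ i < n, dlt n i x = x} ∪ (NN X n 3 : Set (Gp X n))) = S
  have s1 : ∀ y ∈ L, y ∈ S := fun y hy => hS ▸ Subgroup.subset_closure (Or.inl (Or.inl hy))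
  have s2 : ∀ x ∈ NN X n 1, ∀ i < n, dlt n i x = x → x ∈ S := fun x hx i hi e =>
    hS ▸ Subgroup.subset_closure (Or.inl (Or.inr ⟨hx, i, hi, e⟩))
  have s3 : ∀ x ∈ NN X n 3, x ∈ S := fun x hx => hS ▸ Subgroup.subset_closure (Or.inr hx)
  have s4 : ∀ x : Gp X n, Sim 3 (vl x) (Et n) → x ∈ S := fun x hx =>
    s3 x ((mem_NN (by decide) x).2 hx)
  have K : ∀ {A : ℕ → ℕ → ℤ} {x : Gp X n}, Ph2 n A (vl x) → x ∈ S →
      ∀ g : Gp X n, Ph2 n A (vl g) → g ∈ S := fun {A x} h hx g hg => by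
    have := mul_mem hx (s3 _ ((mem_NN' (by decide) x g).2 (ph2_uniq h hg)))
    rwa [mul_inv_cancel_left] at this
  have H : Deg2 n fun A => ∀ g : Gp X n, Ph2 n A (vl g) → g ∈ S := by
    refine ⟨fun A A' A'' hA hA' hA'' hR => ?_,
      fun A _ h g hg => s4 g (ph2_row hg (r := 0) (by decide) fun j _ => h j),
      fun A hA h g hg => ?_, fun A hA h g hg => ?_, fun A _ h g hg => h g ?_,
      fun A hA i hi h => ?_, fun A hA h => K (x := 1) (ph2_twist hD hA h) (one_mem _),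
      fun A hA s hs h h' => K (x := 1) (ph2_same hD hA hs h h') (one_mem _),
      fun A hA h h' => K (x := 1) (ph2_lol hA h h') (one_mem _), fun A hA => ?_⟩
    · obtain ⟨x, hx⟩ := ph2_ex hD hA'
      refine ⟨fun k k' => ?_, fun k k' g hg => ?_⟩
      · obtain ⟨z, hz⟩ := ph2_ex hD hA''
        exact K (x := x * z) (ph2_add hD hA hA' hA'' hR hx hz) (mul_mem (k x hx) (k' z hz))
      · exact (mul_mem_cancel_left (k' x hx)).1 (k (x * g) (ph2_add hD hA hA' hA'' hR hx hg))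
    · obtain ⟨x, hx⟩ := ph2_ex hD hA
      exact (mul_mem_cancel_right (h x hx)).1 (s4 (g * x) (ph2_sw01 hD hx hg))
    · obtain ⟨x, hx⟩ := ph2_ex hD hA
      exact (mul_mem_cancel_right (h x hx)).1 (s4 (g * x) (ph2_sw23 hD hx hg))
    · exact ph2_congr (ph2_hft hg) fun x _ y _ => by simp only [prm, hft_hft]
    · obtain ⟨g, h1, h2, h3⟩ := ph2_supp (X := X) hA hi h
      obtain ⟨x, rfl⟩ := un_sim hD one_le_two h1 (ph2_two h2)
      exact K h2 (s2 x ((mem_NN le_rfl x).2 (sim_le one_le_two (ph2_two h2))) i hi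
        (vl_inj ((vl_dlt hi x).trans h3)))
    · obtain ⟨y, hy, h⟩ := hL A hA
      exact K h (s1 y hy)
  intro x hx
  refine nn_ind hD one_le_two (p := fun g => g ∈ S) (one_mem _) (fun _ _ => mul_mem)
    (fun j hj g hg => ?_) hx
  rcases hj.eq_or_lt with rfl | hj
  · obtain ⟨A, hA, h⟩ := ph2_letter hg
    exact deg2_abs H hn hA g h
  · exact s4 g (sim_le hj hg.sim)

/-- PLAN: `gens_adm`, `ph2_ex`, `ph2_two`, `gens_row`, `ph2_del`, `vl_dlt`. -/
theorem gens_ex (hD : Nil D X) {A : ℕ → ℕ → ℤ} (hA : A ∈ gens n) :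
    ∃ y : Gp X n, Ph2 n A (vl y) ∧ y ∈ NN X n 2 ∧ ∀ i < n, dlt n i y ∈ NN X n 3 := by
  obtain ⟨y, hy⟩ := ph2_ex hD (gens_adm hA)
  refine ⟨y, hy, (mem_NN one_le_two y).2 (ph2_two hy), fun i hi => ?_⟩
  obtain ⟨r, hr, h⟩ := gens_row hA hi
  rw [mem_NN (by decide), vl_dlt hi]
  exact ph2_del hy hi hr h

/-- PLAN: `deg1_gen`, `deg2_gen`, `Subgroup.closure_le`. -/
theorem gen12 (hD : Nil D X) (hn : 2 ≤ n) {L : List (Gp X n)}
    (h2 : n = 2 → ∃ y ∈ L, vl y = W0) (h3 : n = 3 → ∃ y ∈ L, vl y = y0)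
    (hL : ∀ A ∈ gens n, ∃ y ∈ L, Ph2 n A (vl y)) : ∀ x ∈ NN X n 1, x ∈ Subgroup.closure
      ({y | y ∈ L} ∪ {x | x ∈ NN X n 1 ∧ ∃ i < n, dlt n i x = x} ∪ (NN X n 3 : Set (Gp X n))) := by
  obtain ⟨y, hy, k2, k3⟩ : ∃ y : Gp X n, (y = 1 ∨ y ∈ L) ∧ (n = 2 → vl y = W0) ∧
      (n = 3 → vl y = y0) := by
    by_cases e : n = 2
    · obtain ⟨y, hy, h⟩ := h2 e
      exact ⟨y, Or.inr hy, fun _ => h, by omega⟩
    by_cases e' : n = 3
    · obtain ⟨y, hy, h⟩ := h3 e'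
      exact ⟨y, Or.inr hy, by omega, fun _ => h⟩
    · exact ⟨1, Or.inl rfl, by omega, by omega⟩
  refine fun x hx => (Subgroup.closure_le _).2 ?_ (deg1_gen hD hn k2 k3 x hx)
  rintro z ((rfl | hz) | hz)
  · rcases hy with rfl | hy
    exacts [one_mem _, Subgroup.subset_closure (Or.inl (Or.inl hy))]
  · exact Subgroup.subset_closure (Or.inl (Or.inr hz))
  · exact deg2_gen hD hn hL z hz

/-- PLAN: as `tot4`. -/
theorem tot_any [Gd U4 X] (hD : Nil D X) (t : ℕ → U4) {g : Gp X n} (hg : g ∈ NN X n 2) :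
    ∃ ℓ, Cn t n (vl g) ℓ := by
  obtain ⟨F, hF⟩ := flt4
  refine nn_ind hD one_le_two (p := fun g => ∃ ℓ, Cn t n (vl g) ℓ) ⟨1, cn_one _ _⟩
    (fun a b ⟨ℓ, h⟩ ⟨ℓ', h'⟩ => ⟨_, cn_mul h h'⟩) (fun j hj g h => ?_) hg
  rcases hj.eq_or_lt with rfl | hj
  · obtain ⟨τ, l, h1, hl, e⟩ := h
    obtain ⟨x, ℓ, -, k, -⟩ := kl (X := X) (n := n) (l := l) F τ (by omega) (by rw [h1, hF])
      (by rwa [h1]) t adc4
    exact ⟨ℓ, by rwa [e, ← show τ.nn + 2 = 2 + 2 by omega]⟩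
  · exact ⟨1, cn_sim F hF (sim_le hj h.sim).symm (cn_one _ _)⟩

/-- Milnor invariants of length four.  PLAN: `inv_lam` with `S = NN X n 2`, `θ = U4.f`
(`tot_any`, `adc4`); vanishing on `NN 3` by `cn_sim`, `cn_one`.  For the value: `pt_eq`,
`ph2_ltr`, `ph2_uniq`, `cn_sim`, `kl` with `H2`, `hom4`, `mus_H2`; only leaf `3` clasps strand
`s`. -/
theorem kap [Gd U4 X] (hD : Nil D X) (t : ℕ → U4) {s : ℕ} (hs : s < n) : ∃ k : Gp X n → ℤ,
    (∀ x ∈ NN X n 2, ∀ y ∈ NN X n 2, k (x * y) = k x + k y) ∧ (∀ x ∈ NN X n 3, k x = 0) ∧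
    ∀ a < n, ∀ b < n, ∀ c < n, a ≠ s → b ≠ s → c ≠ s → ∀ y : Gp X n,
      Ph2 n (pt (4 + a) (4 + b) (4 + c) (4 + s)) (vl y) →
      k y = ((t b).a * (t a).b - (t b).b * (t a).a) * (t c).c -
        (t c).a * ((t b).b * (t a).c - (t b).c * (t a).b) := by
  obtain ⟨F, hF⟩ := flt4
  obtain ⟨k, k1, k2⟩ := inv_lam t hs adc4 (NN X n 2) fun g hg => tot_any hD t hg
  refine ⟨k, k1, fun x hx => k2 x (NN_anti n 2 hx) 1
    (cn_sim F hF ((mem_NN (by omega) x).1 hx).symm (cn_one _ _)),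
    fun a ha b hb c hc as bs cs y hy => ?_⟩
  have hl : Val 4 (4 + n) [.c true 1 (4 + a), .c true 0 (4 + b), .c false 2 (4 + c),
      .c true 3 (4 + s)] := by
    intro t ht
    simp only [List.mem_cons, List.not_mem_nil, or_false] at ht
    rcases ht with rfl | rfl | rfl | rfl <;> simp only [It.fst, It.snd] <;> omega
  have h2 := (mem_NN one_le_two y).2 (ph2_two hy)
  rw [pt_eq (by omega) (by omega) (by omega) (by omega)] at hy
  obtain ⟨x, ℓ, l1, l2, l3⟩ := kl (X := X) F H2 (by decide) hF hl t adc4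
  rw [show H2.nn + 2 = 4 from rfl] at l1 l2 l3
  have e : ∀ j r, r < 4 → 4 + j ≠ r ∧ r ≠ 4 + j := fun j r h => by omega
  have v : ∀ π : U4 →* Multiplicative ℤ,
      Multiplicative.toAdd (π (x 0)) = -Multiplicative.toAdd (π (t b)) ∧
      Multiplicative.toAdd (π (x 1)) = -Multiplicative.toAdd (π (t a)) ∧
      Multiplicative.toAdd (π (x 2)) = Multiplicative.toAdd (π (t c)) := fun π => by
    rw [l1 π 0 (by omega), l1 π 1 (by omega), l1 π 2 (by omega)]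
    simp [lkl, It.lk, e, ha, hb, hc]
  obtain ⟨⟨πa, pa⟩, ⟨πb, pb⟩, πc, pc⟩ := hom4
  have va := v πa
  have vb := v πb
  have vc := v πc
  simp only [pa, pb, pc] at va vb vc
  rw [k2 y h2 ℓ (cn_sim F hF (ph2_uniq (ph2_ltr hl) hy) l2), l3 s hs]
  simp [lkl, It.lk, e, as.symm, bs.symm, cs.symm, mus_H2, va, vb, vc]

/-- PLAN: the proof of `lam3`. -/
theorem lam3e [Gd U3 X] (hD : Nil D X) {y : Gp X 3} (h : vl y = y0) (hy : y ∈ NN X 3 1) :
    ∃ lam : Gp X 3 → ℤ,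
      (∀ a ∈ Cy (NN X 3) y, ∀ b ∈ Cy (NN X 3) y, lam (a * b) = lam a + lam b) ∧ lam y = 1 ∧
      ∀ x ∈ NN X 3 2, lam x = 0 := by
  obtain ⟨F, hF⟩ := flt3
  have h1 : Cy (NN X 3) y ≤ NN X 3 1 := (Subgroup.closure_le _).2 (by
    rintro x (rfl | hx)
    exacts [hy, NN_anti 3 1 hx])
  obtain ⟨lam, k1, k2⟩ := inv_lam t3 (s := 2) (by omega) adc3 (Cy (NN X 3) y)
    fun g hg => tot3 hD (h1 hg)
  exact ⟨lam, k1, k2 y (gt3_y y) _ (h ▸ cn_y0), fun x hx =>
    k2 x (gt3_le y hx) 1 (cn_sim F hF ((mem_NN one_le_two x).1 hx).symm (cn_one _ _))⟩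

/-- PLAN: the proof of `lam2`. -/
theorem lam2e [Gd U4 X] (hD : Nil D X) {y : Gp X 2} (h : vl y = W0) :
    ∃ lam : Gp X 2 → ℤ,
      (∀ a ∈ Cy (NN X 2) y, ∀ b ∈ Cy (NN X 2) y, lam (a * b) = lam a + lam b) ∧ lam y = 1 ∧
      (∀ x ∈ NN X 2 3, lam x = 0) ∧ ∀ x ∈ NN X 2 2, Even (lam x) := by
  obtain ⟨F, hF⟩ := flt4
  have sq : ∀ k : ℤ, y ^ (k + k) ∈ NN X 2 2 := fun k => by
    rw [zpow_add, ← (Commute.refl y).mul_zpow]
    exact zpow_mem (W0_sq hD h) k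
  obtain ⟨lam, k1, k2⟩ := inv_lam t4 (s := 0) two_pos adc4 (Cy (NN X 2) y) fun g hg => by
    obtain ⟨k, hk⟩ := (mem_Cy (fl_NN hD 2) y g).1 hg
    rcases Int.even_or_odd' k with ⟨j, rfl | rfl⟩
    · have := mul_mem (sq j) hk
      rw [two_mul, mul_inv_cancel_left] at this
      exact (tot4 hD this).imp fun _ k => k.1
    · obtain ⟨ℓ, k, -⟩ := tot4 hD (mul_mem (sq j) hk)
      have k' := cn_mul (h ▸ cn_W0 : Cn t4 2 (vl y) _) k
      rw [← vl_mul, ← mul_assoc, ← zpow_one_add, two_mul, add_comm 1, mul_inv_cancel_left] at k'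
      exact ⟨_, k'⟩
  refine ⟨lam, k1, k2 y (gt3_y y) _ (h ▸ cn_W0), fun x hx => k2 x (gt3_le y (NN_anti 2 2 hx)) 1
    (cn_sim F hF ((mem_NN (by omega) x).1 hx).symm (cn_one _ _)), fun x hx => ?_⟩
  obtain ⟨ℓ, k, e⟩ := tot4 hD hx
  rwa [k2 x (gt3_le y hx) ℓ k]

end Pool.Agent.GH
end

-- merged part: Pool.Agent.Work.MP_c00b06_gt.Main2
section
/-! Polynomial maps of degree below nine separate the invertible states. -/

namespace Pool.Agent.GH
open Gn

variable {X : Wd → Wd → Prop}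

variable {D : ℕ}

section
variable [Snd X] [Gd U3 X] [Gd U4 X]

omit [Gd U3 X] [Gd U4 X] in
theorem main2_sl (hD : Nil D X) (n : ℕ) : Slk (NN X n) :=
  fun i j hi hj x hx y hy => slack hD n i j hi hj x hx y hy

omit [Gd U3 X] [Gd U4 X] in
theorem main2_br (hD : Nil D X) (h7 : 7 ≤ D) {n : ℕ} (hn : 2 ≤ n) (L : List (Gp X n))
    (h2 : n = 2 → ∃ y ∈ L, vl y = W0) (h3 : n = 3 → ∃ y ∈ L, vl y = y0)
    (hL : ∀ A ∈ gens n, ∃ y ∈ L, Ph2 n A (vl y))
    (hL' : ∀ y ∈ L, y ∈ NN X n 1 ∧ ∀ i < n, dlt n i y ∈ NN X n 3) {g : Gp X n}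
    (hg : Dm (NN X n) Set.univ D g) (hb : ∀ i < n, dlt n i g = 1) :
    g ∈ Gn3 (NN X n) L ∧ Dm (NN X n) (Gn3 (NN X n) L) D g :=
  dm_br3 (fl_NN hD n) (main2_sl hD n) n (dlt n) (dlt_comm n) (dlt_NN n) hL'
    (gen12 hD hn h2 h3 hL) (by omega) hg hb

/-- PLAN: `un_W0`, `gens_ex` give `y, a, b`; `dm_br3` with `L = [y, a, b]` (`gen12`, `dlt_W0`);
`y * y ∈ Gn3 _ [a, b]` by `W0_sq`, `deg2_gen`, `br3`, `bru_fix`; `gt_n2`, `lam2e`. -/
theorem br_two (hD : Nil D X) (h7 : 7 ≤ D) (h9 : D ≤ 9) {g : Gp X 2}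
    (hg : Dm (NN X 2) Set.univ D g) (hb : ∀ i < 2, dlt 2 i g = 1) : g = 1 := by
  obtain ⟨y, e, hy⟩ := un_W0 hD
  obtain ⟨a, a1, a2, a3⟩ := gens_ex (n := 2) (A := pt 4 5 4 5) hD (by simp [gens])
  obtain ⟨b, b1, b2, b3⟩ := gens_ex (n := 2) (A := Bw) hD (by simp [gens])
  obtain ⟨lam, l1, l2, l3, l4⟩ := lam2e hD e
  have k1 : ∀ x ∈ [a, b], x ∈ NN X 2 1 ∧ ∀ i < 2, dlt 2 i x ∈ NN X 2 3 :=
    List.forall_mem_cons.2 ⟨⟨NN_anti _ _ a2, a3⟩, List.forall_mem_singleton.2 ⟨NN_anti _ _ b2, b3⟩⟩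
  have k2 : ∀ A ∈ gens 2, ∃ x ∈ [a, b], Ph2 2 A (vl x) :=
    List.forall_mem_cons.2 ⟨⟨a, by simp, a1⟩, List.forall_mem_singleton.2 ⟨b, by simp, b1⟩⟩
  obtain ⟨k3, k4⟩ := main2_br hD h7 le_rfl [y, a, b] (fun _ => ⟨y, by simp, e⟩)
    (fun h => by omega) (fun A hA => (k2 A hA).imp fun x h => ⟨List.mem_cons_of_mem _ h.1, h.2⟩)
    (List.forall_mem_cons.2 ⟨⟨hy, fun i hi => dlt_W0 e i hi ▸ one_mem _⟩, k1⟩) hg hb
  have k5 := br3 (fl_NN hD 2) (main2_sl hD 2) 2 (dlt 2) (dlt_comm 2) (dlt_NN 2) k1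
    (deg2_gen hD le_rfl k2 _ (W0_sq hD e))
  rw [bru_fix _ _ fun i hi => by rw [map_mul, dlt_W0 e i hi, one_mul]] at k5
  exact gt_n2 (fl_NN hD 2) (main2_sl hD 2) h7 h9 (NN_nil hD (by omega) 2) hy a2 b2 k5 lam l1 l2 l3
    l4 k4 k3

/-- PLAN: `un_y0`, `gens_ex`, `dm_br3` with `L = [y, a, b, c]`, `gt_n3`, `lam3e`, `gt_n4`; `kap`
with `s = 2`: `k1` for `t 0 = ⟨0, 1, 1, 0, 0, 0⟩`, `t 1 = ⟨1, 0, 0, 0, 0, 0⟩`, and `k2` with these
two values exchanged. -/
theorem br_three (hD : Nil D X) (h7 : 7 ≤ D) (h9 : D ≤ 9) {g : Gp X 3}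
    (hg : Dm (NN X 3) Set.univ D g) (hb : ∀ i < 3, dlt 3 i g = 1) : g = 1 := by
  obtain ⟨y, e, hy⟩ := un_y0 hD
  obtain ⟨a, a1, a2, a3⟩ := gens_ex (n := 3) (A := pt 4 5 4 6) hD (by simp [gens])
  obtain ⟨b, b1, b2, b3⟩ := gens_ex (n := 3) (A := pt 5 4 5 6) hD (by simp [gens])
  obtain ⟨c, c1, c2, c3⟩ := gens_ex (n := 3) (A := pt 6 4 6 5) hD (by simp [gens])
  obtain ⟨lam, l1, l2, l3⟩ := lam3e hD e hy
  obtain ⟨k3, k4⟩ := main2_br hD h7 (by omega) [y, a, b, c] (fun h => by omega)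
    (fun _ => ⟨y, by simp, e⟩)
    (List.forall_mem_cons.2 ⟨⟨a, by simp, a1⟩, List.forall_mem_cons.2 ⟨⟨b, by simp, b1⟩,
      List.forall_mem_singleton.2 ⟨c, by simp, c1⟩⟩⟩)
    (List.forall_mem_cons.2 ⟨⟨hy, fun i hi => dlt_y0 e i hi ▸ one_mem _⟩,
      List.forall_mem_cons.2 ⟨⟨NN_anti _ _ a2, a3⟩, List.forall_mem_cons.2 ⟨⟨NN_anti _ _ b2, b3⟩,
        List.forall_mem_singleton.2 ⟨NN_anti _ _ c2, c3⟩⟩⟩⟩) hg hb
  obtain ⟨k5, k6⟩ := gt_n3 (fl_NN hD 3) (main2_sl hD 3) (by omega) hy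
    (List.forall_mem_cons.2 ⟨a2, List.forall_mem_cons.2 ⟨b2, List.forall_mem_singleton.2 c2⟩⟩)
    lam l1 l2 l3 k4 k3
  obtain ⟨p, p1, p2, p3⟩ := kap (n := 3) (s := 2) hD
    (fun i => if i = 0 then ⟨0, 1, 1, 0, 0, 0⟩ else ⟨1, 0, 0, 0, 0, 0⟩) (by omega)
  obtain ⟨q, q1, q2, q3⟩ := kap (n := 3) (s := 2) hD
    (fun i => if i = 0 then ⟨1, 0, 0, 0, 0, 0⟩ else ⟨0, 1, 1, 0, 0, 0⟩) (by omega)
  exact gt_n4 (fl_NN hD 3) (main2_sl hD 3) h7 h9 (NN_nil hD (by omega) 3) a2 b2 c2 p q p1 q1 p2 q2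
    (p3 0 (by omega) 1 (by omega) 0 (by omega) (by omega) (by omega) (by omega) a a1)
    (q3 0 (by omega) 1 (by omega) 0 (by omega) (by omega) (by omega) (by omega) a a1)
    (q3 1 (by omega) 0 (by omega) 1 (by omega) (by omega) (by omega) (by omega) b b1) k6 k5

/-- PLAN: `gens_ex`, `dm_br3` with `L = [a, b, c]`, `gt_n4`; `kap` with `s = 3`: `k1` for first
diagonals `t 0 = (0, 1, 0)`, `t 1 = (1, 0, 0)`, `t 2 = (0, 0, 1)`, and `k2` for
`t 0 = (-1, 0, 0)`, `t 1 = (0, 0, 1)`, `t 2 = (0, 1, 0)`. -/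
theorem br_four (hD : Nil D X) (h7 : 7 ≤ D) (h9 : D ≤ 9) {g : Gp X 4}
    (hg : Dm (NN X 4) Set.univ D g) (hb : ∀ i < 4, dlt 4 i g = 1) : g = 1 := by
  obtain ⟨a, a1, a2, a3⟩ := gens_ex (n := 4) (A := pt 4 5 6 7) hD (by simp [gens])
  obtain ⟨b, b1, b2, b3⟩ := gens_ex (n := 4) (A := pt 4 6 5 7) hD (by simp [gens])
  obtain ⟨c, c1, c2, c3⟩ := gens_ex (n := 4) (A := pt 4 7 5 6) hD (by simp [gens])
  obtain ⟨k5, k6⟩ := main2_br hD h7 (by omega) [a, b, c] (fun h => by omega) (fun h => by omega)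
    (List.forall_mem_cons.2 ⟨⟨a, by simp, a1⟩, List.forall_mem_cons.2 ⟨⟨b, by simp, b1⟩,
      List.forall_mem_singleton.2 ⟨c, by simp, c1⟩⟩⟩)
    (List.forall_mem_cons.2 ⟨⟨NN_anti _ _ a2, a3⟩, List.forall_mem_cons.2 ⟨⟨NN_anti _ _ b2, b3⟩,
      List.forall_mem_singleton.2 ⟨NN_anti _ _ c2, c3⟩⟩⟩) hg hb
  obtain ⟨p, p1, p2, p3⟩ := kap (n := 4) (s := 3) hD (fun i => if i = 0 then ⟨0, 1, 0, 0, 0, 0⟩
    else if i = 1 then ⟨1, 0, 0, 0, 0, 0⟩ else ⟨0, 0, 1, 0, 0, 0⟩) (by omega)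
  obtain ⟨q, q1, q2, q3⟩ := kap (n := 4) (s := 3) hD (fun i => if i = 0 then ⟨-1, 0, 0, 0, 0, 0⟩
    else if i = 1 then ⟨0, 0, 1, 0, 0, 0⟩ else ⟨0, 1, 0, 0, 0, 0⟩) (by omega)
  exact gt_n4 (fl_NN hD 4) (main2_sl hD 4) h7 h9 (NN_nil hD (by omega) 4) a2 b2 c2 p q p1 q1 p2 q2
    (p3 0 (by omega) 1 (by omega) 2 (by omega) (by omega) (by omega) (by omega) a a1)
    (q3 0 (by omega) 1 (by omega) 2 (by omega) (by omega) (by omega) (by omega) a a1)
    (q3 0 (by omega) 2 (by omega) 1 (by omega) (by omega) (by omega) (by omega) b b1) k6 k5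

/-- PLAN: `dm_br3` with `L = []`, `gt_n5`. -/
theorem br_five (hD : Nil D X) (h7 : 7 ≤ D) (h9 : D ≤ 9) {n : ℕ} (hn : 5 ≤ n) {g : Gp X n}
    (hg : Dm (NN X n) Set.univ D g) (hb : ∀ i < n, dlt n i g = 1) : g = 1 := by
  obtain ⟨m, rfl⟩ := Nat.exists_eq_add_of_le' hn
  obtain ⟨k5, k6⟩ := main2_br hD h7 (by omega) [] (fun h => by omega) (fun h => by omega)
    (fun A hA => absurd hA List.not_mem_nil) (fun y hy => absurd hy List.not_mem_nil) hg hb
  exact gt_n5 (fl_NN hD _) (main2_sl hD _) h7 h9 (NN_nil hD (by omega) _) k6 k5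

/-- PLAN: the induction of `main_hi`. -/
theorem main_hi2 (hD : Nil D X) (h7 : 7 ≤ D) (h9 : D ≤ 9) (n : ℕ) {g : Gp X n}
    (hg : Dm (NN X n) Set.univ D g) : g = 1 := by
  have h1 : 1 ≤ D := by omega
  induction n with
  | zero => exact main_one hD h1 zero_le_one hg
  | succ n ih =>
    rcases Nat.eq_zero_or_pos n with rfl | hn
    · exact main_one hD h1 le_rfl hg
    have hb : ∀ i < n + 1, dlt (n + 1) i g = 1 := fun i hi => by
      have a := hm_u (X := X) (Nat.le_of_lt_succ hi)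
      have e := congrArg vl (ih (dm_map a.gp (fun _ _ hx => a.mem_NN hx) hg))
      rw [a.vl_gp, vl_one] at e
      exact vl_inj (by rw [vl_dlt hi, ← mul_assoc, e, Et_ins (Nat.le_of_lt_succ hi), vl_one])
    obtain rfl | rfl | rfl | hn : n = 1 ∨ n = 2 ∨ n = 3 ∨ 5 ≤ n + 1 := by omega
    exacts [br_two hD h7 h9 hg hb, br_three hD h7 h9 hg hb, br_four hD h7 h9 hg hb,
      br_five hD h7 h9 hn hg hb]

end

/-- PLAN: `main_XD` for `D ≤ 7`, else as there with `main_hi2`. -/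
theorem main_XD2 (hX : ∀ x y, X x y → Same x y) (h1 : 1 ≤ D) (h9 : D ≤ 9) (n : ℕ)
    {g : Gp (XD D X) n} (hg : Dm (NN (XD D X) n) Set.univ D g) : g = 1 := by
  rcases le_total D 7 with h | h
  · exact main_XD hX h1 h n hg
  have := snd_same hX
  have := snd_XD (X := X) h1
  obtain ⟨F, hF⟩ := flt3
  obtain ⟨F', hF'⟩ := flt4
  have := gd_same hX U3
  have := gd_same hX U4
  have := gd_XD (X := X) F (D := D) (le_bot_iff.1 (hF ▸ F.le (by omega)))
  have := gd_XD (X := X) F' (D := D) (le_bot_iff.1 (hF' ▸ F'.le (by omega)))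
  exact main_hi2 (nil_XD D) h h9 n hg

end Pool.Agent.GH
end

-- merged part: Pool.Agent.Work.MP_c00b06_gt.Fin2
section
/-! The statement up to degree nine. -/

namespace Pool.Agent.GH
open Gn

variable {X : Wd → Wd → Prop}

variable {g b k : ℕ}

theorem hard_sim2 (hX : ∀ x y, X x y → Same x y) (h1 : 1 ≤ k) (h9 : k ≤ 9) {C C' : HC X g b}
    (H : ∀ (A : Type) [AddCommGroup A] (f : FreeAbelianGroup (HC X g b) →+ A),
      (∀ z ∈ Fil X g b k, f z = 0) → f (FreeAbelianGroup.of C) = f (FreeAbelianGroup.of C')) :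
    Sim k C.1 C'.1 := by
  classical
  have := snd_same hX
  have : Snd (XD k X) := snd_XD h1
  have hD := nil_XD (X := X) k
  obtain ⟨_, x, rfl, hx⟩ := C
  obtain ⟨_, x', rfl, hx'⟩ := C'
  obtain ⟨φ, ⟨hφ, ψ, -, e, -⟩, hs⟩ := sp (X := XD k X) hx
  have hu := std_unit hD ((Ty.mk hx.1).mul hφ) hs
  have k1 := H ℤ _ (fil_ker (fun c => if Un (2 * g + b) (toXD k c * φ) then 1 else 0)
    fun r y hr hy => (alt_congr (g := fun _ =>
      if Un (2 * g + b) (mk y * up (3 * r) φ * E (3 * r)) then 1 else 0) fun s hs =>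
        if_congr (un_cube hD (Ty.mk hy) hφ s hs) rfl rfl).trans (alt_const (h1.trans hr) _))
  rw [FreeAbelianGroup.lift_apply_of, FreeAbelianGroup.lift_apply_of] at k1
  have hu' : Un (2 * g + b) (mk x' * φ) := by
    by_contra k2
    exact one_ne_zero (((if_pos hu).symm.trans k1).trans (if_neg k2))
  have k2 := main_XD2 hX h1 h9 _ (dm_of_sep (fl_NN hD (2 * g + b))
    (a := tu _ (mk x * φ)) (b := tu _ (mk x' * φ)) fun A _ θ hθ => by
      have k3 := H A _ (fil_ker (fun c => θ (tu (2 * g + b) (toXD k c * φ)))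
        fun r y hr hy => alt_cube hD h1 hr (Ty.mk hy) hφ hθ)
      rwa [FreeAbelianGroup.lift_apply_of, FreeAbelianGroup.lift_apply_of] at k3)
  have k3 := congrArg (fun a => vl a * ψ) (inv_mul_eq_one.1 k2)
  simp only [vl_tu hu, vl_tu hu', mul_assoc, e, mul_one] at k3
  exact sim_of_XD k k3

theorem conj_le_nine (hX : ∀ x y, X x y → Same x y) (g b k : ℕ) (h1 : 1 ≤ k) (h9 : k ≤ 9) :
    Conj X g b k := by
  intro C C'
  have := snd_same hX
  exact ⟨fun h A _ f hf => easy h1 h f hf, fun H => eqv_of_sim h1 (hard_sim2 hX h1 h9 H)⟩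

end Pool.Agent.GH
end
end
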