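import Pool.Agent.Work.MP_c00b06_gt.Sem3

/-! Consequences of the Hopf algebra relations (generated certificates). -/

set_option linter.unusedSimpArgs false
set_option linter.unusedTactic false
set_option linter.unreachableTactic false
set_option linter.unnecessarySeqFocus false

namespace Pool.Agent.GH
open Gn

variable {X : Wd → Wd → Prop}

theorem ax_mA :
    (G m 0 * G m 0 : Cob X) =
      G m 1 * G m 0 := by
  have t := col_sound (X := X) (fun c => List.getD [1] c 0) []
    [] []
    []
    []
    [0, 0, 0] [(0, .g .m), (0, .g .m)]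
    [(1, .g .m), (0, .g .m)]
    [([], .g .m), ([], .g .m)]
    [([0], .g .m), ([], .g .m)]
    [(0, 0, true, .pu 0 3)]
    (by decide +kernel) rfl
    trivial trivial
    trivial
  simp only [ev2, val, W, List.getD_cons_zero, List.getD_cons_succ, up_G, up_zero, up_up, map_mul, map_one, B_one_one, cr_true, cr_false, mul_one, one_mul, Nat.add_zero, Nat.zero_add, mul_assoc] at t ⊢
  (try ring_nf at t)
  (try ring_nf)
  exact t

theorem ax_mL :
    (G e 0 * G m 0 : Cob X) =
      1 := by
  have t := col_sound (X := X) (fun c => List.getD [1] c 0) []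
    [] []
    []
    []
    [0] [(0, .g .e), (0, .g .m)]
    []
    [([], .g .e), ([], .g .m)]
    []
    [(0, 0, true, .pu 1 1)]
    (by decide +kernel) rfl
    trivial trivial
    trivial
  simp only [ev2, val, W, List.getD_cons_zero, List.getD_cons_succ, up_G, up_zero, up_up, map_mul, map_one, B_one_one, cr_true, cr_false, mul_one, one_mul, Nat.add_zero, Nat.zero_add, mul_assoc] at t ⊢
  (try ring_nf at t)
  (try ring_nf)
  exact t

theorem ax_mR :
    (G e 1 * G m 0 : Cob X) =
      1 := by
  have t := col_sound (X := X) (fun c => List.getD [1] c 0) []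
    [] []
    []
    []
    [0] [(1, .g .e), (0, .g .m)]
    []
    [([0], .g .e), ([], .g .m)]
    []
    [(0, 0, true, .pu 2 1)]
    (by decide +kernel) rfl
    trivial trivial
    trivial
  simp only [ev2, val, W, List.getD_cons_zero, List.getD_cons_succ, up_G, up_zero, up_up, map_mul, map_one, B_one_one, cr_true, cr_false, mul_one, one_mul, Nat.add_zero, Nat.zero_add, mul_assoc] at t ⊢
  (try ring_nf at t)
  (try ring_nf)
  exact t

theorem ax_dA :
    (G d 0 * G d 0 : Cob X) =
      G d 0 * G d 1 := by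
  have t := col_sound (X := X) (fun c => List.getD [1] c 0) []
    [] []
    []
    []
    [0] [(0, .g .d), (0, .g .d)]
    [(0, .g .d), (1, .g .d)]
    [([], .g .d), ([], .g .d)]
    [([], .g .d), ([0], .g .d)]
    [(0, 0, true, .pu 3 1)]
    (by decide +kernel) rfl
    trivial trivial
    trivial
  simp only [ev2, val, W, List.getD_cons_zero, List.getD_cons_succ, up_G, up_zero, up_up, map_mul, map_one, B_one_one, cr_true, cr_false, mul_one, one_mul, Nat.add_zero, Nat.zero_add, mul_assoc] at t ⊢
  (try ring_nf at t)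
  (try ring_nf)
  exact t

theorem ax_dL :
    (G d 0 * G u 0 : Cob X) =
      1 := by
  have t := col_sound (X := X) (fun c => List.getD [1] c 0) []
    [] []
    []
    []
    [0] [(0, .g .d), (0, .g .u)]
    []
    [([], .g .d), ([], .g .u)]
    []
    [(0, 0, true, .pu 4 1)]
    (by decide +kernel) rfl
    trivial trivial
    trivial
  simp only [ev2, val, W, List.getD_cons_zero, List.getD_cons_succ, up_G, up_zero, up_up, map_mul, map_one, B_one_one, cr_true, cr_false, mul_one, one_mul, Nat.add_zero, Nat.zero_add, mul_assoc] at t ⊢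
  (try ring_nf at t)
  (try ring_nf)
  exact t

theorem ax_dR :
    (G d 0 * G u 1 : Cob X) =
      1 := by
  have t := col_sound (X := X) (fun c => List.getD [1] c 0) []
    [] []
    []
    []
    [0] [(0, .g .d), (1, .g .u)]
    []
    [([], .g .d), ([0], .g .u)]
    []
    [(0, 0, true, .pu 5 1)]
    (by decide +kernel) rfl
    trivial trivial
    trivial
  simp only [ev2, val, W, List.getD_cons_zero, List.getD_cons_succ, up_G, up_zero, up_up, map_mul, map_one, B_one_one, cr_true, cr_false, mul_one, one_mul, Nat.add_zero, Nat.zero_add, mul_assoc] at t ⊢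
  (try ring_nf at t)
  (try ring_nf)
  exact t

theorem ax_bi :
    (G m 0 * G d 0 : Cob X) =
      G d 0 * G d 2 * G P 1 * G m 0 * G m 1 := by
  have t := col_sound (X := X) (fun c => List.getD [1] c 0) []
    [] []
    []
    []
    [0, 0] [(0, .g .m), (0, .g .d)]
    [(0, .g .d), (2, .g .d), (1, .g .P), (0, .g .m), (1, .g .m)]
    [([], .g .m), ([], .g .d)]
    [([], .g .d), ([0, 0], .g .d), ([0], .br true 0 0), ([], .g .m), ([0], .g .m)]
    [(0, 0, true, .pu 6 2)]
    (by decide +kernel) rfl
    trivial trivial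
    trivial
  simp only [ev2, val, W, List.getD_cons_zero, List.getD_cons_succ, up_G, up_zero, up_up, map_mul, map_one, B_one_one, cr_true, cr_false, mul_one, one_mul, Nat.add_zero, Nat.zero_add, mul_assoc] at t ⊢
  (try ring_nf at t)
  (try ring_nf)
  exact t

theorem ax_mu :
    (G m 0 * G u 0 : Cob X) =
      G u 0 * G u 0 := by
  have t := col_sound (X := X) (fun c => List.getD [1] c 0) []
    [] []
    []
    []
    [0, 0] [(0, .g .m), (0, .g .u)]
    [(0, .g .u), (0, .g .u)]
    [([], .g .m), ([], .g .u)]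
    [([], .g .u), ([], .g .u)]
    [(0, 0, true, .pu 7 2)]
    (by decide +kernel) rfl
    trivial trivial
    trivial
  simp only [ev2, val, W, List.getD_cons_zero, List.getD_cons_succ, up_G, up_zero, up_up, map_mul, map_one, B_one_one, cr_true, cr_false, mul_one, one_mul, Nat.add_zero, Nat.zero_add, mul_assoc] at t ⊢
  (try ring_nf at t)
  (try ring_nf)
  exact t

theorem ax_ed :
    (G e 0 * G d 0 : Cob X) =
      G e 0 * G e 0 := by
  have t := col_sound (X := X) (fun c => List.getD [1] c 0) []
    [] []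
    []
    []
    [] [(0, .g .e), (0, .g .d)]
    [(0, .g .e), (0, .g .e)]
    [([], .g .e), ([], .g .d)]
    [([], .g .e), ([], .g .e)]
    [(0, 0, true, .pu 8 0)]
    (by decide +kernel) rfl
    trivial trivial
    trivial
  simp only [ev2, val, W, List.getD_cons_zero, List.getD_cons_succ, up_G, up_zero, up_up, map_mul, map_one, B_one_one, cr_true, cr_false, mul_one, one_mul, Nat.add_zero, Nat.zero_add, mul_assoc] at t ⊢
  (try ring_nf at t)
  (try ring_nf)
  exact t

theorem ax_eu :
    (G e 0 * G u 0 : Cob X) =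
      1 := by
  have t := col_sound (X := X) (fun c => List.getD [1] c 0) []
    [] []
    []
    []
    [] [(0, .g .e), (0, .g .u)]
    []
    [([], .g .e), ([], .g .u)]
    []
    [(0, 0, true, .pu 9 0)]
    (by decide +kernel) rfl
    trivial trivial
    trivial
  simp only [ev2, val, W, List.getD_cons_zero, List.getD_cons_succ, up_G, up_zero, up_up, map_mul, map_one, B_one_one, cr_true, cr_false, mul_one, one_mul, Nat.add_zero, Nat.zero_add, mul_assoc] at t ⊢
  (try ring_nf at t)
  (try ring_nf)
  exact t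

theorem ax_aL :
    (G d 0 * G S 0 * G m 0 : Cob X) =
      G u 0 * G e 0 := by
  have t := col_sound (X := X) (fun c => List.getD [1] c 0) []
    [] []
    []
    []
    [0] [(0, .g .d), (0, .g .S), (0, .g .m)]
    [(0, .g .u), (0, .g .e)]
    [([], .g .d), ([], .g .S), ([], .g .m)]
    [([], .g .u), ([], .g .e)]
    [(0, 0, true, .pu 10 1)]
    (by decide +kernel) rfl
    trivial trivial
    trivial
  simp only [ev2, val, W, List.getD_cons_zero, List.getD_cons_succ, up_G, up_zero, up_up, map_mul, map_one, B_one_one, cr_true, cr_false, mul_one, one_mul, Nat.add_zero, Nat.zero_add, mul_assoc] at t ⊢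
  (try ring_nf at t)
  (try ring_nf)
  exact t

theorem ax_aR :
    (G d 0 * G S 1 * G m 0 : Cob X) =
      G u 0 * G e 0 := by
  have t := col_sound (X := X) (fun c => List.getD [1] c 0) []
    [] []
    []
    []
    [0] [(0, .g .d), (1, .g .S), (0, .g .m)]
    [(0, .g .u), (0, .g .e)]
    [([], .g .d), ([0], .g .S), ([], .g .m)]
    [([], .g .u), ([], .g .e)]
    [(0, 0, true, .pu 11 1)]
    (by decide +kernel) rfl
    trivial trivial
    trivial
  simp only [ev2, val, W, List.getD_cons_zero, List.getD_cons_succ, up_G, up_zero, up_up, map_mul, map_one, B_one_one, cr_true, cr_false, mul_one, one_mul, Nat.add_zero, Nat.zero_add, mul_assoc] at t ⊢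
  (try ring_nf at t)
  (try ring_nf)
  exact t

theorem ax_ST :
    (G S 0 * G T 0 : Cob X) =
      1 := by
  have t := col_sound (X := X) (fun c => List.getD [1] c 0) []
    [] []
    []
    []
    [0] [(0, .g .S), (0, .g .T)]
    []
    [([], .g .S), ([], .g .T)]
    []
    [(0, 0, true, .pu 12 1)]
    (by decide +kernel) rfl
    trivial trivial
    trivial
  simp only [ev2, val, W, List.getD_cons_zero, List.getD_cons_succ, up_G, up_zero, up_up, map_mul, map_one, B_one_one, cr_true, cr_false, mul_one, one_mul, Nat.add_zero, Nat.zero_add, mul_assoc] at t ⊢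
  (try ring_nf at t)
  (try ring_nf)
  exact t

theorem ax_TS :
    (G T 0 * G S 0 : Cob X) =
      1 := by
  have t := col_sound (X := X) (fun c => List.getD [1] c 0) []
    [] []
    []
    []
    [0] [(0, .g .T), (0, .g .S)]
    []
    [([], .g .T), ([], .g .S)]
    []
    [(0, 0, true, .pu 13 1)]
    (by decide +kernel) rfl
    trivial trivial
    trivial
  simp only [ev2, val, W, List.getD_cons_zero, List.getD_cons_succ, up_G, up_zero, up_up, map_mul, map_one, B_one_one, cr_true, cr_false, mul_one, one_mul, Nat.add_zero, Nat.zero_add, mul_assoc] at t ⊢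
  (try ring_nf at t)
  (try ring_nf)
  exact t

theorem ax_PQ :
    (G P 0 * G Q 0 : Cob X) =
      1 := by
  have t := col_sound (X := X) (fun c => List.getD [1] c 0) []
    [] []
    []
    []
    [0, 0] [(0, .g .P), (0, .g .Q)]
    []
    [([], .br true 0 0), ([], .br false 0 0)]
    []
    [(0, 0, true, .can true)]
    (by decide +kernel) rfl
    trivial trivial
    trivial
  simp only [ev2, val, W, List.getD_cons_zero, List.getD_cons_succ, up_G, up_zero, up_up, map_mul, map_one, B_one_one, cr_true, cr_false, mul_one, one_mul, Nat.add_zero, Nat.zero_add, mul_assoc] at t ⊢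
  (try ring_nf at t)
  (try ring_nf)
  exact t

theorem ax_QP :
    (G Q 0 * G P 0 : Cob X) =
      1 := by
  have t := col_sound (X := X) (fun c => List.getD [1] c 0) []
    [] []
    []
    []
    [0, 0] [(0, .g .Q), (0, .g .P)]
    []
    [([], .br false 0 0), ([], .br true 0 0)]
    []
    [(0, 0, true, .can false)]
    (by decide +kernel) rfl
    trivial trivial
    trivial
  simp only [ev2, val, W, List.getD_cons_zero, List.getD_cons_succ, up_G, up_zero, up_up, map_mul, map_one, B_one_one, cr_true, cr_false, mul_one, one_mul, Nat.add_zero, Nat.zero_add, mul_assoc] at t ⊢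
  (try ring_nf at t)
  (try ring_nf)
  exact t

theorem ax_iR :
    (G d 0 * G l 1 : Cob X) =
      G l 0 * G e 0 := by
  have t := col_sound (X := X) (fun c => List.getD [1] c 0) []
    [] []
    []
    []
    [0] [(0, .g .d), (1, .g .l)]
    [(0, .g .l), (0, .g .e)]
    [([], .g .d), ([0], .g .l)]
    [([], .g .l), ([], .g .e)]
    [(0, 0, true, .pu 16 1)]
    (by decide +kernel) rfl
    trivial trivial
    trivial
  simp only [ev2, val, W, List.getD_cons_zero, List.getD_cons_succ, up_G, up_zero, up_up, map_mul, map_one, B_one_one, cr_true, cr_false, mul_one, one_mul, Nat.add_zero, Nat.zero_add, mul_assoc] at t ⊢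
  (try ring_nf at t)
  (try ring_nf)
  exact t

theorem ax_iL :
    (G d 0 * G l 0 : Cob X) =
      G l 0 * G e 0 := by
  have t := col_sound (X := X) (fun c => List.getD [1] c 0) []
    [] []
    []
    []
    [0] [(0, .g .d), (0, .g .l)]
    [(0, .g .l), (0, .g .e)]
    [([], .g .d), ([], .g .l)]
    [([], .g .l), ([], .g .e)]
    [(0, 0, true, .pu 17 1)]
    (by decide +kernel) rfl
    trivial trivial
    trivial
  simp only [ev2, val, W, List.getD_cons_zero, List.getD_cons_succ, up_G, up_zero, up_up, map_mul, map_one, B_one_one, cr_true, cr_false, mul_one, one_mul, Nat.add_zero, Nat.zero_add, mul_assoc] at t ⊢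
  (try ring_nf at t)
  (try ring_nf)
  exact t

theorem ax_Sl :
    (G S 0 * G l 0 : Cob X) =
      G l 0 := by
  have t := col_sound (X := X) (fun c => List.getD [1] c 0) []
    [] []
    []
    []
    [0] [(0, .g .S), (0, .g .l)]
    [(0, .g .l)]
    [([], .g .S), ([], .g .l)]
    [([], .g .l)]
    [(0, 0, true, .pu 18 1)]
    (by decide +kernel) rfl
    trivial trivial
    trivial
  simp only [ev2, val, W, List.getD_cons_zero, List.getD_cons_succ, up_G, up_zero, up_up, map_mul, map_one, B_one_one, cr_true, cr_false, mul_one, one_mul, Nat.add_zero, Nat.zero_add, mul_assoc] at t ⊢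
  (try ring_nf at t)
  (try ring_nf)
  exact t

theorem ax_vc :
    (G v 0 * G m 0 : Cob X) =
      G v 1 * G m 0 := by
  have t := col_sound (X := X) (fun c => List.getD [1] c 0) []
    [] []
    []
    []
    [0] [(0, .g .v), (0, .g .m)]
    [(1, .g .v), (0, .g .m)]
    [([], .g .v), ([], .g .m)]
    [([0], .g .v), ([], .g .m)]
    [(0, 0, true, .pu 19 1)]
    (by decide +kernel) rfl
    trivial trivial
    trivial
  simp only [ev2, val, W, List.getD_cons_zero, List.getD_cons_succ, up_G, up_zero, up_up, map_mul, map_one, B_one_one, cr_true, cr_false, mul_one, one_mul, Nat.add_zero, Nat.zero_add, mul_assoc] at t ⊢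
  (try ring_nf at t)
  (try ring_nf)
  exact t

theorem ax_vV :
    (G v 0 * G V 0 * G m 0 : Cob X) =
      G e 0 := by
  have t := col_sound (X := X) (fun c => List.getD [1] c 0) []
    [] []
    []
    []
    [] [(0, .g .v), (0, .g .V), (0, .g .m)]
    [(0, .g .e)]
    [([], .g .v), ([], .g .V), ([], .g .m)]
    [([], .g .e)]
    [(0, 0, true, .pu 20 0)]
    (by decide +kernel) rfl
    trivial trivial
    trivial
  simp only [ev2, val, W, List.getD_cons_zero, List.getD_cons_succ, up_G, up_zero, up_up, map_mul, map_one, B_one_one, cr_true, cr_false, mul_one, one_mul, Nat.add_zero, Nat.zero_add, mul_assoc] at t ⊢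
  (try ring_nf at t)
  (try ring_nf)
  exact t

theorem ax_vu :
    (G v 0 * G u 0 : Cob X) =
      1 := by
  have t := col_sound (X := X) (fun c => List.getD [1] c 0) []
    [] []
    []
    []
    [] [(0, .g .v), (0, .g .u)]
    []
    [([], .g .v), ([], .g .u)]
    []
    [(0, 0, true, .pu 21 0)]
    (by decide +kernel) rfl
    trivial trivial
    trivial
  simp only [ev2, val, W, List.getD_cons_zero, List.getD_cons_succ, up_G, up_zero, up_up, map_mul, map_one, B_one_one, cr_true, cr_false, mul_one, one_mul, Nat.add_zero, Nat.zero_add, mul_assoc] at t ⊢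
  (try ring_nf at t)
  (try ring_nf)
  exact t

theorem ax_vS :
    (G v 0 * G S 0 : Cob X) =
      G v 0 := by
  have t := col_sound (X := X) (fun c => List.getD [1] c 0) []
    [] []
    []
    []
    [] [(0, .g .v), (0, .g .S)]
    [(0, .g .v)]
    [([], .g .v), ([], .g .S)]
    [([], .g .v)]
    [(0, 0, true, .pu 22 0)]
    (by decide +kernel) rfl
    trivial trivial
    trivial
  simp only [ev2, val, W, List.getD_cons_zero, List.getD_cons_succ, up_G, up_zero, up_up, map_mul, map_one, B_one_one, cr_true, cr_false, mul_one, one_mul, Nat.add_zero, Nat.zero_add, mul_assoc] at t ⊢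
  (try ring_nf at t)
  (try ring_nf)
  exact t

theorem ax_vd :
    (G v 0 * G d 0 : Cob X) =
      G v 0 * G w 1 * G v 3 * G m 0 * G m 1 := by
  have t := col_sound (X := X) (fun c => List.getD [1] c 0) []
    [] []
    []
    []
    [] [(0, .g .v), (0, .g .d)]
    [(0, .g .v), (1, .g .w), (3, .g .v), (0, .g .m), (1, .g .m)]
    [([], .g .v), ([], .g .d)]
    [([], .g .v), ([0], .g .w), ([0, 0, 0], .g .v), ([], .g .m), ([0], .g .m)]
    [(0, 0, true, .pu 23 0)]
    (by decide +kernel) rfl
    trivial trivial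
    trivial
  simp only [ev2, val, W, List.getD_cons_zero, List.getD_cons_succ, up_G, up_zero, up_up, map_mul, map_one, B_one_one, cr_true, cr_false, mul_one, one_mul, Nat.add_zero, Nat.zero_add, mul_assoc] at t ⊢
  (try ring_nf at t)
  (try ring_nf)
  exact t

theorem ax_wR :
    (G w 0 * G d 1 : Cob X) =
      G w 0 * G w 1 * G m 0 := by
  have t := col_sound (X := X) (fun c => List.getD [1] c 0) []
    [] []
    []
    []
    [] [(0, .g .w), (1, .g .d)]
    [(0, .g .w), (1, .g .w), (0, .g .m)]
    [([], .g .w), ([0], .g .d)]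
    [([], .g .w), ([0], .g .w), ([], .g .m)]
    [(0, 0, true, .pu 24 0)]
    (by decide +kernel) rfl
    trivial trivial
    trivial
  simp only [ev2, val, W, List.getD_cons_zero, List.getD_cons_succ, up_G, up_zero, up_up, map_mul, map_one, B_one_one, cr_true, cr_false, mul_one, one_mul, Nat.add_zero, Nat.zero_add, mul_assoc] at t ⊢
  (try ring_nf at t)
  (try ring_nf)
  exact t

theorem ax_wL :
    (G w 0 * G d 0 : Cob X) =
      G w 0 * G w 1 * G m 2 := by
  have t := col_sound (X := X) (fun c => List.getD [1] c 0) []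
    [] []
    []
    []
    [] [(0, .g .w), (0, .g .d)]
    [(0, .g .w), (1, .g .w), (2, .g .m)]
    [([], .g .w), ([], .g .d)]
    [([], .g .w), ([0], .g .w), ([0, 0], .g .m)]
    [(0, 0, true, .pu 25 0)]
    (by decide +kernel) rfl
    trivial trivial
    trivial
  simp only [ev2, val, W, List.getD_cons_zero, List.getD_cons_succ, up_G, up_zero, up_up, map_mul, map_one, B_one_one, cr_true, cr_false, mul_one, one_mul, Nat.add_zero, Nat.zero_add, mul_assoc] at t ⊢
  (try ring_nf at t)
  (try ring_nf)
  exact t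

theorem ax_vl :
    (G v 0 * G l 0 : Cob X) =
      1 := by
  have t := col_sound (X := X) (fun c => List.getD [1] c 0) []
    [] []
    []
    []
    [] [(0, .g .v), (0, .g .l)]
    []
    [([], .g .v), ([], .g .l)]
    []
    [(0, 0, true, .pu 28 0)]
    (by decide +kernel) rfl
    trivial trivial
    trivial
  simp only [ev2, val, W, List.getD_cons_zero, List.getD_cons_succ, up_G, up_zero, up_up, map_mul, map_one, B_one_one, cr_true, cr_false, mul_one, one_mul, Nat.add_zero, Nat.zero_add, mul_assoc] at t ⊢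
  (try ring_nf at t)
  (try ring_nf)
  exact t

theorem ax_Vl :
    (G V 0 * G l 0 : Cob X) =
      1 := by
  have t := col_sound (X := X) (fun c => List.getD [1] c 0) []
    [] []
    []
    []
    [] [(0, .g .V), (0, .g .l)]
    []
    [([], .g .V), ([], .g .l)]
    []
    [(0, 0, true, .pu 29 0)]
    (by decide +kernel) rfl
    trivial trivial
    trivial
  simp only [ev2, val, W, List.getD_cons_zero, List.getD_cons_succ, up_G, up_zero, up_up, map_mul, map_one, B_one_one, cr_true, cr_false, mul_one, one_mul, Nat.add_zero, Nat.zero_add, mul_assoc] at t ⊢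
  (try ring_nf at t)
  (try ring_nf)
  exact t

theorem zR :
    (G w 0 * up 1 Ev : Cob X) =
      1 := by
  have t := col_sound (X := X) (fun c => List.getD [1] c 0) [Ev]
    [([0, 0], [])] []
    [([0, 0], [(0, .b 0)], [(1, .g .w), (1, .g .S), (0, .g .m), (1, .g .m), (0, .g .l), (0, .g .l)])]
    [([([], .b 0)], [([0], .g .w), ([0], .g .S), ([], .g .m), ([0], .g .m), ([], .g .l), ([], .g .l)])]
    [0] [(0, .g .w), (1, .b 0)]
    []
    [([], .g .w), ([0], .b 0)]
    []
    [(1, 1, true, .co 0), (0, 0, true, .pu 26 1)]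
    (by decide +kernel) rfl
    ⟨Ty.cast (Ev_ty) (by simp only [W, List.getD_cons_zero, List.getD_cons_succ] <;> omega) (by simp only [W, List.getD_cons_zero, List.getD_cons_succ] <;> omega),
      trivial⟩ trivial
    ⟨by have t := Ev_def (X := X); simp only [ev2, val, W, List.getD_cons_zero, List.getD_cons_succ, up_G, up_zero, up_up, map_mul, map_one, B_one_one, cr_true, cr_false, mul_one, one_mul, Nat.add_zero, Nat.zero_add, mul_assoc] at t ⊢; (try ring_nf at t); (try ring_nf); exact t,
      trivial⟩
  simp only [ev2, val, W, List.getD_cons_zero, List.getD_cons_succ, up_G, up_zero, up_up, map_mul, map_one, B_one_one, cr_true, cr_false, mul_one, one_mul, Nat.add_zero, Nat.zero_add, mul_assoc] at t ⊢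
  (try ring_nf at t)
  (try ring_nf)
  exact t

theorem zL :
    (G w 1 * Ev : Cob X) =
      1 := by
  have t := col_sound (X := X) (fun c => List.getD [1] c 0) [Ev]
    [([0, 0], [])] []
    [([0, 0], [(0, .b 0)], [(1, .g .w), (1, .g .S), (0, .g .m), (1, .g .m), (0, .g .l), (0, .g .l)])]
    [([([], .b 0)], [([0], .g .w), ([0], .g .S), ([], .g .m), ([0], .g .m), ([], .g .l), ([], .g .l)])]
    [0] [(1, .g .w), (0, .b 0)]
    []
    [([0], .g .w), ([], .b 0)]
    []
    [(1, 0, true, .co 0), (0, 0, true, .pu 27 1)]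
    (by decide +kernel) rfl
    ⟨Ty.cast (Ev_ty) (by simp only [W, List.getD_cons_zero, List.getD_cons_succ] <;> omega) (by simp only [W, List.getD_cons_zero, List.getD_cons_succ] <;> omega),
      trivial⟩ trivial
    ⟨by have t := Ev_def (X := X); simp only [ev2, val, W, List.getD_cons_zero, List.getD_cons_succ, up_G, up_zero, up_up, map_mul, map_one, B_one_one, cr_true, cr_false, mul_one, one_mul, Nat.add_zero, Nat.zero_add, mul_assoc] at t ⊢; (try ring_nf at t); (try ring_nf); exact t,
      trivial⟩
  simp only [ev2, val, W, List.getD_cons_zero, List.getD_cons_succ, up_G, up_zero, up_up, map_mul, map_one, B_one_one, cr_true, cr_false, mul_one, one_mul, Nat.add_zero, Nat.zero_add, mul_assoc] at t ⊢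
  (try ring_nf at t)
  (try ring_nf)
  exact t

theorem CO :
    (G d 0 * G d 0 * G P 1 * G S 1 * G m 0 : Cob X) =
      G w 0 * up 1 Ad := by
  have t := col_sound (X := X) (fun c => List.getD [1] c 0) [Ad]
    [([0, 0], [0])] []
    [([0, 0], [(0, .b 0)], [(0, .g .d), (1, .g .P), (2, .g .S), (0, .g .m), (0, .g .m)])]
    [([([], .b 0)], [([], .g .d), ([0], .br true 0 0), ([0, 0], .g .S), ([], .g .m), ([], .g .m)])]
    [0] [(0, .g .d), (0, .g .d), (1, .g .P), (1, .g .S), (0, .g .m)]
    [(0, .g .w), (1, .b 0)]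
    [([], .g .d), ([], .g .d), ([0], .br true 0 0), ([0], .g .S), ([], .g .m)]
    [([], .g .w), ([0], .b 0)]
    [(0, 0, true, .pu 30 1), (1, 1, false, .co 0)]
    (by decide +kernel) rfl
    ⟨Ty.cast (Ad_ty) (by simp only [W, List.getD_cons_zero, List.getD_cons_succ] <;> omega) (by simp only [W, List.getD_cons_zero, List.getD_cons_succ] <;> omega),
      trivial⟩ trivial
    ⟨by have t := Ad_def (X := X); simp only [ev2, val, W, List.getD_cons_zero, List.getD_cons_succ, up_G, up_zero, up_up, map_mul, map_one, B_one_one, cr_true, cr_false, mul_one, one_mul, Nat.add_zero, Nat.zero_add, mul_assoc] at t ⊢; (try ring_nf at t); (try ring_nf); exact t,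
      trivial⟩
  simp only [ev2, val, W, List.getD_cons_zero, List.getD_cons_succ, up_G, up_zero, up_up, map_mul, map_one, B_one_one, cr_true, cr_false, mul_one, one_mul, Nat.add_zero, Nat.zero_add, mul_assoc] at t ⊢
  (try ring_nf at t)
  (try ring_nf)
  exact t

theorem H0 :
    (G d 0 * up 1 Ad : Cob X) =
      G d 0 * G P 1 * Ad * G P 0 := by
  have t := col_sound (X := X) (fun c => List.getD [1] c 0) [Ad]
    [([0, 0], [0])] []
    [([0, 0], [(0, .b 0)], [(0, .g .d), (1, .g .P), (2, .g .S), (0, .g .m), (0, .g .m)])]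
    [([([], .b 0)], [([], .g .d), ([0], .br true 0 0), ([0, 0], .g .S), ([], .g .m), ([], .g .m)])]
    [0, 0] [(0, .g .d), (1, .b 0)]
    [(0, .g .d), (1, .g .P), (0, .b 0), (0, .g .P)]
    [([], .g .d), ([0], .b 0)]
    [([], .g .d), ([0], .br true 0 0), ([], .b 0), ([], .br true 0 0)]
    [(1, 1, true, .co 0), (0, 0, true, .pu 31 2), (1, 0, false, .far (.g .d) 0 (.g .P)),
      (4, 0, false, .far (.g .m) 0 (.g .S)), (1, 0, true, .far (.g .d) 0 (.g .P)),
      (4, 0, true, .far (.g .m) 0 (.g .S)), (2, 0, false, .co 0)]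
    (by decide +kernel) rfl
    ⟨Ty.cast (Ad_ty) (by simp only [W, List.getD_cons_zero, List.getD_cons_succ] <;> omega) (by simp only [W, List.getD_cons_zero, List.getD_cons_succ] <;> omega),
      trivial⟩ trivial
    ⟨by have t := Ad_def (X := X); simp only [ev2, val, W, List.getD_cons_zero, List.getD_cons_succ, up_G, up_zero, up_up, map_mul, map_one, B_one_one, cr_true, cr_false, mul_one, one_mul, Nat.add_zero, Nat.zero_add, mul_assoc] at t ⊢; (try ring_nf at t); (try ring_nf); exact t,
      trivial⟩
  simp only [ev2, val, W, List.getD_cons_zero, List.getD_cons_succ, up_G, up_zero, up_up, map_mul, map_one, B_one_one, cr_true, cr_false, mul_one, one_mul, Nat.add_zero, Nat.zero_add, mul_assoc] at t ⊢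
  (try ring_nf at t)
  (try ring_nf)
  exact t

theorem eS :
    (G e 0 * G S 0 : Cob X) =
      G e 0 := by
  have t := col_sound (X := X) (fun c => List.getD [1] c 0) []
    [] []
    []
    []
    [] [(0, .g .e), (0, .g .S)]
    [(0, .g .e)]
    [([], .g .e), ([], .g .S)]
    [([], .g .e)]
    [(2, 0, false, .pu 2 1), (1, 0, true, .far (.g .S) 0 (.g .e)), (0, 0, true, .far (.g .e) 0 (.g .e)),
      (0, 0, false, .pu 8 0), (1, 0, true, .pu 10 1), (1, 0, false, .far (.g .e) 0 (.g .u)),
      (0, 0, false, .far (.g .e) 0 (.g .e)), (1, 1, true, .pu 9 0)]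
    (by decide +kernel) rfl
    trivial trivial
    trivial
  simp only [ev2, val, W, List.getD_cons_zero, List.getD_cons_succ, up_G, up_zero, up_up, map_mul, map_one, B_one_one, cr_true, cr_false, mul_one, one_mul, Nat.add_zero, Nat.zero_add, mul_assoc] at t ⊢
  (try ring_nf at t)
  (try ring_nf)
  exact t

theorem Su :
    (G S 0 * G u 0 : Cob X) =
      G u 0 := by
  have t := col_sound (X := X) (fun c => List.getD [1] c 0) []
    [] []
    []
    []
    [0] [(0, .g .S), (0, .g .u)]
    [(0, .g .u)]
    [([], .g .S), ([], .g .u)]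
    [([], .g .u)]
    [(0, 0, false, .pu 5 1), (1, 0, false, .far (.g .S) 0 (.g .u)), (2, 0, false, .far (.g .u) 0 (.g .u)),
      (2, 0, false, .pu 7 2), (0, 0, true, .pu 10 1), (0, 0, false, .far (.g .e) 0 (.g .u)),
      (1, 0, false, .far (.g .u) 0 (.g .u)), (0, 0, true, .pu 9 0)]
    (by decide +kernel) rfl
    trivial trivial
    trivial
  simp only [ev2, val, W, List.getD_cons_zero, List.getD_cons_succ, up_G, up_zero, up_up, map_mul, map_one, B_one_one, cr_true, cr_false, mul_one, one_mul, Nat.add_zero, Nat.zero_add, mul_assoc] at t ⊢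
  (try ring_nf at t)
  (try ring_nf)
  exact t

theorem eT :
    (G e 0 * G T 0 : Cob X) =
      G e 0 := by
  have t := col_sound (X := X) (fun c => List.getD [1] c 0) []
    [] []
    [([], [(0, .g .e), (0, .g .S)], [(0, .g .e)])]
    [([([], .g .e), ([], .g .S)], [([], .g .e)])]
    [] [(0, .g .e), (0, .g .T)]
    [(0, .g .e)]
    [([], .g .e), ([], .g .T)]
    [([], .g .e)]
    [(0, 0, false, .co 0), (1, 0, true, .pu 12 1)]
    (by decide +kernel) rfl
    trivial trivial
    ⟨by have t := eS (X := X); simp only [ev2, val, W, List.getD_cons_zero, List.getD_cons_succ, up_G, up_zero, up_up, map_mul, map_one, B_one_one, cr_true, cr_false, mul_one, one_mul, Nat.add_zero, Nat.zero_add, mul_assoc] at t ⊢; (try ring_nf at t); (try ring_nf); exact t,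
      trivial⟩
  simp only [ev2, val, W, List.getD_cons_zero, List.getD_cons_succ, up_G, up_zero, up_up, map_mul, map_one, B_one_one, cr_true, cr_false, mul_one, one_mul, Nat.add_zero, Nat.zero_add, mul_assoc] at t ⊢
  (try ring_nf at t)
  (try ring_nf)
  exact t

theorem Tu :
    (G T 0 * G u 0 : Cob X) =
      G u 0 := by
  have t := col_sound (X := X) (fun c => List.getD [1] c 0) []
    [] []
    [([0], [(0, .g .S), (0, .g .u)], [(0, .g .u)])]
    [([([], .g .S), ([], .g .u)], [([], .g .u)])]
    [0] [(0, .g .T), (0, .g .u)]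
    [(0, .g .u)]
    [([], .g .T), ([], .g .u)]
    [([], .g .u)]
    [(1, 0, false, .co 0), (0, 0, true, .pu 13 1)]
    (by decide +kernel) rfl
    trivial trivial
    ⟨by have t := Su (X := X); simp only [ev2, val, W, List.getD_cons_zero, List.getD_cons_succ, up_G, up_zero, up_up, map_mul, map_one, B_one_one, cr_true, cr_false, mul_one, one_mul, Nat.add_zero, Nat.zero_add, mul_assoc] at t ⊢; (try ring_nf at t); (try ring_nf); exact t,
      trivial⟩
  simp only [ev2, val, W, List.getD_cons_zero, List.getD_cons_succ, up_G, up_zero, up_up, map_mul, map_one, B_one_one, cr_true, cr_false, mul_one, one_mul, Nat.add_zero, Nat.zero_add, mul_assoc] at t ⊢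
  (try ring_nf at t)
  (try ring_nf)
  exact t

theorem mS1 :
    (G d 0 * G d 2 * G P 1 * G m 0 * G P 1 * G S 1 * G S 2 * G m 1 * G m 0 : Cob X) =
      G u 0 * G u 0 * G e 0 := by
  have t := col_sound (X := X) (fun c => List.getD [1] c 0) []
    [] []
    []
    []
    [0, 0] [(0, .g .d), (2, .g .d), (1, .g .P), (0, .g .m), (1, .g .P), (1, .g .S), (2, .g .S), (1, .g .m), (0, .g .m)]
    [(0, .g .u), (0, .g .u), (0, .g .e)]
    [([], .g .d), ([0, 0], .g .d), ([0], .br true 0 0), ([], .g .m), ([0], .br true 0 0), ([0], .g .S), ([0, 0], .g .S), ([0], .g .m), ([], .g .m)]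
    [([], .g .u), ([], .g .u), ([], .g .e)]
    [(2, 1, false, .can true), (3, 2, false, .can true), (1, 1, false, .nl true (.g .d)),
      (4, 1, true, .can false), (3, 0, false, .far (.g .m) 0 (.g .Q)), (4, 1, true, .can false),
      (6, 0, false, .pu 0 3), (5, 0, false, .far (.g .m) 0 (.g .S)), (3, 0, true, .far (.g .m) 0 (.g .S)),
      (4, 0, true, .pu 0 3), (2, 1, true, .pu 11 1), (2, 1, false, .far (.g .e) 0 (.g .u)),
      (1, 1, false, .far (.g .e) 0 (.g .P)), (3, 0, false, .far (.g .m) 0 (.g .u)),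
      (2, 0, false, .far (.g .m) 0 (.g .P)), (1, 0, true, .pu 2 1), (2, 1, true, .nr false (.g .u)),
      (1, 1, true, .can true), (1, 1, false, .far (.g .S) 0 (.g .u)),
      (2, 0, false, .far (.g .m) 0 (.g .u)), (0, 0, true, .pu 11 1), (1, 0, true, .far (.g .e) 0 (.g .u))]
    (by decide +kernel) rfl
    trivial trivial
    trivial
  simp only [ev2, val, W, List.getD_cons_zero, List.getD_cons_succ, up_G, up_zero, up_up, map_mul, map_one, B_one_one, cr_true, cr_false, mul_one, one_mul, Nat.add_zero, Nat.zero_add, mul_assoc] at t ⊢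
  (try ring_nf at t)
  (try ring_nf)
  exact t

theorem mS :
    (G m 0 * G S 0 : Cob X) =
      G P 0 * G S 0 * G S 1 * G m 0 := by
  have t := col_sound (X := X) (fun c => List.getD [1] c 0) []
    [] []
    [
      ([0, 0], [(0, .g .d), (2, .g .d), (1, .g .P), (0, .g .m), (1, .g .P), (1, .g .S), (2, .g .S), (1, .g .m), (0, .g .m)], [(0, .g .u), (0, .g .u), (0, .g .e)])]
    [
      ([([], .g .d), ([0, 0], .g .d), ([0], .br true 0 0), ([], .g .m), ([0], .br true 0 0), ([0], .g .S), ([0, 0], .g .S), ([0], .g .m), ([], .g .m)], [([], .g .u), ([], .g .u), ([], .g .e)])]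
    [0, 0] [(0, .g .m), (0, .g .S)]
    [(0, .g .P), (0, .g .S), (1, .g .S), (0, .g .m)]
    [([], .g .m), ([], .g .S)]
    [([], .br true 0 0), ([], .g .S), ([0], .g .S), ([], .g .m)]
    [(0, 0, false, .pu 5 1), (1, 1, false, .can true), (2, 1, true, .nl false (.g .u)),
      (2, 0, false, .far (.g .m) 0 (.g .u)), (3, 0, false, .far (.g .S) 0 (.g .u)), (1, 2, false, .pu 5 1),
      (2, 1, false, .far (.g .P) 0 (.g .u)), (3, 0, false, .far (.g .m) 1 (.g .u)),
      (4, 0, false, .far (.g .S) 1 (.g .u)), (5, 1, false, .far (.g .u) 0 (.g .u)), (5, 0, false, .pu 2 1),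
      (6, 0, true, .far (.g .m) 0 (.g .u)), (7, 0, true, .far (.g .m) 0 (.g .u)),
      (5, 1, true, .far (.g .e) 0 (.g .u)), (6, 1, true, .far (.g .e) 0 (.g .u)), (5, 1, false, .co 0),
      (7, 2, false, .can true), (8, 3, false, .can true), (6, 2, false, .nl true (.g .d)),
      (9, 2, true, .can false), (8, 1, false, .far (.g .m) 0 (.g .Q)), (9, 2, true, .can false),
      (12, 0, false, .pu 0 3), (11, 0, false, .far (.g .m) 0 (.g .m)),
      (10, 0, false, .far (.g .m) 1 (.g .S)), (9, 0, false, .far (.g .m) 0 (.g .S)),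
      (4, 0, true, .far (.g .S) 0 (.g .d)), (3, 0, true, .far (.g .m) 0 (.g .d)),
      (4, 1, false, .can false), (5, 2, false, .can false), (3, 1, false, .nl false (.g .d)),
      (2, 1, true, .can true), (1, 1, false, .far (.g .d) 0 (.g .d)), (6, 0, true, .far (.g .S) 1 (.g .P)),
      (5, 0, true, .far (.g .m) 1 (.g .P)), (4, 1, true, .far (.g .P) 0 (.g .P)), (2, 2, false, .can true),
      (3, 2, false, .nr false (.g .d)), (5, 2, true, .can false), (4, 3, true, .can false),
      (6, 0, true, .far (.g .S) 1 (.g .d)), (5, 0, true, .far (.g .m) 1 (.g .d)),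
      (4, 1, true, .far (.g .P) 0 (.g .d)), (3, 2, false, .pu 3 1), (0, 0, false, .pu 3 1),
      (10, 1, false, .can false), (9, 0, true, .far (.g .m) 0 (.g .Q)),
      (8, 1, true, .far (.g .m) 0 (.g .Q)), (7, 0, true, .far (.g .S) 2 (.g .Q)),
      (6, 0, true, .far (.g .m) 2 (.g .Q)), (5, 1, true, .far (.g .P) 1 (.g .Q)),
      (4, 2, true, .far (.g .d) 0 (.g .Q)), (5, 2, false, .can false), (2, 2, true, .nl true (.g .d)),
      (4, 3, true, .can true), (3, 2, true, .can true), (1, 0, true, .far (.g .d) 1 (.g .d)),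
      (2, 0, true, .far (.g .d) 0 (.g .P)), (7, 0, true, .far (.g .S) 0 (.g .m)), (3, 0, false, .pu 6 2),
      (4, 0, true, .pu 10 1), (4, 0, false, .far (.g .e) 0 (.g .u)), (3, 0, false, .far (.g .e) 0 (.g .m)),
      (2, 0, false, .far (.g .e) 1 (.g .P)), (1, 0, false, .far (.g .e) 2 (.g .d)),
      (0, 0, false, .far (.g .e) 0 (.g .d)), (4, 1, true, .pu 7 2), (3, 1, false, .far (.g .u) 0 (.g .P)),
      (2, 1, false, .far (.g .u) 1 (.g .d)), (0, 0, true, .far (.g .e) 0 (.g .d)),
      (1, 0, true, .far (.g .e) 0 (.g .u)), (2, 0, true, .far (.g .e) 1 (.g .d)),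
      (3, 0, true, .far (.g .e) 0 (.g .P)), (4, 0, true, .far (.g .e) 0 (.g .u)),
      (5, 0, true, .far (.g .e) 0 (.g .P)), (6, 0, true, .far (.g .e) 0 (.g .S)),
      (7, 0, true, .far (.g .e) 1 (.g .S)), (8, 0, true, .far (.g .e) 0 (.g .m)), (9, 0, true, .pu 1 1),
      (0, 0, true, .pu 4 1), (1, 0, false, .can true), (2, 1, false, .can true),
      (0, 0, false, .nl true (.g .d)), (3, 0, true, .can false), (2, 0, false, .far (.g .u) 0 (.g .Q)),
      (3, 0, true, .can false), (1, 0, true, .pu 4 1)]
    (by decide +kernel) rfl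
    trivial trivial
    ⟨by have t := mS1 (X := X); simp only [ev2, val, W, List.getD_cons_zero, List.getD_cons_succ, up_G, up_zero, up_up, map_mul, map_one, B_one_one, cr_true, cr_false, mul_one, one_mul, Nat.add_zero, Nat.zero_add, mul_assoc] at t ⊢; (try ring_nf at t); (try ring_nf); exact t,
      trivial⟩
  simp only [ev2, val, W, List.getD_cons_zero, List.getD_cons_succ, up_G, up_zero, up_up, map_mul, map_one, B_one_one, cr_true, cr_false, mul_one, one_mul, Nat.add_zero, Nat.zero_add, mul_assoc] at t ⊢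
  (try ring_nf at t)
  (try ring_nf)
  exact t

theorem Sd1 :
    (G d 0 * G d 0 * G d 2 * G P 2 * G S 2 * G S 3 * G P 1 * G m 0 * G m 1 : Cob X) =
      G u 0 * G e 0 * G e 0 := by
  have t := col_sound (X := X) (fun c => List.getD [1] c 0) []
    [] []
    []
    []
    [0] [(0, .g .d), (0, .g .d), (2, .g .d), (2, .g .P), (2, .g .S), (3, .g .S), (1, .g .P), (0, .g .m), (1, .g .m)]
    [(0, .g .u), (0, .g .e), (0, .g .e)]
    [([], .g .d), ([], .g .d), ([0, 0], .g .d), ([0, 0], .br true 0 0), ([0, 0], .g .S), ([0, 0, 0], .g .S), ([0], .br true 0 0), ([], .g .m), ([0], .g .m)]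
    [([], .g .u), ([], .g .e), ([], .g .e)]
    [(5, 1, false, .far (.g .P) 0 (.g .S)), (6, 0, false, .far (.g .m) 1 (.g .S)),
      (5, 1, false, .can true), (4, 1, false, .nl true (.g .S)), (6, 1, true, .can false),
      (6, 0, true, .far (.g .m) 1 (.g .S)), (5, 1, true, .far (.g .S) 1 (.g .S)),
      (4, 1, true, .far (.g .P) 0 (.g .S)), (5, 2, false, .can false), (4, 2, false, .nl false (.g .S)),
      (3, 2, true, .can true), (7, 0, true, .far (.g .m) 0 (.g .m)), (6, 1, true, .far (.g .S) 0 (.g .m)),
      (7, 1, false, .can false), (6, 1, false, .nl false (.g .m)), (5, 1, true, .can true),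
      (4, 2, true, .can true), (1, 0, true, .far (.g .d) 0 (.g .d)), (0, 0, false, .pu 3 1),
      (1, 0, true, .pu 3 1), (2, 1, true, .pu 11 1), (1, 0, true, .pu 5 1), (2, 1, false, .can true),
      (1, 1, true, .nr true (.g .e)), (2, 1, true, .can false), (1, 1, false, .far (.g .S) 0 (.g .e)),
      (2, 0, false, .far (.g .m) 0 (.g .e)), (0, 0, true, .pu 11 1), (0, 0, false, .far (.g .e) 0 (.g .u)),
      (1, 1, false, .far (.g .e) 0 (.g .u)), (0, 0, true, .far (.g .e) 0 (.g .e)),
      (1, 0, true, .far (.g .e) 1 (.g .u)), (0, 0, true, .far (.g .e) 0 (.g .u))]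
    (by decide +kernel) rfl
    trivial trivial
    trivial
  simp only [ev2, val, W, List.getD_cons_zero, List.getD_cons_succ, up_G, up_zero, up_up, map_mul, map_one, B_one_one, cr_true, cr_false, mul_one, one_mul, Nat.add_zero, Nat.zero_add, mul_assoc] at t ⊢
  (try ring_nf at t)
  (try ring_nf)
  exact t

theorem Sd :
    (G S 0 * G d 0 : Cob X) =
      G d 0 * G P 0 * G S 0 * G S 1 := by
  have t := col_sound (X := X) (fun c => List.getD [1] c 0) []
    [] []
    [
      ([0], [(0, .g .d), (0, .g .d), (2, .g .d), (2, .g .P), (2, .g .S), (3, .g .S), (1, .g .P), (0, .g .m), (1, .g .m)], [(0, .g .u), (0, .g .e), (0, .g .e)])]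
    [
      ([([], .g .d), ([], .g .d), ([0, 0], .g .d), ([0, 0], .br true 0 0), ([0, 0], .g .S), ([0, 0, 0], .g .S), ([0], .br true 0 0), ([], .g .m), ([0], .g .m)], [([], .g .u), ([], .g .e), ([], .g .e)])]
    [0] [(0, .g .S), (0, .g .d)]
    [(0, .g .d), (0, .g .P), (0, .g .S), (1, .g .S)]
    [([], .g .S), ([], .g .d)]
    [([], .g .d), ([], .br true 0 0), ([], .g .S), ([0], .g .S)]
    [(2, 0, false, .pu 2 1), (3, 1, false, .can false), (2, 1, true, .nl true (.g .e)),
      (3, 1, true, .can true), (0, 0, false, .pu 5 1), (1, 0, false, .far (.g .S) 0 (.g .u)),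
      (2, 0, false, .far (.g .d) 0 (.g .u)), (3, 2, false, .far (.g .e) 0 (.g .u)),
      (4, 1, false, .far (.g .P) 0 (.g .u)), (5, 0, false, .far (.g .m) 1 (.g .u)), (6, 1, false, .pu 2 1),
      (7, 1, true, .far (.g .m) 0 (.g .u)), (5, 0, true, .far (.g .m) 1 (.g .e)),
      (6, 0, true, .far (.g .m) 2 (.g .u)), (4, 1, true, .far (.g .P) 0 (.g .e)),
      (5, 1, true, .far (.g .P) 1 (.g .u)), (3, 2, true, .far (.g .e) 0 (.g .e)),
      (4, 2, true, .far (.g .e) 1 (.g .u)), (3, 2, true, .far (.g .e) 0 (.g .u)), (3, 2, false, .co 0),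
      (8, 3, false, .far (.g .P) 0 (.g .S)), (9, 2, false, .far (.g .m) 1 (.g .S)),
      (11, 1, false, .far (.g .P) 0 (.g .m)), (10, 1, false, .far (.g .P) 1 (.g .S)),
      (12, 0, false, .far (.g .m) 1 (.g .m)), (11, 0, false, .far (.g .m) 2 (.g .S)),
      (13, 1, false, .pu 0 3), (12, 1, false, .far (.g .m) 0 (.g .S)),
      (2, 0, true, .far (.g .d) 0 (.g .d)), (1, 0, true, .far (.g .S) 0 (.g .d)), (0, 0, false, .pu 3 1),
      (10, 1, false, .can true), (9, 1, false, .nl true (.g .m)), (12, 1, true, .can false),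
      (8, 1, false, .far (.g .P) 0 (.g .P)), (7, 1, false, .far (.g .P) 1 (.g .S)),
      (6, 1, false, .far (.g .P) 1 (.g .P)), (5, 1, false, .far (.g .P) 1 (.g .d)),
      (12, 0, true, .far (.g .m) 0 (.g .m)), (11, 1, true, .far (.g .m) 0 (.g .m)),
      (12, 2, false, .can false), (9, 2, false, .nr true (.g .m)), (10, 2, true, .can true),
      (8, 2, false, .far (.g .m) 0 (.g .S)), (7, 2, false, .far (.g .m) 0 (.g .P)),
      (6, 2, false, .far (.g .m) 0 (.g .d)), (11, 0, false, .pu 0 3),
      (10, 0, false, .far (.g .m) 0 (.g .P)), (9, 0, false, .far (.g .m) 1 (.g .S)),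
      (8, 0, false, .far (.g .m) 1 (.g .P)), (7, 0, false, .far (.g .m) 1 (.g .d)),
      (6, 0, false, .far (.g .m) 0 (.g .m)), (3, 0, false, .pu 6 2), (1, 0, true, .pu 10 1),
      (1, 0, false, .far (.g .e) 0 (.g .u)), (0, 0, false, .far (.g .e) 0 (.g .d)),
      (2, 0, false, .far (.g .d) 0 (.g .u)), (1, 0, false, .far (.g .d) 0 (.g .d)), (0, 0, true, .pu 8 0),
      (1, 0, true, .far (.g .e) 1 (.g .d)), (2, 0, true, .far (.g .e) 1 (.g .u)),
      (3, 0, true, .far (.g .e) 1 (.g .d)), (4, 0, true, .far (.g .e) 1 (.g .P)),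
      (5, 0, true, .far (.g .e) 1 (.g .S)), (6, 0, true, .far (.g .e) 0 (.g .P)), (7, 0, true, .pu 1 1),
      (1, 1, true, .pu 4 1), (0, 0, true, .far (.g .e) 0 (.g .d)), (1, 0, true, .far (.g .e) 0 (.g .P)),
      (2, 0, true, .far (.g .e) 0 (.g .S)), (4, 0, false, .can true), (3, 0, true, .nr true (.g .e)),
      (4, 0, true, .can false), (3, 1, true, .far (.g .e) 0 (.g .S)), (4, 1, true, .pu 1 1)]
    (by decide +kernel) rfl
    trivial trivial
    ⟨by have t := Sd1 (X := X); simp only [ev2, val, W, List.getD_cons_zero, List.getD_cons_succ, up_G, up_zero, up_up, map_mul, map_one, B_one_one, cr_true, cr_false, mul_one, one_mul, Nat.add_zero, Nat.zero_add, mul_assoc] at t ⊢; (try ring_nf at t); (try ring_nf); exact t,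
      trivial⟩
  simp only [ev2, val, W, List.getD_cons_zero, List.getD_cons_succ, up_G, up_zero, up_up, map_mul, map_one, B_one_one, cr_true, cr_false, mul_one, one_mul, Nat.add_zero, Nat.zero_add, mul_assoc] at t ⊢
  (try ring_nf at t)
  (try ring_nf)
  exact t

theorem mT :
    (G m 0 * G T 0 : Cob X) =
      G Q 0 * G T 0 * G T 1 * G m 0 := by
  have t := col_sound (X := X) (fun c => List.getD [1] c 0) []
    [] []
    [([0, 0], [(0, .g .m), (0, .g .S)], [(0, .g .P), (0, .g .S), (1, .g .S), (0, .g .m)])]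
    [([([], .g .m), ([], .g .S)], [([], .br true 0 0), ([], .g .S), ([0], .g .S), ([], .g .m)])]
    [0, 0] [(0, .g .m), (0, .g .T)]
    [(0, .g .Q), (0, .g .T), (1, .g .T), (0, .g .m)]
    [([], .g .m), ([], .g .T)]
    [([], .br false 0 0), ([], .g .T), ([0], .g .T), ([], .g .m)]
    [(0, 1, false, .pu 13 1), (0, 0, false, .pu 13 1), (1, 0, true, .far (.g .S) 0 (.g .T)),
      (0, 0, true, .far (.g .T) 0 (.g .T)), (2, 0, false, .can false), (1, 0, false, .can false),
      (2, 0, true, .nl true (.g .T)), (3, 0, true, .can true), (0, 0, false, .can false),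
      (1, 0, false, .nr true (.g .T)), (2, 0, true, .can true), (3, 0, false, .co 0),
      (4, 0, true, .pu 12 1)]
    (by decide +kernel) rfl
    trivial trivial
    ⟨by have t := mS (X := X); simp only [ev2, val, W, List.getD_cons_zero, List.getD_cons_succ, up_G, up_zero, up_up, map_mul, map_one, B_one_one, cr_true, cr_false, mul_one, one_mul, Nat.add_zero, Nat.zero_add, mul_assoc] at t ⊢; (try ring_nf at t); (try ring_nf); exact t,
      trivial⟩
  simp only [ev2, val, W, List.getD_cons_zero, List.getD_cons_succ, up_G, up_zero, up_up, map_mul, map_one, B_one_one, cr_true, cr_false, mul_one, one_mul, Nat.add_zero, Nat.zero_add, mul_assoc] at t ⊢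
  (try ring_nf at t)
  (try ring_nf)
  exact t

theorem Td :
    (G T 0 * G d 0 : Cob X) =
      G d 0 * G Q 0 * G T 0 * G T 1 := by
  have t := col_sound (X := X) (fun c => List.getD [1] c 0) []
    [] []
    [([0], [(0, .g .S), (0, .g .d)], [(0, .g .d), (0, .g .P), (0, .g .S), (1, .g .S)])]
    [([([], .g .S), ([], .g .d)], [([], .g .d), ([], .br true 0 0), ([], .g .S), ([0], .g .S)])]
    [0] [(0, .g .T), (0, .g .d)]
    [(0, .g .d), (0, .g .Q), (0, .g .T), (1, .g .T)]
    [([], .g .T), ([], .g .d)]
    [([], .g .d), ([], .br false 0 0), ([], .g .T), ([0], .g .T)]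
    [(2, 1, false, .pu 12 1), (2, 0, false, .pu 12 1), (3, 0, true, .far (.g .T) 0 (.g .S)),
      (2, 0, true, .far (.g .S) 0 (.g .S)), (4, 0, false, .can true), (3, 0, false, .can true),
      (4, 0, true, .nl false (.g .S)), (5, 0, true, .can false), (2, 0, false, .can true),
      (3, 0, false, .nr false (.g .S)), (4, 0, true, .can false), (1, 0, false, .co 0),
      (0, 0, true, .pu 13 1)]
    (by decide +kernel) rfl
    trivial trivial
    ⟨by have t := Sd (X := X); simp only [ev2, val, W, List.getD_cons_zero, List.getD_cons_succ, up_G, up_zero, up_up, map_mul, map_one, B_one_one, cr_true, cr_false, mul_one, one_mul, Nat.add_zero, Nat.zero_add, mul_assoc] at t ⊢; (try ring_nf at t); (try ring_nf); exact t,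
      trivial⟩
  simp only [ev2, val, W, List.getD_cons_zero, List.getD_cons_succ, up_G, up_zero, up_up, map_mul, map_one, B_one_one, cr_true, cr_false, mul_one, one_mul, Nat.add_zero, Nat.zero_add, mul_assoc] at t ⊢
  (try ring_nf at t)
  (try ring_nf)
  exact t

theorem aLT :
    (G d 0 * G Q 0 * G T 0 * G m 0 : Cob X) =
      G u 0 * G e 0 := by
  have t := col_sound (X := X) (fun c => List.getD [1] c 0) []
    [] []
    [([0, 0], [(0, .g .m), (0, .g .S)], [(0, .g .P), (0, .g .S), (1, .g .S), (0, .g .m)]),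
      ([], [(0, .g .e), (0, .g .T)], [(0, .g .e)])]
    [([([], .g .m), ([], .g .S)], [([], .br true 0 0), ([], .g .S), ([0], .g .S), ([], .g .m)]),
      ([([], .g .e), ([], .g .T)], [([], .g .e)])]
    [0] [(0, .g .d), (0, .g .Q), (0, .g .T), (0, .g .m)]
    [(0, .g .u), (0, .g .e)]
    [([], .g .d), ([], .br false 0 0), ([], .g .T), ([], .g .m)]
    [([], .g .u), ([], .g .e)]
    [(4, 0, false, .pu 12 1), (3, 0, false, .can true), (2, 0, true, .nr true (.g .T)),
      (1, 0, true, .can false), (3, 0, true, .co 0), (2, 0, true, .can false),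
      (1, 0, false, .far (.g .S) 0 (.g .T)), (2, 1, true, .pu 13 1), (0, 0, true, .pu 10 1),
      (0, 0, false, .far (.g .e) 0 (.g .u)), (1, 0, false, .far (.g .T) 0 (.g .u)), (0, 0, true, .co 1),
      (0, 0, true, .far (.g .e) 0 (.g .u))]
    (by decide +kernel) rfl
    trivial trivial
    ⟨by have t := mS (X := X); simp only [ev2, val, W, List.getD_cons_zero, List.getD_cons_succ, up_G, up_zero, up_up, map_mul, map_one, B_one_one, cr_true, cr_false, mul_one, one_mul, Nat.add_zero, Nat.zero_add, mul_assoc] at t ⊢; (try ring_nf at t); (try ring_nf); exact t,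
      by have t := eT (X := X); simp only [ev2, val, W, List.getD_cons_zero, List.getD_cons_succ, up_G, up_zero, up_up, map_mul, map_one, B_one_one, cr_true, cr_false, mul_one, one_mul, Nat.add_zero, Nat.zero_add, mul_assoc] at t ⊢; (try ring_nf at t); (try ring_nf); exact t,
      trivial⟩
  simp only [ev2, val, W, List.getD_cons_zero, List.getD_cons_succ, up_G, up_zero, up_up, map_mul, map_one, B_one_one, cr_true, cr_false, mul_one, one_mul, Nat.add_zero, Nat.zero_add, mul_assoc] at t ⊢
  (try ring_nf at t)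
  (try ring_nf)
  exact t

theorem aRT :
    (G d 0 * G Q 0 * G T 1 * G m 0 : Cob X) =
      G u 0 * G e 0 := by
  have t := col_sound (X := X) (fun c => List.getD [1] c 0) []
    [] []
    [([0, 0], [(0, .g .m), (0, .g .S)], [(0, .g .P), (0, .g .S), (1, .g .S), (0, .g .m)]),
      ([], [(0, .g .e), (0, .g .T)], [(0, .g .e)])]
    [([([], .g .m), ([], .g .S)], [([], .br true 0 0), ([], .g .S), ([0], .g .S), ([], .g .m)]),
      ([([], .g .e), ([], .g .T)], [([], .g .e)])]
    [0] [(0, .g .d), (0, .g .Q), (1, .g .T), (0, .g .m)]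
    [(0, .g .u), (0, .g .e)]
    [([], .g .d), ([], .br false 0 0), ([0], .g .T), ([], .g .m)]
    [([], .g .u), ([], .g .e)]
    [(4, 0, false, .pu 12 1), (3, 0, false, .can true), (2, 0, false, .nl true (.g .T)),
      (1, 0, true, .can false), (3, 0, true, .co 0), (2, 0, true, .can false), (1, 0, true, .pu 13 1),
      (0, 0, true, .pu 11 1), (0, 0, false, .far (.g .e) 0 (.g .u)), (1, 0, false, .far (.g .T) 0 (.g .u)),
      (0, 0, true, .co 1), (0, 0, true, .far (.g .e) 0 (.g .u))]
    (by decide +kernel) rfl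
    trivial trivial
    ⟨by have t := mS (X := X); simp only [ev2, val, W, List.getD_cons_zero, List.getD_cons_succ, up_G, up_zero, up_up, map_mul, map_one, B_one_one, cr_true, cr_false, mul_one, one_mul, Nat.add_zero, Nat.zero_add, mul_assoc] at t ⊢; (try ring_nf at t); (try ring_nf); exact t,
      by have t := eT (X := X); simp only [ev2, val, W, List.getD_cons_zero, List.getD_cons_succ, up_G, up_zero, up_up, map_mul, map_one, B_one_one, cr_true, cr_false, mul_one, one_mul, Nat.add_zero, Nat.zero_add, mul_assoc] at t ⊢; (try ring_nf at t); (try ring_nf); exact t,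
      trivial⟩
  simp only [ev2, val, W, List.getD_cons_zero, List.getD_cons_succ, up_G, up_zero, up_up, map_mul, map_one, B_one_one, cr_true, cr_false, mul_one, one_mul, Nat.add_zero, Nat.zero_add, mul_assoc] at t ⊢
  (try ring_nf at t)
  (try ring_nf)
  exact t

theorem Tl :
    (G T 0 * G l 0 : Cob X) =
      G l 0 := by
  have t := col_sound (X := X) (fun c => List.getD [1] c 0) []
    [] []
    []
    []
    [0] [(0, .g .T), (0, .g .l)]
    [(0, .g .l)]
    [([], .g .T), ([], .g .l)]
    [([], .g .l)]
    [(1, 0, false, .pu 18 1), (0, 0, true, .pu 13 1)]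
    (by decide +kernel) rfl
    trivial trivial
    trivial
  simp only [ev2, val, W, List.getD_cons_zero, List.getD_cons_succ, up_G, up_zero, up_up, map_mul, map_one, B_one_one, cr_true, cr_false, mul_one, one_mul, Nat.add_zero, Nat.zero_add, mul_assoc] at t ⊢
  (try ring_nf at t)
  (try ring_nf)
  exact t

theorem vT :
    (G v 0 * G T 0 : Cob X) =
      G v 0 := by
  have t := col_sound (X := X) (fun c => List.getD [1] c 0) []
    [] []
    []
    []
    [] [(0, .g .v), (0, .g .T)]
    [(0, .g .v)]
    [([], .g .v), ([], .g .T)]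
    [([], .g .v)]
    [(0, 0, false, .pu 22 0), (1, 0, true, .pu 12 1)]
    (by decide +kernel) rfl
    trivial trivial
    trivial
  simp only [ev2, val, W, List.getD_cons_zero, List.getD_cons_succ, up_G, up_zero, up_up, map_mul, map_one, B_one_one, cr_true, cr_false, mul_one, one_mul, Nat.add_zero, Nat.zero_add, mul_assoc] at t ⊢
  (try ring_nf at t)
  (try ring_nf)
  exact t

end Pool.Agent.GH
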