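import Pool.Agent.Work.MP_c00b06_gt.Id1

/-! Ribbon element, copairing, pairing, adjoint action (generated certificates). -/

set_option linter.unusedSimpArgs false
set_option linter.unusedTactic false
set_option linter.unreachableTactic false
set_option linter.unnecessarySeqFocus false

namespace Pool.Agent.GH
open Gn

variable {X : Wd → Wd → Prop}

theorem Vv :
    (G V 0 * G v 0 * G m 0 : Cob X) =
      G e 0 := by
  have t := col_sound (X := X) (fun c => List.getD [1] c 0) []
    [] []
    []
    []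
    [] [(0, .g .V), (0, .g .v), (0, .g .m)]
    [(0, .g .e)]
    [([], .g .V), ([], .g .v), ([], .g .m)]
    [([], .g .e)]
    [(1, 0, true, .pu 19 1), (0, 0, true, .far (.g .V) 0 (.g .v)), (0, 0, true, .pu 20 0)]
    (by decide +kernel) rfl
    trivial trivial
    trivial
  simp only [ev2, val, W, List.getD_cons_zero, List.getD_cons_succ, up_G, up_zero, up_up, map_mul, map_one, B_one_one, cr_true, cr_false, mul_one, one_mul, Nat.add_zero, Nat.zero_add, mul_assoc] at t ⊢
  (try ring_nf at t)
  (try ring_nf)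
  exact t

theorem Vc :
    (G V 0 * G m 0 : Cob X) =
      G V 1 * G m 0 := by
  have t := col_sound (X := X) (fun c => List.getD [1] c 0) []
    [] []
    [([], [(0, .g .V), (0, .g .v), (0, .g .m)], [(0, .g .e)])]
    [([([], .g .V), ([], .g .v), ([], .g .m)], [([], .g .e)])]
    [0] [(0, .g .V), (0, .g .m)]
    [(1, .g .V), (0, .g .m)]
    [([], .g .V), ([], .g .m)]
    [([0], .g .V), ([], .g .m)]
    [(1, 1, false, .pu 2 1), (1, 2, false, .co 0), (1, 2, false, .far (.g .v) 0 (.g .V)),
      (3, 1, false, .pu 0 3), (2, 1, false, .far (.g .m) 0 (.g .V)), (4, 0, false, .pu 0 3),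
      (3, 0, false, .far (.g .m) 0 (.g .V)), (1, 1, false, .pu 19 1), (2, 0, false, .pu 0 3),
      (0, 0, true, .far (.g .V) 0 (.g .v)), (0, 0, true, .pu 20 0), (0, 0, true, .pu 1 1)]
    (by decide +kernel) rfl
    trivial trivial
    ⟨by have t := Vv (X := X); simp only [ev2, val, W, List.getD_cons_zero, List.getD_cons_succ, up_G, up_zero, up_up, map_mul, map_one, B_one_one, cr_true, cr_false, mul_one, one_mul, Nat.add_zero, Nat.zero_add, mul_assoc] at t ⊢; (try ring_nf at t); (try ring_nf); exact t,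
      trivial⟩
  simp only [ev2, val, W, List.getD_cons_zero, List.getD_cons_succ, up_G, up_zero, up_up, map_mul, map_one, B_one_one, cr_true, cr_false, mul_one, one_mul, Nat.add_zero, Nat.zero_add, mul_assoc] at t ⊢
  (try ring_nf at t)
  (try ring_nf)
  exact t

theorem Vu :
    (G V 0 * G u 0 : Cob X) =
      1 := by
  have t := col_sound (X := X) (fun c => List.getD [1] c 0) []
    [] []
    []
    []
    [] [(0, .g .V), (0, .g .u)]
    []
    [([], .g .V), ([], .g .u)]
    []
    [(0, 0, false, .pu 21 0), (1, 0, false, .far (.g .V) 0 (.g .u)),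
      (0, 0, false, .far (.g .V) 0 (.g .v)), (2, 0, false, .far (.g .u) 0 (.g .u)),
      (1, 0, false, .far (.g .u) 0 (.g .v)), (1, 0, false, .far (.g .v) 0 (.g .u)),
      (0, 0, false, .far (.g .v) 0 (.g .V)), (2, 0, false, .far (.g .u) 0 (.g .u)),
      (1, 0, false, .far (.g .u) 0 (.g .V)), (1, 0, false, .far (.g .V) 0 (.g .u)),
      (0, 0, false, .far (.g .V) 0 (.g .v)), (2, 0, false, .far (.g .u) 0 (.g .u)),
      (1, 0, false, .far (.g .u) 0 (.g .v)), (1, 0, false, .far (.g .v) 0 (.g .u)),
      (0, 0, false, .far (.g .v) 0 (.g .V)), (2, 0, false, .far (.g .u) 0 (.g .u)),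
      (1, 0, false, .far (.g .u) 0 (.g .V)), (1, 0, false, .far (.g .V) 0 (.g .u)),
      (0, 0, false, .far (.g .V) 0 (.g .v)), (2, 0, false, .far (.g .u) 0 (.g .u)),
      (1, 0, false, .far (.g .u) 0 (.g .v)), (1, 0, false, .far (.g .v) 0 (.g .u)),
      (0, 0, false, .far (.g .v) 0 (.g .V)), (2, 0, false, .far (.g .u) 0 (.g .u)),
      (1, 0, false, .far (.g .u) 0 (.g .V)), (1, 0, false, .far (.g .V) 0 (.g .u)),
      (0, 0, false, .far (.g .V) 0 (.g .v)), (2, 0, false, .far (.g .u) 0 (.g .u)),
      (1, 0, false, .far (.g .u) 0 (.g .v)), (1, 0, false, .far (.g .v) 0 (.g .u)),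
      (0, 0, false, .far (.g .v) 0 (.g .V)), (2, 0, false, .far (.g .u) 0 (.g .u)),
      (1, 0, false, .far (.g .u) 0 (.g .V)), (1, 0, false, .far (.g .V) 0 (.g .u)),
      (0, 0, false, .far (.g .V) 0 (.g .v)), (2, 0, false, .far (.g .u) 0 (.g .u)),
      (1, 0, false, .far (.g .u) 0 (.g .v)), (1, 0, false, .far (.g .v) 0 (.g .u)),
      (0, 0, false, .far (.g .v) 0 (.g .V)), (2, 0, false, .far (.g .u) 0 (.g .u)),
      (1, 0, false, .far (.g .u) 0 (.g .V)), (1, 0, false, .far (.g .V) 0 (.g .u)),
      (0, 0, false, .far (.g .V) 0 (.g .v)), (2, 0, false, .far (.g .u) 0 (.g .u)),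
      (1, 0, false, .far (.g .u) 0 (.g .v)), (1, 0, false, .far (.g .v) 0 (.g .u)),
      (0, 0, false, .far (.g .v) 0 (.g .V)), (2, 0, false, .far (.g .u) 0 (.g .u)),
      (1, 0, false, .far (.g .u) 0 (.g .V)), (1, 0, false, .far (.g .V) 0 (.g .u)),
      (0, 0, false, .far (.g .V) 0 (.g .v)), (2, 0, false, .far (.g .u) 0 (.g .u)),
      (1, 0, false, .far (.g .u) 0 (.g .v)), (1, 0, false, .far (.g .v) 0 (.g .u)),
      (0, 0, false, .far (.g .v) 0 (.g .V)), (2, 0, false, .far (.g .u) 0 (.g .u)),
      (1, 0, false, .far (.g .u) 0 (.g .V)), (1, 0, false, .far (.g .V) 0 (.g .u)),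
      (0, 0, false, .far (.g .V) 0 (.g .v)), (2, 0, false, .far (.g .u) 0 (.g .u)),
      (1, 0, false, .far (.g .u) 0 (.g .v)), (1, 0, false, .far (.g .v) 0 (.g .u)),
      (0, 0, false, .far (.g .v) 0 (.g .V)), (2, 0, false, .far (.g .u) 0 (.g .u)),
      (1, 0, false, .far (.g .u) 0 (.g .V)), (1, 0, false, .far (.g .V) 0 (.g .u)),
      (0, 0, false, .far (.g .V) 0 (.g .v)), (2, 0, false, .far (.g .u) 0 (.g .u)), (2, 0, false, .pu 7 2),
      (0, 0, true, .far (.g .V) 0 (.g .v)), (0, 0, true, .pu 20 0), (0, 0, true, .pu 9 0)]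
    (by decide +kernel) rfl
    trivial trivial
    trivial
  simp only [ev2, val, W, List.getD_cons_zero, List.getD_cons_succ, up_G, up_zero, up_up, map_mul, map_one, B_one_one, cr_true, cr_false, mul_one, one_mul, Nat.add_zero, Nat.zero_add, mul_assoc] at t ⊢
  (try ring_nf at t)
  (try ring_nf)
  exact t

theorem VS :
    (G V 0 * G S 0 : Cob X) =
      G V 0 := by
  have t := col_sound (X := X) (fun c => List.getD [1] c 0) []
    [] []
    [([], [(0, .g .V), (0, .g .v), (0, .g .m)], [(0, .g .e)]),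
      ([0, 0], [(0, .g .m), (0, .g .S)], [(0, .g .P), (0, .g .S), (1, .g .S), (0, .g .m)]),
      ([], [(0, .g .e), (0, .g .S)], [(0, .g .e)])]
    [([([], .g .V), ([], .g .v), ([], .g .m)], [([], .g .e)]),
      ([([], .g .m), ([], .g .S)], [([], .br true 0 0), ([], .g .S), ([0], .g .S), ([], .g .m)]),
      ([([], .g .e), ([], .g .S)], [([], .g .e)])]
    [] [(0, .g .V), (0, .g .S)]
    [(0, .g .V)]
    [([], .g .V), ([], .g .S)]
    [([], .g .V)]
    [(2, 0, false, .pu 2 1), (2, 1, false, .co 0), (2, 1, false, .far (.g .v) 0 (.g .V)),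
      (4, 0, false, .pu 0 3), (3, 0, false, .far (.g .m) 0 (.g .V)), (2, 1, false, .pu 22 0),
      (1, 0, true, .far (.g .S) 0 (.g .v)), (2, 0, false, .can false), (3, 0, false, .co 1),
      (0, 0, true, .far (.g .V) 0 (.g .v)), (2, 0, false, .can false), (1, 0, true, .nr false (.g .V)),
      (2, 0, true, .can true), (0, 0, true, .far (.g .v) 0 (.g .V)), (0, 0, true, .co 0),
      (0, 0, true, .co 2), (0, 0, true, .far (.g .e) 0 (.g .V)), (1, 0, true, .pu 1 1)]
    (by decide +kernel) rfl
    trivial trivial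
    ⟨by have t := Vv (X := X); simp only [ev2, val, W, List.getD_cons_zero, List.getD_cons_succ, up_G, up_zero, up_up, map_mul, map_one, B_one_one, cr_true, cr_false, mul_one, one_mul, Nat.add_zero, Nat.zero_add, mul_assoc] at t ⊢; (try ring_nf at t); (try ring_nf); exact t,
      by have t := mS (X := X); simp only [ev2, val, W, List.getD_cons_zero, List.getD_cons_succ, up_G, up_zero, up_up, map_mul, map_one, B_one_one, cr_true, cr_false, mul_one, one_mul, Nat.add_zero, Nat.zero_add, mul_assoc] at t ⊢; (try ring_nf at t); (try ring_nf); exact t,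
      by have t := eS (X := X); simp only [ev2, val, W, List.getD_cons_zero, List.getD_cons_succ, up_G, up_zero, up_up, map_mul, map_one, B_one_one, cr_true, cr_false, mul_one, one_mul, Nat.add_zero, Nat.zero_add, mul_assoc] at t ⊢; (try ring_nf at t); (try ring_nf); exact t,
      trivial⟩
  simp only [ev2, val, W, List.getD_cons_zero, List.getD_cons_succ, up_G, up_zero, up_up, map_mul, map_one, B_one_one, cr_true, cr_false, mul_one, one_mul, Nat.add_zero, Nat.zero_add, mul_assoc] at t ⊢
  (try ring_nf at t)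
  (try ring_nf)
  exact t

theorem VT :
    (G V 0 * G T 0 : Cob X) =
      G V 0 := by
  have t := col_sound (X := X) (fun c => List.getD [1] c 0) []
    [] []
    [([], [(0, .g .V), (0, .g .S)], [(0, .g .V)])]
    [([([], .g .V), ([], .g .S)], [([], .g .V)])]
    [] [(0, .g .V), (0, .g .T)]
    [(0, .g .V)]
    [([], .g .V), ([], .g .T)]
    [([], .g .V)]
    [(0, 0, false, .co 0), (1, 0, true, .pu 12 1)]
    (by decide +kernel) rfl
    trivial trivial
    ⟨by have t := VS (X := X); simp only [ev2, val, W, List.getD_cons_zero, List.getD_cons_succ, up_G, up_zero, up_up, map_mul, map_one, B_one_one, cr_true, cr_false, mul_one, one_mul, Nat.add_zero, Nat.zero_add, mul_assoc] at t ⊢; (try ring_nf at t); (try ring_nf); exact t,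
      trivial⟩
  simp only [ev2, val, W, List.getD_cons_zero, List.getD_cons_succ, up_G, up_zero, up_up, map_mul, map_one, B_one_one, cr_true, cr_false, mul_one, one_mul, Nat.add_zero, Nat.zero_add, mul_assoc] at t ⊢
  (try ring_nf at t)
  (try ring_nf)
  exact t

theorem wuL :
    (G w 0 * G u 0 : Cob X) =
      G e 0 := by
  have t := col_sound (X := X) (fun c => List.getD [1] c 0) []
    [] []
    [([], [(0, .g .V), (0, .g .v), (0, .g .m)], [(0, .g .e)])]
    [([([], .g .V), ([], .g .v), ([], .g .m)], [([], .g .e)])]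
    [] [(0, .g .w), (0, .g .u)]
    [(0, .g .e)]
    [([], .g .w), ([], .g .u)]
    [([], .g .e)]
    [(2, 0, false, .pu 2 1), (2, 1, false, .co 0), (2, 1, false, .far (.g .v) 0 (.g .V)),
      (4, 0, false, .pu 0 3), (3, 0, false, .far (.g .m) 0 (.g .V)), (0, 0, false, .pu 21 0),
      (1, 0, true, .far (.g .u) 0 (.g .w)), (2, 0, false, .pu 7 2), (3, 0, true, .far (.g .u) 1 (.g .v)),
      (4, 0, true, .far (.g .u) 0 (.g .m)), (2, 0, true, .far (.g .m) 1 (.g .v)), (0, 0, false, .pu 23 0),
      (1, 0, true, .pu 4 1), (0, 0, true, .far (.g .v) 0 (.g .V)), (0, 0, true, .co 0)]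
    (by decide +kernel) rfl
    trivial trivial
    ⟨by have t := Vv (X := X); simp only [ev2, val, W, List.getD_cons_zero, List.getD_cons_succ, up_G, up_zero, up_up, map_mul, map_one, B_one_one, cr_true, cr_false, mul_one, one_mul, Nat.add_zero, Nat.zero_add, mul_assoc] at t ⊢; (try ring_nf at t); (try ring_nf); exact t,
      trivial⟩
  simp only [ev2, val, W, List.getD_cons_zero, List.getD_cons_succ, up_G, up_zero, up_up, map_mul, map_one, B_one_one, cr_true, cr_false, mul_one, one_mul, Nat.add_zero, Nat.zero_add, mul_assoc] at t ⊢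
  (try ring_nf at t)
  (try ring_nf)
  exact t

theorem wuR :
    (G w 0 * G u 1 : Cob X) =
      G e 0 := by
  have t := col_sound (X := X) (fun c => List.getD [1] c 0) []
    [] []
    []
    []
    [] [(0, .g .w), (1, .g .u)]
    [(0, .g .e)]
    [([], .g .w), ([0], .g .u)]
    [([], .g .e)]
    [(1, 0, false, .pu 1 1), (0, 0, false, .far (.g .e) 0 (.g .w)), (0, 0, false, .pu 20 0),
      (0, 0, false, .far (.g .V) 0 (.g .v)), (2, 0, true, .far (.g .m) 0 (.g .w)), (3, 0, true, .pu 0 3),
      (0, 0, false, .pu 21 0), (1, 0, false, .far (.g .V) 0 (.g .u)),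
      (0, 0, false, .far (.g .V) 0 (.g .v)), (2, 1, false, .far (.g .v) 0 (.g .u)),
      (1, 1, false, .far (.g .v) 0 (.g .v)), (3, 2, false, .far (.g .w) 0 (.g .u)),
      (2, 2, false, .far (.g .w) 0 (.g .v)), (4, 1, false, .far (.g .m) 1 (.g .u)),
      (3, 1, false, .far (.g .m) 1 (.g .v)), (5, 0, false, .far (.g .m) 1 (.g .u)),
      (4, 0, false, .far (.g .m) 1 (.g .v)), (6, 1, false, .far (.g .u) 0 (.g .u)), (6, 1, false, .pu 7 2),
      (4, 0, true, .far (.g .m) 1 (.g .v)), (5, 0, true, .far (.g .m) 0 (.g .m)),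
      (3, 1, true, .far (.g .m) 1 (.g .v)), (1, 1, false, .pu 23 0), (3, 0, true, .far (.g .m) 0 (.g .u)),
      (2, 1, true, .pu 5 1), (0, 0, true, .far (.g .V) 0 (.g .v)), (0, 0, true, .pu 20 0)]
    (by decide +kernel) rfl
    trivial trivial
    trivial
  simp only [ev2, val, W, List.getD_cons_zero, List.getD_cons_succ, up_G, up_zero, up_up, map_mul, map_one, B_one_one, cr_true, cr_false, mul_one, one_mul, Nat.add_zero, Nat.zero_add, mul_assoc] at t ⊢
  (try ring_nf at t)
  (try ring_nf)
  exact t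

theorem wS1 :
    (G w 0 * G S 0 * G w 1 * G m 0 * G m 1 : Cob X) =
      G e 0 * G e 0 := by
  have t := col_sound (X := X) (fun c => List.getD [1] c 0) []
    [] []
    [([], [(0, .g .w), (0, .g .u)], [(0, .g .e)])]
    [([([], .g .w), ([], .g .u)], [([], .g .e)])]
    [] [(0, .g .w), (0, .g .S), (1, .g .w), (0, .g .m), (1, .g .m)]
    [(0, .g .e), (0, .g .e)]
    [([], .g .w), ([], .g .S), ([0], .g .w), ([], .g .m), ([0], .g .m)]
    [([], .g .e), ([], .g .e)]
    [(3, 0, true, .far (.g .m) 0 (.g .m)), (1, 0, true, .far (.g .S) 0 (.g .w)),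
      (2, 0, true, .far (.g .S) 1 (.g .m)), (0, 0, false, .pu 25 0), (1, 0, true, .pu 10 1),
      (1, 0, false, .far (.g .e) 0 (.g .u)), (0, 0, false, .far (.g .e) 0 (.g .w)), (1, 1, true, .co 0),
      (0, 0, true, .far (.g .e) 0 (.g .e))]
    (by decide +kernel) rfl
    trivial trivial
    ⟨by have t := wuL (X := X); simp only [ev2, val, W, List.getD_cons_zero, List.getD_cons_succ, up_G, up_zero, up_up, map_mul, map_one, B_one_one, cr_true, cr_false, mul_one, one_mul, Nat.add_zero, Nat.zero_add, mul_assoc] at t ⊢; (try ring_nf at t); (try ring_nf); exact t,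
      trivial⟩
  simp only [ev2, val, W, List.getD_cons_zero, List.getD_cons_succ, up_G, up_zero, up_up, map_mul, map_one, B_one_one, cr_true, cr_false, mul_one, one_mul, Nat.add_zero, Nat.zero_add, mul_assoc] at t ⊢
  (try ring_nf at t)
  (try ring_nf)
  exact t

theorem wS2 :
    (G w 0 * G w 1 * G S 2 * G m 0 * G m 1 : Cob X) =
      G e 0 * G e 0 := by
  have t := col_sound (X := X) (fun c => List.getD [1] c 0) []
    [] []
    [([], [(0, .g .w), (1, .g .u)], [(0, .g .e)])]
    [([([], .g .w), ([0], .g .u)], [([], .g .e)])]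
    [] [(0, .g .w), (1, .g .w), (2, .g .S), (0, .g .m), (1, .g .m)]
    [(0, .g .e), (0, .g .e)]
    [([], .g .w), ([0], .g .w), ([0, 0], .g .S), ([], .g .m), ([0], .g .m)]
    [([], .g .e), ([], .g .e)]
    [(2, 0, false, .far (.g .m) 0 (.g .S)), (0, 0, false, .pu 24 0), (1, 1, true, .pu 10 1),
      (0, 0, true, .co 0), (0, 0, true, .far (.g .e) 0 (.g .e))]
    (by decide +kernel) rfl
    trivial trivial
    ⟨by have t := wuR (X := X); simp only [ev2, val, W, List.getD_cons_zero, List.getD_cons_succ, up_G, up_zero, up_up, map_mul, map_one, B_one_one, cr_true, cr_false, mul_one, one_mul, Nat.add_zero, Nat.zero_add, mul_assoc] at t ⊢; (try ring_nf at t); (try ring_nf); exact t,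
      trivial⟩
  simp only [ev2, val, W, List.getD_cons_zero, List.getD_cons_succ, up_G, up_zero, up_up, map_mul, map_one, B_one_one, cr_true, cr_false, mul_one, one_mul, Nat.add_zero, Nat.zero_add, mul_assoc] at t ⊢
  (try ring_nf at t)
  (try ring_nf)
  exact t

theorem wS :
    (G w 0 * G S 0 : Cob X) =
      G w 0 * G S 1 := by
  have t := col_sound (X := X) (fun c => List.getD [1] c 0) []
    [] []
    [([], [(0, .g .w), (1, .g .w), (2, .g .S), (0, .g .m), (1, .g .m)], [(0, .g .e), (0, .g .e)]),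
      ([], [(0, .g .w), (0, .g .S), (1, .g .w), (0, .g .m), (1, .g .m)], [(0, .g .e), (0, .g .e)])]
    [
      ([([], .g .w), ([0], .g .w), ([0, 0], .g .S), ([], .g .m), ([0], .g .m)], [([], .g .e), ([], .g .e)]),
      ([([], .g .w), ([], .g .S), ([0], .g .w), ([], .g .m), ([0], .g .m)], [([], .g .e), ([], .g .e)])]
    [] [(0, .g .w), (0, .g .S)]
    [(0, .g .w), (1, .g .S)]
    [([], .g .w), ([], .g .S)]
    [([], .g .w), ([0], .g .S)]
    [(2, 1, false, .pu 1 1), (2, 0, false, .pu 2 1), (3, 0, true, .far (.g .m) 0 (.g .e)),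
      (2, 1, true, .far (.g .e) 0 (.g .e)), (2, 1, false, .co 0), (4, 1, false, .far (.g .m) 0 (.g .S)),
      (6, 0, false, .far (.g .m) 0 (.g .m)), (5, 0, false, .far (.g .m) 0 (.g .S)), (4, 0, false, .pu 0 3),
      (3, 0, false, .far (.g .m) 0 (.g .w)), (7, 1, true, .pu 0 3), (6, 1, true, .far (.g .S) 0 (.g .m)),
      (5, 0, true, .far (.g .m) 1 (.g .m)), (4, 1, true, .far (.g .w) 0 (.g .m)), (0, 0, true, .co 1),
      (0, 0, false, .far (.g .e) 0 (.g .e)), (1, 1, false, .far (.g .w) 0 (.g .e)),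
      (2, 0, false, .far (.g .m) 1 (.g .e)), (3, 1, false, .far (.g .S) 0 (.g .e)), (4, 1, true, .pu 2 1),
      (0, 0, true, .far (.g .e) 0 (.g .w)), (1, 0, true, .pu 1 1)]
    (by decide +kernel) rfl
    trivial trivial
    ⟨by have t := wS2 (X := X); simp only [ev2, val, W, List.getD_cons_zero, List.getD_cons_succ, up_G, up_zero, up_up, map_mul, map_one, B_one_one, cr_true, cr_false, mul_one, one_mul, Nat.add_zero, Nat.zero_add, mul_assoc] at t ⊢; (try ring_nf at t); (try ring_nf); exact t,
      by have t := wS1 (X := X); simp only [ev2, val, W, List.getD_cons_zero, List.getD_cons_succ, up_G, up_zero, up_up, map_mul, map_one, B_one_one, cr_true, cr_false, mul_one, one_mul, Nat.add_zero, Nat.zero_add, mul_assoc] at t ⊢; (try ring_nf at t); (try ring_nf); exact t,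
      trivial⟩
  simp only [ev2, val, W, List.getD_cons_zero, List.getD_cons_succ, up_G, up_zero, up_up, map_mul, map_one, B_one_one, cr_true, cr_false, mul_one, one_mul, Nat.add_zero, Nat.zero_add, mul_assoc] at t ⊢
  (try ring_nf at t)
  (try ring_nf)
  exact t

theorem wT :
    (G w 0 * G T 0 : Cob X) =
      G w 0 * G T 1 := by
  have t := col_sound (X := X) (fun c => List.getD [1] c 0) []
    [] []
    [([], [(0, .g .w), (0, .g .S)], [(0, .g .w), (1, .g .S)])]
    [([([], .g .w), ([], .g .S)], [([], .g .w), ([0], .g .S)])]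
    [] [(0, .g .w), (0, .g .T)]
    [(0, .g .w), (1, .g .T)]
    [([], .g .w), ([], .g .T)]
    [([], .g .w), ([0], .g .T)]
    [(2, 1, false, .pu 12 1), (1, 0, true, .far (.g .T) 0 (.g .S)), (0, 0, false, .co 0),
      (1, 0, true, .pu 12 1)]
    (by decide +kernel) rfl
    trivial trivial
    ⟨by have t := wS (X := X); simp only [ev2, val, W, List.getD_cons_zero, List.getD_cons_succ, up_G, up_zero, up_up, map_mul, map_one, B_one_one, cr_true, cr_false, mul_one, one_mul, Nat.add_zero, Nat.zero_add, mul_assoc] at t ⊢; (try ring_nf at t); (try ring_nf); exact t,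
      trivial⟩
  simp only [ev2, val, W, List.getD_cons_zero, List.getD_cons_succ, up_G, up_zero, up_up, map_mul, map_one, B_one_one, cr_true, cr_false, mul_one, one_mul, Nat.add_zero, Nat.zero_add, mul_assoc] at t ⊢
  (try ring_nf at t)
  (try ring_nf)
  exact t

theorem eev1 :
    (G e 1 * Ev : Cob X) =
      G u 0 := by
  have t := col_sound (X := X) (fun c => List.getD [1] c 0) [Ev]
    [([0, 0], [])] []
    [([], [(0, .g .w), (1, .g .u)], [(0, .g .e)]), ([0], [(1, .g .w), (0, .b 0)], [])]
    [([([], .g .w), ([0], .g .u)], [([], .g .e)]), ([([0], .g .w), ([], .b 0)], [])]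
    [0] [(1, .g .e), (0, .b 0)]
    [(0, .g .u)]
    [([0], .g .e), ([], .b 0)]
    [([], .g .u)]
    [(0, 1, false, .co 0), (1, 0, false, .far (.b 0) 0 (.g .u)), (0, 0, true, .co 1)]
    (by decide +kernel) rfl
    ⟨Ty.cast (Ev_ty) (by simp only [W, List.getD_cons_zero, List.getD_cons_succ] <;> omega) (by simp only [W, List.getD_cons_zero, List.getD_cons_succ] <;> omega),
      trivial⟩ trivial
    ⟨by have t := wuR (X := X); simp only [ev2, val, W, List.getD_cons_zero, List.getD_cons_succ, up_G, up_zero, up_up, map_mul, map_one, B_one_one, cr_true, cr_false, mul_one, one_mul, Nat.add_zero, Nat.zero_add, mul_assoc] at t ⊢; (try ring_nf at t); (try ring_nf); exact t,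
      by have t := zL (X := X); simp only [ev2, val, W, List.getD_cons_zero, List.getD_cons_succ, up_G, up_zero, up_up, map_mul, map_one, B_one_one, cr_true, cr_false, mul_one, one_mul, Nat.add_zero, Nat.zero_add, mul_assoc] at t ⊢; (try ring_nf at t); (try ring_nf); exact t,
      trivial⟩
  simp only [ev2, val, W, List.getD_cons_zero, List.getD_cons_succ, up_G, up_zero, up_up, map_mul, map_one, B_one_one, cr_true, cr_false, mul_one, one_mul, Nat.add_zero, Nat.zero_add, mul_assoc] at t ⊢
  (try ring_nf at t)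
  (try ring_nf)
  exact t

theorem eev0 :
    (G e 0 * Ev : Cob X) =
      G u 0 := by
  have t := col_sound (X := X) (fun c => List.getD [1] c 0) [Ev]
    [([0, 0], [])] []
    [([], [(0, .g .w), (0, .g .u)], [(0, .g .e)]), ([0], [(0, .g .w), (1, .b 0)], [])]
    [([([], .g .w), ([], .g .u)], [([], .g .e)]), ([([], .g .w), ([0], .b 0)], [])]
    [0] [(0, .g .e), (0, .b 0)]
    [(0, .g .u)]
    [([], .g .e), ([], .b 0)]
    [([], .g .u)]
    [(0, 0, false, .co 0), (1, 0, true, .far (.g .u) 0 (.b 0)), (0, 0, true, .co 1)]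
    (by decide +kernel) rfl
    ⟨Ty.cast (Ev_ty) (by simp only [W, List.getD_cons_zero, List.getD_cons_succ] <;> omega) (by simp only [W, List.getD_cons_zero, List.getD_cons_succ] <;> omega),
      trivial⟩ trivial
    ⟨by have t := wuL (X := X); simp only [ev2, val, W, List.getD_cons_zero, List.getD_cons_succ, up_G, up_zero, up_up, map_mul, map_one, B_one_one, cr_true, cr_false, mul_one, one_mul, Nat.add_zero, Nat.zero_add, mul_assoc] at t ⊢; (try ring_nf at t); (try ring_nf); exact t,
      by have t := zR (X := X); simp only [ev2, val, W, List.getD_cons_zero, List.getD_cons_succ, up_G, up_zero, up_up, map_mul, map_one, B_one_one, cr_true, cr_false, mul_one, one_mul, Nat.add_zero, Nat.zero_add, mul_assoc] at t ⊢; (try ring_nf at t); (try ring_nf); exact t,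
      trivial⟩
  simp only [ev2, val, W, List.getD_cons_zero, List.getD_cons_succ, up_G, up_zero, up_up, map_mul, map_one, B_one_one, cr_true, cr_false, mul_one, one_mul, Nat.add_zero, Nat.zero_add, mul_assoc] at t ⊢
  (try ring_nf at t)
  (try ring_nf)
  exact t

theorem mev0 :
    (G m 0 * Ev : Cob X) =
      G d 2 * up 1 Ev * Ev := by
  have t := col_sound (X := X) (fun c => List.getD [1] c 0) [Ev]
    [([0, 0], [])] []
    [([0], [(1, .g .w), (0, .b 0)], []), ([0], [(0, .g .w), (1, .b 0)], [])]
    [([([0], .g .w), ([], .b 0)], []), ([([], .g .w), ([0], .b 0)], [])]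
    [0, 0, 0] [(0, .g .m), (0, .b 0)]
    [(2, .g .d), (1, .b 0), (0, .b 0)]
    [([], .g .m), ([], .b 0)]
    [([0, 0], .g .d), ([0], .b 0), ([], .b 0)]
    [(0, 1, false, .co 0), (0, 0, false, .co 0), (1, 0, true, .far (.b 0) 2 (.g .w)),
      (2, 0, true, .far (.b 0) 1 (.b 0)), (3, 0, true, .far (.b 0) 0 (.g .m)),
      (0, 1, true, .far (.g .w) 1 (.g .w)), (1, 1, true, .far (.g .w) 0 (.b 0)),
      (1, 1, true, .far (.b 0) 0 (.g .w)), (2, 1, true, .far (.b 0) 1 (.g .m)), (0, 2, false, .pu 25 0),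
      (3, 0, true, .far (.b 0) 0 (.b 0)), (2, 1, true, .far (.b 0) 1 (.b 0)),
      (1, 2, true, .far (.g .d) 0 (.b 0)), (0, 2, true, .co 1)]
    (by decide +kernel) rfl
    ⟨Ty.cast (Ev_ty) (by simp only [W, List.getD_cons_zero, List.getD_cons_succ] <;> omega) (by simp only [W, List.getD_cons_zero, List.getD_cons_succ] <;> omega),
      trivial⟩ trivial
    ⟨by have t := zL (X := X); simp only [ev2, val, W, List.getD_cons_zero, List.getD_cons_succ, up_G, up_zero, up_up, map_mul, map_one, B_one_one, cr_true, cr_false, mul_one, one_mul, Nat.add_zero, Nat.zero_add, mul_assoc] at t ⊢; (try ring_nf at t); (try ring_nf); exact t,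
      by have t := zR (X := X); simp only [ev2, val, W, List.getD_cons_zero, List.getD_cons_succ, up_G, up_zero, up_up, map_mul, map_one, B_one_one, cr_true, cr_false, mul_one, one_mul, Nat.add_zero, Nat.zero_add, mul_assoc] at t ⊢; (try ring_nf at t); (try ring_nf); exact t,
      trivial⟩
  simp only [ev2, val, W, List.getD_cons_zero, List.getD_cons_succ, up_G, up_zero, up_up, map_mul, map_one, B_one_one, cr_true, cr_false, mul_one, one_mul, Nat.add_zero, Nat.zero_add, mul_assoc] at t ⊢
  (try ring_nf at t)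
  (try ring_nf)
  exact t

theorem mev1 :
    (G m 1 * Ev : Cob X) =
      G d 0 * up 1 Ev * Ev := by
  have t := col_sound (X := X) (fun c => List.getD [1] c 0) [Ev]
    [([0, 0], [])] []
    [([0], [(0, .g .w), (1, .b 0)], []), ([0], [(1, .g .w), (0, .b 0)], [])]
    [([([], .g .w), ([0], .b 0)], []), ([([0], .g .w), ([], .b 0)], [])]
    [0, 0, 0] [(1, .g .m), (0, .b 0)]
    [(0, .g .d), (1, .b 0), (0, .b 0)]
    [([0], .g .m), ([], .b 0)]
    [([], .g .d), ([0], .b 0), ([], .b 0)]
    [(0, 2, false, .co 0), (1, 1, false, .far (.g .m) 0 (.b 0)), (2, 0, false, .far (.b 0) 0 (.b 0)),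
      (0, 1, false, .co 0), (1, 2, false, .far (.g .w) 0 (.b 0)), (2, 1, false, .far (.g .m) 1 (.b 0)),
      (3, 0, false, .far (.b 0) 1 (.b 0)), (0, 1, false, .pu 24 0), (1, 0, false, .far (.b 0) 0 (.g .d)),
      (0, 0, true, .co 1)]
    (by decide +kernel) rfl
    ⟨Ty.cast (Ev_ty) (by simp only [W, List.getD_cons_zero, List.getD_cons_succ] <;> omega) (by simp only [W, List.getD_cons_zero, List.getD_cons_succ] <;> omega),
      trivial⟩ trivial
    ⟨by have t := zR (X := X); simp only [ev2, val, W, List.getD_cons_zero, List.getD_cons_succ, up_G, up_zero, up_up, map_mul, map_one, B_one_one, cr_true, cr_false, mul_one, one_mul, Nat.add_zero, Nat.zero_add, mul_assoc] at t ⊢; (try ring_nf at t); (try ring_nf); exact t,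
      by have t := zL (X := X); simp only [ev2, val, W, List.getD_cons_zero, List.getD_cons_succ, up_G, up_zero, up_up, map_mul, map_one, B_one_one, cr_true, cr_false, mul_one, one_mul, Nat.add_zero, Nat.zero_add, mul_assoc] at t ⊢; (try ring_nf at t); (try ring_nf); exact t,
      trivial⟩
  simp only [ev2, val, W, List.getD_cons_zero, List.getD_cons_succ, up_G, up_zero, up_up, map_mul, map_one, B_one_one, cr_true, cr_false, mul_one, one_mul, Nat.add_zero, Nat.zero_add, mul_assoc] at t ⊢
  (try ring_nf at t)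
  (try ring_nf)
  exact t

theorem Sev :
    (G S 0 * Ev : Cob X) =
      G S 1 * Ev := by
  have t := col_sound (X := X) (fun c => List.getD [1] c 0) [Ev]
    [([0, 0], [])] []
    [([0], [(1, .g .w), (0, .b 0)], []), ([], [(0, .g .w), (0, .g .S)], [(0, .g .w), (1, .g .S)]),
      ([0], [(0, .g .w), (1, .b 0)], [])]
    [([([0], .g .w), ([], .b 0)], []), ([([], .g .w), ([], .g .S)], [([], .g .w), ([0], .g .S)]),
      ([([], .g .w), ([0], .b 0)], [])]
    [0, 0] [(0, .g .S), (0, .b 0)]
    [(1, .g .S), (0, .b 0)]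
    [([], .g .S), ([], .b 0)]
    [([0], .g .S), ([], .b 0)]
    [(0, 0, false, .co 0), (1, 0, true, .far (.b 0) 0 (.g .S)), (0, 1, false, .co 1),
      (2, 0, true, .far (.b 0) 0 (.b 0)), (1, 1, true, .far (.g .S) 0 (.b 0)), (0, 1, true, .co 2)]
    (by decide +kernel) rfl
    ⟨Ty.cast (Ev_ty) (by simp only [W, List.getD_cons_zero, List.getD_cons_succ] <;> omega) (by simp only [W, List.getD_cons_zero, List.getD_cons_succ] <;> omega),
      trivial⟩ trivial
    ⟨by have t := zL (X := X); simp only [ev2, val, W, List.getD_cons_zero, List.getD_cons_succ, up_G, up_zero, up_up, map_mul, map_one, B_one_one, cr_true, cr_false, mul_one, one_mul, Nat.add_zero, Nat.zero_add, mul_assoc] at t ⊢; (try ring_nf at t); (try ring_nf); exact t,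
      by have t := wS (X := X); simp only [ev2, val, W, List.getD_cons_zero, List.getD_cons_succ, up_G, up_zero, up_up, map_mul, map_one, B_one_one, cr_true, cr_false, mul_one, one_mul, Nat.add_zero, Nat.zero_add, mul_assoc] at t ⊢; (try ring_nf at t); (try ring_nf); exact t,
      by have t := zR (X := X); simp only [ev2, val, W, List.getD_cons_zero, List.getD_cons_succ, up_G, up_zero, up_up, map_mul, map_one, B_one_one, cr_true, cr_false, mul_one, one_mul, Nat.add_zero, Nat.zero_add, mul_assoc] at t ⊢; (try ring_nf at t); (try ring_nf); exact t,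
      trivial⟩
  simp only [ev2, val, W, List.getD_cons_zero, List.getD_cons_succ, up_G, up_zero, up_up, map_mul, map_one, B_one_one, cr_true, cr_false, mul_one, one_mul, Nat.add_zero, Nat.zero_add, mul_assoc] at t ⊢
  (try ring_nf at t)
  (try ring_nf)
  exact t

theorem Tev :
    (G T 0 * Ev : Cob X) =
      G T 1 * Ev := by
  have t := col_sound (X := X) (fun c => List.getD [1] c 0) [Ev]
    [([0, 0], [])] []
    [([0, 0], [(0, .g .S), (0, .b 0)], [(1, .g .S), (0, .b 0)])]
    [([([], .g .S), ([], .b 0)], [([0], .g .S), ([], .b 0)])]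
    [0, 0] [(0, .g .T), (0, .b 0)]
    [(1, .g .T), (0, .b 0)]
    [([], .g .T), ([], .b 0)]
    [([0], .g .T), ([], .b 0)]
    [(1, 1, false, .pu 13 1), (2, 0, false, .co 0), (1, 0, false, .far (.g .S) 0 (.g .T)),
      (0, 0, true, .pu 13 1)]
    (by decide +kernel) rfl
    ⟨Ty.cast (Ev_ty) (by simp only [W, List.getD_cons_zero, List.getD_cons_succ] <;> omega) (by simp only [W, List.getD_cons_zero, List.getD_cons_succ] <;> omega),
      trivial⟩ trivial
    ⟨by have t := Sev (X := X); simp only [ev2, val, W, List.getD_cons_zero, List.getD_cons_succ, up_G, up_zero, up_up, map_mul, map_one, B_one_one, cr_true, cr_false, mul_one, one_mul, Nat.add_zero, Nat.zero_add, mul_assoc] at t ⊢; (try ring_nf at t); (try ring_nf); exact t,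
      trivial⟩
  simp only [ev2, val, W, List.getD_cons_zero, List.getD_cons_succ, up_G, up_zero, up_up, map_mul, map_one, B_one_one, cr_true, cr_false, mul_one, one_mul, Nat.add_zero, Nat.zero_add, mul_assoc] at t ⊢
  (try ring_nf at t)
  (try ring_nf)
  exact t

theorem ead :
    (G e 0 * Ad : Cob X) =
      1 := by
  have t := col_sound (X := X) (fun c => List.getD [1] c 0) [Ad]
    [([0, 0], [0])] []
    [([0, 0], [(0, .b 0)], [(0, .g .d), (1, .g .P), (2, .g .S), (0, .g .m), (0, .g .m)]),
      ([], [(0, .g .e), (0, .g .S)], [(0, .g .e)])]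
    [([([], .b 0)], [([], .g .d), ([0], .br true 0 0), ([0, 0], .g .S), ([], .g .m), ([], .g .m)]),
      ([([], .g .e), ([], .g .S)], [([], .g .e)])]
    [0] [(0, .g .e), (0, .b 0)]
    []
    [([], .g .e), ([], .b 0)]
    []
    [(1, 0, true, .co 0), (3, 0, false, .far (.g .m) 0 (.g .S)), (0, 0, true, .pu 8 0),
      (1, 0, true, .far (.g .e) 0 (.g .P)), (2, 0, true, .pu 1 1), (1, 0, false, .can true),
      (0, 0, true, .nr true (.g .e)), (1, 0, true, .can false), (0, 1, true, .co 1), (0, 0, true, .pu 2 1)]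
    (by decide +kernel) rfl
    ⟨Ty.cast (Ad_ty) (by simp only [W, List.getD_cons_zero, List.getD_cons_succ] <;> omega) (by simp only [W, List.getD_cons_zero, List.getD_cons_succ] <;> omega),
      trivial⟩ trivial
    ⟨by have t := Ad_def (X := X); simp only [ev2, val, W, List.getD_cons_zero, List.getD_cons_succ, up_G, up_zero, up_up, map_mul, map_one, B_one_one, cr_true, cr_false, mul_one, one_mul, Nat.add_zero, Nat.zero_add, mul_assoc] at t ⊢; (try ring_nf at t); (try ring_nf); exact t,
      by have t := eS (X := X); simp only [ev2, val, W, List.getD_cons_zero, List.getD_cons_succ, up_G, up_zero, up_up, map_mul, map_one, B_one_one, cr_true, cr_false, mul_one, one_mul, Nat.add_zero, Nat.zero_add, mul_assoc] at t ⊢; (try ring_nf at t); (try ring_nf); exact t,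
      trivial⟩
  simp only [ev2, val, W, List.getD_cons_zero, List.getD_cons_succ, up_G, up_zero, up_up, map_mul, map_one, B_one_one, cr_true, cr_false, mul_one, one_mul, Nat.add_zero, Nat.zero_add, mul_assoc] at t ⊢
  (try ring_nf at t)
  (try ring_nf)
  exact t

theorem mad :
    (G m 0 * Ad : Cob X) =
      up 1 Ad * Ad := by
  have t := col_sound (X := X) (fun c => List.getD [1] c 0) [Ad]
    [([0, 0], [0])] []
    [([0, 0], [(0, .b 0)], [(0, .g .d), (1, .g .P), (2, .g .S), (0, .g .m), (0, .g .m)]),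
      ([0, 0], [(0, .g .m), (0, .g .S)], [(0, .g .P), (0, .g .S), (1, .g .S), (0, .g .m)])]
    [([([], .b 0)], [([], .g .d), ([0], .br true 0 0), ([0, 0], .g .S), ([], .g .m), ([], .g .m)]),
      ([([], .g .m), ([], .g .S)], [([], .br true 0 0), ([], .g .S), ([0], .g .S), ([], .g .m)])]
    [0, 0, 0] [(0, .g .m), (0, .b 0)]
    [(1, .b 0), (0, .b 0)]
    [([], .g .m), ([], .b 0)]
    [([0], .b 0), ([], .b 0)]
    [(1, 0, true, .co 0), (3, 0, false, .far (.g .m) 0 (.g .S)), (0, 0, true, .pu 6 2),
      (3, 0, true, .far (.g .m) 0 (.g .m)), (4, 0, true, .far (.g .m) 0 (.g .P)), (5, 0, true, .pu 0 3),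
      (6, 0, true, .far (.g .m) 0 (.g .S)), (7, 0, true, .pu 0 3), (5, 1, true, .far (.g .m) 0 (.g .S)),
      (6, 1, true, .pu 0 3), (4, 2, false, .can true), (3, 2, true, .nr true (.g .m)),
      (6, 2, true, .can false), (5, 3, true, .co 1), (7, 3, false, .can false),
      (6, 3, true, .nr false (.g .S)), (5, 3, true, .can true), (8, 2, false, .pu 0 3),
      (7, 2, false, .far (.g .m) 0 (.g .S)), (4, 2, true, .far (.g .P) 0 (.g .S)),
      (8, 2, false, .can false), (5, 2, true, .nl true (.g .m)), (6, 2, true, .can true),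
      (8, 1, false, .pu 0 3), (7, 1, false, .far (.g .m) 0 (.g .S)), (2, 1, true, .far (.g .P) 0 (.g .P)),
      (3, 1, true, .far (.g .P) 1 (.g .S)), (4, 1, true, .far (.g .P) 0 (.g .m)),
      (8, 1, false, .can false), (5, 1, true, .nl true (.g .m)), (6, 1, true, .can true),
      (8, 0, false, .pu 0 3), (7, 0, false, .far (.g .m) 0 (.g .S)), (4, 2, false, .pu 0 3),
      (3, 2, false, .far (.g .m) 0 (.g .S)), (7, 0, true, .far (.g .m) 0 (.g .S)),
      (0, 0, true, .far (.g .d) 0 (.g .d)), (1, 0, true, .far (.g .d) 1 (.g .P)),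
      (2, 0, true, .far (.g .d) 0 (.g .m)), (3, 0, true, .far (.g .d) 1 (.g .S)),
      (4, 0, true, .far (.g .d) 0 (.g .m)), (5, 0, false, .co 0), (2, 1, true, .far (.g .m) 0 (.g .S)),
      (0, 1, false, .co 0)]
    (by decide +kernel) rfl
    ⟨Ty.cast (Ad_ty) (by simp only [W, List.getD_cons_zero, List.getD_cons_succ] <;> omega) (by simp only [W, List.getD_cons_zero, List.getD_cons_succ] <;> omega),
      trivial⟩ trivial
    ⟨by have t := Ad_def (X := X); simp only [ev2, val, W, List.getD_cons_zero, List.getD_cons_succ, up_G, up_zero, up_up, map_mul, map_one, B_one_one, cr_true, cr_false, mul_one, one_mul, Nat.add_zero, Nat.zero_add, mul_assoc] at t ⊢; (try ring_nf at t); (try ring_nf); exact t,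
      by have t := mS (X := X); simp only [ev2, val, W, List.getD_cons_zero, List.getD_cons_succ, up_G, up_zero, up_up, map_mul, map_one, B_one_one, cr_true, cr_false, mul_one, one_mul, Nat.add_zero, Nat.zero_add, mul_assoc] at t ⊢; (try ring_nf at t); (try ring_nf); exact t,
      trivial⟩
  simp only [ev2, val, W, List.getD_cons_zero, List.getD_cons_succ, up_G, up_zero, up_up, map_mul, map_one, B_one_one, cr_true, cr_false, mul_one, one_mul, Nat.add_zero, Nat.zero_add, mul_assoc] at t ⊢
  (try ring_nf at t)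
  (try ring_nf)
  exact t

theorem Ie :
    (G e 1 * Ad : Cob X) =
      G u 0 * G e 0 := by
  have t := col_sound (X := X) (fun c => List.getD [1] c 0) [Ad]
    [([0, 0], [0])] []
    [([0, 0], [(0, .b 0)], [(0, .g .d), (1, .g .P), (2, .g .S), (0, .g .m), (0, .g .m)])]
    [([([], .b 0)], [([], .g .d), ([0], .br true 0 0), ([0, 0], .g .S), ([], .g .m), ([], .g .m)])]
    [0] [(1, .g .e), (0, .b 0)]
    [(0, .g .u), (0, .g .e)]
    [([0], .g .e), ([], .b 0)]
    [([], .g .u), ([], .g .e)]
    [(1, 0, true, .co 0), (0, 0, false, .far (.g .d) 0 (.g .e)), (3, 0, false, .far (.g .m) 0 (.g .S)),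
      (2, 1, false, .can true), (1, 1, false, .nl true (.g .e)), (2, 1, true, .can false),
      (1, 0, true, .pu 2 1), (0, 0, true, .pu 11 1)]
    (by decide +kernel) rfl
    ⟨Ty.cast (Ad_ty) (by simp only [W, List.getD_cons_zero, List.getD_cons_succ] <;> omega) (by simp only [W, List.getD_cons_zero, List.getD_cons_succ] <;> omega),
      trivial⟩ trivial
    ⟨by have t := Ad_def (X := X); simp only [ev2, val, W, List.getD_cons_zero, List.getD_cons_succ, up_G, up_zero, up_up, map_mul, map_one, B_one_one, cr_true, cr_false, mul_one, one_mul, Nat.add_zero, Nat.zero_add, mul_assoc] at t ⊢; (try ring_nf at t); (try ring_nf); exact t,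
      trivial⟩
  simp only [ev2, val, W, List.getD_cons_zero, List.getD_cons_succ, up_G, up_zero, up_up, map_mul, map_one, B_one_one, cr_true, cr_false, mul_one, one_mul, Nat.add_zero, Nat.zero_add, mul_assoc] at t ⊢
  (try ring_nf at t)
  (try ring_nf)
  exact t

theorem Iu :
    (Ad * G u 0 : Cob X) =
      G u 0 * G u 0 := by
  have t := col_sound (X := X) (fun c => List.getD [1] c 0) [Ad]
    [([0, 0], [0])] []
    [([0, 0], [(0, .b 0)], [(0, .g .d), (1, .g .P), (2, .g .S), (0, .g .m), (0, .g .m)]),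
      ([0], [(0, .g .S), (0, .g .u)], [(0, .g .u)])]
    [([([], .b 0)], [([], .g .d), ([0], .br true 0 0), ([0, 0], .g .S), ([], .g .m), ([], .g .m)]),
      ([([], .g .S), ([], .g .u)], [([], .g .u)])]
    [0, 0] [(0, .b 0), (0, .g .u)]
    [(0, .g .u), (0, .g .u)]
    [([], .b 0), ([], .g .u)]
    [([], .g .u), ([], .g .u)]
    [(0, 0, true, .co 0), (2, 0, false, .far (.g .m) 0 (.g .S)), (4, 0, true, .pu 7 2),
      (3, 0, false, .far (.g .u) 0 (.g .S)), (4, 0, true, .co 1), (3, 0, true, .far (.g .u) 0 (.g .u)),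
      (2, 0, true, .far (.g .m) 0 (.g .u)), (2, 1, false, .nl false (.g .u)), (1, 1, true, .can true),
      (2, 0, true, .pu 7 2), (1, 0, false, .far (.g .u) 0 (.g .u)), (0, 0, true, .pu 4 1)]
    (by decide +kernel) rfl
    ⟨Ty.cast (Ad_ty) (by simp only [W, List.getD_cons_zero, List.getD_cons_succ] <;> omega) (by simp only [W, List.getD_cons_zero, List.getD_cons_succ] <;> omega),
      trivial⟩ trivial
    ⟨by have t := Ad_def (X := X); simp only [ev2, val, W, List.getD_cons_zero, List.getD_cons_succ, up_G, up_zero, up_up, map_mul, map_one, B_one_one, cr_true, cr_false, mul_one, one_mul, Nat.add_zero, Nat.zero_add, mul_assoc] at t ⊢; (try ring_nf at t); (try ring_nf); exact t,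
      by have t := Su (X := X); simp only [ev2, val, W, List.getD_cons_zero, List.getD_cons_succ, up_G, up_zero, up_up, map_mul, map_one, B_one_one, cr_true, cr_false, mul_one, one_mul, Nat.add_zero, Nat.zero_add, mul_assoc] at t ⊢; (try ring_nf at t); (try ring_nf); exact t,
      trivial⟩
  simp only [ev2, val, W, List.getD_cons_zero, List.getD_cons_succ, up_G, up_zero, up_up, map_mul, map_one, B_one_one, cr_true, cr_false, mul_one, one_mul, Nat.add_zero, Nat.zero_add, mul_assoc] at t ⊢
  (try ring_nf at t)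
  (try ring_nf)
  exact t

theorem Iv :
    (G v 1 * Ad : Cob X) =
      G u 0 * G v 0 := by
  have t := col_sound (X := X) (fun c => List.getD [1] c 0) [Ad]
    [([0, 0], [0])] []
    [([0, 0], [(0, .b 0)], [(0, .g .d), (1, .g .P), (2, .g .S), (0, .g .m), (0, .g .m)])]
    [([([], .b 0)], [([], .g .d), ([0], .br true 0 0), ([0, 0], .g .S), ([], .g .m), ([], .g .m)])]
    [0] [(1, .g .v), (0, .b 0)]
    [(0, .g .u), (0, .g .v)]
    [([0], .g .v), ([], .b 0)]
    [([], .g .u), ([], .g .v)]
    [(1, 0, true, .co 0), (0, 0, false, .far (.g .d) 0 (.g .v)), (3, 0, false, .far (.g .m) 0 (.g .S)),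
      (1, 1, false, .nr false (.g .v)), (2, 1, true, .can false), (1, 0, false, .pu 19 1),
      (0, 0, false, .far (.g .v) 0 (.g .d)), (2, 0, true, .far (.g .m) 0 (.g .S)), (3, 0, true, .pu 0 3),
      (1, 1, true, .pu 11 1), (1, 1, false, .far (.g .e) 0 (.g .u)), (2, 0, false, .far (.g .m) 0 (.g .u)),
      (1, 0, true, .pu 2 1), (0, 0, true, .far (.g .v) 0 (.g .u))]
    (by decide +kernel) rfl
    ⟨Ty.cast (Ad_ty) (by simp only [W, List.getD_cons_zero, List.getD_cons_succ] <;> omega) (by simp only [W, List.getD_cons_zero, List.getD_cons_succ] <;> omega),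
      trivial⟩ trivial
    ⟨by have t := Ad_def (X := X); simp only [ev2, val, W, List.getD_cons_zero, List.getD_cons_succ, up_G, up_zero, up_up, map_mul, map_one, B_one_one, cr_true, cr_false, mul_one, one_mul, Nat.add_zero, Nat.zero_add, mul_assoc] at t ⊢; (try ring_nf at t); (try ring_nf); exact t,
      trivial⟩
  simp only [ev2, val, W, List.getD_cons_zero, List.getD_cons_succ, up_G, up_zero, up_up, map_mul, map_one, B_one_one, cr_true, cr_false, mul_one, one_mul, Nat.add_zero, Nat.zero_add, mul_assoc] at t ⊢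
  (try ring_nf at t)
  (try ring_nf)
  exact t

theorem IV :
    (G V 1 * Ad : Cob X) =
      G u 0 * G V 0 := by
  have t := col_sound (X := X) (fun c => List.getD [1] c 0) [Ad]
    [([0, 0], [0])] []
    [([0, 0], [(0, .b 0)], [(0, .g .d), (1, .g .P), (2, .g .S), (0, .g .m), (0, .g .m)]),
      ([0], [(0, .g .V), (0, .g .m)], [(1, .g .V), (0, .g .m)])]
    [([([], .b 0)], [([], .g .d), ([0], .br true 0 0), ([0, 0], .g .S), ([], .g .m), ([], .g .m)]),
      ([([], .g .V), ([], .g .m)], [([0], .g .V), ([], .g .m)])]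
    [0] [(1, .g .V), (0, .b 0)]
    [(0, .g .u), (0, .g .V)]
    [([0], .g .V), ([], .b 0)]
    [([], .g .u), ([], .g .V)]
    [(1, 0, true, .co 0), (0, 0, false, .far (.g .d) 0 (.g .V)), (3, 0, false, .far (.g .m) 0 (.g .S)),
      (1, 1, false, .nr false (.g .V)), (2, 1, true, .can false), (1, 0, false, .co 1),
      (0, 0, false, .far (.g .V) 0 (.g .d)), (2, 0, true, .far (.g .m) 0 (.g .S)), (3, 0, true, .pu 0 3),
      (1, 1, true, .pu 11 1), (1, 1, false, .far (.g .e) 0 (.g .u)), (2, 0, false, .far (.g .m) 0 (.g .u)),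
      (1, 0, true, .pu 2 1), (0, 0, true, .far (.g .V) 0 (.g .u))]
    (by decide +kernel) rfl
    ⟨Ty.cast (Ad_ty) (by simp only [W, List.getD_cons_zero, List.getD_cons_succ] <;> omega) (by simp only [W, List.getD_cons_zero, List.getD_cons_succ] <;> omega),
      trivial⟩ trivial
    ⟨by have t := Ad_def (X := X); simp only [ev2, val, W, List.getD_cons_zero, List.getD_cons_succ, up_G, up_zero, up_up, map_mul, map_one, B_one_one, cr_true, cr_false, mul_one, one_mul, Nat.add_zero, Nat.zero_add, mul_assoc] at t ⊢; (try ring_nf at t); (try ring_nf); exact t,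
      by have t := Vc (X := X); simp only [ev2, val, W, List.getD_cons_zero, List.getD_cons_succ, up_G, up_zero, up_up, map_mul, map_one, B_one_one, cr_true, cr_false, mul_one, one_mul, Nat.add_zero, Nat.zero_add, mul_assoc] at t ⊢; (try ring_nf at t); (try ring_nf); exact t,
      trivial⟩
  simp only [ev2, val, W, List.getD_cons_zero, List.getD_cons_succ, up_G, up_zero, up_up, map_mul, map_one, B_one_one, cr_true, cr_false, mul_one, one_mul, Nat.add_zero, Nat.zero_add, mul_assoc] at t ⊢
  (try ring_nf at t)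
  (try ring_nf)
  exact t

theorem Im :
    (G m 1 * Ad : Cob X) =
      G d 0 * G P 1 * Ad * up 1 Ad * G m 0 := by
  have t := col_sound (X := X) (fun c => List.getD [1] c 0) [Ad]
    [([0, 0], [0])] []
    [([0, 0], [(0, .b 0)], [(0, .g .d), (1, .g .P), (2, .g .S), (0, .g .m), (0, .g .m)])]
    [([([], .b 0)], [([], .g .d), ([0], .br true 0 0), ([0, 0], .g .S), ([], .g .m), ([], .g .m)])]
    [0, 0, 0] [(1, .g .m), (0, .b 0)]
    [(0, .g .d), (1, .g .P), (0, .b 0), (1, .b 0), (0, .g .m)]
    [([0], .g .m), ([], .b 0)]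
    [([], .g .d), ([0], .br true 0 0), ([], .b 0), ([0], .b 0), ([], .g .m)]
    [(1, 0, true, .co 0), (0, 0, false, .far (.g .d) 0 (.g .m)), (3, 0, false, .far (.g .m) 0 (.g .S)),
      (1, 1, false, .can true), (2, 2, false, .can true), (3, 1, false, .nr false (.g .m)),
      (4, 1, true, .can false), (2, 1, false, .pu 2 1), (3, 1, false, .can false),
      (2, 1, false, .nr true (.g .e)), (3, 1, true, .can true), (1, 1, false, .far (.g .e) 0 (.g .P)),
      (2, 2, false, .pu 4 1), (1, 1, true, .far (.g .e) 0 (.g .d)), (2, 1, true, .far (.g .e) 0 (.g .u)),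
      (2, 1, false, .pu 10 1), (1, 1, true, .pu 3 1), (2, 1, false, .far (.g .S) 0 (.g .d)),
      (4, 3, false, .can true), (5, 2, false, .can true), (3, 2, true, .nr true (.g .d)),
      (6, 1, false, .far (.g .m) 0 (.g .Q)), (7, 2, true, .can false), (7, 1, false, .can true),
      (6, 1, true, .nr true (.g .m)), (5, 2, true, .can false), (7, 1, true, .can false),
      (4, 1, false, .far (.g .P) 0 (.g .d)), (2, 1, true, .far (.g .S) 0 (.g .P)),
      (4, 1, false, .can true), (3, 1, true, .nr true (.g .S)), (5, 1, true, .can false),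
      (2, 2, false, .can true), (3, 1, false, .can true), (1, 1, true, .nr true (.g .d)),
      (4, 2, true, .can false), (3, 1, true, .can false), (5, 1, false, .pu 0 3),
      (4, 1, false, .far (.g .m) 0 (.g .d)), (6, 1, true, .far (.g .m) 0 (.g .P)), (7, 1, true, .pu 0 3),
      (8, 0, false, .pu 0 3), (7, 0, false, .far (.g .m) 0 (.g .m)), (6, 0, false, .far (.g .m) 1 (.g .P)),
      (5, 0, false, .far (.g .m) 0 (.g .d)), (9, 0, true, .far (.g .m) 0 (.g .S)), (10, 0, true, .pu 0 3),
      (8, 1, true, .far (.g .m) 0 (.g .S)), (6, 1, false, .co 0), (4, 0, false, .pu 0 3),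
      (3, 0, false, .far (.g .m) 0 (.g .S)), (3, 1, false, .can false), (4, 2, false, .can false),
      (1, 1, false, .nr true (.g .d)), (3, 1, true, .can true), (2, 2, true, .can true),
      (0, 0, false, .pu 3 1), (4, 0, true, .far (.g .m) 0 (.g .S)), (1, 0, true, .far (.g .d) 0 (.g .P)),
      (2, 0, false, .co 0)]
    (by decide +kernel) rfl
    ⟨Ty.cast (Ad_ty) (by simp only [W, List.getD_cons_zero, List.getD_cons_succ] <;> omega) (by simp only [W, List.getD_cons_zero, List.getD_cons_succ] <;> omega),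
      trivial⟩ trivial
    ⟨by have t := Ad_def (X := X); simp only [ev2, val, W, List.getD_cons_zero, List.getD_cons_succ, up_G, up_zero, up_up, map_mul, map_one, B_one_one, cr_true, cr_false, mul_one, one_mul, Nat.add_zero, Nat.zero_add, mul_assoc] at t ⊢; (try ring_nf at t); (try ring_nf); exact t,
      trivial⟩
  simp only [ev2, val, W, List.getD_cons_zero, List.getD_cons_succ, up_G, up_zero, up_up, map_mul, map_one, B_one_one, cr_true, cr_false, mul_one, one_mul, Nat.add_zero, Nat.zero_add, mul_assoc] at t ⊢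
  (try ring_nf at t)
  (try ring_nf)
  exact t

theorem adY :
    (G d 1 * Y * G m 0 : Cob X) =
      Ad := by
  have t := col_sound (X := X) (fun c => List.getD [1] c 0) [Y, Ad]
    [([0, 0], [0]), ([0, 0], [0])] []
    [
      ([0, 0], [(0, .b 0)], [(0, .g .d), (2, .g .d), (1, .g .P), (2, .g .S), (3, .g .S), (0, .g .m), (0, .g .m), (0, .g .m)]),
      ([0, 0], [(0, .b 1)], [(0, .g .d), (1, .g .P), (2, .g .S), (0, .g .m), (0, .g .m)])]
    [
      ([([], .b 0)], [([], .g .d), ([0, 0], .g .d), ([0], .br true 0 0), ([0, 0], .g .S), ([0, 0, 0], .g .S), ([], .g .m), ([], .g .m), ([], .g .m)]),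
      ([([], .b 1)], [([], .g .d), ([0], .br true 0 0), ([0, 0], .g .S), ([], .g .m), ([], .g .m)])]
    [0, 0] [(1, .g .d), (0, .b 0), (0, .g .m)]
    [(0, .b 1)]
    [([0], .g .d), ([], .b 0), ([], .g .m)]
    [([], .b 1)]
    [(1, 0, true, .co 0), (0, 0, false, .far (.g .d) 0 (.g .d)), (5, 0, false, .far (.g .m) 1 (.g .S)),
      (4, 0, false, .far (.g .m) 0 (.g .S)), (6, 0, false, .far (.g .m) 0 (.g .S)), (1, 2, true, .pu 3 1),
      (2, 1, false, .far (.g .P) 0 (.g .d)), (3, 0, false, .far (.g .m) 1 (.g .d)),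
      (4, 1, false, .far (.g .S) 0 (.g .d)), (5, 0, false, .far (.g .m) 0 (.g .d)), (8, 0, true, .pu 0 3),
      (6, 1, true, .pu 10 1), (5, 0, true, .far (.g .m) 0 (.g .u)), (4, 1, true, .far (.g .S) 0 (.g .u)),
      (3, 0, true, .far (.g .m) 1 (.g .u)), (2, 1, true, .far (.g .P) 0 (.g .u)), (1, 2, true, .pu 5 1),
      (5, 0, true, .pu 2 1), (2, 0, true, .far (.g .m) 0 (.g .S)), (0, 0, false, .co 1)]
    (by decide +kernel) rfl
    ⟨Ty.cast (Y_ty) (by simp only [W, List.getD_cons_zero, List.getD_cons_succ] <;> omega) (by simp only [W, List.getD_cons_zero, List.getD_cons_succ] <;> omega),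
      Ty.cast (Ad_ty) (by simp only [W, List.getD_cons_zero, List.getD_cons_succ] <;> omega) (by simp only [W, List.getD_cons_zero, List.getD_cons_succ] <;> omega),
      trivial⟩ trivial
    ⟨by have t := Y_def (X := X); simp only [ev2, val, W, List.getD_cons_zero, List.getD_cons_succ, up_G, up_zero, up_up, map_mul, map_one, B_one_one, cr_true, cr_false, mul_one, one_mul, Nat.add_zero, Nat.zero_add, mul_assoc] at t ⊢; (try ring_nf at t); (try ring_nf); exact t,
      by have t := Ad_def (X := X); simp only [ev2, val, W, List.getD_cons_zero, List.getD_cons_succ, up_G, up_zero, up_up, map_mul, map_one, B_one_one, cr_true, cr_false, mul_one, one_mul, Nat.add_zero, Nat.zero_add, mul_assoc] at t ⊢; (try ring_nf at t); (try ring_nf); exact t,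
      trivial⟩
  simp only [ev2, val, W, List.getD_cons_zero, List.getD_cons_succ, up_G, up_zero, up_up, map_mul, map_one, B_one_one, cr_true, cr_false, mul_one, one_mul, Nat.add_zero, Nat.zero_add, mul_assoc] at t ⊢
  (try ring_nf at t)
  (try ring_nf)
  exact t

theorem adm :
    (G d 0 * G P 1 * Ad * G m 0 : Cob X) =
      G m 0 := by
  have t := col_sound (X := X) (fun c => List.getD [1] c 0) [Ad]
    [([0, 0], [0])] []
    [([0, 0], [(0, .b 0)], [(0, .g .d), (1, .g .P), (2, .g .S), (0, .g .m), (0, .g .m)])]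
    [([([], .b 0)], [([], .g .d), ([0], .br true 0 0), ([0, 0], .g .S), ([], .g .m), ([], .g .m)])]
    [0, 0] [(0, .g .d), (1, .g .P), (0, .b 0), (0, .g .m)]
    [(0, .g .m)]
    [([], .g .d), ([0], .br true 0 0), ([], .b 0), ([], .g .m)]
    [([], .g .m)]
    [(2, 0, true, .co 0), (1, 0, false, .far (.g .d) 0 (.g .P)), (4, 0, false, .far (.g .m) 0 (.g .S)),
      (0, 0, true, .pu 3 1), (2, 2, false, .can true), (3, 1, false, .can true),
      (1, 1, true, .nr true (.g .d)), (4, 2, true, .can false), (3, 1, true, .can false),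
      (2, 0, false, .far (.g .m) 0 (.g .d)), (5, 0, true, .pu 0 3), (3, 1, true, .pu 10 1),
      (3, 1, false, .far (.g .e) 0 (.g .u)), (4, 0, false, .far (.g .m) 0 (.g .u)), (3, 0, true, .pu 2 1),
      (2, 0, true, .far (.g .m) 0 (.g .u)), (2, 1, false, .nl false (.g .u)), (1, 1, true, .can true),
      (0, 0, true, .pu 5 1)]
    (by decide +kernel) rfl
    ⟨Ty.cast (Ad_ty) (by simp only [W, List.getD_cons_zero, List.getD_cons_succ] <;> omega) (by simp only [W, List.getD_cons_zero, List.getD_cons_succ] <;> omega),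
      trivial⟩ trivial
    ⟨by have t := Ad_def (X := X); simp only [ev2, val, W, List.getD_cons_zero, List.getD_cons_succ, up_G, up_zero, up_up, map_mul, map_one, B_one_one, cr_true, cr_false, mul_one, one_mul, Nat.add_zero, Nat.zero_add, mul_assoc] at t ⊢; (try ring_nf at t); (try ring_nf); exact t,
      trivial⟩
  simp only [ev2, val, W, List.getD_cons_zero, List.getD_cons_succ, up_G, up_zero, up_up, map_mul, map_one, B_one_one, cr_true, cr_false, mul_one, one_mul, Nat.add_zero, Nat.zero_add, mul_assoc] at t ⊢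
  (try ring_nf at t)
  (try ring_nf)
  exact t

theorem mY :
    (G d 0 * G d 2 * G P 1 * Y * G P 1 * G m 1 * G m 0 : Cob X) =
      G m 0 := by
  have t := col_sound (X := X) (fun c => List.getD [1] c 0) [Y, Ad]
    [([0, 0], [0]), ([0, 0], [0])] []
    [([0, 0], [(1, .g .d), (0, .b 0), (0, .g .m)], [(0, .b 1)]),
      ([0, 0], [(0, .g .d), (1, .g .P), (0, .b 1), (0, .g .m)], [(0, .g .m)])]
    [([([0], .g .d), ([], .b 0), ([], .g .m)], [([], .b 1)]),
      ([([], .g .d), ([0], .br true 0 0), ([], .b 1), ([], .g .m)], [([], .g .m)])]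
    [0, 0] [(0, .g .d), (2, .g .d), (1, .g .P), (0, .b 0), (1, .g .P), (1, .g .m), (0, .g .m)]
    [(0, .g .m)]
    [([], .g .d), ([0, 0], .g .d), ([0], .br true 0 0), ([], .b 0), ([0], .br true 0 0), ([0], .g .m), ([], .g .m)]
    [([], .g .m)]
    [(2, 1, false, .can true), (3, 2, false, .can true), (1, 1, false, .nl true (.g .d)),
      (4, 1, true, .can false), (3, 0, false, .far (.b 0) 0 (.g .Q)), (4, 1, true, .can false),
      (4, 0, false, .pu 0 3), (2, 0, true, .co 0), (0, 0, true, .co 1)]
    (by decide +kernel) rfl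
    ⟨Ty.cast (Y_ty) (by simp only [W, List.getD_cons_zero, List.getD_cons_succ] <;> omega) (by simp only [W, List.getD_cons_zero, List.getD_cons_succ] <;> omega),
      Ty.cast (Ad_ty) (by simp only [W, List.getD_cons_zero, List.getD_cons_succ] <;> omega) (by simp only [W, List.getD_cons_zero, List.getD_cons_succ] <;> omega),
      trivial⟩ trivial
    ⟨by have t := adY (X := X); simp only [ev2, val, W, List.getD_cons_zero, List.getD_cons_succ, up_G, up_zero, up_up, map_mul, map_one, B_one_one, cr_true, cr_false, mul_one, one_mul, Nat.add_zero, Nat.zero_add, mul_assoc] at t ⊢; (try ring_nf at t); (try ring_nf); exact t,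
      by have t := adm (X := X); simp only [ev2, val, W, List.getD_cons_zero, List.getD_cons_succ, up_G, up_zero, up_up, map_mul, map_one, B_one_one, cr_true, cr_false, mul_one, one_mul, Nat.add_zero, Nat.zero_add, mul_assoc] at t ⊢; (try ring_nf at t); (try ring_nf); exact t,
      trivial⟩
  simp only [ev2, val, W, List.getD_cons_zero, List.getD_cons_succ, up_G, up_zero, up_up, map_mul, map_one, B_one_one, cr_true, cr_false, mul_one, one_mul, Nat.add_zero, Nat.zero_add, mul_assoc] at t ⊢
  (try ring_nf at t)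
  (try ring_nf)
  exact t

theorem Yu :
    (Y * G u 0 : Cob X) =
      G u 0 * G u 0 := by
  have t := col_sound (X := X) (fun c => List.getD [1] c 0) [Y]
    [([0, 0], [0])] []
    [
      ([0, 0], [(0, .b 0)], [(0, .g .d), (2, .g .d), (1, .g .P), (2, .g .S), (3, .g .S), (0, .g .m), (0, .g .m), (0, .g .m)]),
      ([0], [(0, .g .S), (0, .g .u)], [(0, .g .u)])]
    [
      ([([], .b 0)], [([], .g .d), ([0, 0], .g .d), ([0], .br true 0 0), ([0, 0], .g .S), ([0, 0, 0], .g .S), ([], .g .m), ([], .g .m), ([], .g .m)]),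
      ([([], .g .S), ([], .g .u)], [([], .g .u)])]
    [0, 0] [(0, .b 0), (0, .g .u)]
    [(0, .g .u), (0, .g .u)]
    [([], .b 0), ([], .g .u)]
    [([], .g .u), ([], .g .u)]
    [(0, 0, true, .co 0), (4, 0, false, .far (.g .m) 1 (.g .S)), (3, 0, false, .far (.g .m) 0 (.g .S)),
      (5, 0, false, .far (.g .m) 0 (.g .S)), (7, 0, true, .pu 7 2), (6, 0, false, .far (.g .u) 0 (.g .S)),
      (7, 0, true, .co 1), (6, 0, true, .far (.g .u) 0 (.g .u)), (5, 0, true, .far (.g .m) 0 (.g .u)),
      (4, 1, true, .far (.g .S) 0 (.g .u)), (3, 0, true, .far (.g .m) 1 (.g .u)),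
      (2, 1, true, .far (.g .P) 0 (.g .u)), (1, 2, true, .pu 5 1), (4, 0, true, .pu 7 2),
      (3, 0, false, .far (.g .u) 0 (.g .S)), (4, 0, true, .co 1), (3, 0, true, .far (.g .u) 0 (.g .u)),
      (2, 0, true, .far (.g .m) 0 (.g .u)), (2, 1, false, .nl false (.g .u)), (1, 1, true, .can true),
      (0, 0, true, .pu 5 1), (0, 0, true, .pu 7 2)]
    (by decide +kernel) rfl
    ⟨Ty.cast (Y_ty) (by simp only [W, List.getD_cons_zero, List.getD_cons_succ] <;> omega) (by simp only [W, List.getD_cons_zero, List.getD_cons_succ] <;> omega),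
      trivial⟩ trivial
    ⟨by have t := Y_def (X := X); simp only [ev2, val, W, List.getD_cons_zero, List.getD_cons_succ, up_G, up_zero, up_up, map_mul, map_one, B_one_one, cr_true, cr_false, mul_one, one_mul, Nat.add_zero, Nat.zero_add, mul_assoc] at t ⊢; (try ring_nf at t); (try ring_nf); exact t,
      by have t := Su (X := X); simp only [ev2, val, W, List.getD_cons_zero, List.getD_cons_succ, up_G, up_zero, up_up, map_mul, map_one, B_one_one, cr_true, cr_false, mul_one, one_mul, Nat.add_zero, Nat.zero_add, mul_assoc] at t ⊢; (try ring_nf at t); (try ring_nf); exact t,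
      trivial⟩
  simp only [ev2, val, W, List.getD_cons_zero, List.getD_cons_succ, up_G, up_zero, up_up, map_mul, map_one, B_one_one, cr_true, cr_false, mul_one, one_mul, Nat.add_zero, Nat.zero_add, mul_assoc] at t ⊢
  (try ring_nf at t)
  (try ring_nf)
  exact t

theorem eY0 :
    (G e 0 * Y : Cob X) =
      G u 0 * G e 0 := by
  have t := col_sound (X := X) (fun c => List.getD [1] c 0) [Y]
    [([0, 0], [0])] []
    [
      ([0, 0], [(0, .b 0)], [(0, .g .d), (2, .g .d), (1, .g .P), (2, .g .S), (3, .g .S), (0, .g .m), (0, .g .m), (0, .g .m)]),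
      ([], [(0, .g .e), (0, .g .S)], [(0, .g .e)])]
    [
      ([([], .b 0)], [([], .g .d), ([0, 0], .g .d), ([0], .br true 0 0), ([0, 0], .g .S), ([0, 0, 0], .g .S), ([], .g .m), ([], .g .m), ([], .g .m)]),
      ([([], .g .e), ([], .g .S)], [([], .g .e)])]
    [0] [(0, .g .e), (0, .b 0)]
    [(0, .g .u), (0, .g .e)]
    [([], .g .e), ([], .b 0)]
    [([], .g .u), ([], .g .e)]
    [(1, 0, true, .co 0), (5, 0, false, .far (.g .m) 1 (.g .S)), (4, 0, false, .far (.g .m) 0 (.g .S)),
      (6, 0, false, .far (.g .m) 0 (.g .S)), (0, 0, true, .pu 8 0), (1, 0, true, .far (.g .e) 1 (.g .d)),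
      (2, 0, true, .far (.g .e) 0 (.g .P)), (3, 0, true, .pu 1 1), (0, 0, true, .far (.g .e) 0 (.g .d)),
      (2, 0, false, .can true), (1, 0, true, .nr true (.g .e)), (2, 0, true, .can false),
      (1, 1, true, .co 1), (1, 0, true, .pu 2 1), (0, 0, true, .pu 11 1)]
    (by decide +kernel) rfl
    ⟨Ty.cast (Y_ty) (by simp only [W, List.getD_cons_zero, List.getD_cons_succ] <;> omega) (by simp only [W, List.getD_cons_zero, List.getD_cons_succ] <;> omega),
      trivial⟩ trivial
    ⟨by have t := Y_def (X := X); simp only [ev2, val, W, List.getD_cons_zero, List.getD_cons_succ, up_G, up_zero, up_up, map_mul, map_one, B_one_one, cr_true, cr_false, mul_one, one_mul, Nat.add_zero, Nat.zero_add, mul_assoc] at t ⊢; (try ring_nf at t); (try ring_nf); exact t,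
      by have t := eS (X := X); simp only [ev2, val, W, List.getD_cons_zero, List.getD_cons_succ, up_G, up_zero, up_up, map_mul, map_one, B_one_one, cr_true, cr_false, mul_one, one_mul, Nat.add_zero, Nat.zero_add, mul_assoc] at t ⊢; (try ring_nf at t); (try ring_nf); exact t,
      trivial⟩
  simp only [ev2, val, W, List.getD_cons_zero, List.getD_cons_succ, up_G, up_zero, up_up, map_mul, map_one, B_one_one, cr_true, cr_false, mul_one, one_mul, Nat.add_zero, Nat.zero_add, mul_assoc] at t ⊢
  (try ring_nf at t)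
  (try ring_nf)
  exact t

theorem eY1 :
    (G e 1 * Y : Cob X) =
      G u 0 * G e 0 := by
  have t := col_sound (X := X) (fun c => List.getD [1] c 0) [Y]
    [([0, 0], [0])] []
    [
      ([0, 0], [(0, .b 0)], [(0, .g .d), (2, .g .d), (1, .g .P), (2, .g .S), (3, .g .S), (0, .g .m), (0, .g .m), (0, .g .m)]),
      ([], [(0, .g .e), (0, .g .S)], [(0, .g .e)])]
    [
      ([([], .b 0)], [([], .g .d), ([0, 0], .g .d), ([0], .br true 0 0), ([0, 0], .g .S), ([0, 0, 0], .g .S), ([], .g .m), ([], .g .m), ([], .g .m)]),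
      ([([], .g .e), ([], .g .S)], [([], .g .e)])]
    [0] [(1, .g .e), (0, .b 0)]
    [(0, .g .u), (0, .g .e)]
    [([0], .g .e), ([], .b 0)]
    [([], .g .u), ([], .g .e)]
    [(1, 0, true, .co 0), (0, 0, false, .far (.g .d) 0 (.g .e)), (5, 0, false, .far (.g .m) 1 (.g .S)),
      (4, 0, false, .far (.g .m) 0 (.g .S)), (6, 0, false, .far (.g .m) 0 (.g .S)), (1, 2, true, .pu 8 0),
      (1, 2, false, .far (.g .e) 0 (.g .e)), (2, 1, false, .far (.g .P) 0 (.g .e)),
      (3, 0, false, .far (.g .m) 1 (.g .e)), (4, 1, false, .far (.g .S) 0 (.g .e)),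
      (5, 0, false, .far (.g .m) 0 (.g .e)), (6, 1, true, .co 1), (6, 0, true, .pu 2 1),
      (2, 1, false, .can true), (1, 1, false, .nl true (.g .e)), (2, 1, true, .can false),
      (1, 0, true, .pu 2 1), (0, 0, true, .pu 11 1)]
    (by decide +kernel) rfl
    ⟨Ty.cast (Y_ty) (by simp only [W, List.getD_cons_zero, List.getD_cons_succ] <;> omega) (by simp only [W, List.getD_cons_zero, List.getD_cons_succ] <;> omega),
      trivial⟩ trivial
    ⟨by have t := Y_def (X := X); simp only [ev2, val, W, List.getD_cons_zero, List.getD_cons_succ, up_G, up_zero, up_up, map_mul, map_one, B_one_one, cr_true, cr_false, mul_one, one_mul, Nat.add_zero, Nat.zero_add, mul_assoc] at t ⊢; (try ring_nf at t); (try ring_nf); exact t,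
      by have t := eS (X := X); simp only [ev2, val, W, List.getD_cons_zero, List.getD_cons_succ, up_G, up_zero, up_up, map_mul, map_one, B_one_one, cr_true, cr_false, mul_one, one_mul, Nat.add_zero, Nat.zero_add, mul_assoc] at t ⊢; (try ring_nf at t); (try ring_nf); exact t,
      trivial⟩
  simp only [ev2, val, W, List.getD_cons_zero, List.getD_cons_succ, up_G, up_zero, up_up, map_mul, map_one, B_one_one, cr_true, cr_false, mul_one, one_mul, Nat.add_zero, Nat.zero_add, mul_assoc] at t ⊢
  (try ring_nf at t)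
  (try ring_nf)
  exact t

end Pool.Agent.GH
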